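import Pool.Agent.Lib.H92C.Defs

/-!
# H92C, module A: basic lemmas (slices, truncations, patterns)
-/

open MvPolynomial

namespace H92C

section basic

variable {K R : Type} [Field K] [CommRing R] [Algebra K R] {n : ℕ}

theorem sl_apply (F : Fin n → ℤ) (v : W R (n + 1)) (c : Ch n) : sl F v c = v (F, c) := rfl

theorem sl_ext {v w : W R (n + 1)} (h : ∀ F, sl F v = sl F w) : v = w := by
  funext c
  exact congrFun (h c.1) c.2

theorem sl_smulK (F : Fin n → ℤ) (k : K) (v : W R (n + 1)) : sl F (k • v) = k • sl F v := rfl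

theorem sl_tr (E : Fin (n + 1) → ℤ) (F : Fin n → ℤ) (v : W R (n + 1)) :
    sl F (tr (n + 1) E v) = if Il E F then sl F v else 0 := by
  funext c
  by_cases h : Il E F <;> simp [sl, tr, h]

theorem sl_tr_pos {E : Fin (n + 1) → ℤ} {F : Fin n → ℤ} (h : Il E F) (v : W R (n + 1)) :
    sl F (tr (n + 1) E v) = sl F v := by rw [sl_tr, if_pos h]

theorem sl_tr_neg {E : Fin (n + 1) → ℤ} {F : Fin n → ℤ} (h : ¬ Il E F) (v : W R (n + 1)) :
    sl F (tr (n + 1) E v) = 0 := by rw [sl_tr, if_neg h]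

theorem tr_zero' (E : Fin 0 → ℤ) (v : W R 0) : tr 0 E v = v := rfl

theorem sl_sg (F G : Fin n → ℤ) (w : W R n) : sl F (sg G w) = if F = G then w else 0 := by
  funext c
  by_cases h : F = G <;> simp [sl, sg, h]

theorem sl_XX (z : ℤ → K) (x : ℕ → R) (s : K) (F : Fin n → ℤ) (v : W R (n + 1)) :
    sl F (XX z x (n + 1) s v) = x n • (pp z F s • sl F v) +
      ∑ b, LL z b s (F - ep b) • tr n F (XX z x n (z (F b - 1)) (sl (F - ep b) v)) := by
  funext c
  simp [sl, XX, Finset.sum_apply]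

theorem XX_zero (z : ℤ → K) (x : ℕ → R) (s : K) : XX z x 0 s = 0 := rfl

theorem map_smulK {m : ℕ} (f : W R n →ₗ[R] W R m) (k : K) (v : W R n) : f (k • v) = k • f v :=
  LinearMap.map_smul_of_tower f k v

theorem il_mono {E : Fin (n + 1) → ℤ} {F : Fin n → ℤ} (h : Il E F) : StrictMono E ∧ StrictMono F := by
  constructor
  · rw [Fin.strictMono_iff_lt_succ]
    intro i
    exact lt_of_le_of_lt (h i).1 (h i).2
  · intro i j hij
    have h1 := (h i).2
    have h2 := (h j).1
    refine lt_of_lt_of_le h1 (le_trans ?_ h2)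
    have : StrictMono E := by
      rw [Fin.strictMono_iff_lt_succ]
      intro i
      exact lt_of_le_of_lt (h i).1 (h i).2
    apply this.monotone
    rw [Fin.le_def]
    simp only [Fin.val_succ, Fin.val_castSucc]
    exact hij

theorem mem_U_zero (E : Fin 0 → ℤ) (v : W R 0) : v ∈ U R 0 E := fun _ hc => absurd trivial hc

theorem mem_U_succ {E : Fin (n + 1) → ℤ} {v : W R (n + 1)} :
    v ∈ U R (n + 1) E ↔ ∀ F, (Il E F → sl F v ∈ U R n F) ∧ (¬ Il E F → sl F v = 0) := by
  constructor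
  · intro h F
    refine ⟨fun hF c hc => h (F, c) (fun hg => hc hg.2), fun hF => ?_⟩
    funext c
    exact h (F, c) (fun hg => hF hg.1)
  · intro h c hc
    by_cases h1 : Il E c.1
    · exact (h c.1).1 h1 c.2 (fun h2 => hc ⟨h1, h2⟩)
    · exact congrFun ((h c.1).2 h1) c.2

theorem mem_Vv_succ {v : W R (n + 1)} : v ∈ Vv R (n + 1) ↔ ∀ F, sl F v ∈ U R n F := by
  constructor
  · intro h F c hc
    exact h (F, c) hc
  · intro h c hc
    exact h c.1 c.2 hc

theorem mem_Vv_zero (v : W R 0) : v ∈ Vv R 0 := trivial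

theorem U_le_Vv (E : Fin n → ℤ) : U R n E ≤ Vv R n := by
  cases n with
  | zero => intro v _; trivial
  | succ n =>
    intro v hv
    rw [mem_Vv_succ]
    intro F
    by_cases h : Il E F
    · exact ((mem_U_succ.1 hv) F).1 h
    · rw [((mem_U_succ.1 hv) F).2 h]; exact Submodule.zero_mem _

theorem U_bot {E : Fin (n + 2) → ℤ} (h : ¬ StrictMono E) : U R (n + 2) E = ⊥ := by
  rw [eq_bot_iff]
  intro v hv
  rw [Submodule.mem_bot]
  exact sl_ext fun F => ((mem_U_succ.1 hv) F).2 fun hF => h (il_mono hF).1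

theorem tr_bot {E : Fin (n + 2) → ℤ} (h : ¬ StrictMono E) : tr (n + 2) E = (0 : W R (n + 2) →ₗ[R] W R (n + 2)) := by
  ext1 v
  exact sl_ext fun F => by rw [sl_tr_neg (fun hF => h (il_mono hF).1)]; rfl

theorem mono_one (E : Fin 1 → ℤ) : StrictMono E := fun i j hij => absurd hij (by rw [Subsingleton.elim i j]; exact lt_irrefl _)

theorem mono_zero (E : Fin 0 → ℤ) : StrictMono E := fun i => i.elim0

/-- Nonzero vectors under E only exist for increasing E. -/
theorem U_mono {E : Fin n → ℤ} {v : W R n} (hv : v ∈ U R n E) (h0 : v ≠ 0) : StrictMono E := by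
  by_contra h
  match n, E, v, hv, h0, h with
  | 0, E, v, hv, h0, h => exact h (mono_zero E)
  | 1, E, v, hv, h0, h => exact h (mono_one E)
  | n + 2, E, v, hv, h0, h => rw [U_bot h] at hv; exact h0 hv

theorem tr_mem {E : Fin n → ℤ} {v : W R n} (hv : v ∈ Vv R n) : tr n E v ∈ U R n E := by
  cases n with
  | zero => exact mem_U_zero _ _
  | succ n =>
    rw [mem_U_succ]
    intro F
    refine ⟨fun hF => ?_, fun hF => sl_tr_neg hF v⟩
    rw [sl_tr_pos hF]
    exact mem_Vv_succ.1 hv F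

theorem tr_of_mem {E : Fin n → ℤ} {v : W R n} (hv : v ∈ U R n E) : tr n E v = v := by
  cases n with
  | zero => rfl
  | succ n =>
    refine sl_ext fun F => ?_
    by_cases h : Il E F
    · exact sl_tr_pos h v
    · rw [sl_tr_neg h, ((mem_U_succ.1 hv) F).2 h]

end basic

/-- There are finitely many patterns under E. -/
theorem gd_finite : ∀ (n : ℕ) (E : Fin n → ℤ), {c : Ch n | gd n E c}.Finite
  | 0, _ => (Set.finite_univ (α := Unit)).subset (Set.subset_univ _)
  | n + 1, E => by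
    have h : {c : Ch (n + 1) | gd (n + 1) E c} ⊆ ⋃ F ∈ (IF E : Set (Fin n → ℤ)), (fun c : Ch n => ((F, c) : Ch (n + 1))) '' {c | gd n F c} := by
      rintro ⟨F, c⟩ hc
      simp only [Set.mem_iUnion]
      exact ⟨F, (mem_IF E F).2 hc.1, c, hc.2, rfl⟩
    exact (Set.Finite.biUnion (IF E).finite_toSet (fun F _ => (gd_finite n F).image _)).subset h

instance (n : ℕ) (E : Fin n → ℤ) : Finite {c : Ch n // gd n E c} := (gd_finite n E).to_subtype

end H92C
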