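import Pool.Agent.Lib.H92C.ADefs

/-!
# H92C, chunk A01: supports of vectors

Notation: Su R j a = the vectors supported on the rows F with F j ≥ a.
Slices of X(s)v: sl_XX (A00): sl F (X(s)v) = x_n • (p_F(s) • sl F v) + Σ_b L_b(s; F - ε_b) • tr F (X_n(z(F_b - 1)) (sl (F - ε_b) v)).
-/

open MvPolynomial

namespace H92C

variable {K R : Type} [Field K] [CommRing R] [Algebra K R] {n : ℕ}

theorem a01_mono (j : Fin n) {a b : ℤ} (h : a ≤ b) : Su R j b ≤ Su R j a := by
  intro v hv F hF
  exact hv F (lt_of_lt_of_le hF h)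

/-- X(s) does not lower the rows: if F j < a then both sl F v and sl (F - ε_b) v vanish. -/
theorem a01_XX (z : ℤ → K) (x : ℕ → R) (s : K) (j : Fin n) (a : ℤ) (v : W R (n + 1)) (hv : v ∈ Su R j a) :
    XX z x (n + 1) s v ∈ Su R j a := by
  intro F hF
  rw [sl_XX, hv F hF, smul_zero, smul_zero, zero_add]
  refine Finset.sum_eq_zero fun b _ => ?_
  have h1 : (F - ep b) j < a := by
    have h2 : 0 ≤ ep b j := by
      by_cases h : j = b
      · subst h; simp [ep]
      · simp [ep, h]
    rw [Pi.sub_apply]; linarith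
  rw [hv _ h1, map_zero, map_zero, smul_zero]

/-- X(z a) raises: for F j = a the factor s - z (F j) of p_F(s) and of L_b(s; F - ε_b), b ≠ j, vanishes, and for b = j the
slice sl (F - ε_j) v vanishes. -/
theorem a01_XX_step (z : ℤ → K) (x : ℕ → R) (j : Fin n) (a : ℤ) (v : W R (n + 1)) (hv : v ∈ Su R j a) :
    XX z x (n + 1) (z a) v ∈ Su R j (a + 1) := by
  intro F hF
  rcases (Int.lt_add_one_iff.1 hF).lt_or_eq with h0 | h0
  · exact a01_XX z x (z a) j a v hv F h0
  have hp : pp z F (z a) = 0 := by
    rw [pp]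
    exact Finset.prod_eq_zero (Finset.mem_univ j) (by rw [h0, sub_self])
  rw [sl_XX, hp, zero_smul, smul_zero, zero_add]
  refine Finset.sum_eq_zero fun b _ => ?_
  by_cases hb : j = b
  · subst hb
    have h1 : (F - ep j) j < a := by
      rw [Pi.sub_apply, h0]; simp [ep]
    rw [hv _ h1, map_zero, map_zero, smul_zero]
  · have hL : LL z b (z a) (F - ep b) = 0 := by
      rw [LL]
      refine Finset.prod_eq_zero (i := j) (Finset.mem_erase.2 ⟨hb, Finset.mem_univ j⟩) ?_
      have h2 : (F - ep b) j = a := by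
        rw [Pi.sub_apply, h0]; simp [ep, hb]
      rw [h2, sub_self, zero_div]
    rw [hL, zero_smul]

theorem a01_QQ (z : ℤ → K) (x : ℕ → R) (j : Fin n) (a b : ℤ) (r : ℕ) (v : W R (n + 1)) (hv : v ∈ Su R j a) :
    QQ z x (n + 1) b r v ∈ Su R j a := by
  induction r with
  | zero => exact hv
  | succ r ih => exact a01_XX z x _ j a _ ih

theorem a01_QQ_step (z : ℤ → K) (x : ℕ → R) (j : Fin n) (a : ℤ) (r : ℕ) (v : W R (n + 1)) (hv : v ∈ Su R j a) :
    QQ z x (n + 1) a r v ∈ Su R j (a + r) := by
  induction r with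
  | zero =>
    have h0 : a + ((0 : ℕ) : ℤ) = a := by simp
    rw [h0]
    exact hv
  | succ r ih =>
    have h1 := a01_XX_step z x j (a + r) _ ih
    have h2 : a + ((r + 1 : ℕ) : ℤ) = a + r + 1 := by push_cast; ring
    rw [h2]
    exact h1

theorem a01_tr (E : Fin (n + 1) → ℤ) (j : Fin n) (a : ℤ) (v : W R (n + 1)) (hv : v ∈ Su R j a) :
    tr (n + 1) E v ∈ Su R j a := by
  intro F hF
  rw [sl_tr]
  split_ifs
  · exact hv F hF
  · rfl

/-- The truncation kills rows which are too high: F j ≥ E_{j+1} is not interlacing. -/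
theorem a01_kill (E : Fin (n + 1) → ℤ) (j : Fin n) (a : ℤ) (ha : E j.succ ≤ a) (v : W R (n + 1)) (hv : v ∈ Su R j a) :
    tr (n + 1) E v = 0 := by
  refine sl_ext fun F => ?_
  rw [sl_tr]
  split_ifs with h
  · rw [hv F (lt_of_lt_of_le (h j).2 ha), map_zero]
  · rw [map_zero]

theorem a01_U (E : Fin (n + 1) → ℤ) (j : Fin n) (v : W R (n + 1)) (hv : v ∈ U R (n + 1) E) :
    v ∈ Su R j (E j.castSucc) := by
  intro F hF
  exact ((mem_U_succ.1 hv) F).2 fun h => absurd (h j).1 (not_le.2 hF)

/-- Truncations are harmless. v is bounded below by E1; the map O sends the vectors supported on F_j ≥ E1_{j+1} to vectors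
supported on F_j ≥ E2_{j+1} (for each j). Then the truncation to E1 before O is not seen after the truncation to E2.
Proof: v - tr E1 v = Σ_j v_j, where v_j is the restriction of v to the rows F which do not interlace E1 and for which j is the smallest
index with F_j ≥ E1_{j+1} (rows with sl F v ≠ 0 satisfy F_j ≥ E1_j for all j, so if they do not interlace E1 there is such an index).
v_j is in Su j (E1_{j+1}), so O v_j is in Su j (E2_{j+1}) and is killed by tr E2 (a01_kill). -/
theorem a01_harm (E1 E2 : Fin (n + 1) → ℤ) (O : W R (n + 1) →ₗ[R] W R (n + 1)) (v : W R (n + 1))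
    (hlow : ∀ j : Fin n, v ∈ Su R j (E1 j.castSucc))
    (hO : ∀ j : Fin n, ∀ w ∈ Su R j (E1 j.succ), O w ∈ Su R j (E2 j.succ)) :
    tr (n + 1) E2 (O (tr (n + 1) E1 v)) = tr (n + 1) E2 (O v) := by
  classical
  have key : ∀ s : Finset (Fin n), ∀ w : W R (n + 1), w = (fun c => if ∀ j ∈ s, c.1 j < E1 j.succ then v c else 0) →
      tr (n + 1) E2 (O w) = tr (n + 1) E2 (O v) := by
    intro s
    induction s using Finset.induction_on with
    | empty =>
      intro w hw
      have : w = v := by rw [hw]; funext c; simp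
      rw [this]
    | insert j s hj ih =>
      intro w hw
      have h1 := ih _ rfl
      rw [← h1]
      have h2 : (fun c : Ch (n + 1) => if ∀ j ∈ s, c.1 j < E1 j.succ then v c else 0) - w ∈ Su R j (E1 j.succ) := by
        intro F hF
        funext c
        have h3 : (∀ i ∈ insert j s, F i < E1 i.succ) ↔ ∀ i ∈ s, F i < E1 i.succ := by
          constructor
          · intro h i hi; exact h i (Finset.mem_insert_of_mem hi)
          · intro h i hi
            rcases Finset.mem_insert.1 hi with h4 | h4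
            · rw [h4]; exact hF
            · exact h i h4
        rw [hw]
        show (if ∀ i ∈ s, F i < E1 i.succ then v (F, c) else 0) - (if ∀ i ∈ insert j s, F i < E1 i.succ then v (F, c) else 0) = 0
        by_cases h5 : ∀ i ∈ s, F i < E1 i.succ
        · rw [if_pos h5, if_pos (h3.2 h5), sub_self]
        · rw [if_neg h5, if_neg (fun h => h5 (h3.1 h)), sub_self]
      have h4 := a01_kill E2 j (E2 j.succ) le_rfl _ (hO j _ h2)
      rw [map_sub, map_sub, sub_eq_zero] at h4
      exact h4.symm
  refine key Finset.univ _ ?_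
  funext c
  show (if Il E1 c.1 then v c else 0) = _
  by_cases h : Il E1 c.1
  · rw [if_pos h, if_pos (fun j _ => (h j).2)]
  · rw [if_neg h]
    split_ifs with h1
    · have h2 : ∃ j, c.1 j < E1 j.castSucc := by
        by_contra h3
        push Not at h3
        exact h fun j => ⟨h3 j, h1 j (Finset.mem_univ j)⟩
      obtain ⟨j, hj⟩ := h2
      exact (congrFun (hlow j c.1 hj) c.2).symm
    · rfl

end H92C
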