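import Pool.Agent.Lib.H92C.A01

/-!
# H92C, chunk A02: the operators preserve the valid vectors
-/

open MvPolynomial

namespace H92C

variable {K R : Type} [Field K] [CommRing R] [Algebra K R] {n : ℕ}

/-- Induction on n. Level n + 1: by mem_Vv_succ and sl_XX, sl F (X(s)v) is a sum of a multiple of sl F v (in U n F) and of multiples of
tr F (X_n(..) (sl (F - ε_b) v)); sl (F - ε_b) v is in U n (F - ε_b), so in Vv (U_le_Vv), X_n preserves Vv by induction, and tr F maps
Vv to U n F (tr_mem). -/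
theorem a02_XX (z : ℤ → K) (x : ℕ → R) (n : ℕ) (s : K) (v : W R n) (hv : v ∈ Vv R n) : XX z x n s v ∈ Vv R n := by
  induction n generalizing s with
  | zero => exact mem_Vv_zero _
  | succ n ih =>
    rw [mem_Vv_succ]
    intro F
    rw [sl_XX]
    refine Submodule.add_mem _ ?_ (Submodule.sum_mem _ fun b _ => ?_)
    · exact Submodule.smul_mem _ _ (Submodule.smul_of_tower_mem _ _ (mem_Vv_succ.1 hv F))
    · exact Submodule.smul_of_tower_mem _ _ (tr_mem (ih _ _ (U_le_Vv _ (mem_Vv_succ.1 hv _))))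

theorem a02_QQ (z : ℤ → K) (x : ℕ → R) (n : ℕ) (a : ℤ) (r : ℕ) (v : W R n) (hv : v ∈ Vv R n) : QQ z x n a r v ∈ Vv R n := by
  induction r with
  | zero => exact hv
  | succ r ih => exact a02_XX z x n _ _ ih

theorem a02_tr (E : Fin n → ℤ) (v : W R n) (hv : v ∈ Vv R n) : tr n E v ∈ Vv R n := by
  exact U_le_Vv E (tr_mem hv)

theorem a02_sg (F : Fin n → ℤ) (w : W R n) (hw : w ∈ U R n F) : sg F w ∈ Vv R (n + 1) := by
  rw [mem_Vv_succ]
  intro G
  rw [sl_sg]
  split_ifs with h
  · rw [h]; exact hw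
  · exact Submodule.zero_mem _

/-- de maps U E to U (E + ε_a). -/
theorem a02_de (z : ℤ → K) (x : ℕ → R) (E : Fin n → ℤ) (a : Fin n) (v : W R n) (hv : v ∈ U R n E) :
    de z x E a v ∈ U R n (E + ep a) := by
  exact tr_mem (a02_XX z x n _ v (U_le_Vv E hv))

end H92C
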