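import Pool.Agent.Lib.H92C.A02

/-!
# H92C, chunk A03: commutation of the operators X(s), part 1: scalar identities
-/

open MvPolynomial

namespace H92C

variable {K : Type} [Field K] {n : ℕ}

theorem a03_ne (F : Fin n → ℤ) {b c : Fin n} (h : c ≠ b) : (F - ep b) c = F c := by
  simp [ep, Pi.single_eq_of_ne h]

theorem a03_eq (F : Fin n → ℤ) (b : Fin n) : (F - ep b) b = F b - 1 := by
  simp [ep]

/-- L_b(s; F) only depends on the entries c ≠ b of F in the numerator; the product is symmetric in s, s'. -/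
theorem a03_bb (z : ℤ → K) (b : Fin n) (s s' : K) (F : Fin n → ℤ) :
    LL z b s (F - ep b) * LL z b s' (F - ep b - ep b) = LL z b s' (F - ep b) * LL z b s (F - ep b - ep b) := by
  simp only [LL]
  rw [← Finset.prod_mul_distrib, ← Finset.prod_mul_distrib]
  refine Finset.prod_congr rfl fun c hc => ?_
  have hcb : c ≠ b := Finset.ne_of_mem_erase hc
  rw [a03_ne (F - ep b) hcb, a03_ne F hcb]
  ring

/-- p_F(s) L_b(s'; F - ε_b) + L_b(s; F - ε_b) p_{F-ε_b}(s') is symmetric: with P(s) = Π_{c≠b}(s - z(F c)) and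
Den = Π_{c≠b}(z(F_b - 1) - z(F_c)) it is P(s)P(s')/Den * ((s - z(F_b)) + (s' - z(F_b - 1))). -/
theorem a03_b (z : ℤ → K) (b : Fin n) (s s' : K) (F : Fin n → ℤ) :
    pp z F s * LL z b s' (F - ep b) + LL z b s (F - ep b) * pp z (F - ep b) s' =
      pp z F s' * LL z b s (F - ep b) + LL z b s' (F - ep b) * pp z (F - ep b) s := by
  have h1 : ∀ t : K, pp z F t = (t - z (F b)) * ∏ c ∈ Finset.univ.erase b, (t - z (F c)) := fun t =>
    (Finset.mul_prod_erase Finset.univ (fun j => t - z (F j)) (Finset.mem_univ b)).symm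
  have h2 : ∀ t : K, pp z (F - ep b) t = (t - z (F b - 1)) * ∏ c ∈ Finset.univ.erase b, (t - z (F c)) := by
    intro t
    rw [pp, ← Finset.mul_prod_erase Finset.univ (fun j => t - z ((F - ep b) j)) (Finset.mem_univ b), a03_eq]
    congr 1
    refine Finset.prod_congr rfl fun c hc => ?_
    rw [a03_ne F (Finset.ne_of_mem_erase hc)]
  have h3 : ∀ t : K, LL z b t (F - ep b) = (∏ c ∈ Finset.univ.erase b, (t - z (F c))) /
      ∏ c ∈ Finset.univ.erase b, (z (F b - 1) - z (F c)) := by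
    intro t
    rw [LL, ← Finset.prod_div_distrib]
    refine Finset.prod_congr rfl fun c hc => ?_
    rw [a03_ne F (Finset.ne_of_mem_erase hc), a03_eq]
  rw [h1, h1, h2, h2, h3, h3]
  ring

/-- For b ≠ c. With u = z(F_b - 1), u' = z(F_c - 1), u1 = z(F_b), u1' = z(F_c), A(s) = Π_{d ≠ b,c}(s - z(F_d)) the left side is
A(s)A(s')/(A(u)A(u')) * [(s-u1')(s'-u)(u'-u1) - (s-u1)(s'-u')(u-u1')]/((u-u1')(u'-u)(u'-u1)); the bracket is a bilinear polynomial in s, s' with
the same coefficient u u1 - u' u1' at s and s' (hypotheses: the denominators u - u1', u' - u1, u' - u are nonzero). -/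
theorem a03_bc (z : ℤ → K) (b c : Fin n) (hbc : b ≠ c) (s s' : K) (F : Fin n → ℤ)
    (h1 : z (F b - 1) ≠ z (F c)) (h2 : z (F c - 1) ≠ z (F b)) (h3 : z (F b - 1) ≠ z (F c - 1)) :
    LL z b s (F - ep b) * LL z c s' (F - ep b - ep c) + LL z c s (F - ep c) * LL z b s' (F - ep c - ep b) =
      LL z b s' (F - ep b) * LL z c s (F - ep b - ep c) + LL z c s' (F - ep c) * LL z b s (F - ep c - ep b) := by
  obtain ⟨Q, hQ⟩ : ∃ Q : K → K → K, ∀ t u, Q t u = ∏ d ∈ (Finset.univ.erase b).erase c, ((t - z (F d)) / (u - z (F d))) :=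
    ⟨_, fun _ _ => rfl⟩
  have hX : ∀ t t' u u', Q t u' * Q t' u = Q t u * Q t' u' := by
    intro t t' u u'
    rw [hQ, hQ, hQ, hQ, ← Finset.prod_mul_distrib, ← Finset.prod_mul_distrib]
    refine Finset.prod_congr rfl fun d _ => ?_
    ring
  have h4 : ∀ t : K, LL z b t (F - ep b) = (t - z (F c)) / (z (F b - 1) - z (F c)) * Q t (z (F b - 1)) := by
    intro t
    rw [LL, ← Finset.mul_prod_erase (Finset.univ.erase b)
      (fun d => (t - z ((F - ep b) d)) / (z ((F - ep b) b) - z ((F - ep b) d)))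
      (Finset.mem_erase.2 ⟨hbc.symm, Finset.mem_univ c⟩), a03_eq, a03_ne F hbc.symm, hQ]
    congr 1
    refine Finset.prod_congr rfl fun d hd => ?_
    rw [a03_ne F (Finset.ne_of_mem_erase (Finset.mem_of_mem_erase hd))]
  have h5 : ∀ t : K, LL z c t (F - ep c) = (t - z (F b)) / (z (F c - 1) - z (F b)) * Q t (z (F c - 1)) := by
    intro t
    rw [LL, ← Finset.mul_prod_erase (Finset.univ.erase c)
      (fun d => (t - z ((F - ep c) d)) / (z ((F - ep c) c) - z ((F - ep c) d)))
      (Finset.mem_erase.2 ⟨hbc, Finset.mem_univ b⟩), a03_eq, a03_ne F hbc, hQ, Finset.erase_right_comm]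
    congr 1
    refine Finset.prod_congr rfl fun d hd => ?_
    rw [a03_ne F (Finset.ne_of_mem_erase hd)]
  have h6 : ∀ t : K, LL z c t (F - ep b - ep c) =
      (t - z (F b - 1)) / (z (F c - 1) - z (F b - 1)) * Q t (z (F c - 1)) := by
    intro t
    rw [LL, ← Finset.mul_prod_erase (Finset.univ.erase c)
      (fun d => (t - z ((F - ep b - ep c) d)) / (z ((F - ep b - ep c) c) - z ((F - ep b - ep c) d)))
      (Finset.mem_erase.2 ⟨hbc, Finset.mem_univ b⟩), a03_eq, a03_ne (F - ep b) hbc, a03_eq, a03_ne F hbc.symm,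
      hQ, Finset.erase_right_comm]
    congr 1
    refine Finset.prod_congr rfl fun d hd => ?_
    rw [a03_ne (F - ep b) (Finset.ne_of_mem_erase hd),
      a03_ne F (Finset.ne_of_mem_erase (Finset.mem_of_mem_erase hd))]
  have h7 : ∀ t : K, LL z b t (F - ep c - ep b) =
      (t - z (F c - 1)) / (z (F b - 1) - z (F c - 1)) * Q t (z (F b - 1)) := by
    intro t
    rw [LL, ← Finset.mul_prod_erase (Finset.univ.erase b)
      (fun d => (t - z ((F - ep c - ep b) d)) / (z ((F - ep c - ep b) b) - z ((F - ep c - ep b) d)))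
      (Finset.mem_erase.2 ⟨hbc.symm, Finset.mem_univ c⟩), a03_eq, a03_ne (F - ep c) hbc.symm, a03_eq, a03_ne F hbc,
      hQ]
    congr 1
    refine Finset.prod_congr rfl fun d hd => ?_
    rw [a03_ne (F - ep c) (Finset.ne_of_mem_erase (Finset.mem_of_mem_erase hd)),
      a03_ne F (Finset.ne_of_mem_erase hd)]
  rw [h4 s, h4 s', h5 s, h5 s', h6 s, h6 s', h7 s, h7 s']
  have hX1 := hX s s' (z (F b - 1)) (z (F c - 1))
  have hX2 := hX s' s (z (F b - 1)) (z (F c - 1))
  generalize z (F b - 1) = u at *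
  generalize z (F c - 1) = u' at *
  generalize z (F b) = u1 at *
  generalize z (F c) = u1' at *
  have e1 : u - u1' ≠ 0 := sub_ne_zero.2 h1
  have e2 : u' - u1 ≠ 0 := sub_ne_zero.2 h2
  have e3 : u - u' ≠ 0 := sub_ne_zero.2 h3
  have e4 : u' - u ≠ 0 := sub_ne_zero.2 (Ne.symm h3)
  have key : (s - u1') / (u - u1') * ((s' - u) / (u' - u)) + (s - u1) / (u' - u1) * ((s' - u') / (u - u')) =
      (s' - u1') / (u - u1') * ((s - u) / (u' - u)) + (s' - u1) / (u' - u1) * ((s - u') / (u - u')) := by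
    have e5 : u' - u = -(u - u') := by ring
    rw [e5]
    field_simp
    ring
  linear_combination ((s - u1) / (u' - u1) * ((s' - u') / (u - u')) - (s' - u1') / (u - u1') * ((s - u) / (u' - u))) * hX1 +
    Q s u * Q s' u' * key

end H92C
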