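import Pool.Agent.Lib.H92C.A02

/-!
# H92C, chunk A04: commutation of the operators X(s), part 2: expansion of X(s)X(s')
-/

open MvPolynomial

namespace H92C

variable {K R : Type} [Field K] [CommRing R] [Algebra K R] {n : ℕ}

/-- sl_XX with Dq. -/
theorem a04_one (z : ℤ → K) (x : ℕ → R) (s : K) (F : Fin n → ℤ) (v : W R (n + 1)) :
    sl F (XX z x (n + 1) s v) = x n • (pp z F s • sl F v) + ∑ b, LL z b s (F - ep b) • Dq z x F b (sl (F - ep b) v) := by
  exact sl_XX z x s F v


/-- Expansion: apply a04_one twice (map_add, map_sum, map_smul, map_smulK). -/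
theorem a04_two (z : ℤ → K) (x : ℕ → R) (s s' : K) (F : Fin n → ℤ) (v : W R (n + 1)) :
    sl F (XX z x (n + 1) s (XX z x (n + 1) s' v)) =
      (x n * x n) • ((pp z F s * pp z F s') • sl F v) +
      ∑ b, (pp z F s * LL z b s' (F - ep b) + LL z b s (F - ep b) * pp z (F - ep b) s') •
        (x n • Dq z x F b (sl (F - ep b) v)) +
      ∑ b, ∑ c, (LL z b s (F - ep b) * LL z c s' (F - ep b - ep c)) •
        Dq z x F b (Dq z x (F - ep b) c (sl (F - ep b - ep c) v)) := by
  rw [a04_one z x s F (XX z x (n + 1) s' v), a04_one z x s' F v]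
  have h1 : ∀ b, LL z b s (F - ep b) • Dq z x F b (sl (F - ep b) (XX z x (n + 1) s' v)) =
      (LL z b s (F - ep b) * pp z (F - ep b) s') • (x n • Dq z x F b (sl (F - ep b) v)) +
      ∑ c, (LL z b s (F - ep b) * LL z c s' (F - ep b - ep c)) •
        Dq z x F b (Dq z x (F - ep b) c (sl (F - ep b - ep c) v)) := by
    intro b
    rw [a04_one z x s' (F - ep b) v, map_add, map_smul, map_smulK, map_sum, smul_add, Finset.smul_sum]
    congr 1
    · rw [mul_smul, smul_comm (x n) (pp z (F - ep b) s')]
    · refine Finset.sum_congr rfl (fun c _ => ?_)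
      rw [map_smulK, smul_smul]
  have h2 : x n • (pp z F s • (x n • (pp z F s' • sl F v) + ∑ b, LL z b s' (F - ep b) • Dq z x F b (sl (F - ep b) v))) =
      (x n * x n) • ((pp z F s * pp z F s') • sl F v) +
      ∑ b, (pp z F s * LL z b s' (F - ep b)) • (x n • Dq z x F b (sl (F - ep b) v)) := by
    rw [smul_add, smul_add, Finset.smul_sum, Finset.smul_sum]
    congr 1
    · rw [smul_comm (pp z F s) (x n), smul_smul, smul_smul]
    · refine Finset.sum_congr rfl (fun c _ => ?_)
      rw [mul_smul, smul_comm (x n) (pp z F s), smul_comm (x n) (LL z c s' (F - ep c))]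
  rw [h2, Finset.sum_congr rfl (fun b _ => h1 b), Finset.sum_add_distrib]
  simp only [add_smul, Finset.sum_add_distrib]
  abel


end H92C
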