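import Pool.Agent.Lib.H92C.A02

/-!
# H92C, chunk A05: commutation of the operators X(s), part 3: the inner operators (induction hypothesis)
-/

open MvPolynomial

namespace H92C

variable {K R : Type} [Field K] [CommRing R] [Algebra K R]

theorem a05_ne {n : ℕ} (F : Fin n → ℤ) {b c : Fin n} (h : c ≠ b) : (F - ep b) c = F c := by
  simp [ep, Pi.single_eq_of_ne h]

theorem a05_eq {n : ℕ} (F : Fin n → ℤ) (b : Fin n) : (F - ep b) b = F b - 1 := by
  simp [ep]

/-- For w under F - ε_b - ε_c, b ≠ c, both iterated operators are tr F X X w (the inner truncation is harmless). Level n ≥ 2 (as b ≠ c).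
Write n = m + 1. Dq F b (Dq (F - ε_b) c w) = tr F (X(z(F_b - 1)) (tr (F - ε_b) (X(z(F_c - 1)) w))) (note (F - ε_b)_c = F_c). Apply a01_harm with
E1 = F - ε_b, E2 = F, O = X(z(F_b - 1)), v = X(z(F_c - 1)) w: lower bounds: w is in Su j (F_j - ..) by a01_U, X does not lower (a01_XX), and for
j with j.castSucc = c use a01_XX_step (w in Su j (F_c - 1)); hO: for j.succ = b, E1_{j+1} = F_b - 1: a01_XX_step; otherwise E1_{j+1} = F_{j+1} and a01_XX. -/
theorem a05_one (z : ℤ → K) (x : ℕ → R) (n : ℕ) (F : Fin n → ℤ) (b c : Fin n) (hbc : b ≠ c) (w : W R n)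
    (hw : w ∈ U R n (F - ep b - ep c)) :
    Dq z x F b (Dq z x (F - ep b) c w) = tr n F (XX z x n (z (F b - 1)) (XX z x n (z (F c - 1)) w)) := by
  match n, F, b, c, hbc, w, hw with
  | 0, F, b, c, hbc, w, hw => exact b.elim0
  | m + 1, F, b, c, hbc, w, hw =>
    have h1 : Dq z x F b (Dq z x (F - ep b) c w) = tr (m + 1) F (XX z x (m + 1) (z (F b - 1))
        (tr (m + 1) (F - ep b) (XX z x (m + 1) (z (F c - 1)) w))) := by
      show tr (m + 1) F (XX z x (m + 1) (z (F b - 1)) (tr (m + 1) (F - ep b)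
        (XX z x (m + 1) (z ((F - ep b) c - 1)) w))) = _
      rw [a05_ne F hbc.symm]
    rw [h1]
    apply a01_harm
    · intro j
      have h2 := a01_U (F - ep b - ep c) j w hw
      by_cases hj : j.castSucc = c
      · rw [hj, a05_eq, a05_ne F hbc.symm] at h2
        have h3 := a01_XX_step z x j (F c - 1) w h2
        rw [sub_add_cancel] at h3
        rw [hj, a05_ne F hbc.symm]
        exact h3
      · rw [a05_ne (F - ep b) hj] at h2
        exact a01_XX z x _ j _ w h2
    · intro j w' hw'
      by_cases hj : j.succ = b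
      · rw [hj, a05_eq] at hw'
        have h3 := a01_XX_step z x j (F b - 1) w' hw'
        rw [sub_add_cancel] at h3
        rw [hj]
        exact h3
      · rw [a05_ne F hj] at hw'
        exact a01_XX z x _ j _ w' hw'

/-- The two orders agree, by a05_one (twice, with sub_right_comm) and the commutation at level n. -/
theorem a05_comm (z : ℤ → K) (x : ℕ → R) (n : ℕ)
    (ih : ∀ (s s' : K) (v : W R n), v ∈ Vv R n → XX z x n s (XX z x n s' v) = XX z x n s' (XX z x n s v))
    (F : Fin n → ℤ) (b c : Fin n) (hbc : b ≠ c) (w : W R n) (hw : w ∈ U R n (F - ep b - ep c)) :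
    Dq z x F b (Dq z x (F - ep b) c w) = Dq z x F c (Dq z x (F - ep c) b w) := by
  rw [a05_one z x n F b c hbc w hw, a05_one z x n F c b hbc.symm w (by rw [sub_right_comm]; exact hw),
    ih _ _ w (U_le_Vv _ hw)]

/-- If F - ε_b or F - ε_c is not increasing, the (common) value is 0: n ≥ 2, tr (F - ε_b) = 0 (tr_bot) resp. tr (F - ε_c) = 0. -/
theorem a05_zero (z : ℤ → K) (x : ℕ → R) (n : ℕ)
    (ih : ∀ (s s' : K) (v : W R n), v ∈ Vv R n → XX z x n s (XX z x n s' v) = XX z x n s' (XX z x n s v))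
    (F : Fin n → ℤ) (b c : Fin n) (hbc : b ≠ c) (w : W R n) (hw : w ∈ U R n (F - ep b - ep c))
    (h : ¬ StrictMono (F - ep b) ∨ ¬ StrictMono (F - ep c)) :
    Dq z x F b (Dq z x (F - ep b) c w) = 0 := by
  match n, ih, F, b, c, hbc, w, hw, h with
  | 0, ih, F, b, c, hbc, w, hw, h => exact b.elim0
  | 1, ih, F, b, c, hbc, w, hw, h => exact absurd (Subsingleton.elim b c) hbc
  | m + 2, ih, F, b, c, hbc, w, hw, h =>
    have key : ∀ b c : Fin (m + 2), ¬ StrictMono (F - ep b) → Dq z x F b (Dq z x (F - ep b) c w) = 0 := by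
      intro b c hb
      have h1 : Dq z x (F - ep b) c w = 0 := by
        show tr (m + 2) (F - ep b) (XX z x (m + 2) (z ((F - ep b) c - 1)) w) = 0
        rw [tr_bot hb]
        rfl
      rw [h1, map_zero]
    rcases h with h | h
    · exact key b c h
    · rw [a05_comm z x (m + 2) ih F b c hbc w hw]
      exact key c b h

end H92C
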