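import Pool.Agent.Lib.H92C.A03
import Pool.Agent.Lib.H92C.A04
import Pool.Agent.Lib.H92C.A05

/-!
# H92C, chunk A06: commutation of the operators X(s), assembly
-/

open MvPolynomial

namespace H92C

variable {K R : Type} [Field K] [CommRing R] [Algebra K R]

theorem a06_sum {M : Type} [AddCommGroup M] {n : ℕ} (f g : Fin n → Fin n → M) (h1 : ∀ b, f b b = g b b)
    (h2 : ∀ b c, b ≠ c → f b c + f c b = g b c + g c b) : ∑ b, ∑ c, f b c = ∑ b, ∑ c, g b c := by
  rw [← sub_eq_zero, ← Finset.sum_sub_distrib]
  have h3 : ∑ b, (∑ c, f b c - ∑ c, g b c) = ∑ p ∈ (Finset.univ : Finset (Fin n × Fin n)), (f p.1 p.2 - g p.1 p.2) := by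
    rw [← Finset.univ_product_univ, Finset.sum_product]
    refine Finset.sum_congr rfl fun b _ => ?_
    rw [Finset.sum_sub_distrib]
  rw [h3]
  refine Finset.sum_involution (fun p _ => (p.2, p.1)) ?_ ?_ ?_ ?_
  · rintro ⟨b, c⟩ _
    by_cases hbc : b = c
    · subst hbc
      simp [h1]
    · have := h2 b c hbc
      show f b c - g b c + (f c b - g c b) = 0
      have h4 : f b c - g b c + (f c b - g c b) = (f b c + f c b) - (g b c + g c b) := by abel
      rw [h4, this, sub_self]
  · rintro ⟨b, c⟩ _ h5 h6
    have h7 : c = b := congrArg Prod.fst h6
    subst h7
    exact h5 (by simp [h1])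
  · intro a ha
    exact Finset.mem_univ _
  · rintro ⟨b, c⟩ _
    rfl

/-- Induction on n (n = 0: both sides 0). Level n + 1: compare the slices at F with a04_two for (s, s') and (s', s). If F is not increasing: n ≥ 2,
all slices of valid vectors at F vanish (both sides are valid, a02_XX, U_bot). F increasing: the first terms agree by commutativity, the second ones
by a03_b. The double sums: symmetrize. The terms b = c agree by a03_bb. For the pairs b ≠ c: exchange the summation indices in half of the
terms: it suffices that T(b,c) + T(c,b) is symmetric in s, s', T(b,c) = (LL b s (F-ε_b) * LL c s' (F-ε_b-ε_c)) • Dq F b (Dq (F-ε_b) c (sl (F-ε_b-ε_c) v)).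
If F - ε_b and F - ε_c are increasing (z injective: the hypotheses of a03_bc hold; F_b - 1 ≠ F_c - 1 as F is increasing) use a05_comm and a03_bc; otherwise
both operators vanish (a05_zero for (b,c) and (c,b)). -/
theorem a06 (z : ℤ → K) (hz : Function.Injective z) (x : ℕ → R) (n : ℕ) (s s' : K) (v : W R n) (hv : v ∈ Vv R n) :
    XX z x n s (XX z x n s' v) = XX z x n s' (XX z x n s v) := by
  induction n generalizing s s' with
  | zero => rfl
  | succ n ih =>
    refine sl_ext fun F => ?_
    by_cases hF : StrictMono F
    · rw [a04_two, a04_two]
      congr 1
      · congr 1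
        · rw [mul_comm (pp z F s)]
        · refine Finset.sum_congr rfl fun b _ => ?_
          rw [a03_b z b s s' F]
      · apply a06_sum
        · intro b
          rw [a03_bb]
        · intro b c hbc
          have hw : sl (F - ep b - ep c) v ∈ U R n (F - ep b - ep c) := mem_Vv_succ.1 hv _
          have ih' : ∀ (s s' : K) (v : W R n), v ∈ Vv R n → XX z x n s (XX z x n s' v) = XX z x n s' (XX z x n s v) :=
            fun s s' v hv => ih s s' v hv
          have hcomm := a05_comm z x n ih' F b c hbc _ hw
          have hsub : F - ep c - ep b = F - ep b - ep c := sub_right_comm _ _ _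
          by_cases hm : StrictMono (F - ep b) ∧ StrictMono (F - ep c)
          · have e1 : z (F b - 1) ≠ z (F c) := by
              intro h
              have h' := hz h
              apply hbc
              apply hm.1.injective
              rw [a05_eq, a05_ne F hbc.symm, h']
            have e2 : z (F c - 1) ≠ z (F b) := by
              intro h
              have h' := hz h
              apply hbc.symm
              apply hm.2.injective
              rw [a05_eq, a05_ne F hbc, h']
            have e3 : z (F b - 1) ≠ z (F c - 1) := by
              intro h
              have h' := hz h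
              apply hbc
              apply hF.injective
              linarith
            have h3 := a03_bc z b c hbc s s' F e1 e2 e3
            rw [hsub, ← hcomm, ← add_smul, ← add_smul]
            rw [hsub] at h3
            rw [h3]
          · have h0 := a05_zero z x n ih' F b c hbc _ hw (by
              by_contra h
              push Not at h
              exact hm h)
            have h0' : Dq z x F c (Dq z x (F - ep c) b (sl (F - ep b - ep c) v)) = 0 := by
              rw [← hcomm, h0]
            rw [hsub, h0, h0']
            simp
    · have h0 : ∀ v' : W R (n + 1), v' ∈ Vv R (n + 1) → sl F v' = 0 := by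
        intro v' hv'
        by_contra h0
        exact hF (U_mono (mem_Vv_succ.1 hv' F) h0)
      rw [h0 _ (a02_XX z x _ s _ (a02_XX z x _ s' _ hv)), h0 _ (a02_XX z x _ s' _ (a02_XX z x _ s _ hv))]

end H92C
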