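import Pool.Agent.Lib.H92C.A06

/-!
# H92C, chunk A07: products QQ of the operators X(z e)
-/

open MvPolynomial

namespace H92C

variable {K R : Type} [Field K] [CommRing R] [Algebra K R]

theorem a07_XQ (z : ℤ → K) (hz : Function.Injective z) (x : ℕ → R) (n : ℕ) (s : K) (a : ℤ) (r : ℕ) (v : W R n) (hv : v ∈ Vv R n) :
    XX z x n s (QQ z x n a r v) = QQ z x n a r (XX z x n s v) := by
  induction r with
  | zero => rfl
  | succ r ih =>
    show XX z x n s (XX z x n (z (a + r)) (QQ z x n a r v)) = XX z x n (z (a + r)) (QQ z x n a r (XX z x n s v))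
    rw [a06 z hz x n s (z (a + r)) _ (a02_QQ z x n a r v hv), ih]

theorem a07_QQ (z : ℤ → K) (hz : Function.Injective z) (x : ℕ → R) (n : ℕ) (a b : ℤ) (r r' : ℕ) (v : W R n) (hv : v ∈ Vv R n) :
    QQ z x n b r' (QQ z x n a r v) = QQ z x n a r (QQ z x n b r' v) := by
  induction r' with
  | zero => rfl
  | succ r' ih =>
    show XX z x n (z (b + r')) (QQ z x n b r' (QQ z x n a r v)) = QQ z x n a r (XX z x n (z (b + r')) (QQ z x n b r' v))
    rw [ih, a07_XQ z hz x n _ a r _ (a02_QQ z x n b r' v hv)]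

/-- QQ [a, a + r + r') = QQ [a + r, a + r + r') after QQ [a, a + r). -/
theorem a07_add (z : ℤ → K) (x : ℕ → R) (n : ℕ) (a : ℤ) (r r' : ℕ) (v : W R n) :
    QQ z x n (a + r) r' (QQ z x n a r v) = QQ z x n a (r + r') v := by
  induction r' with
  | zero => rfl
  | succ r' ih =>
    show XX z x n (z (a + r + r')) (QQ z x n (a + r) r' (QQ z x n a r v)) = XX z x n (z (a + ((r + r' : ℕ) : ℤ))) (QQ z x n a (r + r') v)
    rw [ih, Nat.cast_add, ← add_assoc]

/-- The same with integers a ≤ b ≤ c, in both orders. -/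
theorem a07_int (z : ℤ → K) (hz : Function.Injective z) (x : ℕ → R) (n : ℕ) (a b c : ℤ) (hab : a ≤ b) (hbc : b ≤ c) (v : W R n) (hv : v ∈ Vv R n) :
    QQ z x n a (b - a).toNat (QQ z x n b (c - b).toNat v) = QQ z x n a (c - a).toNat v ∧
      QQ z x n b (c - b).toNat (QQ z x n a (b - a).toNat v) = QQ z x n a (c - a).toNat v := by
  obtain ⟨r, rfl⟩ : ∃ r : ℕ, b = a + r := ⟨(b - a).toNat, by rw [Int.toNat_of_nonneg (by linarith)]; ring⟩
  obtain ⟨r', rfl⟩ : ∃ r' : ℕ, c = a + r + r' := ⟨(c - (a + r)).toNat, by rw [Int.toNat_of_nonneg (by linarith)]; ring⟩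
  have h1 : (a + (r : ℤ) - a).toNat = r := by simp
  have h2 : (a + (r : ℤ) + r' - (a + r)).toNat = r' := by simp
  have h3 : (a + (r : ℤ) + r' - a).toNat = r + r' := by
    rw [show a + (r : ℤ) + r' - a = ((r + r' : ℕ) : ℤ) by push_cast; ring]
    exact Int.toNat_natCast _
  rw [h1, h2, h3]
  exact ⟨by rw [← a07_QQ z hz x n a (a + r) r r' v hv, a07_add], a07_add z x n a r r' v⟩

end H92C
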