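import Pool.Agent.Lib.H92C.A08b

/-!
# H92C, chunk A08: the boundaries of F_D: composition 0, gradings
-/

open MvPolynomial

namespace H92C

variable {K R : Type} [Field K] [CommRing R] [Algebra K R]

theorem a08_tr (h : AddSubgroup R) (n : ℕ) (E : Fin n → ℤ) (v : W R n) (hv : Hh h v) : Hh h (tr n E v) := by
  cases n with
  | zero => exact hv
  | succ n =>
    intro c
    show (if Il E c.1 then v c else 0) ∈ h
    by_cases hc : Il E c.1
    · rw [if_pos hc]; exact hv c
    · rw [if_neg hc]; exact h.zero_mem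

/-- Gradings. -/
theorem a08_XX (z : ℤ → K) (x : ℕ → R) (h : ℤ → AddSubgroup R) (hx : Gr K x h) (n : ℕ) (s : K) (t : ℤ) (v : W R n) (hv : Hh (h t) v) :
    Hh (h (t + 1)) (XX z x n s v) := by
  induction n generalizing s t with
  | zero => intro c; exact (h (t + 1)).zero_mem
  | succ n ih =>
    intro c
    show x n * (pp z c.1 s • v c) +
        ∑ b, LL z b s (c.1 - ep b) • tr n c.1 (XX z x n (z (c.1 b - 1)) (sl (c.1 - ep b) v)) c.2 ∈ h (t + 1)
    refine (h (t + 1)).add_mem (hx.mulx _ _ _ (hx.smul _ _ _ (hv c))) ((h (t + 1)).sum_mem fun b _ => hx.smul _ _ _ ?_)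
    exact a08_tr (h (t + 1)) n c.1 _ (ih _ t (sl (c.1 - ep b) v) (fun d => hv (c.1 - ep b, d))) c.2

theorem a08_QQ (z : ℤ → K) (x : ℕ → R) (h : ℤ → AddSubgroup R) (hx : Gr K x h) (n : ℕ) (a : ℤ) (r : ℕ) (t : ℤ) (v : W R n) (hv : Hh (h t) v) :
    Hh (h (t + r)) (QQ z x n a r v) := by
  induction r with
  | zero =>
    rw [Nat.cast_zero, add_zero]
    exact hv
  | succ r ih =>
    have := a08_XX z x h hx n (z (a + r)) (t + r) _ ih
    rw [add_assoc] at this
    push_cast
    exact this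

theorem a08_bd (z : ℤ → K) (x : ℕ → R) (h : ℤ → AddSubgroup R) (hx : Gr K x h) {N : ℕ} (D : Fin (N + 1) → ℤ) (hD : StrictMono D) (i : Fin N)
    (t : ℤ) (v : W R N) (hv : Hh (h (t - D i.succ)) v) : Hh (h (t - D i.castSucc)) (bd z x D i v) := by
  have h1 := a08_QQ z x h hx N (D i.castSucc) (D i.succ - D i.castSucc).toNat (t - D i.succ) v hv
  have h2 : t - D i.succ + ((D i.succ - D i.castSucc).toNat : ℤ) = t - D i.castSucc := by
    have : D i.castSucc < D i.succ := hD i.castSucc_lt_succ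
    rw [Int.toNat_of_nonneg (by linarith)]
    ring
  rw [h2] at h1
  exact a08_tr _ N _ _ h1

end H92C
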