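import Pool.Agent.Lib.H92C.A07

/-!
# H92C, chunk A08a: the boundaries of F_D: composition 0, gradings
-/

open MvPolynomial

namespace H92C

variable {K R : Type} [Field K] [CommRing R] [Algebra K R]

/-- The entries of dl D. -/
theorem a08_dl_lt {N : ℕ} (D : Fin (N + 1) → ℤ) (i : Fin (N + 1)) (j : Fin N) (h : (j : ℕ) < i) : dl D i j = D j.castSucc := by
  unfold dl
  rw [Fin.succAbove_of_castSucc_lt]
  rw [Fin.lt_def]
  exact h

theorem a08_dl_ge {N : ℕ} (D : Fin (N + 1) → ℤ) (i : Fin (N + 1)) (j : Fin N) (h : (i : ℕ) ≤ j) : dl D i j = D j.succ := by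
  unfold dl
  rw [Fin.succAbove_of_le_castSucc]
  rw [Fin.le_def]
  exact h

theorem a08_dl_mono {N : ℕ} (D : Fin (N + 1) → ℤ) (hD : StrictMono D) (i : Fin (N + 1)) : StrictMono (dl D i) :=
  hD.comp (Fin.strictMono_succAbove i)

end H92C
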