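import Pool.Agent.Lib.H92C.A08a

/-!
# H92C, chunk A08b: the boundaries of F_D: composition 0, gradings
-/

open MvPolynomial

namespace H92C

variable {K R : Type} [Field K] [CommRing R] [Algebra K R]

/-- bd maps valid vectors to vectors under dl D i (a02_QQ, tr_mem, U_le_Vv). -/
theorem a08_maps (z : ℤ → K) (x : ℕ → R) {N : ℕ} (D : Fin (N + 1) → ℤ) (i : Fin N) (v : W R N) (hv : v ∈ Vv R N) :
    bd z x D i v ∈ U R N (dl D i.castSucc) := by
  unfold bd
  rw [LinearMap.comp_apply]
  exact tr_mem (a02_QQ z x N _ _ v hv)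

/-- bd bd = 0. N ≥ 2, write N = n + 1; a = D_i, b = D_{i+1}, c = D_{i+2}. bd D i (bd D j v) = tr (dl D i) (QQ [a,b) (tr (dl D j) (QQ [b,c) v))).
a01_harm with E1 = dl D j.castSucc = dl D (i+1), E2 = dl D i.castSucc, O = QQ [a,b) (the two rows differ only in the entry i: E1_i = a, E2_i = b; lower bounds of
QQ [b,c) v: v is under dl D (i+2), a01_U, a01_QQ, and for the row index with castSucc = i + 1.. (entry i+1 of dl D (i+2) is D_{i+1} = b, raised by QQ [b,c) to c = entry i+1 of dl D (i+1))
a01_QQ_step; hO: a01_QQ_step for the index with succ = i, else a01_QQ): so it is tr (dl D i) (QQ [a,b) QQ [b,c) v) = tr (dl D i) (QQ [a,c) v) (a07_int). Row index i (i < n as i + 1 < N): v in Su i (a)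
(entry i of dl D (i+2) is a), so QQ [a,c) v is in Su i c (a01_QQ_step) and (dl D i)_{i+1} = D_{i+2} = c: killed (a01_kill). -/
theorem a08_comp (z : ℤ → K) (hz : Function.Injective z) (x : ℕ → R) {N : ℕ} (D : Fin (N + 1) → ℤ) (hD : StrictMono D)
    (i j : Fin N) (hij : (j : ℕ) = i + 1) (v : W R N) (hv : v ∈ U R N (dl D j.succ)) :
    bd z x D i (bd z x D j v) = 0 := by
  cases N with
  | zero => exact i.elim0
  | succ n =>
    have hji : i.succ = j.castSucc := by
      apply Fin.ext
      simp [hij]
    have hab : D i.castSucc ≤ D j.castSucc := by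
      rw [← hji]
      exact le_of_lt (hD Fin.castSucc_lt_succ)
    have hbc : D j.castSucc ≤ D j.succ := le_of_lt (hD Fin.castSucc_lt_succ)
    have hjn : (j : ℕ) < n + 1 := j.isLt
    have hlow : ∀ l : Fin n, QQ z x (n + 1) (D j.castSucc) (D j.succ - D j.castSucc).toNat v ∈
        Su R l (dl D j.castSucc l.castSucc) := by
      intro l
      have h1 := a01_U (dl D j.succ) l v hv
      rcases lt_trichotomy (l : ℕ) j with h | h | h
      · rw [a08_dl_lt D j.castSucc l.castSucc (by simpa using h)]
        rw [a08_dl_lt D j.succ l.castSucc (by simp; omega)] at h1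
        exact a01_QQ z x l _ _ _ v h1
      · rw [a08_dl_ge D j.castSucc l.castSucc (by simp [h])]
        rw [a08_dl_lt D j.succ l.castSucc (by simp; omega)] at h1
        have e1 : l.castSucc.castSucc = j.castSucc := by
          apply Fin.ext; simp [h]
        have e2 : l.castSucc.succ = j.succ := by
          apply Fin.ext; simp [h]
        rw [e1] at h1
        rw [e2]
        have h2 := a01_QQ_step z x l (D j.castSucc) (D j.succ - D j.castSucc).toNat v h1
        have h3 : D j.castSucc + ((D j.succ - D j.castSucc).toNat : ℤ) = D j.succ := by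
          rw [Int.toNat_of_nonneg (by linarith)]; ring
        rw [h3] at h2
        exact h2
      · rw [a08_dl_ge D j.castSucc l.castSucc (by simp; omega)]
        rw [a08_dl_ge D j.succ l.castSucc (by simp; omega)] at h1
        exact a01_QQ z x l _ _ _ v h1
    have hO : ∀ l : Fin n, ∀ w ∈ Su R l (dl D j.castSucc l.succ),
        QQ z x (n + 1) (D i.castSucc) (D j.castSucc - D i.castSucc).toNat w ∈ Su R l (dl D i.castSucc l.succ) := by
      intro l w hw
      rcases lt_trichotomy ((l : ℕ) + 1) i with h | h | h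
      · rw [a08_dl_lt D i.castSucc l.succ (by simpa using h)]
        rw [a08_dl_lt D j.castSucc l.succ (by simp; omega)] at hw
        exact a01_QQ z x l _ _ _ w hw
      · rw [a08_dl_ge D i.castSucc l.succ (by simp; omega)]
        rw [a08_dl_lt D j.castSucc l.succ (by simp; omega)] at hw
        have e1 : l.succ.castSucc = i.castSucc := by
          apply Fin.ext; simp [h]
        have e2 : l.succ.succ = j.castSucc := by
          apply Fin.ext; simp [hij, h]
        rw [e1] at hw
        rw [e2]
        have h2 := a01_QQ_step z x l (D i.castSucc) (D j.castSucc - D i.castSucc).toNat w hw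
        have h3 : D i.castSucc + ((D j.castSucc - D i.castSucc).toNat : ℤ) = D j.castSucc := by
          rw [Int.toNat_of_nonneg (by linarith)]; ring
        rw [h3] at h2
        exact h2
      · rw [a08_dl_ge D i.castSucc l.succ (by simp; omega)]
        rw [a08_dl_ge D j.castSucc l.succ (by simp; omega)] at hw
        exact a01_QQ z x l _ _ _ w hw
    have e1 : bd z x D i (bd z x D j v) =
        tr (n + 1) (dl D i.castSucc) (QQ z x (n + 1) (D i.castSucc) (D j.castSucc - D i.castSucc).toNat
          (tr (n + 1) (dl D j.castSucc) (QQ z x (n + 1) (D j.castSucc) (D j.succ - D j.castSucc).toNat v))) := by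
      unfold bd
      rw [hji]
      rfl
    rw [e1, a01_harm (dl D j.castSucc) (dl D i.castSucc) _ _ hlow hO,
      (a07_int z hz x (n + 1) (D i.castSucc) (D j.castSucc) (D j.succ) hab hbc v (U_le_Vv _ hv)).1]
    have hin : (i : ℕ) < n := by omega
    have h1 := a01_U (dl D j.succ) ⟨i, hin⟩ v hv
    rw [a08_dl_lt D j.succ (Fin.castSucc ⟨i, hin⟩) (by simp; omega)] at h1
    have e2 : (Fin.castSucc (Fin.castSucc ⟨(i : ℕ), hin⟩) : Fin (n + 2)) = i.castSucc := by
      apply Fin.ext; simp
    rw [e2] at h1
    have h2 := a01_QQ_step z x ⟨i, hin⟩ (D i.castSucc) (D j.succ - D i.castSucc).toNat v h1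
    refine a01_kill (dl D i.castSucc) ⟨i, hin⟩ _ ?_ _ h2
    rw [a08_dl_ge D i.castSucc (Fin.succ ⟨i, hin⟩) (by simp)]
    have e3 : (Fin.succ (Fin.succ ⟨(i : ℕ), hin⟩) : Fin (n + 2)) = j.succ := by
      apply Fin.ext; simp [hij]
    rw [e3, Int.toNat_of_nonneg (by linarith)]
    linarith

end H92C
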