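import Pool.Agent.Lib.H92C.A08

/-!
# H92C, chunk A09: the operators X(z F_b) on vectors supported on one row
-/

open MvPolynomial

namespace H92C

variable {K R : Type} [Field K] [CommRing R] [Algebra K R]

/-- L_c(z F_b; F) = δ_bc for increasing F. -/
theorem a09_LL (z : ℤ → K) (hz : Function.Injective z) {n : ℕ} (F : Fin n → ℤ) (hF : StrictMono F) (b c : Fin n) :
    LL z c (z (F b)) F = if c = b then 1 else 0 := by
  unfold LL
  by_cases h : c = b
  · subst h
    rw [if_pos rfl]
    apply Finset.prod_eq_one
    intro e he
    have hne : e ≠ c := Finset.ne_of_mem_erase he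
    apply div_self
    intro h0
    exact hne (hF.injective (hz (sub_eq_zero.1 h0)).symm)
  · rw [if_neg h]
    apply Finset.prod_eq_zero (i := b)
    · exact Finset.mem_erase.2 ⟨fun e => h e.symm, Finset.mem_univ _⟩
    · rw [sub_self, zero_div]

/-- X(z F_b) moves the row F to the row F + ε_b. Compare slices at G with sl_XX: first term: only G = F, p_F(z F_b) = 0. Second term: G - ε_c = F for at most
one c, coefficient L_c(z F_b; F) = δ_bc; G_c - 1 = F_c. -/
theorem a09_XX (z : ℤ → K) (hz : Function.Injective z) (x : ℕ → R) {n : ℕ} (F : Fin n → ℤ) (hF : StrictMono F) (b : Fin n) (w : W R n) :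
    XX z x (n + 1) (z (F b)) (sg F w) = sg (F + ep b) (tr n (F + ep b) (XX z x n (z (F b)) w)) := by
  refine sl_ext fun G => ?_
  rw [sl_XX, sl_sg, sl_sg]
  have h1 : pp z G (z (F b)) • (if G = F then w else 0) = 0 := by
    by_cases h : G = F
    · rw [h]
      have : pp z F (z (F b)) = 0 := by
        unfold pp
        exact Finset.prod_eq_zero (Finset.mem_univ b) (sub_self _)
      rw [this, zero_smul]
    · rw [if_neg h, smul_zero]
  rw [h1, smul_zero, zero_add]
  rw [Finset.sum_eq_single b]
  · rw [sl_sg]
    by_cases h : G - ep b = F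
    · have hG : G = F + ep b := by rw [← h]; abel
      rw [if_pos h, if_pos hG, h, a09_LL z hz F hF, if_pos rfl, one_smul, hG]
      have : (F + ep b) b - 1 = F b := by simp [ep]
      rw [this]
    · have hG : ¬ G = F + ep b := fun e => h (by rw [e]; abel)
      rw [if_neg h, if_neg hG, map_zero, map_zero, smul_zero]
  · intro c _ hc
    rw [sl_sg]
    by_cases h : G - ep c = F
    · rw [h, a09_LL z hz F hF, if_neg hc, zero_smul]
    · rw [if_neg h, map_zero, map_zero, smul_zero]
  · intro h
    exact absurd (Finset.mem_univ b) h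

/-- Iteration: QQ [F_b, F_b + r) moves the row F to F + r ε_b as long as F + k ε_b is increasing for k ≤ r. Induction on r: the vector on the row F + r ε_b is
tr (QQ w); then a09_XX for the row F + r ε_b, and tr (F + (r+1)ε_b) (X(z(F_b + r)) (tr (F + r ε_b) (QQ w))) = tr (F + (r+1)ε_b) (X(..) (QQ w)) by
a01_harm (level n ≥ 1; E1 = F + r ε_b, E2 = F + (r+1) ε_b; lower bounds by a01_U, a01_QQ, a01_QQ_step). -/
theorem a09_QQ (z : ℤ → K) (hz : Function.Injective z) (x : ℕ → R) {n : ℕ} (F : Fin n → ℤ) (hF : StrictMono F) (b : Fin n) (r : ℕ)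
    (hr : ∀ c, b < c → F b + r < F c) (w : W R n) (hw : w ∈ U R n F) :
    QQ z x (n + 1) (F b) r (sg F w) = sg (F + (r : ℤ) • ep b) (tr n (F + (r : ℤ) • ep b) (QQ z x n (F b) r w)) := by
  induction r with
  | zero =>
    have h0 : F + ((0 : ℕ) : ℤ) • ep b = F := by simp
    rw [h0]
    show sg F w = sg F (tr n F w)
    rw [tr_of_mem hw]
  | succ r ih =>
    have ih' := ih (fun c hc => by have := hr c hc; push_cast at this; linarith)
    show XX z x (n + 1) (z (F b + r)) (QQ z x (n + 1) (F b) r (sg F w)) = _
    rw [ih']
    set F' : Fin n → ℤ := F + (r : ℤ) • ep b with hF'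
    have hbb : F' b = F b + r := by simp [hF', ep]
    have hne : ∀ c, c ≠ b → F' c = F c := by
      intro c hc
      simp [hF', ep, hc]
    have hmono : StrictMono F' := by
      intro c d hcd
      by_cases hc : c = b
      · subst hc
        rw [hbb, hne d (ne_of_gt hcd)]
        have := hr d hcd
        push_cast at this
        linarith
      · by_cases hd : d = b
        · subst hd
          rw [hbb, hne c hc]
          have := hF hcd
          have h2 : (0 : ℤ) ≤ r := Int.natCast_nonneg r
          linarith
        · rw [hne c hc, hne d hd]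
          exact hF hcd
    have hsucc : F + ((r + 1 : ℕ) : ℤ) • ep b = F' + ep b := by
      rw [hF']
      push_cast
      rw [add_smul, one_smul, add_assoc]
    rw [hsucc, ← hbb, a09_XX z hz x F' hmono b]
    congr 1
    show _ = tr n (F' + ep b) (XX z x n (z (F b + r)) (QQ z x n (F b) r w))
    rw [← hbb]
    cases n with
    | zero => exact b.elim0
    | succ m =>
      apply a01_harm
      · intro j
        have h1 := a01_U F j w hw
        by_cases hj : j.castSucc = b
        · rw [hj, hbb]
          rw [hj] at h1
          exact a01_QQ_step z x j (F b) r w h1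
        · rw [hne _ hj]
          exact a01_QQ z x j _ _ r w h1
      · intro j u hu
        by_cases hj : j.succ = b
        · rw [hj] at hu ⊢
          have : (F' + ep b) b = F' b + 1 := by simp [ep]
          rw [this]
          exact a01_XX_step z x j (F' b) u hu
        · have : (F' + ep b) j.succ = F' j.succ := by simp [ep, hj]
          rw [this]
          exact a01_XX z x _ j _ u hu

/-- The form used below: G increasing (length N + 1), i : Fin N. The row dl G i.succ has the entry G_i at i; raising it to G_{i+1} gives dl G i. -/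
theorem a09_bd (z : ℤ → K) (hz : Function.Injective z) (x : ℕ → R) {N : ℕ} (G : Fin (N + 1) → ℤ) (hG : StrictMono G) (i : Fin N) (w : W R N)
    (hw : w ∈ U R N (dl G i.succ)) :
    QQ z x (N + 1) (G i.castSucc) (G i.succ - G i.castSucc).toNat (sg (dl G i.succ) w) = sg (dl G i.castSucc) (bd z x G i w) := by
  have h1 : dl G i.succ i = G i.castSucc := a08_dl_lt G i.succ i (by simp)
  have h2 : ((G i.succ - G i.castSucc).toNat : ℤ) = G i.succ - G i.castSucc :=
    Int.toNat_of_nonneg (by have := hG (Fin.castSucc_lt_succ (i := i)); linarith)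
  have h3 : dl G i.succ + ((G i.succ - G i.castSucc).toNat : ℤ) • ep i = dl G i.castSucc := by
    funext l
    rw [h2]
    rcases lt_trichotomy (l : ℕ) i with h | h | h
    · have hl : l ≠ i := fun e => by rw [e] at h; exact lt_irrefl _ h
      rw [a08_dl_lt G i.castSucc l (by simpa using h)]
      simp only [Pi.add_apply, Pi.smul_apply]
      rw [a08_dl_lt G i.succ l (by simp; omega)]
      simp [ep, hl]
    · have hl : l = i := Fin.ext h
      subst hl
      rw [a08_dl_ge G l.castSucc l (by simp)]
      simp only [Pi.add_apply, Pi.smul_apply]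
      rw [h1]
      simp [ep]
    · have hl : l ≠ i := fun e => by rw [e] at h; exact lt_irrefl _ h
      rw [a08_dl_ge G i.castSucc l (by simp; omega)]
      simp only [Pi.add_apply, Pi.smul_apply]
      rw [a08_dl_ge G i.succ l (by simp; omega)]
      simp [ep, hl]
  have h4 := a09_QQ z hz x (dl G i.succ) (a08_dl_mono G hG i.succ) i (G i.succ - G i.castSucc).toNat ?_ w hw
  · rw [h1, h3] at h4
    rw [h4]
    rfl
  · intro c hc
    rw [h1, h2, a08_dl_ge G i.succ c (by simpa using hc)]
    have := hG (show i.succ < c.succ from Fin.succ_lt_succ_iff.2 hc)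
    linarith

end H92C
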