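import Pool.Agent.Lib.H92C.A09

/-!
# H92C, chunk A10: the embeddings iota_{G,i} : F_G -> F_D form a chain map
-/

open MvPolynomial

namespace H92C

variable {K R : Type} [Field K] [CommRing R] [Algebra K R]

theorem a10_ch {N : ℕ} {D : Fin (N + 2) → ℤ} {G : Fin (N + 1) → ℤ} (hG : Il D G) (k : ℕ) (hk : k < N + 1) :
    D ⟨k, by omega⟩ ≤ G ⟨k, hk⟩ ∧ G ⟨k, hk⟩ < D ⟨k + 1, by omega⟩ := hG ⟨k, hk⟩

theorem a10_dlD {N : ℕ} (D : Fin (N + 2) → ℤ) (k : Fin (N + 2)) (m : Fin (N + 1)) :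
    dl D k m = if (m : ℕ) < k then D ⟨m, by omega⟩ else D ⟨m + 1, by omega⟩ := by
  unfold dl
  split_ifs with h
  · rw [Fin.succAbove_of_castSucc_lt _ _ (by rw [Fin.lt_def]; exact h)]
    rfl
  · rw [Fin.succAbove_of_le_castSucc _ _ (by rw [Fin.le_def]; simpa using h)]
    rfl

theorem a10_sg {n : ℕ} (F : Fin n → ℤ) (w : W R n) (j : Fin n) (a : ℤ) (h : a ≤ F j) : sg F w ∈ Su R j a := by
  intro F' hF'
  rw [sl_sg, if_neg]
  rintro rfl
  omega

/-- Il D G: D_j ≤ G_j < D_{j+1}. The row dl G i interlaces dl D i.castSucc (dl D i has D_j at j < i and D_{j+1} at j ≥ i). -/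
theorem a10_il {N : ℕ} (D : Fin (N + 2) → ℤ) (G : Fin (N + 1) → ℤ) (hG : Il D G) (i : Fin (N + 1)) :
    Il (dl D i.castSucc) (dl G i) := by
  have hch := a10_ch hG
  intro j
  have hj := j.2
  have hi := i.2
  rw [a10_dlD, a10_dlD]
  have e : dl G i j = if (j : ℕ) < i then G ⟨j, by omega⟩ else G ⟨j + 1, by omega⟩ := by
    unfold dl
    split_ifs with h
    · rw [Fin.succAbove_of_castSucc_lt _ _ (by rw [Fin.lt_def]; exact h)]
      rfl
    · rw [Fin.succAbove_of_le_castSucc _ _ (by rw [Fin.le_def]; simpa using h)]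
      rfl
  rw [e]
  simp only [Fin.val_castSucc, Fin.val_succ]
  have h0 := hch j (by omega)
  have h1 := hch (j + 1) (by omega)
  by_cases c1 : (j : ℕ) < i
  · rw [if_pos c1, if_pos c1]
    by_cases c2 : (j : ℕ) + 1 < i
    · rw [if_pos c2]; exact h0
    · rw [if_neg c2]
      exact ⟨h0.1, by linarith [h0.2, h1.1, h1.2]⟩
  · rw [if_neg c1, if_neg c1, if_neg (by omega)]
    exact h1

theorem a10_mem (z : ℤ → K) (x : ℕ → R) {N : ℕ} (D : Fin (N + 2) → ℤ) (G : Fin (N + 1) → ℤ) (i : Fin (N + 1)) (w : W R N)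
    (hw : w ∈ U R N (dl G i)) : ig z x D G i w ∈ U R (N + 1) (dl D i.castSucc) := by
  exact tr_mem (a02_QQ z x _ _ _ _ (a02_sg _ w hw))

/-- The chain map property. LHS = tr (dl D i) (QQ [D_i, D_{i+1}) (tr (dl D (i+1)) (QQ [D_{i+1}, G_{i+1}) (sg (dl G (i+1)) w)))). The inner truncation is harmless (a01_harm with
E1 = dl D (i+1), E2 = dl D i, O = QQ [D_i, D_{i+1}); lower bounds: the row dl G (i+1) is ≥ dl D (i+1) entrywise (a10_il), a01_QQ; hO: the rows differ in the entry i: a01_QQ_step for the index with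
succ = i, a01_QQ otherwise), so LHS = tr (dl D i) (QQ [D_i, G_{i+1}) (sg (dl G (i+1)) w)) (a07_int, a02_sg). RHS = tr (dl D i) (QQ [D_i, G_i) (sg (dl G i) (bd G i w))) = tr (dl D i) (QQ [D_i, G_i) (QQ [G_i, G_{i+1}) (sg (dl G (i+1)) w)))
(a09_bd), the same (a07_int). Here D_i ≤ G_i < D_{i+1} ≤ G_{i+1}. -/
theorem a10_chain (z : ℤ → K) (hz : Function.Injective z) (x : ℕ → R) {N : ℕ} (D : Fin (N + 2) → ℤ) (hD : StrictMono D)
    (G : Fin (N + 1) → ℤ) (hG : Il D G) (i : Fin N) (w : W R N) (hw : w ∈ U R N (dl G i.succ)) :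
    bd z x D i.castSucc (ig z x D G i.succ w) = ig z x D G i.castSucc (bd z x G i w) := by
  have hGm := (il_mono hG).2
  have hch := a10_ch hG
  have hi := i.2
  have hu : sg (dl G i.succ) w ∈ Vv R (N + 1) := a02_sg _ w hw
  have hab : D i.castSucc.castSucc ≤ D i.succ.castSucc := (hD.monotone (by
    rw [Fin.le_def]; simp))
  have hbc : D i.succ.castSucc ≤ G i.succ := (hG i.succ).1
  have hag : D i.castSucc.castSucc ≤ G i.castSucc := (hG i.castSucc).1
  have hgc : G i.castSucc ≤ G i.succ := hGm.monotone (by rw [Fin.le_def]; simp)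
  have hss : i.castSucc.succ = i.succ.castSucc := Fin.succ_castSucc i
  have e1 : bd z x D i.castSucc (ig z x D G i.succ w) =
      tr (N + 1) (dl D i.castSucc.castSucc) (QQ z x (N + 1) (D i.castSucc.castSucc)
        (D i.succ.castSucc - D i.castSucc.castSucc).toNat
        (tr (N + 1) (dl D i.succ.castSucc) (QQ z x (N + 1) (D i.succ.castSucc)
          (G i.succ - D i.succ.castSucc).toNat (sg (dl G i.succ) w)))) := by
    rw [← hss]; rfl
  have e2 : ig z x D G i.castSucc (bd z x G i w) =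
      tr (N + 1) (dl D i.castSucc.castSucc) (QQ z x (N + 1) (D i.castSucc.castSucc)
        (G i.castSucc - D i.castSucc.castSucc).toNat
        (sg (dl G i.castSucc) (bd z x G i w))) := rfl
  rw [e1, e2, ← a09_bd z hz x G hGm i w hw]
  rw [(a07_int z hz x (N + 1) _ _ _ hag hgc _ hu).1]
  rw [a01_harm (dl D i.succ.castSucc) (dl D i.castSucc.castSucc)
    (QQ z x (N + 1) (D i.castSucc.castSucc) (D i.succ.castSucc - D i.castSucc.castSucc).toNat)]
  · rw [(a07_int z hz x (N + 1) _ _ _ hab hbc _ hu).1]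
  · intro j
    exact a01_QQ z x j _ _ _ _ (a10_sg _ w j _ ((a10_il D G hG i.succ) j).1)
  · intro j v hv
    have hj := j.2
    rw [a10_dlD] at hv ⊢
    simp only [Fin.val_castSucc, Fin.val_succ] at hv ⊢
    rcases lt_trichotomy ((j : ℕ) + 1) (i : ℕ) with h | h | h
    · rw [if_pos (by omega)] at hv
      rw [if_pos (by omega)]
      exact a01_QQ z x j _ _ _ _ hv
    · rw [if_pos (by omega)] at hv
      rw [if_neg (by omega)]
      have ea : D ⟨(j : ℕ) + 1, by omega⟩ = D i.castSucc.castSucc := congrArg D (Fin.ext (by simpa using h))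
      have eb : D ⟨(j : ℕ) + 1 + 1, by omega⟩ = D i.castSucc.castSucc +
          ((D i.succ.castSucc - D i.castSucc.castSucc).toNat : ℤ) := by
        rw [Int.toNat_of_nonneg (by omega)]
        have : D ⟨(j : ℕ) + 1 + 1, by omega⟩ = D i.succ.castSucc :=
          congrArg D (Fin.ext (by simp; omega))
        rw [this]; ring
      rw [eb]
      rw [ea] at hv
      exact a01_QQ_step z x j _ _ _ hv
    · rw [if_neg (by omega)] at hv
      rw [if_neg (by omega)]
      exact a01_QQ z x j _ _ _ _ hv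

/-- Gradings: ig raises the degree by G_i - D_i. -/
theorem a10_hom (z : ℤ → K) (x : ℕ → R) (h : ℤ → AddSubgroup R) (hx : Gr K x h) {N : ℕ} (D : Fin (N + 2) → ℤ)
    (G : Fin (N + 1) → ℤ) (hG : Il D G) (i : Fin (N + 1)) (t : ℤ) (w : W R N) (hw : Hh (h (t - G i)) w) :
    Hh (h (t - D i.castSucc)) (ig z x D G i w) := by
  have h1 : Hh (h (t - G i)) (sg (dl G i) w) := by
    intro c
    by_cases hc : c.1 = dl G i
    · have : sg (dl G i) w c = w c.2 := by simp [sg, hc]
      rw [this]; exact hw c.2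
    · have : sg (dl G i) w c = 0 := by simp [sg, hc]
      rw [this]; exact (h (t - G i)).zero_mem
  have h2 := a08_QQ z x h hx (N + 1) (D i.castSucc) (G i - D i.castSucc).toNat (t - G i) _ h1
  have h3 : D i.castSucc ≤ G i := (hG i).1
  rw [Int.toNat_of_nonneg (by omega)] at h2
  have h4 : t - G i + (G i - D i.castSucc) = t - D i.castSucc := by ring
  rw [h4] at h2
  exact a08_tr _ _ _ _ h2

end H92C
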