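import Pool.Agent.Lib.H92C.A11b

/-!
# H92C, chunk A11: the operators over R[X], coefficients

xp N x : the variables of R[X]: C (x l) for l ≠ N, X for l = N. cf k v : the vector of the coefficients of X^k. Cv v : constants.
The levels ≤ N only see x 0, .., x (N-1), so they act coefficientwise; the level N + 1 sees X = xp N x N.
-/

open MvPolynomial

namespace H92C

variable {K R : Type} [Field K] [CommRing R] [Algebra K R]

theorem a11_ext {n : ℕ} (v : W (Polynomial R) n) (h : ∀ k, cf k v = 0) : v = 0 := by
  funext c
  refine Polynomial.ext fun k => ?_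
  have h1 := congrFun (h k) c
  rw [Pi.zero_apply, Polynomial.coeff_zero]
  exact h1

/-- A vector supported on finitely many patterns has bounded X-degree. -/
theorem a11_bound {n : ℕ} (E : Fin n → ℤ) (v : W (Polynomial R) n) (hv : v ∈ U (Polynomial R) n E) : ∃ d, ∀ k, d ≤ k → cf k v = 0 := by
  classical
  refine ⟨((gd_finite n E).toFinset.sup fun c => (v c).natDegree) + 1, ?_⟩
  intro k hk
  funext c
  show (v c).coeff k = 0
  by_cases hc : gd n E c
  · apply Polynomial.coeff_eq_zero_of_natDegree_lt
    have h1 : (v c).natDegree ≤ (gd_finite n E).toFinset.sup fun c => (v c).natDegree :=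
      Finset.le_sup (f := fun c => (v c).natDegree) ((gd_finite n E).mem_toFinset.2 hc)
    omega
  · rw [hv c hc, Polynomial.coeff_zero]

end H92C
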