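import Pool.Agent.Lib.H92C.A10

/-!
# H92C, chunk A11a: the operators over R[X], coefficients

xp N x : the variables of R[X]: C (x l) for l ≠ N, X for l = N. cf k v : the vector of the coefficients of X^k. Cv v : constants.
The levels ≤ N only see x 0, .., x (N-1), so they act coefficientwise; the level N + 1 sees X = xp N x N.
-/

open MvPolynomial

namespace H92C

variable {K R : Type} [Field K] [CommRing R] [Algebra K R]

theorem a11_gr (N : ℕ) (x : ℕ → R) (h : ℤ → AddSubgroup R) (hx : Gr K x h) : Gr K (xp N x) (hp h) := by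
  constructor
  · intro l t r hr k
    by_cases hl : l = N
    · have h1 : xp N x l = Polynomial.X := by simp [xp, hl]
      rw [h1]
      cases k with
      | zero => simp
      | succ k =>
        rw [Polynomial.coeff_X_mul]
        have h2 := hr k
        have h3 : t + 1 - ((k + 1 : ℕ) : ℤ) = t - k := by push_cast; ring
        rw [h3]
        exact h2
    · have h1 : xp N x l = Polynomial.C (x l) := by simp [xp, hl]
      rw [h1, Polynomial.coeff_C_mul]
      have h2 := hx.mulx l (t - k) _ (hr k)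
      have h3 : t + 1 - (k : ℤ) = t - k + 1 := by ring
      rw [h3]
      exact h2
  · intro κ t r hr k
    rw [Polynomial.coeff_smul]
    exact hx.smul κ _ _ (hr k)

theorem a11_Cv_hom (h : ℤ → AddSubgroup R) {n : ℕ} (t : ℤ) (w : W R n) (hw : Hh (h t) w) : Hh (hp h t) (Cv w) := by
  intro c k
  show (Polynomial.C (w c)).coeff k ∈ h (t - k)
  rw [Polynomial.coeff_C]
  by_cases hk : k = 0
  · rw [if_pos hk, hk]
    have h1 : t - ((0 : ℕ) : ℤ) = t := by simp
    rw [h1]
    exact hw c
  · rw [if_neg hk]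
    exact (h _).zero_mem

theorem a11_Cv_mem {n : ℕ} (E : Fin n → ℤ) (w : W R n) (hw : w ∈ U R n E) : Cv w ∈ U (Polynomial R) n E := by
  intro c hc
  show Polynomial.C (w c) = 0
  rw [hw c hc, Polynomial.C_0]

theorem a11_cf_mem {n : ℕ} (E : Fin n → ℤ) (k : ℕ) (v : W (Polynomial R) n) (hv : v ∈ U (Polynomial R) n E) : cf k v ∈ U R n E := by
  intro c hc
  show (v c).coeff k = 0
  rw [hv c hc, Polynomial.coeff_zero]

theorem a11_cf_tr {n : ℕ} (E : Fin n → ℤ) (k : ℕ) (v : W (Polynomial R) n) : cf k (tr n E v) = tr n E (cf k v) := by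
  cases n with
  | zero => rfl
  | succ n =>
    refine sl_ext fun F => ?_
    have h1 : sl F (cf k (tr (n + 1) E v)) = cf k (sl F (tr (n + 1) E v)) := rfl
    rw [h1]
    by_cases h : Il E F
    · rw [sl_tr_pos h, sl_tr_pos h]; rfl
    · rw [sl_tr_neg h, sl_tr_neg h, map_zero]

theorem a11_cf_smulK {n : ℕ} (k : ℕ) (κ : K) (v : W (Polynomial R) n) : cf k (κ • v) = κ • cf k v := by
  funext c
  show (κ • v c).coeff k = κ • (v c).coeff k
  rw [Polynomial.coeff_smul]

theorem a11_cf_smulC {n : ℕ} (k : ℕ) (a : R) (v : W (Polynomial R) n) : cf k (Polynomial.C a • v) = a • cf k v := by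
  funext c
  show (Polynomial.C a * v c).coeff k = a * (v c).coeff k
  rw [Polynomial.coeff_C_mul]

theorem a11_cf_sl {n : ℕ} (k : ℕ) (F : Fin n → ℤ) (v : W (Polynomial R) (n + 1)) :
    sl F (cf k v) = cf k (sl F v) := rfl

/-- Coefficientwise action of the levels n ≤ N. Induction on n; the variable x_n of the level n + 1 ≤ N is C (x n). -/
theorem a11_cf_XX (z : ℤ → K) (N : ℕ) (x : ℕ → R) (n : ℕ) (hn : n ≤ N) (s : K) (k : ℕ) (v : W (Polynomial R) n) :
    cf k (XX z (xp N x) n s v) = XX z x n s (cf k v) := by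
  induction n generalizing s with
  | zero => rfl
  | succ n ih =>
    refine sl_ext fun F => ?_
    have h1 : xp N x n = Polynomial.C (x n) := by
      have : n ≠ N := by omega
      simp [xp, this]
    rw [a11_cf_sl, sl_XX, sl_XX, h1, map_add, a11_cf_smulC, a11_cf_smulK, map_sum]
    congr 1
    refine Finset.sum_congr rfl fun b _ => ?_
    rw [a11_cf_smulK, a11_cf_tr, ih (by omega)]
    rfl

theorem a11_Cv_sl {n : ℕ} (F : Fin n → ℤ) (v : W R (n + 1)) : sl F (Cv v) = Cv (sl F v) := rfl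

theorem a11_Cv_zero {n : ℕ} : Cv (0 : W R n) = 0 := by
  funext c
  exact Polynomial.C_0

theorem a11_Cv_add {n : ℕ} (v w : W R n) : Cv (v + w) = Cv v + Cv w := by
  funext c
  exact Polynomial.C_add

theorem a11_Cv_sum {n : ℕ} {ι : Type} (s : Finset ι) (f : ι → W R n) : Cv (∑ b ∈ s, f b) = ∑ b ∈ s, Cv (f b) := by
  classical
  induction s using Finset.induction_on with
  | empty => simp [a11_Cv_zero]
  | insert a s ha ih => rw [Finset.sum_insert ha, Finset.sum_insert ha, a11_Cv_add, ih]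

theorem a11_Cv_smulK {n : ℕ} (κ : K) (v : W R n) : Cv (κ • v) = κ • Cv v := by
  funext c
  show Polynomial.C (κ • v c) = κ • Polynomial.C (v c)
  rw [Polynomial.smul_C]

theorem a11_Cv_smulR {n : ℕ} (a : R) (v : W R n) : Cv (a • v) = Polynomial.C a • Cv v := by
  funext c
  show Polynomial.C (a * v c) = Polynomial.C a * Polynomial.C (v c)
  rw [Polynomial.C_mul]

theorem a11_Cv_tr {n : ℕ} (E : Fin n → ℤ) (v : W R n) : tr n E (Cv v) = Cv (tr n E v) := by
  cases n with
  | zero => rfl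
  | succ n =>
    refine sl_ext fun F => ?_
    rw [a11_Cv_sl]
    by_cases h : Il E F
    · rw [sl_tr_pos h, sl_tr_pos h]; rfl
    · rw [sl_tr_neg h, sl_tr_neg h, a11_Cv_zero]

theorem a11_Cv_XX (z : ℤ → K) (N : ℕ) (x : ℕ → R) (n : ℕ) (hn : n ≤ N) (s : K) (v : W R n) :
    XX z (xp N x) n s (Cv v) = Cv (XX z x n s v) := by
  induction n generalizing s with
  | zero => exact a11_Cv_zero.symm
  | succ n ih =>
    refine sl_ext fun F => ?_
    have h1 : xp N x n = Polynomial.C (x n) := by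
      have : n ≠ N := by omega
      simp [xp, this]
    rw [a11_Cv_sl, sl_XX, sl_XX, h1, a11_Cv_add, a11_Cv_smulR, a11_Cv_smulK, a11_Cv_sum, a11_Cv_sl]
    congr 1
    refine Finset.sum_congr rfl fun b _ => ?_
    rw [a11_Cv_smulK, ← a11_Cv_tr, ← ih (by omega)]
    rfl

theorem a11_Cv_QQ (z : ℤ → K) (N : ℕ) (x : ℕ → R) (n : ℕ) (hn : n ≤ N) (a : ℤ) (r : ℕ) (v : W R n) :
    QQ z (xp N x) n a r (Cv v) = Cv (QQ z x n a r v) := by
  induction r with
  | zero => rfl
  | succ r ih =>
    show XX z (xp N x) n (z (a + r)) (QQ z (xp N x) n a r (Cv v)) = Cv (XX z x n (z (a + r)) (QQ z x n a r v))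
    rw [ih, a11_Cv_XX z N x n hn]

theorem a11_Cv_bd (z : ℤ → K) (N : ℕ) (x : ℕ → R) (G : Fin (N + 1) → ℤ) (i : Fin N) (v : W R N) :
    bd z (xp N x) G i (Cv v) = Cv (bd z x G i v) := by
  show tr N (dl G i.castSucc) (QQ z (xp N x) N (G i.castSucc) (G i.succ - G i.castSucc).toNat (Cv v)) =
    Cv (tr N (dl G i.castSucc) (QQ z x N (G i.castSucc) (G i.succ - G i.castSucc).toNat v))
  rw [a11_Cv_QQ z N x N le_rfl, a11_Cv_tr]

end H92C
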