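import Pool.Agent.Lib.H92C.A11a

/-!
# H92C, chunk A11b: the operators over R[X], coefficients

xp N x : the variables of R[X]: C (x l) for l ≠ N, X for l = N. cf k v : the vector of the coefficients of X^k. Cv v : constants.
The levels ≤ N only see x 0, .., x (N-1), so they act coefficientwise; the level N + 1 sees X = xp N x N.
-/

open MvPolynomial

namespace H92C

variable {K R : Type} [Field K] [CommRing R] [Algebra K R]

theorem a11_cf_X {n : ℕ} (k : ℕ) (v : W (Polynomial R) n) :
    cf (k + 1) ((Polynomial.X : Polynomial R) • v) = cf k v := by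
  funext c
  show ((Polynomial.X : Polynomial R) * v c).coeff (k + 1) = (v c).coeff k
  rw [Polynomial.coeff_X_mul]

theorem a11_high (z : ℤ → K) (N : ℕ) (x : ℕ → R) (s : K) (k : ℕ) (v : W (Polynomial R) (N + 1))
    (hv : cf (k + 1) v = 0) :
    cf (k + 1) (XX z (xp N x) (N + 1) s v) = Pd z s (cf k v) := by
  refine sl_ext fun F => ?_
  have h1 : xp N x N = Polynomial.X := by simp [xp]
  rw [a11_cf_sl, sl_XX, h1, map_add, a11_cf_X, a11_cf_smulK, map_sum, Finset.sum_eq_zero, add_zero]
  · rfl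
  · intro b _
    rw [a11_cf_smulK, a11_cf_tr, a11_cf_XX z N x N le_rfl, ← a11_cf_sl, hv, map_zero, map_zero,
      map_zero, smul_zero]

/-- Level N + 1: the coefficient of X^k for k > d + 1 vanishes and the coefficient of X^{d+1} is p_F(s) times the top coefficient. -/
theorem a11_top (z : ℤ → K) (N : ℕ) (x : ℕ → R) (s : K) (d : ℕ) (v : W (Polynomial R) (N + 1)) (hv : ∀ k, d < k → cf k v = 0) :
    (∀ k, d + 1 < k → cf k (XX z (xp N x) (N + 1) s v) = 0) ∧
      cf (d + 1) (XX z (xp N x) (N + 1) s v) = Pd z s (cf d v) := by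
  refine ⟨?_, a11_high z N x s d v (hv (d + 1) (Nat.lt_succ_self d))⟩
  intro k hk
  obtain ⟨m, rfl⟩ : ∃ m, k = m + 1 := ⟨k - 1, by omega⟩
  rw [a11_high z N x s m v (hv (m + 1) (by omega)), hv m (by omega), map_zero]

/-- Iteration. -/
theorem a11_topQ (z : ℤ → K) (N : ℕ) (x : ℕ → R) (a : ℤ) (r : ℕ) (d : ℕ) (v : W (Polynomial R) (N + 1)) (hv : ∀ k, d < k → cf k v = 0) :
    (∀ k, d + r < k → cf k (QQ z (xp N x) (N + 1) a r v) = 0) ∧
      cf (d + r) (QQ z (xp N x) (N + 1) a r v) = PQ z a r (cf d v) := by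
  induction r with
  | zero => exact ⟨hv, rfl⟩
  | succ r ih =>
    have h := a11_top z N x (z (a + r)) (d + r) (QQ z (xp N x) (N + 1) a r v) ih.1
    refine ⟨h.1, ?_⟩
    have h2 := h.2
    rw [ih.2] at h2
    exact h2

end H92C
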