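import Pool.Agent.Lib.H92C.A11

/-!
# H92C, chunk A12: low and high rows, the diagonal factor

D of length N + 2, increasing. Position p of F_D: vectors under dl D p. A row F interlacing dl D p is low if p ≤ N and F_{p-1} < D_p (always for p = 0), high otherwise.
Low rows in position i (i = 0..N) = high rows in position i + 1 = rows with entries in the intervals I_j = [D_j, D_{j+1}), j ≠ i (no entry in I_i) = the rows
dl G i for the G interlacing D with a given G_i in I_i.
-/

open MvPolynomial

namespace H92C

variable {K R : Type} [Field K] [CommRing R] [Algebra K R]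

/-- A low row in position i has no entry in [D_i, D_{i+1}). -/
theorem a12_no {N : ℕ} (D : Fin (N + 2) → ℤ) (hD : StrictMono D) (i : Fin (N + 1)) (F : Fin N → ℤ) (hF : Il (dl D i.castSucc) F)
    (hl : Lo D i.castSucc F) (j : Fin N) : F j < D i.castSucc ∨ D i.succ ≤ F j := by
  by_cases hj : (j : ℕ) < i
  · left
    by_cases hj' : (j : ℕ) + 1 = i
    · exact hl.2 j (by simpa using hj')
    · have h1 := (hF j).2
      rw [a08_dl_lt D i.castSucc j.succ (by simp; omega)] at h1
      exact h1.trans_le (hD.monotone (by rw [Fin.le_def]; simp; omega))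
  · right
    have h1 := (hF j).1
    rw [a08_dl_ge D i.castSucc j.castSucc (by simp; omega)] at h1
    exact le_trans (hD.monotone (by rw [Fin.le_def]; simp; omega)) h1

/-- The low rows in position i are the high rows in position i + 1. -/
theorem a12_iff {N : ℕ} (D : Fin (N + 2) → ℤ) (hD : StrictMono D) (i : Fin (N + 1)) (F : Fin N → ℤ) :
    (Il (dl D i.castSucc) F ∧ Lo D i.castSucc F) ↔ (Il (dl D i.succ) F ∧ ¬ Lo D i.succ F) := by
  have hle : ∀ a b : Fin (N + 2), (a : ℕ) ≤ b → D a ≤ D b := fun a b h => hD.monotone h
  have hlt : ∀ a b : Fin (N + 2), (a : ℕ) < b → D a < D b := fun a b h => hD h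
  have hiN := i.2
  constructor
  · rintro ⟨hF, hl⟩
    refine ⟨fun j => ⟨?_, ?_⟩, fun hl' => ?_⟩
    · have h1 := (hF j).1
      by_cases hj : (j : ℕ) < i
      · rw [a08_dl_lt D i.castSucc j.castSucc (by simp; omega)] at h1
        rw [a08_dl_lt D i.succ j.castSucc (by simp; omega)]
        exact h1
      · rw [a08_dl_ge D i.castSucc j.castSucc (by simp; omega)] at h1
        by_cases hj' : (j : ℕ) = i
        · rw [a08_dl_lt D i.succ j.castSucc (by simp; omega)]
          exact le_trans (hle _ _ (by simp)) h1
        · rw [a08_dl_ge D i.succ j.castSucc (by simp; omega)]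
          exact h1
    · have h1 := (hF j).2
      by_cases hj : (j : ℕ) + 1 < i
      · rw [a08_dl_lt D i.castSucc j.succ (by simp; omega)] at h1
        rw [a08_dl_lt D i.succ j.succ (by simp; omega)]
        exact h1
      · by_cases hj' : (j : ℕ) + 1 = i
        · rw [a08_dl_lt D i.succ j.succ (by simp; omega)]
          exact (hl.2 j (by simpa using hj')).trans_le (hle _ _ (by simp; omega))
        · rw [a08_dl_ge D i.castSucc j.succ (by simp; omega)] at h1
          rw [a08_dl_ge D i.succ j.succ (by simp; omega)]
          exact h1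
    · have h2 := hl'.1
      simp only [Fin.val_succ] at h2
      have h3 := hl'.2 ⟨i, by omega⟩ (by simp)
      have h4 := (hF ⟨i, by omega⟩).1
      rw [a08_dl_ge D i.castSucc _ (by simp)] at h4
      have h5 := h4.trans_lt h3
      exact absurd h5 (not_lt.2 (hle _ _ (by simp)))
  · rintro ⟨hF, hl⟩
    refine ⟨fun j => ⟨?_, ?_⟩, ⟨by simp; omega, fun j hj => ?_⟩⟩
    · have h1 := (hF j).1
      by_cases hj : (j : ℕ) < i
      · rw [a08_dl_lt D i.succ j.castSucc (by simp; omega)] at h1
        rw [a08_dl_lt D i.castSucc j.castSucc (by simp; omega)]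
        exact h1
      · rw [a08_dl_ge D i.castSucc j.castSucc (by simp; omega)]
        by_cases hj' : (j : ℕ) = i
        · by_contra h2
          rw [not_le] at h2
          apply hl
          refine ⟨by simp; omega, fun k hk => ?_⟩
          have hkj : k = j := Fin.ext (by simp at hk; omega)
          rw [hkj]
          exact h2.trans_le (hle _ _ (by simp; omega))
        · rw [a08_dl_ge D i.succ j.castSucc (by simp; omega)] at h1
          exact h1
    · have h1 := (hF j).2
      by_cases hj : (j : ℕ) + 1 < i
      · rw [a08_dl_lt D i.succ j.succ (by simp; omega)] at h1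
        rw [a08_dl_lt D i.castSucc j.succ (by simp; omega)]
        exact h1
      · rw [a08_dl_ge D i.castSucc j.succ (by simp; omega)]
        by_cases hj' : (j : ℕ) + 1 = i
        · rw [a08_dl_lt D i.succ j.succ (by simp; omega)] at h1
          exact h1.trans_le (hle _ _ (by simp))
        · rw [a08_dl_ge D i.succ j.succ (by simp; omega)] at h1
          exact h1
    · have h1 := (hF j).2
      simp only [Fin.val_castSucc] at hj
      rw [a08_dl_lt D i.succ j.succ (by simp; omega)] at h1
      exact h1.trans_le (hle _ _ (by simp; omega))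

/-- Inserting an entry of I_i at i in a low row gives a row interlacing D, and every such row arises. -/
theorem a12_ins {N : ℕ} (D : Fin (N + 2) → ℤ) (hD : StrictMono D) (i : Fin (N + 1)) (F : Fin N → ℤ) (hF : Il (dl D i.castSucc) F)
    (hl : Lo D i.castSucc F) (g : ℤ) (h1 : D i.castSucc ≤ g) (h2 : g < D i.succ) : Il D (ins i g F) := by
  have hle : ∀ a b : Fin (N + 2), (a : ℕ) ≤ b → D a ≤ D b := fun a b h => hD.monotone h
  intro j
  rcases Fin.eq_self_or_eq_succAbove i j with rfl | ⟨k, rfl⟩
  · simp only [ins, Fin.insertNth_apply_same]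
    exact ⟨h1, h2⟩
  · simp only [ins, Fin.insertNth_apply_succAbove]
    by_cases hk : (k : ℕ) < i
    · rw [Fin.succAbove_of_castSucc_lt i k (by rw [Fin.lt_def]; simpa using hk)]
      constructor
      · have h3 := (hF k).1
        rw [a08_dl_lt D i.castSucc k.castSucc (by simpa using hk)] at h3
        exact h3
      · by_cases hk' : (k : ℕ) + 1 = i
        · exact (hl.2 k (by simpa using hk')).trans_le (hle _ _ (by simp; omega))
        · have h3 := (hF k).2
          rw [a08_dl_lt D i.castSucc k.succ (by simp; omega)] at h3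
          exact h3.trans_le (hle _ _ (by simp))
    · rw [Fin.succAbove_of_le_castSucc i k (by rw [Fin.le_def]; simpa using hk)]
      constructor
      · have h3 := (hF k).1
        rw [a08_dl_ge D i.castSucc k.castSucc (by simpa using hk)] at h3
        exact le_trans (hle _ _ (by simp)) h3
      · have h3 := (hF k).2
        rw [a08_dl_ge D i.castSucc k.succ (by simp; omega)] at h3
        exact h3

theorem a12_dl {N : ℕ} (D : Fin (N + 2) → ℤ) (hD : StrictMono D) (i : Fin (N + 1)) (G : Fin (N + 1) → ℤ) (hG : Il D G) :
    Il (dl D i.castSucc) (dl G i) ∧ Lo D i.castSucc (dl G i) ∧ ins i (G i) (dl G i) = G := by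
  refine ⟨a10_il D G hG i, ⟨by simp; omega, fun j hj => ?_⟩, ?_⟩
  · simp only [Fin.val_castSucc] at hj
    rw [a08_dl_lt G i j (by omega)]
    exact ((hG j.castSucc).2).trans_le (hD.monotone (by rw [Fin.le_def]; simp; omega))
  · funext j
    rcases Fin.eq_self_or_eq_succAbove i j with rfl | ⟨k, rfl⟩
    · simp [ins]
    · simp [ins, dl]

theorem a12_dl_ins {N : ℕ} (i : Fin (N + 1)) (g : ℤ) (F : Fin N → ℤ) : dl (ins i g F) i = F ∧ ins i g F i = g := by
  constructor
  · funext j
    simp [ins, dl]
  · simp [ins]

/-- The diagonal factor of a row without entries in [a, a + r) is nonzero. -/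
theorem a12_PQ (z : ℤ → K) (hz : Function.Injective z) {n : ℕ} (F : Fin n → ℤ) (a : ℤ) (r : ℕ) (h : ∀ j, F j < a ∨ a + r ≤ F j) :
    ∃ c : K, c ≠ 0 ∧ ∀ v : W R (n + 1), sl F (PQ z a r v) = c • sl F v := by
  induction r with
  | zero => exact ⟨1, one_ne_zero, fun v => by rw [one_smul]; rfl⟩
  | succ r ih =>
    obtain ⟨c, hc, hv⟩ := ih (fun j => by rcases h j with h1 | h1 <;> [left; right] <;> push_cast at * <;> omega)
    refine ⟨pp z F (z (a + r)) * c, mul_ne_zero ?_ hc, fun v => ?_⟩
    · rw [pp, Finset.prod_ne_zero_iff]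
      intro j _ h0
      have h1 := hz (sub_eq_zero.1 h0)
      rcases h j with h2 | h2 <;> push_cast at h2 <;> omega
    · rw [mul_smul, ← hv v]
      rfl

end H92C
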