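import Pool.Agent.Lib.H92C.A12

/-!
# H92C, chunk A13b: decomposition of the vectors in position i, existence (reduction of the X-degree of the low part)

D of length N + 2, increasing, i : Fin (N + 1), position i.castSucc. r = D_{i+1} - D_i. A vector v under dl D i.castSucc over R[X]; its low part = slices at the low rows.
-/

open MvPolynomial

namespace H92C

variable {K R : Type} [Field K] [CommRing R] [Algebra K R]

/-- The candidate for w. -/
noncomputable def a13b_w {N : ℕ} (D : Fin (N + 2) → ℤ) (i : Fin (N + 1)) (cF : (Fin N → ℤ) → K) (v : W (Polynomial R) (N + 1))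
    (d : ℕ) (G : Fin (N + 1) → ℤ) : W R N :=
  open Classical in
  if Il D G ∧ G i = D i.castSucc + (d : ℤ) then (cF (dl G i))⁻¹ • sl (dl G i) (cf d v) else 0

theorem a13b_w_pos {N : ℕ} (D : Fin (N + 2) → ℤ) (i : Fin (N + 1)) (cF : (Fin N → ℤ) → K) (v : W (Polynomial R) (N + 1))
    (d : ℕ) (G : Fin (N + 1) → ℤ) (h : Il D G ∧ G i = D i.castSucc + (d : ℤ)) :
    a13b_w D i cF v d G = (cF (dl G i))⁻¹ • sl (dl G i) (cf d v) := by
  unfold a13b_w
  exact if_pos h

theorem a13b_w_neg {N : ℕ} (D : Fin (N + 2) → ℤ) (i : Fin (N + 1)) (cF : (Fin N → ℤ) → K) (v : W (Polynomial R) (N + 1))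
    (d : ℕ) (G : Fin (N + 1) → ℤ) (h : ¬ (Il D G ∧ G i = D i.castSucc + (d : ℤ))) :
    a13b_w D i cF v d G = 0 := by
  unfold a13b_w
  exact if_neg h

theorem a13b_smul_mem {n : ℕ} (E : Fin n → ℤ) (k : K) (v : W R n) (hv : v ∈ U R n E) : k • v ∈ U R n E := by
  intro c hc
  show k • v c = 0
  rw [hv c hc, smul_zero]

theorem a13b_Cv_zero {n : ℕ} : Cv (0 : W R n) = 0 := by
  funext c
  simp [Cv]

theorem a13b_cf_sg {n : ℕ} (k : ℕ) (F : Fin n → ℤ) (w : W (Polynomial R) n) : cf k (sg F w) = sg F (cf k w) := by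
  funext c
  by_cases h : c.1 = F <;> simp [cf, sg, h]

theorem a13b_cf_Cv {n : ℕ} (k : ℕ) (w : W R n) : cf k (Cv w) = if k = 0 then w else 0 := by
  funext c
  by_cases h : k = 0 <;> simp [cf, Cv, Polynomial.coeff_C, h]

/-- The low rows in degree d < r. u, c_F as before, now with the factor of PQ z (D_i) d at F. w G := c_F⁻¹ sl F u for G interlacing D with G_i = D_i + d, F = dl G i (a12_dl, a12_ins), w G := 0 otherwise.
Σ_G ig (Cv (w G)) = tr (dl D i) (QQ z (D_i) d (Σ sg (dl G i) (Cv (w G)))), top coefficient by a11_topQ (with degree bound 0): slice at a low row F: u_F. -/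
theorem a13_lt (z : ℤ → K) (hz : Function.Injective z) (x : ℕ → R) (h : ℤ → AddSubgroup R) (hx : Gr K x h) {N : ℕ}
    (D : Fin (N + 2) → ℤ) (hD : StrictMono D) (i : Fin (N + 1)) (t : ℤ) (v : W (Polynomial R) (N + 1))
    (hv : v ∈ U (Polynomial R) (N + 1) (dl D i.castSucc)) (hg : Hh (hp h (t - D i.castSucc)) v)
    (d : ℕ) (hd : d < (D i.succ - D i.castSucc).toNat) (hl : LD D i (d + 1) v) :
    ∃ w : (Fin (N + 1) → ℤ) → W R N, (∀ G, w G ∈ U R N (dl G i)) ∧ (∀ G, ¬ Il D G → w G = 0) ∧ (∀ G, Hh (h (t - G i)) (w G)) ∧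
      LD D i d (v - ∑ G ∈ IF D, ig z (xp N x) D G i (Cv (w G))) := by
  classical
  have hlt : D i.castSucc < D i.succ := hD (Fin.castSucc_lt_succ)
  have hd' : D i.castSucc + (d : ℤ) < D i.succ := by omega
  have hex : ∀ F : Fin N → ℤ, ∃ c : K, (Il (dl D i.castSucc) F ∧ Lo D i.castSucc F) →
      (c ≠ 0 ∧ ∀ u : W R (N + 1), sl F (PQ z (D i.castSucc) d u) = c • sl F u) := by
    intro F
    by_cases hP : Il (dl D i.castSucc) F ∧ Lo D i.castSucc F
    · obtain ⟨c, hc⟩ := a12_PQ (R := R) z hz F (D i.castSucc) d (by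
        intro j
        rcases a12_no D hD i F hP.1 hP.2 j with h1 | h1
        · exact Or.inl h1
        · exact Or.inr (by omega))
      exact ⟨c, fun _ => hc⟩
    · exact ⟨0, fun hP' => absurd hP' hP⟩
  choose cF hcF using hex
  have hvk : ∀ m, cf m v ∈ U R (N + 1) (dl D i.castSucc) := fun m => a11_cf_mem _ m v hv
  refine ⟨a13b_w D i cF v d, ?_, ?_, ?_, ?_⟩
  · intro G
    by_cases hG : Il D G ∧ G i = D i.castSucc + (d : ℤ)
    · rw [a13b_w_pos D i cF v d G hG]
      exact a13b_smul_mem _ _ _ (((mem_U_succ.1 (hvk d)) (dl G i)).1 (a12_dl D hD i G hG.1).1)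
    · rw [a13b_w_neg D i cF v d G hG]
      exact Submodule.zero_mem _
  · intro G hG
    exact a13b_w_neg D i cF v d G (fun h' => hG h'.1)
  · intro G
    by_cases hG : Il D G ∧ G i = D i.castSucc + (d : ℤ)
    · rw [a13b_w_pos D i cF v d G hG]
      intro c
      have h1 := hg (dl G i, c) d
      have h2 : t - D i.castSucc - (d : ℤ) = t - G i := by
        rw [hG.2]
        ring
      rw [h2] at h1
      exact hx.smul _ _ _ h1
    · rw [a13b_w_neg D i cF v d G hG]
      exact fun c => (h _).zero_mem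
  · intro k hk F hF
    set S : W (Polynomial R) (N + 1) := ∑ G ∈ IF D, sg (dl G i) (Cv (a13b_w D i cF v d G)) with hS
    have hsum : ∑ G ∈ IF D, ig z (xp N x) D G i (Cv (a13b_w D i cF v d G)) =
        tr (N + 1) (dl D i.castSucc) (QQ z (xp N x) (N + 1) (D i.castSucc) d S) := by
      rw [hS, map_sum, map_sum]
      refine Finset.sum_congr rfl fun G _ => ?_
      by_cases hG : Il D G ∧ G i = D i.castSucc + (d : ℤ)
      · show tr (N + 1) (dl D i.castSucc) (QQ z (xp N x) (N + 1) (D i.castSucc) (G i - D i.castSucc).toNat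
          (sg (dl G i) (Cv (a13b_w D i cF v d G)))) = _
        have h1 : (G i - D i.castSucc).toNat = d := by
          rw [hG.2]
          omega
        rw [h1]
      · rw [a13b_w_neg D i cF v d G hG, a13b_Cv_zero, map_zero, map_zero, map_zero, map_zero]
    have hS0 : ∀ m, 0 < m → cf m S = 0 := by
      intro m hm
      rw [hS, map_sum]
      refine Finset.sum_eq_zero fun G _ => ?_
      rw [a13b_cf_sg, a13b_cf_Cv, if_neg (by omega), map_zero]
    obtain ⟨ht1, ht2⟩ := a11_topQ z N x (D i.castSucc) d 0 S hS0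
    rw [zero_add] at ht1 ht2
    rw [hsum, map_sub, map_sub, a11_cf_tr]
    by_cases hI : Il (dl D i.castSucc) F
    · rw [sl_tr_pos hI]
      rcases Nat.eq_or_lt_of_le hk with hk' | hk'
      · subst hk'
        rw [ht2, (hcF F ⟨hI, hF⟩).2]
        have hG0 := a12_ins D hD i F hI hF (D i.castSucc + (d : ℤ)) (by omega) hd'
        obtain ⟨hG1, hG2⟩ := a12_dl_ins i (D i.castSucc + (d : ℤ)) F
        have h1 : sl F (cf 0 S) = (cF F)⁻¹ • sl F (cf d v) := by
          rw [hS, map_sum, map_sum]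
          rw [Finset.sum_eq_single (ins i (D i.castSucc + (d : ℤ)) F)]
          · rw [a13b_cf_sg, a13b_cf_Cv, if_pos rfl, sl_sg, if_pos hG1.symm,
              a13b_w_pos D i cF v d _ ⟨hG0, hG2⟩, hG1]
          · intro G _ hne
            rw [a13b_cf_sg, a13b_cf_Cv, if_pos rfl, sl_sg]
            by_cases hFG : F = dl G i
            · rw [if_pos hFG]
              refine a13b_w_neg D i cF v d G (fun h' => hne ?_)
              have h3 := (a12_dl D hD i G h'.1).2.2
              rw [h'.2, ← hFG] at h3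
              exact h3.symm
            · rw [if_neg hFG]
          · intro hn
            exact absurd ((mem_IF D _).2 hG0) hn
        rw [h1, smul_smul, mul_inv_cancel₀ (hcF F ⟨hI, hF⟩).1, one_smul, sub_self]
      · rw [ht1 k hk', hl k hk' F hF, map_zero, sub_zero]
    · rw [sl_tr_neg hI, ((mem_U_succ.1 (hvk k)) F).2 hI, sub_zero]

end H92C
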