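import Pool.Agent.Lib.H92C.A13a
import Pool.Agent.Lib.H92C.A13b

/-!
# H92C, chunk A13: decomposition of the vectors in position i, existence (reduction of the X-degree of the low part)

D of length N + 2, increasing, i : Fin (N + 1), position i.castSucc. r = D_{i+1} - D_i. A vector v under dl D i.castSucc over R[X]; its low part = slices at the low rows.
-/

open MvPolynomial

namespace H92C

variable {K R : Type} [Field K] [CommRing R] [Algebra K R]

theorem a13_Cv_add {n : ℕ} (v w : W R n) : Cv (v + w) = Cv v + Cv w := by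
  funext c
  simp [Cv]

theorem a13_Cv_zero {n : ℕ} : Cv (0 : W R n) = 0 := by
  funext c
  simp [Cv]

theorem a13_Hh_add {n : ℕ} {h : AddSubgroup R} {v w : W R n} (hv : Hh h v) (hw : Hh h w) : Hh h (v + w) :=
  fun c => h.add_mem (hv c) (hw c)

theorem a13_Hh_sub {n : ℕ} {h : AddSubgroup R} {v w : W R n} (hv : Hh h v) (hw : Hh h w) : Hh h (v - w) :=
  fun c => h.sub_mem (hv c) (hw c)

theorem a13_Hh_zero {n : ℕ} {h : AddSubgroup R} : Hh h (0 : W R n) := fun _ => h.zero_mem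

theorem a13_Hh_sum {n : ℕ} {h : AddSubgroup R} {ι : Type} (s : Finset ι) (f : ι → W R n) (hf : ∀ i ∈ s, Hh h (f i)) :
    Hh h (∑ i ∈ s, f i) := by
  intro c
  rw [Finset.sum_apply]
  exact h.sum_mem fun i hi => hf i hi c

theorem a13_aux (z : ℤ → K) (hz : Function.Injective z) (x : ℕ → R) (h : ℤ → AddSubgroup R) (hx : Gr K x h) {N : ℕ}
    (D : Fin (N + 2) → ℤ) (hD : StrictMono D) (i : Fin (N + 1)) (t : ℤ) (d : ℕ) : ∀ v : W (Polynomial R) (N + 1),
    v ∈ U (Polynomial R) (N + 1) (dl D i.castSucc) → Hh (hp h (t - D i.castSucc)) v → LD D i d v →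
    ∃ y ∈ U (Polynomial R) (N + 1) (dl D i.castSucc), ∃ y' ∈ U (Polynomial R) (N + 1) (dl D i.succ), ∃ w : (Fin (N + 1) → ℤ) → W R N,
      y ∈ Hi (Polynomial R) D i.castSucc ∧ y' ∈ Hi (Polynomial R) D i.succ ∧
      Hh (hp h (t - D i.castSucc)) y ∧ Hh (hp h (t - D i.succ)) y' ∧
      (∀ G, w G ∈ U R N (dl G i)) ∧ (∀ G, ¬ Il D G → w G = 0) ∧ (∀ G, Hh (h (t - G i)) (w G)) ∧
      v = y + bd z (xp N x) D i y' + ∑ G ∈ IF D, ig z (xp N x) D G i (Cv (w G)) := by
  induction d with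
  | zero =>
    intro v hv hg hl
    refine ⟨v, hv, 0, Submodule.zero_mem _, fun _ => 0, ?_, Submodule.zero_mem _, hg, a13_Hh_zero,
      fun _ => Submodule.zero_mem _, fun _ _ => rfl, fun _ => a13_Hh_zero, ?_⟩
    · intro F hF
      refine a11_ext _ fun k => ?_
      exact hl k (Nat.zero_le _) F hF
    · rw [map_zero, add_zero]
      simp [a13_Cv_zero]
  | succ d ih =>
    intro v hv hg hl
    rcases le_or_gt (D i.succ - D i.castSucc).toNat d with hd | hd
    · obtain ⟨y1, hy1, hy1H, hy1g, hl1⟩ := a13_ge z hz x h hx D hD i t v hv hg d hd hl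
      have hm : v - bd z (xp N x) D i y1 ∈ U (Polynomial R) (N + 1) (dl D i.castSucc) :=
        Submodule.sub_mem _ hv (a08_maps z (xp N x) D i y1 (U_le_Vv _ hy1))
      have hgr : Hh (hp h (t - D i.castSucc)) (v - bd z (xp N x) D i y1) :=
        a13_Hh_sub hg (a08_bd z (xp N x) (hp h) (a11_gr N x h hx) D hD i t y1 hy1g)
      obtain ⟨y, hy, y', hy', w, h1, h2, h3, h4, h5, h6, h7, h8⟩ := ih _ hm hgr hl1
      refine ⟨y, hy, y' + y1, Submodule.add_mem _ hy' hy1, w, h1, Submodule.add_mem _ h2 hy1H, h3,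
        a13_Hh_add h4 hy1g, h5, h6, h7, ?_⟩
      rw [map_add]
      have h9 := eq_add_of_sub_eq h8
      rw [h9]
      abel
    · obtain ⟨w1, hw1, hw1z, hw1g, hl1⟩ := a13_lt z hz x h hx D hD i t v hv hg d hd hl
      have hm : v - ∑ G ∈ IF D, ig z (xp N x) D G i (Cv (w1 G)) ∈ U (Polynomial R) (N + 1) (dl D i.castSucc) :=
        Submodule.sub_mem _ hv (Submodule.sum_mem _ fun G _ =>
          a10_mem z (xp N x) D G i (Cv (w1 G)) (a11_Cv_mem _ _ (hw1 G)))
      have hgr : Hh (hp h (t - D i.castSucc)) (v - ∑ G ∈ IF D, ig z (xp N x) D G i (Cv (w1 G))) :=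
        a13_Hh_sub hg (a13_Hh_sum _ _ fun G hG => a10_hom z (xp N x) (hp h) (a11_gr N x h hx) D G
          ((mem_IF D G).1 hG) i t (Cv (w1 G)) (a11_Cv_hom h _ _ (hw1g G)))
      obtain ⟨y, hy, y', hy', w, h1, h2, h3, h4, h5, h6, h7, h8⟩ := ih _ hm hgr hl1
      refine ⟨y, hy, y', hy', fun G => w G + w1 G, h1, h2, h3, h4,
        fun G => Submodule.add_mem _ (h5 G) (hw1 G), fun G hG => by simp only [h6 G hG, hw1z G hG, add_zero],
        fun G => a13_Hh_add (h7 G) (hw1g G), ?_⟩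
      have h9 := eq_add_of_sub_eq h8
      rw [h9]
      simp only [a13_Cv_add, map_add, Finset.sum_add_distrib]
      abel

/-- Induction on the X-degree of the low part (a11_bound): a13_ge, a13_lt; when the low part is 0 put y = v. Gradings: a08_bd, a10_hom, a11_Cv_hom; memberships a08_maps, a10_mem. -/
theorem a13 (z : ℤ → K) (hz : Function.Injective z) (x : ℕ → R) (h : ℤ → AddSubgroup R) (hx : Gr K x h) {N : ℕ}
    (D : Fin (N + 2) → ℤ) (hD : StrictMono D) (i : Fin (N + 1)) (t : ℤ) (v : W (Polynomial R) (N + 1))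
    (hv : v ∈ U (Polynomial R) (N + 1) (dl D i.castSucc)) (hg : Hh (hp h (t - D i.castSucc)) v) :
    ∃ y ∈ U (Polynomial R) (N + 1) (dl D i.castSucc), ∃ y' ∈ U (Polynomial R) (N + 1) (dl D i.succ), ∃ w : (Fin (N + 1) → ℤ) → W R N,
      y ∈ Hi (Polynomial R) D i.castSucc ∧ y' ∈ Hi (Polynomial R) D i.succ ∧
      Hh (hp h (t - D i.castSucc)) y ∧ Hh (hp h (t - D i.succ)) y' ∧
      (∀ G, w G ∈ U R N (dl G i)) ∧ (∀ G, ¬ Il D G → w G = 0) ∧ (∀ G, Hh (h (t - G i)) (w G)) ∧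
      v = y + bd z (xp N x) D i y' + ∑ G ∈ IF D, ig z (xp N x) D G i (Cv (w G)) := by
  obtain ⟨d, hd⟩ := a11_bound _ v hv
  refine a13_aux z hz x h hx D hD i t d v hv hg ?_
  intro k hk F _
  rw [hd k hk, map_zero]

end H92C
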