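import Pool.Agent.Lib.H92C.A12

/-!
# H92C, chunk A13a: decomposition of the vectors in position i, existence (reduction of the X-degree of the low part)

D of length N + 2, increasing, i : Fin (N + 1), position i.castSucc. r = D_{i+1} - D_i. A vector v under dl D i.castSucc over R[X]; its low part = slices at the low rows.
-/

open MvPolynomial

namespace H92C

variable {K R : Type} [Field K] [CommRing R] [Algebra K R]

/-- The candidate for y'. -/
noncomputable def a13a_y {N : ℕ} (D : Fin (N + 2) → ℤ) (i : Fin (N + 1)) (cF : (Fin N → ℤ) → K) (v : W (Polynomial R) (N + 1))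
    (d e : ℕ) : W (Polynomial R) (N + 1) :=
  open Classical in
  fun c => if Il (dl D i.castSucc) c.1 ∧ Lo D i.castSucc c.1 then
    Polynomial.X ^ e * Polynomial.C ((cF c.1)⁻¹ • (v c).coeff d) else 0

theorem a13a_y_pos {N : ℕ} (D : Fin (N + 2) → ℤ) (i : Fin (N + 1)) (cF : (Fin N → ℤ) → K) (v : W (Polynomial R) (N + 1))
    (d e : ℕ) (c : Ch (N + 1)) (h : Il (dl D i.castSucc) c.1 ∧ Lo D i.castSucc c.1) :
    a13a_y D i cF v d e c = Polynomial.X ^ e * Polynomial.C ((cF c.1)⁻¹ • (v c).coeff d) := by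
  unfold a13a_y
  exact if_pos h

theorem a13a_y_neg {N : ℕ} (D : Fin (N + 2) → ℤ) (i : Fin (N + 1)) (cF : (Fin N → ℤ) → K) (v : W (Polynomial R) (N + 1))
    (d e : ℕ) (c : Ch (N + 1)) (h : ¬ (Il (dl D i.castSucc) c.1 ∧ Lo D i.castSucc c.1)) :
    a13a_y D i cF v d e c = 0 := by
  unfold a13a_y
  exact if_neg h

theorem a13a_coeff (e k : ℕ) (a : R) : (Polynomial.X ^ e * Polynomial.C a : Polynomial R).coeff k = if k = e then a else 0 := by
  rw [Polynomial.X_pow_mul_C, Polynomial.coeff_C_mul_X_pow]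

/-- The low rows in degree d ≥ r = |I_i|. Let u = cf d v restricted to the low rows. For a low row F interlacing dl D i let c_F ≠ 0 be the factor of PQ z (D_i) r at F (a12_no, a12_PQ).
y' := X^(d-r) (c_F⁻¹ u_F) on these rows, 0 on the others (use choice or define c_F as the product Π_{k<r} pp z F (z (D_i + k)); y' c = X^(d-r) * C ((c_F)⁻¹ • (v c).coeff d) if Lo, Il, else 0). The rows are high rows in position i + 1 (a12_iff), so y' is under dl D i.succ and in Hi.
cf k y' = 0 for k > d - r; a11_topQ: cf k (QQ y') = 0 for k > d, cf d (QQ y') = PQ (cf (d-r) y'), whose slice at a low row F is u_F. -/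
theorem a13_ge (z : ℤ → K) (hz : Function.Injective z) (x : ℕ → R) (h : ℤ → AddSubgroup R) (hx : Gr K x h) {N : ℕ}
    (D : Fin (N + 2) → ℤ) (hD : StrictMono D) (i : Fin (N + 1)) (t : ℤ) (v : W (Polynomial R) (N + 1))
    (hv : v ∈ U (Polynomial R) (N + 1) (dl D i.castSucc)) (hg : Hh (hp h (t - D i.castSucc)) v)
    (d : ℕ) (hd : (D i.succ - D i.castSucc).toNat ≤ d) (hl : LD D i (d + 1) v) :
    ∃ y' ∈ U (Polynomial R) (N + 1) (dl D i.succ), y' ∈ Hi (Polynomial R) D i.succ ∧ Hh (hp h (t - D i.succ)) y' ∧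
      LD D i d (v - bd z (xp N x) D i y') := by
  classical
  have hlt : D i.castSucc < D i.succ := hD (Fin.castSucc_lt_succ)
  set r : ℕ := (D i.succ - D i.castSucc).toNat with hr
  have hr' : D i.castSucc + (r : ℤ) = D i.succ := by
    rw [hr, Int.toNat_of_nonneg (by omega)]
    ring
  have hex : ∀ F : Fin N → ℤ, ∃ c : K, (Il (dl D i.castSucc) F ∧ Lo D i.castSucc F) →
      (c ≠ 0 ∧ ∀ u : W R (N + 1), sl F (PQ z (D i.castSucc) r u) = c • sl F u) := by
    intro F
    by_cases hP : Il (dl D i.castSucc) F ∧ Lo D i.castSucc F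
    · obtain ⟨c, hc⟩ := a12_PQ (R := R) z hz F (D i.castSucc) r (by
        intro j
        rw [hr']
        exact a12_no D hD i F hP.1 hP.2 j)
      exact ⟨c, fun _ => hc⟩
    · exact ⟨0, fun hP' => absurd hP' hP⟩
  choose cF hcF using hex
  have hyc : ∀ k c, (a13a_y D i cF v d (d - r) c).coeff k =
      if k = d - r ∧ (Il (dl D i.castSucc) c.1 ∧ Lo D i.castSucc c.1) then (cF c.1)⁻¹ • (v c).coeff d else 0 := by
    intro k c
    by_cases hP : Il (dl D i.castSucc) c.1 ∧ Lo D i.castSucc c.1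
    · rw [a13a_y_pos D i cF v d (d - r) c hP, a13a_coeff]
      by_cases hk : k = d - r
      · rw [if_pos hk, if_pos ⟨hk, hP⟩]
      · rw [if_neg hk, if_neg (fun h' => hk h'.1)]
    · rw [a13a_y_neg D i cF v d (d - r) c hP, if_neg (fun h' => hP h'.2), Polynomial.coeff_zero]
  refine ⟨a13a_y D i cF v d (d - r), ?_, ?_, ?_, ?_⟩
  · intro c hc
    by_cases hP : Il (dl D i.castSucc) c.1 ∧ Lo D i.castSucc c.1
    · rw [a13a_y_pos D i cF v d (d - r) c hP]
      have h1 : ¬ gd (N + 1) (dl D i.castSucc) c := by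
        intro h2
        exact hc ⟨((a12_iff D hD i c.1).1 hP).1, h2.2⟩
      rw [hv c h1]
      simp
    · exact a13a_y_neg D i cF v d (d - r) c hP
  · intro F hF
    funext c
    have hP : ¬ (Il (dl D i.castSucc) F ∧ Lo D i.castSucc F) := fun h' => ((a12_iff D hD i F).1 h').2 hF
    exact a13a_y_neg D i cF v d (d - r) (F, c) hP
  · intro c k
    rw [hyc k c]
    split_ifs with hk
    · have h1 := hg c d
      have h2 : t - D i.castSucc - (d : ℤ) = t - D i.succ - (k : ℤ) := by
        rw [hk.1, Nat.cast_sub hd, ← hr']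
        ring
      rw [h2] at h1
      exact hx.smul _ _ _ h1
    · exact (h _).zero_mem
  · intro k hk F hF
    have hvk : ∀ m, cf m v ∈ U R (N + 1) (dl D i.castSucc) := fun m => a11_cf_mem _ m v hv
    have hy0 : ∀ m, d - r < m → cf m (a13a_y D i cF v d (d - r)) = 0 := by
      intro m hm
      funext c
      show (a13a_y D i cF v d (d - r) c).coeff m = 0
      rw [hyc m c, if_neg (fun h' => by omega)]
    obtain ⟨ht1, ht2⟩ := a11_topQ z N x (D i.castSucc) r (d - r) _ hy0
    have hdr : d - r + r = d := Nat.sub_add_cancel hd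
    rw [hdr] at ht1 ht2
    rw [map_sub, map_sub]
    show sl F (cf k v) - sl F (cf k (tr (N + 1) (dl D i.castSucc)
      (QQ z (xp N x) (N + 1) (D i.castSucc) r (a13a_y D i cF v d (d - r))))) = 0
    rw [a11_cf_tr]
    by_cases hI : Il (dl D i.castSucc) F
    · rw [sl_tr_pos hI]
      rcases Nat.eq_or_lt_of_le hk with hk' | hk'
      · subst hk'
        rw [ht2, (hcF F ⟨hI, hF⟩).2]
        have h1 : sl F (cf (d - r) (a13a_y D i cF v d (d - r))) = (cF F)⁻¹ • sl F (cf d v) := by
          funext c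
          show (a13a_y D i cF v d (d - r) (F, c)).coeff (d - r) = (cF F)⁻¹ • (v (F, c)).coeff d
          rw [hyc, if_pos ⟨rfl, hI, hF⟩]
        rw [h1, smul_smul, mul_inv_cancel₀ (hcF F ⟨hI, hF⟩).1, one_smul, sub_self]
      · rw [ht1 k hk', hl k hk' F hF, map_zero, sub_zero]
    · rw [sl_tr_neg hI, ((mem_U_succ.1 (hvk k)) F).2 hI, sub_zero]

end H92C
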