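import Pool.Agent.Lib.H92C.A12

/-!
# H92C, chunk A14b: decomposition, uniqueness
-/

open MvPolynomial

namespace H92C

variable {K R : Type} [Field K] [CommRing R] [Algebra K R]

/-- The X-degree of ig D G i (Cv w) is G_i - D_i, the top coefficient is the diagonal factor times w on the row dl G i. -/
theorem a14b_ig (z : ℤ → K) (x : ℕ → R) {N : ℕ} (D : Fin (N + 2) → ℤ) (i : Fin (N + 1)) (G : Fin (N + 1) → ℤ) (w : W R N) :
    (∀ k, (G i - D i.castSucc).toNat < k → cf k (ig z (xp N x) D G i (Cv w)) = 0) ∧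
      cf (G i - D i.castSucc).toNat (ig z (xp N x) D G i (Cv w)) =
        tr (N + 1) (dl D i.castSucc) (PQ z (D i.castSucc) (G i - D i.castSucc).toNat (sg (dl G i) w)) := by
  have hk : ∀ k, 0 < k → cf k (sg (dl G i) (Cv w)) = 0 := by
    intro k hk
    funext c
    by_cases h : c.1 = dl G i
    · simp [cf, sg, Cv, h, Polynomial.coeff_C, hk.ne']
    · simp [cf, sg, h]
  have h0 : cf 0 (sg (dl G i) (Cv w)) = sg (dl G i) w := by
    funext c
    by_cases h : c.1 = dl G i <;> simp [cf, sg, Cv, h]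
  have h1 := a11_topQ z N x (D i.castSucc) (G i - D i.castSucc).toNat 0 (sg (dl G i) (Cv w)) hk
  rw [h0, zero_add] at h1
  constructor
  · intro k hk
    rw [ig, LinearMap.comp_apply, LinearMap.comp_apply, a11_cf_tr, h1.1 k hk, map_zero]
  · rw [ig, LinearMap.comp_apply, LinearMap.comp_apply, a11_cf_tr, h1.2]

/-- With y' = 0: suppose some w G ≠ 0 and choose G with G_i maximal. The coefficient of X^(G_i - D_i) of the sum at the low row F = dl G i: the terms G' with G'_i < G_i have smaller X-degree (a11_topQ), those with G'_i > G_i vanish (w = 0), those with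
G'_i = G_i contribute only if dl G' i = F, i.e. G' = G (a12_dl): c • w G with c ≠ 0 (a12_PQ, a12_no). The low part of y vanishes. So w G = 0. -/
theorem a14_w (z : ℤ → K) (hz : Function.Injective z) (x : ℕ → R) {N : ℕ}
    (D : Fin (N + 2) → ℤ) (hD : StrictMono D) (i : Fin (N + 1))
    (y : W (Polynomial R) (N + 1)) (w : (Fin (N + 1) → ℤ) → W R N)
    (hy : y ∈ U (Polynomial R) (N + 1) (dl D i.castSucc))
    (hy1 : y ∈ Hi (Polynomial R) D i.castSucc)
    (hw : ∀ G, w G ∈ U R N (dl G i)) (hw' : ∀ G, ¬ Il D G → w G = 0)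
    (h0 : y + ∑ G ∈ IF D, ig z (xp N x) D G i (Cv (w G)) = 0) : ∀ G, w G = 0 := by
  classical
  by_contra hne
  push Not at hne
  obtain ⟨G0, hG0⟩ := hne
  have hS : ((IF D).filter fun G => w G ≠ 0).Nonempty := by
    refine ⟨G0, Finset.mem_filter.2 ⟨(mem_IF D G0).2 ?_, hG0⟩⟩
    by_contra h
    exact hG0 (hw' G0 h)
  obtain ⟨G, hG, hmax⟩ := Finset.exists_max_image _ (fun G : Fin (N + 1) → ℤ => G i) hS
  rw [Finset.mem_filter, mem_IF] at hG
  obtain ⟨hIl, hwG⟩ := hG
  obtain ⟨hF, hlo, hins⟩ := a12_dl D hD i G hIl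
  have hno := a12_no D hD i (dl G i) hF hlo
  have hGD : D i.castSucc ≤ G i ∧ G i < D i.succ := hIl i
  set d := (G i - D i.castSucc).toNat with hd
  have hdz : (d : ℤ) = G i - D i.castSucc := Int.toNat_of_nonneg (by omega)
  obtain ⟨c, hc, hcv⟩ := a12_PQ (R := R) z hz (dl G i) (D i.castSucc) d (fun j => by
    rcases hno j with h | h
    · exact Or.inl h
    · right; omega)
  have h1 : sl (dl G i) (cf d (y + ∑ G ∈ IF D, ig z (xp N x) D G i (Cv (w G)))) = 0 := by
    rw [h0, map_zero, map_zero]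
  rw [map_add, map_add, map_sum, map_sum] at h1
  have hy2 : sl (dl G i) (cf d y) = 0 := by
    have h2 : sl (dl G i) y = 0 := hy1 _ hlo
    have h3 : sl (dl G i) (cf d y) = cf d (sl (dl G i) y) := rfl
    rw [h3, h2, map_zero]
  rw [hy2, zero_add, Finset.sum_eq_single G] at h1
  · rw [(a14b_ig z x D i G (w G)).2, sl_tr_pos hF, hcv, sl_sg, if_pos rfl] at h1
    have h4 := (smul_eq_zero_iff_right hc).1 h1
    exact hwG h4
  · intro G' hG' hne
    rw [mem_IF] at hG'
    by_cases hw0 : w G' = 0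
    · rw [hw0]
      have : (Cv (0 : W R N) : W (Polynomial R) N) = 0 := by funext c; simp [Cv]
      rw [this, map_zero, map_zero, map_zero]
    · have h5 : G' i ≤ G i := hmax G' (Finset.mem_filter.2 ⟨(mem_IF D G').2 hG', hw0⟩)
      have hGD' : D i.castSucc ≤ G' i := (hG' i).1
      rcases h5.lt_or_eq with h6 | h6
      · rw [(a14b_ig z x D i G' (w G')).1 d (by omega), map_zero]
      · have h7 : (G' i - D i.castSucc).toNat = d := by rw [h6]
        have h8 := (a14b_ig z x D i G' (w G')).2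
        rw [h7] at h8
        rw [h8, sl_tr_pos hF, hcv, sl_sg, if_neg, smul_zero]
        intro h9
        apply hne
        rw [← (a12_dl D hD i G' hG').2.2, ← hins, ← h9, h6]
  · intro hG
    exact absurd ((mem_IF D G).2 hIl) hG

end H92C
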