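import Pool.Agent.Lib.H92C.A14a
import Pool.Agent.Lib.H92C.A14b

/-!
# H92C, file A14 (complete): decomposition, uniqueness
-/

open MvPolynomial

namespace H92C

variable {K R : Type} [Field K] [CommRing R] [Algebra K R]

/-- Assembly. -/
theorem a14 (z : ℤ → K) (hz : Function.Injective z) (x : ℕ → R) {N : ℕ}
    (D : Fin (N + 2) → ℤ) (hD : StrictMono D) (i : Fin (N + 1))
    (y y' : W (Polynomial R) (N + 1)) (w : (Fin (N + 1) → ℤ) → W R N)
    (hy : y ∈ U (Polynomial R) (N + 1) (dl D i.castSucc)) (hy' : y' ∈ U (Polynomial R) (N + 1) (dl D i.succ))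
    (hy1 : y ∈ Hi (Polynomial R) D i.castSucc) (hy2 : y' ∈ Hi (Polynomial R) D i.succ)
    (hw : ∀ G, w G ∈ U R N (dl G i)) (hw' : ∀ G, ¬ Il D G → w G = 0)
    (h0 : y + bd z (xp N x) D i y' + ∑ G ∈ IF D, ig z (xp N x) D G i (Cv (w G)) = 0) : y' = 0 ∧ ∀ G, w G = 0 := by
  have h1 := a14_y z hz x D hD i y y' w hy hy' hy1 hy2 hw hw' h0
  refine ⟨h1, a14_w z hz x D hD i y w hy hy1 hw hw' ?_⟩
  rw [h1, map_zero, add_zero] at h0
  exact h0

end H92C
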