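import Pool.Agent.Lib.H92C.A12

/-!
# H92C, chunk A14a: decomposition, uniqueness
-/

open MvPolynomial

namespace H92C

variable {K R : Type} [Field K] [CommRing R] [Algebra K R]

/-- The X-degree of ig D G i (Cv w) is at most G_i - D_i. -/
theorem a14a_ig (z : ℤ → K) (x : ℕ → R) {N : ℕ} (D : Fin (N + 2) → ℤ) (i : Fin (N + 1)) (G : Fin (N + 1) → ℤ) (w : W R N) :
    ∀ k, (G i - D i.castSucc).toNat < k → cf k (ig z (xp N x) D G i (Cv w)) = 0 := by
  have hk : ∀ k, 0 < k → cf k (sg (dl G i) (Cv w)) = 0 := by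
    intro k hk
    funext c
    by_cases h : c.1 = dl G i
    · simp [cf, sg, Cv, h, Polynomial.coeff_C, hk.ne']
    · simp [cf, sg, h]
  have h1 := a11_topQ z N x (D i.castSucc) (G i - D i.castSucc).toNat 0 (sg (dl G i) (Cv w)) hk
  rw [zero_add] at h1
  intro k hk
  rw [ig, LinearMap.comp_apply, LinearMap.comp_apply, a11_cf_tr, h1.1 k hk, map_zero]

/-- The low part of the sum is 0. r = D_{i+1} - D_i. Σ ig (Cv (w G)) has X-degree < r (a11_topQ with bound 0: QQ [D_i, G_i), G_i - D_i < r). Suppose y' ≠ 0, let d be its X-degree (a11_bound): the coefficient of X^(d+r) of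
bd y' at a low row F (interlacing dl D i) is c_F • sl F (cf d y') (a11_topQ, a12_PQ), c_F ≠ 0, so sl F (cf d y') = 0 for the low rows F in position i = the high rows in position i + 1 (a12_iff); at the other rows y' vanishes
(it is under dl D i.succ and in Hi). So cf d y' = 0, a contradiction. -/
theorem a14_y (z : ℤ → K) (hz : Function.Injective z) (x : ℕ → R) {N : ℕ}
    (D : Fin (N + 2) → ℤ) (hD : StrictMono D) (i : Fin (N + 1))
    (y y' : W (Polynomial R) (N + 1)) (w : (Fin (N + 1) → ℤ) → W R N)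
    (hy : y ∈ U (Polynomial R) (N + 1) (dl D i.castSucc)) (hy' : y' ∈ U (Polynomial R) (N + 1) (dl D i.succ))
    (hy1 : y ∈ Hi (Polynomial R) D i.castSucc) (hy2 : y' ∈ Hi (Polynomial R) D i.succ)
    (hw : ∀ G, w G ∈ U R N (dl G i)) (hw' : ∀ G, ¬ Il D G → w G = 0)
    (h0 : y + bd z (xp N x) D i y' + ∑ G ∈ IF D, ig z (xp N x) D G i (Cv (w G)) = 0) : y' = 0 := by
  classical
  by_contra hne
  have hb := a11_bound _ y' hy'
  have hd0 : Nat.find hb ≠ 0 := by
    intro h
    apply hne
    refine a11_ext _ fun k => ?_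
    exact Nat.find_spec hb k (by rw [h]; exact Nat.zero_le _)
  obtain ⟨d, hd⟩ := Nat.exists_eq_succ_of_ne_zero hd0
  have htop : ∀ k, d < k → cf k y' = 0 := fun k hk => Nat.find_spec hb k (by rw [hd]; exact hk)
  have hcd : cf d y' ≠ 0 := by
    intro h
    have := Nat.find_min' hb (m := d) (fun k hk => by
      rcases hk.lt_or_eq with h1 | h1
      · exact htop k h1
      · rw [← h1]; exact h)
    omega
  apply hcd
  have hDi : D i.castSucc < D i.succ := hD (Fin.castSucc_lt_succ)
  set r := (D i.succ - D i.castSucc).toNat with hr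
  have hrz : (r : ℤ) = D i.succ - D i.castSucc := Int.toNat_of_nonneg (by omega)
  refine sl_ext fun F => ?_
  rw [map_zero]
  have hcomm : ∀ (k : ℕ) (v : W (Polynomial R) (N + 1)), sl F (cf k v) = cf k (sl F v) := fun _ _ => rfl
  by_cases hF : Il (dl D i.succ) F
  · by_cases hlo' : Lo D i.succ F
    · rw [hcomm, show sl F y' = 0 from hy2 F hlo', map_zero]
    · obtain ⟨hF1, hlo⟩ := (a12_iff D hD i F).2 ⟨hF, hlo'⟩
      have hno := a12_no D hD i F hF1 hlo
      obtain ⟨c, hc, hcv⟩ := a12_PQ (R := R) z hz F (D i.castSucc) r (fun j => by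
        rcases hno j with h | h
        · exact Or.inl h
        · right; omega)
      have h1 : sl F (cf (d + r) (y + bd z (xp N x) D i y' + ∑ G ∈ IF D, ig z (xp N x) D G i (Cv (w G)))) = 0 := by
        rw [h0, map_zero, map_zero]
      rw [map_add, map_add, map_add, map_add, map_sum, map_sum] at h1
      have h2 : sl F (cf (d + r) y) = 0 := by
        rw [hcomm, show sl F y = 0 from hy1 F hlo, map_zero]
      have h3 : ∑ G ∈ IF D, sl F (cf (d + r) (ig z (xp N x) D G i (Cv (w G)))) = 0 := by
        refine Finset.sum_eq_zero fun G hG => ?_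
        rw [mem_IF] at hG
        have h4 : D i.castSucc ≤ G i ∧ G i < D i.succ := hG i
        rw [a14a_ig z x D i G (w G) (d + r) (by omega), map_zero]
      have h5 : cf (d + r) (bd z (xp N x) D i y') = tr (N + 1) (dl D i.castSucc) (PQ z (D i.castSucc) r (cf d y')) := by
        rw [bd, LinearMap.comp_apply, a11_cf_tr, (a11_topQ z N x (D i.castSucc) r d y' htop).2]
      rw [h2, h3, h5, add_zero, zero_add, sl_tr_pos hF1, hcv] at h1
      exact (smul_eq_zero_iff_right hc).1 h1
  · rw [hcomm, show sl F y' = 0 from ((mem_U_succ.1 hy') F).2 hF, map_zero]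

end H92C
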