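import Pool.Agent.Lib.H92C.A13
import Pool.Agent.Lib.H92C.A14

/-!
# H92C, chunk A15b: induction step for exactness and regularity
-/

open MvPolynomial

namespace H92C

variable {K R : Type} [Field K] [CommRing R] [Algebra K R]

/-- Last position: i + 1 = N + 1, all rows in position N + 1 are high (Lo requires p ≤ N), so a14 with y = 0, y' = v, w = 0. -/
theorem a15_last (z : ℤ → K) (hz : Function.Injective z) (N : ℕ) (x : ℕ → R)
    (D : Fin (N + 2) → ℤ) (hD : StrictMono D) (i : Fin (N + 1)) (hi : (i : ℕ) + 1 = N + 1) (v : W (Polynomial R) (N + 1))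
    (hv : v ∈ U (Polynomial R) (N + 1) (dl D i.succ)) (h0 : bd z (xp N x) D i v = 0) : v = 0 := by
  have hz0 : (Cv (0 : W R N) : W (Polynomial R) N) = 0 := by funext c; simp [Cv]
  refine a14_y z hz x D hD i 0 v (fun _ => 0) (Submodule.zero_mem _) hv (Submodule.zero_mem _) ?_
    (fun _ => Submodule.zero_mem _) (fun _ _ => rfl) ?_
  · intro F hF
    have := hF.1
    simp only [Fin.val_succ] at this
    omega
  · rw [h0, zero_add, zero_add]
    refine Finset.sum_eq_zero fun G _ => ?_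
    rw [hz0, map_zero]

/-- Lifting through the embeddings: if every w G is a boundary in F_G then the sum of the images is a boundary in F_D. -/
theorem a15b_lift (z : ℤ → K) (hz : Function.Injective z) (N : ℕ) (x : ℕ → R) (h : ℤ → AddSubgroup R) (hx : Gr K x h)
    (D : Fin (N + 2) → ℤ) (hD : StrictMono D) (i : Fin N) (t : ℤ) (w : (Fin (N + 1) → ℤ) → W R N)
    (hex : ∀ G, Il D G → ∃ w' ∈ U R N (dl G i.succ), Hh (h (t - G i.succ)) w' ∧ bd z x G i w' = w G)
    (y' : W (Polynomial R) (N + 1)) (hy' : y' ∈ U (Polynomial R) (N + 1) (dl D i.castSucc.succ))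
    (hg : Hh (hp h (t - D i.castSucc.succ)) y') :
    ∃ u ∈ U (Polynomial R) (N + 1) (dl D i.castSucc.succ), Hh (hp h (t - D i.castSucc.succ)) u ∧
      bd z (xp N x) D i.castSucc u = bd z (xp N x) D i.castSucc y' + ∑ G ∈ IF D, ig z (xp N x) D G i.castSucc (Cv (w G)) := by
  classical
  choose! w' hw1 hw2 hw3 using hex
  refine ⟨y' + ∑ G ∈ IF D, ig z (xp N x) D G i.succ (Cv (w' G)), ?_, ?_, ?_⟩
  · refine Submodule.add_mem _ hy' (Submodule.sum_mem _ fun G hG => ?_)
    rw [mem_IF] at hG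
    exact a10_mem z (xp N x) D G i.succ _ (a11_Cv_mem _ _ (hw1 G hG))
  · intro c
    rw [Pi.add_apply, Finset.sum_apply]
    refine AddSubgroup.add_mem _ (hg c) ?_
    refine AddSubgroup.sum_mem _ fun G hG => ?_
    rw [mem_IF] at hG
    exact a10_hom z (xp N x) (hp h) (a11_gr N x h hx) D G hG i.succ t _ (a11_Cv_hom h _ _ (hw2 G hG)) c
  · rw [map_add, map_sum]
    congr 1
    refine Finset.sum_congr rfl fun G hG => ?_
    rw [mem_IF] at hG
    rw [a10_chain z hz (xp N x) D hD G hG i _ (a11_Cv_mem _ _ (hw1 G hG)), a11_Cv_bd, hw3 G hG]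

/-- Regularity. Position 0 (all rows are low, so the part y in Hi is 0): v = bd D 0 y' + Σ_G ig D G 0 (Cv (w G)) with w G of total degree t; t > D_{N+1} - (N+1) ≥ G_N - N since G_N < D_{N+1}. Rg1 for G: N = 0: w G = 0; N ≥ 1: w G = bd G 0 (w' G), and
ig D G 0 (Cv (bd G 0 (w' G))) = bd D 0 (ig D G 1 (Cv (w' G))) (a11_Cv_bd, a10_chain). -/
theorem a15_reg (z : ℤ → K) (hz : Function.Injective z) (N : ℕ) (x : ℕ → R) (h : ℤ → AddSubgroup R) (hx : Gr K x h) (ih : Rg1 z N x h) :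
    Rg1 z (N + 1) (xp N x) (hp h) := by
  intro D hD t ht p hp0 v hv hg
  refine ⟨fun h => absurd h (Nat.succ_ne_zero N), fun i hi => ?_⟩
  obtain rfl : p = i.castSucc := Fin.ext (by simp; omega)
  obtain ⟨y, hy, y', hy', w, hy1, hy2, hgy, hgy', hw, hw0, hgw, hveq⟩ := a13 z hz x h hx D hD i t v hv hg
  have hyz : y = 0 := by
    refine sl_ext fun F => ?_
    rw [hy1 F ⟨by simp; omega, fun j hj => by simp at hj; omega⟩, map_zero]
  rw [hyz, zero_add] at hveq
  have hreg : ∀ G, Il D G → (N = 0 → w G = 0) ∧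
      (∀ i' : Fin N, (i' : ℕ) = 0 → ∃ w' ∈ U R N (dl G i'.succ), Hh (h (t - G i'.succ)) w' ∧ bd z x G i' w' = w G) := by
    intro G hG
    refine ih G (il_mono hG).2 t ?_ i hi (w G) (hw G) (hgw G)
    have h1 : G (Fin.last N) < D (Fin.last (N + 1)) := (hG (Fin.last N)).2
    push_cast at ht
    omega
  rcases Nat.eq_zero_or_pos N with hN | hN
  · refine ⟨y', hy', hgy', ?_⟩
    rw [hveq]
    have hz0 : (Cv (0 : W R N) : W (Polynomial R) N) = 0 := by funext c; simp [Cv]
    rw [Finset.sum_eq_zero, add_zero]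
    intro G hG
    rw [(hreg G ((mem_IF D G).1 hG)).1 hN, hz0, map_zero]
  · obtain ⟨i', rfl⟩ : ∃ i' : Fin N, i = i'.castSucc := ⟨⟨i, by omega⟩, rfl⟩
    obtain ⟨u, hu, hgu, hbu⟩ := a15b_lift z hz N x h hx D hD i' t w (fun G hG => (hreg G hG).2 i' (by simpa using hi)) y' hy' hgy'
    exact ⟨u, hu, hgu, by rw [hbu, hveq]⟩

end H92C
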