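import Pool.Agent.Lib.H92C.A15a
import Pool.Agent.Lib.H92C.A15b

/-!
# H92C, file A15 (complete): induction step for exactness and regularity
-/

open MvPolynomial

namespace H92C

variable {K R : Type} [Field K] [CommRing R] [Algebra K R]

theorem a15_exact (z : ℤ → K) (hz : Function.Injective z) (N : ℕ) (x : ℕ → R) (h : ℤ → AddSubgroup R) (hx : Gr K x h) (ih : Ex1 z N x h) :
    Ex1 z (N + 1) (xp N x) (hp h) := by
  intro D hD
  refine ⟨fun i j hij t v hv hg h0 => a15_mid z hz N x h hx ih D hD i j hij t v hv hg h0,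
    fun i hi t v hv _ h0 => a15_last z hz N x D hD i hi v hv h0⟩

end H92C
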