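import Pool.Agent.Lib.H92C.A13
import Pool.Agent.Lib.H92C.A14

/-!
# H92C, chunk A15a: induction step for exactness and regularity
-/

open MvPolynomial

namespace H92C

variable {K R : Type} [Field K] [CommRing R] [Algebra K R]

/-- Lifting through the embeddings: if every w G is a boundary in F_G then the sum of the images is a boundary in F_D. -/
theorem a15a_lift (z : ℤ → K) (hz : Function.Injective z) (N : ℕ) (x : ℕ → R) (h : ℤ → AddSubgroup R) (hx : Gr K x h)
    (D : Fin (N + 2) → ℤ) (hD : StrictMono D) (i : Fin N) (t : ℤ) (w : (Fin (N + 1) → ℤ) → W R N)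
    (hex : ∀ G, Il D G → ∃ w' ∈ U R N (dl G i.succ), Hh (h (t - G i.succ)) w' ∧ bd z x G i w' = w G)
    (y' : W (Polynomial R) (N + 1)) (hy' : y' ∈ U (Polynomial R) (N + 1) (dl D i.castSucc.succ))
    (hg : Hh (hp h (t - D i.castSucc.succ)) y') :
    ∃ u ∈ U (Polynomial R) (N + 1) (dl D i.castSucc.succ), Hh (hp h (t - D i.castSucc.succ)) u ∧
      bd z (xp N x) D i.castSucc u = bd z (xp N x) D i.castSucc y' + ∑ G ∈ IF D, ig z (xp N x) D G i.castSucc (Cv (w G)) := by
  classical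
  choose! w' hw1 hw2 hw3 using hex
  refine ⟨y' + ∑ G ∈ IF D, ig z (xp N x) D G i.succ (Cv (w' G)), ?_, ?_, ?_⟩
  · refine Submodule.add_mem _ hy' (Submodule.sum_mem _ fun G hG => ?_)
    rw [mem_IF] at hG
    exact a10_mem z (xp N x) D G i.succ _ (a11_Cv_mem _ _ (hw1 G hG))
  · intro c
    rw [Pi.add_apply, Finset.sum_apply]
    refine AddSubgroup.add_mem _ (hg c) ?_
    refine AddSubgroup.sum_mem _ fun G hG => ?_
    rw [mem_IF] at hG
    exact a10_hom z (xp N x) (hp h) (a11_gr N x h hx) D G hG i.succ t _ (a11_Cv_hom h _ _ (hw2 G hG)) c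
  · rw [map_add, map_sum]
    congr 1
    refine Finset.sum_congr rfl fun G hG => ?_
    rw [mem_IF] at hG
    rw [a10_chain z hz (xp N x) D hD G hG i _ (a11_Cv_mem _ _ (hw1 G hG)), a11_Cv_bd, hw3 G hG]

/-- Middle positions. D of length N + 2, i, j : Fin (N + 1), j = i + 1, v in position i.succ = j.castSucc, bd D i v = 0. Decompose (a13 at j): v = y + bd D j y' + Σ_G ig D G j (Cv (w G)). Apply bd D i: bd D i bd D j y' = 0 (a08_comp), and with i' : Fin N, i'.castSucc = i, i'.succ = j: bd D i (ig D G j (Cv (w G))) =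
ig D G i (bd G i' (Cv (w G))) = ig D G i (Cv (bd z x G i' (w G))) (a10_chain, a11_Cv_bd). So 0 = 0 + bd D i y + Σ_G ig D G i (Cv (bd G i' (w G))), uniqueness (a14 at i): y = 0, bd G i' (w G) = 0 for all G. Ex1 for G (increasing, il_mono): if i' + 1 < N choose w' G with bd G j' (w' G) = w G, j' = i' + 1 (graded); then
v = bd D j (y' + Σ_G ig D G j'.succ (Cv (w' G))) (j = j'.castSucc; a10_chain). If i' + 1 = N then w G = 0 and v = bd D j y'. For G not interlacing D use w' G = 0. -/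
theorem a15_mid (z : ℤ → K) (hz : Function.Injective z) (N : ℕ) (x : ℕ → R) (h : ℤ → AddSubgroup R) (hx : Gr K x h) (ih : Ex1 z N x h)
    (D : Fin (N + 2) → ℤ) (hD : StrictMono D) (i j : Fin (N + 1)) (hij : (j : ℕ) = i + 1) (t : ℤ) (v : W (Polynomial R) (N + 1))
    (hv : v ∈ U (Polynomial R) (N + 1) (dl D i.succ)) (hg : Hh (hp h (t - D i.succ)) v) (h0 : bd z (xp N x) D i v = 0) :
    ∃ w ∈ U (Polynomial R) (N + 1) (dl D j.succ), Hh (hp h (t - D j.succ)) w ∧ bd z (xp N x) D j w = v := by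
  have hz0 : (Cv (0 : W R N) : W (Polynomial R) N) = 0 := by funext c; simp [Cv]
  obtain ⟨i', rfl⟩ : ∃ i' : Fin N, i = i'.castSucc := ⟨⟨i, by omega⟩, rfl⟩
  obtain rfl : j = i'.succ := Fin.ext (by simpa using hij)
  obtain ⟨y, hy, y', hy', w, hy1, hy2, hgy, hgy', hw, hw0, hgw, hveq⟩ := a13 z hz x h hx D hD i'.succ t v hv hg
  -- apply the boundary
  have h1 : bd z (xp N x) D i'.castSucc y +
      ∑ G ∈ IF D, ig z (xp N x) D G i'.castSucc (Cv (bd z x G i' (w G))) = 0 := by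
    have h2 := h0
    rw [hveq, map_add, map_add, map_sum, a08_comp z hz (xp N x) D hD i'.castSucc i'.succ (by simp) y' hy', add_zero] at h2
    rw [← h2]
    congr 1
    refine Finset.sum_congr rfl fun G hG => ?_
    rw [mem_IF] at hG
    rw [a10_chain z hz (xp N x) D hD G hG i' _ (a11_Cv_mem _ _ (hw G)), a11_Cv_bd]
  have h3 := a14 z hz x D hD i'.castSucc 0 y (fun G => bd z x G i' (w G)) (Submodule.zero_mem _) hy (Submodule.zero_mem _) hy1
    (fun G => a08_maps z x G i' _ (U_le_Vv _ (hw G))) (fun G hG => by rw [hw0 G hG, map_zero]) (by rw [zero_add]; exact h1)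
  obtain ⟨hyz, hbw⟩ := h3
  rw [hyz, zero_add] at hveq
  by_cases hN : (i' : ℕ) + 1 < N
  · obtain ⟨j', hj'⟩ : ∃ j' : Fin N, (j' : ℕ) = i' + 1 := ⟨⟨i' + 1, hN⟩, rfl⟩
    have hjj : i'.succ = j'.castSucc := Fin.ext (by simp [hj'])
    rw [hjj] at hy' hgy' hveq ⊢
    obtain ⟨u, hu, hgu, hbu⟩ := a15a_lift z hz N x h hx D hD j' t w (fun G hG => by
      refine (ih G (il_mono hG).2).1 i' j' hj' t (w G) (hw G) (hgw G) (hbw G)) y' hy' hgy'
    exact ⟨u, hu, hgu, by rw [hbu, hveq]⟩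
  · refine ⟨y', hy', hgy', ?_⟩
    rw [hveq, Finset.sum_eq_zero, add_zero]
    intro G hG
    rw [mem_IF] at hG
    rw [(ih G (il_mono hG).2).2 i' (by have := i'.2; omega) t (w G) (hw G) (hgw G) (hbw G), hz0, map_zero]

end H92C
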