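import Pool.Agent.Lib.H92C.A15

/-!
# H92C, chunk A16: base of the induction and transfer along an isomorphism
-/

open MvPolynomial

namespace H92C

variable {K R R' : Type} [Field K] [CommRing R] [Algebra K R] [CommRing R'] [Algebra K R']

theorem a16_base (z : ℤ → K) (x : ℕ → R) (h : ℤ → AddSubgroup R) : Ex1 z 0 x h := by
  intro D _
  exact ⟨fun i => i.elim0, fun i => i.elim0⟩

/-- For N = 0: the total degree t > D_0 gives entries in h (t - D_0) = 0. -/
theorem a16_reg (z : ℤ → K) (x : ℕ → R) (h : ℤ → AddSubgroup R) (h0 : ∀ t, 0 < t → ∀ r ∈ h t, r = 0) : Rg1 z 0 x h := by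
  intro D _ t ht p hp v _ hg
  refine ⟨fun _ => ?_, fun i => i.elim0⟩
  funext c
  have h1 : p = Fin.last 0 := by
    ext
    simpa using hp
  refine h0 (t - D p) ?_ _ (hg c)
  rw [h1]
  simpa using ht

theorem a16_tr (σ : R ≃ₐ[K] R') (n : ℕ) (E : Fin n → ℤ) (v : W R n) :
    tr n E (fun c => σ (v c)) = fun c => σ (tr n E v c) := by
  cases n with
  | zero => rfl
  | succ n =>
    funext c
    show (if Il E c.1 then σ (v c) else 0) = σ (if Il E c.1 then v c else 0)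
    split_ifs
    · rfl
    · exact (map_zero σ).symm

/-- The operators commute with isomorphisms of K-algebras which map x l to x' l for l < N (levels ≤ N; induction on n). -/
theorem a16_XX (z : ℤ → K) (N : ℕ) (x : ℕ → R) (x' : ℕ → R') (σ : R ≃ₐ[K] R') (hσ : ∀ l < N, σ (x l) = x' l) (n : ℕ) (hn : n ≤ N) (s : K) (v : W R n) :
    XX z x' n s (fun c => σ (v c)) = fun c => σ (XX z x n s v c) := by
  induction n generalizing s with
  | zero =>
    funext c
    show (0 : R') = σ 0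
    exact (map_zero σ).symm
  | succ n ih =>
    refine sl_ext fun F => ?_
    rw [sl_XX]
    have e : sl F (fun c => σ (XX z x (n + 1) s v c)) = fun c => σ (sl F (XX z x (n + 1) s v) c) := rfl
    rw [e, sl_XX]
    funext c
    have e1 : ∀ b, tr n F (XX z x' n (z (F b - 1)) (sl (F - ep b) (fun c => σ (v c)))) =
        fun c => σ (tr n F (XX z x n (z (F b - 1)) (sl (F - ep b) v)) c) := fun b => by
      have e2 : sl (F - ep b) (fun c => σ (v c)) = fun c => σ (sl (F - ep b) v c) := rfl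
      rw [e2, ih (by omega), a16_tr]
    simp only [Pi.add_apply, Pi.smul_apply, Finset.sum_apply, e1, map_add, map_sum, smul_eq_mul, map_mul,
      map_smul, hσ n hn]
    rfl

theorem a16_QQ (z : ℤ → K) (N : ℕ) (x : ℕ → R) (x' : ℕ → R') (σ : R ≃ₐ[K] R') (hσ : ∀ l < N, σ (x l) = x' l)
    (a : ℤ) (r : ℕ) (v : W R N) : QQ z x' N a r (fun c => σ (v c)) = fun c => σ (QQ z x N a r v c) := by
  induction r with
  | zero => rfl
  | succ r ih =>
    show XX z x' N (z (a + r)) (QQ z x' N a r (fun c => σ (v c))) = _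
    rw [ih, a16_XX z N x x' σ hσ N le_rfl]
    rfl

theorem a16_bd (z : ℤ → K) (N : ℕ) (x : ℕ → R) (x' : ℕ → R') (σ : R ≃ₐ[K] R') (hσ : ∀ l < N, σ (x l) = x' l) (D : Fin (N + 1) → ℤ) (i : Fin N) (v : W R N) :
    bd z x' D i (fun c => σ (v c)) = fun c => σ (bd z x D i v c) := by
  show tr N (dl D i.castSucc) (QQ z x' N (D i.castSucc) (D i.succ - D i.castSucc).toNat (fun c => σ (v c))) = _
  rw [a16_QQ z N x x' σ hσ, a16_tr]
  rfl

theorem a16_U (σ : R ≃ₐ[K] R') {n : ℕ} (E : Fin n → ℤ) (v : W R n) (hv : v ∈ U R n E) :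
    (fun c => σ (v c)) ∈ U R' n E := by
  intro c hc
  show σ (v c) = 0
  rw [hv c hc, map_zero]

theorem a16_back (z : ℤ → K) (N : ℕ) (x : ℕ → R) (x' : ℕ → R') (σ : R ≃ₐ[K] R') (hσ : ∀ l < N, σ (x l) = x' l)
    (h : ℤ → AddSubgroup R) (h' : ℤ → AddSubgroup R') (hh : ∀ t r, r ∈ h t ↔ σ r ∈ h' t) (E : Fin N → ℤ) (t : ℤ)
    (v : W R' N) (hv : v ∈ U R' N E) (hg : Hh (h' t) v) :
    ∃ v' : W R N, v' ∈ U R N E ∧ Hh (h t) v' ∧ v = fun c => σ (v' c) := by
  refine ⟨fun c => σ.symm (v c), a16_U σ.symm E v hv, fun c => ?_, ?_⟩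
  · rw [hh, AlgEquiv.apply_symm_apply]
    exact hg c
  · funext c
    rw [AlgEquiv.apply_symm_apply]

theorem a16_inj (σ : R ≃ₐ[K] R') {n : ℕ} (v w : W R n) (h : (fun c => σ (v c)) = fun c => σ (w c)) : v = w := by
  funext c
  exact σ.injective (congrFun h c)

theorem a16_exact (z : ℤ → K) (N : ℕ) (x : ℕ → R) (x' : ℕ → R') (σ : R ≃ₐ[K] R') (hσ : ∀ l < N, σ (x l) = x' l)
    (h : ℤ → AddSubgroup R) (h' : ℤ → AddSubgroup R') (hh : ∀ t r, r ∈ h t ↔ σ r ∈ h' t) (H : Ex1 z N x h) : Ex1 z N x' h' := by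
  intro D hD
  refine ⟨fun i j hij t v hv hg h0 => ?_, fun i hi t v hv hg h0 => ?_⟩
  · obtain ⟨v', hv', hg', rfl⟩ := a16_back z N x x' σ hσ h h' hh _ _ v hv hg
    rw [a16_bd z N x x' σ hσ] at h0
    have h1 : bd z x D i v' = 0 := a16_inj σ _ _ (h0.trans (by funext c; exact (map_zero σ).symm))
    obtain ⟨w, hw, hwg, rfl⟩ := (H D hD).1 i j hij t v' hv' hg' h1
    exact ⟨fun c => σ (w c), a16_U σ _ w hw, fun c => (hh _ _).1 (hwg c), a16_bd z N x x' σ hσ D j w⟩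
  · obtain ⟨v', hv', hg', rfl⟩ := a16_back z N x x' σ hσ h h' hh _ _ v hv hg
    rw [a16_bd z N x x' σ hσ] at h0
    have h1 : bd z x D i v' = 0 := a16_inj σ _ _ (h0.trans (by funext c; exact (map_zero σ).symm))
    rw [(H D hD).2 i hi t v' hv' hg' h1]
    funext c
    exact map_zero σ

theorem a16_rg (z : ℤ → K) (N : ℕ) (x : ℕ → R) (x' : ℕ → R') (σ : R ≃ₐ[K] R') (hσ : ∀ l < N, σ (x l) = x' l)
    (h : ℤ → AddSubgroup R) (h' : ℤ → AddSubgroup R') (hh : ∀ t r, r ∈ h t ↔ σ r ∈ h' t) (H : Rg1 z N x h) : Rg1 z N x' h' := by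
  intro D hD t ht p hp v hv hg
  obtain ⟨v', hv', hg', rfl⟩ := a16_back z N x x' σ hσ h h' hh _ _ v hv hg
  obtain ⟨h1, h2⟩ := H D hD t ht p hp v' hv' hg'
  refine ⟨fun hN => ?_, fun i hi => ?_⟩
  · rw [h1 hN]
    funext c
    exact map_zero σ
  · obtain ⟨w, hw, hwg, rfl⟩ := h2 i hi
    exact ⟨fun c => σ (w c), a16_U σ _ w hw, fun c => (hh _ _).1 (hwg c), a16_bd z N x x' σ hσ D i w⟩

end H92C
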