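import Pool.Agent.Lib.H92C.A17a

/-!
# H92C, chunk A17: polynomial rings
-/

open MvPolynomial

namespace H92C

variable {K : Type} [Field K] {B : Type} [CommRing B] [Algebra K B]

theorem a17_X_mul {N : ℕ} (l : Fin N) {t : ℤ} {r : MvPolynomial (Fin N) B} (hr : r ∈ hm N B t) :
    X l * r ∈ hm N B (t + 1) := by
  by_cases ht : 0 ≤ t
  · obtain ⟨m, rfl⟩ := Int.eq_ofNat_of_zero_le ht
    unfold hm at hr ⊢
    rw [if_pos (Int.natCast_nonneg m), Int.toNat_natCast, mem_homogeneousSubmodule] at hr
    rw [if_pos (by omega), mem_homogeneousSubmodule]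
    have h1 := (isHomogeneous_X B l).mul hr
    have e : ((m : ℤ) + 1).toNat = 1 + m := by omega
    rw [e]
    exact h1
  · unfold hm at hr
    rw [if_neg ht, Submodule.mem_bot] at hr
    rw [hr, mul_zero]
    exact Submodule.zero_mem _

theorem a17_zero {t : ℤ} (ht : 0 < t) (r : MvPolynomial (Fin 0) B) (hr : r ∈ hm 0 B t) : r = 0 := by
  unfold hm at hr
  rw [if_pos ht.le, mem_homogeneousSubmodule] at hr
  ext s
  rw [coeff_zero]
  apply hr.coeff_eq_zero
  rw [Subsingleton.elim s 0, map_zero]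
  omega

theorem a17_xs (N : ℕ) (σ : MvPolynomial (Fin (N + 1)) B ≃ₐ[K] Polynomial (MvPolynomial (Fin N) B))
    (h1 : ∀ l : Fin N, σ (X l.castSucc) = Polynomial.C (X l)) (h2 : σ (X (Fin.last N)) = Polynomial.X) :
    ∀ l < N + 1, σ.symm (xp N (xs N B) l) = xs (N + 1) B l := by
  intro l hl
  unfold xp
  by_cases h : l = N
  · subst h
    rw [if_pos rfl, ← h2, AlgEquiv.symm_apply_apply]
    unfold xs
    rw [dif_pos hl]
    rfl
  · have hlN : l < N := by omega
    rw [if_neg h]
    unfold xs
    rw [dif_pos hlN, dif_pos hl, ← h1 ⟨l, hlN⟩, AlgEquiv.symm_apply_apply]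
    rfl

theorem a17_gr (N : ℕ) : Gr K (xs N B) (fun t => (hm N B t).toAddSubgroup) := by
  constructor
  · intro l t r hr
    have hr' : r ∈ hm N B t := hr
    show xs N B l * r ∈ hm N B (t + 1)
    unfold xs
    by_cases hl : l < N
    · rw [dif_pos hl]
      exact a17_X_mul ⟨l, hl⟩ hr'
    · rw [dif_neg hl, zero_mul]
      exact Submodule.zero_mem _
  · intro k t r hr
    have hr' : r ∈ hm N B t := hr
    show k • r ∈ hm N B t
    rw [← algebraMap_smul B k r]
    exact Submodule.smul_mem _ _ hr'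


/-- Graded exactness over B[x_0..x_{N-1}]: induction on N: a16_base, a15_exact, a16_exact along the inverse of σ. -/
theorem a17_exact (z : ℤ → K) (hz : Function.Injective z) (N : ℕ) : Ex1 z N (xs N B) (fun t => (hm N B t).toAddSubgroup) := by
  induction N with
  | zero => exact a16_base z _ _
  | succ N ih =>
    obtain ⟨σ, h1, h2, h3⟩ := a17_iso (K := K) (B := B) N
    refine a16_exact z (N + 1) (xp N (xs N B)) (xs (N + 1) B) σ.symm (a17_xs N σ h1 h2)
      (hp fun t => (hm N B t).toAddSubgroup) (fun t => (hm (N + 1) B t).toAddSubgroup) ?_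
      (a15_exact z hz N (xs N B) _ (a17_gr N) ih)
    intro t r
    have h4 := a17_hom N σ h1 h2 h3 t (σ.symm r)
    rw [AlgEquiv.apply_symm_apply] at h4
    exact h4.symm


/-- Ungraded exactness: the same with the trivial grading h t = everything (Gr is trivial, hp ⊤ = ⊤). -/
theorem a17_exact' (z : ℤ → K) (hz : Function.Injective z) (N : ℕ) : Ex1 z N (xs N B) (fun _ => ⊤) := by
  induction N with
  | zero => exact a16_base z _ _
  | succ N ih =>
    obtain ⟨σ, h1, h2, h3⟩ := a17_iso (K := K) (B := B) N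
    have hgr : Gr K (xs N B) (fun _ => (⊤ : AddSubgroup (MvPolynomial (Fin N) B))) :=
      ⟨fun _ _ _ _ => trivial, fun _ _ _ _ => trivial⟩
    refine a16_exact z (N + 1) (xp N (xs N B)) (xs (N + 1) B) σ.symm (a17_xs N σ h1 h2)
      (hp fun _ => ⊤) (fun _ => ⊤) ?_ (a15_exact z hz N (xs N B) _ hgr ih)
    intro t r
    exact ⟨fun _ => trivial, fun _ _ => trivial⟩


/-- Regularity: base N = 0: hm 0 B t = 0 for t > 0 (homogeneous polynomials of positive degree in no variables). -/
theorem a17_reg (z : ℤ → K) (hz : Function.Injective z) (N : ℕ) : Rg1 z N (xs N B) (fun t => (hm N B t).toAddSubgroup) := by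
  induction N with
  | zero => exact a16_reg z _ _ (fun t ht r hr => a17_zero ht r hr)
  | succ N ih =>
    obtain ⟨σ, h1, h2, h3⟩ := a17_iso (K := K) (B := B) N
    refine a16_rg z (N + 1) (xp N (xs N B)) (xs (N + 1) B) σ.symm (a17_xs N σ h1 h2)
      (hp fun t => (hm N B t).toAddSubgroup) (fun t => (hm (N + 1) B t).toAddSubgroup) ?_
      (a15_reg z hz N (xs N B) _ (a17_gr N) ih)
    intro t r
    have h4 := a17_hom N σ h1 h2 h3 t (σ.symm r)
    rw [AlgEquiv.apply_symm_apply] at h4
    exact h4.symm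


end H92C
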