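import Pool.Agent.Lib.H92C.A16

/-!
# H92C, chunk A17a: polynomial rings
-/

open MvPolynomial

namespace H92C

variable {K : Type} [Field K] {B : Type} [CommRing B] [Algebra K B]

theorem a17a_nat {N : ℕ} {j : ℕ} {p : MvPolynomial (Fin N) B} :
    p ∈ hm N B (j : ℤ) ↔ p.IsHomogeneous j := by
  unfold hm
  rw [if_pos (Int.natCast_nonneg j), Int.toNat_natCast]
  exact mem_homogeneousSubmodule _ _

theorem a17a_neg {N : ℕ} {j : ℤ} (hj : j < 0) {p : MvPolynomial (Fin N) B} :
    p ∈ hm N B j ↔ p = 0 := by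
  unfold hm
  rw [if_neg (not_le.2 hj)]
  exact Submodule.mem_bot B

theorem a17a_deg {N : ℕ} (s : Fin N →₀ ℕ) : ((s.degree : ℕ) : ℤ) = ∑ i, (s i : ℤ) := by
  rw [Finsupp.degree_eq_sum]
  push_cast
  rfl

/-- By the coefficients. -/
theorem a17a_coeff {N : ℕ} {j : ℤ} {p : MvPolynomial (Fin N) B} :
    p ∈ hm N B j ↔ ∀ s : Fin N →₀ ℕ, coeff s p ≠ 0 → ∑ i, (s i : ℤ) = j := by
  rcases lt_or_ge j 0 with hj | hj
  · rw [a17a_neg hj]
    constructor
    · rintro rfl s hs
      exact absurd (coeff_zero s) hs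
    · intro h
      ext s
      rw [coeff_zero]
      by_contra hcon
      have h1 := h s hcon
      have h2 : 0 ≤ ∑ i, (s i : ℤ) := Finset.sum_nonneg fun i _ => Int.natCast_nonneg _
      omega
  · obtain ⟨a, rfl⟩ := Int.eq_ofNat_of_zero_le hj
    rw [a17a_nat]
    constructor
    · intro h s hs
      rw [← a17a_deg]
      have h1 := h hs
      have h2 : s.degree = a := by
        rw [Finsupp.degree_eq_weight_one]
        exact h1
      exact_mod_cast h2
    · intro h s hs
      have h1 := h s hs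
      rw [← a17a_deg] at h1
      have h2 : s.degree = a := by exact_mod_cast h1
      rw [Finsupp.degree_eq_weight_one] at h2
      exact h2

/-- the exponent with the last entry `k` -/
noncomputable def a17a_S {N : ℕ} (m : Fin N →₀ ℕ) (k : ℕ) : Fin (N + 1) →₀ ℕ :=
  Finsupp.equivFunOnFinite.symm (Fin.snoc (α := fun _ => ℕ) m k)

/-- the exponent without the last entry -/
noncomputable def a17a_r {N : ℕ} (s : Fin (N + 1) →₀ ℕ) : Fin N →₀ ℕ :=
  Finsupp.equivFunOnFinite.symm (fun l => s l.castSucc)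

theorem a17a_S_castSucc {N : ℕ} (m : Fin N →₀ ℕ) (k : ℕ) (l : Fin N) :
    a17a_S m k l.castSucc = m l := by
  unfold a17a_S
  rw [Finsupp.equivFunOnFinite_symm_apply_apply, Fin.snoc_castSucc]

theorem a17a_S_last {N : ℕ} (m : Fin N →₀ ℕ) (k : ℕ) : a17a_S m k (Fin.last N) = k := by
  unfold a17a_S
  rw [Finsupp.equivFunOnFinite_symm_apply_apply, Fin.snoc_last]

theorem a17a_r_apply {N : ℕ} (s : Fin (N + 1) →₀ ℕ) (l : Fin N) : a17a_r s l = s l.castSucc := by
  unfold a17a_r
  rw [Finsupp.equivFunOnFinite_symm_apply_apply]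

theorem a17a_iff {N : ℕ} (s : Fin (N + 1) →₀ ℕ) (m : Fin N →₀ ℕ) (k : ℕ) :
    s = a17a_S m k ↔ k = s (Fin.last N) ∧ a17a_r s = m := by
  constructor
  · rintro rfl
    refine ⟨(a17a_S_last m k).symm, ?_⟩
    ext l
    rw [a17a_r_apply, a17a_S_castSucc]
  · rintro ⟨rfl, rfl⟩
    ext i
    refine Fin.lastCases ?_ (fun l => ?_) i
    · rw [a17a_S_last]
    · rw [a17a_S_castSucc, a17a_r_apply]

theorem a17a_sum {N : ℕ} (m : Fin N →₀ ℕ) (k : ℕ) :
    ∑ i, (a17a_S m k i : ℤ) = ∑ i, (m i : ℤ) + k := by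
  rw [Fin.sum_univ_castSucc, a17a_S_last]
  congr 1
  exact Finset.sum_congr rfl fun l _ => by rw [a17a_S_castSucc]

theorem a17a_mon (N : ℕ) (σ : MvPolynomial (Fin (N + 1)) B ≃ₐ[K] Polynomial (MvPolynomial (Fin N) B))
    (h1 : ∀ l : Fin N, σ (X l.castSucc) = Polynomial.C (X l)) (h2 : σ (X (Fin.last N)) = Polynomial.X)
    (h3 : ∀ b : B, σ (C b) = Polynomial.C (C b)) (s : Fin (N + 1) →₀ ℕ) (c : B) :
    σ (monomial s c) = Polynomial.C (monomial (a17a_r s) c) * Polynomial.X ^ (s (Fin.last N)) := by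
  rw [monomial_eq, monomial_eq, Finsupp.prod_fintype _ _ (fun i => pow_zero _),
    Finsupp.prod_fintype _ _ (fun i => pow_zero _), map_mul, map_prod, h3,
    Fin.prod_univ_castSucc, map_pow, h2, map_mul, map_prod, ← mul_assoc]
  congr 2
  refine Finset.prod_congr rfl fun l _ => ?_
  rw [map_pow, h1, map_pow, a17a_r_apply]

theorem a17a_cf (N : ℕ) (σ : MvPolynomial (Fin (N + 1)) B ≃ₐ[K] Polynomial (MvPolynomial (Fin N) B))
    (h1 : ∀ l : Fin N, σ (X l.castSucc) = Polynomial.C (X l)) (h2 : σ (X (Fin.last N)) = Polynomial.X)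
    (h3 : ∀ b : B, σ (C b) = Polynomial.C (C b)) (p : MvPolynomial (Fin (N + 1)) B)
    (m : Fin N →₀ ℕ) (k : ℕ) : coeff m ((σ p).coeff k) = coeff (a17a_S m k) p := by
  induction p using MvPolynomial.induction_on' with
  | monomial s c =>
    rw [a17a_mon N σ h1 h2 h3, Polynomial.coeff_C_mul_X_pow, coeff_monomial]
    by_cases hk : k = s (Fin.last N)
    · rw [if_pos hk, coeff_monomial]
      by_cases hm : a17a_r s = m
      · rw [if_pos hm, if_pos ((a17a_iff s m k).2 ⟨hk, hm⟩)]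
      · rw [if_neg hm, if_neg (fun h => hm ((a17a_iff s m k).1 h).2)]
    · rw [if_neg hk, coeff_zero, if_neg (fun h => hk ((a17a_iff s m k).1 h).1)]
  | add p q hp hq =>
    rw [map_add, Polynomial.coeff_add, coeff_add, coeff_add, hp, hq]

/-- The isomorphism B[x_0..x_N] = B[x_0..x_{N-1}][X], x_l ↦ C x_l (l < N), x_N ↦ X: compose the renaming along finRotate (castSucc l ↦ succ l, last ↦ 0) with finSuccEquiv, restrict scalars to K. -/
theorem a17_iso (N : ℕ) : ∃ σ : MvPolynomial (Fin (N + 1)) B ≃ₐ[K] Polynomial (MvPolynomial (Fin N) B),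
    (∀ l : Fin N, σ (X l.castSucc) = Polynomial.C (X l)) ∧ σ (X (Fin.last N)) = Polynomial.X ∧
    (∀ b : B, σ (C b) = Polynomial.C (C b)) := by
  refine ⟨((renameEquiv B (finRotate (N + 1))).trans (finSuccEquiv B N)).restrictScalars K, ?_, ?_, ?_⟩
  · intro l
    have e : finRotate (N + 1) l.castSucc = l.succ := by
      have := finRotate_of_lt (n := N) (k := (l : ℕ)) l.isLt
      exact this
    show finSuccEquiv B N (rename (finRotate (N + 1)) (X l.castSucc)) = _
    rw [rename_X, e, finSuccEquiv_X_succ]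
  · show finSuccEquiv B N (rename (finRotate (N + 1)) (X (Fin.last N))) = _
    rw [rename_X, finRotate_last, finSuccEquiv_X_zero]
  · intro b
    show finSuccEquiv B N (rename (finRotate (N + 1)) (C b)) = _
    rw [rename_C]
    have := (finSuccEquiv B N).commutes b
    exact this

/-- Homogeneous polynomials correspond to homogeneous coefficients (for any isomorphism as above; both sides: compare the monomials; or write σ p = Σ_k C(coefficient) X^k). -/
theorem a17_hom (N : ℕ) (σ : MvPolynomial (Fin (N + 1)) B ≃ₐ[K] Polynomial (MvPolynomial (Fin N) B))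
    (h1 : ∀ l : Fin N, σ (X l.castSucc) = Polynomial.C (X l)) (h2 : σ (X (Fin.last N)) = Polynomial.X)
    (h3 : ∀ b : B, σ (C b) = Polynomial.C (C b)) (t : ℤ) (p : MvPolynomial (Fin (N + 1)) B) :
    p ∈ (hm (N + 1) B t).toAddSubgroup ↔ σ p ∈ hp (fun t => (hm N B t).toAddSubgroup) t := by
  have e1 : p ∈ (hm (N + 1) B t).toAddSubgroup ↔ p ∈ hm (N + 1) B t := Iff.rfl
  have e2 : σ p ∈ hp (fun t => (hm N B t).toAddSubgroup) t ↔
      ∀ k : ℕ, (σ p).coeff k ∈ hm N B (t - k) := Iff.rfl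
  rw [e1, e2, a17a_coeff]
  constructor
  · intro h k
    rw [a17a_coeff]
    intro m hm'
    rw [a17a_cf N σ h1 h2 h3] at hm'
    have := h _ hm'
    rw [a17a_sum] at this
    omega
  · intro h s hs
    have e3 : s = a17a_S (a17a_r s) (s (Fin.last N)) := (a17a_iff _ _ _).2 ⟨rfl, rfl⟩
    rw [e3, ← a17a_cf N σ h1 h2 h3] at hs
    have := a17a_coeff.1 (h _) _ hs
    rw [e3, a17a_sum]
    omega

end H92C
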