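import Pool.Agent.Lib.H92C.A00

/-!
# H92C, module A: auxiliary definitions (supports, gradings, polynomials over R, decomposition)
-/

open MvPolynomial

namespace H92C

section supports

variable {K R : Type} [Field K] [CommRing R] [Algebra K R] {n : ℕ}

/-- The vectors supported on the rows with F_j ≥ a. -/
def Su (R : Type) [CommRing R] {n : ℕ} (j : Fin n) (a : ℤ) : Submodule R (W R (n + 1)) where
  carrier := {v | ∀ F : Fin n → ℤ, F j < a → sl F v = 0}
  zero_mem' := fun _ _ => rfl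
  add_mem' := fun {v w} hv hw F hF => by rw [map_add, hv F hF, hw F hF, add_zero]
  smul_mem' := fun r v hv F hF => by rw [map_smul, hv F hF, smul_zero]

/-- The operator from the slice F - ε_b to the slice F in the formula of X(s). -/
def Dq (z : ℤ → K) (x : ℕ → R) (F : Fin n → ℤ) (b : Fin n) : W R n →ₗ[R] W R n :=
  tr n F ∘ₗ XX z x n (z (F b - 1))

end supports

section gradings

variable {K R : Type} [Field K] [CommRing R] [Algebra K R]

/-- A grading of R by additive subgroups: the x l have degree 1, the elements of K have degree 0. -/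
structure Gr (K : Type) [Field K] {R : Type} [CommRing R] [Algebra K R] (x : ℕ → R) (h : ℤ → AddSubgroup R) : Prop where
  mulx : ∀ (l : ℕ) (t : ℤ) (r : R), r ∈ h t → x l * r ∈ h (t + 1)
  smul : ∀ (k : K) (t : ℤ) (r : R), r ∈ h t → k • r ∈ h t

/-- Vectors with entries in a subgroup. -/
def Hh {n : ℕ} (h : AddSubgroup R) (v : W R n) : Prop := ∀ c, v c ∈ h

/-- The induced grading of R[X], X of degree 1. -/
def hp (h : ℤ → AddSubgroup R) (t : ℤ) : AddSubgroup (Polynomial R) where
  carrier := {p | ∀ k : ℕ, p.coeff k ∈ h (t - k)}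
  zero_mem' := fun k => by simpa using (h (t - k)).zero_mem
  add_mem' := fun {a b} ha hb k => by rw [Polynomial.coeff_add]; exact (h (t - k)).add_mem (ha k) (hb k)
  neg_mem' := fun {a} ha k => by rw [Polynomial.coeff_neg]; exact (h (t - k)).neg_mem (ha k)

/-- The variables of R[X]: x l for l ≠ N and X for l = N. -/
noncomputable def xp (N : ℕ) (x : ℕ → R) : ℕ → Polynomial R := fun l => if l = N then Polynomial.X else Polynomial.C (x l)

/-- The coefficient k of a vector over R[X]. -/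
noncomputable def cf {n : ℕ} (k : ℕ) : W (Polynomial R) n →ₗ[R] W R n where
  toFun v := fun c => (v c).coeff k
  map_add' a b := by funext c; simp
  map_smul' r a := by funext c; simp

/-- A vector over R as a vector over R[X]. -/
noncomputable def Cv {n : ℕ} (v : W R n) : W (Polynomial R) n := fun c => Polynomial.C (v c)

/-- The diagonal operator p_F(s). -/
def Pd (z : ℤ → K) {n : ℕ} (s : K) : W R (n + 1) →ₗ[R] W R (n + 1) where
  toFun v := fun c => pp z c.1 s • v c
  map_add' a b := by funext c; simp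
  map_smul' r a := by funext c; simp

/-- The product of the diagonal operators p_F(z(a + k)), k < r. -/
def PQ (z : ℤ → K) {n : ℕ} (a : ℤ) : ℕ → W R (n + 1) →ₗ[R] W R (n + 1)
  | 0 => LinearMap.id
  | r + 1 => Pd z (z (a + r)) ∘ₗ PQ z a r

end gradings

section decomp

variable {K R : Type} [Field K] [CommRing R] [Algebra K R]

/-- The low rows in position p of F_D (D of length N + 2): p ≤ N and F_{p-1} < D_p (no condition for p = 0). -/
def Lo {N : ℕ} (D : Fin (N + 2) → ℤ) (p : Fin (N + 2)) (F : Fin N → ℤ) : Prop :=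
  (p : ℕ) ≤ N ∧ ∀ j : Fin N, (j : ℕ) + 1 = p → F j < D p

/-- The vectors supported on the high rows. -/
def Hi (R : Type) [CommRing R] {N : ℕ} (D : Fin (N + 2) → ℤ) (p : Fin (N + 2)) : Submodule R (W R (N + 1)) where
  carrier := {v | ∀ F : Fin N → ℤ, Lo D p F → sl F v = 0}
  zero_mem' := fun _ _ => rfl
  add_mem' := fun {v w} hv hw F hF => by rw [map_add, hv F hF, hw F hF, add_zero]
  smul_mem' := fun r v hv F hF => by rw [map_smul, hv F hF, smul_zero]

/-- The embedding iota_{G,i} of F_G in F_D (D of length N + 2, G interlaces D). -/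
def ig (z : ℤ → K) (x : ℕ → R) {N : ℕ} (D : Fin (N + 2) → ℤ) (G : Fin (N + 1) → ℤ) (i : Fin (N + 1)) : W R N →ₗ[R] W R (N + 1) :=
  tr (N + 1) (dl D i.castSucc) ∘ₗ QQ z x (N + 1) (D i.castSucc) (G i - D i.castSucc).toNat ∘ₗ sg (dl G i)

/-- The low part has X-degree < d. -/
def LD {N : ℕ} (D : Fin (N + 2) → ℤ) (i : Fin (N + 1)) (d : ℕ) (v : W (Polynomial R) (N + 1)) : Prop :=
  ∀ k, d ≤ k → ∀ F : Fin N → ℤ, Lo D i.castSucc F → sl F (cf k v) = 0

/-- Exactness of all F_D with N variables over R (graded). -/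
def Ex1 (z : ℤ → K) (N : ℕ) (x : ℕ → R) (h : ℤ → AddSubgroup R) : Prop :=
  ∀ D : Fin (N + 1) → ℤ, StrictMono D →
    (∀ i j : Fin N, (j : ℕ) = i + 1 → ∀ t : ℤ, ∀ v ∈ U R N (dl D i.succ), Hh (h (t - D i.succ)) v → bd z x D i v = 0 →
      ∃ w ∈ U R N (dl D j.succ), Hh (h (t - D j.succ)) w ∧ bd z x D j w = v) ∧
    (∀ i : Fin N, (i : ℕ) + 1 = N → ∀ t : ℤ, ∀ v ∈ U R N (dl D i.succ), Hh (h (t - D i.succ)) v → bd z x D i v = 0 → v = 0)

/-- Regularity of all F_D with N variables over R (graded). -/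
def Rg1 (z : ℤ → K) (N : ℕ) (x : ℕ → R) (h : ℤ → AddSubgroup R) : Prop :=
  ∀ D : Fin (N + 1) → ℤ, StrictMono D → ∀ t : ℤ, D (Fin.last N) - N < t → ∀ p : Fin (N + 1), (p : ℕ) = 0 →
    ∀ v ∈ U R N (dl D p), Hh (h (t - D p)) v →
      (N = 0 → v = 0) ∧
      (∀ i : Fin N, (i : ℕ) = 0 → ∃ w ∈ U R N (dl D i.succ), Hh (h (t - D i.succ)) w ∧ bd z x D i w = v)

end decomp

end H92C
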