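import Pool.Agent.Lib.H92C.Defs

/-!
# H92C, module B, base: slices, validity, supports, harmless truncations (PROOF.md, B.1)
-/

open MvPolynomial

namespace H92C

section basic

variable {R : Type} [CommRing R]

/-- The valid vectors of level n whose rows F satisfy E_j ≤ F_j. -/
def Lw (R : Type) [CommRing R] : (n : ℕ) → (Fin n → ℤ) → Submodule R (W R n)
  | 0, _ => ⊤
  | n + 1, E =>
    { carrier := {v | ∀ c, ¬ (gd n c.1 c.2 ∧ ∀ j : Fin n, E j.castSucc ≤ c.1 j) → v c = 0}
      zero_mem' := fun _ _ => rfl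
      add_mem' := fun {a b} ha hb c hc => by simp [ha c hc, hb c hc]
      smul_mem' := fun r a ha c hc => by simp [ha c hc] }

/-- The operator O moves the rows with s: if the slice of O v at F is not zero then the slice of v is not zero at some F' ≤ F
such that F'_j < F_j or s ≠ z(F'_j), for all j. (For level 0 no condition.) -/
def Mv {K : Type} (z : ℤ → K) (s : K) : (n : ℕ) → (W R n →ₗ[R] W R n) → Prop
  | 0, _ => True
  | n + 1, O => ∀ (v : W R (n + 1)) (F : Fin n → ℤ), sl F (O v) ≠ 0 →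
      ∃ F' : Fin n → ℤ, sl F' v ≠ 0 ∧ (∀ j, F' j ≤ F j) ∧ ∀ j, F' j < F j ∨ s ≠ z (F' j)

/-- Vectors with the same slices are equal. -/
theorem b00_ext {n : ℕ} {v w : W R (n + 1)} (h : ∀ F, sl F v = sl F w) : v = w := by
  funext c
  exact congrFun (h c.1) c.2

theorem b00_U_succ {n : ℕ} (E : Fin (n + 1) → ℤ) (v : W R (n + 1)) :
    v ∈ U R (n + 1) E ↔ ∀ F, (Il E F → sl F v ∈ U R n F) ∧ (¬ Il E F → sl F v = 0) := by
  constructor
  · intro hv F
    constructor
    · intro hF c hc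
      exact hv (F, c) (fun h => hc h.2)
    · intro hF
      funext c
      exact hv (F, c) (fun h => hF h.1)
  · intro h c hc
    by_cases hF : Il E c.1
    · exact (h c.1).1 hF c.2 (fun h' => hc ⟨hF, h'⟩)
    · exact congrFun ((h c.1).2 hF) c.2

theorem b00_Vv_succ {n : ℕ} (v : W R (n + 1)) :
    v ∈ Vv R (n + 1) ↔ ∀ F, sl F v ∈ U R n F :=
  ⟨fun hv F c hc => hv (F, c) hc, fun h c hc => h c.1 c.2 hc⟩

theorem b00_Lw_succ {n : ℕ} (E : Fin (n + 1) → ℤ) (v : W R (n + 1)) :
    v ∈ Lw R (n + 1) E ↔ v ∈ Vv R (n + 1) ∧ ∀ F, sl F v ≠ 0 → ∀ j : Fin n, E j.castSucc ≤ F j := by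
  constructor
  · intro hv
    refine ⟨fun c hc => hv c (fun h => hc h.1), fun F hF j => ?_⟩
    by_contra hj
    exact hF (funext fun c => hv (F, c) (fun h => hj (h.2 j)))
  · intro h c hc
    by_cases h1 : gd n c.1 c.2
    · by_contra h2
      refine hc ⟨h1, fun j => h.2 c.1 (fun h3 => h2 ?_) j⟩
      exact congrFun h3 c.2
    · exact h.1 c h1

theorem b00_U_zero (E : Fin 0 → ℤ) (v : W R 0) : v ∈ U R 0 E := fun _ hc => absurd trivial hc

theorem b00_Vv_zero (v : W R 0) : v ∈ Vv R 0 := trivial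

theorem b00_U_le_Vv (n : ℕ) (E : Fin n → ℤ) {v : W R n} (hv : v ∈ U R n E) : v ∈ Vv R n := by
  cases n with
  | zero => trivial
  | succ n => exact fun c hc => hv c (fun h => hc h.2)

theorem b00_sl_tr {n : ℕ} (E : Fin (n + 1) → ℤ) (F : Fin n → ℤ) (v : W R (n + 1)) :
    sl F (tr (n + 1) E v) = if Il E F then sl F v else 0 := by
  by_cases h : Il E F <;> funext c <;> simp [sl, tr, h]

/-- The truncation of a valid vector. -/
theorem b00_tr_mem (n : ℕ) (E : Fin n → ℤ) {v : W R n} (hv : v ∈ Vv R n) : tr n E v ∈ U R n E := by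
  cases n with
  | zero => exact b00_U_zero _ _
  | succ n =>
    intro c hc
    by_cases h : Il E c.1
    · have : v c = 0 := hv c (fun h' => hc ⟨h, h'⟩)
      simp [tr, h, this]
    · simp [tr, h]

theorem b00_tr_U (n : ℕ) (E : Fin n → ℤ) {v : W R n} (hv : v ∈ U R n E) : tr n E v = v := by
  cases n with
  | zero => rfl
  | succ n =>
    funext c
    by_cases h : Il E c.1
    · simp [tr, h]
    · have : v c = 0 := hv c (fun h' => h h'.1)
      simp [tr, h, this]

theorem b00_Il_strict {n : ℕ} {E : Fin (n + 1) → ℤ} {F : Fin n → ℤ} (h : Il E F) : StrictMono E := by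
  rw [Fin.strictMono_iff_lt_succ]
  intro j
  exact lt_of_le_of_lt (h j).1 (h j).2

theorem b00_Il_strict' {n : ℕ} {E : Fin (n + 1) → ℤ} {F : Fin n → ℤ} (h : Il E F) : StrictMono F := by
  cases n with
  | zero => intro a; exact a.elim0
  | succ n =>
    rw [Fin.strictMono_iff_lt_succ]
    intro j
    have h1 := (h j.castSucc).2
    have h2 := (h j.succ).1
    rw [Fin.succ_castSucc] at h1
    exact lt_of_lt_of_le h1 h2

/-- There is nothing under a row which is not increasing. -/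
theorem b00_U_not (n : ℕ) (E : Fin n → ℤ) (hE : ¬ StrictMono E) {v : W R n} (hv : v ∈ U R n E) : v = 0 := by
  cases n with
  | zero => exact absurd (fun a => a.elim0) hE
  | succ n =>
    funext c
    exact hv c (fun h => hE (b00_Il_strict h.1))

theorem b00_U_Lw (n : ℕ) (E E' : Fin n → ℤ) (hE : ∀ j, E' j ≤ E j) {v : W R n} (hv : v ∈ U R n E) : v ∈ Lw R n E' := by
  cases n with
  | zero => trivial
  | succ n =>
    intro c hc
    refine hv c (fun h => hc ⟨h.2, fun j => (hE _).trans (h.1 j).1⟩)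

theorem b00_Lw_Vv (n : ℕ) (E : Fin n → ℤ) {v : W R n} (hv : v ∈ Lw R n E) : v ∈ Vv R n := by
  cases n with
  | zero => trivial
  | succ n => exact fun c hc => hv c (fun h => hc h.1)

/-- Two truncations. -/
theorem b00_tr_tr (n : ℕ) (E' E : Fin n → ℤ) (hE : ∀ j, E' j ≤ E j) {v : W R n} (hv : v ∈ Lw R n E) :
    tr n E' (tr n E v) = tr n E' v := by
  cases n with
  | zero => rfl
  | succ n =>
    funext c
    by_cases h : Il E' c.1
    · by_cases h2 : Il E c.1
      · simp [tr, h, h2]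
      · have : v c = 0 := hv c (fun h' => h2 (fun j => ⟨h'.2 j, lt_of_lt_of_le (h j).2 (hE _)⟩))
        simp [tr, h, h2, this]
    · simp [tr, h]

variable {K : Type}

/-- Lower bounds are kept. -/
theorem b00_mv_Lw (z : ℤ → K) (s : K) (n : ℕ) (O : W R n →ₗ[R] W R n) (hO : Mv z s n O) (hV : ∀ v ∈ Vv R n, O v ∈ Vv R n)
    (E E' : Fin n → ℤ) (hE : ∀ j, E' j ≤ E j ∨ (E' j ≤ E j + 1 ∧ s = z (E j))) {v : W R n} (hv : v ∈ Lw R n E) :
    O v ∈ Lw R n E' := by
  cases n with
  | zero => trivial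
  | succ n =>
    rw [b00_Lw_succ] at hv ⊢
    refine ⟨hV v hv.1, fun F hF j => ?_⟩
    obtain ⟨F', h1, h2, h3⟩ := hO v F hF
    have h4 := hv.2 F' h1 j
    have h5 := h2 j
    rcases hE j.castSucc with h | ⟨h, hs⟩
    · omega
    · rcases h3 j with h6 | h6
      · omega
      · by_contra h7
        apply h6
        have : F' j = E j.castSucc := by omega
        rw [this, hs]

/-- Harmless truncations. -/
theorem b00_harm (z : ℤ → K) (s : K) (n : ℕ) (O : W R n →ₗ[R] W R n) (hO : Mv z s n O)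
    (E' E : Fin n → ℤ) (hE : ∀ j, E' j ≤ E j ∨ (E' j ≤ E j + 1 ∧ s = z (E j))) {v : W R n} (hv : v ∈ Lw R n E) :
    tr n E' (O (tr n E v)) = tr n E' (O v) := by
  cases n with
  | zero => rfl
  | succ n =>
    rw [← sub_eq_zero, ← map_sub, ← map_sub]
    apply b00_ext
    intro F
    rw [b00_sl_tr]
    by_cases hF : Il E' F
    · rw [if_pos hF]
      by_contra h0
      obtain ⟨F', h1, h2, h3⟩ := hO _ F h0
      rw [map_sub, b00_sl_tr] at h1
      by_cases h4 : Il E F'
      · rw [if_pos h4, sub_self] at h1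
        exact h1 rfl
      · rw [if_neg h4, zero_sub, ne_eq, neg_eq_zero] at h1
        have h5 := (b00_Lw_succ E v).1 hv |>.2 F' h1
        apply h4
        intro j
        refine ⟨h5 j, ?_⟩
        have h6 := (hF j).2
        have h7 := h2 j
        rcases hE j.succ with h | ⟨h, hs⟩
        · omega
        · rcases h3 j with h8 | h8
          · omega
          · by_contra h9
            apply h8
            have : F' j = E j.succ := by omega
            rw [this, hs]
    · rw [if_neg hF, map_zero]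

end basic

section ops

variable {K R : Type} [Field K] [CommRing R] [Algebra K R]

theorem b00_sl_XX (z : ℤ → K) (x : ℕ → R) {n : ℕ} (s : K) (F : Fin n → ℤ) (v : W R (n + 1)) :
    sl F (XX z x (n + 1) s v) = x n • (pp z F s • sl F v) +
      ∑ b, LL z b s (F - ep b) • de z x (F - ep b) b (sl (F - ep b) v) := by
  funext c
  have h1 : ∀ b : Fin n, (F - ep b) b = F b - 1 := fun b => by simp [ep]
  have h2 : ∀ b : Fin n, F - ep b + ep b = F := fun b => sub_add_cancel _ _
  simp only [de, LinearMap.comp_apply, h1, h2]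
  simp [sl, XX]

theorem b00_sl_PR (q : K) {n : ℕ} (μ : ℕ) (hμ : μ ≠ n + 1) (s : K) (F : Fin n → ℤ) (v : W R (n + 1)) :
    sl F (PR q μ (n + 1) s v) = ∑ b, LL (zq q) b s (F - ep b) • ro q μ (F - ep b) b (sl (F - ep b) v) := by
  funext c
  have h1 : ∀ b : Fin n, (F - ep b) b = F b - 1 := fun b => by simp [ep]
  have h2 : ∀ b : Fin n, F - ep b + ep b = F := fun b => sub_add_cancel _ _
  simp only [ro, LinearMap.comp_apply, h1, h2]
  simp [sl, PR, hμ]

theorem b00_sl_PR_top (q : K) {n : ℕ} (s : K) (F : Fin n → ℤ) (v : W R (n + 1)) :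
    sl F (PR q (n + 1) (n + 1) s v) = (s⁻¹ * (zq q (∑ j, F j))⁻¹ * pp (zq q) F s) • sl F v := by
  funext c
  simp [sl, PR]

theorem b00_sl_ee (q : K) {n : ℕ} (μ : ℕ) (hμ : μ ≠ n) (E : Fin (n + 1) → ℤ) (F : Fin n → ℤ) (v : W R (n + 1)) :
    sl F (ee q μ (n + 1) E v) = ee q μ n F (sl F v) := by
  funext c
  simp [sl, ee, hμ]

theorem b00_sl_ee_top (q : K) {n : ℕ} (E : Fin (n + 1) → ℤ) (F : Fin n → ℤ) (v : W R (n + 1)) :
    sl F (ee q n (n + 1) E v) = ∑ b, kap q E (F + ep b) b • tr n F (sl (F + ep b) v) := by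
  funext c
  simp [sl, ee]

/-- The truncations occurring in the slices of a vector. -/
theorem b00_smul_U (n : ℕ) (E : Fin n → ℤ) (a : K) {v : W R n} (hv : v ∈ U R n E) : a • v ∈ U R n E := by
  intro c hc
  simp [hv c hc]

theorem b00_smul_Vv (n : ℕ) (a : K) {v : W R n} (hv : v ∈ Vv R n) : a • v ∈ Vv R n := by
  cases n with
  | zero => trivial
  | succ n =>
    intro c hc
    simp [hv c hc]

/-- X(s) preserves the valid vectors. -/
theorem b00_XX_Vv (z : ℤ → K) (x : ℕ → R) (n : ℕ) : ∀ (s : K) (v : W R n), v ∈ Vv R n → XX z x n s v ∈ Vv R n := by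
  induction n with
  | zero => intro s v _; trivial
  | succ n ih =>
    intro s v hv
    rw [b00_Vv_succ] at hv ⊢
    intro F
    rw [b00_sl_XX]
    refine Submodule.add_mem _ (Submodule.smul_mem _ _ (b00_smul_U _ _ _ (hv F))) (Submodule.sum_mem _ fun b _ => ?_)
    refine b00_smul_U _ _ _ ?_
    have h2 : F - ep b + ep b = F := sub_add_cancel _ _
    simp only [de, LinearMap.comp_apply, h2]
    exact b00_tr_mem _ _ (ih _ _ (b00_U_le_Vv _ _ (hv _)))

/-- The tensor operators preserve the valid vectors. -/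
theorem b00_PR_Vv (q : K) (μ : ℕ) (n : ℕ) : ∀ (s : K) (v : W R n), v ∈ Vv R n → PR q μ n s v ∈ Vv R n := by
  induction n with
  | zero => intro s v _; trivial
  | succ n ih =>
    intro s v hv
    rw [b00_Vv_succ] at hv ⊢
    intro F
    by_cases hμ : μ = n + 1
    · subst hμ
      rw [b00_sl_PR_top]
      exact b00_smul_U _ _ _ (hv F)
    · rw [b00_sl_PR q μ hμ]
      refine Submodule.sum_mem _ fun b _ => ?_
      refine b00_smul_U _ _ _ ?_
      have h2 : F - ep b + ep b = F := sub_add_cancel _ _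
      simp only [ro, LinearMap.comp_apply, h2]
      exact b00_tr_mem _ _ (ih _ _ (b00_U_le_Vv _ _ (hv _)))

/-- δ_a maps U E to U (E + ε_a). -/
theorem b00_de_mem (z : ℤ → K) (x : ℕ → R) {n : ℕ} (E : Fin n → ℤ) (a : Fin n) {v : W R n} (hv : v ∈ U R n E) :
    de z x E a v ∈ U R n (E + ep a) :=
  b00_tr_mem _ _ (b00_XX_Vv z x n _ _ (b00_U_le_Vv _ _ hv))

/-- ρ_k maps U E to U (E + ε_k). -/
theorem b00_ro_mem (q : K) (μ : ℕ) {n : ℕ} (E : Fin n → ℤ) (k : Fin n) {v : W R n} (hv : v ∈ U R n E) :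
    ro q μ E k v ∈ U R n (E + ep k) :=
  b00_tr_mem _ _ (b00_PR_Vv q μ n _ _ (b00_U_le_Vv _ _ hv))

theorem b00_LL_ne (z : ℤ → K) {n : ℕ} (s : K) (F : Fin n → ℤ) (b : Fin n) (h : LL z b s (F - ep b) ≠ 0) (j : Fin n) (hj : j ≠ b) :
    s ≠ z (F j) := by
  intro h2
  apply h
  rw [LL]
  refine Finset.prod_eq_zero (Finset.mem_erase.2 ⟨hj, Finset.mem_univ j⟩) ?_
  have : (F - ep b) j = F j := by simp [ep, hj]
  rw [this, h2, sub_self, zero_div]

theorem b00_pp_ne (z : ℤ → K) {n : ℕ} (s : K) (F : Fin n → ℤ) (h : pp z F s ≠ 0) (j : Fin n) : s ≠ z (F j) := by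
  intro h2
  apply h
  rw [pp]
  refine Finset.prod_eq_zero (Finset.mem_univ j) ?_
  rw [h2, sub_self]

/-- The rows used by one step. -/
theorem b00_step {n : ℕ} (z : ℤ → K) (s : K) (v : W R (n + 1)) (F : Fin n → ℤ) (T : Fin n → W R n →ₗ[R] W R n)
    (h : ∑ b, LL z b s (F - ep b) • T b (sl (F - ep b) v) ≠ 0) :
    ∃ F' : Fin n → ℤ, sl F' v ≠ 0 ∧ (∀ j, F' j ≤ F j) ∧ ∀ j, F' j < F j ∨ s ≠ z (F' j) := by
  obtain ⟨b, _, hb⟩ := Finset.exists_ne_zero_of_sum_ne_zero h
  refine ⟨F - ep b, ?_, fun j => ?_, fun j => ?_⟩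
  · intro h0
    rw [h0, map_zero, smul_zero] at hb
    exact hb rfl
  · by_cases hj : j = b
    · subst hj; simp [ep]
    · simp [ep, hj]
  · by_cases hj : j = b
    · subst hj; left; simp [ep]
    · right
      have : (F - ep b) j = F j := by simp [ep, hj]
      rw [this]
      refine b00_LL_ne z s F b (fun h0 => ?_) j hj
      rw [h0, zero_smul] at hb
      exact hb rfl

/-- X(s) moves the rows with s. -/
theorem b00_XX_mv (z : ℤ → K) (x : ℕ → R) (n : ℕ) (s : K) : Mv z s n (XX z x n s) := by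
  cases n with
  | zero => trivial
  | succ n =>
    intro v F hF
    rw [b00_sl_XX] at hF
    by_cases h : x n • (pp z F s • sl F v) = 0
    · rw [h, zero_add] at hF
      exact b00_step z s v F _ hF
    · refine ⟨F, fun h0 => ?_, fun j => le_rfl, fun j => Or.inr (b00_pp_ne z s F (fun h0 => ?_) j)⟩
      · rw [h0, smul_zero, smul_zero] at h; exact h rfl
      · rw [h0, zero_smul, smul_zero] at h; exact h rfl

/-- The tensor operators move the rows with s. -/
theorem b00_PR_mv (q : K) (μ : ℕ) (n : ℕ) (s : K) : Mv (zq q) s n (PR (R := R) q μ n s) := by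
  cases n with
  | zero => trivial
  | succ n =>
    intro v F hF
    by_cases hμ : μ = n + 1
    · subst hμ
      rw [b00_sl_PR_top] at hF
      refine ⟨F, fun h0 => ?_, fun j => le_rfl, fun j => Or.inr (b00_pp_ne (zq q) s F (fun h0 => ?_) j)⟩
      · rw [h0, smul_zero] at hF; exact hF rfl
      · rw [h0, mul_zero, zero_smul] at hF; exact hF rfl
    · rw [b00_sl_PR q μ hμ] at hF
      exact b00_step (zq q) s v F _ hF

end ops

end H92C
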