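import Pool.Agent.Lib.H92C.B00
import Pool.Agent.Lib.H92C.A06

/-!
# H92C, module B, part 1: the operators δ_a and truncations (PROOF.md, B.2)
-/

open MvPolynomial

namespace H92C

variable {K R : Type} [Field K] [CommRing R] [Algebra K R]

/-- Commutation of the operators X(s) on valid vectors (module A, A.3). -/
theorem b01_comm (z : ℤ → K) (hz : Function.Injective z) (x : ℕ → R) (n : ℕ) (s s' : K) (v : W R n) (hv : v ∈ Vv R n) :
    XX z x n s (XX z x n s' v) = XX z x n s' (XX z x n s v) :=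
  a06 z hz x n s s' v hv

theorem b01_ep_same {n : ℕ} (a : Fin n) : ep a a = 1 := by simp [ep]

theorem b01_ep_ne {n : ℕ} {a b : Fin n} (h : b ≠ a) : ep a b = 0 := by simp [ep, h]

theorem b01_ep_nonneg {n : ℕ} (a b : Fin n) : 0 ≤ ep a b := by
  by_cases h : b = a
  · rw [h, b01_ep_same]; norm_num
  · rw [b01_ep_ne h]

theorem b01_ep_le {n : ℕ} (a b : Fin n) : ep a b ≤ 1 := by
  by_cases h : b = a
  · rw [h, b01_ep_same]
  · rw [b01_ep_ne h]; norm_num

/-- Two steps up, the inner truncation is harmless. -/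
theorem b01_harm2 (z : ℤ → K) (n : ℕ) (E : Fin n → ℤ) (b a : Fin n) (s s' : K) (O O' : W R n →ₗ[R] W R n)
    (hO : Mv z s n O) (hO' : Mv z s' n O') (hV' : ∀ v ∈ Vv R n, O' v ∈ Vv R n)
    (hs : s = z ((E + ep b) a)) (hs' : s' = z (E b)) {v : W R n} (hv : v ∈ Lw R n E) :
    tr n (E + ep b + ep a) (O (tr n (E + ep b) (O' v))) = tr n (E + ep b + ep a) (O (O' v)) := by
  refine b00_harm z s n O hO _ _ (fun j => ?_) (b00_mv_Lw z s' n O' hO' hV' E _ (fun j => ?_) hv)
  · by_cases hj : j = a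
    · subst hj
      right
      simp only [Pi.add_apply, b01_ep_same]
      exact ⟨le_rfl, hs⟩
    · left
      simp only [Pi.add_apply, b01_ep_ne hj, add_zero, le_refl]
  · by_cases hj : j = b
    · subst hj
      right
      simp only [Pi.add_apply, b01_ep_same]
      exact ⟨le_rfl, hs'⟩
    · left
      simp only [Pi.add_apply, b01_ep_ne hj, add_zero, le_refl]

/-- δ_a δ_b with one truncation. -/
theorem b01_de2 (z : ℤ → K) (x : ℕ → R) {n : ℕ} (E : Fin n → ℤ) (a b : Fin n) {v : W R n} (hv : v ∈ U R n E) :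
    de z x (E + ep b) a (de z x E b v) =
      tr n (E + ep b + ep a) (XX z x n (z ((E + ep b) a)) (XX z x n (z (E b)) v)) :=
  b01_harm2 z n E b a _ _ _ _ (b00_XX_mv z x n _) (b00_XX_mv z x n _) (b00_XX_Vv z x n _) rfl rfl
    (b00_U_Lw n E E (fun _ => le_rfl) hv)

/-- The operators δ commute. -/
theorem b01_de_de (z : ℤ → K) (hz : Function.Injective z) (x : ℕ → R) {n : ℕ} (E : Fin n → ℤ) (a b : Fin n) {v : W R n}
    (hv : v ∈ U R n E) :
    de z x (E + ep b) a (de z x E b v) = de z x (E + ep a) b (de z x E a v) := by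
  by_cases hab : a = b
  · rw [hab]
  · rw [b01_de2 z x E a b hv, b01_de2 z x E b a hv, add_right_comm E (ep b) (ep a)]
    simp only [Pi.add_apply, b01_ep_ne hab, b01_ep_ne (Ne.symm hab), add_zero]
    rw [b01_comm z hz x n _ _ v (b00_U_le_Vv n E hv)]

/-- δ_b and a truncation at another position. -/
theorem b01_tr_de (z : ℤ → K) (x : ℕ → R) {n : ℕ} (E : Fin n → ℤ) (a b : Fin n) (hab : a ≠ b) {v : W R n}
    (hv : v ∈ U R n E) :
    tr n (E - ep a + ep b) (de z x E b v) = de z x (E - ep a) b (tr n (E - ep a) v) := by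
  have hE : ∀ j, (E - ep a) j ≤ E j := fun j => by
    have := b01_ep_nonneg a j
    simp only [Pi.sub_apply]; omega
  rw [de, de, LinearMap.comp_apply, LinearMap.comp_apply]
  rw [b00_harm z _ n _ (b00_XX_mv z x n _) (E - ep a + ep b) (E - ep a) (fun j => ?_) (b00_U_Lw n E _ hE hv)]
  · rw [b00_tr_tr n (E - ep a + ep b) (E + ep b) (fun j => ?_) (b00_mv_Lw z _ n _ (b00_XX_mv z x n _) (b00_XX_Vv z x n _) E _
      (fun j => ?_) (b00_U_Lw n E E (fun _ => le_rfl) hv))]
    · simp only [Pi.sub_apply, b01_ep_ne (Ne.symm hab), sub_zero]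
    · have := b01_ep_nonneg a j
      simp only [Pi.sub_apply, Pi.add_apply]; omega
    · by_cases hj : j = b
      · subst hj; right; simp [ep]
      · left; simp [ep, hj]
  · by_cases hj : j = b
    · subst hj; right; simp [ep]
    · left; simp [ep, hj]

/-- Truncation after δ_a to the row E. -/
theorem b01_tr_de_self (z : ℤ → K) (x : ℕ → R) {n : ℕ} (E : Fin n → ℤ) (a : Fin n) {v : W R n}
    (hv : v ∈ U R n E) :
    tr n E (de z x E a v) = tr n E (XX z x n (z (E a)) v) := by
  rw [de, LinearMap.comp_apply, b00_tr_tr n E (E + ep a) (fun j => ?_) (b00_mv_Lw z _ n _ (b00_XX_mv z x n _) (b00_XX_Vv z x n _) E _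
      (fun j => ?_) (b00_U_Lw n E E (fun _ => le_rfl) hv))]
  · have := b01_ep_nonneg a j
    simp only [Pi.add_apply]; omega
  · by_cases hj : j = a
    · subst hj; right; simp [ep]
    · left; simp [ep, hj]

/-- δ_a after the truncation to E - ε_a. -/
theorem b01_de_tr_self (z : ℤ → K) (x : ℕ → R) {n : ℕ} (E : Fin n → ℤ) (a : Fin n) {v : W R n}
    (hv : v ∈ U R n E) :
    de z x (E - ep a) a (tr n (E - ep a) v) = tr n E (XX z x n (z (E a - 1)) v) := by
  have hE : ∀ j, (E - ep a) j ≤ E j := fun j => by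
    have := b01_ep_nonneg a j
    simp only [Pi.sub_apply]; omega
  have h1 : (E - ep a) a = E a - 1 := by simp [ep]
  rw [de, LinearMap.comp_apply, h1, sub_add_cancel]
  rw [b00_harm z _ n _ (b00_XX_mv z x n _) E (E - ep a) (fun j => ?_) (b00_U_Lw n E _ hE hv)]
  by_cases hj : j = a
  · subst hj; right; simp [ep]
  · left; simp [ep, hj]

/-- δ_b commutes with the truncated operators X(s). -/
theorem b01_XX_de (z : ℤ → K) (hz : Function.Injective z) (x : ℕ → R) {n : ℕ} (E : Fin n → ℤ) (b : Fin n) (s : K) {v : W R n}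
    (hv : v ∈ U R n E) :
    tr n (E + ep b) (XX z x n s (de z x E b v)) = de z x E b (tr n E (XX z x n s v)) := by
  have hL := b00_U_Lw n E E (fun _ => le_rfl) hv
  rw [de, LinearMap.comp_apply, LinearMap.comp_apply]
  rw [b00_harm z _ n _ (b00_XX_mv z x n _) (E + ep b) (E + ep b) (fun j => Or.inl le_rfl) (b00_mv_Lw z _ n _ (b00_XX_mv z x n _)
    (b00_XX_Vv z x n _) E _ (fun j => ?_) hL),
    b00_harm z _ n _ (b00_XX_mv z x n _) (E + ep b) E (fun j => ?_) (b00_mv_Lw z _ n _ (b00_XX_mv z x n _)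
    (b00_XX_Vv z x n _) E _ (fun j => Or.inl le_rfl) hL),
    b01_comm z hz x n _ _ v (b00_U_le_Vv n E hv)]
  · by_cases hj : j = b
    · subst hj; right; simp [ep]
    · left; simp [ep, hj]
  · by_cases hj : j = b
    · subst hj; right; simp [ep]
    · left; simp [ep, hj]

end H92C
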