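import Pool.Agent.Lib.H92C.B01

/-!
# H92C, module B, part 2: the iterated operators δ_p^r and the boundary (PROOF.md, B.4)
-/

open MvPolynomial

namespace H92C

variable {K R : Type} [Field K] [CommRing R] [Algebra K R]

/-- r times the unit row. -/
def up {n : ℕ} (p : Fin n) (r : ℕ) : Fin n → ℤ := Pi.single p (r : ℤ)

theorem b02_up_zero {n : ℕ} (p : Fin n) : up p 0 = 0 := by simp [up]

theorem b02_up_one {n : ℕ} (p : Fin n) : up p 1 = ep p := by simp [up, ep]

theorem b02_up_succ {n : ℕ} (p : Fin n) (r : ℕ) : up p (r + 1) = up p r + ep p := by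
  simp [up, ep, Pi.single_add]

theorem b02_up_same {n : ℕ} (p : Fin n) (r : ℕ) : up p r p = r := by simp [up]

theorem b02_up_ne {n : ℕ} {p j : Fin n} (h : j ≠ p) (r : ℕ) : up p r j = 0 := by simp [up, h]

/-- δ_p^r on the vectors under E (from U E to U (E + r ε_p)). -/
def dd (z : ℤ → K) (x : ℕ → R) {n : ℕ} (E : Fin n → ℤ) (p : Fin n) : ℕ → W R n →ₗ[R] W R n
  | 0 => LinearMap.id
  | r + 1 => de z x (E + up p r) p ∘ₗ dd z x E p r

theorem b02_dd_zero (z : ℤ → K) (x : ℕ → R) {n : ℕ} (E : Fin n → ℤ) (p : Fin n) (v : W R n) : dd z x E p 0 v = v := rfl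

theorem b02_dd_succ (z : ℤ → K) (x : ℕ → R) {n : ℕ} (E : Fin n → ℤ) (p : Fin n) (r : ℕ) (v : W R n) :
    dd z x E p (r + 1) v = de z x (E + up p r) p (dd z x E p r v) := rfl

/-- δ_p^r maps U E to U (E + r ε_p). -/
theorem b02_dd_mem (z : ℤ → K) (x : ℕ → R) {n : ℕ} (E : Fin n → ℤ) (p : Fin n) (r : ℕ) {v : W R n} (hv : v ∈ U R n E) :
    dd z x E p r v ∈ U R n (E + up p r) := by
  induction r with
  | zero => rw [b02_up_zero, add_zero]; exact hv
  | succ r ih =>
    rw [b02_up_succ, ← add_assoc]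
    exact b00_de_mem z x _ p ih

/-- The first step first. -/
theorem b02_dd_succ' (z : ℤ → K) (x : ℕ → R) {n : ℕ} (E : Fin n → ℤ) (p : Fin n) (r : ℕ) (v : W R n) :
    dd z x E p (r + 1) v = dd z x (E + ep p) p r (de z x E p v) := by
  induction r with
  | zero => simp [dd, b02_up_zero]
  | succ r ih =>
    rw [b02_dd_succ, ih, b02_dd_succ]
    have : E + up p (r + 1) = E + ep p + up p r := by
      rw [b02_up_succ, add_comm (up p r), add_assoc]
    rw [this]

/-- δ_a commutes with δ_p^r. -/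
theorem b02_de_dd (z : ℤ → K) (hz : Function.Injective z) (x : ℕ → R) {n : ℕ} (E : Fin n → ℤ) (p a : Fin n) (r : ℕ) {v : W R n}
    (hv : v ∈ U R n E) :
    de z x (E + up p r) a (dd z x E p r v) = dd z x (E + ep a) p r (de z x E a v) := by
  induction r with
  | zero => rw [b02_up_zero, add_zero]; rfl
  | succ r ih =>
    rw [b02_dd_succ, b02_dd_succ, ← ih, b02_up_succ, ← add_assoc, b01_de_de z hz x _ a p (b02_dd_mem z x E p r hv),
      add_right_comm E (up p r) (ep a)]

/-- δ_p^r commutes with a truncation at another position. -/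
theorem b02_tr_dd (z : ℤ → K) (x : ℕ → R) {n : ℕ} (E : Fin n → ℤ) (a p : Fin n) (hap : a ≠ p) (r : ℕ) {v : W R n}
    (hv : v ∈ U R n E) :
    tr n (E - ep a + up p r) (dd z x E p r v) = dd z x (E - ep a) p r (tr n (E - ep a) v) := by
  induction r with
  | zero => rw [b02_up_zero, add_zero]; rfl
  | succ r ih =>
    rw [b02_dd_succ, b02_dd_succ, ← ih]
    have h1 : E - ep a + up p (r + 1) = E + up p r - ep a + ep p := by
      rw [b02_up_succ]; abel
    have h2 : E - ep a + up p r = E + up p r - ep a := by abel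
    rw [h1, h2]
    exact b01_tr_de z x (E + up p r) a p hap (b02_dd_mem z x E p r hv)

/-- The product of operators X(z e) preserves valid vectors. -/
theorem b02_QQ_Vv (z : ℤ → K) (x : ℕ → R) (n : ℕ) (a : ℤ) (r : ℕ) {v : W R n} (hv : v ∈ Vv R n) : QQ z x n a r v ∈ Vv R n := by
  induction r with
  | zero => exact hv
  | succ r ih => exact b00_XX_Vv z x n _ _ ih

/-- The product of operators X(z e) raises the lower bound. -/
theorem b02_QQ_Lw (z : ℤ → K) (x : ℕ → R) {n : ℕ} (E : Fin n → ℤ) (p : Fin n) (r : ℕ) {v : W R n} (hv : v ∈ Lw R n E) :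
    QQ z x n (E p) r v ∈ Lw R n (E + up p r) := by
  induction r with
  | zero => rw [b02_up_zero, add_zero]; exact hv
  | succ r ih =>
    refine b00_mv_Lw z _ n _ (b00_XX_mv z x n _) (b00_XX_Vv z x n _) (E + up p r) _ (fun j => ?_) ih
    by_cases hj : j = p
    · subst hj; right
      simp only [Pi.add_apply, b02_up_same]
      refine ⟨?_, trivial⟩
      push_cast; omega
    · left; simp only [Pi.add_apply, b02_up_ne hj, le_refl]

/-- δ_p^r with one truncation. -/
theorem b02_dd_eq (z : ℤ → K) (x : ℕ → R) {n : ℕ} (E : Fin n → ℤ) (p : Fin n) (r : ℕ) {v : W R n} (hv : v ∈ U R n E) :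
    dd z x E p r v = tr n (E + up p r) (QQ z x n (E p) r v) := by
  induction r with
  | zero => rw [b02_up_zero, add_zero]; exact (b00_tr_U n E hv).symm
  | succ r ih =>
    rw [b02_dd_succ, ih, de, LinearMap.comp_apply, b02_up_succ, ← add_assoc]
    have h1 : (E + up p r) p = E p + r := by simp only [Pi.add_apply, b02_up_same]
    rw [h1]
    refine b00_harm z _ n _ (b00_XX_mv z x n _) _ _ (fun j => ?_) (b02_QQ_Lw z x E p r (b00_U_Lw n E E (fun _ => le_rfl) hv))
    by_cases hj : j = p
    · subst hj; right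
      simp only [Pi.add_apply, b02_up_same, b01_ep_same]
      exact ⟨le_rfl, trivial⟩
    · left; simp only [Pi.add_apply, b01_ep_ne hj, add_zero, le_refl]

section rows

variable {N : ℕ}

/-- The row without the entry j, when the entry i is changed. -/
theorem b02_dl_ep (G : Fin (N + 1) → ℤ) (j i : Fin (N + 1)) (i' : Fin N) (h : j.succAbove i' = i) :
    dl (G + ep i) j = dl G j + ep i' := by
  funext l
  simp only [dl, Pi.add_apply]
  congr 1
  by_cases hl : l = i'
  · subst hl; rw [h, b01_ep_same, b01_ep_same]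
  · rw [b01_ep_ne hl, b01_ep_ne (fun h2 => hl (Fin.succAbove_right_injective (h2.trans h.symm)))]

theorem b02_dl_sub_ep (G : Fin (N + 1) → ℤ) (j i : Fin (N + 1)) (i' : Fin N) (h : j.succAbove i' = i) :
    dl (G - ep i) j = dl G j - ep i' := by
  have := b02_dl_ep (G - ep i) j i i' h
  rw [sub_add_cancel] at this
  rw [this, add_sub_cancel_right]

theorem b02_dl_ep_self (G : Fin (N + 1) → ℤ) (j : Fin (N + 1)) : dl (G + ep j) j = dl G j := by
  funext l
  simp only [dl, Pi.add_apply, b01_ep_ne (Fin.succAbove_ne j l), add_zero]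

theorem b02_dl_sub_ep_self (G : Fin (N + 1) → ℤ) (j : Fin (N + 1)) : dl (G - ep j) j = dl G j := by
  funext l
  simp only [dl, Pi.sub_apply, b01_ep_ne (Fin.succAbove_ne j l), sub_zero]

/-- The entries of the two rows of a boundary. -/
theorem b02_dl_succ_self (G : Fin (N + 1) → ℤ) (l : Fin N) : dl G l.succ l = G l.castSucc := by
  simp [dl]

theorem b02_dl_castSucc_self (G : Fin (N + 1) → ℤ) (l : Fin N) : dl G l.castSucc l = G l.succ := by
  simp [dl]

/-- The rows of a boundary. -/
theorem b02_dl_castSucc (G : Fin (N + 1) → ℤ) (l : Fin N) (h : G l.castSucc ≤ G l.succ) :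
    dl G l.castSucc = dl G l.succ + up l (G l.succ - G l.castSucc).toNat := by
  funext j
  rw [Pi.add_apply]
  by_cases hj : j = l
  · subst hj
    rw [b02_up_same, b02_dl_castSucc_self, b02_dl_succ_self]
    omega
  · rw [b02_up_ne hj, add_zero]
    simp only [dl]
    congr 1
    rcases lt_or_gt_of_ne hj with h1 | h1
    · rw [Fin.succAbove_of_castSucc_lt _ _ (by simpa using h1), Fin.succAbove_of_castSucc_lt _ _ (by
        rw [Fin.lt_def] at h1 ⊢; simp only [Fin.val_castSucc, Fin.val_succ]; omega)]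
    · rw [Fin.succAbove_of_le_castSucc _ _ (by
        rw [Fin.lt_def] at h1; rw [Fin.le_def]; simp only [Fin.val_castSucc]; omega),
        Fin.succAbove_of_le_castSucc _ _ (by
        rw [Fin.lt_def] at h1; rw [Fin.le_def]; simp only [Fin.val_castSucc, Fin.val_succ]; omega)]

/-- The index of another entry is the same in both rows of a boundary. -/
theorem b02_index (l : Fin N) (i : Fin (N + 1)) (h1 : i ≠ l.castSucc) (h2 : i ≠ l.succ) :
    ∃ i' : Fin N, i' ≠ l ∧ l.castSucc.succAbove i' = i ∧ l.succ.succAbove i' = i := by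
  obtain ⟨i', hi'⟩ := Fin.exists_succAbove_eq h1
  have hl : i' ≠ l := by
    rintro rfl
    rw [Fin.succAbove_castSucc_self] at hi'
    exact h2 hi'.symm
  refine ⟨i', hl, hi', ?_⟩
  rw [← hi']
  rcases lt_or_gt_of_ne hl with h3 | h3
  · rw [Fin.succAbove_of_castSucc_lt l.castSucc i' (by simpa using h3), Fin.succAbove_of_castSucc_lt l.succ i' (by
        rw [Fin.lt_def] at h3 ⊢; simp only [Fin.val_castSucc, Fin.val_succ]; omega)]
  · rw [Fin.succAbove_of_le_castSucc l.castSucc i' (by
        rw [Fin.lt_def] at h3; rw [Fin.le_def]; simp only [Fin.val_castSucc]; omega),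
        Fin.succAbove_of_le_castSucc l.succ i' (by
        rw [Fin.lt_def] at h3; rw [Fin.le_def]; simp only [Fin.val_castSucc, Fin.val_succ]; omega)]

/-- The boundary is δ_l^r. -/
theorem b02_bd_eq (z : ℤ → K) (x : ℕ → R) (G : Fin (N + 1) → ℤ) (l : Fin N) (h : G l.castSucc ≤ G l.succ) {v : W R N}
    (hv : v ∈ U R N (dl G l.succ)) :
    bd z x G l v = dd z x (dl G l.succ) l (G l.succ - G l.castSucc).toNat v := by
  rw [b02_dd_eq z x _ l _ hv, ← b02_dl_castSucc G l h, b02_dl_succ_self]
  rfl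

end rows

end H92C
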