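import Pool.Agent.Lib.H92C.B02

/-!
# H92C, module B: the relation (R) (PROOF.md, B.3), definitions and pure algebra
-/

open MvPolynomial

namespace H92C

variable {K R : Type} [Field K] [CommRing R] [Algebra K R]

/-- The relation (R) between ρ and δ at level n. -/
def RelR (q : K) (x : ℕ → R) (n : ℕ) : Prop :=
  ∀ (μ : ℕ) (E : Fin n → ℤ) (v : W R n), v ∈ U R n E →
    (∀ a k : Fin n, a ≠ k →
      (zq q (E k) - zq q (E a)) • ro q μ (E + ep a) k (de (zq q) x E a v) =
        (q⁻¹ * zq q (E k) - zq q (E a)) • de (zq q) x (E + ep k) a (ro q μ E k v) +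
          ((1 - q⁻¹) * zq q (E a)) • de (zq q) x (E + ep a) k (ro q μ E a v)) ∧
    ∀ a : Fin n, ro q μ (E + ep a) a (de (zq q) x E a v) = q⁻¹ • de (zq q) x (E + ep a) a (ro q μ E a v)

/-- The slice F of the one level identity (*), for the operators without truncation. The condition on F: if F_b = F_c + 1 then s or s'
is z(F_c) or the slice of v at F - ε_b - ε_c is zero. -/
def RelS (q : K) (x : ℕ → R) (n μ : ℕ) : Prop :=
  ∀ (v : W R (n + 1)), v ∈ Vv R (n + 1) → ∀ F : Fin n → ℤ, StrictMono F → ∀ s s' : K, s ≠ 0 → s' ≠ 0 →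
    (∀ b c : Fin n, F b = F c + 1 → s = zq q (F c) ∨ s' = zq q (F c) ∨ sl (F - ep b - ep c) v = 0) →
    (s' - s) • sl F (PR q μ (n + 1) s' (XX (zq q) x (n + 1) s v)) =
      (q⁻¹ * s' - s) • sl F (XX (zq q) x (n + 1) s (PR q μ (n + 1) s' v)) +
        ((1 - q⁻¹) * s) • sl F (XX (zq q) x (n + 1) s' (PR q μ (n + 1) s v))

/-- The double steps: first δ_c then ρ_b, from the row F - ε_b - ε_c to F. -/
def b10rd (q : K) (x : ℕ → R) (μ : ℕ) {n : ℕ} (v : W R (n + 1)) (F : Fin n → ℤ) (b c : Fin n) : W R n :=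
  ro q μ (F - ep b) b (de (zq q) x (F - ep b - ep c) c (sl (F - ep b - ep c) v))

/-- The double steps: first ρ_c then δ_b, from the row F - ε_b - ε_c to F. -/
def b10dr (q : K) (x : ℕ → R) (μ : ℕ) {n : ℕ} (v : W R (n + 1)) (F : Fin n → ℤ) (b c : Fin n) : W R n :=
  de (zq q) x (F - ep b) b (ro q μ (F - ep b - ep c) c (sl (F - ep b - ep c) v))

/-- The common factor of the coefficients of a pair. -/
def cst (q : K) {n : ℕ} (F : Fin n → ℤ) (b c : Fin n) (s s' : K) : K :=
  ∏ d ∈ (Finset.univ.erase b).erase c,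
    ((s - zq q (F d)) * (s' - zq q (F d))) / ((zq q (F b - 1) - zq q (F d)) * (zq q (F c - 1) - zq q (F d)))

theorem b10_zq_ne (q : K) (hq0 : q ≠ 0) (e : ℤ) : zq q e ≠ 0 := zpow_ne_zero e hq0

theorem b10_zq_add (q : K) (hq0 : q ≠ 0) (a b : ℤ) : zq q (a + b) = zq q a * zq q b := zpow_add₀ hq0 a b

theorem b10_zq_one (q : K) : zq q 1 = q := zpow_one q

theorem b10_zq_succ (q : K) (hq0 : q ≠ 0) (a : ℤ) : zq q (a + 1) = q * zq q a := by
  rw [b10_zq_add q hq0, b10_zq_one, mul_comm]

theorem b10_zq_pred (q : K) (hq0 : q ≠ 0) (a : ℤ) : q * zq q (a - 1) = zq q a := by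
  rw [← b10_zq_succ q hq0, sub_add_cancel]

/-- The powers of q are different. -/
theorem b10_zq_inj (q : K) (hq0 : q ≠ 0) (hq : ∀ j : ℕ, 0 < j → q ^ j ≠ 1) : Function.Injective (zq q) := by
  have key : ∀ a b : ℤ, a < b → zq q a ≠ zq q b := by
    intro a b hab h
    obtain ⟨m, hm⟩ : ∃ m : ℕ, b = a + m := ⟨(b - a).toNat, by omega⟩
    have hm0 : 0 < m := by omega
    apply hq m hm0
    rw [hm, b10_zq_add q hq0] at h
    have h2 : zq q (m : ℤ) = q ^ m := zpow_natCast q m
    rw [h2] at h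
    have h3 := b10_zq_ne q hq0 a
    have h4 : zq q a * (q ^ m - 1) = 0 := by rw [mul_sub, ← h]; ring
    rcases mul_eq_zero.1 h4 with h5 | h5
    · exact absurd h5 h3
    · exact sub_eq_zero.1 h5
  intro a b h
  rcases lt_trichotomy a b with h1 | h1 | h1
  · exact absurd h (key a b h1)
  · exact h1
  · exact absurd h.symm (key b a h1)

/-- Two double sums are equal if the diagonal terms are equal and the terms of each pair have the same sum.
(Chunk B10.) Split both sums into b = c, b < c, c < b, exchange the names of b and c in the last part. -/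
theorem b10_sum {n : ℕ} {M : Type} [AddCommMonoid M] (f g : Fin n → Fin n → M) (h1 : ∀ b, f b b = g b b)
    (h2 : ∀ b c, b < c → f b c + f c b = g b c + g c b) : ∑ b, ∑ c, f b c = ∑ b, ∑ c, g b c := by
  have key : ∀ f : Fin n → Fin n → M, ∑ b, ∑ c, f b c = ∑ b, f b b + ∑ b, ∑ c ∈ Finset.univ.filter (fun c => b < c), (f b c + f c b) := by
    intro f
    have h3 : ∀ b, ∑ c, f b c = f b b + (∑ c ∈ Finset.univ.filter (fun c => b < c), f b c + ∑ c ∈ Finset.univ.filter (fun c => c < b), f b c) := by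
      intro b
      rw [← Finset.sum_filter_add_sum_filter_not Finset.univ (fun c => b < c) (f b)]
      have h4 : Finset.univ.filter (fun c => ¬ b < c) = insert b (Finset.univ.filter (fun c => c < b)) := by
        ext c
        simp only [Finset.mem_filter, Finset.mem_univ, true_and, Finset.mem_insert, not_lt]
        exact le_iff_eq_or_lt
      rw [h4, Finset.sum_insert (by simp)]
      abel
    rw [Finset.sum_congr rfl (fun b _ => h3 b), Finset.sum_add_distrib, Finset.sum_add_distrib]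
    congr 1
    have h5 : ∑ b, ∑ c ∈ Finset.univ.filter (fun c => c < b), f b c = ∑ b, ∑ c ∈ Finset.univ.filter (fun c => b < c), f c b := by
      rw [Finset.sum_sigma', Finset.sum_sigma']
      refine Finset.sum_nbij' (fun p => ⟨p.2, p.1⟩) (fun p => ⟨p.2, p.1⟩) ?_ ?_ ?_ ?_ ?_ <;> simp
    rw [h5, ← Finset.sum_add_distrib]
    refine Finset.sum_congr rfl fun b _ => ?_
    rw [← Finset.sum_add_distrib]
  rw [key f, key g]
  congr 1
  · exact Finset.sum_congr rfl fun b _ => h1 b
  · refine Finset.sum_congr rfl fun b _ => Finset.sum_congr rfl fun c hc => h2 b c ?_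
    simpa using hc

end H92C
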