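import Pool.Agent.Lib.H92C.B10

/-!
# H92C, module B: the relation (R), coefficients (PROOF.md, B.3)
-/

open MvPolynomial

namespace H92C

variable {K : Type} [Field K]

/-- The product of the s - z(F_d), d ≠ b. -/
def Ab (q : K) {n : ℕ} (F : Fin n → ℤ) (b : Fin n) (s : K) : K := ∏ d ∈ Finset.univ.erase b, (s - zq q (F d))

theorem b11_LL (q : K) {n : ℕ} (F : Fin n → ℤ) (b : Fin n) (s : K) :
    LL (zq q) b s (F - ep b) = Ab q F b s * (Ab q F b (zq q (F b - 1)))⁻¹ := by
  rw [LL, Ab, Ab, Finset.prod_div_distrib, div_eq_mul_inv]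
  have h1 : (F - ep b) b = F b - 1 := by simp [ep]
  congr 1
  · refine Finset.prod_congr rfl fun d hd => ?_
    have : (F - ep b) d = F d := by simp [ep, Finset.ne_of_mem_erase hd]
    rw [this]
  · congr 1
    refine Finset.prod_congr rfl fun d hd => ?_
    have : (F - ep b) d = F d := by simp [ep, Finset.ne_of_mem_erase hd]
    rw [this, h1]

theorem b11_pp (q : K) {n : ℕ} (F : Fin n → ℤ) (b : Fin n) (s : K) :
    pp (zq q) F s = (s - zq q (F b)) * Ab q F b s := by
  rw [pp, Ab, Finset.mul_prod_erase Finset.univ (fun d => s - zq q (F d)) (Finset.mem_univ b)]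

theorem b11_pp' (q : K) {n : ℕ} (F : Fin n → ℤ) (b : Fin n) (s : K) :
    pp (zq q) (F - ep b) s = (s - zq q (F b - 1)) * Ab q F b s := by
  rw [pp, Ab, ← Finset.mul_prod_erase Finset.univ (fun d => s - zq q ((F - ep b) d)) (Finset.mem_univ b)]
  have h1 : (F - ep b) b = F b - 1 := by simp [ep]
  rw [h1]
  congr 1
  refine Finset.prod_congr rfl fun d hd => ?_
  have : (F - ep b) d = F d := by simp [ep, Finset.ne_of_mem_erase hd]
  rw [this]

/-- The coefficients of the single steps. -/
theorem b11_single (q : K) (hq0 : q ≠ 0) {n : ℕ} (F : Fin n → ℤ) (b : Fin n) (s s' : K) :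
    (s' - s) * (LL (zq q) b s' (F - ep b) * pp (zq q) (F - ep b) s) =
      (q⁻¹ * s' - s) * (pp (zq q) F s * LL (zq q) b s' (F - ep b)) +
        (1 - q⁻¹) * s * (pp (zq q) F s' * LL (zq q) b s (F - ep b)) := by
  rw [b11_LL, b11_LL, b11_pp q F b s, b11_pp q F b s', b11_pp', ← b10_zq_pred q hq0 (F b)]
  field_simp
  ring

/-- The coefficients of the double step at one position are symmetric. -/
theorem b11_diag (q : K) {n : ℕ} (F : Fin n → ℤ) (b : Fin n) (s s' : K) :
    LL (zq q) b s (F - ep b) * LL (zq q) b s' (F - ep b - ep b) =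
      LL (zq q) b s' (F - ep b) * LL (zq q) b s (F - ep b - ep b) := by
  have h1 : ∀ s, Ab q (F - ep b) b s = Ab q F b s := by
    intro s
    rw [Ab, Ab]
    refine Finset.prod_congr rfl fun d hd => ?_
    have : (F - ep b) d = F d := by simp [ep, Finset.ne_of_mem_erase hd]
    rw [this]
  rw [b11_LL q F, b11_LL q F, b11_LL q (F - ep b), b11_LL q (F - ep b)]
  simp only [h1]
  ring

theorem b11_cst_swap (q : K) {n : ℕ} (F : Fin n → ℤ) (b c : Fin n) (s s' : K) : cst q F b c s s' = cst q F b c s' s := by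
  rw [cst, cst]
  refine Finset.prod_congr rfl fun d _ => ?_
  rw [mul_comm (s - zq q (F d))]

theorem b11_cst_symm (q : K) {n : ℕ} (F : Fin n → ℤ) (b c : Fin n) (s s' : K) : cst q F b c s s' = cst q F c b s s' := by
  rw [cst, cst, Finset.erase_right_comm]
  refine Finset.prod_congr rfl fun d _ => ?_
  rw [mul_comm (zq q (F b - 1) - zq q (F d))]

/-- The coefficients of a pair. -/
theorem b11_pair (q : K) {n : ℕ} (F : Fin n → ℤ) (b c : Fin n) (hbc : b ≠ c) (s s' : K) :
    LL (zq q) b s (F - ep b) * LL (zq q) c s' (F - ep b - ep c) =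
      cst q F b c s s' * ((s - zq q (F c)) * (s' - zq q (F b - 1)) /
        ((zq q (F b - 1) - zq q (F c)) * (zq q (F c - 1) - zq q (F b - 1)))) := by
  have hb : (F - ep b) b = F b - 1 := by simp [ep]
  have hc : (F - ep b) c = F c := by simp [ep, Ne.symm hbc]
  have hb2 : (F - ep b - ep c) b = F b - 1 := by simp [ep, hbc]
  have hc2 : (F - ep b - ep c) c = F c - 1 := by simp [ep, Ne.symm hbc]
  have e1 : Finset.univ.erase b = insert c ((Finset.univ.erase b).erase c) :=
    (Finset.insert_erase (Finset.mem_erase.2 ⟨Ne.symm hbc, Finset.mem_univ c⟩)).symm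
  have e2 : Finset.univ.erase c = insert b ((Finset.univ.erase b).erase c) := by
    rw [Finset.erase_right_comm]
    exact (Finset.insert_erase (Finset.mem_erase.2 ⟨hbc, Finset.mem_univ b⟩)).symm
  rw [LL, LL, e1, Finset.prod_insert (by simp), e2, Finset.prod_insert (by simp), hb, hc, hb2, hc2, cst]
  have h3 : ∀ d ∈ (Finset.univ.erase b).erase c, (F - ep b) d = F d ∧ (F - ep b - ep c) d = F d := by
    intro d hd
    have h1 := Finset.ne_of_mem_erase hd
    have h2 := Finset.ne_of_mem_erase (Finset.mem_of_mem_erase hd)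
    simp [ep, h1, h2]
  rw [Finset.prod_congr rfl (fun d hd => by rw [(h3 d hd).1] : ∀ d ∈ (Finset.univ.erase b).erase c,
      (s - zq q ((F - ep b) d)) / (zq q (F b - 1) - zq q ((F - ep b) d)) = (s - zq q (F d)) / (zq q (F b - 1) - zq q (F d))),
    Finset.prod_congr rfl (fun d hd => by rw [(h3 d hd).2] : ∀ d ∈ (Finset.univ.erase b).erase c,
      (s' - zq q ((F - ep b - ep c) d)) / (zq q (F c - 1) - zq q ((F - ep b - ep c) d)) =
        (s' - zq q (F d)) / (zq q (F c - 1) - zq q (F d)))]
  have h4 : ∏ d ∈ (Finset.univ.erase b).erase c,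
      ((s - zq q (F d)) * (s' - zq q (F d))) / ((zq q (F b - 1) - zq q (F d)) * (zq q (F c - 1) - zq q (F d))) =
      (∏ d ∈ (Finset.univ.erase b).erase c, (s - zq q (F d)) / (zq q (F b - 1) - zq q (F d))) *
      ∏ d ∈ (Finset.univ.erase b).erase c, (s' - zq q (F d)) / (zq q (F c - 1) - zq q (F d)) := by
    rw [← Finset.prod_mul_distrib]
    exact Finset.prod_congr rfl fun d _ => (div_mul_div_comm _ _ _ _).symm
  rw [h4, ← div_mul_div_comm]
  ring

end H92C
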