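import Pool.Agent.Lib.H92C.B11

/-!
# H92C, module B: the relation (R), the identity for a pair (PROOF.md, B.3). Pure linear algebra.
-/

open MvPolynomial

namespace H92C

variable {K M : Type} [Field K] [AddCommGroup M] [Module K M]

/-- The degenerate case. -/
theorem b12_deg (q : K) (hq0 : q ≠ 0) (yc s s' : K) (hyc : yc ≠ 0) (hbc : q * yc ≠ yc) (C : K) (rcb dcb : M)
    (h2 : (yc - q * yc) • rcb = ((1 - q⁻¹) * (q * yc)) • dcb)
    (h : s = q * yc ∨ s' = q * yc ∨ (rcb = 0 ∧ dcb = 0)) (hc : yc = q * (q * yc) → rcb = 0 ∧ dcb = 0) :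
    (s' - s) • ((C * ((s' - q * (q * yc)) * (s - yc) / ((yc - q * (q * yc)) * (q * yc - yc)))) • rcb) =
      (q⁻¹ * s' - s) • ((C * ((s - q * (q * yc)) * (s' - yc) / ((yc - q * (q * yc)) * (q * yc - yc)))) • dcb) +
      ((1 - q⁻¹) * s) • ((C * ((s' - q * (q * yc)) * (s - yc) / ((yc - q * (q * yc)) * (q * yc - yc)))) • dcb) := by
  have e1 : q * yc - yc ≠ 0 := sub_ne_zero.2 hbc
  have r : rcb = (-1 : K) • dcb := by
    have h3 : yc - q * yc ≠ 0 := sub_ne_zero.2 (Ne.symm hbc)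
    have := congrArg (fun m => (yc - q * yc)⁻¹ • m) h2
    simp only [smul_smul, inv_mul_cancel₀ h3, one_smul] at this
    rw [this]
    congr 1
    rw [inv_mul_eq_div, div_eq_iff h3]
    field_simp
    ring
  by_cases hc' : yc = q * (q * yc)
  · rw [(hc hc').1, (hc hc').2]
    simp
  · have e2 : yc - q * (q * yc) ≠ 0 := sub_ne_zero.2 hc'
    rcases h with h | h | h
    · subst h
      rw [r]
      match_scalars
      field_simp
      ring
    · subst h
      rw [r]
      match_scalars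
      field_simp
      ring
    · rw [h.1, h.2]
      simp

/-- The identity for a pair of positions b ≠ c: yb = z(F_b - 1), yc = z(F_c - 1), rbc = ρ_b δ_c, dbc = δ_b ρ_c. -/
theorem b12_pair (q : K) (hq0 : q ≠ 0) (yb yc s s' : K) (hyb : yb ≠ 0) (hyc : yc ≠ 0) (hbc : yb ≠ yc) (C : K) (rbc rcb dbc dcb : M)
    (h1 : (yb - yc) • rbc = (q⁻¹ * yb - yc) • dcb + ((1 - q⁻¹) * yc) • dbc)
    (h2 : (yc - yb) • rcb = (q⁻¹ * yc - yb) • dbc + ((1 - q⁻¹) * yb) • dcb)
    (hb : yb = q * yc → rbc = 0 ∧ dbc = 0 ∧ (s = yb ∨ s' = yb ∨ (rcb = 0 ∧ dcb = 0)))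
    (hc : yc = q * yb → rcb = 0 ∧ dcb = 0 ∧ (s = yc ∨ s' = yc ∨ (rbc = 0 ∧ dbc = 0))) :
    (s' - s) • ((C * ((s' - q * yc) * (s - yb) / ((yb - q * yc) * (yc - yb)))) • rbc +
        (C * ((s' - q * yb) * (s - yc) / ((yc - q * yb) * (yb - yc)))) • rcb) =
      (q⁻¹ * s' - s) • ((C * ((s - q * yc) * (s' - yb) / ((yb - q * yc) * (yc - yb)))) • dbc +
        (C * ((s - q * yb) * (s' - yc) / ((yc - q * yb) * (yb - yc)))) • dcb) +
      ((1 - q⁻¹) * s) • ((C * ((s' - q * yc) * (s - yb) / ((yb - q * yc) * (yc - yb)))) • dbc +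
        (C * ((s' - q * yb) * (s - yc) / ((yc - q * yb) * (yb - yc)))) • dcb) := by
  have e1 : yb - yc ≠ 0 := sub_ne_zero.2 hbc
  have e2 : yc - yb ≠ 0 := sub_ne_zero.2 (Ne.symm hbc)
  by_cases hb' : yb = q * yc
  · obtain ⟨a1, a2, a3⟩ := hb hb'
    rw [a1, a2]
    rw [a1, a2] at hc
    rw [a2, smul_zero, zero_add] at h2
    subst hb'
    simp only [smul_zero, zero_add]
    exact b12_deg q hq0 yc s s' hyc hbc C rcb dcb h2 a3 (fun h => ⟨(hc h).1, (hc h).2.1⟩)
  · by_cases hc' : yc = q * yb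
    · obtain ⟨a1, a2, a3⟩ := hc hc'
      rw [a1, a2]
      rw [a2, smul_zero, zero_add] at h1
      subst hc'
      simp only [smul_zero, add_zero]
      exact b12_deg q hq0 yb s s' hyb (Ne.symm hbc) C rbc dbc h1 a3 (fun h => absurd h hb')
    · have e3 : yb - q * yc ≠ 0 := sub_ne_zero.2 hb'
      have e4 : yc - q * yb ≠ 0 := sub_ne_zero.2 hc'
      have r1 : rbc = ((q⁻¹ * yb - yc) / (yb - yc)) • dcb + ((1 - q⁻¹) * yc / (yb - yc)) • dbc := by
        have := congrArg (fun m => (yb - yc)⁻¹ • m) h1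
        simp only [smul_smul, smul_add, inv_mul_cancel₀ e1, one_smul] at this
        rw [this]
        congr 1
        · congr 1; field_simp
        · congr 1; field_simp
      have r2 : rcb = ((q⁻¹ * yc - yb) / (yc - yb)) • dbc + ((1 - q⁻¹) * yb / (yc - yb)) • dcb := by
        have := congrArg (fun m => (yc - yb)⁻¹ • m) h2
        simp only [smul_smul, smul_add, inv_mul_cancel₀ e2, one_smul] at this
        rw [this]
        congr 1
        · congr 1; field_simp
        · congr 1; field_simp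
      rw [r1, r2]
      match_scalars
      · field_simp
        ring
      · field_simp
        ring

end H92C
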