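import Pool.Agent.Lib.H92C.B12

/-!
# H92C, module B: the relation (R), the slices of the double operators (PROOF.md, B.3)
-/

open MvPolynomial

namespace H92C

variable {K R : Type} [Field K] [CommRing R] [Algebra K R]

theorem b13_smulK {n m : ℕ} (f : W R n →ₗ[R] W R m) (k : K) (v : W R n) : f (k • v) = k • f v :=
  LinearMap.map_smul_of_tower f k v

theorem b13_PX (q : K) (x : ℕ → R) {n : ℕ} (μ : ℕ) (hμ : μ ≠ n + 1) (s s' : K) (F : Fin n → ℤ) (v : W R (n + 1)) :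
    sl F (PR q μ (n + 1) s' (XX (zq q) x (n + 1) s v)) =
      ∑ b, (LL (zq q) b s' (F - ep b) * pp (zq q) (F - ep b) s) • (x n • ro q μ (F - ep b) b (sl (F - ep b) v)) +
        ∑ b, ∑ c, (LL (zq q) b s' (F - ep b) * LL (zq q) c s (F - ep b - ep c)) • b10rd q x μ v F b c := by
  rw [b00_sl_PR q μ hμ, ← Finset.sum_add_distrib]
  refine Finset.sum_congr rfl fun b _ => ?_
  rw [b00_sl_XX, map_add, map_sum, smul_add, Finset.smul_sum]
  congr 1
  · rw [map_smul, b13_smulK, mul_smul, smul_comm (x n)]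
  · refine Finset.sum_congr rfl fun c _ => ?_
    rw [b13_smulK, smul_smul]
    rfl

theorem b13_XP (q : K) (x : ℕ → R) {n : ℕ} (μ : ℕ) (hμ : μ ≠ n + 1) (s s' : K) (F : Fin n → ℤ) (v : W R (n + 1)) :
    sl F (XX (zq q) x (n + 1) s (PR q μ (n + 1) s' v)) =
      ∑ b, (pp (zq q) F s * LL (zq q) b s' (F - ep b)) • (x n • ro q μ (F - ep b) b (sl (F - ep b) v)) +
        ∑ b, ∑ c, (LL (zq q) b s (F - ep b) * LL (zq q) c s' (F - ep b - ep c)) • b10dr q x μ v F b c := by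
  rw [b00_sl_XX]
  congr 1
  · rw [b00_sl_PR q μ hμ, Finset.smul_sum, Finset.smul_sum]
    refine Finset.sum_congr rfl fun b _ => ?_
    rw [smul_smul, smul_comm (x n)]
  · refine Finset.sum_congr rfl fun b _ => ?_
    rw [b00_sl_PR q μ hμ, map_sum, Finset.smul_sum]
    refine Finset.sum_congr rfl fun c _ => ?_
    rw [b13_smulK, smul_smul]
    rfl

/-- The top case of the one level identity. -/
theorem b13_top (q : K) (hq0 : q ≠ 0) (x : ℕ → R) (n : ℕ) : RelS q x n (n + 1) := by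
  intro v hv F hF s s' hs hs' _
  have hz := b10_zq_ne q hq0 (∑ j, F j)
  have hsum : ∀ b : Fin n, (zq q (∑ j, (F - ep b) j))⁻¹ = q * (zq q (∑ j, F j))⁻¹ := by
    intro b
    have h1 : ∑ j, (F - ep b) j = ∑ j, F j - 1 := by
      simp only [Pi.sub_apply, Finset.sum_sub_distrib, ep, Finset.sum_pi_single', Finset.mem_univ, if_true]
    have h2 : zq q (∑ j, F j) = q * zq q (∑ j, F j - 1) := (b10_zq_pred q hq0 _).symm
    have h3 := b10_zq_ne q hq0 (∑ j, F j - 1)
    rw [h1, h2]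
    field_simp
  rw [b00_sl_PR_top, b00_sl_XX, b00_sl_XX, b00_sl_XX]
  simp only [b00_sl_PR_top, b13_smulK]
  have hA : (s' - s) • (s'⁻¹ * (zq q (∑ j, F j))⁻¹ * pp (zq q) F s') • (x n • (pp (zq q) F s • sl F v)) =
      (q⁻¹ * s' - s) • (x n • (pp (zq q) F s • ((s'⁻¹ * (zq q (∑ j, F j))⁻¹ * pp (zq q) F s') • sl F v))) +
      ((1 - q⁻¹) * s) • (x n • (pp (zq q) F s' • ((s⁻¹ * (zq q (∑ j, F j))⁻¹ * pp (zq q) F s) • sl F v))) := by
    simp only [smul_comm (x n), smul_smul, ← add_smul]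
    congr 1
    field_simp
    ring
  have hB : ∀ b : Fin n, (s' - s) • (s'⁻¹ * (zq q (∑ j, F j))⁻¹ * pp (zq q) F s') •
        (LL (zq q) b s (F - ep b) • de (zq q) x (F - ep b) b (sl (F - ep b) v)) =
      (q⁻¹ * s' - s) • (LL (zq q) b s (F - ep b) • ((s'⁻¹ * (zq q (∑ j, (F - ep b) j))⁻¹ * pp (zq q) (F - ep b) s') •
        de (zq q) x (F - ep b) b (sl (F - ep b) v))) +
      ((1 - q⁻¹) * s) • (LL (zq q) b s' (F - ep b) • ((s⁻¹ * (zq q (∑ j, (F - ep b) j))⁻¹ * pp (zq q) (F - ep b) s) •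
        de (zq q) x (F - ep b) b (sl (F - ep b) v))) := by
    intro b
    simp only [smul_smul, ← add_smul]
    congr 1
    rw [hsum b, b11_LL, b11_LL, b11_pp q F b s', b11_pp', b11_pp', ← b10_zq_pred q hq0 (F b)]
    field_simp
    ring
  rw [smul_add, smul_add, smul_add, smul_add, hA, Finset.smul_sum, Finset.smul_sum, Finset.smul_sum, Finset.smul_sum,
    Finset.sum_congr rfl (fun b _ => hB b), Finset.sum_add_distrib]
  abel

end H92C
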