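import Pool.Agent.Lib.H92C.B13

/-!
# H92C, module B: the one level identity from the relation (R) of the lower level (PROOF.md, B.3)
-/

open MvPolynomial

namespace H92C

variable {K R : Type} [Field K] [CommRing R] [Algebra K R]

theorem b14_not_mono {n : ℕ} (F : Fin n → ℤ) (b c : Fin n) (h : F b = F c + 1) : ¬ StrictMono (F - ep b) := by
  intro hm
  have hbc : b ≠ c := by rintro rfl; omega
  have h1 : (F - ep b) b = F b - 1 := by simp [ep]
  have h2 : (F - ep b) c = F c := by simp [ep, Ne.symm hbc]
  exact hbc (hm.injective (by rw [h1, h2]; omega))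

/-- The operators of a pair vanish in the degenerate case. -/
theorem b14_zero (q : K) (x : ℕ → R) {n : ℕ} (μ : ℕ) (v : W R (n + 1)) (hv : v ∈ Vv R (n + 1)) (F : Fin n → ℤ) (b c : Fin n)
    (h : F b = F c + 1) : b10rd q x μ v F b c = 0 ∧ b10dr q x μ v F b c = 0 := by
  have h1 := (b00_Vv_succ v).1 hv (F - ep b - ep c)
  have h2 := b14_not_mono F b c h
  constructor
  · have h3 := b00_de_mem (zq q) x (F - ep b - ep c) c h1
    rw [sub_add_cancel] at h3
    rw [b10rd, b00_U_not n _ h2 h3, map_zero]
  · have h3 := b00_ro_mem q μ (F - ep b - ep c) c h1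
    rw [sub_add_cancel] at h3
    rw [b10dr, b00_U_not n _ h2 h3, map_zero]

/-- The relation (R) of the lower level for a pair. -/
theorem b14_rel (q : K) (x : ℕ → R) {n : ℕ} (μ : ℕ) (h : RelR (R := R) q x n) (v : W R (n + 1)) (hv : v ∈ Vv R (n + 1))
    (F : Fin n → ℤ) (b c : Fin n) (hbc : b ≠ c) :
    (zq q (F b - 1) - zq q (F c - 1)) • b10rd q x μ v F b c =
      (q⁻¹ * zq q (F b - 1) - zq q (F c - 1)) • b10dr q x μ v F c b + ((1 - q⁻¹) * zq q (F c - 1)) • b10dr q x μ v F b c := by
  have h1 := (b00_Vv_succ v).1 hv (F - ep b - ep c)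
  have h2 := (h μ (F - ep b - ep c) (sl (F - ep b - ep c) v) h1).1 c b (Ne.symm hbc)
  have hb : (F - ep b - ep c) b = F b - 1 := by simp [ep, hbc]
  have hc : (F - ep b - ep c) c = F c - 1 := by simp [ep, Ne.symm hbc]
  have e1 : F - ep b - ep c + ep c = F - ep b := sub_add_cancel _ _
  have e2 : F - ep b - ep c + ep b = F - ep c := by abel
  rw [hb, hc, e1, e2] at h2
  rw [b10rd, b10dr, b10dr, h2, sub_right_comm F (ep c) (ep b)]

theorem b14_rel_same (q : K) (x : ℕ → R) {n : ℕ} (μ : ℕ) (h : RelR (R := R) q x n) (v : W R (n + 1)) (hv : v ∈ Vv R (n + 1))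
    (F : Fin n → ℤ) (b : Fin n) : b10rd q x μ v F b b = q⁻¹ • b10dr q x μ v F b b := by
  have h1 := (b00_Vv_succ v).1 hv (F - ep b - ep b)
  have h2 := (h μ (F - ep b - ep b) (sl (F - ep b - ep b) v) h1).2 b
  rw [sub_add_cancel] at h2
  exact h2

/-- The one level identity for the slice F. -/
theorem b14_relS (q : K) (hq0 : q ≠ 0) (hq : ∀ j : ℕ, 0 < j → q ^ j ≠ 1) (x : ℕ → R) (n μ : ℕ) (hμ : μ ≠ n + 1)
    (h : RelR (R := R) q x n) : RelS (R := R) q x n μ := by
  intro v hv F hF s s' hs hs' hdeg
  rw [b13_PX q x μ hμ, b13_XP q x μ hμ, b13_XP q x μ hμ]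
  rw [smul_add, smul_add, smul_add, add_add_add_comm]
  congr 1
  · rw [Finset.smul_sum, Finset.smul_sum, Finset.smul_sum, ← Finset.sum_add_distrib]
    refine Finset.sum_congr rfl fun b _ => ?_
    rw [smul_smul, smul_smul, smul_smul, ← add_smul, b11_single q hq0]
  · simp only [Finset.smul_sum, ← Finset.sum_add_distrib]
    refine b10_sum _ _ (fun b => ?_) (fun b c hbc => ?_)
    · rw [b14_rel_same q x μ h v hv, smul_smul, smul_smul, smul_smul, smul_smul, ← add_smul]
      congr 1
      rw [b11_diag q F b s s']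
      ring
    · have hne : b ≠ c := ne_of_lt hbc
      have hFbc : F b < F c := hF hbc
      have h1 := b14_rel q x μ h v hv F b c hne
      have h2 := b14_rel q x μ h v hv F c b (Ne.symm hne)
      have hinj := b10_zq_inj q hq0 hq
      have key := b12_pair q hq0 (zq q (F b - 1)) (zq q (F c - 1)) s s' (b10_zq_ne q hq0 _) (b10_zq_ne q hq0 _)
        (fun h3 => by have := hinj h3; omega) (cst q F b c s' s) (b10rd q x μ v F b c) (b10rd q x μ v F c b)
        (b10dr q x μ v F b c) (b10dr q x μ v F c b) h1 h2 (fun h3 => ?_) (fun h3 => ?_)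
      · rw [b10_zq_pred q hq0, b10_zq_pred q hq0] at key
        rw [b11_pair q F b c hne s' s, b11_pair q F b c hne s s', b11_pair q F c b (Ne.symm hne) s' s,
          b11_pair q F c b (Ne.symm hne) s s', b11_cst_swap q F b c s s', b11_cst_swap q F c b s s', b11_cst_symm q F c b s' s]
        rw [smul_add, smul_add, smul_add] at key
        rw [key]
        abel
      · rw [b10_zq_pred q hq0] at h3
        have := hinj h3
        omega
      · rw [b10_zq_pred q hq0] at h3
        have h4 : F c = F b + 1 := by have := hinj h3; omega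
        refine ⟨(b14_zero q x μ v hv F c b h4).1, (b14_zero q x μ v hv F c b h4).2, ?_⟩
        have h5 : F c - 1 = F b := by omega
        rcases hdeg c b h4 with h6 | h6 | h6
        · left; rw [h6, h5]
        · right; left; rw [h6, h5]
        · right; right
          rw [sub_right_comm] at h6
          constructor
          · rw [b10rd, h6, map_zero, map_zero]
          · rw [b10dr, h6, map_zero, map_zero]

end H92C
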