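import Pool.Agent.Lib.H92C.B14

/-!
# H92C, module B: the relation (R) for all levels (PROOF.md, B.3)
-/

open MvPolynomial

namespace H92C

variable {K R : Type} [Field K] [CommRing R] [Algebra K R]

/-- ρ_k δ_a with one truncation. -/
theorem b15_rd (q : K) (x : ℕ → R) (μ : ℕ) {n : ℕ} (E : Fin n → ℤ) (a k : Fin n) {v : W R n} (hv : v ∈ U R n E) :
    ro q μ (E + ep a) k (de (zq q) x E a v) =
      tr n (E + ep a + ep k) (PR q μ n (zq q ((E + ep a) k)) (XX (zq q) x n (zq q (E a)) v)) :=
  b01_harm2 (zq q) n E a k _ _ _ _ (b00_PR_mv q μ n _) (b00_XX_mv (zq q) x n _) (b00_XX_Vv (zq q) x n _) rfl rfl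
    (b00_U_Lw n E E (fun _ => le_rfl) hv)

/-- δ_a ρ_k with one truncation. -/
theorem b15_dr (q : K) (x : ℕ → R) (μ : ℕ) {n : ℕ} (E : Fin n → ℤ) (k a : Fin n) {v : W R n} (hv : v ∈ U R n E) :
    de (zq q) x (E + ep k) a (ro q μ E k v) =
      tr n (E + ep k + ep a) (XX (zq q) x n (zq q ((E + ep k) a)) (PR q μ n (zq q (E k)) v)) :=
  b01_harm2 (zq q) n E k a _ _ _ _ (b00_XX_mv (zq q) x n _) (b00_PR_mv q μ n _) (b00_PR_Vv q μ n _) rfl rfl
    (b00_U_Lw n E E (fun _ => le_rfl) hv)

/-- The condition on the rows in the one level identity. -/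
theorem b15_deg {n : ℕ} (E E' : Fin (n + 1) → ℤ) (v : W R (n + 1)) (hv : v ∈ U R (n + 1) E) (F : Fin n → ℤ) (hF : Il E' F)
    (P : Fin (n + 1) → Prop) (hP : ∀ i, ¬ P i → E' i = E i) (b c : Fin n) (hbc : F b = F c + 1) :
    (∃ i, P i ∧ F c = E i) ∨ sl (F - ep b - ep c) v = 0 := by
  by_cases h : Il E (F - ep b - ep c)
  · left
    have hne : b ≠ c := by rintro rfl; omega
    have hb : (F - ep b - ep c) b = F b - 1 := by simp [ep, hne]
    have hc : (F - ep b - ep c) c = F c - 1 := by simp [ep, Ne.symm hne]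
    have hm := b00_Il_strict' hF
    have hval : (b : ℕ) = c + 1 := by
      have h1 : c < b := by
        by_contra h2
        have h3 : b < c := lt_of_le_of_ne (not_lt.1 h2) hne
        have := hm h3
        omega
      rcases Nat.lt_or_ge (c + 1) b with h2 | h2
      · have h3 : c < (⟨c + 1, by omega⟩ : Fin n) := by rw [Fin.lt_def]; simp
        have h4 : (⟨c + 1, by omega⟩ : Fin n) < b := by rw [Fin.lt_def]; exact h2
        have := hm h3
        have := hm h4
        omega
      · rw [Fin.lt_def] at h1; omega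
    have hidx : b.castSucc = c.succ := by
      apply Fin.ext
      simp only [Fin.val_castSucc, Fin.val_succ]
      exact hval
    have h1 := (h b).1
    have h2 := (h c).2
    have h3 := (hF c).2
    rw [hb, hidx] at h1
    rw [hc] at h2
    refine ⟨c.succ, ?_, by omega⟩
    by_contra h4
    rw [hP _ h4] at h3
    omega
  · right
    exact (((b00_U_succ E v).1 hv) (F - ep b - ep c)).2 h

/-- The relation (R) of level n + 1. -/
theorem b15_relR (q : K) (hq0 : q ≠ 0) (hq : ∀ j : ℕ, 0 < j → q ^ j ≠ 1) (x : ℕ → R) (n : ℕ)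
    (h : ∀ μ, RelS (R := R) q x n μ) : RelR (R := R) q x (n + 1) := by
  intro μ E v hv
  have hV := b00_U_le_Vv (n + 1) E hv
  constructor
  · intro a k hak
    rw [b15_rd q x μ E a k hv, b15_dr q x μ E k a hv, b15_dr q x μ E a k hv]
    have e1 : (E + ep a) k = E k := by simp [ep, Ne.symm hak]
    have e2 : (E + ep k) a = E a := by simp [ep, hak]
    rw [e1, e2, add_right_comm E (ep k) (ep a)]
    apply b00_ext
    intro F
    rw [map_add, b13_smulK, b13_smulK, b13_smulK, b00_sl_tr, b00_sl_tr, b00_sl_tr]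
    by_cases hF : Il (E + ep a + ep k) F
    · rw [if_pos hF, if_pos hF, if_pos hF]
      refine h μ v hV F (b00_Il_strict' hF) _ _ (b10_zq_ne q hq0 _) (b10_zq_ne q hq0 _) (fun b c hbc => ?_)
      rcases b15_deg E (E + ep a + ep k) v hv F hF (fun i => i = a ∨ i = k) (fun i hi => by
        rw [not_or] at hi
        simp [ep, hi.1, hi.2]) b c hbc with ⟨i, hi, hi2⟩ | h0
      · rcases hi with hi | hi
        · left; rw [hi2, hi]
        · right; left; rw [hi2, hi]
      · right; right; exact h0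
    · rw [if_neg hF, if_neg hF, if_neg hF]
      simp
  · intro a
    rw [b15_rd q x μ E a a hv, b15_dr q x μ E a a hv]
    have e1 : (E + ep a) a = E a + 1 := by simp [ep]
    rw [e1]
    apply b00_ext
    intro F
    rw [b13_smulK, b00_sl_tr, b00_sl_tr]
    by_cases hF : Il (E + ep a + ep a) F
    · rw [if_pos hF, if_pos hF]
      have key := h μ v hV F (b00_Il_strict' hF) (zq q (E a)) (zq q (E a + 1)) (b10_zq_ne q hq0 _) (b10_zq_ne q hq0 _)
        (fun b c hbc => by
          rcases b15_deg E (E + ep a + ep a) v hv F hF (fun i => i = a) (fun i hi => by simp [ep, hi]) b c hbc with ⟨i, hi, hi2⟩ | h0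
          · left; rw [hi2, hi]
          · right; right; exact h0)
      have hz := b10_zq_ne q hq0 (E a)
      have hq1 : q - 1 ≠ 0 := sub_ne_zero.2 (by have := hq 1 one_pos; rwa [pow_one] at this)
      rw [b10_zq_succ q hq0] at key ⊢
      have e2 : q⁻¹ * (q * zq q (E a)) - zq q (E a) = 0 := by
        field_simp
        ring
      have e3 : q * zq q (E a) - zq q (E a) = (q - 1) * zq q (E a) := by ring
      have e4 : (1 - q⁻¹) * zq q (E a) = ((q - 1) * zq q (E a)) * q⁻¹ := by
        field_simp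
      rw [e2, zero_smul, zero_add, e3, e4, mul_smul _ q⁻¹] at key
      exact (smul_right_injective _ (mul_ne_zero hq1 hz)) key
    · rw [if_neg hF, if_neg hF, smul_zero]

/-- The relation (R) for all levels. -/
theorem b15 (q : K) (hq0 : q ≠ 0) (hq : ∀ j : ℕ, 0 < j → q ^ j ≠ 1) (x : ℕ → R) (n : ℕ) : RelR (R := R) q x n := by
  induction n with
  | zero => exact fun μ E v _ => ⟨fun a => a.elim0, fun a => a.elim0⟩
  | succ n ih =>
    refine b15_relR q hq0 hq x n (fun μ => ?_)
    by_cases hμ : μ = n + 1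
    · rw [hμ]; exact b13_top q hq0 x n
    · exact b14_relS q hq0 hq x n μ hμ ih

end H92C
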