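import Pool.Agent.Lib.H92C.B15

/-!
# H92C, module B: iterated relations and the cases of the chain map ρ (PROOF.md, B.4)
-/

open MvPolynomial

namespace H92C

variable {K R : Type} [Field K] [CommRing R] [Algebra K R]

theorem b20_zq_up (q : K) (hq0 : q ≠ 0) (e : ℤ) (r : ℕ) : zq q (e + r) = q ^ r * zq q e := by
  rw [b10_zq_add q hq0, mul_comm]
  congr 1
  exact zpow_natCast q r

/-- ρ_p and δ_p^r. -/
theorem b20_same (q : K) (hq0 : q ≠ 0) (hq : ∀ j : ℕ, 0 < j → q ^ j ≠ 1) (x : ℕ → R) (μ : ℕ) {n : ℕ} (E : Fin n → ℤ) (p : Fin n)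
    (r : ℕ) {v : W R n} (hv : v ∈ U R n E) :
    ro q μ (E + up p r) p (dd (zq q) x E p r v) = (q⁻¹) ^ r • dd (zq q) x (E + ep p) p r (ro q μ E p v) := by
  induction r with
  | zero => simp [b02_up_zero, dd]
  | succ r ih =>
    have h1 := (b15 q hq0 hq x n μ (E + up p r) _ (b02_dd_mem (zq q) x E p r hv)).2 p
    rw [b02_up_succ, ← add_assoc, b02_dd_succ, h1, ih, b13_smulK, smul_smul, b02_dd_succ, add_right_comm E (up p r) (ep p), pow_succ']

/-- ρ_k and δ_p^r, k ≠ p. -/
theorem b20_ne (q : K) (hq0 : q ≠ 0) (hq : ∀ j : ℕ, 0 < j → q ^ j ≠ 1) (x : ℕ → R) (μ : ℕ) {n : ℕ} (E : Fin n → ℤ) (p k : Fin n)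
    (hpk : p ≠ k) (r : ℕ) (hr : ∀ i < r, zq q (E k) - q ^ i * zq q (E p) ≠ 0) {v : W R n} (hv : v ∈ U R n E) :
    (zq q (E k) - zq q (E p)) • ro q μ (E + up p r) k (dd (zq q) x E p r v) =
      ((q⁻¹) ^ r * (zq q (E k) - q ^ r * zq q (E p))) • dd (zq q) x (E + ep k) p r (ro q μ E k v) +
        ((q⁻¹) ^ r * (q ^ r - 1) * zq q (E p)) • dd (zq q) x (E + ep p + ep k) p (r - 1) (de (zq q) x (E + ep p) k (ro q μ E p v)) := by
  induction r with
  | zero => simp [b02_up_zero, dd]
  | succ r ih =>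
    have ih := ih (fun i hi => hr i (Nat.lt_succ_of_lt hi))
    have hy := b02_dd_mem (zq q) x E p r hv
    have h1 := (b15 q hq0 hq x n μ (E + up p r) _ hy).1 p k hpk
    have e1 : (E + up p r) k = E k := by simp [up, Ne.symm hpk]
    have e2 : (E + up p r) p = E p + r := by simp [up]
    rw [e1, e2, b20_zq_up q hq0] at h1
    have h2 := congrArg (fun m => de (zq q) x (E + up p r + ep k) p m) ih
    simp only [map_add, b13_smulK] at h2
    have h3 : ((q⁻¹) ^ r * (q ^ r - 1) * zq q (E p)) • de (zq q) x (E + up p r + ep k) p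
        (dd (zq q) x (E + ep p + ep k) p (r - 1) (de (zq q) x (E + ep p) k (ro q μ E p v))) =
        ((q⁻¹) ^ r * (q ^ r - 1) * zq q (E p)) • dd (zq q) x (E + ep p + ep k) p r (de (zq q) x (E + ep p) k (ro q μ E p v)) := by
      cases r with
      | zero => simp
      | succ r =>
        have e3 : E + up p (r + 1) + ep k = E + ep p + ep k + up p r := by
          rw [b02_up_succ]; abel
        rw [e3]
        rfl
    rw [h3, show E + up p r + ep k = E + ep k + up p r by abel, ← b02_dd_succ] at h2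
    have h4 := b20_same q hq0 hq x μ E p r hv
    rw [h4, b13_smulK, show E + up p r + ep p = E + ep p + up p r by abel,
      b02_de_dd (zq q) (b10_zq_inj q hq0 hq) x (E + ep p) p k r (b00_ro_mem q μ E p hv), smul_smul] at h1
    have h5 := hr r (Nat.lt_succ_self r)
    have e4 : E + up p (r + 1) = E + ep p + up p r := by rw [b02_up_succ]; abel
    rw [e4, b02_dd_succ]
    apply smul_right_injective (W R n) h5
    change (zq q (E k) - q ^ r * zq q (E p)) • _ = (zq q (E k) - q ^ r * zq q (E p)) • _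
    rw [smul_comm, h1, smul_add, smul_comm (zq q (E k) - zq q (E p)) (q⁻¹ * zq q (E k) - q ^ r * zq q (E p)),
      show E + up p r + ep k = E + ep k + up p r by abel, h2]
    rw [show r + 1 - 1 = r from rfl]
    have hqr : q ^ r ≠ 0 := pow_ne_zero r hq0
    match_scalars
    · rw [inv_pow, inv_pow, pow_succ]
      generalize q ^ r = t at hqr ⊢
      field_simp
    · rw [inv_pow, inv_pow, pow_succ]
      generalize q ^ r = t at hqr ⊢
      field_simp
      ring

end H92C
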