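import Pool.Agent.Lib.H92C.B20

/-!
# H92C, module B: the cases of the chain map ρ in terms of rows (PROOF.md, B.4)
-/

open MvPolynomial

namespace H92C

variable {K R : Type} [Field K] [CommRing R] [Algebra K R]

/-- The component of the chain map ρ at a position which is not i, k (u = z of the omitted entry). -/
def pho (q : K) (x : ℕ → R) (μ : ℕ) {n : ℕ} (E : Fin n → ℤ) (i k : Fin n) (u : K) (v : W R n) : W R n :=
  (zq q (E i) * zq q (E k) / ((zq q (E k) - zq q (E i)) * u)) •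
    ((zq q (E k) - u) • de (zq q) x (E + ep k) i (ro q μ E k v) - (zq q (E i) - u) • de (zq q) x (E + ep i) k (ro q μ E i v))

theorem b21_swap (q : K) (x : ℕ → R) (μ : ℕ) {n : ℕ} (E : Fin n → ℤ) (i k : Fin n) (u : K) (v : W R n) :
    pho q x μ E i k u v = pho q x μ E k i u v := by
  rw [pho, pho, ← neg_sub ((zq q (E i) - u) • de (zq q) x (E + ep i) k (ro q μ E i v)), smul_neg, ← neg_smul]
  congr 1
  rw [← neg_sub (zq q (E k)) (zq q (E i)), neg_mul, div_neg, mul_comm (zq q (E k))]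

theorem b21_mem (q : K) (x : ℕ → R) (μ : ℕ) {n : ℕ} (E : Fin n → ℤ) (i k : Fin n) (u : K) {v : W R n} (hv : v ∈ U R n E) :
    pho q x μ E i k u v ∈ U R n (E + ep i + ep k) := by
  refine b00_smul_U _ _ _ (Submodule.sub_mem _ (b00_smul_U _ _ _ ?_) (b00_smul_U _ _ _ ?_))
  · rw [add_right_comm]
    exact b00_de_mem _ _ _ _ (b00_ro_mem _ _ _ _ hv)
  · exact b00_de_mem _ _ _ _ (b00_ro_mem _ _ _ _ hv)

/-- The relation for δ_i ρ_k δ_l^r, r ≥ 1. -/
theorem b21_aux (q : K) (hq0 : q ≠ 0) (hq : ∀ j : ℕ, 0 < j → q ^ j ≠ 1) (x : ℕ → R) (μ : ℕ) {n : ℕ} (E : Fin n → ℤ) (l i k : Fin n)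
    (hkl : k ≠ l) (r : ℕ) (hrk : ∀ j < r + 1, zq q (E k) - q ^ j * zq q (E l) ≠ 0) {v : W R n} (hv : v ∈ U R n E) :
    (zq q (E k) - zq q (E l)) • de (zq q) x (E + up l (r + 1) + ep k) i (ro q μ (E + up l (r + 1)) k (dd (zq q) x E l (r + 1) v)) =
      ((q⁻¹) ^ (r + 1) * (zq q (E k) - q ^ (r + 1) * zq q (E l))) • dd (zq q) x (E + ep k + ep i) l (r + 1)
        (de (zq q) x (E + ep k) i (ro q μ E k v)) +
      ((q⁻¹) ^ (r + 1) * (q ^ (r + 1) - 1) * zq q (E l)) • dd (zq q) x (E + ep l + ep k + ep i) l r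
        (de (zq q) x (E + ep l + ep k) i (de (zq q) x (E + ep l) k (ro q μ E l v))) := by
  have hk := b20_ne q hq0 hq x μ E l k (Ne.symm hkl) (r + 1) hrk hv
  have hk2 := congrArg (de (zq q) x (E + up l (r + 1) + ep k) i) hk
  simp only [map_add, b13_smulK] at hk2
  rw [hk2]
  congr 1
  · rw [add_right_comm E (up l (r + 1)) (ep k), b02_de_dd (zq q) (b10_zq_inj q hq0 hq) x (E + ep k) l i (r + 1) (b00_ro_mem q μ E k hv)]
  · have e1 : E + up l (r + 1) + ep k = E + ep l + ep k + up l r := by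
      rw [b02_up_succ]; abel
    rw [e1, show r + 1 - 1 = r from rfl, b02_de_dd (zq q) (b10_zq_inj q hq0 hq) x (E + ep l + ep k) l i r
      (b00_de_mem _ _ _ _ (b00_ro_mem q μ E l hv))]

/-- Case 1: the positions i, k and l are different. -/
theorem b21_case1 (q : K) (hq0 : q ≠ 0) (hq : ∀ j : ℕ, 0 < j → q ^ j ≠ 1) (x : ℕ → R) (μ : ℕ) {n : ℕ} (E : Fin n → ℤ) (l i k : Fin n)
    (hil : i ≠ l) (hkl : k ≠ l) (r : ℕ) (hri : ∀ j < r, zq q (E i) - q ^ j * zq q (E l) ≠ 0)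
    (hrk : ∀ j < r, zq q (E k) - q ^ j * zq q (E l) ≠ 0) {v : W R n} (hv : v ∈ U R n E) :
    pho q x μ (E + up l r) i k (zq q (E l)) (dd (zq q) x E l r v) =
      dd (zq q) x (E + ep i + ep k) l r (pho q x μ E i k (q ^ r * zq q (E l)) v) := by
  cases r with
  | zero => simp [b02_up_zero, dd]
  | succ r =>
    have hk := b21_aux q hq0 hq x μ E l i k hkl r hrk hv
    have hi := b21_aux q hq0 hq x μ E l k i hil r hri hv
    have e1 : (E + up l (r + 1)) i = E i := by simp [up, hil]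
    have e2 : (E + up l (r + 1)) k = E k := by simp [up, hkl]
    rw [pho, pho, e1, e2, hk, hi, b01_de_de (zq q) (b10_zq_inj q hq0 hq) x (E + ep l) i k (b00_ro_mem q μ E l hv),
      add_right_comm (E + ep l) (ep k) (ep i), add_right_comm E (ep k) (ep i), b13_smulK, map_sub, b13_smulK, b13_smulK,
      add_sub_add_right_eq_sub]
    have hqr : q ^ (r + 1) ≠ 0 := pow_ne_zero (r + 1) hq0
    have hwl := b10_zq_ne q hq0 (E l)
    rw [inv_pow]
    generalize q ^ (r + 1) = t at hqr ⊢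
    by_cases hki : zq q (E k) - zq q (E i) = 0
    · simp [hki]
    · match_scalars
      · field_simp
      · field_simp

/-- Case 2: the position i is the omitted one before the boundary. -/
theorem b21_case2 (q : K) (hq0 : q ≠ 0) (hq : ∀ j : ℕ, 0 < j → q ^ j ≠ 1) (x : ℕ → R) (μ : ℕ) {n : ℕ} (E : Fin n → ℤ) (l k : Fin n)
    (hkl : k ≠ l) (r : ℕ) (hr1 : 1 ≤ r) (hrk : ∀ j ≤ r, zq q (E k) - q ^ j * zq q (E l) ≠ 0) {v : W R n} (hv : v ∈ U R n E) :
    pho q x μ (E + up l r) l k (zq q (E l)) (dd (zq q) x E l r v) =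
      dd (zq q) x (E + ep k) l (r + 1) (zq q (E k) • ro q μ E k v) := by
  obtain ⟨r, rfl⟩ : ∃ r', r = r' + 1 := ⟨r - 1, by omega⟩
  have hk := b21_aux q hq0 hq x μ E l l k hkl r (fun j hj => hrk j (by omega)) hv
  have hl := b20_same q hq0 hq x μ E l (r + 1) hv
  have e1 : (E + up l (r + 1)) l = E l + (r + 1 : ℕ) := by simp [up]
  have e2 : (E + up l (r + 1)) k = E k := by simp [up, hkl]
  have h1 := hrk (r + 1) le_rfl
  have h3 : de (zq q) x (E + up l (r + 1) + ep l) k (dd (zq q) x (E + ep l) l (r + 1) (ro q μ E l v)) =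
      dd (zq q) x (E + ep l + ep k + ep l) l r (de (zq q) x (E + ep l + ep k) l (de (zq q) x (E + ep l) k (ro q μ E l v))) := by
    rw [← b02_dd_succ', add_right_comm E (up l (r + 1)) (ep l)]
    exact b02_de_dd (zq q) (b10_zq_inj q hq0 hq) x (E + ep l) l k (r + 1) (b00_ro_mem q μ E l hv)
  have h4 : dd (zq q) x (E + ep k) l (r + 1 + 1) (ro q μ E k v) =
      dd (zq q) x (E + ep k + ep l) l (r + 1) (de (zq q) x (E + ep k) l (ro q μ E k v)) := b02_dd_succ' _ _ _ _ _ _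
  rw [pho, e1, e2, hk, hl, b13_smulK, h3, b13_smulK, h4, b20_zq_up q hq0]
  have hqr : q ^ (r + 1) ≠ 0 := pow_ne_zero (r + 1) hq0
  have hwl := b10_zq_ne q hq0 (E l)
  rw [inv_pow]
  generalize q ^ (r + 1) = t at hqr h1 ⊢
  match_scalars
  · field_simp
  · field_simp
    ring

/-- Case 3: the position i is the omitted one after the boundary. -/
theorem b21_case3 (q : K) (hq0 : q ≠ 0) (hq : ∀ j : ℕ, 0 < j → q ^ j ≠ 1) (x : ℕ → R) (μ : ℕ) {n : ℕ} (E : Fin n → ℤ) (l k : Fin n)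
    (hkl : k ≠ l) (r : ℕ) (hr1 : 1 ≤ r) (hrk : ∀ j < r, zq q (E k) - q ^ j * zq q (E l) ≠ 0) {v : W R n} (hv : v ∈ U R n E) :
    zq q (E k) • ro q μ (E + up l r) k (dd (zq q) x E l r v) =
      dd (zq q) x (E + ep l + ep k) l (r - 1) (pho q x μ E l k (q ^ r * zq q (E l)) v) := by
  obtain ⟨r, rfl⟩ : ∃ r', r = r' + 1 := ⟨r - 1, by omega⟩
  have hk := b20_ne q hq0 hq x μ E l k (Ne.symm hkl) (r + 1) hrk hv
  have h0 := hrk 0 (by omega)
  rw [pow_zero, one_mul] at h0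
  have h4 : dd (zq q) x (E + ep k) l (r + 1) (ro q μ E k v) =
      dd (zq q) x (E + ep k + ep l) l r (de (zq q) x (E + ep k) l (ro q μ E k v)) := b02_dd_succ' _ _ _ _ _ _
  rw [show r + 1 - 1 = r from rfl, h4, add_right_comm E (ep k) (ep l)] at hk
  rw [show r + 1 - 1 = r from rfl, pho, b13_smulK, map_sub, b13_smulK, b13_smulK]
  have hqr : q ^ (r + 1) ≠ 0 := pow_ne_zero (r + 1) hq0
  have hwl := b10_zq_ne q hq0 (E l)
  apply smul_right_injective (W R n) h0
  change (zq q (E k) - zq q (E l)) • _ = (zq q (E k) - zq q (E l)) • _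
  rw [smul_comm, hk, inv_pow]
  generalize q ^ (r + 1) = t at hqr ⊢
  match_scalars
  · field_simp
  · field_simp
    ring

/-- Case 4: the positions i, k are the omitted ones. -/
theorem b21_case4 (q : K) (hq0 : q ≠ 0) (hq : ∀ j : ℕ, 0 < j → q ^ j ≠ 1) (x : ℕ → R) (μ : ℕ) {n : ℕ} (E : Fin n → ℤ) (l : Fin n)
    (r : ℕ) {v : W R n} (hv : v ∈ U R n E) :
    (q ^ r * zq q (E l)) • ro q μ (E + up l r) l (dd (zq q) x E l r v) =
      dd (zq q) x (E + ep l) l r (zq q (E l) • ro q μ E l v) := by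
  rw [b20_same q hq0 hq x μ E l r hv, b13_smulK, smul_smul]
  congr 1
  have hqr : q ^ r ≠ 0 := pow_ne_zero r hq0
  rw [inv_pow]
  field_simp

end H92C
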