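import Pool.Agent.Lib.H92C.B21

/-!
# H92C, module B: the chain map ρ commutes with the boundary (PROOF.md, B.4)
-/

open MvPolynomial

namespace H92C

variable {K R : Type} [Field K] [CommRing R] [Algebra K R]

/-- The chain map of degree 1 from F_G to F_{G + ε_i + ε_k} given by the operators ρ (times z(G_k) at the position i). -/
def ph (q : K) (x : ℕ → R) (μ : ℕ) {N : ℕ} (G : Fin (N + 1) → ℤ) (i k j : Fin (N + 1)) : W R N →ₗ[R] W R N :=
  if j = i then zq q (G k) • (tr N (dl (G + ep i + ep k) j) ∘ₗ PR q μ N (zq q (G k)))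
  else if j = k then zq q (G i) • (tr N (dl (G + ep i + ep k) j) ∘ₗ PR q μ N (zq q (G i)))
  else (zq q (G i) * zq q (G k) / ((zq q (G k) - zq q (G i)) * zq q (G j))) •
    (tr N (dl (G + ep i + ep k) j) ∘ₗ
      ((zq q (G k) - zq q (G j)) • (XX (zq q) x N (zq q (G i)) ∘ₗ PR q μ N (zq q (G k))) -
        (zq q (G i) - zq q (G j)) • (XX (zq q) x N (zq q (G k)) ∘ₗ PR q μ N (zq q (G i)))))

variable {N : ℕ}

theorem b22_swap (q : K) (x : ℕ → R) (μ : ℕ) (G : Fin (N + 1) → ℤ) (i k j : Fin (N + 1)) (hik : i ≠ k) :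
    ph q x μ G i k j = ph q x μ G k i j := by
  rw [ph, ph, add_right_comm G (ep k) (ep i)]
  by_cases hi : j = i
  · have hk : j ≠ k := fun h => hik (hi.symm.trans h)
    rw [if_pos hi, if_neg hk, if_pos hi]
  · by_cases hk : j = k
    · rw [if_neg hi, if_pos hk, if_pos hk]
    · rw [if_neg hi, if_neg hk, if_neg hk, if_neg hi]
      rw [← neg_sub ((zq q (G i) - zq q (G j)) • (XX (zq q) x N (zq q (G k)) ∘ₗ PR q μ N (zq q (G i)))),
        LinearMap.comp_neg, smul_neg, ← neg_smul]
      congr 1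
      rw [← neg_sub (zq q (G k)) (zq q (G i)), neg_mul, div_neg, mul_comm (zq q (G k))]

/-- The component at the position i. -/
theorem b22_at (q : K) (x : ℕ → R) (μ : ℕ) (G : Fin (N + 1) → ℤ) (i k : Fin (N + 1)) (k' : Fin N) (hk : i.succAbove k' = k)
    (v : W R N) : ph q x μ G i k i v = zq q (G k) • ro q μ (dl G i) k' v := by
  have h1 : dl G i k' = G k := by rw [dl, hk]
  rw [ph, if_pos rfl, LinearMap.smul_apply, ro, b02_dl_ep (G + ep i) i k k' hk, b02_dl_ep_self, h1]

/-- The component at another position. -/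
theorem b22_other (q : K) (x : ℕ → R) (μ : ℕ) (G : Fin (N + 1) → ℤ) (i k j : Fin (N + 1)) (hik : i ≠ k) (i' k' : Fin N)
    (hi : j.succAbove i' = i) (hk : j.succAbove k' = k) {v : W R N} (hv : v ∈ U R N (dl G j)) :
    ph q x μ G i k j v = pho q x μ (dl G j) i' k' (zq q (G j)) v := by
  have h1 : dl G j i' = G i := by rw [dl, hi]
  have h2 : dl G j k' = G k := by rw [dl, hk]
  have h3 : j ≠ i := by rw [← hi]; exact (Fin.succAbove_ne j i').symm
  have h4 : j ≠ k := by rw [← hk]; exact (Fin.succAbove_ne j k').symm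
  have h5 : i' ≠ k' := by rintro rfl; exact hik (hi.symm.trans hk)
  have h6 : (dl G j + ep k') i' = G i := by rw [← h1]; simp [ep, h5]
  have h7 : (dl G j + ep i') k' = G k := by rw [← h2]; simp [ep, Ne.symm h5]
  rw [ph, if_neg h3, if_neg h4, pho, h1, h2, LinearMap.smul_apply, b15_dr q x μ (dl G j) k' i' hv, b15_dr q x μ (dl G j) i' k' hv,
    h1, h2, h6, h7, add_right_comm (dl G j) (ep k') (ep i'), b02_dl_ep (G + ep i) j k k' hk, b02_dl_ep G j i i' hi]
  simp only [LinearMap.comp_apply, LinearMap.sub_apply, LinearMap.smul_apply, map_sub, b13_smulK]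

/-- The entries which are not changed by the boundary l. -/
theorem b22_ne (q : K) (hq0 : q ≠ 0) (hq : ∀ j : ℕ, 0 < j → q ^ j ≠ 1) (G : Fin (N + 1) → ℤ) (hG : StrictMono G) (l : Fin N)
    (k : Fin (N + 1)) (h1 : k ≠ l.castSucc) (h2 : k ≠ l.succ) (j : ℕ) (hj : j ≤ (G l.succ - G l.castSucc).toNat) :
    zq q (G k) - q ^ j * zq q (G l.castSucc) ≠ 0 := by
  rw [← b20_zq_up q hq0, sub_ne_zero]
  intro h
  have h3 := b10_zq_inj q hq0 hq h
  have h4 : G l.castSucc < G l.succ := hG (by rw [Fin.lt_def]; simp)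
  rcases lt_or_gt_of_ne h1 with h5 | h5
  · have := hG h5
    omega
  · have h6 : l.succ < k := by
      rw [Fin.lt_def] at h5 ⊢
      simp only [Fin.val_castSucc, Fin.val_succ] at h5 ⊢
      rcases Nat.lt_or_ge (l + 1) k with h7 | h7
      · exact h7
      · exfalso
        apply h2
        apply Fin.ext
        simp only [Fin.val_succ]
        omega
    have := hG h6
    omega

section comm

variable (q : K) (hq0 : q ≠ 0) (hq : ∀ j : ℕ, 0 < j → q ^ j ≠ 1) (x : ℕ → R) (μ : ℕ) (G : Fin (N + 1) → ℤ) (hG : StrictMono G)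
  (i k : Fin (N + 1)) (hik : i ≠ k) (hG' : StrictMono (G + ep i + ep k)) (l : Fin N) {v : W R N} (hv : v ∈ U R N (dl G l.succ))

include hq0 hq hG hik hG' hv

theorem b22_comm1 (h1 : i ≠ l.castSucc) (h2 : i ≠ l.succ) (h3 : k ≠ l.castSucc) (h4 : k ≠ l.succ) :
    ph q x μ G i k l.castSucc (bd (zq q) x G l v) = bd (zq q) x (G + ep i + ep k) l (ph q x μ G i k l.succ v) := by
  obtain ⟨i', hi1, hi2, hi3⟩ := b02_index l i h1 h2
  obtain ⟨k', hk1, hk2, hk3⟩ := b02_index l k h3 h4
  have hlt : G l.castSucc < G l.succ := hG (by rw [Fin.lt_def]; simp)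
  have e0 : (G l.succ - G l.castSucc).toNat + G l.castSucc = G l.succ := by omega
  have e1 : (G + ep i + ep k) l.castSucc = G l.castSucc := by simp [ep, h1.symm, h3.symm]
  have e2 : (G + ep i + ep k) l.succ = G l.succ := by simp [ep, h2.symm, h4.symm]
  have e3 : dl (G + ep i + ep k) l.succ = dl G l.succ + ep i' + ep k' := by
    rw [b02_dl_ep _ _ k k' hk3, b02_dl_ep _ _ i i' hi3]
  have e4 : zq q (G l.succ) = q ^ (G l.succ - G l.castSucc).toNat * zq q (dl G l.succ l) := by
    rw [b02_dl_succ_self, ← b20_zq_up q hq0]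
    congr 1
    omega
  have hmem := b21_mem q x μ (dl G l.succ) i' k' (zq q (G l.succ)) hv
  have hbd := b02_dd_mem (zq q) x (dl G l.succ) l (G l.succ - G l.castSucc).toNat hv
  rw [← b02_dl_castSucc G l hlt.le] at hbd
  rw [b02_bd_eq (zq q) x G l hlt.le hv, b22_other q x μ G i k l.succ hik i' k' hi3 hk3 hv,
    b22_other q x μ G i k l.castSucc hik i' k' hi2 hk2 hbd,
    b02_bd_eq (zq q) x (G + ep i + ep k) l (by rw [e1, e2]; exact hlt.le) (by rw [e3]; exact hmem), e1, e2, e3,
    b02_dl_castSucc G l hlt.le, e4, ← b02_dl_succ_self G l]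
  refine b21_case1 q hq0 hq x μ (dl G l.succ) l i' k' hi1 hk1 _ (fun j hj => ?_) (fun j hj => ?_) hv
  · have := b22_ne q hq0 hq G hG l i h1 h2 j (by rw [b02_dl_succ_self] at hj; omega)
    rw [b02_dl_succ_self]
    have h5 : dl G l.succ i' = G i := by rw [dl, hi3]
    rwa [h5]
  · have := b22_ne q hq0 hq G hG l k h3 h4 j (by rw [b02_dl_succ_self] at hj; omega)
    rw [b02_dl_succ_self]
    have h5 : dl G l.succ k' = G k := by rw [dl, hk3]
    rwa [h5]

theorem b22_comm2 (h2 : i = l.succ) (h3 : k ≠ l.castSucc) :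
    ph q x μ G i k l.castSucc (bd (zq q) x G l v) = bd (zq q) x (G + ep i + ep k) l (ph q x μ G i k l.succ v) := by
  subst h2
  have h4 : k ≠ l.succ := hik.symm
  obtain ⟨k', hk1, hk2, hk3⟩ := b02_index l k h3 h4
  have hlt : G l.castSucc < G l.succ := hG (by rw [Fin.lt_def]; simp)
  have hne : l.castSucc ≠ l.succ := ne_of_lt (by rw [Fin.lt_def]; simp)
  have e1 : (G + ep l.succ + ep k) l.castSucc = G l.castSucc := by simp [ep, hne, h3.symm]
  have e2 : (G + ep l.succ + ep k) l.succ = G l.succ + 1 := by simp [ep, h4.symm]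
  have e3 : dl (G + ep l.succ + ep k) l.succ = dl G l.succ + ep k' := by
    rw [b02_dl_ep _ _ k k' hk3, b02_dl_ep_self]
  have e5 : (G l.succ + 1 - G l.castSucc).toNat = (G l.succ - G l.castSucc).toNat + 1 := by omega
  have e6 : dl G l.succ k' = G k := by rw [dl, hk3]
  have hmem : zq q (G k) • ro q μ (dl G l.succ) k' v ∈ U R N (dl G l.succ + ep k') := b00_smul_U _ _ _ (b00_ro_mem q μ _ _ hv)
  have hbd := b02_dd_mem (zq q) x (dl G l.succ) l (G l.succ - G l.castSucc).toNat hv
  rw [← b02_dl_castSucc G l hlt.le] at hbd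
  rw [b02_bd_eq (zq q) x G l hlt.le hv, b22_at q x μ G l.succ k k' hk3,
    b22_other q x μ G l.succ k l.castSucc hik l k' (Fin.succAbove_castSucc_self l) hk2 hbd,
    b02_bd_eq (zq q) x (G + ep l.succ + ep k) l (by rw [e1, e2]; omega) (by rw [e3]; exact hmem), e1, e2, e3, e5,
    b02_dl_castSucc G l hlt.le, ← b02_dl_succ_self G l, ← e6]
  refine b21_case2 q hq0 hq x μ (dl G l.succ) l k' hk1 _ (by rw [b02_dl_succ_self]; omega) (fun j hj => ?_) hv
  have := b22_ne q hq0 hq G hG l k h3 h4 j (by rw [b02_dl_succ_self] at hj; omega)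
  rw [b02_dl_succ_self, e6]
  exact this

theorem b22_comm3 (h2 : i = l.castSucc) (h3 : k ≠ l.succ) :
    ph q x μ G i k l.castSucc (bd (zq q) x G l v) = bd (zq q) x (G + ep i + ep k) l (ph q x μ G i k l.succ v) := by
  subst h2
  have h4 : k ≠ l.castSucc := hik.symm
  obtain ⟨k', hk1, hk2, hk3⟩ := b02_index l k h4 h3
  have hlt : G l.castSucc < G l.succ := hG (by rw [Fin.lt_def]; simp)
  have hne : l.castSucc ≠ l.succ := ne_of_lt (by rw [Fin.lt_def]; simp)
  have e1 : (G + ep l.castSucc + ep k) l.castSucc = G l.castSucc + 1 := by simp [ep, h4.symm]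
  have e2 : (G + ep l.castSucc + ep k) l.succ = G l.succ := by simp [ep, hne.symm, h3.symm]
  have e3 : dl (G + ep l.castSucc + ep k) l.succ = dl G l.succ + ep l + ep k' := by
    rw [b02_dl_ep _ _ k k' hk3, b02_dl_ep _ _ l.castSucc l (Fin.succAbove_succ_self l)]
  have e4 : zq q (G l.succ) = q ^ (G l.succ - G l.castSucc).toNat * zq q (dl G l.succ l) := by
    rw [b02_dl_succ_self, ← b20_zq_up q hq0]
    congr 1
    omega
  have e5 : (G l.succ - (G l.castSucc + 1)).toNat = (G l.succ - G l.castSucc).toNat - 1 := by omega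
  have e6 : dl G l.succ k' = G k := by rw [dl, hk3]
  have hmem := b21_mem q x μ (dl G l.succ) l k' (zq q (G l.succ)) hv
  rw [b02_bd_eq (zq q) x G l hlt.le hv, b22_at q x μ G l.castSucc k k' hk2,
    b22_other q x μ G l.castSucc k l.succ hik l k' (Fin.succAbove_succ_self l) hk3 hv,
    b02_bd_eq (zq q) x (G + ep l.castSucc + ep k) l (by rw [e1, e2]; omega) (by rw [e3]; exact hmem), e1, e2, e3, e5,
    b02_dl_castSucc G l hlt.le, e4, ← e6]
  have key := b21_case3 q hq0 hq x μ (dl G l.succ) l k' hk1 (G l.succ - G l.castSucc).toNat (by omega) (fun j hj => ?_) hv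
  · exact key
  · have := b22_ne q hq0 hq G hG l k h4 h3 j (by omega)
    rw [b02_dl_succ_self, e6]
    exact this

theorem b22_comm4 (h2 : i = l.castSucc) (h3 : k = l.succ) :
    ph q x μ G i k l.castSucc (bd (zq q) x G l v) = bd (zq q) x (G + ep i + ep k) l (ph q x μ G i k l.succ v) := by
  subst h2 h3
  have hlt : G l.castSucc < G l.succ := hG (by rw [Fin.lt_def]; simp)
  have hne : l.castSucc ≠ l.succ := ne_of_lt (by rw [Fin.lt_def]; simp)
  have e1 : (G + ep l.castSucc + ep l.succ) l.castSucc = G l.castSucc + 1 := by simp [ep, hne]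
  have e2 : (G + ep l.castSucc + ep l.succ) l.succ = G l.succ + 1 := by simp [ep, hne.symm]
  have e3 : dl (G + ep l.castSucc + ep l.succ) l.succ = dl G l.succ + ep l := by
    rw [b02_dl_ep_self, b02_dl_ep _ _ l.castSucc l (Fin.succAbove_succ_self l)]
  have e4 : zq q (G l.succ) = q ^ (G l.succ - G l.castSucc).toNat * zq q (dl G l.succ l) := by
    rw [b02_dl_succ_self, ← b20_zq_up q hq0]
    congr 1
    omega
  have e5 : (G l.succ + 1 - (G l.castSucc + 1)).toNat = (G l.succ - G l.castSucc).toNat := by omega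
  have hmem : zq q (G l.castSucc) • ro q μ (dl G l.succ) l v ∈ U R N (dl G l.succ + ep l) := b00_smul_U _ _ _ (b00_ro_mem q μ _ _ hv)
  rw [b22_swap q x μ G l.castSucc l.succ l.succ hne, b22_at q x μ G l.succ l.castSucc l (Fin.succAbove_succ_self l),
    b02_bd_eq (zq q) x G l hlt.le hv, b22_at q x μ G l.castSucc l.succ l (Fin.succAbove_castSucc_self l),
    b02_bd_eq (zq q) x (G + ep l.castSucc + ep l.succ) l (by rw [e1, e2]; omega) (by rw [e3]; exact hmem), e1, e2, e3, e5,
    b02_dl_castSucc G l hlt.le, e4]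
  have key := b21_case4 q hq0 hq x μ (dl G l.succ) l (G l.succ - G l.castSucc).toNat hv
  rw [← b02_dl_succ_self G l] at key ⊢
  exact key

end comm

/-- The chain map ρ commutes with the boundary. -/
theorem b22_comm (q : K) (hq0 : q ≠ 0) (hq : ∀ j : ℕ, 0 < j → q ^ j ≠ 1) (x : ℕ → R) (μ : ℕ) (G : Fin (N + 1) → ℤ) (hG : StrictMono G)
    (i k : Fin (N + 1)) (hik : i ≠ k) (hG' : StrictMono (G + ep i + ep k)) (l : Fin N) {v : W R N} (hv : v ∈ U R N (dl G l.succ)) :
    ph q x μ G i k l.castSucc (bd (zq q) x G l v) = bd (zq q) x (G + ep i + ep k) l (ph q x μ G i k l.succ v) := by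
  have hsw : ∀ j, ph q x μ G i k j = ph q x μ G k i j := fun j => b22_swap q x μ G i k j hik
  have hG2 : StrictMono (G + ep k + ep i) := by rwa [add_right_comm]
  by_cases h1 : i = l.castSucc
  · by_cases h2 : k = l.succ
    · exact b22_comm4 q hq0 hq x μ G hG i k hik hG' l hv h1 h2
    · exact b22_comm3 q hq0 hq x μ G hG i k hik hG' l hv h1 h2
  · by_cases h2 : i = l.succ
    · by_cases h3 : k = l.castSucc
      · rw [hsw, hsw, add_right_comm G (ep i) (ep k)]
        exact b22_comm4 q hq0 hq x μ G hG k i hik.symm hG2 l hv h3 h2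
      · exact b22_comm2 q hq0 hq x μ G hG i k hik hG' l hv h2 h3
    · by_cases h3 : k = l.castSucc
      · rw [hsw, hsw, add_right_comm G (ep i) (ep k)]
        exact b22_comm3 q hq0 hq x μ G hG k i hik.symm hG2 l hv h3 h2
      · by_cases h4 : k = l.succ
        · rw [hsw, hsw, add_right_comm G (ep i) (ep k)]
          exact b22_comm2 q hq0 hq x μ G hG k i hik.symm hG2 l hv h4 h1
        · exact b22_comm1 q hq0 hq x μ G hG i k hik hG' l hv h1 h2 h3 h4

end H92C
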