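import Pool.Agent.Lib.H92C.B22
import Pool.Agent.Lib.H92C.A17

/-!
# H92C, module B: chain maps of any degree; the chain maps of the identity and of λ (PROOF.md, B.4)
-/

open MvPolynomial

namespace H92C

variable {K R : Type} [Field K] [CommRing R] [Algebra K R] {N : ℕ}

/-- A chain map of degree sh from F_D to F_D'. -/
structure CMs {K : Type} [Field K] (z : ℤ → K) {N : ℕ} (sh : ℤ) (D D' : Fin (N + 1) → ℤ)
    (φ : Fin (N + 1) → (W (MvPolynomial (Fin N) K) N →ₗ[MvPolynomial (Fin N) K] W (MvPolynomial (Fin N) K) N)) : Prop where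
  maps : ∀ p, ∀ v ∈ U (MvPolynomial (Fin N) K) N (dl D p), φ p v ∈ U (MvPolynomial (Fin N) K) N (dl D' p)
  comm : ∀ i : Fin N, ∀ v ∈ U (MvPolynomial (Fin N) K) N (dl D i.succ),
    φ i.castSucc (bd z (xs N K) D i v) = bd z (xs N K) D' i (φ i.succ v)
  hom : ∀ p, ∀ v ∈ U (MvPolynomial (Fin N) K) N (dl D p), ∀ j : ℤ, Hg j v → Hg (j + D p + sh - D' p) (φ p v)

theorem CMs.toCM {z : ℤ → K} {D D' : Fin (N + 1) → ℤ}
    {φ : Fin (N + 1) → (W (MvPolynomial (Fin N) K) N →ₗ[MvPolynomial (Fin N) K] W (MvPolynomial (Fin N) K) N)}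
    (h : CMs z 1 D D' φ) : CM z D D' φ := ⟨h.maps, h.comm, h.hom⟩

theorem CMs.comp {z : ℤ → K} {sh sh' : ℤ} {D D' D'' : Fin (N + 1) → ℤ}
    {φ ψ : Fin (N + 1) → (W (MvPolynomial (Fin N) K) N →ₗ[MvPolynomial (Fin N) K] W (MvPolynomial (Fin N) K) N)}
    (hφ : CMs z sh D D' φ) (hψ : CMs z sh' D' D'' ψ) : CMs z (sh + sh') D D'' (fun p => ψ p ∘ₗ φ p) := by
  refine ⟨fun p v hv => hψ.maps p _ (hφ.maps p v hv), fun i v hv => ?_, fun p v hv j hj => ?_⟩
  · rw [LinearMap.comp_apply, LinearMap.comp_apply, hφ.comm i v hv, hψ.comm i _ (hφ.maps _ v hv)]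
  · have h1 := hψ.hom p _ (hφ.maps p v hv) _ (hφ.hom p v hv j hj)
    have e : j + D p + sh - D' p + D' p + sh' - D'' p = j + D p + (sh + sh') - D'' p := by ring
    rw [e] at h1
    exact h1

theorem b23_bd_maps (z : ℤ → K) (x : ℕ → R) (D : Fin (N + 1) → ℤ) (i : Fin N) {v : W R N} (hv : v ∈ U R N (dl D i.succ)) :
    bd z x D i v ∈ U R N (dl D i.castSucc) :=
  b00_tr_mem _ _ (b02_QQ_Vv z x N _ _ (b00_U_le_Vv _ _ hv))

theorem b23_Hg_smul {n : ℕ} (t : ℤ) (k : K) {v : W (MvPolynomial (Fin N) K) n} (hv : Hg t v) : Hg t (k • v) :=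
  fun c => (a17_gr (K := K) (B := K) N).smul k t (v c) (hv c)

theorem b23_Hg_tr {n : ℕ} (E : Fin n → ℤ) (t : ℤ) {v : W (MvPolynomial (Fin N) K) n} (hv : Hg t v) : Hg t (tr n E v) :=
  a08_tr (hm N K t).toAddSubgroup n E v hv

theorem b23_Hg_XX (z : ℤ → K) {n : ℕ} (s : K) (t : ℤ) {v : W (MvPolynomial (Fin N) K) n} (hv : Hg t v) :
    Hg (t + 1) (XX z (xs N K) n s v) :=
  a08_XX z (xs N K) _ (a17_gr N) n s t v hv

theorem b23_Hg_PR (q : K) (μ : ℕ) (n : ℕ) : ∀ (s : K) (t : ℤ) (v : W (MvPolynomial (Fin N) K) n), Hg t v → Hg t (PR q μ n s v) := by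
  induction n with
  | zero => intro s t v _ c; exact (hm N K t).zero_mem
  | succ n ih =>
    intro s t v hv c
    have h1 : (PR q μ (n + 1) s v) c = sl c.1 (PR q μ (n + 1) s v) c.2 := rfl
    rw [h1]
    by_cases hμ : μ = n + 1
    · subst hμ
      rw [b00_sl_PR_top]
      exact b23_Hg_smul t _ (v := sl c.1 v) (fun d => hv (c.1, d)) c.2
    · rw [b00_sl_PR q μ hμ, Finset.sum_apply]
      refine Submodule.sum_mem _ fun b _ => ?_
      exact b23_Hg_smul t _ (b23_Hg_tr _ t (ih _ t _ (fun d => hv (c.1 - ep b, d)))) c.2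

theorem b23_Hg_sub {n : ℕ} (t : ℤ) {v w : W (MvPolynomial (Fin N) K) n} (hv : Hg t v) (hw : Hg t w) : Hg t (v - w) :=
  fun c => (hm N K t).sub_mem (hv c) (hw c)

theorem CMs.smul {z : ℤ → K} {sh : ℤ} {D D' : Fin (N + 1) → ℤ}
    {φ : Fin (N + 1) → (W (MvPolynomial (Fin N) K) N →ₗ[MvPolynomial (Fin N) K] W (MvPolynomial (Fin N) K) N)}
    (h : CMs z sh D D' φ) (c : K) : CMs z sh D D' (fun p => c • φ p) := by
  refine ⟨fun p v hv => ?_, fun i v hv => ?_, fun p v hv j hj => ?_⟩
  · rw [LinearMap.smul_apply]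
    exact b00_smul_U _ _ _ (h.maps p v hv)
  · rw [LinearMap.smul_apply, LinearMap.smul_apply, h.comm i v hv, b13_smulK]
  · rw [LinearMap.smul_apply]
    exact b23_Hg_smul _ _ (h.hom p v hv j hj)

/-- The chain map of the operators ρ. -/
theorem b23_rho (q : K) (hq0 : q ≠ 0) (hq : ∀ j : ℕ, 0 < j → q ^ j ≠ 1) (μ : ℕ) (G : Fin (N + 1) → ℤ) (hG : StrictMono G)
    (i k : Fin (N + 1)) (hik : i ≠ k) (hG' : StrictMono (G + ep i + ep k)) :
    CMs (zq q) 1 G (G + ep i + ep k) (fun j => ph q (xs N K) μ G i k j) := by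
  refine ⟨fun j v hv => ?_, fun l v hv => b22_comm q hq0 hq (xs N K) μ G hG i k hik hG' l hv, fun j v hv t ht => ?_⟩
  · have hV := b00_U_le_Vv N _ hv
    have hP : ∀ s : K, PR q μ N s v ∈ Vv (MvPolynomial (Fin N) K) N := fun s => b00_PR_Vv q μ N s v hV
    change ph q (xs N K) μ G i k j v ∈ _
    rw [ph]
    by_cases hi : j = i
    · rw [if_pos hi, LinearMap.smul_apply, LinearMap.comp_apply]
      exact b00_smul_U _ _ _ (b00_tr_mem _ _ (hP _))
    · by_cases hk : j = k
      · rw [if_neg hi, if_pos hk, LinearMap.smul_apply, LinearMap.comp_apply]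
        exact b00_smul_U _ _ _ (b00_tr_mem _ _ (hP _))
      · rw [if_neg hi, if_neg hk, LinearMap.smul_apply, LinearMap.comp_apply, LinearMap.sub_apply, LinearMap.smul_apply,
          LinearMap.smul_apply, LinearMap.comp_apply, LinearMap.comp_apply]
        refine b00_smul_U _ _ _ (b00_tr_mem _ _ ?_)
        exact Submodule.sub_mem _ (b00_smul_Vv _ _ (b00_XX_Vv _ _ _ _ _ (hP _))) (b00_smul_Vv _ _ (b00_XX_Vv _ _ _ _ _ (hP _)))
  · change Hg _ (ph q (xs N K) μ G i k j v)
    rw [ph]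
    by_cases hi : j = i
    · rw [if_pos hi]
      have e : t + G j + 1 - (G + ep i + ep k) j = t := by
        rw [hi]; simp [ep, hik]
      rw [e, LinearMap.smul_apply, LinearMap.comp_apply]
      exact b23_Hg_smul _ _ (b23_Hg_tr _ _ (b23_Hg_PR _ _ _ _ _ _ ht))
    · by_cases hk : j = k
      · rw [if_neg hi, if_pos hk]
        have e : t + G j + 1 - (G + ep i + ep k) j = t := by
          rw [hk]; simp [ep, hik.symm]
        rw [e, LinearMap.smul_apply, LinearMap.comp_apply]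
        exact b23_Hg_smul _ _ (b23_Hg_tr _ _ (b23_Hg_PR _ _ _ _ _ _ ht))
      · rw [if_neg hi, if_neg hk]
        have e : t + G j + 1 - (G + ep i + ep k) j = t + 1 := by
          simp [ep, hi, hk]; ring
        rw [e, LinearMap.smul_apply, LinearMap.comp_apply, LinearMap.sub_apply, LinearMap.smul_apply,
          LinearMap.smul_apply, LinearMap.comp_apply, LinearMap.comp_apply]
        refine b23_Hg_smul _ _ (b23_Hg_tr _ _ ?_)
        exact b23_Hg_sub _ (b23_Hg_smul _ _ (b23_Hg_XX _ _ _ (b23_Hg_PR _ _ _ _ _ _ ht)))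
          (b23_Hg_smul _ _ (b23_Hg_XX _ _ _ (b23_Hg_PR _ _ _ _ _ _ ht)))

/-- The chain map of degree 1 from F_G to F_{G + ε_p} with the identity at the position p. -/
def dI (z : ℤ → K) (x : ℕ → R) (G : Fin (N + 1) → ℤ) (p j : Fin (N + 1)) : W R N →ₗ[R] W R N :=
  if j = p then LinearMap.id else tr N (dl (G + ep p) j) ∘ₗ XX z x N (z (G p))

/-- The chain map of degree 0 from F_G to F_{G - ε_k} given by truncations. -/
def la (z : ℤ → K) (x : ℕ → R) (G : Fin (N + 1) → ℤ) (k j : Fin (N + 1)) : W R N →ₗ[R] W R N :=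
  if j = k then tr N (dl G k) ∘ₗ XX z x N (z (G k - 1)) else tr N (dl (G - ep k) j)

theorem b23_dI_other (z : ℤ → K) (x : ℕ → R) (G : Fin (N + 1) → ℤ) (p j : Fin (N + 1)) (p' : Fin N) (hp : j.succAbove p' = p)
    (v : W R N) : dI z x G p j v = de z x (dl G j) p' v := by
  have h3 : j ≠ p := by rw [← hp]; exact (Fin.succAbove_ne j p').symm
  have h1 : dl G j p' = G p := by rw [dl, hp]
  rw [dI, if_neg h3, de, h1, b02_dl_ep G j p p' hp]

theorem b23_dI_comm (z : ℤ → K) (hz : Function.Injective z) (x : ℕ → R) (G : Fin (N + 1) → ℤ) (hG : StrictMono G)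
    (p : Fin (N + 1)) (l : Fin N) {v : W R N} (hv : v ∈ U R N (dl G l.succ)) :
    dI z x G p l.castSucc (bd z x G l v) = bd z x (G + ep p) l (dI z x G p l.succ v) := by
  have hlt : G l.castSucc < G l.succ := hG (by rw [Fin.lt_def]; simp)
  have hne : l.castSucc ≠ l.succ := ne_of_lt (by rw [Fin.lt_def]; simp)
  rw [b02_bd_eq z x G l hlt.le hv]
  by_cases h1 : p = l.castSucc
  · subst h1
    have e1 : (G + ep l.castSucc) l.castSucc = G l.castSucc + 1 := by simp [ep]
    have e2 : (G + ep l.castSucc) l.succ = G l.succ := by simp [ep, hne.symm]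
    have e3 : dl (G + ep l.castSucc) l.succ = dl G l.succ + ep l := b02_dl_ep G l.succ l.castSucc l (Fin.succAbove_succ_self l)
    have e4 : (G l.succ - G l.castSucc).toNat = (G l.succ - (G l.castSucc + 1)).toNat + 1 := by omega
    have hmem := b00_de_mem z x (dl G l.succ) l hv
    rw [b23_dI_other z x G l.castSucc l.succ l (Fin.succAbove_succ_self l), dI, if_pos rfl, LinearMap.id_apply,
      b02_bd_eq z x (G + ep l.castSucc) l (by rw [e1, e2]; omega) (by rw [e3]; exact hmem), e1, e2, e3, e4, b02_dd_succ']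
  · by_cases h2 : p = l.succ
    · subst h2
      have e1 : (G + ep l.succ) l.castSucc = G l.castSucc := by simp [ep, hne]
      have e2 : (G + ep l.succ) l.succ = G l.succ + 1 := by simp [ep]
      have e3 : dl (G + ep l.succ) l.succ = dl G l.succ := b02_dl_ep_self G l.succ
      have e4 : (G l.succ + 1 - G l.castSucc).toNat = (G l.succ - G l.castSucc).toNat + 1 := by omega
      rw [b23_dI_other z x G l.succ l.castSucc l (Fin.succAbove_castSucc_self l), dI, if_pos rfl, LinearMap.id_apply,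
        b02_bd_eq z x (G + ep l.succ) l (by rw [e1, e2]; omega) (by rw [e3]; exact hv), e1, e2, e3, e4, b02_dd_succ,
        b02_dl_castSucc G l hlt.le]
    · obtain ⟨p', hp1, hp2, hp3⟩ := b02_index l p h1 h2
      have e1 : (G + ep p) l.castSucc = G l.castSucc := by simp [ep, Ne.symm h1]
      have e2 : (G + ep p) l.succ = G l.succ := by simp [ep, Ne.symm h2]
      have e3 : dl (G + ep p) l.succ = dl G l.succ + ep p' := b02_dl_ep G l.succ p p' hp3
      have hmem := b00_de_mem z x (dl G l.succ) p' hv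
      rw [b23_dI_other z x G p l.castSucc p' hp2, b23_dI_other z x G p l.succ p' hp3,
        b02_bd_eq z x (G + ep p) l (by rw [e1, e2]; omega) (by rw [e3]; exact hmem), e1, e2, e3, b02_dl_castSucc G l hlt.le,
        b02_de_dd z hz x (dl G l.succ) l p' _ hv]

/-- X(s) and δ_l^r. -/
theorem b23_XX_dd (z : ℤ → K) (hz : Function.Injective z) (x : ℕ → R) {n : ℕ} (E : Fin n → ℤ) (l : Fin n) (s : K) (r : ℕ)
    {v : W R n} (hv : v ∈ U R n E) :
    tr n (E + up l r) (XX z x n s (dd z x E l r v)) = dd z x E l r (tr n E (XX z x n s v)) := by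
  induction r with
  | zero => rw [b02_up_zero, add_zero]; rfl
  | succ r ih =>
    rw [b02_dd_succ, b02_dd_succ, ← ih, b02_up_succ, ← add_assoc, b01_XX_de z hz x (E + up l r) l s (b02_dd_mem z x E l r hv)]

theorem b23_la_comm (z : ℤ → K) (hz : Function.Injective z) (x : ℕ → R) (G : Fin (N + 1) → ℤ) (hG : StrictMono G)
    (k : Fin (N + 1)) (hG' : StrictMono (G - ep k)) (l : Fin N) {v : W R N} (hv : v ∈ U R N (dl G l.succ)) :
    la z x G k l.castSucc (bd z x G l v) = bd z x (G - ep k) l (la z x G k l.succ v) := by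
  have hlt : G l.castSucc < G l.succ := hG (by rw [Fin.lt_def]; simp)
  have hlt' : (G - ep k) l.castSucc < (G - ep k) l.succ := hG' (by rw [Fin.lt_def]; simp)
  have hne : l.castSucc ≠ l.succ := ne_of_lt (by rw [Fin.lt_def]; simp)
  have hV := b00_U_le_Vv N _ hv
  rw [b02_bd_eq z x G l hlt.le hv]
  by_cases h1 : k = l.castSucc
  · subst h1
    have e1 : (G - ep l.castSucc) l.castSucc = G l.castSucc - 1 := by simp [ep]
    have e2 : (G - ep l.castSucc) l.succ = G l.succ := by simp [ep, hne.symm]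
    have e3 : dl (G - ep l.castSucc) l.succ = dl G l.succ - ep l := b02_dl_sub_ep G l.succ l.castSucc l (Fin.succAbove_succ_self l)
    have e4 : (G l.succ - (G l.castSucc - 1)).toNat = (G l.succ - G l.castSucc).toNat + 1 := by omega
    have hmem : tr N (dl G l.succ - ep l) v ∈ U R N (dl G l.succ - ep l) := b00_tr_mem _ _ hV
    rw [la, if_pos rfl, la, if_neg hne.symm, b02_bd_eq z x (G - ep l.castSucc) l hlt'.le (by rw [e3]; exact hmem), e1, e2, e3, e4,
      b02_dd_succ', sub_add_cancel, b01_de_tr_self z x (dl G l.succ) l hv, LinearMap.comp_apply, b02_dl_castSucc G l hlt.le,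
      b23_XX_dd z hz x (dl G l.succ) l _ _ hv, b02_dl_succ_self]
  · by_cases h2 : k = l.succ
    · subst h2
      have e1 : (G - ep l.succ) l.castSucc = G l.castSucc := by simp [ep, hne]
      have e2 : (G - ep l.succ) l.succ = G l.succ - 1 := by simp [ep]
      rw [e1, e2] at hlt'
      have e3 : dl (G - ep l.succ) l.succ = dl G l.succ := b02_dl_sub_ep_self G l.succ
      have e4 : (G l.succ - G l.castSucc).toNat = (G l.succ - 1 - G l.castSucc).toNat + 1 := by omega
      have e5 : dl (G - ep l.succ) l.castSucc = dl G l.succ + up l (G l.succ - 1 - G l.castSucc).toNat := by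
        rw [b02_dl_castSucc (G - ep l.succ) l (by rw [e1, e2]; omega), e1, e2, e3]
      have hmem : tr N (dl G l.succ) (XX z x N (z (G l.succ - 1)) v) ∈ U R N (dl G l.succ) := b00_tr_mem _ _ (b00_XX_Vv _ _ _ _ _ hV)
      have e6 : (dl G l.succ + up l (G l.succ - 1 - G l.castSucc).toNat) l = G l.succ - 1 := by
        rw [Pi.add_apply, b02_up_same, b02_dl_succ_self]; omega
      rw [la, if_neg hne, la, if_pos rfl, LinearMap.comp_apply,
        b02_bd_eq z x (G - ep l.succ) l (by rw [e1, e2]; omega) (by rw [e3]; exact hmem), e1, e2, e3, e4, e5, b02_dd_succ,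
        b01_tr_de_self z x _ l (b02_dd_mem z x _ l _ hv), e6, b23_XX_dd z hz x (dl G l.succ) l _ _ hv]
    · obtain ⟨k', hk1, hk2, hk3⟩ := b02_index l k h1 h2
      have e1 : (G - ep k) l.castSucc = G l.castSucc := by simp [ep, Ne.symm h1]
      have e2 : (G - ep k) l.succ = G l.succ := by simp [ep, Ne.symm h2]
      have e3 : dl (G - ep k) l.succ = dl G l.succ - ep k' := b02_dl_sub_ep G l.succ k k' hk3
      have e4 : dl (G - ep k) l.castSucc = dl G l.succ - ep k' + up l (G l.succ - G l.castSucc).toNat := by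
        rw [b02_dl_castSucc (G - ep k) l (by rw [e1, e2]; omega), e1, e2, e3]
      have hmem : tr N (dl G l.succ - ep k') v ∈ U R N (dl G l.succ - ep k') := b00_tr_mem _ _ hV
      rw [la, if_neg (Ne.symm h1), la, if_neg (Ne.symm h2), b02_bd_eq z x (G - ep k) l hlt'.le (by rw [e3]; exact hmem),
        e1, e2, e3, e4, b02_tr_dd z x (dl G l.succ) k' l hk1 _ hv]

end H92C
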