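import Pool.Agent.Lib.H92C.B23

/-!
# H92C, module B: the exports for the identity, λ and ρ (PROOF.md, B.4)
-/

open MvPolynomial

namespace H92C

variable {K R : Type} [Field K] [CommRing R] [Algebra K R] {N : ℕ}

theorem b24_dI (z : ℤ → K) (hz : Function.Injective z) (G : Fin (N + 1) → ℤ) (hG : StrictMono G) (p : Fin (N + 1)) :
    CMs z 1 G (G + ep p) (fun j => dI z (xs N K) G p j) := by
  refine ⟨fun j v hv => ?_, fun l v hv => b23_dI_comm z hz (xs N K) G hG p l hv, fun j v hv t ht => ?_⟩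
  · change dI z (xs N K) G p j v ∈ _
    rw [dI]
    by_cases hj : j = p
    · rw [if_pos hj, LinearMap.id_apply, hj, b02_dl_ep_self]
      rw [hj] at hv
      exact hv
    · rw [if_neg hj, LinearMap.comp_apply]
      exact b00_tr_mem _ _ (b00_XX_Vv _ _ _ _ _ (b00_U_le_Vv _ _ hv))
  · change Hg _ (dI z (xs N K) G p j v)
    rw [dI]
    by_cases hj : j = p
    · have e : t + G j + 1 - (G + ep p) j = t := by rw [hj]; simp [ep]
      rw [if_pos hj, LinearMap.id_apply, e]
      exact ht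
    · have e : t + G j + 1 - (G + ep p) j = t + 1 := by simp [ep, hj]; ring
      rw [if_neg hj, LinearMap.comp_apply, e]
      exact b23_Hg_tr _ _ (b23_Hg_XX _ _ _ ht)

theorem b24_la (z : ℤ → K) (hz : Function.Injective z) (G : Fin (N + 1) → ℤ) (hG : StrictMono G) (k : Fin (N + 1))
    (hG' : StrictMono (G - ep k)) :
    CMs z 0 G (G - ep k) (fun j => la z (xs N K) G k j) := by
  refine ⟨fun j v hv => ?_, fun l v hv => b23_la_comm z hz (xs N K) G hG k hG' l hv, fun j v hv t ht => ?_⟩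
  · change la z (xs N K) G k j v ∈ _
    rw [la]
    by_cases hj : j = k
    · rw [if_pos hj, LinearMap.comp_apply, hj, b02_dl_sub_ep_self]
      exact b00_tr_mem _ _ (b00_XX_Vv _ _ _ _ _ (b00_U_le_Vv _ _ hv))
    · rw [if_neg hj]
      exact b00_tr_mem _ _ (b00_U_le_Vv _ _ hv)
  · change Hg _ (la z (xs N K) G k j v)
    rw [la]
    by_cases hj : j = k
    · have e : t + G j + 0 - (G - ep k) j = t + 1 := by rw [hj]; simp [ep]; ring
      rw [if_pos hj, LinearMap.comp_apply, e]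
      exact b23_Hg_tr _ _ (b23_Hg_XX _ _ _ ht)
    · have e : t + G j + 0 - (G - ep k) j = t := by simp [ep, hj]
      rw [if_neg hj, e]
      exact b23_Hg_tr _ _ ht

section io

theorem b24_io_add {n : ℕ} (v w : W K n) : io (N := N) (v + w) = io v + io w := by
  funext c
  simp [io]

theorem b24_io_smul {n : ℕ} (k : K) (v : W K n) : io (N := N) (k • v) = k • io v := by
  funext c
  simp [io, MvPolynomial.smul_eq_C_mul]

theorem b24_io_sub {n : ℕ} (v w : W K n) : io (N := N) (v - w) = io v - io w := by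
  funext c
  simp [io]

theorem b24_io_zero {n : ℕ} : io (N := N) (0 : W K n) = 0 := by
  funext c
  simp [io]

theorem b24_io_sum {n : ℕ} {ι : Type} (s : Finset ι) (f : ι → W K n) : io (N := N) (∑ i ∈ s, f i) = ∑ i ∈ s, io (f i) := by
  funext c
  simp [io, Finset.sum_apply]

theorem b24_io_sl {n : ℕ} (F : Fin n → ℤ) (v : W K (n + 1)) : sl F (io (N := N) v) = io (sl F v) := rfl

theorem b24_io_tr {n : ℕ} (E : Fin n → ℤ) (v : W K n) : tr n E (io (N := N) v) = io (tr n E v) := by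
  cases n with
  | zero => rfl
  | succ n =>
    funext c
    by_cases h : Il E c.1 <;> simp [tr, io, h]

theorem b24_io_mem {n : ℕ} (E : Fin n → ℤ) {v : W K n} (hv : v ∈ U K n E) : io (N := N) v ∈ U (MvPolynomial (Fin N) K) n E := by
  intro c hc
  simp [io, hv c hc]

/-- The tensor operators are constant. -/
theorem b24_io_PR (q : K) (μ : ℕ) (n : ℕ) : ∀ (s : K) (v : W K n), PR q μ n s (io (N := N) v) = io (PR q μ n s v) := by
  induction n with
  | zero => intro s v; exact b24_io_zero.symm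
  | succ n ih =>
    intro s v
    apply b00_ext
    intro F
    by_cases hμ : μ = n + 1
    · subst hμ
      rw [b00_sl_PR_top, b24_io_sl, b24_io_sl, b00_sl_PR_top, b24_io_smul]
    · rw [b00_sl_PR q μ hμ, b24_io_sl, b00_sl_PR q μ hμ, b24_io_sum]
      refine Finset.sum_congr rfl fun b _ => ?_
      rw [b24_io_smul, b24_io_sl, ro, LinearMap.comp_apply, ih, b24_io_tr, ro, LinearMap.comp_apply]

end io

theorem b24_mono (G : Fin (N + 1) → ℤ) (hG : StrictMono G) (p k : Fin (N + 1)) (hk : k ≠ p) (hG' : StrictMono (G + ep p - ep k)) :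
    StrictMono (G - ep k) := by
  intro i j hij
  have h1 := hG hij
  have h2 := hG' hij
  simp only [Pi.sub_apply, Pi.add_apply] at h2 ⊢
  have h3 := b01_ep_nonneg p i
  have h4 := b01_ep_nonneg k i
  by_cases hj : j = k
  · subst hj
    have h5 : ep p j = 0 := b01_ep_ne hk
    omega
  · rw [b01_ep_ne hj]
    omega

/-- thmB_id. -/
theorem b24_id (q : K) (hq0 : q ≠ 0) (hq : ∀ j : ℕ, 0 < j → q ^ j ≠ 1) (G : Fin (N + 1) → ℤ) (hG : StrictMono G)
    (p : Fin (N + 1)) : TT (zq q) G (G + ep p) p LinearMap.id := by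
  refine ⟨_, (b24_dI (zq q) (b10_zq_inj q hq0 hq) G hG p).toCM, fun v _ => ?_⟩
  change dI (zq q) (xs N K) G p p (io v) = _
  rw [dI, if_pos rfl]
  rfl

/-- thmB_lam. -/
theorem b24_lam (q : K) (hq0 : q ≠ 0) (hq : ∀ j : ℕ, 0 < j → q ^ j ≠ 1) (G : Fin (N + 1) → ℤ) (hG : StrictMono G)
    (p k : Fin (N + 1)) (hk : k ≠ p) (hG' : StrictMono (G + ep p - ep k)) :
    TT (zq q) G (G + ep p - ep k) p (tr N (dl (G + ep p - ep k) p)) := by
  have hz := b10_zq_inj q hq0 hq
  have hGk := b24_mono G hG p k hk hG'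
  have h1 := (b24_la (zq q) hz G hG k hGk).comp (b24_dI (zq q) hz (G - ep k) hGk p)
  rw [show G - ep k + ep p = G + ep p - ep k by abel, zero_add] at h1
  refine ⟨_, h1.toCM, fun v _ => ?_⟩
  change dI (zq q) (xs N K) (G - ep k) p p (la (zq q) (xs N K) G k p (io v)) = _
  rw [dI, if_pos rfl, LinearMap.id_apply, la, if_neg (Ne.symm hk), b24_io_tr]
  rw [show G + ep p - ep k = G - ep k + ep p by abel, b02_dl_ep_self]

/-- thmB_rho. -/
theorem b24_rho (q : K) (hq0 : q ≠ 0) (hq : ∀ j : ℕ, 0 < j → q ^ j ≠ 1) (G : Fin (N + 1) → ℤ) (hG : StrictMono G)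
    (p k : Fin (N + 1)) (hk : k ≠ p) (hG' : StrictMono (G + ep p + ep k)) (μ : ℕ) :
    TT (zq q) G (G + ep p + ep k) p (tr N (dl (G + ep p + ep k) p) ∘ₗ PR q μ N (zq q (G k))) := by
  refine ⟨_, ((b23_rho q hq0 hq μ G hG p k hk.symm hG').smul (zq q (G k))⁻¹).toCM, fun v _ => ?_⟩
  change (zq q (G k))⁻¹ • ph q (xs N K) μ G p k p (io v) = _
  rw [ph, if_pos rfl, LinearMap.smul_apply, smul_smul, inv_mul_cancel₀ (b10_zq_ne q hq0 _), one_smul, LinearMap.comp_apply,
    b24_io_PR, b24_io_tr]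
  rfl

end H92C
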