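import Pool.Agent.Lib.H92C.Defs

/-!
# H92C, module B, chunk B40: the sequence x^(μ), the diagonal operators T_μ, powers of q
-/

open MvPolynomial

namespace H92C

section

variable {K : Type} [Field K] {q : K}

theorem b40_zq_ne (hq0 : q ≠ 0) (a : ℤ) : zq q a ≠ 0 := zpow_ne_zero a hq0

theorem b40_zq_add (hq0 : q ≠ 0) (a b : ℤ) : zq q (a + b) = zq q a * zq q b := zpow_add₀ hq0 a b

theorem b40_zq_succ (hq0 : q ≠ 0) (a : ℤ) : zq q (a + 1) = q * zq q a := by
  rw [b40_zq_add hq0, mul_comm]; simp [zq]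

theorem b40_zq_pred (hq0 : q ≠ 0) (a : ℤ) : zq q (a - 1) = q⁻¹ * zq q a := by
  rw [sub_eq_add_neg, b40_zq_add hq0, mul_comm]; simp [zq]

theorem b40_zq_inj (hq0 : q ≠ 0) (hq : ∀ j : ℕ, 0 < j → q ^ j ≠ 1) {a b : ℤ} (h : zq q a = zq q b) : a = b := by
  have key : ∀ a b : ℤ, a ≤ b → zq q a = zq q b → a = b := by
    intro a b hab h
    by_contra hne
    have h1 : q ^ (b - a) = 1 := by
      rw [zpow_sub₀ hq0]
      simp only [zq] at h
      rw [h]
      exact div_self (zpow_ne_zero _ hq0)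
    obtain ⟨j, hj⟩ := Int.eq_ofNat_of_zero_le (sub_nonneg.mpr hab)
    rw [hj, zpow_natCast] at h1
    refine hq j ?_ h1
    omega
  rcases le_total a b with hab | hab
  · exact key a b hab h
  · exact (key b a hab h.symm).symm

theorem b40_sum_ep {n : ℕ} (b : Fin n) : ∑ i, (ep b : Fin n → ℤ) i = 1 := by
  simp [ep]

theorem b40_sum_add {n : ℕ} (F : Fin n → ℤ) (b : Fin n) : ∑ i, (F + ep b) i = (∑ i, F i) + 1 := by
  simp [ep, Finset.sum_add_distrib]

theorem b40_sum_sub {n : ℕ} (F : Fin n → ℤ) (b : Fin n) : ∑ i, (F - ep b) i = (∑ i, F i) - 1 := by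
  simp [ep, Finset.sum_sub_distrib]

theorem b40_add_self {n : ℕ} (F : Fin n → ℤ) (b : Fin n) : (F + ep b) b = F b + 1 := by simp [ep]

theorem b40_add_ne {n : ℕ} (F : Fin n → ℤ) {b c : Fin n} (h : c ≠ b) : (F + ep b) c = F c := by simp [ep, h]

theorem b40_sub_self {n : ℕ} (F : Fin n → ℤ) (b : Fin n) : (F - ep b) b = F b - 1 := by simp [ep]

theorem b40_sub_ne {n : ℕ} (F : Fin n → ℤ) {b c : Fin n} (h : c ≠ b) : (F - ep b) c = F c := by simp [ep, h]

end

section ops

variable {K R : Type} [Field K] [CommRing R] [Algebra K R]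

/-- The sequence x^(μ): x_μ = 1, the others 0. -/
def xm (R : Type) [CommRing R] (μ : ℕ) : ℕ → R := fun l => if l = μ then 1 else 0

/-- T_μ: multiplication of v(c) by q ^ (|row μ| - |row μ + 1|) (at level n the row n is E). -/
def TM (q : K) (μ : ℕ) : (n : ℕ) → (Fin n → ℤ) → W R n →ₗ[R] W R n
  | 0, _ => 0
  | n + 1, E =>
    { toFun := fun v c => if μ = n then zq q ((∑ j, c.1 j) - ∑ i, E i) • v c else TM q μ n c.1 (sl c.1 v) c.2
      map_add' := fun a b => by
        funext c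
        by_cases h : μ = n <;>
        simp [h, map_add, Pi.add_apply, smul_add]
      map_smul' := fun r a => by
        funext c
        by_cases h : μ = n <;>
        simp [h, map_smul, Pi.smul_apply, smul_eq_mul] }

theorem b40_sl_TM_top (q : K) (n : ℕ) (E : Fin (n + 1) → ℤ) (F : Fin n → ℤ) (v : W R (n + 1)) :
    sl F (TM q n (n + 1) E v) = zq q ((∑ j, F j) - ∑ i, E i) • sl F v := by
  funext c
  simp [TM, sl]

theorem b40_sl_TM (q : K) {μ n : ℕ} (h : μ ≠ n) (E : Fin (n + 1) → ℤ) (F : Fin n → ℤ) (v : W R (n + 1)) :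
    sl F (TM q μ (n + 1) E v) = TM q μ n F (sl F v) := by
  funext c
  simp [TM, sl, h]

theorem b40_XX_zero (z : ℤ → K) : ∀ (n : ℕ) (x : ℕ → R), (∀ l < n, x l = 0) → ∀ (s : K) (v : W R n), XX z x n s v = 0
  | 0, _, _, _, _ => rfl
  | n + 1, x, hx, s, v => by
    funext c
    simp only [XX, LinearMap.coe_mk, AddHom.coe_mk, hx n (Nat.lt_succ_self n), zero_mul, zero_add, Pi.zero_apply]
    refine Finset.sum_eq_zero fun b _ => ?_
    rw [b40_XX_zero z n x (fun l hl => hx l (Nat.lt_succ_of_lt hl)), map_zero]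
    simp

theorem b40_TM_zero (q : K) {n : ℕ} (μ : ℕ) (h : n ≤ μ) (E : Fin n → ℤ) (v : W R n) : TM q μ n E v = 0 := by
  induction n with
  | zero => rfl
  | succ n ih =>
    funext c
    have h1 : μ ≠ n := by omega
    have := ih (by omega) c.1 (sl c.1 v)
    simp only [TM, LinearMap.coe_mk, AddHom.coe_mk, h1, if_false, this]
    rfl

end ops

end H92C
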