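import Pool.Agent.Lib.H92C.B40

/-!
# H92C, module B, chunk B41: two identities for the coefficients kap, pp, LL
-/

namespace H92C

variable {K : Type} [Field K] {q : K}

theorem b41_P {n : ℕ} (E : Fin (n + 1) → ℤ) (a : Fin (n + 1)) (Y : K) :
    ∏ i, (Y - zq q ((E + ep a) i)) =
      (Y - zq q (E a + 1)) * ∏ i ∈ Finset.univ.erase a, (Y - zq q (E i)) := by
  rw [← Finset.mul_prod_erase Finset.univ _ (Finset.mem_univ a), b40_add_self]
  congr 1
  exact Finset.prod_congr rfl fun i hi => by rw [b40_add_ne E (Finset.ne_of_mem_erase hi)]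

theorem b41_P0 {n : ℕ} (E : Fin (n + 1) → ℤ) (a : Fin (n + 1)) (Y : K) :
    ∏ i, (Y - zq q (E i)) =
      (Y - zq q (E a)) * ∏ i ∈ Finset.univ.erase a, (Y - zq q (E i)) :=
  (Finset.mul_prod_erase Finset.univ _ (Finset.mem_univ a)).symm

theorem b41_D {n : ℕ} (F : Fin n → ℤ) (j : Fin n) (Y : K) :
    ∏ c ∈ Finset.univ.erase j, (Y - zq q ((F + ep j) c)) =
      ∏ c ∈ Finset.univ.erase j, (Y - zq q (F c)) :=
  Finset.prod_congr rfl fun i hi => by rw [b40_add_ne F (Finset.ne_of_mem_erase hi)]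

theorem b41_D0 {n : ℕ} (F : Fin n → ℤ) {j b : Fin n} (hb : b ≠ j) (Y : K) :
    ∏ c ∈ Finset.univ.erase j, (Y - zq q (F c)) =
      (Y - zq q (F b)) * ∏ c ∈ (Finset.univ.erase j).erase b, (Y - zq q (F c)) :=
  (Finset.mul_prod_erase _ _ (Finset.mem_erase.2 ⟨hb, Finset.mem_univ b⟩)).symm

theorem b41_D1 {n : ℕ} (F : Fin n → ℤ) {j b : Fin n} (hb : b ≠ j) (Y : K) :
    ∏ c ∈ Finset.univ.erase j, (Y - zq q ((F - ep b + ep j) c)) =
      (Y - zq q (F b - 1)) * ∏ c ∈ (Finset.univ.erase j).erase b, (Y - zq q (F c)) := by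
  rw [b41_D, b41_D0 (F - ep b) hb, b40_sub_self]
  congr 1
  exact Finset.prod_congr rfl fun i hi => by rw [b40_sub_ne F (Finset.ne_of_mem_erase hi)]

theorem b41_L {n : ℕ} (F : Fin n → ℤ) {j b : Fin n} (hb : b ≠ j) (w : K) :
    LL (zq q) b w (F - ep b) = (w - zq q (F j)) / (zq q (F b - 1) - zq q (F j)) *
      ∏ c ∈ (Finset.univ.erase b).erase j, (w - zq q (F c)) / (zq q (F b - 1) - zq q (F c)) := by
  unfold LL
  rw [b40_sub_self, ← Finset.mul_prod_erase _ _
    (Finset.mem_erase.2 ⟨hb.symm, Finset.mem_univ j⟩), b40_sub_ne F hb.symm]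
  congr 1
  exact Finset.prod_congr rfl fun i hi => by
    rw [b40_sub_ne F (Finset.ne_of_mem_erase (Finset.mem_of_mem_erase hi))]

theorem b41_L1 {n : ℕ} (F : Fin n → ℤ) {j b : Fin n} (hb : b ≠ j) (w : K) :
    LL (zq q) b w (F + ep j - ep b) = (w - zq q (F j + 1)) / (zq q (F b - 1) - zq q (F j + 1)) *
      ∏ c ∈ (Finset.univ.erase b).erase j, (w - zq q (F c)) / (zq q (F b - 1) - zq q (F c)) := by
  rw [b41_L (F + ep j) hb, b40_add_ne F hb, b40_add_self]
  congr 1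
  exact Finset.prod_congr rfl fun i hi => by
    rw [b40_add_ne F (Finset.ne_of_mem_erase hi)]

theorem b41_pp {n : ℕ} (F : Fin n → ℤ) (j : Fin n) (w : K) :
    pp (zq q) F w = (w - zq q (F j)) * ∏ c ∈ Finset.univ.erase j, (w - zq q (F c)) :=
  (Finset.mul_prod_erase Finset.univ _ (Finset.mem_univ j)).symm

theorem b41_pp1 {n : ℕ} (F : Fin n → ℤ) (j : Fin n) (w : K) :
    pp (zq q) (F + ep j) w = (w - zq q (F j + 1)) * ∏ c ∈ Finset.univ.erase j, (w - zq q (F c)) := by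
  rw [b41_pp (F + ep j) j, b40_add_self, b41_D]

/-- (i) kap(E+ε_a; F+ε_j, j) p_{F+ε_j}(w_a) = p_F(w_a) kap(E; F+ε_j, j), w_a = zq q (E a).

Proof. Both sides have the same denominators ∏_{c ≠ j} (z(F_j + 1) - z(F_c)) and the same factors i ≠ a of the numerator
∏ i (z(F_j+1) - z(E_i)) and the same factors c ≠ j of p. With y = z(F_j), w = w_a, z(F_j + 1) = q y, z(E_a + 1) = q w, and
(zq |E + ε_a|)⁻¹ = q⁻¹ (zq |E|)⁻¹ (b40_sum_add, b40_zq_succ) the remaining identity is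
q⁻¹ (q y - q w) (w - q y) = (w - y)(q y - w). Unfold kap, pp; split the products by Finset.mul_prod_erase (at a, at j), replace the
remaining factors by b40_add_ne (Finset.prod_congr), then ring after q⁻¹ * q = 1. No case distinction is needed for zero denominators
(write / as * inverse). -/
theorem b41_kap_pp (hq0 : q ≠ 0) {n : ℕ} (E : Fin (n + 1) → ℤ) (a : Fin (n + 1)) (F : Fin n → ℤ) (j : Fin n) :
    kap q (E + ep a) (F + ep j) j * pp (zq q) (F + ep j) (zq q (E a)) =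
      pp (zq q) F (zq q (E a)) * kap q E (F + ep j) j := by
  have hs : zq q (∑ i, (E + ep a) i) = q * zq q (∑ i, E i) := by
    rw [b40_sum_add, b40_zq_succ hq0]
  rw [b41_pp1, b41_pp F j]
  unfold kap
  rw [b41_P, b41_P0 E a, b41_D, hs, b40_add_self, b40_zq_succ hq0, b40_zq_succ hq0]
  generalize zq q (∑ i, E i) = zE
  generalize zq q (∑ i, (F + ep j) i) = zF
  generalize zq q (F j) = y
  generalize zq q (E a) = w
  generalize ∏ i ∈ Finset.univ.erase a, (q * y - zq q (E i)) = P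
  generalize ∏ c ∈ Finset.univ.erase j, (q * y - zq q (F c)) = D
  generalize ∏ c ∈ Finset.univ.erase j, (w - zq q (F c)) = R
  have h : q⁻¹ * (q * y - q * w) = y - w := by
    rw [← mul_sub, inv_mul_cancel_left₀ hq0]
  linear_combination (zE⁻¹ * zF * (q * y)⁻¹ * P / D * ((w - q * y) * R)) * h

/-- (ii) kap(E+ε_a; F+ε_j, j) L_b(w_a; F+ε_j-ε_b) = L_b(w_a; F-ε_b) kap(E; F-ε_b+ε_j, j), b ≠ j.

Proof. With y = z(F_j), w = w_a, u = z(F_b)/q = z(F_b - 1): the factors i ≠ a of the numerator of kap, the denominators c ≠ j, b of kap and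
the factors c ≠ b, j of L are the same on both sides ((F + ε_j - ε_b)_c = F_c for c ≠ j, b etc.). The powers: (zq|E+ε_a|)⁻¹ zq|F+ε_j| =
(zq|E|)⁻¹ zq|F|, |F - ε_b + ε_j| = |F|. What remains is
  (q y - q w) (q y - q u)⁻¹ * ((w - q y) (u - q y)⁻¹) = ((w - y) (u - y)⁻¹) * ((q y - w) (q y - u)⁻¹),
which is true with (q y - q u)⁻¹ = q⁻¹ (y - u)⁻¹ and (u - q y)⁻¹ = - (q y - u)⁻¹ (neg_inv / inv_neg, mul_inv), also for zero denominators. -/
theorem b41_cross (hq0 : q ≠ 0) {n : ℕ} (E : Fin (n + 1) → ℤ) (a : Fin (n + 1)) (F : Fin n → ℤ) (j b : Fin n) (hb : b ≠ j) :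
    kap q (E + ep a) (F + ep j) j * LL (zq q) b (zq q (E a)) (F + ep j - ep b) =
      LL (zq q) b (zq q (E a)) (F - ep b) * kap q E (F - ep b + ep j) j := by
  have hs : zq q (∑ i, (E + ep a) i) = q * zq q (∑ i, E i) := by
    rw [b40_sum_add, b40_zq_succ hq0]
  have hs2 : zq q (∑ i, (F + ep j) i) = q * zq q (∑ i, F i) := by
    rw [b40_sum_add, b40_zq_succ hq0]
  have hs3 : zq q (∑ i, (F - ep b + ep j) i) = zq q (∑ i, F i) := by
    rw [b40_sum_add, b40_sum_sub]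
    congr 1
    ring
  have hu : zq q (F b) = q * zq q (F b - 1) := by
    rw [b40_zq_pred hq0, mul_inv_cancel_left₀ hq0]
  rw [b41_L1 F hb, b41_L F hb]
  unfold kap
  rw [b41_P, b41_P0 E a, b41_D, b41_D1 F hb, b41_D0 F hb, hs, hs2, hs3, b40_add_self,
    b40_add_self, b40_sub_ne F hb.symm, b40_zq_succ hq0, b40_zq_succ hq0, hu]
  generalize zq q (∑ i, E i) = zE
  generalize zq q (∑ i, F i) = zF
  generalize zq q (F j) = y
  generalize zq q (E a) = w
  generalize zq q (F b - 1) = u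
  generalize ∏ i ∈ Finset.univ.erase a, (q * y - zq q (E i)) = P
  generalize ∏ c ∈ (Finset.univ.erase j).erase b, (q * y - zq q (F c)) = D
  generalize ∏ c ∈ (Finset.univ.erase b).erase j, (w - zq q (F c)) / (u - zq q (F c)) = T
  have h1 : (q * zE)⁻¹ * (q * zF) = zE⁻¹ * zF := by
    rw [mul_inv]
    calc q⁻¹ * zE⁻¹ * (q * zF) = (q⁻¹ * q) * (zE⁻¹ * zF) := by ring
      _ = zE⁻¹ * zF := by rw [inv_mul_cancel₀ hq0, one_mul]
  have h2 : (q * y - q * w) / (q * y - q * u) = (w - y) / (u - y) := by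
    rw [← mul_sub, ← mul_sub, mul_div_mul_left _ _ hq0, ← neg_div_neg_eq, neg_sub, neg_sub]
  have h3 : (w - q * y) / (u - q * y) = (q * y - w) / (q * y - u) := by
    rw [← neg_div_neg_eq, neg_sub, neg_sub]
  have h4 : ∀ A N P M D : K, A * (N * P) / (M * D) = A * (N / M) * (P / D) := by
    intro A N P M D
    ring
  rw [h4, h4, h1, h2, h3]
  ring

end H92C
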