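import Pool.Agent.Lib.H92C.B40

/-!
# H92C, module B, chunk B42: the diagonal coefficients
-/

namespace H92C

variable {K : Type} [Field K] {q : K}

/-- The polynomial of E without a at q y: ∏_{i ≠ a} (q y - w_i). -/
def gg (q : K) {n : ℕ} (E : Fin (n + 1) → ℤ) (a : Fin (n + 1)) (y : K) : K :=
  ∏ i ∈ Finset.univ.erase a, (q * y - zq q (E i))

/-- The product of the differences of the node y_j to the other nodes y_c (c ≠ j), y_c / q. -/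
def d1 (q : K) {n : ℕ} (y : Fin n → K) (j : Fin n) : K :=
  (∏ c ∈ Finset.univ.erase j, (y j - y c)) * ∏ c, (y j - q⁻¹ * y c)

/-- The product of the differences of the node y_j / q to the other nodes y_c / q (c ≠ j), y_c. -/
def d2 (q : K) {n : ℕ} (y : Fin n → K) (j : Fin n) : K :=
  (∏ c ∈ Finset.univ.erase j, (q⁻¹ * y j - q⁻¹ * y c)) * ∏ c, (q⁻¹ * y j - y c)

/-- The constant cc. -/
def cc (q : K) {n : ℕ} (E : Fin (n + 1) → ℤ) (a : Fin (n + 1)) (F : Fin n → ℤ) : K :=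
  pp (zq q) F (zq q (E a)) * (zq q (∑ i, E i))⁻¹ * zq q (∑ j, F j) * (q⁻¹) ^ (n - 1) * (1 - q⁻¹)

/-- card of the complement of a point -/
theorem b42_prod_const {n : ℕ} (j : Fin n) (r : K) :
    ∏ _c ∈ Finset.univ.erase j, r = r ^ (n - 1) := by
  rw [Finset.prod_const, Finset.card_erase_of_mem (Finset.mem_univ j), Finset.card_univ, Fintype.card_fin]

theorem b42_split {n : ℕ} (j : Fin n) (f : Fin n → K) :
    ∏ c, f c = f j * ∏ c ∈ Finset.univ.erase j, f c :=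
  (Finset.mul_prod_erase Finset.univ f (Finset.mem_univ j)).symm

theorem b42_one_sub (hq0 : q ≠ 0) (hq1 : q ≠ 1) : (1 : K) - q⁻¹ ≠ 0 := by
  intro h
  apply hq1
  have h1 : q⁻¹ = 1 := (sub_eq_zero.1 h).symm
  rw [← inv_inv q, h1, inv_one]

theorem b42_alg1 (hq0 : q ≠ 0) (hq1 : q ≠ 1) {y r ZE : K} (hy : y ≠ 0) (hr : r ≠ 0) (hZ : ZE ≠ 0)
    (w ZF G PW P1 P2 : K) :
    (q * ZE)⁻¹ * (q * ZF) * (q * y)⁻¹ * (q * (y - w) * G) / P2 * (PW / P1) =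
      -(((w - y) * PW) * ZE⁻¹ * ZF * r * (1 - q⁻¹) * G / (P1 * ((1 - q⁻¹) * y * (r * P2)))) := by
  have h1 := b42_one_sub hq0 hq1
  have e : (P1 * ((1 - q⁻¹) * y * (r * P2)))⁻¹ = P1⁻¹ * P2⁻¹ * ((1 - q⁻¹)⁻¹ * y⁻¹ * r⁻¹) := by
    simp only [mul_inv]
    ring
  rw [div_eq_mul_inv _ P2, div_eq_mul_inv PW, div_eq_mul_inv _ (P1 * _), e]
  generalize P1⁻¹ = u
  generalize P2⁻¹ = v
  have e2 : (1 - q⁻¹) * (1 - q⁻¹)⁻¹ = 1 := mul_inv_cancel₀ h1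
  have e3 : r * r⁻¹ = 1 := mul_inv_cancel₀ hr
  have e4 : q * q⁻¹ = 1 := mul_inv_cancel₀ hq0
  rw [mul_inv, mul_inv]
  calc q⁻¹ * ZE⁻¹ * (q * ZF) * (q⁻¹ * y⁻¹) * (q * (y - w) * G) * v * (PW * u)
      = (q * q⁻¹) * (q * q⁻¹) * (ZE⁻¹ * ZF * y⁻¹ * (y - w) * G * v * (PW * u)) := by ring
    _ = ((1 - q⁻¹) * (1 - q⁻¹)⁻¹) * (r * r⁻¹) * (ZE⁻¹ * ZF * y⁻¹ * (y - w) * G * v * (PW * u)) := by
        rw [e2, e3, e4]
    _ = _ := by ring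

theorem b42_alg2 (hq0 : q ≠ 0) (hq1 : q ≠ 1) {y r : K} (hr : r ≠ 0)
    (w Z ZF G PW P1 P3 : K) :
    (PW / P3) * (Z * ZF * y⁻¹ * ((y - w) * G) / P1) =
      ((w - y) * PW) * Z * ZF * r * (1 - q⁻¹) * G / ((r * P1) * ((q⁻¹ * y - y) * P3)) := by
  have h1 := b42_one_sub hq0 hq1
  have e : ((r * P1) * ((q⁻¹ * y - y) * P3))⁻¹ = -(P1⁻¹ * P3⁻¹ * ((1 - q⁻¹)⁻¹ * y⁻¹ * r⁻¹)) := by
    have : q⁻¹ * y - y = -((1 - q⁻¹) * y) := by ring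
    rw [this]
    simp only [mul_inv, inv_neg]
    ring
  rw [div_eq_mul_inv _ P1, div_eq_mul_inv PW, div_eq_mul_inv _ ((r * P1) * _), e]
  generalize P1⁻¹ = u
  generalize P3⁻¹ = v
  have e2 : (1 - q⁻¹) * (1 - q⁻¹)⁻¹ = 1 := mul_inv_cancel₀ h1
  have e3 : r * r⁻¹ = 1 := mul_inv_cancel₀ hr
  calc PW * v * (Z * ZF * y⁻¹ * ((y - w) * G) * u)
      = 1 * 1 * (PW * v * (Z * ZF * y⁻¹ * ((y - w) * G) * u)) := by ring
    _ = ((1 - q⁻¹) * (1 - q⁻¹)⁻¹) * (r * r⁻¹) * (PW * v * (Z * ZF * y⁻¹ * ((y - w) * G) * u)) := by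
        rw [e2, e3]
    _ = _ := by ring

/-- First diagonal coefficient: kap(E+ε_a; F+ε_j, j) L_j(w_a; F) = - cc G(y_j) / d1_j, y_c = z(F_c) (division by 0 is 0).

Proof. y = z(F_j), w = w_a. kap(E+ε_a;F+ε_j,j) = q⁻¹ Q z(|F|) q (q y)⁻¹ (q y - q w) ∏_{i≠a}(q y - w_i) / ∏_{c≠j}(q y - y_c), i.e.
Q z(|F|) y⁻¹ (y - w) gg(y) ∏_{c≠j} (q y - y_c)⁻¹, and L_j(w;F) = ∏_{c≠j} (w - y_c)(y - y_c)⁻¹, so the product is
- Q z(|F|) y⁻¹ p_F(w) gg(y) ∏_{c≠j} [(q y - y_c)(y - y_c)]⁻¹. On the other side d1_j = ∏_{c≠j}(y - y_c) * (y - q⁻¹ y) * ∏_{c≠j} (y - q⁻¹ y_c) and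
y - q⁻¹ y_c = q⁻¹ (q y - y_c), so d1_j⁻¹ = (1 - q⁻¹)⁻¹ y⁻¹ q^(n-1) ∏_{c≠j} [..]⁻¹ (card of univ.erase j is n - 1) and cc d1_j⁻¹ has
(1 - q⁻¹)(1 - q⁻¹)⁻¹ = 1 (here q ≠ 1 is needed). n ≥ 1 because j exists. -/
theorem b42_first (hq0 : q ≠ 0) (hq1 : q ≠ 1) {n : ℕ} (E : Fin (n + 1) → ℤ) (a : Fin (n + 1)) (F : Fin n → ℤ) (j : Fin n) :
    kap q (E + ep a) (F + ep j) j * LL (zq q) j (zq q (E a)) F =
      - (cc q E a F * gg q E a (zq q (F j)) / d1 q (fun c => zq q (F c)) j) := by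
  have k1 : zq q (∑ i, (E + ep a) i) = q * zq q (∑ i, E i) := by
    rw [b40_sum_add, b40_zq_succ hq0]
  have k2 : zq q (∑ i, (F + ep j) i) = q * zq q (∑ i, F i) := by
    rw [b40_sum_add, b40_zq_succ hq0]
  have k3 : zq q ((F + ep j) j) = q * zq q (F j) := by
    rw [b40_add_self, b40_zq_succ hq0]
  have k4 : ∏ i, (q * zq q (F j) - zq q ((E + ep a) i)) =
      q * (zq q (F j) - zq q (E a)) * gg q E a (zq q (F j)) := by
    rw [b42_split a, b40_add_self, b40_zq_succ hq0]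
    unfold gg
    rw [Finset.prod_congr rfl fun i hi => by rw [b40_add_ne E (Finset.ne_of_mem_erase hi)]]
    ring
  have k5 : ∏ c ∈ Finset.univ.erase j, (q * zq q (F j) - zq q ((F + ep j) c)) =
      ∏ c ∈ Finset.univ.erase j, (q * zq q (F j) - zq q (F c)) :=
    Finset.prod_congr rfl fun c hc => by rw [b40_add_ne F (Finset.ne_of_mem_erase hc)]
  have k6 : d1 q (fun c => zq q (F c)) j =
      (∏ c ∈ Finset.univ.erase j, (zq q (F j) - zq q (F c))) *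
      ((1 - q⁻¹) * zq q (F j) * ((q⁻¹) ^ (n - 1) * ∏ c ∈ Finset.univ.erase j, (q * zq q (F j) - zq q (F c)))) := by
    unfold d1
    rw [b42_split j (fun c => zq q (F j) - q⁻¹ * zq q (F c)), ← b42_prod_const j (q⁻¹), ← Finset.prod_mul_distrib]
    congr 2
    · ring
    · refine Finset.prod_congr rfl fun c _ => ?_
      rw [mul_sub, ← mul_assoc, inv_mul_cancel₀ hq0, one_mul]
  have k7 : pp (zq q) F (zq q (E a)) =
      (zq q (E a) - zq q (F j)) * ∏ c ∈ Finset.univ.erase j, (zq q (E a) - zq q (F c)) := by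
    unfold pp
    exact b42_split j _
  have k8 : LL (zq q) j (zq q (E a)) F =
      (∏ c ∈ Finset.univ.erase j, (zq q (E a) - zq q (F c))) /
        ∏ c ∈ Finset.univ.erase j, (zq q (F j) - zq q (F c)) := by
    unfold LL
    rw [Finset.prod_div_distrib]
  unfold kap cc
  rw [k1, k2, k3, k4, k5, k6, k7, k8]
  exact b42_alg1 hq0 hq1 (b40_zq_ne hq0 _) (pow_ne_zero _ (inv_ne_zero hq0)) (b40_zq_ne hq0 _) _ _ _ _ _ _

/-- Second diagonal coefficient: L_j(w_a; F-ε_j) kap(E; F, j) = cc G(y_j / q) / d2_j.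

Proof. L_j(w;F-ε_j) = ∏_{c≠j} (w - y_c)(q⁻¹ y - y_c)⁻¹ (b40_sub_self, b40_zq_pred), kap(E;F,j) = Q z(|F|) y⁻¹ (y - w) ∏_{i≠a}(y - w_i) ∏_{c≠j}(y - y_c)⁻¹, and
gg(y/q) = ∏_{i≠a} (q (q⁻¹ y) - w_i) = ∏_{i≠a} (y - w_i). The product is - Q z(|F|) y⁻¹ p_F(w) gg(y/q) ∏_{c≠j} [(q⁻¹ y - y_c)(y - y_c)]⁻¹.
d2_j = q⁻¹^(n-1) ∏_{c≠j}(y - y_c) * (q⁻¹ y - y) * ∏_{c≠j}(q⁻¹ y - y_c), and (q⁻¹ y - y)⁻¹ = - (1 - q⁻¹)⁻¹ y⁻¹. -/
theorem b42_second (hq0 : q ≠ 0) (hq1 : q ≠ 1) {n : ℕ} (E : Fin (n + 1) → ℤ) (a : Fin (n + 1)) (F : Fin n → ℤ) (j : Fin n) :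
    LL (zq q) j (zq q (E a)) (F - ep j) * kap q E F j =
      cc q E a F * gg q E a (q⁻¹ * zq q (F j)) / d2 q (fun c => zq q (F c)) j := by
  have k4 : ∏ i, (zq q (F j) - zq q (E i)) =
      (zq q (F j) - zq q (E a)) * gg q E a (q⁻¹ * zq q (F j)) := by
    rw [b42_split a]
    unfold gg
    congr 1
    refine Finset.prod_congr rfl fun i _ => ?_
    rw [← mul_assoc, mul_inv_cancel₀ hq0, one_mul]
  have k6 : d2 q (fun c => zq q (F c)) j =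
      ((q⁻¹) ^ (n - 1) * ∏ c ∈ Finset.univ.erase j, (zq q (F j) - zq q (F c))) *
      ((q⁻¹ * zq q (F j) - zq q (F j)) * ∏ c ∈ Finset.univ.erase j, (q⁻¹ * zq q (F j) - zq q (F c))) := by
    unfold d2
    rw [b42_split j (fun c => q⁻¹ * zq q (F j) - zq q (F c)), ← b42_prod_const j (q⁻¹), ← Finset.prod_mul_distrib]
    congr 1
    refine Finset.prod_congr rfl fun c _ => ?_
    rw [mul_sub]
  have k7 : pp (zq q) F (zq q (E a)) =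
      (zq q (E a) - zq q (F j)) * ∏ c ∈ Finset.univ.erase j, (zq q (E a) - zq q (F c)) := by
    unfold pp
    exact b42_split j _
  have k8 : LL (zq q) j (zq q (E a)) (F - ep j) =
      (∏ c ∈ Finset.univ.erase j, (zq q (E a) - zq q (F c))) /
        ∏ c ∈ Finset.univ.erase j, (q⁻¹ * zq q (F j) - zq q (F c)) := by
    unfold LL
    rw [← Finset.prod_div_distrib]
    refine Finset.prod_congr rfl fun c hc => ?_
    rw [b40_sub_ne F (Finset.ne_of_mem_erase hc), b40_sub_self, b40_zq_pred hq0]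
  unfold kap cc
  rw [k4, k6, k7, k8]
  exact b42_alg2 hq0 hq1 (pow_ne_zero _ (inv_ne_zero hq0)) _ _ _ _ _ _ _

end H92C
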