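import Pool.Agent.Lib.H92C.B42

/-!
# H92C, module B, chunk B43: Lagrange interpolation, the leading coefficient
-/

open Polynomial

namespace H92C

variable {K : Type} [Field K]

/-- For a finite set S of nodes and a polynomial g of degree < |S| the sum of g(s) / ∏_{t ≠ s} (s - t) is the coefficient of
X^(|S|-1) of g.

Proof. g = Lagrange.interpolate S id (eval g) (Lagrange.eq_interpolate_of_eval_eq or Lagrange.eq_interpolate), and
the basis polynomial Lagrange.basis S id s = ∏_{t ∈ S.erase s} C (s - t)⁻¹ * (X - C t) has degree |S| - 1 and leading coefficient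
∏ (s - t)⁻¹. Take the coefficient |S| - 1. (Look first for a Mathlib lemma, e.g. Lagrange.coeff_eq_sum / Polynomial.coeff_eq_sum in the file
LinearAlgebra/Lagrange.) For S empty both sides are 0 (g = 0). -/
theorem b43_lagrange [DecidableEq K] (S : Finset K) (g : K[X]) (hg : g.degree < S.card) :
    ∑ s ∈ S, g.eval s / ∏ t ∈ S.erase s, (s - t) = g.coeff (S.card - 1) := by
  exact (Lagrange.coeff_eq_sum (v := id) (s := S) Function.injective_id.injOn hg).symm

end H92C
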