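import Pool.Agent.Lib.H92C.B43

/-!
# H92C, module B, chunk B43b: the sum over the nodes, with coinciding nodes
-/

open Polynomial

namespace H92C

variable {K : Type} [Field K]

theorem b43b_gen {ι : Type} [Fintype ι] [DecidableEq ι] (v : ι → K)
    (h2 : ∀ (a : K) (T : Finset ι), (∀ i ∈ T, v i = a) → T.card ≤ 2)
    (f : K[X]) (hf : f.degree < (Fintype.card ι : ℕ)) (hd : ∀ i k, i ≠ k → v i = v k → (X - C (v i)) ^ 2 ∣ f) :
    ∑ i, f.eval (v i) / ∏ k ∈ Finset.univ.erase i, (v i - v k) = f.coeff (Fintype.card ι - 1) := by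
  classical
  set T : Finset ι := Finset.univ.filter fun i => ∃ k, k ≠ i ∧ v i = v k with hT
  set M : K[X] := ∏ i ∈ T, (X - C (v i)) with hM
  have hMd : M ∣ f := by
    have h1 : M = ∏ a ∈ T.image v, ∏ i ∈ T.filter (fun i => v i = a), (X - C (v i)) := by
      rw [hM, Finset.prod_fiberwise_of_maps_to (fun i hi => Finset.mem_image_of_mem v hi)]
    have h3 : ∀ a, ∏ i ∈ T.filter (fun i => v i = a), (X - C (v i)) =
        (X - C a) ^ (T.filter (fun i => v i = a)).card := by
      intro a
      rw [Finset.prod_congr rfl (g := fun _ => X - C a) (fun i hi => by rw [(Finset.mem_filter.1 hi).2]),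
        Finset.prod_const]
    rw [h1]
    refine Finset.prod_dvd_of_coprime ?_ ?_
    · intro a _ b _ hab
      simp only [Function.onFun]
      rw [h3, h3]
      exact (isCoprime_X_sub_C_of_isUnit_sub (sub_ne_zero.2 hab).isUnit).pow
    · intro a ha
      rw [h3]
      obtain ⟨i, hi, rfl⟩ := Finset.mem_image.1 ha
      obtain ⟨k, hk, hik⟩ := (Finset.mem_filter.1 hi).2
      exact (pow_dvd_pow _ (h2 (v i) _ (fun j hj => (Finset.mem_filter.1 hj).2))).trans (hd i k hk.symm hik)
  have hMm : M.Monic := monic_prod_of_monic _ _ fun i _ => monic_X_sub_C (v i)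
  have hMn : M.natDegree = T.card := by
    rw [hM]
    exact natDegree_finsetProd_X_sub_C_eq_card T v
  obtain ⟨g, hg⟩ := hMd
  have hcard : Tᶜ.card + T.card = Fintype.card ι := by
    rw [add_comm]
    exact Finset.card_add_card_compl T
  have hgd : g.degree < (Tᶜ.card : ℕ) := by
    by_cases hg0 : g = 0
    · rw [hg0, degree_zero]
      exact WithBot.bot_lt_coe _
    · have h4 : f.natDegree < Fintype.card ι := by
        rw [natDegree_lt_iff_degree_lt (by rw [hg]; exact mul_ne_zero hMm.ne_zero hg0)]
        exact hf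
      rw [hg, hMm.natDegree_mul' hg0, hMn] at h4
      rw [← natDegree_lt_iff_degree_lt hg0]
      omega
  have hinj : Set.InjOn v (Tᶜ : Finset ι) := by
    intro i hi k hk hik
    by_contra hne
    rw [Finset.mem_coe, Finset.mem_compl, hT, Finset.mem_filter] at hi
    exact hi ⟨Finset.mem_univ _, k, fun h' => hne h'.symm, hik⟩
  have hL := Lagrange.coeff_eq_sum hinj hgd
  have hMe : ∀ i ∈ Tᶜ, M.eval (v i) ≠ 0 := by
    intro i hi
    rw [hM, eval_prod, Finset.prod_ne_zero_iff]
    intro k hk
    rw [eval_sub, eval_X, eval_C, sub_ne_zero]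
    intro hik
    rw [Finset.mem_compl] at hi
    apply hi
    rw [hT, Finset.mem_filter]
    refine ⟨Finset.mem_univ _, k, ?_, hik⟩
    rintro rfl
    exact hi hk
  have hsum : ∑ i, f.eval (v i) / ∏ k ∈ Finset.univ.erase i, (v i - v k) =
      ∑ i ∈ Tᶜ, g.eval (v i) / ∏ k ∈ Tᶜ.erase i, (v i - v k) := by
    rw [← Finset.sum_add_sum_compl T]
    have h5 : ∑ i ∈ T, f.eval (v i) / ∏ k ∈ Finset.univ.erase i, (v i - v k) = 0 := by
      refine Finset.sum_eq_zero fun i hi => ?_
      obtain ⟨k, hk, hik⟩ := (Finset.mem_filter.1 hi).2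
      rw [Finset.prod_eq_zero (Finset.mem_erase.2 ⟨hk, Finset.mem_univ k⟩) (by rw [hik, sub_self]), div_zero]
    rw [h5, zero_add]
    refine Finset.sum_congr rfl fun i hi => ?_
    have h6 : ∏ k ∈ Finset.univ.erase i, (v i - v k) = (∏ k ∈ Tᶜ.erase i, (v i - v k)) * M.eval (v i) := by
      have h7 : Finset.univ.erase i = Tᶜ.erase i ∪ T := by
        ext k
        simp only [Finset.mem_erase, Finset.mem_univ, and_true, Finset.mem_union, Finset.mem_compl]
        constructor
        · intro h8
          by_cases hkT : k ∈ T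
          · exact Or.inr hkT
          · exact Or.inl ⟨h8, hkT⟩
        · rintro (h8 | h8)
          · exact h8.1
          · rintro rfl
            exact (Finset.mem_compl.1 hi) h8
      have h8 : Disjoint (Tᶜ.erase i) T := by
        rw [Finset.disjoint_left]
        intro k hk hkT
        exact (Finset.mem_compl.1 (Finset.mem_of_mem_erase hk)) hkT
      rw [h7, Finset.prod_union h8, hM, eval_prod]
      congr 1
      refine Finset.prod_congr rfl fun k _ => ?_
      rw [eval_sub, eval_X, eval_C]
    rw [h6, hg, eval_mul, mul_comm (M.eval (v i)), mul_div_mul_right _ _ (hMe i hi)]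
  rw [hsum, ← hL, hg]
  rcases Nat.eq_zero_or_pos Tᶜ.card with h0 | h0
  · rw [h0] at hgd
    have hg0 : g = 0 := by
      rw [← degree_eq_bot, ← Nat.WithBot.lt_zero_iff]
      exact_mod_cast hgd
    rw [hg0, mul_zero]
    simp
  · have h9 : Fintype.card ι - 1 = T.card + (Tᶜ.card - 1) := by omega
    have h10 : g.natDegree ≤ Tᶜ.card - 1 := by
      by_cases hg0 : g = 0
      · rw [hg0, natDegree_zero]
        exact Nat.zero_le _
      · have := (natDegree_lt_iff_degree_lt hg0).2 hgd
        omega
    rw [h9, coeff_mul_add_eq_of_natDegree_le hMn.le h10, ← hMn, hMm.coeff_natDegree, one_mul]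

/-- The sum over the 2n nodes y_j, y_j / q for a polynomial f of degree < 2n which has double zeros at the double nodes
y_c (those with y_{c'} = q y_c, so y_{c'} / q = y_c). Coinciding nodes are left out automatically, because d1_c = 0 and d2_{c'} = 0.

Proof. Let Z = {c : ∃ c', y c' = q y c}, Z' = {c' : ∃ c, y c' = q y c}; c ↦ c' is a bijection (y injective). M = ∏_{c ∈ Z} (X - C (y c))^2
divides f (pairwise coprime factors: Finset.prod_dvd_of_coprime / Polynomial.pairwise_coprime_X_sub_C and pow), f = M g, with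
degree g < 2n - 2|Z|. Let S = {y j : j ∉ Z} ∪ {q⁻¹ y j : j ∉ Z'} (disjoint images of injective maps, card 2n - 2|Z|): b43_lagrange for g, S.
For a node s in S: the product over all the other nodes (counted with multiplicity) is d1_j resp. d2_j = (∏_{t ∈ S.erase s}(s - t)) * M(s): the nodes
which are not in S are y c (c ∈ Z) and q⁻¹ y c' = y c (c' ∈ Z'). M(s) ≠ 0, f(s) = M(s) g(s). So f(s)/d_s = g(s)/∏. For j ∈ Z: d1_j = 0 (the
factor y j - q⁻¹ y c' = 0), for j ∈ Z': d2_j = 0. The coefficient 2n - 1 of f = M g (M monic of degree 2|Z|) is the coefficient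
2n - 2|Z| - 1 of g (if Z has n elements then g = 0; impossible for n ≥ 1 anyway; n = 0: both sides 0 as f = 0). -/
theorem b43_nodes {q : K} (hq0 : q ≠ 0) (hq1 : q ≠ 1) {n : ℕ} (y : Fin n → K) (hy : Function.Injective y) (hy0 : ∀ c, y c ≠ 0)
    (f : K[X]) (hf : f.degree < (2 * n : ℕ)) (hd : ∀ c c', y c' = q * y c → (X - C (y c)) ^ 2 ∣ f) :
    ∑ j, (f.eval (y j) / d1 q y j + f.eval (q⁻¹ * y j) / d2 q y j) = f.coeff (2 * n - 1) := by
  classical
  have hqi : q⁻¹ ≠ 0 := inv_ne_zero hq0
  set v : Fin n ⊕ Fin n → K := Sum.elim y (fun j => q⁻¹ * y j) with hv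
  have hv2 : Function.Injective (fun j => q⁻¹ * y j) := fun a b hab => hy (mul_left_cancel₀ hqi hab)
  have hc : Fintype.card (Fin n ⊕ Fin n) = 2 * n := by
    rw [Fintype.card_sum, Fintype.card_fin]
    ring
  have h2 : ∀ (a : K) (T : Finset (Fin n ⊕ Fin n)), (∀ i ∈ T, v i = a) → T.card ≤ 2 := by
    intro a T hT
    rw [← Finset.card_toLeft_add_card_toRight]
    have h3 : T.toLeft.card ≤ 1 := by
      rw [Finset.card_le_one]
      intro i hi k hk
      rw [Finset.mem_toLeft] at hi hk
      exact hy ((hT _ hi).trans (hT _ hk).symm)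
    have h4 : T.toRight.card ≤ 1 := by
      rw [Finset.card_le_one]
      intro i hi k hk
      rw [Finset.mem_toRight] at hi hk
      exact hv2 ((hT _ hi).trans (hT _ hk).symm)
    omega
  have hd' : ∀ i k, i ≠ k → v i = v k → (X - C (v i)) ^ 2 ∣ f := by
    intro i k hik h
    rcases i with i | i <;> rcases k with k | k
    · exact absurd (congrArg Sum.inl (hy h)) hik
    · have h1 : y k = q * y i := by
        have h5 : y i = q⁻¹ * y k := h
        rw [h5, ← mul_assoc, mul_inv_cancel₀ hq0, one_mul]
      exact hd i k h1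
    · have h5 : q⁻¹ * y i = y k := h
      have h1 : y i = q * y k := by
        rw [← h5, ← mul_assoc, mul_inv_cancel₀ hq0, one_mul]
      have h6 := hd k i h1
      rw [← h5] at h6
      exact h6
    · exact absurd (congrArg Sum.inr (hv2 h)) hik
  have key := b43b_gen v h2 f (by rw [hc]; exact hf) hd'
  rw [hc] at key
  rw [← key, Fintype.sum_sum_type, Finset.sum_add_distrib]
  congr 1
  · refine Finset.sum_congr rfl fun j _ => ?_
    have h7 : ∏ k ∈ Finset.univ.erase (Sum.inl j : Fin n ⊕ Fin n), (v (Sum.inl j) - v k) = d1 q y j := by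
      have h8 : Finset.univ.erase (Sum.inl j : Fin n ⊕ Fin n) =
          (Finset.univ.erase j).disjSum Finset.univ := by
        ext k
        rcases k with k | k <;> simp
      rw [h8, Finset.prod_disjSum]
      rfl
    rw [h7]
    rfl
  · refine Finset.sum_congr rfl fun j _ => ?_
    have h7 : ∏ k ∈ Finset.univ.erase (Sum.inr j : Fin n ⊕ Fin n), (v (Sum.inr j) - v k) = d2 q y j := by
      have h8 : Finset.univ.erase (Sum.inr j : Fin n ⊕ Fin n) =
          (Finset.univ : Finset (Fin n)).disjSum (Finset.univ.erase j) := by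
        ext k
        rcases k with k | k <;> simp
      rw [h8, Finset.prod_disjSum, mul_comm]
      rfl
    rw [h7]
    rfl

end H92C
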