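import Pool.Agent.Lib.H92C.A00
import Pool.Agent.Lib.H92C.B43b

/-!
# H92C, module B, chunk B44: the scalar diagonal sum
-/

open Polynomial

namespace H92C

variable {K : Type} [Field K] {q : K}

theorem b44_lin_deg (a b : K) : (C a * X - C b : K[X]).natDegree ≤ 1 := by
  refine (natDegree_sub_le _ _).trans (max_le ?_ ?_)
  · exact (natDegree_C_mul_le _ _).trans natDegree_X_le
  · rw [natDegree_C]
    exact Nat.zero_le _

theorem b44_lin_coeff (a b : K) : (C a * X - C b : K[X]).coeff 1 = a := by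
  rw [coeff_sub, coeff_C_mul, coeff_X_one, mul_one, coeff_C_ne_zero one_ne_zero, sub_zero]

theorem b44_next {m : ℕ} (E : Fin (m + 2) → ℤ) (F : Fin (m + 1) → ℤ) (hF : Il E F) (c c' : Fin (m + 1))
    (h : F c' = F c + 1) : E c.succ = F c + 1 := by
  obtain ⟨hE, hFm⟩ := il_mono hF
  have h1 : c < c' := by
    rw [← hFm.lt_iff_lt]
    omega
  have h2 : E c.succ ≤ E c'.castSucc := by
    apply hE.monotone
    rw [Fin.le_def]
    simp only [Fin.val_succ, Fin.val_castSucc]
    exact h1
  have h3 := (hF c).2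
  have h4 := (hF c').1
  omega

/-- The diagonal sum for a scalar polynomial P of degree ≤ m which vanishes at y_c = z(F_c) whenever F_{c'} = F_c + 1 for some c'
(rows F of length m + 1, E of length m + 2, F interlaces E + ε_a, s = w_a).

Proof. Notation of b42 (n = m + 1): the summand is - cc [G(y_j)P(y_j)/d1_j + G(y_j/q)P(y_j/q)/d2_j] (b42_first, b42_second; z(F_j - 1) = q⁻¹ y_j).
Case 1: there are c, c' with F_{c'} = F_c + 1 and E_a = F_c. Then pp(F; w_a) = 0 (factor c), so cc = 0 and both sides are 0.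
Case 2: no such c. Let f = (∏_{i ≠ a} (C q * X - C (w_i))) * P, degree ≤ (m+1) + m < 2(m+1), coefficient of X^(2m+1) = q^(m+1) P_m. For
c, c' with F_{c'} = F_c + 1: F is strictly increasing, so c' = c + 1 (values: c < c', and if there were a row entry between them it would lie
strictly between F_c and F_c + 1), and F interlaces E + ε_a =: E': E'_{c+1} ≤ F_{c'} = F_c + 1 and F_c < E'_{c+1}, so E'_{c+1} = F_c + 1. If
c + 1 = a then E_a + 1 = F_c + 1: case 1. So c + 1 ≠ a and E_{c+1} = F_c + 1: the factor i = c + 1 of G vanishes at y_c (q z(F_c) = z(F_c + 1)) and P(y_c) = 0: (X - C y_c)^2 ∣ f.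
(y_{c'} = q y_c means F_{c'} = F_c + 1 by b40_zq_inj.) b43_nodes with y_c = z(F_c): the sum is - cc q^(m+1) P_m = - cc * q^(m+1) * P_m and
(q⁻¹)^m (1 - q⁻¹) q^(m+1) = q - 1. -/
theorem b44_diag (hq0 : q ≠ 0) (hq : ∀ j : ℕ, 0 < j → q ^ j ≠ 1) {m : ℕ} (E : Fin (m + 2) → ℤ) (a : Fin (m + 2))
    (F : Fin (m + 1) → ℤ) (hF : Il (E + ep a) F) (P : K[X]) (hP : P.natDegree ≤ m)
    (hv : ∀ c c', F c' = F c + 1 → P.eval (zq q (F c)) = 0) :
    ∑ j, (kap q (E + ep a) (F + ep j) j * LL (zq q) j (zq q (E a)) F * P.eval (zq q (F j)) -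
        LL (zq q) j (zq q (E a)) (F - ep j) * kap q E F j * P.eval (zq q (F j - 1))) =
      (1 - q) * P.coeff m * (pp (zq q) F (zq q (E a)) * (zq q (∑ i, E i))⁻¹ * zq q (∑ j, F j)) := by
  have hq1 : q ≠ 1 := by
    have := hq 1 one_pos
    rwa [pow_one] at this
  set y : Fin (m + 1) → K := fun c => zq q (F c) with hy
  set Gp : K[X] := ∏ i ∈ Finset.univ.erase a, (C q * X - C (zq q (E i))) with hGp
  set f : K[X] := Gp * P with hf
  have hev : ∀ t : K, f.eval t = gg q E a t * P.eval t := by
    intro t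
    rw [hf, eval_mul, hGp, eval_prod]
    congr 1
    refine Finset.prod_congr rfl fun i _ => ?_
    simp
  have hsum : ∑ j, (kap q (E + ep a) (F + ep j) j * LL (zq q) j (zq q (E a)) F * P.eval (zq q (F j)) -
        LL (zq q) j (zq q (E a)) (F - ep j) * kap q E F j * P.eval (zq q (F j - 1))) =
      -(cc q E a F * ∑ j, (f.eval (y j) / d1 q y j + f.eval (q⁻¹ * y j) / d2 q y j)) := by
    rw [Finset.mul_sum, ← Finset.sum_neg_distrib]
    refine Finset.sum_congr rfl fun j _ => ?_
    rw [b42_first hq0 hq1 E a F j, b42_second hq0 hq1 E a F j, b40_zq_pred hq0, hev, hev]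
    ring
  rw [hsum]
  by_cases hcase : ∃ c c', F c' = F c + 1 ∧ E a = F c
  · obtain ⟨c, c', _, hc⟩ := hcase
    have hpp : pp (zq q) F (zq q (E a)) = 0 := by
      unfold pp
      exact Finset.prod_eq_zero (Finset.mem_univ c) (by rw [hc, sub_self])
    have hcc : cc q E a F = 0 := by
      unfold cc
      rw [hpp]
      ring
    rw [hcc, hpp]
    ring
  · have hinj : Function.Injective y := by
      intro c c' hcc
      exact (il_mono hF).2.injective (b40_zq_inj hq0 hq hcc)
    have hcardE : (Finset.univ.erase a).card = m + 1 := by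
      rw [Finset.card_erase_of_mem (Finset.mem_univ a), Finset.card_univ, Fintype.card_fin]
      rfl
    have hGd : Gp.natDegree ≤ m + 1 := by
      refine (natDegree_prod_le _ _).trans ?_
      refine (Finset.sum_le_sum fun i _ => b44_lin_deg q (zq q (E i))).trans ?_
      rw [Finset.sum_const, hcardE, smul_eq_mul, mul_one]
    have hGc : Gp.coeff (m + 1) = q ^ (m + 1) := by
      have h1 := coeff_prod_of_natDegree_le (Finset.univ.erase a) (fun i => (C q * X - C (zq q (E i)) : K[X])) 1
        (fun i _ => b44_lin_deg q (zq q (E i)))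
      rw [hcardE, mul_one] at h1
      rw [hGp, h1, Finset.prod_congr rfl (fun i _ => b44_lin_coeff q (zq q (E i))), Finset.prod_const, hcardE]
    have hfd : f.degree < (2 * (m + 1) : ℕ) := by
      refine lt_of_le_of_lt degree_le_natDegree ?_
      have h2 : f.natDegree ≤ (m + 1) + m := (natDegree_mul_le).trans (add_le_add hGd hP)
      exact_mod_cast (by omega : f.natDegree < 2 * (m + 1))
    have hfc : f.coeff (2 * (m + 1) - 1) = q ^ (m + 1) * P.coeff m := by
      have h3 : 2 * (m + 1) - 1 = (m + 1) + m := by omega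
      rw [h3, hf, coeff_mul_add_eq_of_natDegree_le hGd hP, hGc]
    have hd : ∀ c c', y c' = q * y c → (X - C (y c)) ^ 2 ∣ f := by
      intro c c' hcc
      have h4 : F c' = F c + 1 := by
        apply b40_zq_inj hq0 hq
        rw [b40_zq_succ hq0]
        exact hcc
      have h5 := b44_next (E + ep a) F hF c c' h4
      have h6 : c.succ ≠ a := by
        intro h7
        apply hcase
        refine ⟨c, c', h4, ?_⟩
        rw [h7, b40_add_self] at h5
        omega
      rw [b40_add_ne E h6] at h5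
      rw [pow_two, hf]
      refine mul_dvd_mul ?_ (dvd_iff_isRoot.2 (hv c c' h4))
      refine dvd_trans ?_ (Finset.dvd_prod_of_mem _ (Finset.mem_erase.2 ⟨h6, Finset.mem_univ _⟩))
      rw [h5, b40_zq_succ hq0]
      refine ⟨C q, ?_⟩
      rw [C_mul]
      ring
    rw [b43_nodes hq0 hq1 y hinj (fun c => b40_zq_ne hq0 (F c)) f hfd hd, hfc]
    unfold cc
    have h8 : (q⁻¹) ^ (m + 1 - 1) * (1 - q⁻¹) * q ^ (m + 1) = q - 1 := by
      rw [Nat.add_sub_cancel, pow_succ, inv_pow]
      field_simp
    linear_combination (-(pp (zq q) F (zq q (E a)) * (zq q (∑ i, E i))⁻¹ * zq q (∑ j, F j) * P.coeff m)) * h8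

end H92C
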