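import Pool.Agent.Lib.H92C.B00
import Pool.Agent.Lib.H92C.B40

/-!
# H92C, module B, chunk B45: the operators e, T, C preserve the supports
-/

open MvPolynomial

namespace H92C

variable {K R : Type} [Field K] [CommRing R] [Algebra K R]

theorem b45_smul {n m : ℕ} (A : W R n →ₗ[R] W R m) (k : K) (v : W R n) : A (k • v) = k • A v :=
  LinearMap.map_smul_of_tower A k v

/-- kap(E; F + ε_j, j) = 0 if F_j + 1 is an entry of E. Proof: the factor i of the numerator is z(F_j+1) - z(E_i) = 0. -/
theorem b45_kap_zero (q : K) {n : ℕ} (E : Fin (n + 1) → ℤ) (F : Fin n → ℤ) (j : Fin n) (i : Fin (n + 1)) (h : F j + 1 = E i) :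
    kap q E (F + ep j) j = 0 := by
  rw [kap, Finset.prod_eq_zero (Finset.mem_univ i) (by rw [b40_add_self, h, sub_self]), mul_zero, zero_div]

/-- e_μ maps U E to U E.

Proof. Induction on n, all E, v. Level n+1, μ = n: b00_U_succ, b00_sl_ee_top. Let F be given. If Il E F: each tr n F (sl (F+ε_b) v) is in U F
(b00_tr_mem, b00_U_le_Vv: sl (F+ε_b) v ∈ U (F+ε_b) or = 0, by b00_U_succ for v), b00_smul_U, Submodule.sum_mem. If not Il E F: every term is 0: if Il E (F+ε_b)
then the only failing condition for F is E_b ≤ F_b, so F_b + 1 = E b.castSucc and b45_kap_zero; if not Il E (F+ε_b) then sl (F+ε_b) v = 0.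
μ ≠ n: b00_sl_ee and induction (sl F v = 0 if not Il E F: map_zero). -/
theorem b45_ee_mem (q : K) (μ : ℕ) : ∀ (n : ℕ) (E : Fin n → ℤ) (v : W R n), v ∈ U R n E → ee q μ n E v ∈ U R n E := by
  intro n
  induction n with
  | zero => exact fun E v _ => b00_U_zero _ _
  | succ n ih =>
    intro E v hv
    rw [b00_U_succ] at hv ⊢
    intro F
    by_cases hμ : μ = n
    · subst hμ
      rw [b00_sl_ee_top]
      constructor
      · intro hF
        refine Submodule.sum_mem _ fun b _ => b00_smul_U _ _ _ (b00_tr_mem _ _ ?_)
        by_cases hG : Il E (F + ep b)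
        · exact b00_U_le_Vv _ _ ((hv _).1 hG)
        · rw [(hv _).2 hG]
          exact Submodule.zero_mem _
      · intro hF
        refine Finset.sum_eq_zero fun b _ => ?_
        by_cases hG : Il E (F + ep b)
        · have h1 : F b + 1 = E b.castSucc := by
            by_contra hne
            apply hF
            intro j
            by_cases hj : j = b
            · subst hj
              have h2 := hG j
              rw [b40_add_self] at h2
              omega
            · have h2 := hG j
              rw [b40_add_ne F hj] at h2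
              exact h2
          rw [b45_kap_zero q E F b b.castSucc h1, zero_smul]
        · rw [(hv _).2 hG, map_zero, smul_zero]
    · rw [b00_sl_ee q μ hμ]
      constructor
      · intro hF
        exact ih F _ ((hv F).1 hF)
      · intro hF
        rw [(hv F).2 hF, map_zero]

/-- T_μ maps U E to U E. Proof: it is diagonal (induction on n with b00_U_succ, b40_sl_TM_top, b40_sl_TM, b00_smul_U). -/
theorem b45_TM_mem (q : K) (μ : ℕ) : ∀ (n : ℕ) (E : Fin n → ℤ) (v : W R n), v ∈ U R n E → TM q μ n E v ∈ U R n E := by
  intro n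
  induction n with
  | zero => exact fun E v _ => b00_U_zero _ _
  | succ n ih =>
    intro E v hv
    rw [b00_U_succ] at hv ⊢
    intro F
    by_cases hμ : μ = n
    · subst hμ
      rw [b40_sl_TM_top]
      constructor
      · intro hF
        exact b00_smul_U _ _ _ ((hv F).1 hF)
      · intro hF
        rw [(hv F).2 hF, smul_zero]
    · rw [b40_sl_TM q hμ]
      constructor
      · intro hF
        exact ih F _ ((hv F).1 hF)
      · intro hF
        rw [(hv F).2 hF, map_zero]

/-- CC E k r maps U E to U (E - ε_k). Proof: induction on r; r = 0: b00_tr_mem, b00_U_le_Vv; the step: b45_ee_mem, Submodule.sub_mem, Submodule.smul_mem. -/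
theorem b45_CC_mem (q : K) {n : ℕ} (E : Fin n → ℤ) (k : Fin n) (r : ℕ) {v : W R n} (hv : v ∈ U R n E) :
    CC q E k r v ∈ U R n (E - ep k) := by
  induction r generalizing v with
  | zero => exact b00_tr_mem _ _ (b00_U_le_Vv _ _ hv)
  | succ r ih =>
    show CC q E k r (ee q (n - r - 1) n E v) -
      algebraMap K R q⁻¹ • ee q (n - r - 1) n (E - ep k) (CC q E k r v) ∈ _
    exact Submodule.sub_mem _ (ih (b45_ee_mem q _ n E v hv))
      (Submodule.smul_mem _ _ (b45_ee_mem q _ n _ _ (ih hv)))

end H92C
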