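import Pool.Agent.Lib.H92C.B44
import Pool.Agent.Lib.H92C.B45

/-!
# H92C, module B, chunk B46: the scalar diagonal sums for the two kinds of coefficients
-/

open Polynomial

namespace H92C

variable {K : Type} [Field K] {q : K}

/-- If F_{c'} = F_c + 1 and G interlaces F then c < m as an index of G and G_c = F_c.

Proof. F is strictly increasing (b00_Il_strict), so c < c' (F c < F c'), so c is the castSucc of an index g of Fin m; F_{g.succ} ≤ F_{c'} (g.succ ≤ c', monotone) = F_c + 1, and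
Il F G: F_c ≤ G_g < F_{g.succ} ≤ F_c + 1. -/
theorem b46_index {m : ℕ} {F : Fin (m + 1) → ℤ} {G : Fin m → ℤ} (hG : Il F G) {c c' : Fin (m + 1)} (h : F c' = F c + 1) :
    ∃ g : Fin m, g.castSucc = c ∧ G g = F c := by
  have hS := b00_Il_strict hG
  have h1 : c < c' := by
    rw [← hS.lt_iff_lt]
    omega
  have h1' : c.val < c'.val := h1
  have h2 : c.val < m := by
    have := c'.isLt
    omega
  refine ⟨⟨c.val, h2⟩, Fin.ext rfl, ?_⟩
  have h3 := hG ⟨c.val, h2⟩
  have h4 : (⟨c.val, h2⟩ : Fin m).castSucc = c := Fin.ext rfl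
  have h5 : F (⟨c.val, h2⟩ : Fin m).succ ≤ F c' := hS.monotone (by
    rw [Fin.le_def]
    exact h1')
  rw [h4] at h3
  omega


/-- The sum for p_G.

Proof. b44_diag with P = ∏_g (X - C (z(G_g))) (natDegree m: natDegree_prod_of_monic / Polynomial.natDegree_finset_prod_X_sub_C_eq_card or similar, monic so P_m = 1,
eval P y = pp G y: eval_prod). hv: b46_index gives the factor g (z(F_c) - z(G_g) = 0). -/
theorem b46_pp (hq0 : q ≠ 0) (hq : ∀ j : ℕ, 0 < j → q ^ j ≠ 1) {m : ℕ} (E : Fin (m + 2) → ℤ) (a : Fin (m + 2))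
    (F : Fin (m + 1) → ℤ) (hF : Il (E + ep a) F) (G : Fin m → ℤ) (hG : Il F G) :
    ∑ j, (kap q (E + ep a) (F + ep j) j * LL (zq q) j (zq q (E a)) F * pp (zq q) G (zq q (F j)) -
        LL (zq q) j (zq q (E a)) (F - ep j) * kap q E F j * pp (zq q) G (zq q (F j - 1))) =
      (1 - q) * (pp (zq q) F (zq q (E a)) * (zq q (∑ i, E i))⁻¹ * zq q (∑ j, F j)) := by
  have hP1 : (∏ g, (X - C (zq q (G g))) : K[X]).natDegree = m := by
    rw [natDegree_prod_of_monic _ _ (fun g _ => monic_X_sub_C _)]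
    simp
  have hPm : (∏ g, (X - C (zq q (G g))) : K[X]).coeff m = 1 := by
    have := (monic_prod_of_monic Finset.univ (fun g => (X - C (zq q (G g)) : K[X]))
      (fun g _ => monic_X_sub_C _)).coeff_natDegree
    rwa [hP1] at this
  have hev : ∀ y : K, (∏ g, (X - C (zq q (G g))) : K[X]).eval y = pp (zq q) G y := by
    intro y
    rw [eval_prod]
    simp [pp]
  have hv : ∀ c c', F c' = F c + 1 → (∏ g, (X - C (zq q (G g))) : K[X]).eval (zq q (F c)) = 0 := by
    intro c c' hcc
    obtain ⟨g, hg, hg2⟩ := b46_index hG hcc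
    rw [hev, pp]
    exact Finset.prod_eq_zero (Finset.mem_univ g) (by rw [hg2, sub_self])
  have h := b44_diag hq0 hq E a F hF (∏ g, (X - C (zq q (G g)))) hP1.le hv
  rw [hPm, mul_one] at h
  simpa only [hev] using h


/-- The sum for L_b.

Proof. b44_diag with P = C κ * ∏_{d ≠ b} (X - C (z(G_d))), κ = ∏_{d ≠ b} (z(G_b - 1) - z(G_d))⁻¹: LL b y (G - ε_b) = eval y P (unfold LL; b40_sub_self, b40_sub_ne, Finset.prod_div_distrib).
natDegree ≤ m - 1 and m ≥ 1 (b exists), so P_m = 0. hv: b46_index for G: G_g = F_c; and g ≠ b: otherwise Il F (G - ε_b) says F_c ≤ G_b - 1 = F_c - 1. So the factor d = g is there. -/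
theorem b46_LL (hq0 : q ≠ 0) (hq : ∀ j : ℕ, 0 < j → q ^ j ≠ 1) {m : ℕ} (E : Fin (m + 2) → ℤ) (a : Fin (m + 2))
    (F : Fin (m + 1) → ℤ) (hF : Il (E + ep a) F) (G : Fin m → ℤ) (b : Fin m) (hG : Il F G) (hb : Il F (G - ep b)) :
    ∑ j, (kap q (E + ep a) (F + ep j) j * LL (zq q) j (zq q (E a)) F * LL (zq q) b (zq q (F j)) (G - ep b) -
        LL (zq q) j (zq q (E a)) (F - ep j) * kap q E F j * LL (zq q) b (zq q (F j - 1)) (G - ep b)) = 0 := by
  have hm : 0 < m := by
    have := b.isLt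
    omega
  set P : K[X] := C (∏ d ∈ Finset.univ.erase b, (zq q (G b - 1) - zq q (G d))⁻¹) *
    ∏ d ∈ Finset.univ.erase b, (X - C (zq q (G d))) with hP
  have hPd : P.natDegree ≤ m - 1 := by
    refine (natDegree_C_mul_le _ _).trans ?_
    rw [natDegree_prod_of_monic _ _ (fun g _ => monic_X_sub_C _)]
    simp
  have hPm : P.coeff m = 0 := coeff_eq_zero_of_natDegree_lt (by omega)
  have hev : ∀ y : K, P.eval y = LL (zq q) b y (G - ep b) := by
    intro y
    rw [hP, eval_mul, eval_C, eval_prod, LL, b40_sub_self, ← Finset.prod_mul_distrib]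
    refine Finset.prod_congr rfl fun d hd => ?_
    rw [b40_sub_ne G (Finset.ne_of_mem_erase hd), div_eq_mul_inv, mul_comm, eval_sub, eval_X, eval_C]
  have hv : ∀ c c', F c' = F c + 1 → P.eval (zq q (F c)) = 0 := by
    intro c c' hcc
    obtain ⟨g, hg, hg2⟩ := b46_index hG hcc
    have hgb : g ≠ b := by
      rintro rfl
      have h1 := (hb g).1
      rw [b40_sub_self, hg] at h1
      omega
    have h0 : ∏ d ∈ Finset.univ.erase b, eval (zq q (F c)) (X - C (zq q (G d))) = 0 :=
      Finset.prod_eq_zero (i := g) (Finset.mem_erase.2 ⟨hgb, Finset.mem_univ g⟩)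
        (by rw [eval_sub, eval_X, eval_C, hg2, sub_self])
    rw [hP, eval_mul, eval_prod, h0, mul_zero]
  have h := b44_diag hq0 hq E a F hF P (by omega) hv
  rw [hPm, mul_zero, zero_mul] at h
  simpa only [hev] using h


end H92C
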