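import Pool.Agent.Lib.H92C.B46

/-!
# H92C, module B, chunk B47: the diagonal terms of relation (E)
-/

open MvPolynomial

namespace H92C

variable {K R : Type} [Field K] [CommRing R] [Algebra K R] {q : K}

/-- The diagonal terms.

Proof. b00_ext: let G : Fin m → ℤ. If not Il F G: all terms have slice 0 (b00_sl_tr; sl G w = 0 by b00_U_succ). If Il F G: sl G is linear (map_sum, map_sub, b45_smul),
sl G (tr F (XX y w)) = x m • (pp G y • sl G w) + ∑ b, LL b y (G-ε_b) • de (G-ε_b) b (sl (G-ε_b) w) (b00_sl_tr, b00_sl_XX). Exchange the sums over j and b: the coefficient of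
x m • sl G w is the left side of b46_pp; the coefficient of the vector u_b := de (G-ε_b) b (sl (G-ε_b) w) is the left side of b46_LL if Il F (G-ε_b), and u_b = 0 otherwise (sl (G-ε_b) w = 0).
(smul_comm between K and R, Finset.sum_smul, sub_smul, mul_smul.) -/
theorem b47_diag (hq0 : q ≠ 0) (hq : ∀ j : ℕ, 0 < j → q ^ j ≠ 1) (x : ℕ → R) {m : ℕ} (E : Fin (m + 2) → ℤ) (a : Fin (m + 2))
    (F : Fin (m + 1) → ℤ) (hF : Il (E + ep a) F) {w : W R (m + 1)} (hw : w ∈ U R (m + 1) F) :
    ∑ j, ((kap q (E + ep a) (F + ep j) j * LL (zq q) j (zq q (E a)) F) •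
          tr (m + 1) F (XX (zq q) x (m + 1) (zq q (F j)) w) -
        (LL (zq q) j (zq q (E a)) (F - ep j) * kap q E F j) •
          tr (m + 1) F (XX (zq q) x (m + 1) (zq q (F j - 1)) w)) =
      ((1 - q) * (pp (zq q) F (zq q (E a)) * (zq q (∑ i, E i))⁻¹ * zq q (∑ j, F j))) • x m • w := by
  refine b00_ext fun G => ?_
  by_cases hG : Il F G
  swap
  · simp only [map_sum, map_sub, b45_smul, b00_sl_tr, if_neg hG, smul_zero, sub_zero, Finset.sum_const_zero, map_smul,
      ((b00_U_succ F w).1 hw G).2 hG]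
  · have h2 : ∀ b, (∑ j, (kap q (E + ep a) (F + ep j) j * LL (zq q) j (zq q (E a)) F * LL (zq q) b (zq q (F j)) (G - ep b) -
        LL (zq q) j (zq q (E a)) (F - ep j) * kap q E F j * LL (zq q) b (zq q (F j - 1)) (G - ep b))) •
          de (zq q) x (G - ep b) b (sl (G - ep b) w) = 0 := by
      intro b
      by_cases hb : Il F (G - ep b)
      · rw [b46_LL hq0 hq E a F hF G b hG hb, zero_smul]
      · rw [((b00_U_succ F w).1 hw (G - ep b)).2 hb, map_zero, smul_zero]
    have h3 : ∑ b, (∑ j, (kap q (E + ep a) (F + ep j) j * LL (zq q) j (zq q (E a)) F * LL (zq q) b (zq q (F j)) (G - ep b) -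
        LL (zq q) j (zq q (E a)) (F - ep j) * kap q E F j * LL (zq q) b (zq q (F j - 1)) (G - ep b))) •
          de (zq q) x (G - ep b) b (sl (G - ep b) w) = 0 := Finset.sum_eq_zero (fun b _ => h2 b)
    simp only [map_sum, map_sub, b45_smul, b00_sl_tr, if_pos hG, b00_sl_XX, map_smul]
    rw [← b46_pp hq0 hq E a F hF G hG, ← add_zero ((∑ j, _ : K) • x m • sl G w), ← h3, Finset.sum_smul]
    simp only [Finset.sum_smul]
    rw [Finset.sum_comm, ← Finset.sum_add_distrib]
    refine Finset.sum_congr rfl fun j _ => ?_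
    simp only [smul_add, Finset.smul_sum, sub_smul, Finset.sum_sub_distrib, mul_smul]
    rw [smul_comm (x m) (pp (zq q) G (zq q (F j))) (sl G w), smul_comm (x m) (pp (zq q) G (zq q (F j - 1))) (sl G w)]
    abel


end H92C
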