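import Pool.Agent.Lib.H92C.B48a

/-!
# H92C, module B, chunk B48: relation (E) for the top operator e
-/

open MvPolynomial

namespace H92C

variable {K R : Type} [Field K] [CommRing R] [Algebra K R] {q : K}

/-- Relation (E) for the top operator.

Proof. Both sides are in U (E + ε_a) (b00_de_mem, b45_ee_mem, b45_TM_mem), so (b00_ext, b00_U_succ) let F interlace E + ε_a. By b48_lhs1, b48_lhs2:
 - the terms x (m+1) • sl (F+ε_j) v cancel by b41_kap_pp;
 - the double sums over (j, b): split b = j and b ≠ j (Finset.sum over univ.erase j / Finset.add_sum_erase). For b ≠ j put H = F + ε_j - ε_b, v' = sl H v ∈ U H (b00_U_succ; if not Il E H it is 0):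
   tr F (de H b v') = de (F - ε_b) b (tr (F - ε_b) v') (b01_tr_de with E := H, a := j: H - ε_j + ε_b = F, H - ε_j = F - ε_b), and F - ε_b + ε_j = H, so these terms cancel by b41_cross;
 - for b = j: F + ε_j - ε_j = F, tr F (de F j w) = tr F (XX (z F_j) w) (b01_tr_de_self), w = sl F v ∈ U F, and de (F-ε_j) j (tr (F-ε_j) w) = tr F (XX (z(F_j - 1)) w) (b01_de_tr_self),
   F - ε_j + ε_j = F: these are the terms of b47_diag. (w ∈ U F: if Il E F from b00_U_succ, otherwise w = 0.)
The right side: b48_rhs, smul_comm. -/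
theorem b48_top (hq0 : q ≠ 0) (hq : ∀ j : ℕ, 0 < j → q ^ j ≠ 1) (x : ℕ → R) {m : ℕ} (E : Fin (m + 2) → ℤ) (a : Fin (m + 2))
    {v : W R (m + 2)} (hv : v ∈ U R (m + 2) E) :
    ee q (m + 1) (m + 2) (E + ep a) (de (zq q) x E a v) - de (zq q) x E a (ee q (m + 1) (m + 2) E v) =
      (1 - q) • x m • de (zq q) (xm R (m + 1)) E a (TM q (m + 1) (m + 2) E v) := by
  have hL : ee q (m + 1) (m + 2) (E + ep a) (de (zq q) x E a v) - de (zq q) x E a (ee q (m + 1) (m + 2) E v) ∈
      U R (m + 2) (E + ep a) :=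
    Submodule.sub_mem _ (b45_ee_mem q _ _ _ _ (b00_de_mem _ x E a hv)) (b00_de_mem _ x E a (b45_ee_mem q _ _ _ _ hv))
  have hR : (1 - q) • x m • de (zq q) (xm R (m + 1)) E a (TM q (m + 1) (m + 2) E v) ∈ U R (m + 2) (E + ep a) :=
    b00_smul_U _ _ _ (Submodule.smul_mem _ _ (b00_de_mem _ _ E a (b45_TM_mem q _ _ _ _ hv)))
  refine b00_ext fun F => ?_
  by_cases hF : Il (E + ep a) F
  swap
  · rw [((b00_U_succ _ _).1 hL F).2 hF, ((b00_U_succ _ _).1 hR F).2 hF]
  have hsl : ∀ H : Fin (m + 1) → ℤ, sl H v ∈ U R (m + 1) H := by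
    intro H
    by_cases h : Il E H
    · exact ((b00_U_succ _ _).1 hv H).1 h
    · rw [((b00_U_succ _ _).1 hv H).2 h]
      exact Submodule.zero_mem _
  have hA : ∀ j b : Fin (m + 1), b ≠ j → kap q (E + ep a) (F + ep j) j • LL (zq q) b (zq q (E a)) (F + ep j - ep b) •
          tr (m + 1) F (de (zq q) x (F + ep j - ep b) b (sl (F + ep j - ep b) v)) =
        LL (zq q) b (zq q (E a)) (F - ep b) • kap q E (F - ep b + ep j) j •
          de (zq q) x (F - ep b) b (tr (m + 1) (F - ep b) (sl (F - ep b + ep j) v)) := by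
    intro j b hb
    rw [← mul_smul, ← mul_smul, b41_cross hq0 E a F j b hb]
    congr 1
    have h1 : F + ep j - ep b = F - ep b + ep j := by abel
    have h3 := b01_tr_de (zq q) x (F + ep j - ep b) j b (Ne.symm hb) (hsl (F + ep j - ep b))
    have h4 : F + ep j - ep b - ep j + ep b = F := by abel
    have h5 : F + ep j - ep b - ep j = F - ep b := by abel
    rw [h4, h5] at h3
    rw [h3, h1]
  have hD : ∀ j : Fin (m + 1), kap q (E + ep a) (F + ep j) j • LL (zq q) j (zq q (E a)) (F + ep j - ep j) •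
          tr (m + 1) F (de (zq q) x (F + ep j - ep j) j (sl (F + ep j - ep j) v)) =
      (kap q (E + ep a) (F + ep j) j * LL (zq q) j (zq q (E a)) F) •
          tr (m + 1) F (XX (zq q) x (m + 1) (zq q (F j)) (sl F v)) := by
    intro j
    rw [add_sub_cancel_right, b01_tr_de_self (zq q) x F j (hsl F), mul_smul]
  have hD2 : ∀ j : Fin (m + 1), LL (zq q) j (zq q (E a)) (F - ep j) • kap q E (F - ep j + ep j) j •
          de (zq q) x (F - ep j) j (tr (m + 1) (F - ep j) (sl (F - ep j + ep j) v)) =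
      (LL (zq q) j (zq q (E a)) (F - ep j) * kap q E F j) •
          tr (m + 1) F (XX (zq q) x (m + 1) (zq q (F j - 1)) (sl F v)) := by
    intro j
    rw [sub_add_cancel, b01_de_tr_self (zq q) x F j (hsl F), mul_smul]
  have e1 : ∑ j, kap q (E + ep a) (F + ep j) j • (x (m + 1) • pp (zq q) (F + ep j) (zq q (E a)) •
        tr (m + 1) F (sl (F + ep j) v) +
        ∑ b, LL (zq q) b (zq q (E a)) (F + ep j - ep b) •
          tr (m + 1) F (de (zq q) x (F + ep j - ep b) b (sl (F + ep j - ep b) v))) =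
      x (m + 1) • pp (zq q) F (zq q (E a)) • (∑ j, kap q E (F + ep j) j • tr (m + 1) F (sl (F + ep j) v)) +
      ∑ j, ∑ b, kap q (E + ep a) (F + ep j) j • LL (zq q) b (zq q (E a)) (F + ep j - ep b) •
          tr (m + 1) F (de (zq q) x (F + ep j - ep b) b (sl (F + ep j - ep b) v)) := by
    simp only [smul_add, Finset.sum_add_distrib, Finset.smul_sum]
    congr 1
    refine Finset.sum_congr rfl fun j _ => ?_
    rw [smul_comm (kap q (E + ep a) (F + ep j) j) (x (m + 1)), ← mul_smul (kap q (E + ep a) (F + ep j) j),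
      b41_kap_pp hq0 E a F j, mul_smul]
  have e2 : ∑ b, LL (zq q) b (zq q (E a)) (F - ep b) • ∑ j, kap q E (F - ep b + ep j) j •
          de (zq q) x (F - ep b) b (tr (m + 1) (F - ep b) (sl (F - ep b + ep j) v)) =
      ∑ j, ∑ b, LL (zq q) b (zq q (E a)) (F - ep b) • kap q E (F - ep b + ep j) j •
          de (zq q) x (F - ep b) b (tr (m + 1) (F - ep b) (sl (F - ep b + ep j) v)) := by
    simp only [Finset.smul_sum]
    exact Finset.sum_comm
  rw [map_sub, b48_lhs1 x E a F hF v, b48_lhs2 x E a F hF v, b45_smul, map_smul, b48_rhs hq0 E a F hF v,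
    e1, e2, add_sub_add_left_eq_sub, ← Finset.sum_sub_distrib, smul_comm (x m), ← mul_smul (1 - q),
    ← b47_diag hq0 hq x E a F hF (hsl F)]
  refine Finset.sum_congr rfl fun j _ => ?_
  rw [← Finset.sum_sub_distrib, Finset.sum_eq_single j, hD, hD2]
  · intro b _ hb
    rw [hA j b hb, sub_self]
  · intro h
    exact absurd (Finset.mem_univ j) h


end H92C
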