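import Pool.Agent.Lib.H92C.B01
import Pool.Agent.Lib.H92C.B41
import Pool.Agent.Lib.H92C.B47

/-!
# H92C, module B, chunk B48a: the slices of relation (E) for the top operator e
-/

open MvPolynomial

namespace H92C

variable {K R : Type} [Field K] [CommRing R] [Algebra K R] {q : K}

/-- The slice of e (δ_a v) at F: the truncations of δ_a can be left out.

Proof. b00_sl_ee_top; for each j: sl (F+ε_j) (de x E a v) = sl (F+ε_j) (tr (E+ε_a) (XX ..)) (unfold de) = XX-slice if Il (E+ε_a) (F+ε_j) (b00_sl_tr), else 0, and then kap(E+ε_a;F+ε_j,j) = 0: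
F interlaces E+ε_a and F+ε_j does not, so F_j + 1 = (E+ε_a) j.succ (b45_kap_zero). Then b00_sl_XX and map_add, map_sum, b45_smul. -/
theorem b48_lhs1 (x : ℕ → R) {m : ℕ} (E : Fin (m + 2) → ℤ) (a : Fin (m + 2)) (F : Fin (m + 1) → ℤ) (hF : Il (E + ep a) F)
    (v : W R (m + 2)) :
    sl F (ee q (m + 1) (m + 2) (E + ep a) (de (zq q) x E a v)) =
      ∑ j, kap q (E + ep a) (F + ep j) j • (x (m + 1) • pp (zq q) (F + ep j) (zq q (E a)) • tr (m + 1) F (sl (F + ep j) v) +
        ∑ b, LL (zq q) b (zq q (E a)) (F + ep j - ep b) •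
          tr (m + 1) F (de (zq q) x (F + ep j - ep b) b (sl (F + ep j - ep b) v))) := by
  rw [b00_sl_ee_top]
  refine Finset.sum_congr rfl fun j _ => ?_
  by_cases h : Il (E + ep a) (F + ep j)
  · have h1 : sl (F + ep j) (de (zq q) x E a v) = sl (F + ep j) (XX (zq q) x (m + 2) (zq q (E a)) v) := by
      rw [de, LinearMap.comp_apply, b00_sl_tr, if_pos h]
    rw [h1, b00_sl_XX, map_add, map_smul, b45_smul, map_sum]
    simp only [b45_smul]
  · have h2 : kap q (E + ep a) (F + ep j) j = 0 := by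
      refine b45_kap_zero q (E + ep a) F j j.succ ?_
      unfold Il at h
      push Not at h
      obtain ⟨i, hi⟩ := h
      by_cases hij : i = j
      · subst hij
        have h3 := hF i
        rw [b40_add_self] at hi
        have h4 := hi (by omega)
        omega
      · rw [b40_add_ne F hij] at hi
        have h3 := hF i
        have h4 := hi h3.1
        omega
    rw [h2, zero_smul, zero_smul]


/-- The slice of δ_a (e v) at F. Proof: b00_sl_tr, b00_sl_XX, b00_sl_ee_top, map_sum, b45_smul. -/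
theorem b48_lhs2 (x : ℕ → R) {m : ℕ} (E : Fin (m + 2) → ℤ) (a : Fin (m + 2)) (F : Fin (m + 1) → ℤ) (hF : Il (E + ep a) F)
    (v : W R (m + 2)) :
    sl F (de (zq q) x E a (ee q (m + 1) (m + 2) E v)) =
      x (m + 1) • pp (zq q) F (zq q (E a)) • (∑ j, kap q E (F + ep j) j • tr (m + 1) F (sl (F + ep j) v)) +
        ∑ b, LL (zq q) b (zq q (E a)) (F - ep b) • ∑ j, kap q E (F - ep b + ep j) j •
          de (zq q) x (F - ep b) b (tr (m + 1) (F - ep b) (sl (F - ep b + ep j) v)) := by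
  have h1 : ∀ w : W R (m + 2), sl F (de (zq q) x E a w) = sl F (XX (zq q) x (m + 2) (zq q (E a)) w) := by
    intro w
    rw [de, LinearMap.comp_apply, b00_sl_tr, if_pos hF]
  rw [h1, b00_sl_XX, b00_sl_ee_top]
  congr 1
  refine Finset.sum_congr rfl fun b _ => ?_
  rw [b00_sl_ee_top, map_sum]
  simp only [b45_smul]


/-- The slice of the right side at F.

Proof. b00_sl_tr, b00_sl_XX with x = xm R (m+1): xm R (m+1) (m+1) = 1, and the operators de (xm R (m+1)) at level m + 1 are 0 (unfold de, b40_XX_zero: xm R (m+1) l = 0 for l < m+1). b40_sl_TM_top;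
zq(|F| - |E|) = (zq |E|)⁻¹ zq |F| (zpow_sub₀). -/
theorem b48_rhs (hq0 : q ≠ 0) {m : ℕ} (E : Fin (m + 2) → ℤ) (a : Fin (m + 2)) (F : Fin (m + 1) → ℤ) (hF : Il (E + ep a) F)
    (v : W R (m + 2)) :
    sl F (de (zq q) (xm R (m + 1)) E a (TM q (m + 1) (m + 2) E v)) =
      (pp (zq q) F (zq q (E a)) * (zq q (∑ i, E i))⁻¹ * zq q (∑ j, F j)) • sl F v := by
  have h1 : ∀ w : W R (m + 2), sl F (de (zq q) (xm R (m + 1)) E a w) =
      sl F (XX (zq q) (xm R (m + 1)) (m + 2) (zq q (E a)) w) := by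
    intro w
    rw [de, LinearMap.comp_apply, b00_sl_tr, if_pos hF]
  have h2 : ∀ (b : Fin (m + 1)) (w : W R (m + 1)), de (zq q) (xm R (m + 1)) (F - ep b) b w = 0 := by
    intro b w
    rw [de, LinearMap.comp_apply, b40_XX_zero, map_zero]
    intro l hl
    have h3 : l ≠ m + 1 := by omega
    simp [xm, h3]
  have h4 : xm R (m + 1) (m + 1) = 1 := by simp [xm]
  rw [h1, b00_sl_XX, h4, one_smul, b40_sl_TM_top]
  simp only [h2, smul_zero, Finset.sum_const_zero, add_zero]
  rw [← mul_smul]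
  congr 1
  have h5 : zq q ((∑ j, F j) - ∑ i, E i) = zq q (∑ j, F j) / zq q (∑ i, E i) := zpow_sub₀ hq0 _ _
  rw [h5]
  ring


end H92C
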