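import Pool.Agent.Lib.H92C.B48

/-!
# H92C, module B, chunk B49: relation (E)
-/

open MvPolynomial

namespace H92C

variable {K R : Type} [Field K] [CommRing R] [Algebra K R] {q : K}

/-- The induction step of relation (E): e_μ, μ ≠ n, at level n + 1.

Proof. Both sides are in U (E + ε_a), so (b00_ext, b00_U_succ) let F interlace E + ε_a. b00_sl_ee, b00_sl_tr, b00_sl_XX (unfold de at level n+1 only): with v_b = sl (F-ε_b) v ∈ U (F-ε_b), s = z(E_a)
 sl F (ee (de v)) = ee F (x n • pp F s • sl F v + ∑ b, LL b s (F-ε_b) • de (F-ε_b) b v_b),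
 sl F (de (ee v)) = x n • pp F s • ee F (sl F v) + ∑ b, LL b s (F-ε_b) • de (F-ε_b) b (ee (F-ε_b) v_b),
so the difference is ∑ b, LL b s (F-ε_b) • [ee F (de (F-ε_b) b v_b) - de (F-ε_b) b (ee (F-ε_b) v_b)] and hI (row F - ε_b, F - ε_b + ε_b = F) gives (1-q) • x (μ-1) • de (xm μ) (F-ε_b) b (TM (F-ε_b) v_b).
The right side: xm R μ n = 0 (μ ≠ n), so its slice is (1-q) • x (μ-1) • ∑ b, LL b s (F-ε_b) • de (xm μ) (F-ε_b) b (sl (F-ε_b) (TM v)), b40_sl_TM. -/
theorem b49_step {n μ : ℕ} (hμ : μ ≠ n) (x : ℕ → R)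
    (hI : ∀ (E : Fin n → ℤ) (a : Fin n) (v : W R n), v ∈ U R n E →
      ee q μ n (E + ep a) (de (zq q) x E a v) - de (zq q) x E a (ee q μ n E v) =
        (1 - q) • x (μ - 1) • de (zq q) (xm R μ) E a (TM q μ n E v))
    (E : Fin (n + 1) → ℤ) (a : Fin (n + 1)) {v : W R (n + 1)} (hv : v ∈ U R (n + 1) E) :
    ee q μ (n + 1) (E + ep a) (de (zq q) x E a v) - de (zq q) x E a (ee q μ (n + 1) E v) =
      (1 - q) • x (μ - 1) • de (zq q) (xm R μ) E a (TM q μ (n + 1) E v) := by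
  have hL : ee q μ (n + 1) (E + ep a) (de (zq q) x E a v) - de (zq q) x E a (ee q μ (n + 1) E v) ∈
      U R (n + 1) (E + ep a) :=
    Submodule.sub_mem _ (b45_ee_mem q _ _ _ _ (b00_de_mem _ x E a hv)) (b00_de_mem _ x E a (b45_ee_mem q _ _ _ _ hv))
  have hR : (1 - q) • x (μ - 1) • de (zq q) (xm R μ) E a (TM q μ (n + 1) E v) ∈ U R (n + 1) (E + ep a) :=
    b00_smul_U _ _ _ (Submodule.smul_mem _ _ (b00_de_mem _ _ E a (b45_TM_mem q _ _ _ _ hv)))
  refine b00_ext fun F => ?_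
  by_cases hF : Il (E + ep a) F
  swap
  · rw [((b00_U_succ _ _).1 hL F).2 hF, ((b00_U_succ _ _).1 hR F).2 hF]
  have hsl : ∀ H : Fin n → ℤ, sl H v ∈ U R n H := by
    intro H
    by_cases h : Il E H
    · exact ((b00_U_succ _ _).1 hv H).1 h
    · rw [((b00_U_succ _ _).1 hv H).2 h]
      exact Submodule.zero_mem _
  have hde : ∀ (y : ℕ → R) (w : W R (n + 1)), sl F (de (zq q) y E a w) =
      y n • (pp (zq q) F (zq q (E a)) • sl F w) +
        ∑ b, LL (zq q) b (zq q (E a)) (F - ep b) • de (zq q) y (F - ep b) b (sl (F - ep b) w) := by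
    intro y w
    rw [← b00_sl_XX, de, LinearMap.comp_apply, b00_sl_tr, if_pos hF]
  have hxm : xm R μ n = 0 := by simp [xm, Ne.symm hμ]
  rw [map_sub, b00_sl_ee q μ hμ, hde, hde, b45_smul, map_smul, hde, hxm, zero_smul, zero_add]
  simp only [b00_sl_ee q μ hμ, b40_sl_TM q hμ]
  rw [map_add, map_smul, b45_smul, map_sum]
  simp only [b45_smul]
  rw [add_sub_add_left_eq_sub, ← Finset.sum_sub_distrib, Finset.smul_sum, Finset.smul_sum]
  refine Finset.sum_congr rfl fun b _ => ?_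
  have h1 := hI (F - ep b) b (sl (F - ep b) v) (hsl _)
  rw [sub_add_cancel] at h1
  rw [← smul_sub, h1, smul_comm (x (μ - 1)) (LL (zq q) b (zq q (E a)) (F - ep b)),
    smul_comm (1 - q) (LL (zq q) b (zq q (E a)) (F - ep b))]


/-- Relation (E). Proof: induction on n. n = 0: no μ. n + 1: μ = n (then n = m + 1): b48_top; otherwise μ < n and b49_step. -/
theorem b49_relE (hq0 : q ≠ 0) (hq : ∀ j : ℕ, 0 < j → q ^ j ≠ 1) (x : ℕ → R) {μ : ℕ} (h1 : 1 ≤ μ) : ∀ (n : ℕ), μ < n →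
    ∀ (E : Fin n → ℤ) (a : Fin n) (v : W R n), v ∈ U R n E →
      ee q μ n (E + ep a) (de (zq q) x E a v) - de (zq q) x E a (ee q μ n E v) =
        (1 - q) • x (μ - 1) • de (zq q) (xm R μ) E a (TM q μ n E v) := by
  intro n
  induction n with
  | zero => intro h; omega
  | succ n ih =>
    intro h E a v hv
    by_cases hn : μ = n
    · subst hn
      obtain ⟨m, rfl⟩ : ∃ m, μ = m + 1 := ⟨μ - 1, by omega⟩
      exact b48_top hq0 hq x E a hv
    · exact b49_step hn x (fun E a v hv => ih (by omega) E a v hv) E a hv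

end H92C
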