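import Pool.Agent.Lib.H92C.B45

/-!
# H92C, module B, chunk B50: the diagonal operators T_μ and the operators e, tr
-/

open MvPolynomial

namespace H92C

variable {K R : Type} [Field K] [CommRing R] [Algebra K R] {q : K}

/-- T_μ does not depend on the row E if μ + 1 < n. Proof: n = n' + 1, the formula (TM at level n'+1 with μ ≠ n' does not contain E). -/
theorem b50_TM_indep {n μ : ℕ} (h : μ + 1 < n) (E E' : Fin n → ℤ) (v : W R n) : TM q μ n E v = TM q μ n E' v := by
  cases n with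
  | zero => omega
  | succ n =>
    refine b00_ext fun F => ?_
    rw [b40_sl_TM q (by omega), b40_sl_TM q (by omega)]


/-- T_μ commutes with the truncations (μ + 1 < n). Proof: it is diagonal; n = n' + 1, b00_ext, b00_sl_tr, b40_sl_TM (split on Il; map_zero). -/
theorem b50_TM_tr {n μ : ℕ} (h : μ + 1 < n) (E E' : Fin n → ℤ) (v : W R n) :
    TM q μ n E (tr n E' v) = tr n E' (TM q μ n E v) := by
  cases n with
  | zero => omega
  | succ n =>
    refine b00_ext fun F => ?_
    rw [b40_sl_TM q (by omega), b00_sl_tr, b00_sl_tr, b40_sl_TM q (by omega)]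
    split_ifs
    · rfl
    · rw [map_zero]


/-- The top T: T (tr v) at the row E - ε_k. Proof: b00_ext, b00_sl_tr, b40_sl_TM_top; |F| - |E - ε_k| = |F| - |E| + 1, b40_zq_succ, smul. -/
theorem b50_TM_tr_top (hq0 : q ≠ 0) {n : ℕ} (E : Fin (n + 1) → ℤ) (k : Fin (n + 1)) (E' : Fin (n + 1) → ℤ) (v : W R (n + 1)) :
    TM q n (n + 1) (E - ep k) (tr (n + 1) E' v) = q • tr (n + 1) E' (TM q n (n + 1) E v) := by
  refine b00_ext fun F => ?_
  rw [b40_sl_TM_top, b45_smul, b00_sl_tr, b00_sl_tr, b40_sl_TM_top, b40_sum_sub]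
  split_ifs
  · rw [← mul_smul, ← b40_zq_succ hq0]
    congr 2
    ring
  · rw [smul_zero, smul_zero]


/-- e_μ' is 0 on the levels n ≤ μ'. -/
theorem b50_ee_zero {μ' : ℕ} : ∀ (n : ℕ), n ≤ μ' → ∀ (E : Fin n → ℤ) (v : W R n), ee q μ' n E v = 0 := by
  intro n
  induction n with
  | zero => intro _ E v; rfl
  | succ n ih =>
    intro h E v
    refine b00_ext fun F => ?_
    rw [b00_sl_ee q μ' (by omega), ih (by omega), map_zero]

/-- T_μ and e_{μ'} commute if μ + 1 < μ'.

Proof. Induction on n (n = 0: both sides 0). n + 1: if n < μ' then ee q μ' (n+1) = 0 ... (or treat it by the same induction: μ' ≠ n, b00_sl_ee). b00_ext.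
 μ' = n: b00_sl_ee_top, b40_sl_TM (μ ≠ n): sl F (TM (ee v)) = TM μ n F (∑ kap • tr F (sl (F+ε_b) v)), sl F (ee (TM v)) = ∑ kap • tr F (TM μ n (F+ε_b) (sl (F+ε_b) v)): map_sum, b45_smul, b50_TM_tr, b50_TM_indep.
 μ' ≠ n: b00_sl_ee. If μ = n then (μ' > n) both sides are 0: ee q μ' n = 0 for μ' > n; simplest: first prove ee q μ' n E v = 0 for μ' ≥ n by induction. If μ ≠ n: b40_sl_TM and induction. -/
theorem b50_TM_ee {μ μ' : ℕ} (h : μ + 1 < μ') : ∀ (n : ℕ) (E : Fin n → ℤ) (v : W R n),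
    TM q μ n E (ee q μ' n E v) = ee q μ' n E (TM q μ n E v) := by
  intro n
  induction n with
  | zero => intro E v; rfl
  | succ n ih =>
    intro E v
    refine b00_ext fun F => ?_
    by_cases h1 : μ' = n
    · subst h1
      rw [b40_sl_TM q (by omega), b00_sl_ee_top, b00_sl_ee_top, map_sum]
      refine Finset.sum_congr rfl fun b _ => ?_
      rw [b45_smul, b50_TM_tr h, b40_sl_TM q (by omega), b50_TM_indep h F (F + ep b)]
    · by_cases h2 : μ = n
      · subst h2
        rw [b50_ee_zero (μ + 1) (by omega), b50_ee_zero (μ + 1) (by omega), map_zero, map_zero]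
      · rw [b40_sl_TM q h2, b00_sl_ee q μ' h1, b00_sl_ee q μ' h1, b40_sl_TM q h2, ih]


/-- T_μ e_{μ+1} = q e_{μ+1} T_μ.

Proof. Induction on n. n + 1: μ + 1 = n: b00_ext, b00_sl_ee_top, b40_sl_TM (μ ≠ n): sl F (TM (ee v)) = TM μ n F (∑ kap • tr F w_b), w_b = sl (F+ε_b) v, n = μ + 1, and b50_TM_tr_top with
E := F + ε_b, k := b (F + ε_b - ε_b = F): TM μ n F (tr F w_b) = q • tr F (TM μ n (F+ε_b) w_b). μ + 1 ≠ n: b00_sl_ee; if μ = n then ee q (n+1) (n+1) = 0 on both sides (as above), otherwise b40_sl_TM and induction. -/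
theorem b50_TM_ee_succ (hq0 : q ≠ 0) (μ : ℕ) : ∀ (n : ℕ) (E : Fin n → ℤ) (v : W R n),
    TM q μ n E (ee q (μ + 1) n E v) = q • ee q (μ + 1) n E (TM q μ n E v) := by
  intro n
  induction n with
  | zero =>
    intro E v
    funext c
    show (0 : R) = q • (0 : R)
    rw [smul_zero]
  | succ n ih =>
    intro E v
    refine b00_ext fun F => ?_
    by_cases h1 : μ + 1 = n
    · subst h1
      rw [b45_smul, b40_sl_TM q (by omega), b00_sl_ee_top, b00_sl_ee_top, map_sum, Finset.smul_sum]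
      refine Finset.sum_congr rfl fun b _ => ?_
      have h3 := b50_TM_tr_top hq0 (F + ep b) b F (sl (F + ep b) v)
      rw [add_sub_cancel_right] at h3
      rw [b45_smul, b40_sl_TM q (by omega), h3, smul_comm]
    · by_cases h2 : μ = n
      · subst h2
        rw [b50_ee_zero (μ + 1) (by omega), b50_ee_zero (μ + 1) (by omega), map_zero, smul_zero]
      · rw [b45_smul, b40_sl_TM q h2, b00_sl_ee q _ h1, b00_sl_ee q _ h1, b40_sl_TM q h2, ih]


end H92C
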