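import Pool.Agent.Lib.H92C.B50

/-!
# H92C, module B, chunk B51: T_μ and C
-/

open MvPolynomial

namespace H92C

variable {K R : Type} [Field K] [CommRing R] [Algebra K R] {q : K}

/-- T_μ commutes with C_{n-r} if μ < n - r - 1.

Proof. Induction on r. r = 0: CC E k 0 = tr (E - ε_k): b50_TM_tr, b50_TM_indep (E - ε_k and E). r + 1: CC E k (r+1) v = CC E k r (ee ν E v) - q⁻¹ • ee ν (E-ε_k) (CC E k r v) with ν = n - r - 1, μ + 1 < ν:
b50_TM_ee on both terms, induction, map_sub, map_smul (algebraMap K R q⁻¹ • is R-linear). -/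
theorem b51_TM_CC_lt {n : ℕ} (E : Fin n → ℤ) (k : Fin n) (r : ℕ) {μ : ℕ} (h : μ + r + 1 < n) (v : W R n) :
    TM q μ n (E - ep k) (CC q E k r v) = CC q E k r (TM q μ n E v) := by
  induction r generalizing v with
  | zero =>
    show TM q μ n (E - ep k) (tr n (E - ep k) v) = tr n (E - ep k) (TM q μ n E v)
    rw [b50_TM_tr (by omega) (E - ep k) (E - ep k) v, b50_TM_indep (by omega) (E - ep k) E v]
  | succ r ih =>
    show TM q μ n (E - ep k) (CC q E k r (ee q (n - r - 1) n E v) -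
      algebraMap K R q⁻¹ • ee q (n - r - 1) n (E - ep k) (CC q E k r v)) =
      CC q E k r (ee q (n - r - 1) n E (TM q μ n E v)) -
      algebraMap K R q⁻¹ • ee q (n - r - 1) n (E - ep k) (CC q E k r (TM q μ n E v))
    rw [map_sub, map_smul, ih (by omega), b50_TM_ee (by omega), b50_TM_ee (by omega), ih (by omega)]

/-- T_μ C_{n-r} = q C_{n-r} T_μ for μ = n - r - 1.

Proof. Cases r. r = 0: n = μ + 1: b50_TM_tr_top with E' = E - ε_k. r + 1: ν = n - r - 1 = μ + 1; T_μ commutes with CC E k r (b51_TM_CC_lt, μ + r + 1 < n) and T_μ e_ν = q e_ν T_μ (b50_TM_ee_succ) for both rows: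
T (CC r (ee v) - q⁻¹ ee (CC r v)) = CC r (T (ee v)) - q⁻¹ T (ee (CC r v)) = q CC r (ee (T v)) - q⁻¹ q ee (CC r (T v)). -/
theorem b51_TM_CC (hq0 : q ≠ 0) {n : ℕ} (E : Fin n → ℤ) (k : Fin n) (r : ℕ) {μ : ℕ} (h : μ + r + 1 = n) (v : W R n) :
    TM q μ n (E - ep k) (CC q E k r v) = q • CC q E k r (TM q μ n E v) := by
  cases r with
  | zero =>
    obtain rfl : n = μ + 1 := by omega
    exact b50_TM_tr_top hq0 E k (E - ep k) v
  | succ r =>
    have h1 : n - r - 1 = μ + 1 := by omega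
    show TM q μ n (E - ep k) (CC q E k r (ee q (n - r - 1) n E v) -
      algebraMap K R q⁻¹ • ee q (n - r - 1) n (E - ep k) (CC q E k r v)) =
      q • (CC q E k r (ee q (n - r - 1) n E (TM q μ n E v)) -
      algebraMap K R q⁻¹ • ee q (n - r - 1) n (E - ep k) (CC q E k r (TM q μ n E v)))
    rw [h1, map_sub, map_smul, b51_TM_CC_lt E k r (by omega), b50_TM_ee_succ hq0, b50_TM_ee_succ hq0,
      b51_TM_CC_lt E k r (by omega), b45_smul, smul_sub, smul_comm (algebraMap K R q⁻¹) q]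

end H92C
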