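import Pool.Agent.Lib.H92C.B02
import Pool.Agent.Lib.H92C.B49
import Pool.Agent.Lib.H92C.B51

/-!
# H92C, module B, chunk B52: the operators C commute with δ_a
-/

open MvPolynomial

namespace H92C

variable {K R : Type} [Field K] [CommRing R] [Algebra K R] {q : K}

/-- C and δ_a, a ≠ k.

Proof. Induction on r, for all x. r = 0: b01_tr_de with a := k, b := a: E - ε_k + ε_a = E + ε_a - ε_k (rewrite the row by abel).
r + 1: let ν = n - r - 1, 1 ≤ ν < n (r + 1 < n), v' = de x E a v. CC (E+ε_a) k (r+1) v' = CC (E+ε_a) k r (ee ν (E+ε_a) v') - q⁻¹ ee ν (E+ε_a-ε_k) (CC (E+ε_a) k r v').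
First term: ee ν (E+ε_a) v' = de x E a (ee ν E v) + (1-q) x(ν-1) de x^(ν) E a (T v) (b49_relE), ee ν E v, T v ∈ U E (b45), and the induction hypothesis for x and for x^(ν) = xm R ν.
Second term: CC (E+ε_a) k r v' = de x (E-ε_k) a (CC E k r v) (induction), CC E k r v ∈ U (E-ε_k) (b45_CC_mem), E + ε_a - ε_k = E - ε_k + ε_a, b49_relE for E - ε_k:
= de x (E-ε_k) a (ee ν (E-ε_k) (CC E k r v)) + (1-q) x(ν-1) de x^(ν) (E-ε_k) a (T (CC E k r v)), and T (CC E k r v) = q CC E k r (T v) (b51_TM_CC, μ = ν: ν + r + 1 = n).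
The two extra terms cancel: (1-q) x(ν-1) de x^(ν) (E-ε_k) a (CC E k r (T v)) - q⁻¹ (1-q) x(ν-1) de x^(ν) (E-ε_k) a (q CC E k r (T v)) = 0.
(algebraMap K R q⁻¹ • w = q⁻¹ • w: algebraMap_smul.) -/
theorem b52_CC_de (hq0 : q ≠ 0) (hq : ∀ j : ℕ, 0 < j → q ^ j ≠ 1) {n : ℕ} (E : Fin n → ℤ) (a k : Fin n) (hak : a ≠ k)
    {v : W R n} (hv : v ∈ U R n E) (r : ℕ) : r < n → ∀ x : ℕ → R,
    CC q (E + ep a) k r (de (zq q) x E a v) = de (zq q) x (E - ep k) a (CC q E k r v) := by
  induction r generalizing v with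
  | zero =>
    intro _ x
    have h1 := b01_tr_de (zq q) x E k a (Ne.symm hak) hv
    have h2 : E - ep k + ep a = E + ep a - ep k := by abel
    rw [h2] at h1
    exact h1
  | succ r ih =>
    intro hr x
    have hE : E + ep a - ep k = E - ep k + ep a := by abel
    show CC q (E + ep a) k r (ee q (n - r - 1) n (E + ep a) (de (zq q) x E a v)) -
      algebraMap K R q⁻¹ • ee q (n - r - 1) n (E + ep a - ep k) (CC q (E + ep a) k r (de (zq q) x E a v)) =
      de (zq q) x (E - ep k) a (CC q E k r (ee q (n - r - 1) n E v) -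
      algebraMap K R q⁻¹ • ee q (n - r - 1) n (E - ep k) (CC q E k r v))
    have h1 := b49_relE hq0 hq x (μ := n - r - 1) (by omega) n (by omega) E a v hv
    have h2 := b49_relE hq0 hq x (μ := n - r - 1) (by omega) n (by omega) (E - ep k) a (CC q E k r v)
      (b45_CC_mem q E k r hv)
    rw [sub_eq_iff_eq_add] at h1 h2
    rw [h1, ih hv (by omega) x, hE, h2, map_add, b45_smul, map_smul (CC q (E + ep a) k r),
      ih (b45_ee_mem q _ n E v hv) (by omega) x, ih (b45_TM_mem q _ n E v hv) (by omega),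
      b51_TM_CC hq0 E k r (by omega), map_sub, map_smul (de (zq q) x (E - ep k) a), b45_smul _ q,
      algebraMap_smul, smul_add, algebraMap_smul]
    have h3 : q⁻¹ • ((1 - q) • x (n - r - 1 - 1) • q •
        de (zq q) (xm R (n - r - 1)) (E - ep k) a (CC q E k r (TM q (n - r - 1) n E v))) =
        (1 - q) • x (n - r - 1 - 1) •
        de (zq q) (xm R (n - r - 1)) (E - ep k) a (CC q E k r (TM q (n - r - 1) n E v)) := by
      rw [smul_comm (x (n - r - 1 - 1)) q, smul_comm (1 - q) q, smul_smul, inv_mul_cancel₀ hq0, one_smul]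
    rw [h3]
    abel

/-- C and δ_p^m, p ≠ k. Proof: induction on m (b02_dd_succ, b02_dd_mem, b02_up_succ, b52_CC_de for the row E + up p m; E + up p m - ε_k = E - ε_k + up p m). -/
theorem b52_CC_dd (hq0 : q ≠ 0) (hq : ∀ j : ℕ, 0 < j → q ^ j ≠ 1) {n : ℕ} (x : ℕ → R) (E : Fin n → ℤ) (p k : Fin n) (hpk : p ≠ k)
    {v : W R n} (hv : v ∈ U R n E) {r : ℕ} (hr : r < n) (m : ℕ) :
    CC q (E + up p m) k r (dd (zq q) x E p m v) = dd (zq q) x (E - ep k) p m (CC q E k r v) := by
  induction m with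
  | zero => rw [b02_up_zero, add_zero]; rfl
  | succ m ih =>
    have h1 : E - ep k + up p m = E + up p m - ep k := by abel
    rw [b02_dd_succ, b02_dd_succ, ← ih, b02_up_succ, ← add_assoc, h1]
    exact b52_CC_de hq0 hq (E + up p m) p k hpk (b02_dd_mem (zq q) x E p m hv) r hr x

end H92C
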