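import Pool.Agent.Lib.H92C.B52

/-!
# H92C, module B, chunk B53: the operators C commute with the boundaries (all but the last one)
-/

open MvPolynomial

namespace H92C

variable {K R : Type} [Field K] [CommRing R] [Algebra K R] {q : K} {N : ℕ}

/-- The last entry of the rows dl G j, j ≠ last. Proof: (k : ℕ) + 1 = N, j < N: succAbove of k is its succ (Fin.succAbove_of_le_castSucc) = last. -/
theorem b53_index (j : Fin (N + 1)) (hj : j ≠ Fin.last N) (k : Fin N) (hk : (k : ℕ) + 1 = N) : j.succAbove k = Fin.last N := by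
  have hj' : (j : ℕ) < N := by
    have h1 := j.isLt
    have h2 : (j : ℕ) ≠ N := fun h => hj (Fin.ext h)
    omega
  rw [Fin.succAbove_of_le_castSucc j k (by rw [Fin.le_def, Fin.val_castSucc]; omega)]
  apply Fin.ext
  rw [Fin.val_succ, Fin.val_last]
  exact hk

/-- The rows of G - ε_last. Proof: b02_dl_sub_ep, b53_index. -/
theorem b53_dl (G : Fin (N + 1) → ℤ) (j : Fin (N + 1)) (hj : j ≠ Fin.last N) (k : Fin N) (hk : (k : ℕ) + 1 = N) :
    dl (G - ep (Fin.last N)) j = dl G j - ep k :=
  b02_dl_sub_ep G j (Fin.last N) k (b53_index j hj k hk)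

/-- C commutes with the boundary from position l + 1 < N to l.

Proof. l ≠ k, so l.succ ≠ last and l.castSucc ≠ last: (G - ε_last) l.succ = G l.succ, same for l.castSucc (b01_ep_ne). b02_bd_eq on both sides (hG gives the order; CC .. v ∈ U (dl G l.succ - ε_k) = U (dl (G-ε_last) l.succ) by
b45_CC_mem, b53_dl), b02_dl_castSucc for the row dl G l.castSucc = dl G l.succ + up l m, m = (G l.succ - G l.castSucc).toNat, and b52_CC_dd. -/
theorem b53_CC_bd (hq0 : q ≠ 0) (hq : ∀ j : ℕ, 0 < j → q ^ j ≠ 1) (x : ℕ → R) (G : Fin (N + 1) → ℤ) (hG : StrictMono G)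
    (l k : Fin N) (hk : (k : ℕ) + 1 = N) (hlk : l ≠ k) {r : ℕ} (hr : r < N) {v : W R N} (hv : v ∈ U R N (dl G l.succ)) :
    CC q (dl G l.castSucc) k r (bd (zq q) x G l v) = bd (zq q) x (G - ep (Fin.last N)) l (CC q (dl G l.succ) k r v) := by
  have hlk' : (l : ℕ) ≠ k := fun h => hlk (Fin.ext h)
  have hl := l.isLt
  have h1 : l.succ ≠ Fin.last N := by
    intro h
    have := congrArg Fin.val h
    rw [Fin.val_succ, Fin.val_last] at this
    omega
  have h2 : l.castSucc ≠ Fin.last N := by
    intro h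
    have := congrArg Fin.val h
    rw [Fin.val_castSucc, Fin.val_last] at this
    omega
  have e1 : (G - ep (Fin.last N)) l.succ = G l.succ := by
    rw [Pi.sub_apply, b01_ep_ne h1, sub_zero]
  have e2 : (G - ep (Fin.last N)) l.castSucc = G l.castSucc := by
    rw [Pi.sub_apply, b01_ep_ne h2, sub_zero]
  have h3 : G l.castSucc ≤ G l.succ := hG.monotone (Fin.castSucc_lt_succ (i := l)).le
  have h4 : CC q (dl G l.succ) k r v ∈ U R N (dl (G - ep (Fin.last N)) l.succ) := by
    rw [b53_dl G l.succ h1 k hk]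
    exact b45_CC_mem q _ k r hv
  rw [b02_bd_eq (zq q) x G l h3 hv, b02_bd_eq (zq q) x (G - ep (Fin.last N)) l (by rw [e1, e2]; exact h3) h4, e1, e2,
    b02_dl_castSucc G l h3, b53_dl G l.succ h1 k hk]
  exact b52_CC_dd hq0 hq x _ l k hlk hv hr _

end H92C
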