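import Pool.Agent.Lib.H92C.CD

/-!
# H92C, chunk C01 (S, 9 small lemmas): homogeneous polynomials of integral degree (over any commutative ring B)

Similar lemmas over a field are in Pool/Agent/Lib/H92B/Basic.lean (hm_mul, hm_coeff, ..): copy the proofs.
-/

set_option autoImplicit false

open MvPolynomial

namespace H92C

variable {N : ℕ} {B : Type} [CommRing B]

theorem c01_nat {j : ℕ} {p : MvPolynomial (Fin N) B} : p ∈ hm N B (j : ℤ) ↔ p.IsHomogeneous j := by
  unfold hm
  rw [if_pos (Int.natCast_nonneg j), Int.toNat_natCast]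
  exact mem_homogeneousSubmodule _ _

theorem c01_neg {j : ℤ} (hj : j < 0) {p : MvPolynomial (Fin N) B} : p ∈ hm N B j ↔ p = 0 := by
  unfold hm
  rw [if_neg (not_le.2 hj)]
  exact Submodule.mem_bot B

theorem c01_toNat {j : ℤ} {p : MvPolynomial (Fin N) B} (h : p ∈ hm N B j) : p.IsHomogeneous j.toNat := by
  rcases lt_or_ge j 0 with hj | hj
  · rw [(c01_neg hj).1 h]
    exact isHomogeneous_zero _ _ _
  · obtain ⟨a, rfl⟩ := Int.eq_ofNat_of_zero_le hj
    rw [Int.toNat_natCast]
    exact c01_nat.1 h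

theorem c01_deg (s : Fin N →₀ ℕ) : ((s.degree : ℕ) : ℤ) = ∑ i, (s i : ℤ) := by
  rw [Finsupp.degree_eq_sum]
  push_cast
  rfl

theorem c01_add {s x y : Fin N →₀ ℕ} (h : x + y = s) :
    ∑ i, (s i : ℤ) = ∑ i, (x i : ℤ) + ∑ i, (y i : ℤ) := by
  rw [← h, ← Finset.sum_add_distrib]
  refine Finset.sum_congr rfl fun i _ => ?_
  rw [Finsupp.add_apply]
  push_cast
  rfl

/-- By the coefficients. -/
theorem c01_coeff {j : ℤ} {p : MvPolynomial (Fin N) B} : p ∈ hm N B j ↔ ∀ s : Fin N →₀ ℕ, coeff s p ≠ 0 → ∑ i, (s i : ℤ) = j := by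
  rcases lt_or_ge j 0 with hj | hj
  · rw [c01_neg hj]
    constructor
    · rintro rfl s hs
      exact absurd (coeff_zero s) hs
    · intro h
      ext s
      rw [coeff_zero]
      by_contra hcon
      have h1 := h s hcon
      have h2 : 0 ≤ ∑ i, (s i : ℤ) := Finset.sum_nonneg fun i _ => Int.natCast_nonneg _
      omega
  · obtain ⟨a, rfl⟩ := Int.eq_ofNat_of_zero_le hj
    rw [c01_nat]
    constructor
    · intro h s hs
      rw [← c01_deg]
      have h1 := h hs
      have h2 : s.degree = a := by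
        rw [Finsupp.degree_eq_weight_one]
        exact h1
      exact_mod_cast h2
    · intro h s hs
      have h1 := h s hs
      rw [← c01_deg] at h1
      have h2 : s.degree = a := by exact_mod_cast h1
      rw [Finsupp.degree_eq_weight_one] at h2
      exact h2

theorem c01_mul {i j : ℤ} {p q : MvPolynomial (Fin N) B} (hp : p ∈ hm N B i) (hq : q ∈ hm N B j) : p * q ∈ hm N B (i + j) := by
  rcases lt_or_ge i 0 with hi | hi
  · rw [(c01_neg hi).1 hp, zero_mul]
    exact Submodule.zero_mem _
  rcases lt_or_ge j 0 with hj | hj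
  · rw [(c01_neg hj).1 hq, mul_zero]
    exact Submodule.zero_mem _
  obtain ⟨a, rfl⟩ := Int.eq_ofNat_of_zero_le hi
  obtain ⟨c, rfl⟩ := Int.eq_ofNat_of_zero_le hj
  have h3 := c01_nat.2 ((c01_nat.1 hp).mul (c01_nat.1 hq))
  push_cast at h3
  exact h3

theorem c01_C (c : B) : (C c : MvPolynomial (Fin N) B) ∈ hm N B 0 := by
  have := c01_nat.2 (isHomogeneous_C (Fin N) c)
  exact_mod_cast this

theorem c01_X (a : Fin N) : (X a : MvPolynomial (Fin N) B) ∈ hm N B 1 := by
  have := c01_nat.2 (isHomogeneous_X B a)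
  exact_mod_cast this

/-- The coefficients of the homogeneous component. -/
theorem c01_hc_coeff (j : ℤ) (p : MvPolynomial (Fin N) B) (s : Fin N →₀ ℕ) :
    coeff s (hc j p) = if ∑ i, (s i : ℤ) = j then coeff s p else 0 := by
  unfold hc
  rcases lt_or_ge j 0 with hj | hj
  · rw [if_neg (not_le.2 hj), LinearMap.zero_apply, coeff_zero, if_neg]
    have h2 : 0 ≤ ∑ i, (s i : ℤ) := Finset.sum_nonneg fun i _ => Int.natCast_nonneg _
    omega
  · obtain ⟨a, rfl⟩ := Int.eq_ofNat_of_zero_le hj
    rw [if_pos hj, Int.toNat_natCast, coeff_homogeneousComponent, ← c01_deg]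
    by_cases h : s.degree = a
    · rw [if_pos h, if_pos (by exact_mod_cast h)]
    · rw [if_neg h, if_neg (by exact_mod_cast h)]

theorem c01_hc_mem (j : ℤ) (p : MvPolynomial (Fin N) B) : hc j p ∈ hm N B j := by
  rw [c01_coeff]
  intro s hs
  rw [c01_hc_coeff] at hs
  by_contra hcon
  rw [if_neg hcon] at hs
  exact hs rfl

/-- A homogeneous polynomial is its component. -/
theorem c01_hc_self {j : ℤ} {p : MvPolynomial (Fin N) B} (hp : p ∈ hm N B j) : hc j p = p := by
  ext s
  rw [c01_hc_coeff]
  split_ifs with h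
  · rfl
  · by_contra hcon
    exact h (c01_coeff.1 hp s (Ne.symm hcon))

/-- Multiplication by a homogeneous polynomial shifts the components.  PROOF: both sides are additive in q, q a monomial, and p is a sum of
monomials of degree i (or coefficients: coeff_mul, antidiagonal). -/
theorem c01_hc_mul {i j : ℤ} {p : MvPolynomial (Fin N) B} (hp : p ∈ hm N B i) (q : MvPolynomial (Fin N) B) :
    hc (i + j) (p * q) = p * hc j q := by
  ext s
  rw [c01_hc_coeff, coeff_mul, coeff_mul]
  split_ifs with h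
  · refine Finset.sum_congr rfl fun x hx => ?_
    rw [Finset.HasAntidiagonal.mem_antidiagonal] at hx
    by_cases h0 : coeff x.1 p = 0
    · rw [h0, zero_mul, zero_mul]
    · have h1 := c01_coeff.1 hp x.1 h0
      have h2 := c01_add hx
      rw [c01_hc_coeff, if_pos (by omega)]
  · symm
    refine Finset.sum_eq_zero fun x hx => ?_
    rw [Finset.HasAntidiagonal.mem_antidiagonal] at hx
    by_cases h0 : coeff x.1 p = 0
    · rw [h0, zero_mul]
    · have h1 := c01_coeff.1 hp x.1 h0
      have h2 := c01_add hx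
      rw [c01_hc_coeff, if_neg (by omega), mul_zero]

/-- A polynomial is the sum of its components. -/
theorem c01_sum (p : MvPolynomial (Fin N) B) : ∃ T : ℕ, ∀ T' ≥ T, ∑ t ∈ Finset.range T', hc (t : ℤ) p = p := by
  refine ⟨p.totalDegree + 1, fun T' hT => ?_⟩
  ext s
  rw [coeff_sum]
  simp only [c01_hc_coeff]
  by_cases h0 : coeff s p = 0
  · rw [h0]
    simp
  · have h1 : s.degree ≤ p.totalDegree := by
      have := le_totalDegree (mem_support_iff.2 h0)
      rw [Finsupp.degree_eq_sum]
      rwa [Finsupp.sum_fintype _ _ (fun _ => rfl)] at this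
    have h2 : s.degree ∈ Finset.range T' := Finset.mem_range.2 (by omega)
    rw [Finset.sum_eq_single_of_mem _ h2]
    · rw [if_pos (c01_deg s).symm]
    · intro t _ ht
      rw [if_neg]
      rw [← c01_deg]
      intro hcon
      apply ht
      exact_mod_cast hcon.symm

end H92C
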