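import Pool.Agent.Lib.H92C.B45
import Pool.Agent.Lib.H92C.C01

/-!
# H92C, module B, chunk B54: the operators C and constants, homogeneous vectors
-/

open MvPolynomial

namespace H92C

variable {K : Type} [Field K] (q : K) {N : ℕ}

theorem b54_io_add {n : ℕ} (v w : W K n) : io (N := N) (v + w) = io v + io w := by
  funext c
  exact map_add C _ _

theorem b54_io_smul {n : ℕ} (k : K) (v : W K n) : io (N := N) (k • v) = k • io v := by
  funext c
  show C (k * v c) = k • C (v c)
  rw [map_mul, smul_eq_C_mul]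

theorem b54_io_zero {n : ℕ} : io (N := N) (0 : W K n) = 0 := by
  funext c
  exact map_zero C

theorem b54_io_sum {n : ℕ} {ι : Type} (s : Finset ι) (f : ι → W K n) : io (N := N) (∑ i ∈ s, f i) = ∑ i ∈ s, io (f i) := by
  classical
  induction s using Finset.induction_on with
  | empty => rw [Finset.sum_empty, Finset.sum_empty, b54_io_zero]
  | insert a s ha ih => rw [Finset.sum_insert ha, Finset.sum_insert ha, b54_io_add, ih]

/-- The truncation of constants. Proof: pointwise (n = 0 and n + 1), split on Il; C 0 = 0. -/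
theorem b54_io_tr {n : ℕ} (E : Fin n → ℤ) (v : W K n) : tr n E (io (N := N) v) = io (tr n E v) := by
  cases n with
  | zero => rfl
  | succ n =>
    apply b00_ext
    intro F
    rw [b00_sl_tr]
    have h1 : sl F (io (N := N) (tr (n + 1) E v)) = io (sl F (tr (n + 1) E v)) := rfl
    rw [h1, b00_sl_tr]
    by_cases h : Il E F
    · rw [if_pos h, if_pos h]
      rfl
    · rw [if_neg h, if_neg h, b54_io_zero]

/-- e_μ of constants. Proof: induction on n; b00_ext, b00_sl_ee_top, b00_sl_ee; sl F (io v) = io (sl F v) (rfl), b54_io_tr; io is additive and io (k • v) = k • io v (smul_eq_C_mul, C_mul). -/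
theorem b54_io_ee (μ : ℕ) : ∀ (n : ℕ) (E : Fin n → ℤ) (v : W K n), ee q μ n E (io (N := N) v) = io (ee q μ n E v) := by
  intro n
  induction n with
  | zero =>
    intro E v
    exact b54_io_zero.symm
  | succ n ih =>
    intro E v
    apply b00_ext
    intro F
    have h1 : sl F (io (N := N) (ee q μ (n + 1) E v)) = io (sl F (ee q μ (n + 1) E v)) := rfl
    rw [h1]
    by_cases h : μ = n
    · subst h
      rw [b00_sl_ee_top, b00_sl_ee_top, b54_io_sum]
      refine Finset.sum_congr rfl fun b _ => ?_
      rw [b54_io_smul, ← b54_io_tr]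
      rfl
    · rw [b00_sl_ee q μ h, b00_sl_ee q μ h, ← ih]
      rfl

/-- C of constants. Proof: induction on r, b54_io_tr, b54_io_ee; algebraMap K (MvPolynomial (Fin N) K) q⁻¹ = C q⁻¹, algebraMap K K q⁻¹ = q⁻¹. -/
theorem b54_io_CC {n : ℕ} (E : Fin n → ℤ) (k : Fin n) (r : ℕ) (v : W K n) : CC q E k r (io (N := N) v) = io (CC q E k r v) := by
  induction r generalizing v with
  | zero => exact b54_io_tr _ _
  | succ r ih =>
    have h1 : ∀ a b : W K n, io (N := N) (a - b) = io a - io b := fun a b => by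
      funext c
      exact map_sub C _ _
    show CC q E k r (ee q (n - r - 1) n E (io (N := N) v)) -
      algebraMap K (MvPolynomial (Fin N) K) q⁻¹ • ee q (n - r - 1) n (E - ep k) (CC q E k r (io (N := N) v)) =
      io (N := N) (CC q E k r (ee q (n - r - 1) n E v) - algebraMap K K q⁻¹ • ee q (n - r - 1) n (E - ep k) (CC q E k r v))
    rw [h1, b54_io_ee, ih, ih, b54_io_ee]
    congr 1
    rw [algebraMap_smul, Algebra.algebraMap_self, RingHom.id_apply, b54_io_smul]

/-- Multiplication by a constant keeps homogeneous polynomials. Proof: hm is a submodule (MvPolynomial: k • p; homogeneousSubmodule is a K-submodule). -/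
theorem b54_hm_smul (j : ℤ) (k : K) {p : MvPolynomial (Fin N) K} (hp : p ∈ hm N K j) : k • p ∈ hm N K j :=
  Submodule.smul_mem _ k hp

/-- tr keeps homogeneous vectors. -/
theorem b54_tr_hom {n : ℕ} (E : Fin n → ℤ) (j : ℤ) (v : W (MvPolynomial (Fin N) K) n) (hv : Hg j v) : Hg j (tr n E v) := by
  cases n with
  | zero => exact hv
  | succ n =>
    intro c
    show (if Il E c.1 then v c else 0) ∈ hm N K j
    by_cases h : Il E c.1
    · rw [if_pos h]
      exact hv c
    · rw [if_neg h]
      exact Submodule.zero_mem _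

theorem b54_sl {n : ℕ} {v : W (MvPolynomial (Fin N) K) (n + 1)} {j : ℤ} : Hg j v ↔ ∀ F, Hg j (sl F v) :=
  ⟨fun h F c => h (F, c), fun h c => h c.1 c.2⟩

theorem b54_Hg_smul {n : ℕ} {j : ℤ} (k : K) {v : W (MvPolynomial (Fin N) K) n} (h : Hg j v) : Hg j (k • v) :=
  fun c => Submodule.smul_mem _ k (h c)

theorem b54_Hg_sum {n : ℕ} {j : ℤ} {ι : Type} (s : Finset ι) (f : ι → W (MvPolynomial (Fin N) K) n) (h : ∀ i ∈ s, Hg j (f i)) :
    Hg j (∑ i ∈ s, f i) := by
  intro c
  rw [Finset.sum_apply]
  exact Submodule.sum_mem _ fun i hi => h i hi c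

/-- e_μ keeps homogeneous vectors. Proof: induction on n with the formula of ee (unfold ee, sl): sums, smul by kap, tr. -/
theorem b54_ee_hom (μ : ℕ) (j : ℤ) : ∀ (n : ℕ) (E : Fin n → ℤ) (v : W (MvPolynomial (Fin N) K) n), Hg j v → Hg j (ee q μ n E v) := by
  intro n
  induction n with
  | zero =>
    intro E v _ c
    exact Submodule.zero_mem _
  | succ n ih =>
    intro E v hv
    rw [b54_sl] at hv ⊢
    intro F
    by_cases h : μ = n
    · subst h
      rw [b00_sl_ee_top]
      exact b54_Hg_sum _ _ fun b _ => b54_Hg_smul _ (b54_tr_hom _ _ _ (hv _))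
    · rw [b00_sl_ee q μ h]
      exact ih F _ (hv F)

/-- C keeps homogeneous vectors. Proof: induction on r. -/
theorem b54_CC_hom {n : ℕ} (E : Fin n → ℤ) (k : Fin n) (r : ℕ) (j : ℤ) (v : W (MvPolynomial (Fin N) K) n) (hv : Hg j v) :
    Hg j (CC q E k r v) := by
  induction r generalizing v with
  | zero => exact b54_tr_hom _ _ _ hv
  | succ r ih =>
    have h1 := ih _ (b54_ee_hom q (n - r - 1) j n E v hv)
    have h2 := b54_ee_hom q (n - r - 1) j n (E - ep k) _ (ih v hv)
    intro c
    show CC q E k r (ee q (n - r - 1) n E v) c -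
      algebraMap K (MvPolynomial (Fin N) K) q⁻¹ • (ee q (n - r - 1) n (E - ep k) (CC q E k r v) c) ∈ hm N K j
    rw [algebraMap_smul]
    exact Submodule.sub_mem _ (h1 c) (Submodule.smul_mem _ _ (h2 c))

end H92C
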