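import Pool.Agent.Lib.H92C.ThmA
import Pool.Agent.Lib.H92C.B53
import Pool.Agent.Lib.H92C.B54

/-!
# H92C, module B, chunk B55: lifting at the last position
-/

open MvPolynomial

namespace H92C

variable {K : Type} [Field K] {q : K} {N : ℕ}

/-- The lifting for one pattern.

Proof. z := CC (dl G k.castSucc) k r (bd G k e_c) with e_c = Pi.single c 1 ∈ U (dl G k.succ) (c is a pattern), Hg 0 e_c. k.succ = last, dl (G - ε_last) last = dl G last (b02_dl_sub_ep_self).
z ∈ U (dl G' k.castSucc), G' = G - ε_last: thmA_maps, b45_CC_mem, b53_dl (k.castSucc ≠ last). Degree: thmA_hom with t = G last (Hg (t - G k.succ) e_c = Hg 0), so Hg (G last - G k.castSucc) (bd e_c), b54_CC_hom.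
N ≥ 2: let i : Fin N with i + 1 = k. i.succ = k.castSucc. bd G' i z = CC (dl G i.castSucc) k r (bd G i (bd G k e_c)) (b53_CC_bd with l = i, v = bd G k e_c ∈ U (dl G i.succ)) = 0 (thmA_comp for G, i, k).
thmA_exact for G', i, j = k, t = G last (G' i.succ = G k.castSucc, G' k.succ = G last - 1): w ∈ U (dl G' k.succ), Hg (G last - (G last - 1)) w = Hg 1 w, bd G' k w = z. -/
theorem b55_one (hq0 : q ≠ 0) (hq : ∀ j : ℕ, 0 < j → q ^ j ≠ 1) (G : Fin (N + 1) → ℤ) (hG : StrictMono G)
    (hG' : StrictMono (G - ep (Fin.last N))) (k : Fin N) (hk : (k : ℕ) + 1 = N) (hN : 2 ≤ N) {r : ℕ} (hr : r < N)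
    (c : Ch N) (hc : gd N (dl G k.succ) c) :
    ∃ w ∈ U (MvPolynomial (Fin N) K) N (dl (G - ep (Fin.last N)) k.succ), Hg 1 w ∧
      CC q (dl G k.castSucc) k r (bd (zq q) (xs N K) G k (Pi.single c 1)) =
        bd (zq q) (xs N K) (G - ep (Fin.last N)) k w := by
  have hz : Function.Injective (zq q) := fun a b h => b40_zq_inj hq0 hq h
  obtain ⟨i, hi⟩ : ∃ i : Fin N, (k : ℕ) = i + 1 := ⟨⟨k - 1, by omega⟩, by simp only; omega⟩
  have his : i.succ = k.castSucc := Fin.ext (by rw [Fin.val_succ, Fin.val_castSucc]; omega)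
  have hks : k.succ = Fin.last N := Fin.ext (by rw [Fin.val_succ, Fin.val_last]; exact hk)
  have hkc : k.castSucc ≠ Fin.last N := by
    intro h
    have := congrArg Fin.val h
    rw [Fin.val_castSucc, Fin.val_last] at this
    omega
  have hik : i ≠ k := by
    rintro rfl
    omega
  have he : (Pi.single c 1 : W (MvPolynomial (Fin N) K) N) ∈ U (MvPolynomial (Fin N) K) N (dl G k.succ) := by
    intro c' hc'
    rw [Pi.single_eq_of_ne]
    rintro rfl
    exact hc' hc
  have hg0 : Hg (G k.succ - G k.succ) (Pi.single c 1 : W (MvPolynomial (Fin N) K) N) := by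
    rw [sub_self]
    intro c'
    by_cases h : c' = c
    · subst h
      rw [Pi.single_eq_same]
      have := c01_C (N := N) (1 : K)
      rwa [map_one] at this
    · rw [Pi.single_eq_of_ne h]
      exact Submodule.zero_mem _
  have hb := thmA_maps (R := MvPolynomial (Fin N) K) (zq q) (xs N K) G hG k _ he
  have hbg := thmA_hom (B := K) (zq q) G hG k (G k.succ) _ hg0
  have hzm : CC q (dl G k.castSucc) k r (bd (zq q) (xs N K) G k (Pi.single c 1)) ∈
      U (MvPolynomial (Fin N) K) N (dl (G - ep (Fin.last N)) i.succ) := by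
    rw [his, b53_dl G k.castSucc hkc k hk]
    exact b45_CC_mem q _ k r hb
  have hzg := b54_CC_hom q (dl G k.castSucc) k r _ _ hbg
  have e1 : (G - ep (Fin.last N)) i.succ = G k.castSucc := by
    rw [his, Pi.sub_apply, b01_ep_ne hkc, sub_zero]
  have e2 : (G - ep (Fin.last N)) k.succ = G k.succ - 1 := by
    rw [Pi.sub_apply, hks, b01_ep_same]
  have hb' : bd (zq q) (xs N K) G k (Pi.single c 1) ∈ U (MvPolynomial (Fin N) K) N (dl G i.succ) := by
    rw [his]
    exact hb
  have h0 : bd (zq q) (xs N K) (G - ep (Fin.last N)) i (CC q (dl G k.castSucc) k r (bd (zq q) (xs N K) G k (Pi.single c 1))) = 0 := by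
    have h1 := b53_CC_bd hq0 hq (xs N K) G hG i k hk hik hr hb'
    rw [thmA_comp (zq q) hz (xs N K) G hG i k hi _ he, map_zero, his] at h1
    exact h1.symm
  obtain ⟨w, hw, hwg, hw2⟩ := thmA_exact (B := K) (zq q) hz (G - ep (Fin.last N)) hG' i k hi (G k.succ) _ hzm
    (by rw [e1]; exact hzg) h0
  refine ⟨w, hw, ?_, hw2.symm⟩
  rw [e2] at hwg
  have : G k.succ - (G k.succ - 1) = 1 := by ring
  rwa [this] at hwg

end H92C
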