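import Pool.Agent.Lib.H92C.A00
import Pool.Agent.Lib.H92C.C01

/-!
# H92C, module B, chunk B55a: a homogeneous linear map with prescribed values
-/


open MvPolynomial

namespace H92C

variable {K : Type} [Field K] {N : ℕ}

/-- Homogeneous linear map with prescribed values on the patterns.

Proof. {c | gd N E c} is finite (gd_finite): φ v = ∑ c ∈ (gd_finite N E).toFinset, v c • w c (a linear map). For v ∈ U: v = ∑ c, v c • Pi.single c 1. Homogeneity: c01_mul (v c ∈ hm j, w c c' ∈ hm 1), sums. -/
theorem b55_lin (E : Fin N → ℤ) (S : Submodule (MvPolynomial (Fin N) K) (W (MvPolynomial (Fin N) K) N))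
    (w : Ch N → W (MvPolynomial (Fin N) K) N) (hw : ∀ c, gd N E c → w c ∈ S ∧ Hg 1 (w c))
    (A B : W (MvPolynomial (Fin N) K) N →ₗ[MvPolynomial (Fin N) K] W (MvPolynomial (Fin N) K) N)
    (hAB : ∀ c, gd N E c → A (Pi.single c 1) = B (w c)) :
    ∃ φ : W (MvPolynomial (Fin N) K) N →ₗ[MvPolynomial (Fin N) K] W (MvPolynomial (Fin N) K) N,
      (∀ v, φ v ∈ S) ∧ (∀ v ∈ U (MvPolynomial (Fin N) K) N E, A v = B (φ v)) ∧
      ∀ v j, Hg j v → Hg (j + 1) (φ v) := by
  have hfin : {c : Ch N | gd N E c}.Finite := gd_finite N E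
  refine ⟨∑ c ∈ hfin.toFinset, (LinearMap.proj (R := MvPolynomial (Fin N) K) (φ := fun _ : Ch N => MvPolynomial (Fin N) K) c).smulRight (w c),
    fun v => ?_, fun v hv => ?_, fun v j hv => ?_⟩
  · rw [LinearMap.sum_apply]
    refine Submodule.sum_mem _ fun c hc => ?_
    exact Submodule.smul_mem _ _ (hw c (hfin.mem_toFinset.mp hc)).1
  · have h1 : v = ∑ c ∈ hfin.toFinset, v c • (Pi.single c 1 : W (MvPolynomial (Fin N) K) N) := by
      funext c
      rw [Finset.sum_apply]
      by_cases h : gd N E c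
      · rw [Finset.sum_eq_single c]
        · rw [Pi.smul_apply, Pi.single_eq_same, smul_eq_mul, mul_one]
        · intro b _ hb
          rw [Pi.smul_apply, Pi.single_eq_of_ne (Ne.symm hb), smul_zero]
        · intro h'
          exact absurd (hfin.mem_toFinset.mpr h) h'
      · rw [hv c h, Finset.sum_eq_zero]
        intro b hb
        rw [Pi.smul_apply, Pi.single_eq_of_ne, smul_zero]
        rintro rfl
        exact h (hfin.mem_toFinset.mp hb)
    rw [LinearMap.sum_apply, map_sum]
    conv_lhs => rw [h1, map_sum]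
    refine Finset.sum_congr rfl fun c hc => ?_
    rw [map_smul, hAB c (hfin.mem_toFinset.mp hc)]
    exact (map_smul B _ _).symm
  · intro c'
    rw [LinearMap.sum_apply, Finset.sum_apply]
    refine Submodule.sum_mem _ fun c hc => ?_
    exact c01_mul (hv c) ((hw c (hfin.mem_toFinset.mp hc)).2 c')

end H92C
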