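import Pool.Agent.Lib.H92C.B56a

/-!
# H92C, module B, chunk B56: the theorem thmB_C
-/


open MvPolynomial

namespace H92C

variable {K : Type} [Field K] {q : K} {N : ℕ}

/-- thmB_C from thmB_id and thmB_lam.

Proof. G + ε_p - ε_last = (G - ε_last) + ε_p =: G''. G' = G - ε_last is strictly increasing: StrictMono (G + ε_p - ε_last) and p ≠ last (Fin.strictMono_iff_lt_succ: for l.succ = last: G l < G last - 1 because
(G + ε_p) l ≥ G l; otherwise as in G). r = 0: hlam, CC E k 0 = tr (E - ε_k), dl (G + ε_p - ε_last) p = dl G p - ε_k (b02_dl_ep_self for G + ε_p, b53_dl). r ≥ 1: N ≥ 2: b56_chain φ, hid = thmB_id for G': ψ;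
b56_comp. Component p of constants: φ p (io v) = CC .. (io v) = io (CC .. v) (b54_io_CC), CC v ∈ U K N (dl G' p) (b45_CC_mem, b53_dl), ψ p (io w) = io w. -/
theorem b56_main (hq0 : q ≠ 0) (hq : ∀ j : ℕ, 0 < j → q ^ j ≠ 1) (G : Fin (N + 1) → ℤ) (hG : StrictMono G)
    (p : Fin (N + 1)) (hp : Fin.last N ≠ p) (hG' : StrictMono (G + ep p - ep (Fin.last N))) (r : ℕ) (hr : r < N)
    (k : Fin N) (hk : (k : ℕ) + 1 = N)
    (hid : StrictMono (G - ep (Fin.last N)) → TT (zq q) (G - ep (Fin.last N)) (G - ep (Fin.last N) + ep p) p LinearMap.id)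
    (hlam : TT (zq q) G (G + ep p - ep (Fin.last N)) p (tr N (dl (G + ep p - ep (Fin.last N)) p))) :
    TT (zq q) G (G + ep p - ep (Fin.last N)) p (CC q (dl G p) k r) := by
  have hp' : p ≠ Fin.last N := Ne.symm hp
  cases r with
  | zero =>
    have h1 : dl (G + ep p - ep (Fin.last N)) p = dl G p - ep k := by
      rw [b53_dl (G + ep p) p hp' k hk, b02_dl_ep_self]
    rw [h1] at hlam
    exact hlam
  | succ r =>
    have hm : StrictMono (G - ep (Fin.last N)) := by
      intro i j hij
      have hi : i ≠ Fin.last N := by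
        rintro rfl
        exact absurd hij (not_lt.mpr (Fin.le_last j))
      by_cases hj : j = Fin.last N
      · have h1 := hG' hij
        rw [Pi.sub_apply, Pi.sub_apply, Pi.add_apply, Pi.add_apply] at h1
        rw [Pi.sub_apply, Pi.sub_apply]
        have h2 := b01_ep_nonneg p i
        have h3 : ep p j = 0 := by
          rw [hj]
          exact b01_ep_ne hp
        omega
      · rw [Pi.sub_apply, Pi.sub_apply, b01_ep_ne hi, b01_ep_ne hj, sub_zero, sub_zero]
        exact hG hij
    obtain ⟨φ, hφ, hφp⟩ := b56_chain hq0 hq G hG hm k hk (by omega) hr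
    obtain ⟨ψ, hψ, hψp⟩ := hid hm
    have hrow : G - ep (Fin.last N) + ep p = G + ep p - ep (Fin.last N) := by abel
    rw [hrow] at hψ
    refine ⟨_, b56_comp hφ hψ, fun v hv => ?_⟩
    have h1 : CC q (dl G p) k (r + 1) v ∈ U K N (dl (G - ep (Fin.last N)) p) := by
      rw [b53_dl G p hp' k hk]
      exact b45_CC_mem q _ k (r + 1) hv
    show ψ p (φ p (io v)) = _
    rw [hφp p hp', b54_io_CC, hψp _ h1]
    rfl

end H92C
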