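import Pool.Agent.Lib.H92C.B55
import Pool.Agent.Lib.H92C.B55a

/-!
# H92C, module B, chunk B56a: the chain map of degree 0 given by C
-/

open MvPolynomial

namespace H92C

variable {K : Type} [Field K] {q : K} {N : ℕ}

/-- A chain map of degree 0 from F_D to F_D'. -/
structure CM0 (z : ℤ → K) (D D' : Fin (N + 1) → ℤ)
    (φ : Fin (N + 1) → (W (MvPolynomial (Fin N) K) N →ₗ[MvPolynomial (Fin N) K] W (MvPolynomial (Fin N) K) N)) : Prop where
  maps : ∀ p, ∀ v ∈ U (MvPolynomial (Fin N) K) N (dl D p), φ p v ∈ U (MvPolynomial (Fin N) K) N (dl D' p)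
  comm : ∀ i : Fin N, ∀ v ∈ U (MvPolynomial (Fin N) K) N (dl D i.succ),
    φ i.castSucc (bd z (xs N K) D i v) = bd z (xs N K) D' i (φ i.succ v)
  hom : ∀ p, ∀ v ∈ U (MvPolynomial (Fin N) K) N (dl D p), ∀ j : ℤ, Hg j v → Hg (j + D p - D' p) (φ p v)

/-- Composition of a chain map of degree 0 and one of degree 1. -/
theorem b56_comp {z : ℤ → K} {D D' D'' : Fin (N + 1) → ℤ}
    {φ ψ : Fin (N + 1) → (W (MvPolynomial (Fin N) K) N →ₗ[MvPolynomial (Fin N) K] W (MvPolynomial (Fin N) K) N)}
    (hφ : CM0 z D D' φ) (hψ : CM z D' D'' ψ) : CM z D D'' (fun p => ψ p ∘ₗ φ p) where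
  maps p v hv := hψ.maps p _ (hφ.maps p v hv)
  comm i v hv := by
    rw [LinearMap.comp_apply, LinearMap.comp_apply, hφ.comm i v hv, hψ.comm i _ (hφ.maps _ v hv)]
  hom p v hv j hj := by
    have h1 := hψ.hom p _ (hφ.maps p v hv) _ (hφ.hom p v hv j hj)
    rw [LinearMap.comp_apply]
    convert h1 using 1
    ring

/-- The chain map of degree 0 with the components C (N ≥ 2).

Proof. φ p = CC q (dl G p) k r for p ≠ last, φ last = the map of b55_lin for E = dl G k.succ = dl G last (k.succ = last), S = U (dl G' k.succ), w from b55_one (choose), A = CC (dl G k.castSucc) k r ∘ bd G k, B = bd G' k.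
maps: b45_CC_mem, b53_dl; last: φ v ∈ S. comm i: i ≠ k: b53_CC_bd (i.castSucc, i.succ ≠ last); i = k: b55_lin. hom: p ≠ last: G' p = G p (b01_ep_ne), b54_CC_hom; p = last: G' last = G last - 1.
Use Function.update or `if h : p = last`; rw [if_pos], [if_neg]. -/
theorem b56_chain (hq0 : q ≠ 0) (hq : ∀ j : ℕ, 0 < j → q ^ j ≠ 1) (G : Fin (N + 1) → ℤ) (hG : StrictMono G)
    (hG' : StrictMono (G - ep (Fin.last N))) (k : Fin N) (hk : (k : ℕ) + 1 = N) (hN : 2 ≤ N) {r : ℕ} (hr : r < N) :
    ∃ φ, CM0 (zq q) G (G - ep (Fin.last N)) φ ∧ ∀ p, p ≠ Fin.last N → φ p = CC q (dl G p) k r := by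
  classical
  have hks : k.succ = Fin.last N := Fin.ext (by rw [Fin.val_succ, Fin.val_last]; exact hk)
  have hkc : k.castSucc ≠ Fin.last N := by
    intro h
    have := congrArg Fin.val h
    rw [Fin.val_castSucc, Fin.val_last] at this
    omega
  have hone := fun c (hc : gd N (dl G k.succ) c) => b55_one hq0 hq G hG hG' k hk hN hr c hc
  choose! w hw1 hw2 hw3 using hone
  obtain ⟨φ0, hφ1, hφ2, hφ3⟩ := b55_lin (dl G k.succ)
    (U (MvPolynomial (Fin N) K) N (dl (G - ep (Fin.last N)) k.succ)) w (fun c hc => ⟨hw1 c hc, hw2 c hc⟩)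
    (CC q (dl G k.castSucc) k r ∘ₗ bd (zq q) (xs N K) G k) (bd (zq q) (xs N K) (G - ep (Fin.last N)) k)
    (fun c hc => hw3 c hc)
  refine ⟨fun p => if p = Fin.last N then φ0 else CC q (dl G p) k r, ⟨?_, ?_, ?_⟩, fun p hp => if_neg hp⟩
  · intro p v hv
    by_cases hp : p = Fin.last N
    · rw [if_pos hp, hp]
      have h1 := hφ1 v
      rw [hks] at h1
      exact h1
    · rw [if_neg hp, b53_dl G p hp k hk]
      exact b45_CC_mem q _ k r hv
  · intro i v hv
    have hic : i.castSucc ≠ Fin.last N := by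
      intro h
      have := congrArg Fin.val h
      rw [Fin.val_castSucc, Fin.val_last] at this
      have := i.isLt
      omega
    rw [if_neg hic]
    by_cases hi : i = k
    · subst hi
      rw [if_pos hks]
      exact hφ2 v hv
    · have his : i.succ ≠ Fin.last N := by
        intro h
        have := congrArg Fin.val h
        rw [Fin.val_succ, Fin.val_last] at this
        exact hi (Fin.ext (by omega))
      rw [if_neg his]
      exact b53_CC_bd hq0 hq (xs N K) G hG i k hk hi hr hv
  · intro p v _ j hj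
    by_cases hp : p = Fin.last N
    · rw [if_pos hp]
      have h1 := hφ3 v j hj
      have h2 : j + G p - (G - ep (Fin.last N)) p = j + 1 := by
        rw [Pi.sub_apply, hp, b01_ep_same]
        ring
      rw [h2]
      exact h1
    · rw [if_neg hp]
      have h2 : j + G p - (G - ep (Fin.last N)) p = j := by
        rw [Pi.sub_apply, b01_ep_ne hp]
        ring
      rw [h2]
      exact b54_CC_hom q _ k r j v hj

end H92C
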