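import Pool.Agent.Lib.H92C.B45

/-!
# H92C, module B, chunk B57: the level formula for the operators C
-/

open MvPolynomial

namespace H92C

variable {K : Type} [Field K] (q : K)

/-- The coefficient of C_μ from the row F to the row F - ε_j. -/
def bet {n : ℕ} (E : Fin (n + 1) → ℤ) (k : Fin (n + 1)) (F : Fin n → ℤ) (j : Fin n) : K :=
  -(1 - q⁻¹) * zq q (E k) * (zq q (∑ i, E i))⁻¹ * zq q (∑ i, F i) * (zq q (F j))⁻¹ *
    (∏ i ∈ Finset.univ.erase k, (zq q (F j) - zq q (E i))) / ∏ c ∈ Finset.univ.erase j, (zq q (F j) - zq q (F c))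

/-- kap(E; F, j) - q⁻¹ kap(E - ε_k; F, j) = bet(E; F, j).

Proof. (zq |E - ε_k|)⁻¹ = q (zq |E|)⁻¹ (b40_sum_sub, b40_zq_pred), the factors i ≠ k are the same (b40_sub_ne), and (z_j - w_k) - (z_j - q⁻¹ w_k) = - (1 - q⁻¹) w_k. Finset.mul_prod_erase at k. -/
theorem b57_kap (hq0 : q ≠ 0) {n : ℕ} (E : Fin (n + 1) → ℤ) (k : Fin (n + 1)) (F : Fin n → ℤ) (j : Fin n) :
    kap q E F j - q⁻¹ * kap q (E - ep k) F j = bet q E k F j := by
  have e1 : ∏ i, (zq q (F j) - zq q (E i)) =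
      (zq q (F j) - zq q (E k)) * ∏ i ∈ Finset.univ.erase k, (zq q (F j) - zq q (E i)) :=
    (Finset.mul_prod_erase _ _ (Finset.mem_univ k)).symm
  have e2 : ∏ i, (zq q (F j) - zq q ((E - ep k) i)) =
      (zq q (F j) - q⁻¹ * zq q (E k)) * ∏ i ∈ Finset.univ.erase k, (zq q (F j) - zq q (E i)) := by
    rw [← Finset.mul_prod_erase _ _ (Finset.mem_univ k), b40_sub_self, b40_zq_pred hq0]
    congr 1
    refine Finset.prod_congr rfl fun i hi => ?_
    rw [b40_sub_ne _ (Finset.ne_of_mem_erase hi)]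
  unfold kap bet
  rw [e1, e2, b40_sum_sub, b40_zq_pred hq0, mul_inv, inv_inv]
  field_simp
  ring

/-- The case r = 0.

Proof. CC E k 1 v = tr (E-ε_k) (ee n E v) - q⁻¹ • ee n (E-ε_k) (tr (E-ε_k) v) (n + 1 - 0 - 1 = n). Slice at F (Il (E-ε_k) F): b00_sl_tr, b00_sl_ee_top:
∑ j, kap E (F+ε_j) j • tr F (sl (F+ε_j) v) - q⁻¹ ∑ j, kap (E-ε_k) (F+ε_j) j • tr F (sl (F+ε_j) (tr (E-ε_k) v)).
In the second sum the truncation can be left out: if not Il (E-ε_k) (F+ε_j) then, as F interlaces E - ε_k, F_j + 1 = (E - ε_k) j.succ, so kap = 0 (b45_kap_zero). Then b57_kap with F + ε_j, and the right side is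
bet • CC (F+ε_j) j 0 (..) = bet • tr (F + ε_j - ε_j) (..). (algebraMap K K q⁻¹ = q⁻¹.) -/
theorem b57_zero (hq0 : q ≠ 0) {n : ℕ} (E : Fin (n + 1) → ℤ) (k : Fin (n + 1)) (v : W K (n + 1))
    (F : Fin n → ℤ) (hF : Il (E - ep k) F) :
    sl F (CC q E k 1 v) = ∑ j, bet q E k (F + ep j) j • CC q (F + ep j) j 0 (sl (F + ep j) v) := by
  have h0 : CC q E k 1 v = tr (n + 1) (E - ep k) (ee q n (n + 1) E v) -
      q⁻¹ • ee q n (n + 1) (E - ep k) (tr (n + 1) (E - ep k) v) := rfl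
  rw [h0, map_sub, map_smul, b00_sl_tr, if_pos hF, b00_sl_ee_top, b00_sl_ee_top, Finset.smul_sum, ← Finset.sum_sub_distrib]
  refine Finset.sum_congr rfl fun j _ => ?_
  have h1 : CC q (F + ep j) j 0 (sl (F + ep j) v) = tr n F (sl (F + ep j) v) := by
    show tr n (F + ep j - ep j) (sl (F + ep j) v) = _
    rw [add_sub_cancel_right]
  rw [h1, b00_sl_tr, ← b57_kap q hq0]
  by_cases hI : Il (E - ep k) (F + ep j)
  · rw [if_pos hI, sub_smul, mul_smul]
  · have h2 : F j + 1 = (E - ep k) j.succ := by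
      by_contra hne
      apply hI
      intro i
      by_cases hi : i = j
      · subst hi
        have := hF i
        rw [b40_add_self]
        omega
      · rw [b40_add_ne _ hi]
        exact hF i
    rw [if_neg hI, map_zero, smul_zero, smul_zero, sub_zero, b45_kap_zero q (E - ep k) F j _ h2, mul_zero, sub_zero]

/-- The level formula.

Proof. Induction on r, for all v. r = 0: b57_zero. r + 1 < n: CC E k (r+2) v = CC E k (r+1) (ee ν E v) - q⁻¹ • ee ν (E-ε_k) (CC E k (r+1) v), ν = n + 1 - (r+1) - 1 = n - r - 1 ≠ n. Slice at F: the first term by induction for ee ν E v: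
∑ bet • CC (F+ε_j) j r (sl (F+ε_j) (ee ν E v)), sl (F+ε_j) (ee ν (n+1) E v) = ee ν n (F+ε_j) (sl (F+ε_j) v) (b00_sl_ee); the second: b00_sl_ee: ee ν n F (sl F (CC E k (r+1) v)) = ∑ bet • ee ν n F (CC (F+ε_j) j r (sl (F+ε_j) v)).
Together ∑ bet • CC (F+ε_j) j (r+1) (sl (F+ε_j) v), since F + ε_j - ε_j = F and n - r - 1 = ν (definition of CC at level n). -/
theorem b57_level (hq0 : q ≠ 0) {n : ℕ} (E : Fin (n + 1) → ℤ) (k : Fin (n + 1)) (F : Fin n → ℤ) (hF : Il (E - ep k) F)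
    (r : ℕ) (hr : r < n) : ∀ v : W K (n + 1),
    sl F (CC q E k (r + 1) v) = ∑ j, bet q E k (F + ep j) j • CC q (F + ep j) j r (sl (F + ep j) v) := by
  induction r with
  | zero => exact fun v => b57_zero q hq0 E k v F hF
  | succ r ih =>
    intro v
    have ih' := ih (by omega)
    have hν : n + 1 - (r + 1) - 1 = n - r - 1 := by omega
    have hνn : n - r - 1 ≠ n := by omega
    have h0 : CC q E k (r + 1 + 1) v = CC q E k (r + 1) (ee q (n - r - 1) (n + 1) E v) -
        q⁻¹ • ee q (n - r - 1) (n + 1) (E - ep k) (CC q E k (r + 1) v) := by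
      rw [← hν]
      rfl
    rw [h0, map_sub, map_smul, ih', b00_sl_ee q _ hνn, ih', map_sum, Finset.smul_sum, ← Finset.sum_sub_distrib]
    refine Finset.sum_congr rfl fun j _ => ?_
    have h1 : CC q (F + ep j) j (r + 1) (sl (F + ep j) v) = CC q (F + ep j) j r (ee q (n - r - 1) n (F + ep j) (sl (F + ep j) v)) -
        q⁻¹ • ee q (n - r - 1) n F (CC q (F + ep j) j r (sl (F + ep j) v)) := by
      have h2 : F + ep j - ep j = F := add_sub_cancel_right _ _
      conv_rhs => rw [← h2]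
      rw [h2]
      show CC q (F + ep j) j r (ee q (n - r - 1) n (F + ep j) (sl (F + ep j) v)) -
        q⁻¹ • ee q (n - r - 1) n (F + ep j - ep j) (CC q (F + ep j) j r (sl (F + ep j) v)) = _
      rw [h2]
    rw [h1, b00_sl_ee q _ hνn, map_smul, smul_sub, smul_comm]

end H92C
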