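import Pool.Agent.Lib.H92C.CD

/-!
# H92C, chunk C02 (S/M, 6 small lemmas): pairs of subcomplexes

Everything is elementary diagram chasing; the case distinction i = 0 or i = i' + 1 (for Cy) by `cases i`.
-/

set_option autoImplicit false

open MvPolynomial

namespace H92C

variable {Q : Type} [CommRing Q] {A : ℕ → Type} [∀ i, AddCommGroup (A i)] [∀ i, Module Q (A i)]
  (dd : ∀ i, A (i + 1) →ₗ[Q] A i) (θ : Q)

theorem c02_cy (S' S'' : ∀ i, Submodule Q (A i)) (h : ∀ i, S' i ≤ S'' i) (i : ℕ) (v : A i) (hv : Cy dd S' i v) :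
    Cy dd S'' i v := by
  cases i with
  | zero => trivial
  | succ i => exact h i hv

/-- Two of three.  PROOF: v ∈ T i: θ^e v - dd w ∈ S' with w ∈ S (i+1), so dd w ∈ T; by Ex (S, T, i+1): w' = θ^e' w - dd u ∈ T (i+1) (u ∈ S (i+2)), and
θ^(e+e') v - dd w' = θ^e' (θ^e v - dd w) ∈ S'. -/
theorem c02_two (hdd : ∀ i v, dd i (dd (i + 1) v) = 0) (S T S' : ∀ i, Submodule Q (A i))
    (h1 : ∀ i, S' i ≤ T i) (h2 : ∀ i, T i ≤ S i) (i : ℕ)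
    (hi : Ex dd θ S S' i) (hj : Ex dd θ S T (i + 1)) : Ex dd θ T S' i := by
  intro v hv hc
  obtain ⟨e, w, hw, hd⟩ := hi v (h2 i hv) hc
  have h3 : dd i w ∈ T i := by
    have h4 : dd i w = θ ^ e • v - (θ ^ e • v - dd i w) := by abel
    rw [h4]
    exact (T i).sub_mem ((T i).smul_mem _ hv) (h1 i hd)
  obtain ⟨e', u, hu, hu'⟩ := hj w hw h3
  refine ⟨e + e', θ ^ e' • w - dd (i + 1) u, hu', ?_⟩
  have h5 : θ ^ (e + e') • v - dd i (θ ^ e' • w - dd (i + 1) u) = θ ^ e' • (θ ^ e • v - dd i w) := by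
    rw [map_sub, map_smul, hdd, sub_zero, smul_sub, smul_smul, ← pow_add, add_comm e e']
  rw [h5]
  exact (S' i).smul_mem _ hd


/-- Excision.  PROOF: w = w_R + w_S', drop w_S'. -/
theorem c02_exc (R S' : ∀ i, Submodule Q (A i)) (hR : ∀ i, ∀ v ∈ R (i + 1), dd i v ∈ R i) (hS' : ∀ i, ∀ v ∈ S' (i + 1), dd i v ∈ S' i)
    (i : ℕ) (h : Ex dd θ (fun i => R i ⊔ S' i) S' i) : Ex dd θ R (fun i => R i ⊓ S' i) i := by
  intro v hv hc
  have hc' : Cy dd S' i v := c02_cy dd (fun i => R i ⊓ S' i) S' (fun i => inf_le_right) i v hc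
  obtain ⟨e, w, hw, hd⟩ := h v (Submodule.mem_sup_left hv) hc'
  obtain ⟨wR, hwR, wS, hwS, rfl⟩ := Submodule.mem_sup.1 hw
  refine ⟨e, wR, hwR, ?_, ?_⟩
  · exact (R i).sub_mem ((R i).smul_mem _ hv) (hR i wR hwR)
  · have h4 : θ ^ e • v - dd i wR = (θ ^ e • v - dd i (wR + wS)) + dd i wS := by
      rw [map_add]
      abel
    rw [h4]
    exact (S' i).add_mem hd (hS' i wS hwS)


/-- Homotopy. -/
theorem c02_hom (S S' : ∀ i, Submodule Q (A i)) (g : ∀ i, A i →ₗ[Q] A (i + 1)) (E : ℕ)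
    (h0 : ∀ v ∈ S 0, dd 0 (g 0 v) = θ ^ E • v) (h1 : ∀ i, ∀ v ∈ S (i + 1), dd (i + 1) (g (i + 1) v) + g i (dd i v) = θ ^ E • v)
    (hS : ∀ i, ∀ v ∈ S i, g i v ∈ S (i + 1)) (hS' : ∀ i, ∀ v ∈ S' i, g i v ∈ S' (i + 1)) (i : ℕ) : Ex dd θ S S' i := by
  intro v hv hc
  refine ⟨E, g i v, hS i v hv, ?_⟩
  cases i with
  | zero =>
    rw [h0 v hv, sub_self]
    exact Submodule.zero_mem _
  | succ i =>
    have h4 : θ ^ E • v - dd (i + 1) (g (i + 1) v) = g i (dd i v) := by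
      rw [← h1 i v hv]
      abel
    rw [h4]
    exact hS' i _ hc


/-- Equality of families. -/
theorem c02_congr (S S' T T' : ∀ i, Submodule Q (A i)) (h1 : ∀ i, S i = T i) (h2 : ∀ i, S' i = T' i) (i : ℕ) (h : Ex dd θ S S' i) :
    Ex dd θ T T' i := by
  have e1 : S = T := funext h1
  have e2 : S' = T' := funext h2
  rw [← e1, ← e2]
  exact h


/-- Kernels.  PROOF: v ∈ Kr i, dd v = 0: θ^e v = dd w, w ∈ S (i+1); δ w ∈ T (i+1), dd δ w = δ dd w = θ^e δ v = 0, so θ^e' δ w = dd u', u' ∈ T (i+2), u' = δ u,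
u ∈ S (i+2); w' := θ^e' w - dd u is in Kr (i+1) and dd w' = θ^(e+e') v. -/
theorem c02_ker (hdd : ∀ i v, dd i (dd (i + 1) v) = 0) (S T Kr : ∀ i, Submodule Q (A i)) (hS : ∀ i, ∀ v ∈ S (i + 1), dd i v ∈ S i)
    (δ : ∀ i, A i →ₗ[Q] A i) (hδ : ∀ i v, δ i (dd i v) = dd i (δ (i + 1) v)) (hKr : ∀ i v, v ∈ Kr i ↔ v ∈ S i ∧ δ i v = 0)
    (hT : ∀ i, ∀ v ∈ S i, δ i v ∈ T i) (hsur : ∀ i, ∀ u' ∈ T i, ∃ u ∈ S i, δ i u = u') (i : ℕ)
    (h1 : Ex dd θ S (fun _ => ⊥) i) (h2 : Ex dd θ T (fun _ => ⊥) (i + 1)) : Ex dd θ Kr (fun _ => ⊥) i := by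
  intro v hv hc
  obtain ⟨hvS, hvd⟩ := (hKr i v).1 hv
  obtain ⟨e, w, hw, hd⟩ := h1 v hvS hc
  have hd' : θ ^ e • v - dd i w = 0 := hd
  have hdw : dd i w = θ ^ e • v := (sub_eq_zero.1 hd').symm
  have h3 : dd i (δ (i + 1) w) = 0 := by
    rw [← hδ, hdw, map_smul, hvd, smul_zero]
  have h3' : Cy dd (fun _ => ⊥) (i + 1) (δ (i + 1) w) := h3
  obtain ⟨e', u', hu', hd2⟩ := h2 (δ (i + 1) w) (hT (i + 1) w hw) h3'
  have hd2' : θ ^ e' • δ (i + 1) w - dd (i + 1) u' = 0 := hd2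
  obtain ⟨u, hu, rfl⟩ := hsur (i + 2) u' hu'
  refine ⟨e + e', θ ^ e' • w - dd (i + 1) u, (hKr (i + 1) _).2 ⟨?_, ?_⟩, ?_⟩
  · exact (S (i + 1)).sub_mem ((S (i + 1)).smul_mem _ hw) (hS (i + 1) u hu)
  · rw [map_sub, map_smul, hδ (i + 1) u]
    exact hd2'
  · show θ ^ (e + e') • v - dd i (θ ^ e' • w - dd (i + 1) u) = 0
    rw [map_sub, map_smul, hdd, sub_zero, hdw, smul_smul, ← pow_add, add_comm e e', sub_self]


/-- Passing to a smaller family. -/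
theorem c02_sub (S T : ∀ i, Submodule Q (A i)) (h1 : ∀ i, T i ≤ S i) (i : ℕ) (h2 : S (i + 1) ≤ T (i + 1))
    (h : Ex dd θ S (fun _ => ⊥) i) : Ex dd θ T (fun _ => ⊥) i := by
  intro v hv hc
  obtain ⟨e, w, hw, hd⟩ := h v (h1 i hv) hc
  exact ⟨e, w, h2 hw, hd⟩


end H92C
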