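import Pool.Agent.Lib.H92C.C03A

/-!
# H92C, chunk C03 (M/L): the abstract Laurent theorem
-/

set_option autoImplicit false

open MvPolynomial

namespace H92C

variable {Q : Type} [CommRing Q] {A : ℕ → Type} [∀ i, AddCommGroup (A i)] [∀ i, Module Q (A i)]
  (dd : ∀ i, A (i + 1) →ₗ[Q] A i) (θ : Q)

/-- The Laurent theorem.  PROOF: claim: Ex (Sp A_p) (Sp B_p) i for all i ≥ i0 + p (p ≤ r; downward induction on p).
p = r: A_r is everything, B_r = {some α j ≥ 0}: h3 (e = 0, w = 0).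
From p + 1 to p: S := Sp A_(p+1), S' := Sp S'_p, T := Sp B_(p+1) = Sp A_p ⊔ S' (c03_sets, hun, hmono).  Ex S S' i by c02_hom (h2 for the variable p; both sets are up-closed
and stable under subtracting the p-th unit), Ex S T (i+1) by induction (i + 1 ≥ i0 + p + 1), so Ex T S' i by c02_two, so (c02_congr, c02_exc) Ex (Sp A_p) (Sp A_p ⊓ S') i and
Sp A_p ⊓ S' = Sp B_p (hint, hmono).  p = 0: A_0 = {all α j ≥ 0}, B_0 is empty. -/
theorem c03 (hdd : ∀ i v, dd i (dd (i + 1) v) = 0) (r i0 : ℕ) (Sp : Set (Fin r → ℤ) → ∀ i, Submodule Q (A i))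
    (hmono : ∀ P P' : Set (Fin r → ℤ), P ⊆ P' → ∀ i, Sp P i ≤ Sp P' i)
    (hun : ∀ (P P' : Set (Fin r → ℤ)) (i), Sp (P ∪ P') i ≤ Sp P i ⊔ Sp P' i)
    (hint : ∀ (P P' : Set (Fin r → ℤ)) (i), Sp P i ⊓ Sp P' i ≤ Sp (P ∩ P') i)
    (hem : ∀ i, Sp ∅ i = ⊥)
    (h1 : ∀ P : Set (Fin r → ℤ), Upc P → ∀ i, ∀ v ∈ Sp P (i + 1), dd i v ∈ Sp P i)
    (h2 : ∀ j : Fin r, ∃ (g : ∀ i, A i →ₗ[Q] A (i + 1)) (E : ℕ),
      (∀ v ∈ Sp Set.univ 0, dd 0 (g 0 v) = θ ^ E • v) ∧
      (∀ i, ∀ v ∈ Sp Set.univ (i + 1), dd (i + 1) (g (i + 1) v) + g i (dd i v) = θ ^ E • v) ∧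
      ∀ P : Set (Fin r → ℤ), Upc P → Dwn j P → ∀ i, ∀ v ∈ Sp P i, g i v ∈ Sp P (i + 1))
    (h3 : ∀ i, i0 + r ≤ i → Sp Set.univ i ≤ Sp {α | ∃ j, 0 ≤ α j} i) (i : ℕ) (hi : i0 ≤ i) :
    Ex dd θ (Sp {α | ∀ j, 0 ≤ α j}) (fun _ => ⊥) i := by
  have key : ∀ q p : ℕ, p + q = r → ∀ i, i0 + p ≤ i →
      Ex dd θ (Sp (c03_A p)) (Sp (c03_B p)) i := by
    intro q
    induction q with
    | zero =>
      intro p hp i hi
      rw [add_zero] at hp
      subst hp
      intro v hv _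
      refine ⟨0, 0, Submodule.zero_mem _, ?_⟩
      rw [pow_zero, one_smul, map_zero, sub_zero]
      refine hmono _ _ ?_ i (h3 i hi (hmono _ _ (Set.subset_univ _) i hv))
      rintro α ⟨j, hj⟩
      exact ⟨fun k hk => absurd k.isLt (by omega), j, j.isLt, hj⟩
    | succ q ih =>
      intro p hp i hi
      have hpr : p < r := by omega
      obtain ⟨s1, s2, ⟨u1, u2, u3, u4⟩, ⟨d1, d2⟩, t1, t2⟩ := c03_sets (r := r) ⟨p, hpr⟩
      simp only at s1 s2 u1 u2 u3 u4 d1 d2 t1 t2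
      obtain ⟨g, E, g0, g1, g2⟩ := h2 ⟨p, hpr⟩
      have e1 : Ex dd θ (Sp (c03_A (p + 1))) (Sp (c03_S p)) i :=
        c02_hom dd θ (Sp (c03_A (p + 1))) (Sp (c03_S p)) g E
          (fun v hv => g0 v (hmono _ _ (Set.subset_univ _) 0 hv))
          (fun i v hv => g1 i v (hmono _ _ (Set.subset_univ _) (i + 1) hv))
          (g2 _ u1 d1) (g2 _ u2 d2) i
      have e2 : Ex dd θ (Sp (c03_A (p + 1))) (Sp (c03_B (p + 1))) (i + 1) :=
        ih (p + 1) (by omega) (i + 1) (by omega)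
      have e3 : Ex dd θ (Sp (c03_B (p + 1))) (Sp (c03_S p)) i := by
        refine c02_two dd θ hdd (Sp (c03_A (p + 1))) (Sp (c03_B (p + 1))) (Sp (c03_S p)) ?_ ?_ i e1 e2
        · intro i
          apply hmono
          rw [s1]
          exact Set.subset_union_right
        · intro i
          apply hmono
          rintro α ⟨h, -⟩
          exact h
      have e4 : Ex dd θ (fun i => Sp (c03_A p) i ⊔ Sp (c03_S p) i) (Sp (c03_S p)) i := by
        refine c02_congr dd θ _ _ _ _ ?_ (fun _ => rfl) i e3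
        intro i
        apply le_antisymm
        · rw [s1]
          exact hun _ _ i
        · refine sup_le (hmono _ _ ?_ i) (hmono _ _ ?_ i)
          · rw [s1]
            exact Set.subset_union_left
          · rw [s1]
            exact Set.subset_union_right
      have e5 := c02_exc dd θ (Sp (c03_A p)) (Sp (c03_S p)) (h1 _ u3) (h1 _ u2) i e4
      refine c02_congr dd θ _ _ _ _ (fun _ => rfl) ?_ i e5
      intro i
      apply le_antisymm
      · rw [← s2]
        exact hint _ _ i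
      · refine le_inf (hmono _ _ ?_ i) (hmono _ _ ?_ i)
        · rw [← s2]
          exact Set.inter_subset_left
        · rw [← s2]
          exact Set.inter_subset_right
  have h5 := key r 0 (zero_add r) i (by omega)
  refine c02_congr dd θ _ _ _ _ ?_ ?_ i h5
  · intro i
    have e : c03_A (r := r) 0 = {α | ∀ j, 0 ≤ α j} := by
      ext α
      exact ⟨fun h j => h j (Nat.zero_le _), fun h j _ => h j⟩
    rw [e]
  · intro i
    have e : c03_B (r := r) 0 = ∅ := by
      ext α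
      constructor
      · rintro ⟨-, j, hj, -⟩
        exact absurd hj (Nat.not_lt_zero _)
      · intro h
        exact absurd h (Set.notMem_empty _)
    rw [e, hem]


end H92C
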