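import Pool.Agent.Lib.H92C.C02

/-!
# H92C, chunk C03A (S): sets of exponents
-/

set_option autoImplicit false

open MvPolynomial

namespace H92C

/-- The set A_p: the exponents which are nonnegative at the places j ≥ p. -/
def c03_A {r : ℕ} (p : ℕ) : Set (Fin r → ℤ) := {α | ∀ j : Fin r, p ≤ j → 0 ≤ α j}

/-- The set S'_p: the elements of A_(p+1) which are nonnegative at some place j < p. -/
def c03_S {r : ℕ} (p : ℕ) : Set (Fin r → ℤ) := {α | (∀ j : Fin r, p + 1 ≤ j → 0 ≤ α j) ∧ ∃ j : Fin r, (j : ℕ) < p ∧ 0 ≤ α j}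

/-- The set B_p: the elements of A_p which are nonnegative at some place j < p. -/
def c03_B {r : ℕ} (p : ℕ) : Set (Fin r → ℤ) := {α | (∀ j : Fin r, p ≤ j → 0 ≤ α j) ∧ ∃ j : Fin r, (j : ℕ) < p ∧ 0 ≤ α j}

/-- Set theory (S): B_(p+1) = S'_p ∪ A_p, A_p ∩ S'_p = B_p, closures. -/
theorem c03_sets {r : ℕ} (p : Fin r) :
    (c03_B (r := r) (p + 1) = c03_A p ∪ c03_S p) ∧ (c03_A (r := r) p ∩ c03_S p = c03_B p) ∧
    (Upc (c03_A (r := r) (p + 1)) ∧ Upc (c03_S (r := r) p) ∧ Upc (c03_A (r := r) p) ∧ Upc (c03_B (r := r) (p + 1))) ∧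
    (Dwn p (c03_A (r := r) (p + 1)) ∧ Dwn p (c03_S (r := r) p)) ∧ c03_S (r := r) p ⊆ c03_A (p + 1) ∧ c03_A (r := r) p ⊆ c03_A (p + 1) := by
  refine ⟨?_, ?_, ⟨?_, ?_, ?_, ?_⟩, ⟨?_, ?_⟩, ?_, ?_⟩
  · ext α
    constructor
    · rintro ⟨h1, j, hj, hj0⟩
      by_cases hp : 0 ≤ α p
      · left
        intro k hk
        by_cases hkp : (k : ℕ) = p
        · rw [Fin.ext hkp]
          exact hp
        · exact h1 k (by omega)
      · right
        refine ⟨h1, j, ?_, hj0⟩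
        by_contra hc
        have : j = p := Fin.ext (by omega)
        rw [this] at hj0
        exact hp hj0
    · rintro (h | ⟨h1, j, hj, hj0⟩)
      · exact ⟨fun k hk => h k (by omega), p, by omega, h p le_rfl⟩
      · exact ⟨h1, j, by omega, hj0⟩
  · ext α
    constructor
    · rintro ⟨h, -, j, hj, hj0⟩
      exact ⟨h, j, hj, hj0⟩
    · rintro ⟨h, j, hj, hj0⟩
      exact ⟨h, fun k hk => h k (by omega), j, hj, hj0⟩
  · intro α hα γ hγ k hk
    exact add_nonneg (hα k hk) (hγ k)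
  · rintro α ⟨h1, j, hj, hj0⟩ γ hγ
    exact ⟨fun k hk => add_nonneg (h1 k hk) (hγ k), j, hj, add_nonneg hj0 (hγ j)⟩
  · intro α hα γ hγ k hk
    exact add_nonneg (hα k hk) (hγ k)
  · rintro α ⟨h1, j, hj, hj0⟩ γ hγ
    exact ⟨fun k hk => add_nonneg (h1 k hk) (hγ k), j, hj, add_nonneg hj0 (hγ j)⟩
  · intro α hα k hk
    have hne : k ≠ p := fun hc => by
      rw [hc] at hk
      omega
    rw [Pi.sub_apply, Pi.single_eq_of_ne hne, sub_zero]
    exact hα k hk
  · rintro α ⟨h1, j, hj, hj0⟩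
    refine ⟨fun k hk => ?_, j, hj, ?_⟩
    · have hne : k ≠ p := fun hc => by
        rw [hc] at hk
        omega
      rw [Pi.sub_apply, Pi.single_eq_of_ne hne, sub_zero]
      exact h1 k hk
    · have hne : j ≠ p := fun hc => by
        rw [hc] at hj
        omega
      rw [Pi.sub_apply, Pi.single_eq_of_ne hne, sub_zero]
      exact hj0
  · rintro α ⟨h1, -⟩
    exact h1
  · intro α hα k hk
    exact hα k (by omega)


end H92C
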