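import Pool.Agent.Lib.H92C.CD

/-!
# H92C, chunk C04 (S/M, 10 small lemmas): the action am of matrices
-/

set_option autoImplicit false

open MvPolynomial

namespace H92C

variable {R S M M' : Type} [CommRing R] [CommRing S] [AddCommGroup M] [Module S M] [AddCommGroup M'] [Module S M'] (φ : R →+* S)
  {l m n : ℕ}

theorem c04_apply (f : (Fin m → R) →ₗ[R] (Fin n → R)) (v : Fin m → M) (a : Fin n) :
    am φ f v a = ∑ b, φ (f (Pi.single b 1) a) • v b := rfl

/-- A linear map by its matrix. -/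
theorem c04_mat (f : (Fin m → R) →ₗ[R] (Fin n → R)) (v : Fin m → R) (a : Fin n) :
    f v a = ∑ b, f (Pi.single b 1) a * v b := by
  conv_lhs => rw [← Finset.univ_sum_single v]
  rw [map_sum, Finset.sum_apply]
  refine Finset.sum_congr rfl (fun b _ => ?_)
  have e : (Pi.single b (v b) : Fin m → R) = v b • Pi.single b 1 := by
    funext j
    by_cases hj : j = b
    · subst hj
      simp
    · simp [Pi.single_eq_of_ne hj]
  rw [e, map_smul, Pi.smul_apply, smul_eq_mul, mul_comm]


/-- PROOF: c04_mat for g (f (Pi.single b 1)), exchange of the sums. -/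
theorem c04_comp (f : (Fin m → R) →ₗ[R] (Fin n → R)) (g : (Fin n → R) →ₗ[R] (Fin l → R)) :
    am (M := M) φ (g ∘ₗ f) = am φ g ∘ₗ am φ f := by
  refine LinearMap.ext fun v => funext fun a => ?_
  show (∑ b, φ (g (f (Pi.single b 1)) a) • v b) = ∑ c, φ (g (Pi.single c 1) a) • (∑ b, φ (f (Pi.single b 1) c) • v b)
  simp only [Finset.smul_sum]
  rw [Finset.sum_comm]
  refine Finset.sum_congr rfl (fun b _ => ?_)
  rw [c04_mat g (f (Pi.single b 1)) a, map_sum, Finset.sum_smul]
  refine Finset.sum_congr rfl (fun c _ => ?_)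
  rw [map_mul, mul_smul]


theorem c04_comp_apply (f : (Fin m → R) →ₗ[R] (Fin n → R)) (g : (Fin n → R) →ₗ[R] (Fin l → R)) (v : Fin m → M) :
    am φ g (am φ f v) = am φ (g ∘ₗ f) v := by
  rw [c04_comp]; rfl

theorem c04_add (f g : (Fin m → R) →ₗ[R] (Fin n → R)) : am (M := M) φ (f + g) = am φ f + am φ g := by
  refine LinearMap.ext fun v => funext fun a => ?_
  show (∑ b, φ (f (Pi.single b 1) a + g (Pi.single b 1) a) • v b) =
    (∑ b, φ (f (Pi.single b 1) a) • v b) + ∑ b, φ (g (Pi.single b 1) a) • v b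
  rw [← Finset.sum_add_distrib]
  refine Finset.sum_congr rfl (fun b _ => ?_)
  rw [map_add, add_smul]


theorem c04_zero : am (M := M) φ (0 : (Fin m → R) →ₗ[R] (Fin n → R)) = 0 := by
  refine LinearMap.ext fun v => funext fun a => ?_
  show (∑ b, φ (0 : R) • v b) = 0
  simp


theorem c04_smul (r : R) (f : (Fin m → R) →ₗ[R] (Fin n → R)) : am (M := M) φ (r • f) = φ r • am φ f := by
  refine LinearMap.ext fun v => funext fun a => ?_
  show (∑ b, φ (r * f (Pi.single b 1) a) • v b) = φ r • ∑ b, φ (f (Pi.single b 1) a) • v b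
  rw [Finset.smul_sum]
  refine Finset.sum_congr rfl (fun b _ => ?_)
  rw [map_mul, mul_smul]


/-- The multiplication by r. -/
theorem c04_scal (r : R) (v : Fin m → M) : am φ (r • (LinearMap.id : (Fin m → R) →ₗ[R] (Fin m → R))) v = φ r • v := by
  rw [c04_smul]
  show φ r • am φ (LinearMap.id : (Fin m → R) →ₗ[R] (Fin m → R)) v = φ r • v
  congr 1
  funext a
  show (∑ b, φ ((Pi.single b 1 : Fin m → R) a) • v b) = v a
  rw [Finset.sum_eq_single a]
  · rw [Pi.single_eq_same, map_one, one_smul]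
  · intro b _ hb
    rw [Pi.single_eq_of_ne (Ne.symm hb), map_zero, zero_smul]
  · intro h
    exact absurd (Finset.mem_univ a) h


/-- On vectors with entries in S: the matrix of am φ f. -/
theorem c04_single (f : (Fin m → R) →ₗ[R] (Fin n → R)) (b : Fin m) (a : Fin n) :
    am (M := S) φ f (Pi.single b 1) a = φ (f (Pi.single b 1) a) := by
  show (∑ c, φ (f (Pi.single c 1) a) • (Pi.single b 1 : Fin m → S) c) = _
  rw [Finset.sum_eq_single b]
  · rw [Pi.single_eq_same, smul_eq_mul, mul_one]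
  · intro c _ hc
    rw [Pi.single_eq_of_ne hc, smul_zero]
  · intro h
    exact absurd (Finset.mem_univ b) h


/-- Compatibility with φ. -/
theorem c04_map (f : (Fin m → R) →ₗ[R] (Fin n → R)) (v : Fin m → R) :
    am (M := S) φ f (fun b => φ (v b)) = fun a => φ (f v a) := by
  funext a
  show (∑ b, φ (f (Pi.single b 1) a) • φ (v b)) = φ (f v a)
  rw [c04_mat f v a, map_sum]
  refine Finset.sum_congr rfl (fun b _ => ?_)
  rw [map_mul, smul_eq_mul]


/-- Naturality in the module of the coefficients. -/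
theorem c04_nat (T : M →ₗ[S] M') (f : (Fin m → R) →ₗ[R] (Fin n → R)) (v : Fin m → M) :
    am φ f (fun b => T (v b)) = fun a => T (am φ f v a) := by
  funext a
  show (∑ b, φ (f (Pi.single b 1) a) • T (v b)) = T (∑ b, φ (f (Pi.single b 1) a) • v b)
  rw [map_sum]
  refine Finset.sum_congr rfl (fun b _ => ?_)
  rw [map_smul]


/-- Two homotopy identities give an identity for am. -/
theorem c04_homot (β : ℕ → ℕ) (f : (i : ℕ) → (Fin (β (i + 1)) → R) →ₗ[R] (Fin (β i) → R))
    (h : (i : ℕ) → (Fin (β i) → R) →ₗ[R] (Fin (β (i + 1)) → R)) (x : R) (h0 : ∀ v, f 0 (h 0 v) = x • v)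
    (h1 : ∀ (i : ℕ) (v), f (i + 1) (h (i + 1) v) + h i (f i v) = x • v) :
    (∀ v : Fin (β 0) → M, am φ (f 0) (am φ (h 0) v) = φ x • v) ∧
    (∀ (i : ℕ) (v : Fin (β (i + 1)) → M), am φ (f (i + 1)) (am φ (h (i + 1)) v) + am φ (h i) (am φ (f i) v) = φ x • v) := by
  constructor
  · intro v
    have e : f 0 ∘ₗ h 0 = x • (LinearMap.id : (Fin (β 0) → R) →ₗ[R] (Fin (β 0) → R)) :=
      LinearMap.ext fun w => h0 w
    rw [c04_comp_apply, e, c04_scal]
  · intro i v
    have e : f (i + 1) ∘ₗ h (i + 1) + h i ∘ₗ f i =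
        x • (LinearMap.id : (Fin (β (i + 1)) → R) →ₗ[R] (Fin (β (i + 1)) → R)) :=
      LinearMap.ext fun w => h1 i w
    rw [c04_comp_apply, c04_comp_apply, ← LinearMap.add_apply, ← c04_add, e, c04_scal]


end H92C
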