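import Pool.Agent.Lib.H92C.C01

/-!
# H92C, chunk C05 (M, 7 small lemmas): polynomials as Laurent polynomials
-/

set_option autoImplicit false

open MvPolynomial

namespace H92C

variable {r : ℕ} {B : Type} [CommRing B]

theorem c05_inj : Function.Injective (exL r) := by
  intro s t h
  ext j
  have h1 : (s j : ℤ) = (t j : ℤ) := congrFun h j
  exact_mod_cast h1

/-- PROOF: AddMonoidAlgebra.mapDomainRingHom_apply, mapDomain_single. -/
theorem c05_monomial (s : Fin r →₀ ℕ) (c : B) : jL r B (monomial s c) = AddMonoidAlgebra.single (exL r s) c := by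
  unfold jL
  rw [← single_eq_monomial]
  simp

theorem c05_X_pow (j : Fin r) (E : ℕ) : jL r B (X j ^ E) = AddMonoidAlgebra.single (Pi.single j (E : ℤ)) 1 := by
  rw [X_pow_eq_monomial, c05_monomial]
  congr 1
  funext i
  show ((Finsupp.single j E i : ℕ) : ℤ) = _
  by_cases h : i = j
  · subst h
    simp
  · rw [Finsupp.single_eq_of_ne h, Pi.single_eq_of_ne h]
    rfl

theorem c05_C (c : B) : jL r B (C c) = AddMonoidAlgebra.single 0 c := by
  rw [C_apply, c05_monomial, map_zero]

/-- C c acts as c. -/
theorem c05_C_mul (c : B) (u : La r B) : jL r B (C c) * u = c • u := by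
  rw [c05_C]
  ext α
  rw [AddMonoidAlgebra.coeff_single_mul_apply]
  simp

/-- The coefficients (PROOF: MvPolynomial.induction_on', additivity; or Finsupp.mapDomain_apply with c05_inj). -/
theorem c05_coeff (p : MvPolynomial (Fin r) B) (s : Fin r →₀ ℕ) : (jL r B p).coeff (exL r s) = coeff s p := by
  induction p using MvPolynomial.induction_on' with
  | monomial t c =>
    rw [c05_monomial, AddMonoidAlgebra.coeff_single, coeff_monomial, Finsupp.single_apply]
    by_cases h : t = s
    · rw [if_pos h, if_pos (by rw [h])]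
    · rw [if_neg h, if_neg (fun h' => h (c05_inj h'))]
  | add p q hp hq =>
    rw [map_add, AddMonoidAlgebra.coeff_add, Finsupp.add_apply, hp, hq, coeff_add]

theorem c05_coeff_neg (p : MvPolynomial (Fin r) B) (α : Fin r → ℤ) (j : Fin r) (h : α j < 0) : (jL r B p).coeff α = 0 := by
  induction p using MvPolynomial.induction_on' with
  | monomial t c =>
    rw [c05_monomial, AddMonoidAlgebra.coeff_single, Finsupp.single_apply, if_neg]
    intro h'
    have h1 : (t j : ℤ) = α j := congrFun h' j
    have h2 : (0 : ℤ) ≤ (t j : ℤ) := Int.natCast_nonneg _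
    omega
  | add p q hp hq =>
    rw [map_add, AddMonoidAlgebra.coeff_add, Finsupp.add_apply, hp, hq, add_zero]

theorem c05_injective : Function.Injective (jL r B) := by
  intro p q h
  ext s
  rw [← c05_coeff, ← c05_coeff, h]

/-- Polynomials have nonnegative exponents. -/
theorem c05_mem (p : MvPolynomial (Fin r) B) : jL r B p ∈ SL (B := B) {α : Fin r → ℤ | ∀ j, 0 ≤ α j} := by
  intro α hα
  have h : ∃ j, α j < 0 := by
    by_contra hh
    push Not at hh
    exact hα hh
  obtain ⟨j, hj⟩ := h
  exact c05_coeff_neg p α j hj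

theorem c05_toNat {α : Fin r → ℤ} (h : ∀ j, 0 ≤ α j) : ∃ s, exL r s = α := by
  refine ⟨Finsupp.equivFunOnFinite.symm fun j => (α j).toNat, ?_⟩
  funext j
  show (((α j).toNat : ℕ) : ℤ) = α j
  exact Int.toNat_of_nonneg (h j)

theorem c05_deg {t : ℤ} {p : MvPolynomial (Fin r) B} (h : p ∈ hm r B t) : jL r B p ∈ DL r B t := by
  intro α hα
  by_cases h0 : ∀ j, 0 ≤ α j
  · obtain ⟨s, rfl⟩ := c05_toNat h0
    rw [c05_coeff]
    by_contra hs
    exact hα (c01_coeff.mp h s hs)
  · exact c05_mem p α h0

/-- A Laurent polynomial of degree t with nonnegative exponents is a polynomial.  PROOF: p := ∑ over α ∈ u.coeff.support of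
monomial (the toNat of α) (u.coeff α); or Finsupp.comapDomain.  Compare the coefficients. -/
theorem c05_lift {t : ℤ} (u : La r B) (h1 : u ∈ SL (B := B) {α : Fin r → ℤ | ∀ j, 0 ≤ α j}) (h2 : u ∈ DL r B t) :
    ∃ p ∈ hm r B t, jL r B p = u := by
  have hs : ↑u.coeff.support ⊆ Set.range (exL r) := by
    intro α hα
    have h0 : ∀ j, 0 ≤ α j := by
      by_contra hh
      exact (Finsupp.mem_support_iff.mp hα) (h1 α hh)
    exact c05_toNat h0
  refine ⟨(AddMonoidAlgebra.comapDomain (exL r) c05_inj u : AddMonoidAlgebra B (Fin r →₀ ℕ)), ?_, ?_⟩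
  · rw [c01_coeff]
    intro s hs'
    by_contra hne
    apply hs'
    show (AddMonoidAlgebra.comapDomain (exL r) c05_inj u).coeff s = 0
    rw [AddMonoidAlgebra.coeff_comapDomain, Finsupp.comapDomain_apply]
    exact h2 _ hne
  · exact AddMonoidAlgebra.mapDomain_comapDomain hs c05_inj

end H92C
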