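import Pool.Agent.Lib.H92C.C05

/-!
# H92C, chunk C06 (M, 8 small lemmas): multiplication and components of Laurent polynomials
-/

set_option autoImplicit false

open MvPolynomial

namespace H92C

variable {r : ℕ} {B : Type} [CommRing B]

/-- The inverse of X_j^E. -/
noncomputable def mI (B : Type) [CommRing B] {r : ℕ} (j : Fin r) (E : ℕ) : La r B := AddMonoidAlgebra.single (Pi.single j (-(E : ℤ))) 1

theorem c06_mI (j : Fin r) (E : ℕ) : mI B j E * jL r B (X j ^ E) = 1 := by
  rw [c05_X_pow, mI, AddMonoidAlgebra.single_mul_single, AddMonoidAlgebra.one_def, mul_one]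
  congr 1
  rw [← Pi.single_add]
  simp

theorem c06_smul (s : Fin r →₀ ℕ) (c : B) (u : La r B) (α : Fin r → ℤ) :
    (jL r B (monomial s c) * u).coeff α = c * u.coeff (α - exL r s) := by
  rw [c05_monomial, AddMonoidAlgebra.coeff_single_mul_apply, neg_add_eq_sub]

/-- PROOF: p is a sum of monomials, c05_monomial, AddMonoidAlgebra.coeff_single_mul (or the like): the coefficient of single γ c * u at α is
c * u.coeff (α - γ), and if α ∉ P then α - γ ∉ P for γ = exL s ≥ 0 (Upc). -/
theorem c06_mul {P : Set (Fin r → ℤ)} (hP : Upc P) (p : MvPolynomial (Fin r) B) {u : La r B} (hu : u ∈ SL P) :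
    jL r B p * u ∈ SL P := by
  induction p using MvPolynomial.induction_on' with
  | monomial s c =>
    intro α hα
    rw [c06_smul, hu _ fun h => hα ?_, mul_zero]
    have h1 := hP _ h (exL r s) (fun j => Int.natCast_nonneg _)
    rwa [sub_add_cancel] at h1
  | add p q hp hq =>
    rw [map_add, add_mul]
    exact Submodule.add_mem _ hp hq

theorem c06_sum {s t : ℤ} {p : MvPolynomial (Fin r) B} (hp : p ∈ hm r B s) :
    p = ∑ v ∈ p.support, monomial v (coeff v p) ∧ ∀ v ∈ p.support, ∑ i, (v i : ℤ) = s := by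
  refine ⟨p.as_sum, fun v hv => c01_coeff.mp hp v (mem_support_iff.mp hv)⟩

theorem c06_deg {s t : ℤ} {p : MvPolynomial (Fin r) B} (hp : p ∈ hm r B s) {u : La r B} (hu : u ∈ DL r B t) :
    jL r B p * u ∈ DL r B (s + t) := by
  obtain ⟨h1, h2⟩ := c06_sum (t := t) hp
  rw [h1, map_sum, Finset.sum_mul]
  refine Submodule.sum_mem _ fun v hv => ?_
  intro α hα
  rw [c06_smul, hu, mul_zero]
  intro h
  apply hα
  have h3 : ∑ j, (α - exL r v) j = t := h
  have h4 := h2 v hv
  show ∑ j, α j = s + t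
  have h5 : ∑ j, (α - exL r v) j = ∑ j, α j - ∑ j, (v j : ℤ) := by
    rw [← Finset.sum_sub_distrib]
    rfl
  linarith

theorem c06_inv {P : Set (Fin r → ℤ)} (j : Fin r) (hP : Dwn j P) (E : ℕ) {u : La r B} (hu : u ∈ SL P) : mI B j E * u ∈ SL P := by
  have h1 : ∀ (n : ℕ) α, α ∈ P → α - Pi.single j (n : ℤ) ∈ P := by
    intro n
    induction n with
    | zero => intro α h; simpa using h
    | succ n ih =>
      intro α h
      have h2 := hP _ (ih α h)
      have h3 : α - Pi.single j ((n + 1 : ℕ) : ℤ) = α - Pi.single j (n : ℤ) - Pi.single j 1 := by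
        push_cast
        rw [Pi.single_add]
        abel
      rw [h3]
      exact h2
  intro α hα
  rw [mI, AddMonoidAlgebra.coeff_single_mul_apply, hu, mul_zero]
  intro h
  apply hα
  have h2 := h1 E _ h
  have h3 : -Pi.single j (-(E : ℤ)) + α - Pi.single j (E : ℤ) = α := by
    rw [Pi.single_neg]
    abel
  rwa [h3] at h2

theorem c06_pr_mem (t : ℤ) (u : La r B) : prL t u ∈ DL r B t := by
  intro α hα
  exact Finsupp.filter_apply_neg _ _ hα

theorem c06_pr_coeff (t : ℤ) (u : La r B) (α : Fin r → ℤ) :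
    (prL t u).coeff α = if ∑ j, α j = t then u.coeff α else 0 := by
  show (u.coeff.filter fun α => ∑ j, α j = t) α = _
  rw [Finsupp.filter_apply]

theorem c06_pr_SL (t : ℤ) {P : Set (Fin r → ℤ)} {u : La r B} (hu : u ∈ SL P) : prL t u ∈ SL P := by
  intro α hα
  rw [c06_pr_coeff, hu α hα, ite_self]

theorem c06_pr_self {t : ℤ} {u : La r B} (hu : u ∈ DL r B t) : prL t u = u := by
  ext α
  rw [c06_pr_coeff]
  by_cases h : ∑ j, α j = t
  · rw [if_pos h]
  · rw [if_neg h]
    exact (hu α h).symm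

/-- PROOF: p is a sum of monomials of degree s (c01_coeff); for a monomial compare the coefficients. -/
theorem c06_pr_mul {s t : ℤ} {p : MvPolynomial (Fin r) B} (hp : p ∈ hm r B s) (u : La r B) :
    prL (s + t) (jL r B p * u) = jL r B p * prL t u := by
  obtain ⟨h1, h2⟩ := c06_sum (t := t) hp
  rw [h1, map_sum, Finset.sum_mul, Finset.sum_mul, map_sum]
  refine Finset.sum_congr rfl fun v hv => ?_
  ext α
  rw [c06_pr_coeff, c06_smul, c06_smul, c06_pr_coeff]
  have h4 := h2 v hv
  have h5 : ∑ j, (α - exL r v) j = ∑ j, α j - ∑ j, (v j : ℤ) := by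
    rw [← Finset.sum_sub_distrib]
    rfl
  by_cases h : ∑ j, α j = s + t
  · rw [if_pos h, if_pos (by linarith)]
  · rw [if_neg h, if_neg (fun h' => h (by linarith)), mul_zero]

/-- The families of submodules (P, degree t): union, intersection, empty set.  PROOF of the first: split the coefficients
(u.coeff.filter (· ∈ P)). -/
theorem c06_union (P P' : Set (Fin r → ℤ)) (t : ℤ) :
    (SL (B := B) (P ∪ P') ⊓ DL r B t : Submodule B (La r B)) ≤ (SL P ⊓ DL r B t) ⊔ (SL P' ⊓ DL r B t) := by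
  classical
  rintro u ⟨h1, h2⟩
  rw [Submodule.mem_sup]
  refine ⟨AddMonoidAlgebra.ofCoeff (u.coeff.filter (· ∈ P)), ⟨?_, ?_⟩,
    AddMonoidAlgebra.ofCoeff (u.coeff.filter (¬ · ∈ P)), ⟨?_, ?_⟩, ?_⟩
  · intro α hα
    exact Finsupp.filter_apply_neg _ _ hα
  · intro α hα
    show (u.coeff.filter (· ∈ P)) α = 0
    rw [Finsupp.filter_apply, h2 α hα, ite_self]
  · intro α hα
    show (u.coeff.filter (¬ · ∈ P)) α = 0
    rw [Finsupp.filter_apply]
    by_cases h : α ∈ P
    · rw [if_neg (not_not.mpr h)]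
    · rw [if_pos h]
      exact h1 α (fun h' => h'.elim h hα)
  · intro α hα
    show (u.coeff.filter (¬ · ∈ P)) α = 0
    rw [Finsupp.filter_apply, h2 α hα, ite_self]
  · apply AddMonoidAlgebra.coeff_injective
    exact Finsupp.filter_pos_add_filter_neg u.coeff (· ∈ P)

theorem c06_inter (P P' : Set (Fin r → ℤ)) : (SL (B := B) P ⊓ SL P' : Submodule B (La r B)) ≤ SL (P ∩ P') := by
  rintro u ⟨h1, h2⟩ α hα
  by_cases h : α ∈ P
  · exact h2 α (fun h' => hα ⟨h, h'⟩)
  · exact h1 α h

theorem c06_mono {P P' : Set (Fin r → ℤ)} (h : P ⊆ P') : (SL (B := B) P : Submodule B (La r B)) ≤ SL P' := by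
  intro u h1 α hα
  exact h1 α (fun h' => hα (h h'))

theorem c06_empty : (SL (B := B) (∅ : Set (Fin r → ℤ)) : Submodule B (La r B)) = ⊥ := by
  rw [eq_bot_iff]
  intro u h1
  rw [Submodule.mem_bot]
  ext α
  exact h1 α (fun h => h)

theorem c06_univ (u : La r B) : u ∈ SL (B := B) (Set.univ : Set (Fin r → ℤ)) :=
  fun α hα => absurd (Set.mem_univ α) hα

/-- An exponent of degree > -r has a nonnegative entry. -/
theorem c06_some {t : ℤ} (ht : -(r : ℤ) < t) : (DL r B t : Submodule B (La r B)) ≤ SL {α | ∃ j, 0 ≤ α j} := by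
  apply c06_mono
  intro α hα
  by_contra h
  have h' : ∀ j, α j ≤ -1 := by
    intro j
    by_contra hj
    exact h ⟨j, by omega⟩
  have h2 : ∑ j, α j ≤ ∑ _j : Fin r, (-1 : ℤ) := Finset.sum_le_sum fun j _ => h' j
  have h3 : ∑ j, α j = t := hα
  simp at h2
  omega

end H92C
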