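import Pool.Agent.Lib.H92C.C07A

/-!
# H92C, chunk C07C (S/M): from Laurent vectors to polynomial vectors
-/

set_option autoImplicit false

open MvPolynomial

namespace H92C

variable {r : ℕ} {B : Type} [CommRing B]

theorem c07c_map (β : ℕ → ℕ)
    (f : (i : ℕ) → (Fin (β (i + 1)) → MvPolynomial (Fin r) B) →ₗ[MvPolynomial (Fin r) B] (Fin (β i) → MvPolynomial (Fin r) B)) (i : ℕ)
    (v : Fin (β (i + 1)) → MvPolynomial (Fin r) B) :
    db (B := B) (M := La r B) (jL r B) β f i (fun b => jL r B (v b)) = fun a => jL r B (f i v a) :=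
  c04_map (jL r B) (f i) v

theorem c07c_smul (c : B) (p : MvPolynomial (Fin r) B) : jL r B (c • p) = c • jL r B p := by
  rw [MvPolynomial.smul_eq_C_mul, map_mul, c05_C_mul]

/-- From Laurent vectors to polynomial vectors.  PROOF: apply h to the vector jL ∘ v (c05_mem, c05_deg); w = jL ∘ w' by c05_lift; c04_map, c05_injective, c05_C_mul.
Cy: cases i. -/
theorem c07_back (β : ℕ → ℕ) (D : ℕ → ℤ) (a : ℤ) (θ : B)
    (f : (i : ℕ) → (Fin (β (i + 1)) → MvPolynomial (Fin r) B) →ₗ[MvPolynomial (Fin r) B] (Fin (β i) → MvPolynomial (Fin r) B)) (i : ℕ)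
    (h : Ex (db (B := B) (M := La r B) (jL r B) β f) θ (c07_Sp (B := B) β D a {α | ∀ j, 0 ≤ α j}) (fun _ => ⊥) i) :
    Ex (fun i => (f i).restrictScalars B) θ (pS β fun i => hm r B (a - D i)) (fun _ => ⊥) i := by
  intro v hv hc
  have h1 : (fun b => jL r B (v b)) ∈ c07_Sp (B := B) β D a {α | ∀ j, 0 ≤ α j} i :=
    fun b => ⟨c05_mem _, c05_deg (hv b)⟩
  have h2 : Cy (A := fun i => Fin (β i) → La r B) (db (B := B) (M := La r B) (jL r B) β f) (fun _ => ⊥) i (fun b => jL r B (v b)) := by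
    cases i with
    | zero => trivial
    | succ i =>
      have hc' : f i v = 0 := hc
      show db (B := B) (M := La r B) (jL r B) β f i (fun b => jL r B (v b)) ∈ (⊥ : Submodule B _)
      rw [c07c_map, hc', Submodule.mem_bot]
      funext a
      exact map_zero _
  obtain ⟨e, w, hw, he⟩ := h _ h1 h2
  have h3 : ∀ b, ∃ p ∈ hm r B (a - D (i + 1)), jL r B p = w b := fun b => c05_lift (w b) (hw b).1 (hw b).2
  choose w' hw' hw'' using h3
  refine ⟨e, w', hw', ?_⟩
  have hww : w = fun b => jL r B (w' b) := funext fun b => (hw'' b).symm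
  rw [Submodule.mem_bot, sub_eq_zero] at he ⊢
  rw [hww, c07c_map] at he
  funext b
  apply c05_injective
  have h4 := congrFun he b
  have h5 : jL r B ((θ ^ e • v) b) = (θ ^ e • fun b => jL r B (v b)) b := c07c_smul _ _
  rw [h5, h4]
  rfl

end H92C
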