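import Pool.Agent.Lib.H92C.C07B
import Pool.Agent.Lib.H92C.C07C

/-!
# H92C, chunk C07 (M): assembly of the Laurent theorem for polynomials
-/

set_option autoImplicit false

open MvPolynomial

namespace H92C

variable {r : ℕ} {B : Type} [CommRing B]

/-- The Laurent theorem for polynomials.  PROOF: c03 with dd := db (jL r B) β f and Sp := c07_Sp β D a: c07_dd, c07_g_mem, c07_hom, c06_union (entrywise), c06_inter,
c06_mono, c06_empty, h3 by c06_some (or β i = 0); c04_comp_apply for dd dd = 0; c07_back. -/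
theorem c07 (β : ℕ → ℕ) (D : ℕ → ℤ) (a : ℤ) (θ : B) (i0 : ℕ)
    (f : (i : ℕ) → (Fin (β (i + 1)) → MvPolynomial (Fin r) B) →ₗ[MvPolynomial (Fin r) B] (Fin (β i) → MvPolynomial (Fin r) B))
    (hf : ∀ i b c, f i (Pi.single b 1) c ∈ hm r B (D (i + 1) - D i)) (hff : ∀ i, f i ∘ₗ f (i + 1) = 0)
    (hH : ∀ j : Fin r, ∃ (H : (i : ℕ) → (Fin (β i) → MvPolynomial (Fin r) B) →ₗ[MvPolynomial (Fin r) B]
        (Fin (β (i + 1)) → MvPolynomial (Fin r) B)) (E : ℕ),
      (∀ v, f 0 (H 0 v) = (C θ * X j : MvPolynomial (Fin r) B) ^ E • v) ∧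
      (∀ (i : ℕ) (v), f (i + 1) (H (i + 1) v) + H i (f i v) = (C θ * X j : MvPolynomial (Fin r) B) ^ E • v))
    (h3 : ∀ i, i0 + r ≤ i → β i = 0 ∨ -(r : ℤ) < a - D i) (i : ℕ) (hi : i0 ≤ i) :
    Ex (fun i => (f i).restrictScalars B) θ (pS β fun i => hm r B (a - D i)) (fun _ => ⊥) i := by
  refine c07_back β D a θ f i ?_
  refine c03 (Q := B) (A := fun i => Fin (β i) → La r B) (db (B := B) (M := La r B) (jL r B) β f) θ
    ?_ r i0 (fun P i => c07_Sp (B := B) β D a P i) ?_ ?_ ?_ ?_ ?_ ?_ ?_ i hi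
  · intro i v
    show am (M := La r B) (jL r B) (f i) (am (M := La r B) (jL r B) (f (i + 1)) v) = 0
    rw [c04_comp_apply, hff, c04_zero]
    rfl
  · intro P P' hP i v hv b
    exact ⟨c06_mono hP (hv b).1, (hv b).2⟩
  · intro P P' i v hv
    have h1 : ∀ b, ∃ x ∈ (SL (B := B) P ⊓ DL r B (a - D i) : Submodule B (La r B)),
        ∃ y ∈ (SL (B := B) P' ⊓ DL r B (a - D i) : Submodule B (La r B)), x + y = v b :=
      fun b => Submodule.mem_sup.1 (c06_union P P' _ (hv b))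
    choose x hx y hy hxy using h1
    exact Submodule.mem_sup.2 ⟨x, fun b => hx b, y, fun b => hy b, funext hxy⟩
  · intro P P' i v hv b
    exact ⟨c06_inter P P' ⟨(hv.1 b).1, (hv.2 b).1⟩, (hv.1 b).2⟩
  · intro i
    rw [eq_bot_iff]
    intro v hv
    rw [Submodule.mem_bot]
    funext b
    have h1 := (hv b).1
    rw [c06_empty] at h1
    exact (Submodule.mem_bot B).1 h1
  · intro P hP i v hv
    exact c07_dd β D a f hf P hP i v hv
  · intro j
    obtain ⟨H, E, H0, H1⟩ := hH j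
    obtain ⟨k0, k1⟩ := c07_hom β D a θ f hf H j E H0 H1
    exact ⟨c07_g β D a H j E, E, k0, k1,
      fun P hP hj i v hv => c07_g_mem β D a H j E P hP hj i v hv⟩
  · intro i hi v hv b
    rcases h3 i hi with h | h
    · exact absurd b.isLt (by omega)
    · exact ⟨c06_some h (hv b).2, (hv b).2⟩

end H92C
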