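import Pool.Agent.Lib.H92C.C03
import Pool.Agent.Lib.H92C.C04
import Pool.Agent.Lib.H92C.C06

/-!
# H92C, chunk C07A (M, 2 lemmas): the Laurent theorem for complexes of free modules over a polynomial ring, stability of the families
-/

set_option autoImplicit false

open MvPolynomial

namespace H92C

variable {r : ℕ} {B : Type} [CommRing B]

/-- The families of submodules. -/
noncomputable def c07_Sp (β : ℕ → ℕ) (D : ℕ → ℤ) (a : ℤ) (P : Set (Fin r → ℤ)) (i : ℕ) : Submodule B (Fin (β i) → La r B) :=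
  pS β (fun i => (SL (B := B) P ⊓ DL r B (a - D i) : Submodule B (La r B))) i

/-- The homotopy of the variable j. -/
noncomputable def c07_g (β : ℕ → ℕ) (D : ℕ → ℤ) (a : ℤ)
    (H : (i : ℕ) → (Fin (β i) → MvPolynomial (Fin r) B) →ₗ[MvPolynomial (Fin r) B] (Fin (β (i + 1)) → MvPolynomial (Fin r) B))
    (j : Fin r) (E : ℕ) (i : ℕ) : (Fin (β i) → La r B) →ₗ[B] (Fin (β (i + 1)) → La r B) :=
  LinearMap.pi fun b => (prL (a - D (i + 1))) ∘ₗ (LinearMap.mulLeft B (mI B j E)) ∘ₗ (LinearMap.proj b) ∘ₗ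
    ((am (M := La r B) (jL r B) (H i)).restrictScalars B)

/-- PROOF: c06_mul, c06_deg, (D (i+1) - D i) + (a - D (i+1)) = a - D i, sums. -/
theorem c07_dd (β : ℕ → ℕ) (D : ℕ → ℤ) (a : ℤ)
    (f : (i : ℕ) → (Fin (β (i + 1)) → MvPolynomial (Fin r) B) →ₗ[MvPolynomial (Fin r) B] (Fin (β i) → MvPolynomial (Fin r) B))
    (hf : ∀ i b c, f i (Pi.single b 1) c ∈ hm r B (D (i + 1) - D i)) (P : Set (Fin r → ℤ)) (hP : Upc P) (i : ℕ)
    (v : Fin (β (i + 1)) → La r B) (hv : v ∈ c07_Sp (B := B) β D a P (i + 1)) :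
    db (B := B) (M := La r B) (jL r B) β f i v ∈ c07_Sp (B := B) β D a P i := by
  intro c
  show (∑ b, jL r B (f i (Pi.single b 1) c) • v b) ∈ _
  refine Submodule.sum_mem _ fun b _ => ?_
  have h1 := hv b
  refine ⟨c06_mul hP _ h1.1, ?_⟩
  have h2 := c06_deg (hf i b c) h1.2
  have h3 : (D (i + 1) - D i) + (a - D (i + 1)) = a - D i := by ring
  rw [h3] at h2
  exact h2

/-- PROOF: c06_mul, c06_inv, c06_pr_SL, c06_pr_mem. -/
theorem c07_g_mem (β : ℕ → ℕ) (D : ℕ → ℤ) (a : ℤ)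
    (H : (i : ℕ) → (Fin (β i) → MvPolynomial (Fin r) B) →ₗ[MvPolynomial (Fin r) B] (Fin (β (i + 1)) → MvPolynomial (Fin r) B))
    (j : Fin r) (E : ℕ) (P : Set (Fin r → ℤ)) (hP : Upc P) (hj : Dwn j P) (i : ℕ)
    (v : Fin (β i) → La r B) (hv : v ∈ c07_Sp (B := B) β D a P i) : c07_g β D a H j E i v ∈ c07_Sp (B := B) β D a P (i + 1) := by
  intro c
  show prL (a - D (i + 1)) (mI B j E * ∑ b, jL r B (H i (Pi.single b 1) c) • v b) ∈ _
  refine ⟨c06_pr_SL _ (c06_inv j hj E ?_), c06_pr_mem _ _⟩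
  exact Submodule.sum_mem _ fun b _ => c06_mul hP _ (hv b).1

end H92C
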