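import Pool.Agent.Lib.H92C.C07A

/-!
# H92C, chunk C07B (M): the homotopy identity
-/

set_option autoImplicit false

open MvPolynomial

namespace H92C

variable {r : ℕ} {B : Type} [CommRing B]

theorem c07b_g (β : ℕ → ℕ) (D : ℕ → ℤ) (a : ℤ)
    (H : (i : ℕ) → (Fin (β i) → MvPolynomial (Fin r) B) →ₗ[MvPolynomial (Fin r) B] (Fin (β (i + 1)) → MvPolynomial (Fin r) B))
    (j : Fin r) (E : ℕ) (i : ℕ) (v : Fin (β i) → La r B) (b : Fin (β (i + 1))) :
    c07_g β D a H j E i v b = prL (a - D (i + 1)) (mI B j E * am (M := La r B) (jL r B) (H i) v b) := rfl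

theorem c07b_dd (β : ℕ → ℕ) (D : ℕ → ℤ) (a : ℤ)
    (f : (i : ℕ) → (Fin (β (i + 1)) → MvPolynomial (Fin r) B) →ₗ[MvPolynomial (Fin r) B] (Fin (β i) → MvPolynomial (Fin r) B))
    (hf : ∀ i b c, f i (Pi.single b 1) c ∈ hm r B (D (i + 1) - D i))
    (H : (i : ℕ) → (Fin (β i) → MvPolynomial (Fin r) B) →ₗ[MvPolynomial (Fin r) B] (Fin (β (i + 1)) → MvPolynomial (Fin r) B))
    (j : Fin r) (E : ℕ) (i : ℕ) (v : Fin (β i) → La r B) (c : Fin (β i)) :
    db (B := B) (M := La r B) (jL r B) β f i (c07_g β D a H j E i v) c =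
      prL (a - D i) (mI B j E * am (M := La r B) (jL r B) (f i) (am (M := La r B) (jL r B) (H i) v) c) := by
  have h1 : db (B := B) (M := La r B) (jL r B) β f i (c07_g β D a H j E i v) c =
      ∑ b, jL r B (f i (Pi.single b 1) c) * c07_g β D a H j E i v b := rfl
  have h2 : am (M := La r B) (jL r B) (f i) (am (M := La r B) (jL r B) (H i) v) c =
      ∑ b, jL r B (f i (Pi.single b 1) c) * am (M := La r B) (jL r B) (H i) v b := rfl
  rw [h1, h2, Finset.mul_sum, map_sum]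
  refine Finset.sum_congr rfl fun b _ => ?_
  rw [c07b_g, ← c06_pr_mul (hf i b c)]
  have h3 : D (i + 1) - D i + (a - D (i + 1)) = a - D i := by ring
  rw [h3]
  congr 1
  ring

theorem c07b_fin (θ : B) (j : Fin r) (E : ℕ) {t : ℤ} {u : La r B} (hu : u ∈ DL r B t) :
    prL t (mI B j E * (jL r B ((C θ * X j : MvPolynomial (Fin r) B) ^ E) * u)) = θ ^ E • u := by
  have h1 : mI B j E * (jL r B ((C θ * X j : MvPolynomial (Fin r) B) ^ E) * u) = θ ^ E • u := by
    rw [mul_pow, map_mul, ← map_pow C]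
    calc mI B j E * (jL r B (C (θ ^ E)) * jL r B (X j ^ E) * u)
        = (mI B j E * jL r B (X j ^ E)) * (jL r B (C (θ ^ E)) * u) := by ring
      _ = θ ^ E • u := by rw [c06_mI, one_mul, c05_C_mul]
  rw [h1, map_smul, c06_pr_self hu]

/-- PROOF: the entry c of dd (g v) is ∑_b f_cb * pr (a - D (i+1)) (mI * (H v)_b) = pr (a - D i) (mI * (f H v)_c) (c06_pr_mul, with f_cb homogeneous of degree
D (i+1) - D i), the entry c of g (dd v) is pr (a - D i) (mI * (H f v)_c) (in position i = i' + 1), the sum is pr (a - D i) (mI * jL (C θ * X j)^E * v_c) (c04_homot) =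
pr (a - D i) (θ^E v_c) = θ^E v_c (c06_mI, c05_C_mul, c06_pr_self). -/
theorem c07_hom (β : ℕ → ℕ) (D : ℕ → ℤ) (a : ℤ) (θ : B)
    (f : (i : ℕ) → (Fin (β (i + 1)) → MvPolynomial (Fin r) B) →ₗ[MvPolynomial (Fin r) B] (Fin (β i) → MvPolynomial (Fin r) B))
    (hf : ∀ i b c, f i (Pi.single b 1) c ∈ hm r B (D (i + 1) - D i))
    (H : (i : ℕ) → (Fin (β i) → MvPolynomial (Fin r) B) →ₗ[MvPolynomial (Fin r) B] (Fin (β (i + 1)) → MvPolynomial (Fin r) B))
    (j : Fin r) (E : ℕ) (H0 : ∀ v, f 0 (H 0 v) = (C θ * X j : MvPolynomial (Fin r) B) ^ E • v)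
    (H1 : ∀ (i : ℕ) (v), f (i + 1) (H (i + 1) v) + H i (f i v) = (C θ * X j : MvPolynomial (Fin r) B) ^ E • v) :
    (∀ v ∈ c07_Sp (B := B) β D a Set.univ 0, db (B := B) (M := La r B) (jL r B) β f 0 (c07_g β D a H j E 0 v) = θ ^ E • v) ∧
    (∀ i, ∀ v ∈ c07_Sp (B := B) β D a Set.univ (i + 1),
      db (B := B) (M := La r B) (jL r B) β f (i + 1) (c07_g β D a H j E (i + 1) v) +
        c07_g β D a H j E i (db (B := B) (M := La r B) (jL r B) β f i v) = θ ^ E • v) := by
  obtain ⟨k0, k1⟩ := c04_homot (M := La r B) (jL r B) β f H _ H0 H1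
  constructor
  · intro v hv
    funext c
    rw [c07b_dd β D a f hf H j E 0 v c, k0 v]
    exact c07b_fin θ j E (hv c).2
  · intro i v hv
    funext c
    have h1 : (db (B := B) (M := La r B) (jL r B) β f (i + 1) (c07_g β D a H j E (i + 1) v) +
        c07_g β D a H j E i (db (B := B) (M := La r B) (jL r B) β f i v)) c =
        prL (a - D (i + 1)) (mI B j E *
          am (M := La r B) (jL r B) (f (i + 1)) (am (M := La r B) (jL r B) (H (i + 1)) v) c) +
        prL (a - D (i + 1)) (mI B j E *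
          am (M := La r B) (jL r B) (H i) (am (M := La r B) (jL r B) (f i) v) c) := by
      rw [Pi.add_apply, c07b_dd β D a f hf H j E (i + 1) v c]
      rfl
    rw [h1, ← map_add, ← mul_add, ← Pi.add_apply, k1 i v]
    exact c07b_fin θ j E (hv c).2

end H92C
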