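import Pool.Agent.Lib.H92C.CD

/-!
# H92C, chunk C08 (S/M, 2 lemmas): homotopies from exactness (thmC_cert)
-/

set_option autoImplicit false

open MvPolynomial

namespace H92C

/-- Lifting.  PROOF: choose H on the basis vectors (Pi.basisFun R (Fin l)).constr, or Module.projective_lifting_property. -/
theorem c08_lift {R : Type} [CommRing R] {m n l : ℕ} (F : (Fin m → R) →ₗ[R] (Fin n → R)) (G : (Fin l → R) →ₗ[R] (Fin n → R))
    (h : ∀ v, G v ∈ LinearMap.range F) : ∃ H : (Fin l → R) →ₗ[R] (Fin m → R), ∀ v, F (H v) = G v := by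
  have h1 : ∀ j : Fin l, ∃ u, F u = G (Pi.basisFun R (Fin l) j) := fun j => h _
  choose u hu using h1
  refine ⟨(Pi.basisFun R (Fin l)).constr R u, ?_⟩
  have h2 : F ∘ₗ (Pi.basisFun R (Fin l)).constr R u = G := by
    apply (Pi.basisFun R (Fin l)).ext
    intro j
    rw [LinearMap.comp_apply, Module.Basis.constr_basis, hu]
  intro v
  rw [← h2]
  rfl

/-- PROOF: h 0 by c08_lift (G = x • id); given h i with f_i h_i f_i = x f_i the map G = x • id - h_i f_i has values in ker f_i = range f_(i+1), c08_lift gives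
h (i+1), and f_(i+1) h_(i+1) f_(i+1) = x f_(i+1) - h_i f_i f_(i+1) = x f_(i+1).  Recursion on the subtype of the h i with the invariant. -/
theorem c08 {R : Type} [CommRing R] (β : ℕ → ℕ) (f : (i : ℕ) → (Fin (β (i + 1)) → R) →ₗ[R] (Fin (β i) → R))
    (hf : ∀ i, LinearMap.range (f (i + 1)) = LinearMap.ker (f i)) (x : R) (hx : ∀ v, x • v ∈ LinearMap.range (f 0)) :
    ∃ h : (i : ℕ) → (Fin (β i) → R) →ₗ[R] (Fin (β (i + 1)) → R),
      (∀ v, f 0 (h 0 v) = x • v) ∧ (∀ (i : ℕ) (v), f (i + 1) (h (i + 1) v) + h i (f i v) = x • v) := by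
  obtain ⟨h0, hh0⟩ := c08_lift (f 0) (x • LinearMap.id) (fun v => hx v)
  have hh0' : ∀ v, f 0 (h0 v) = x • v := fun v => by rw [hh0]; rfl
  have step : ∀ (i : ℕ) (t : {h : (Fin (β i) → R) →ₗ[R] (Fin (β (i + 1)) → R) //
      ∀ v, f i (h (f i v)) = x • f i v}),
      ∃ t' : {h : (Fin (β (i + 1)) → R) →ₗ[R] (Fin (β (i + 1 + 1)) → R) //
        ∀ v, f (i + 1) (h (f (i + 1) v)) = x • f (i + 1) v},
        ∀ v, f (i + 1) (t'.1 v) + t.1 (f i v) = x • v := by
    intro i t
    obtain ⟨H, hH⟩ := c08_lift (f (i + 1)) (x • LinearMap.id - t.1 ∘ₗ f i) (fun v => by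
      rw [hf i, LinearMap.mem_ker, LinearMap.sub_apply, map_sub]
      show f i (x • v) - f i (t.1 (f i v)) = 0
      rw [t.2 v, map_smul, sub_self])
    have hH' : ∀ v, f (i + 1) (H v) = x • v - t.1 (f i v) := fun v => by rw [hH]; rfl
    refine ⟨⟨H, ?_⟩, ?_⟩
    · intro v
      rw [hH']
      have h1 : f i (f (i + 1) v) = 0 := by
        have h2 : f (i + 1) v ∈ LinearMap.ker (f i) := by
          rw [← hf i]; exact LinearMap.mem_range_self _ _
        exact h2
      rw [h1, map_zero, sub_zero]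
    · intro v
      show f (i + 1) (H v) + t.1 (f i v) = x • v
      rw [hH', sub_add_cancel]
  choose g hg using step
  let s : (i : ℕ) → {h : (Fin (β i) → R) →ₗ[R] (Fin (β (i + 1)) → R) //
      ∀ v, f i (h (f i v)) = x • f i v} := fun i =>
    Nat.rec (motive := fun i => {h : (Fin (β i) → R) →ₗ[R] (Fin (β (i + 1)) → R) //
      ∀ v, f i (h (f i v)) = x • f i v}) ⟨h0, fun v => hh0' _⟩ (fun i t => g i t) i
  refine ⟨fun i => (s i).1, hh0', ?_⟩
  intro i v
  exact hg i (s i) v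

end H92C
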