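import Pool.Agent.Lib.H92C.C07

/-!
# H92C, chunk C09 (M, 3 lemmas): certificates of length at most n are resolutions (thmC_rfl)
-/

set_option autoImplicit false

open MvPolynomial

namespace H92C

/-- The degrees. -/
def c09_D (d : ℕ → ℤ) (i : ℕ) : ℤ := ∑ k ∈ Finset.range i, ((d (k + 1) - d k).toNat : ℤ)

theorem c09_step (d : ℕ → ℤ) (i : ℕ) : c09_D d (i + 1) - c09_D d i = ((d (i + 1) - d i).toNat : ℤ) := by
  unfold c09_D
  rw [Finset.sum_range_succ]
  ring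


/-- Homogeneous cycles.  PROOF: c07 with B = k, θ = 1, r = n, i0 = 1, D = c09_D d in position i + 1 (h3: β i = 0 for i ≥ 1 + n); C 1 * X j = X j, 1 ^ e = 1. -/
theorem c09_hom (k : Type) [Field k] (n : ℕ) (d : ℕ → ℤ) (β : ℕ → ℕ) (hβ : ∀ i, n < i → β i = 0)
    (f : (i : ℕ) → (Fin (β (i + 1)) → MvPolynomial (Fin n) k) →ₗ[MvPolynomial (Fin n) k] (Fin (β i) → MvPolynomial (Fin n) k))
    (hf : ∀ (i : ℕ) (a : Fin (β i)) (b : Fin (β (i + 1))), (f i (Pi.single b 1) a).IsHomogeneous (d (i + 1) - d i).toNat)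
    (hff : ∀ i : ℕ, f i ∘ₗ f (i + 1) = 0) (e : ℕ)
    (hh : ∀ a : Fin n, ∃ h : (i : ℕ) → (Fin (β i) → MvPolynomial (Fin n) k) →ₗ[MvPolynomial (Fin n) k]
        (Fin (β (i + 1)) → MvPolynomial (Fin n) k),
      (∀ v, f 0 (h 0 v) = (X a : MvPolynomial (Fin n) k) ^ e • v) ∧
      (∀ (i : ℕ) (v), f (i + 1) (h (i + 1) v) + h i (f i v) = (X a : MvPolynomial (Fin n) k) ^ e • v))
    (i : ℕ) (a : ℤ) (v : Fin (β (i + 1)) → MvPolynomial (Fin n) k) (hv : ∀ b, v b ∈ hm n k a) (h0 : f i v = 0) :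
    ∃ w, f (i + 1) w = v := by
  have h1 := c07 (B := k) β (c09_D d) (a + c09_D d (i + 1)) 1 1 f
    (fun i b c => by
      rw [c09_step]
      exact c01_nat.2 (hf i c b)) hff
    (fun j => by
      obtain ⟨H, H0, H1⟩ := hh j
      refine ⟨H, e, fun v => ?_, fun i v => ?_⟩
      · rw [C_1, one_mul]
        exact H0 v
      · rw [C_1, one_mul]
        exact H1 i v)
    (fun i hi => Or.inl (hβ i (by omega))) (i + 1) (by omega)
  have e1 : a + c09_D d (i + 1) - c09_D d (i + 1) = a := by ring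
  obtain ⟨e', w, -, hw⟩ := h1 v (fun b => by
    show v b ∈ hm n k (a + c09_D d (i + 1) - c09_D d (i + 1))
    rw [e1]
    exact hv b) h0
  have hw' : (1 : k) ^ e' • v - f (i + 1) w = 0 := hw
  rw [one_pow, one_smul] at hw'
  exact ⟨w, (sub_eq_zero.1 hw').symm⟩


/-- PROOF: the inclusion ≤ is hff.  A cycle v is the sum of the vectors v_t := (b ↦ hc t (v b)), t < T (c01_sum), f i v_t = (a ↦ hc (t + δ) (f i v a)) = 0 with δ = (d (i+1) - d i).toNat
(c04_mat, c01_hc_mul), so v_t is a boundary by c09_hom.  Finite length: f 0 (h 0 v). -/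
theorem c09 (k : Type) [Field k] (n : ℕ) (d : ℕ → ℤ) (β : ℕ → ℕ) (hβ : ∀ i, n < i → β i = 0) (h : Cert k n d β) :
    Rfl k n d β := by
  obtain ⟨f, hf, hff, e, hh⟩ := h
  refine ⟨f, hf, fun i => le_antisymm ?_ ?_, e, ?_⟩
  · rintro _ ⟨w, rfl⟩
    rw [LinearMap.mem_ker]
    exact LinearMap.congr_fun (hff i) w
  · intro v hv
    rw [LinearMap.mem_ker] at hv
    choose T hT using fun b => c01_sum (v b)
    obtain ⟨T0, hT0⟩ : ∃ T0, ∀ b, T b ≤ T0 :=
      ⟨∑ b, T b, fun b => Finset.single_le_sum (fun _ _ => Nat.zero_le _) (Finset.mem_univ b)⟩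
    have hvsum : v = ∑ t ∈ Finset.range T0, (fun b => hc (t : ℤ) (v b)) := by
      funext b
      rw [Finset.sum_apply]
      exact (hT b T0 (hT0 b)).symm
    rw [hvsum]
    refine Submodule.sum_mem _ (fun t _ => ?_)
    obtain ⟨w, hw⟩ := c09_hom k n d β hβ f hf hff e hh i t (fun b => hc (t : ℤ) (v b))
      (fun b => c01_hc_mem _ _) (by
        funext c
        rw [c04_mat (f i) (fun b => hc (t : ℤ) (v b)) c]
        have h1 : ∀ b, f i (Pi.single b 1) c * hc (t : ℤ) (v b) =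
            hc (((d (i + 1) - d i).toNat : ℤ) + t) (f i (Pi.single b 1) c * v b) := fun b =>
          (c01_hc_mul (c01_nat.2 (hf i c b)) (v b)).symm
        rw [Finset.sum_congr rfl (fun b _ => h1 b), ← map_sum, ← c04_mat (f i) v c, hv]
        simp)
    exact ⟨w, hw⟩
  · intro a v
    obtain ⟨h, h0, -⟩ := hh a
    rw [← h0 v]
    exact ⟨h 0 v, rfl⟩


end H92C
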