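import Pool.Agent.Lib.H92C.C01

/-!
# H92C, chunk C10 (M, 5 lemmas): the Segre map is homogeneous in x and in y
-/

set_option autoImplicit false

open MvPolynomial

namespace H92C

variable {K : Type} [Field K] {M ν N : ℕ}

theorem c10_X (k : Fin M) : sgr K M ν N (X k) = ∑ i : Fin ν, ∑ j : Fin N,
    if (i : ℕ) + j = k then (C (X i) * X j : MvPolynomial (Fin N) (MvPolynomial (Fin ν) K)) else 0 := by
  show (aeval (R := K) fun k : Fin M => ∑ i : Fin ν, ∑ j : Fin N,
    if (i : ℕ) + j = k then (C (X i) * X j : MvPolynomial (Fin N) (MvPolynomial (Fin ν) K)) else 0) (X k) = _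
  rw [aeval_X]

/-- PROOF: IsHomogeneous.aeval (or sums of monomials: products of powers of c10_X). -/
theorem c10_y {δ : ℤ} {p : MvPolynomial (Fin M) K} (hp : p ∈ hm M K δ) : sgr K M ν N p ∈ hm N (MvPolynomial (Fin ν) K) δ := by
  rcases lt_or_ge δ 0 with hd | hd
  · rw [(c01_neg hd).1 hp, map_zero]
    exact Submodule.zero_mem _
  · obtain ⟨a, rfl⟩ := Int.eq_ofNat_of_zero_le hd
    rw [c01_nat] at hp ⊢
    have h1 := IsHomogeneous.eval₂ (n := 1) hp (algebraMap K (MvPolynomial (Fin N) (MvPolynomial (Fin ν) K)))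
      (fun k : Fin M => ∑ i : Fin ν, ∑ j : Fin N,
        if (i : ℕ) + j = k then (C (X i) * X j : MvPolynomial (Fin N) (MvPolynomial (Fin ν) K)) else 0)
      (fun r => isHomogeneous_C _ _)
      (fun k => IsHomogeneous.sum _ _ _ fun i _ => IsHomogeneous.sum _ _ _ fun j _ => by
        split_ifs
        · have := (isHomogeneous_C (Fin N) (X i : MvPolynomial (Fin ν) K)).mul (isHomogeneous_X (MvPolynomial (Fin ν) K) j)
          rwa [zero_add] at this
        · exact isHomogeneous_zero _ _ _)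
    rw [one_mul] at h1
    exact h1

theorem c10_xh_mul {δ δ' : ℤ} {P P' : MvPolynomial (Fin N) (MvPolynomial (Fin ν) K)} (h : xh δ P) (h' : xh δ' P') :
    xh (δ + δ') (P * P') := by
  intro s
  rw [coeff_mul]
  exact Submodule.sum_mem _ fun x _ => c01_mul (h x.1) (h' x.2)

theorem c10_xh_sum {ι : Type} (s : Finset ι) {δ : ℤ} (P : ι → MvPolynomial (Fin N) (MvPolynomial (Fin ν) K)) (h : ∀ i ∈ s, xh δ (P i)) :
    xh δ (∑ i ∈ s, P i) := by
  intro t
  rw [coeff_sum]
  exact Submodule.sum_mem _ fun i hi => h i hi t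

theorem c10_xh_C {δ : ℤ} {p : MvPolynomial (Fin ν) K} (hp : p ∈ hm ν K δ) :
    xh δ (C p : MvPolynomial (Fin N) (MvPolynomial (Fin ν) K)) := by
  intro s
  rw [coeff_C]
  split_ifs
  · exact hp
  · exact Submodule.zero_mem _

theorem c10_xh_one : xh 0 (1 : MvPolynomial (Fin N) (MvPolynomial (Fin ν) K)) := by
  have h1 : (1 : MvPolynomial (Fin N) (MvPolynomial (Fin ν) K)) = C (C 1) := by rw [C_1, C_1]
  rw [h1]
  exact c10_xh_C (c01_C 1)

theorem c10_xh_X (j : Fin N) : xh 0 (X j : MvPolynomial (Fin N) (MvPolynomial (Fin ν) K)) := by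
  intro s
  rw [coeff_X]
  split_ifs
  · have h := c01_C (N := ν) (1 : K)
    rwa [C_1] at h
  · exact Submodule.zero_mem _

theorem c10_xh_pow {δ : ℤ} {P : MvPolynomial (Fin N) (MvPolynomial (Fin ν) K)} (h : xh δ P) (n : ℕ) :
    xh (n * δ) (P ^ n) := by
  induction n with
  | zero =>
    rw [pow_zero, Nat.cast_zero, zero_mul]
    exact c10_xh_one
  | succ n ih =>
    rw [pow_succ, Nat.cast_succ, add_mul, one_mul]
    exact c10_xh_mul ih h

theorem c10_xh_prod {ι : Type} (s : Finset ι) (δ : ι → ℤ) (P : ι → MvPolynomial (Fin N) (MvPolynomial (Fin ν) K))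
    (h : ∀ i ∈ s, xh (δ i) (P i)) : xh (∑ i ∈ s, δ i) (∏ i ∈ s, P i) := by
  classical
  induction s using Finset.induction_on with
  | empty => exact c10_xh_one
  | insert a s ha ih =>
    rw [Finset.sum_insert ha, Finset.prod_insert ha]
    exact c10_xh_mul (h a (Finset.mem_insert_self a s)) (ih fun i hi => h i (Finset.mem_insert_of_mem hi))

theorem c10_xh_sgrX (k : Fin M) : xh 1 (sgr K M ν N (X k)) := by
  rw [c10_X]
  refine c10_xh_sum _ _ fun i _ => c10_xh_sum _ _ fun j _ => ?_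
  split_ifs
  · have := c10_xh_mul (c10_xh_C (N := N) (c01_X (B := K) i)) (c10_xh_X (K := K) (ν := ν) j)
    rwa [add_zero] at this
  · intro s
    rw [coeff_zero]
    exact Submodule.zero_mem _

/-- PROOF: p is the sum of its monomials; sgr (monomial s c) = C (C c) * ∏ sgr (X k)^(s k) (aeval_monomial or monomial_eq), xh 1 (sgr (X k)) by c10_X, c10_xh_mul, powers, products. -/
theorem c10_x {δ : ℤ} {p : MvPolynomial (Fin M) K} (hp : p ∈ hm M K δ) : xh δ (sgr K M ν N p) := by
  rw [p.as_sum, map_sum]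
  refine c10_xh_sum _ _ fun s hs => ?_
  have h1 : ∑ i, (s i : ℤ) = δ := c01_coeff.1 hp s (mem_support_iff.1 hs)
  have h2 : sgr K M ν N (C (coeff s p)) = C (C (coeff s p)) := by
    show (aeval (R := K) fun k : Fin M => ∑ i : Fin ν, ∑ j : Fin N,
      if (i : ℕ) + j = k then (C (X i) * X j : MvPolynomial (Fin N) (MvPolynomial (Fin ν) K)) else 0) (C (coeff s p)) = _
    rw [aeval_C]
    rfl
  rw [monomial_eq, map_mul, h2, Finsupp.prod_fintype _ _ (fun i => pow_zero _), map_prod, ← h1]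
  have h3 := c10_xh_mul (c10_xh_C (N := N) (c01_C (N := ν) (coeff s p))) (c10_xh_prod Finset.univ (fun i => ((s i : ℤ)))
    (fun i => sgr K M ν N (X i ^ s i)) (fun i _ => by
      rw [map_pow]
      have := c10_xh_pow (c10_xh_sgrX (K := K) (ν := ν) (N := N) i) (s i)
      rwa [mul_one] at this))
  rwa [zero_add] at h3

end H92C
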