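import Pool.Agent.Lib.H92C.C10

/-!
# H92C, chunk C11 (M): the radical of the ideal generated by the images of the variables
-/

set_option autoImplicit false

open MvPolynomial

namespace H92C

variable {K : Type} [Field K] {M ν N : ℕ}

/-- PROOF: let J be the ideal.  sgr (X k) ∈ J.radical for all k.  By strong induction on i + j: x_i y_j ∈ J.radical (x_i = C (X i), y_j = X j): i + j < M by hM, and by c10_X
(x_i y_j)^2 = x_i y_j * sgr (X (i+j)) - ∑ over (i',j') ≠ (i,j) with i' + j' = i + j of (x_i' y_j) (x_i y_j'),
and in each term i' < i (then x_i' y_j ∈ J.radical by induction) or j' < j (then x_i y_j' ∈ J.radical).  So the square is in the radical. -/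
theorem c11 (hM : ν + N ≤ M + 1) (e0 : ℕ) (i : Fin ν) (j : Fin N) :
    ∃ E : ℕ, (C (X i) * X j : MvPolynomial (Fin N) (MvPolynomial (Fin ν) K)) ^ E ∈
      Ideal.span (Set.range fun k : Fin M => (sgr K M ν N (X k)) ^ e0) := by
  set J : Ideal (MvPolynomial (Fin N) (MvPolynomial (Fin ν) K)) :=
    Ideal.span (Set.range fun k : Fin M => (sgr K M ν N (X k)) ^ e0) with hJ
  have hX : ∀ k : Fin M, sgr K M ν N (X k) ∈ J.radical := by
    intro k
    rw [Ideal.mem_radical_iff]
    exact ⟨e0, Ideal.subset_span ⟨k, rfl⟩⟩
  have key : ∀ s : ℕ, ∀ (i : Fin ν) (j : Fin N), (i : ℕ) + j = s →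
      (C (X i) * X j : MvPolynomial (Fin N) (MvPolynomial (Fin ν) K)) ∈ J.radical := by
    intro s
    induction s using Nat.strong_induction_on with
    | _ s ih =>
      intro i j hij
      have hk : (i : ℕ) + j < M := by
        have := i.2
        have := j.2
        omega
      have h1 : (C (X i) * X j : MvPolynomial (Fin N) (MvPolynomial (Fin ν) K)) *
          sgr K M ν N (X ⟨(i : ℕ) + j, hk⟩) ∈ J.radical := J.radical.mul_mem_left _ (hX _)
      set f : Fin ν × Fin N → MvPolynomial (Fin N) (MvPolynomial (Fin ν) K) := fun q =>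
        if (q.1 : ℕ) + q.2 = (i : ℕ) + j then (C (X i) * X j) * (C (X q.1) * X q.2) else 0 with hf
      have h2 : (C (X i) * X j : MvPolynomial (Fin N) (MvPolynomial (Fin ν) K)) *
          sgr K M ν N (X ⟨(i : ℕ) + j, hk⟩) = ∑ q, f q := by
        rw [c10_X, Fintype.sum_prod_type, Finset.mul_sum]
        refine Finset.sum_congr rfl fun i' _ => ?_
        rw [Finset.mul_sum]
        refine Finset.sum_congr rfl fun j' _ => ?_
        simp only [hf]
        split_ifs <;> simp
      have h3 : f (i, j) + ∑ q ∈ Finset.univ.erase (i, j), f q = ∑ q, f q :=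
        Finset.add_sum_erase _ _ (Finset.mem_univ _)
      have h4 : ∑ q ∈ Finset.univ.erase (i, j), f q ∈ J.radical := by
        refine Ideal.sum_mem _ fun q hq => ?_
        rw [Finset.mem_erase] at hq
        simp only [hf]
        split_ifs with hs
        · have e : (C (X i) * X j) * (C (X q.1) * X q.2) =
              (C (X q.1) * X j : MvPolynomial (Fin N) (MvPolynomial (Fin ν) K)) *
                (C (X i) * X q.2) := by ring
          rw [e]
          rcases lt_or_ge (q.1 : ℕ) (i : ℕ) with hlt | hge
          · exact J.radical.mul_mem_right _ (ih ((q.1 : ℕ) + j) (by omega) q.1 j rfl)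
          · have hne : (q.2 : ℕ) < (j : ℕ) := by
              rcases Nat.lt_or_ge (q.2 : ℕ) (j : ℕ) with h | h
              · exact h
              · exfalso
                apply hq.1
                have e1 : q.1 = i := Fin.ext (by omega)
                have e2 : q.2 = j := Fin.ext (by omega)
                exact Prod.ext e1 e2
            exact J.radical.mul_mem_left _ (ih ((i : ℕ) + q.2) (by omega) i q.2 rfl)
        · exact J.radical.zero_mem
      have h5 : f (i, j) ∈ J.radical := by
        have : f (i, j) = (C (X i) * X j : MvPolynomial (Fin N) (MvPolynomial (Fin ν) K)) *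
          sgr K M ν N (X ⟨(i : ℕ) + j, hk⟩) - ∑ q ∈ Finset.univ.erase (i, j), f q := by
          rw [h2, ← h3]; ring
        rw [this]
        exact J.radical.sub_mem h1 h4
      have h6 : (C (X i) * X j : MvPolynomial (Fin N) (MvPolynomial (Fin ν) K)) ^ 2 ∈
          J.radical := by
        have e : f (i, j) = (C (X i) * X j) ^ 2 := by
          simp only [hf, if_true]
          ring
        rwa [e] at h5
      exact (Ideal.radical_isRadical J) ⟨2, h6⟩
  have := key _ i j rfl
  rwa [Ideal.mem_radical_iff] at this

end H92C
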