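import Pool.Agent.Lib.H92C.C11
import Pool.Agent.Lib.H92C.C04

/-!
# H92C, chunk C12 (S/M): homotopies over the polynomial ring in x and y
-/

set_option autoImplicit false

open MvPolynomial

namespace H92C

variable {K : Type} [Field K] {M ν N : ℕ}

/-- PROOF: (x_p y_j)^E = ∑_k r_k * sgr (X k)^e0 (c11, Ideal.mem_span_range_iff_exists_fun), H i := ∑_k r_k • am sgr (h^(k) i); c04_homot for each k (with x = X k ^ e0),
linearity of am sgr (f i). -/
theorem c12 (hM : ν + N ≤ M + 1) (β : ℕ → ℕ)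
    (f : (i : ℕ) → (Fin (β (i + 1)) → MvPolynomial (Fin M) K) →ₗ[MvPolynomial (Fin M) K] (Fin (β i) → MvPolynomial (Fin M) K))
    (e0 : ℕ) (hh : ∀ a : Fin M, ∃ h : (i : ℕ) → (Fin (β i) → MvPolynomial (Fin M) K) →ₗ[MvPolynomial (Fin M) K]
        (Fin (β (i + 1)) → MvPolynomial (Fin M) K),
      (∀ v, f 0 (h 0 v) = (X a : MvPolynomial (Fin M) K) ^ e0 • v) ∧
      (∀ (i : ℕ) (v), f (i + 1) (h (i + 1) v) + h i (f i v) = (X a : MvPolynomial (Fin M) K) ^ e0 • v))
    (p : Fin ν) (j : Fin N) :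
    ∃ (H : (i : ℕ) → (Fin (β i) → MvPolynomial (Fin N) (MvPolynomial (Fin ν) K)) →ₗ[MvPolynomial (Fin N) (MvPolynomial (Fin ν) K)]
        (Fin (β (i + 1)) → MvPolynomial (Fin N) (MvPolynomial (Fin ν) K))) (E : ℕ),
      (∀ v, am (sgr K M ν N) (f 0) (H 0 v) = (C (X p) * X j : MvPolynomial (Fin N) (MvPolynomial (Fin ν) K)) ^ E • v) ∧
      (∀ (i : ℕ) (v), am (sgr K M ν N) (f (i + 1)) (H (i + 1) v) + H i (am (sgr K M ν N) (f i) v) =
        (C (X p) * X j : MvPolynomial (Fin N) (MvPolynomial (Fin ν) K)) ^ E • v) := by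
  obtain ⟨E, hE⟩ := c11 (K := K) hM e0 p j
  obtain ⟨r, hr⟩ := Ideal.mem_span_range_iff_exists_fun.1 hE
  choose h h0 h1 using hh
  have key : ∀ {b : ℕ} (v : Fin b → MvPolynomial (Fin N) (MvPolynomial (Fin ν) K)),
      ∑ k, r k • ((sgr K M ν N) ((X k : MvPolynomial (Fin M) K) ^ e0) • v) =
        (C (X p) * X j : MvPolynomial (Fin N) (MvPolynomial (Fin ν) K)) ^ E • v := by
    intro b v
    rw [← hr, Finset.sum_smul]
    refine Finset.sum_congr rfl fun k _ => ?_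
    rw [map_pow, smul_smul]
  refine ⟨fun i => ∑ k, r k • am (sgr K M ν N) (h k i), E, fun v => ?_, fun i v => ?_⟩
  · rw [LinearMap.sum_apply, map_sum, ← key v]
    refine Finset.sum_congr rfl fun k _ => ?_
    rw [LinearMap.smul_apply, map_smul, (c04_homot (sgr K M ν N) β f (h k) _ (h0 k) (h1 k)).1 v]
  · rw [LinearMap.sum_apply, LinearMap.sum_apply, map_sum, ← key v, ← Finset.sum_add_distrib]
    refine Finset.sum_congr rfl fun k _ => ?_
    rw [LinearMap.smul_apply, LinearMap.smul_apply, map_smul, ← smul_add,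
      (c04_homot (sgr K M ν N) β f (h k) _ (h0 k) (h1 k)).2 i v]

end H92C
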