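import Pool.Agent.Lib.H92C.C12
import Pool.Agent.Lib.H92C.C07

/-!
# H92C, chunk C13 (S/M): the strands are exact up to powers of x_p
-/

set_option autoImplicit false

open MvPolynomial

namespace H92C

variable {K : Type} [Field K] {M ν N : ℕ}

/-- PROOF: c07 with B = MvPolynomial (Fin ν) K, r = N, θ = X p, i0 = 0 and the maps am (sgr K M ν N) (f i) (entries: c04_single, c10_y; composition: c04_comp); hH is c12.
(fun i => (am sgr (f i)).restrictScalars B) is db sgr β f by definition. -/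
theorem c13 (hM : ν + N ≤ M + 1) (β : ℕ → ℕ) (D : ℕ → ℤ)
    (f : (i : ℕ) → (Fin (β (i + 1)) → MvPolynomial (Fin M) K) →ₗ[MvPolynomial (Fin M) K] (Fin (β i) → MvPolynomial (Fin M) K))
    (hf : ∀ i b c, f i (Pi.single b 1) c ∈ hm M K (D (i + 1) - D i)) (hff : ∀ i, f i ∘ₗ f (i + 1) = 0)
    (e0 : ℕ) (hh : ∀ a : Fin M, ∃ h : (i : ℕ) → (Fin (β i) → MvPolynomial (Fin M) K) →ₗ[MvPolynomial (Fin M) K]
        (Fin (β (i + 1)) → MvPolynomial (Fin M) K),
      (∀ v, f 0 (h 0 v) = (X a : MvPolynomial (Fin M) K) ^ e0 • v) ∧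
      (∀ (i : ℕ) (v), f (i + 1) (h (i + 1) v) + h i (f i v) = (X a : MvPolynomial (Fin M) K) ^ e0 • v))
    (a : ℤ) (h3 : ∀ i, β i = 0 ∨ -(N : ℤ) < a - D i) (p : Fin ν) (i : ℕ) :
    Ex (db (B := MvPolynomial (Fin ν) K) (M := MvPolynomial (Fin N) (MvPolynomial (Fin ν) K)) (sgr K M ν N) β f) (X p)
      (pS β fun i => hm N (MvPolynomial (Fin ν) K) (a - D i)) (fun _ => ⊥) i := by
  refine c07 (r := N) (B := MvPolynomial (Fin ν) K) β D a (X p) 0 (fun i => am (sgr K M ν N) (f i)) ?_ ?_ ?_ ?_ i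
    (Nat.zero_le i)
  · intro i b c
    rw [c04_single]
    exact c10_y (hf i b c)
  · intro i
    rw [← c04_comp, hff, c04_zero]
  · exact fun j => c12 hM β f e0 hh p j
  · exact fun i _ => h3 i

end H92C
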