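import Pool.Agent.Lib.H92C.C04
import Pool.Agent.Lib.H92C.C01

/-!
# H92C, chunk C14 (M, 3 lemmas): strands with values in the vectors under a row
-/

set_option autoImplicit false

open MvPolynomial

namespace H92C

/-- There are finitely many patterns under a row.  PROOF: induction on n (generalizing E): the patterns are the pairs (F, c') with F ∈ IF E, gd n F c'. -/
theorem c14_fin (n : ℕ) (E : Fin n → ℤ) : Finite {c : Ch n // gd n E c} := by
  induction n with
  | zero =>
    have : Finite (Ch 0) := inferInstanceAs (Finite Unit)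
    infer_instance
  | succ n ih =>
    have h1 : Finite {F : Fin n → ℤ // Il E F} := by
      have h : {F : Fin n → ℤ | Il E F} = ↑(IF E) := by
        ext F
        simp [mem_IF]
      have h2 : ({F : Fin n → ℤ | Il E F}).Finite := by
        rw [h]
        exact Finset.finite_toSet _
      exact h2.to_subtype
    have h2 : ∀ F : {F : Fin n → ℤ // Il E F}, Finite {c : Ch n // gd n F.1 c} := fun F => ih F.1
    let f : {c : Ch (n + 1) // gd (n + 1) E c} → Σ F : {F : Fin n → ℤ // Il E F}, {c : Ch n // gd n F.1 c} :=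
      fun c => ⟨⟨c.1.1, c.2.1⟩, ⟨c.1.2, c.2.2⟩⟩
    refine Finite.of_injective f ?_
    rintro ⟨⟨F, c⟩, hc⟩ ⟨⟨F', c'⟩, hc'⟩ h
    have h3 : F = F' := congrArg (fun s => s.1.1) h
    subst h3
    have h4 : c = c' := by
      have := Sigma.mk.inj h
      have h5 := eq_of_heq this.2
      exact congrArg Subtype.val h5
    subst h4
    rfl

/-- PROOF: for each pattern c under dl D2 p (finitely many) the vector b ↦ v b c is a cycle of the strand (a - D2 p in place of a: (a - D i) - D2 p = (a - D2 p) - D i); take e_c, w_c;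
e := the sum (or maximum) of the e_c, w b c := θ^(e - e_c) * w_c b for the patterns c, 0 for the other c.  Evaluation at c is linear over S: am φ f v b c = am φ f (fun b => v b c) b by definition. -/
theorem c14 {R B : Type} [CommRing R] [CommRing B] {N : ℕ} (φ : R →+* MvPolynomial (Fin N) B) (β : ℕ → ℕ) (D : ℕ → ℤ)
    (f : (i : ℕ) → (Fin (β (i + 1)) → R) →ₗ[R] (Fin (β i) → R)) (θ : B) (D2 : Fin (N + 1) → ℤ) (p : Fin (N + 1)) (a : ℤ) (i : ℕ)
    (h : Ex (db (B := B) (M := MvPolynomial (Fin N) B) φ β f) θ (pS β fun i => hm N B (a - D2 p - D i)) (fun _ => ⊥) i) :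
    Ex (db (B := B) (M := W (MvPolynomial (Fin N) B) N) φ β f) θ (pS β fun i => Gm B D2 p (a - D i)) (fun _ => ⊥) i := by
  classical
  intro v hv hcy
  have hfin : Finite {c : Ch N // gd N (dl D2 p) c} := c14_fin N (dl D2 p)
  have hft : Fintype {c : Ch N // gd N (dl D2 p) c} := Fintype.ofFinite _
  have hsub : ∀ c, (fun b => v b c) ∈ pS (B := B) β (fun i => hm N B (a - D2 p - D i)) i := by
    intro c b
    have h1 := (hv b).2 c
    have h2 : a - D i - D2 p = a - D2 p - D i := by ring
    rw [h2] at h1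
    exact h1
  have hcyc : ∀ c, Cy (A := fun i => Fin (β i) → MvPolynomial (Fin N) B) (db (B := B) (M := MvPolynomial (Fin N) B) φ β f) (fun _ => ⊥) i (fun b => v b c) := by
    intro c
    match i, v, hcy with
    | 0, v, _ => exact trivial
    | i + 1, v, hcy =>
      have h1 : db (B := B) (M := W (MvPolynomial (Fin N) B) N) φ β f i v = 0 := (Submodule.mem_bot B).1 hcy
      refine (Submodule.mem_bot B).2 ?_
      funext b
      have h2 := congrFun (congrFun h1 b) c
      have h3 : (∑ x, φ (f i (Pi.single x 1) b) • v x) c = ∑ x, φ (f i (Pi.single x 1) b) • v x c := by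
        rw [Finset.sum_apply]
        rfl
      exact h3.symm.trans h2
  choose e w hw1 hw2 using fun c : {c : Ch N // gd N (dl D2 p) c} => h (fun b => v b c.1) (hsub c.1) (hcyc c.1)
  let E : ℕ := ∑ c, e c
  have hE : ∀ c, e c ≤ E := fun c => Finset.single_le_sum (fun _ _ => Nat.zero_le _) (Finset.mem_univ c)
  refine ⟨E, fun b c => if hc : gd N (dl D2 p) c then θ ^ (E - e ⟨c, hc⟩) • w ⟨c, hc⟩ b else 0, ?_, ?_⟩
  · intro b
    refine ⟨fun c hc => dif_neg hc, fun c => ?_⟩
    by_cases hc : gd N (dl D2 p) c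
    · have h1 : (a - D (i + 1) - D2 p : ℤ) = a - D2 p - D (i + 1) := by ring
      show (if hc : gd N (dl D2 p) c then θ ^ (E - e ⟨c, hc⟩) • w ⟨c, hc⟩ b else 0) ∈ _
      rw [dif_pos hc, h1]
      exact Submodule.smul_mem _ _ (hw1 ⟨c, hc⟩ b)
    · show (if hc : gd N (dl D2 p) c then θ ^ (E - e ⟨c, hc⟩) • w ⟨c, hc⟩ b else 0) ∈ _
      rw [dif_neg hc]
      exact Submodule.zero_mem _
  · refine (Submodule.mem_bot B).2 ?_
    funext b c
    have hdb : ∀ w' : Fin (β (i + 1)) → W (MvPolynomial (Fin N) B) N,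
        db (B := B) (M := W (MvPolynomial (Fin N) B) N) φ β f i w' b c =
          ∑ x, φ (f i (Pi.single x 1) b) • w' x c := by
      intro w'
      have h3 : (∑ x, φ (f i (Pi.single x 1) b) • w' x) c = ∑ x, φ (f i (Pi.single x 1) b) • w' x c := by
        rw [Finset.sum_apply]
        rfl
      exact h3
    show θ ^ E • v b c - db (B := B) (M := W (MvPolynomial (Fin N) B) N) φ β f i _ b c = 0
    rw [hdb]
    by_cases hc : gd N (dl D2 p) c
    · have h4 := congrFun ((Submodule.mem_bot B).1 (hw2 ⟨c, hc⟩)) b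
      have h5 : θ ^ e ⟨c, hc⟩ • v b c - ∑ x, φ (f i (Pi.single x 1) b) • w ⟨c, hc⟩ x = 0 := h4
      have h6 : ∀ x, φ (f i (Pi.single x 1) b) •
          (if hc : gd N (dl D2 p) c then θ ^ (E - e ⟨c, hc⟩) • w ⟨c, hc⟩ x else 0) =
          θ ^ (E - e ⟨c, hc⟩) • (φ (f i (Pi.single x 1) b) • w ⟨c, hc⟩ x) := by
        intro x
        rw [dif_pos hc, smul_comm]
      rw [Finset.sum_congr rfl fun x _ => h6 x, ← Finset.smul_sum, ← sub_eq_zero.1 h5, smul_smul, ← pow_add,
        Nat.sub_add_cancel (hE ⟨c, hc⟩), sub_self]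
    · have h6 : ∀ x, φ (f i (Pi.single x 1) b) •
          (if hc : gd N (dl D2 p) c then θ ^ (E - e ⟨c, hc⟩) • w ⟨c, hc⟩ x else (0 : MvPolynomial (Fin N) B)) = 0 := by
        intro x
        rw [dif_neg hc, smul_zero]
      rw [Finset.sum_eq_zero fun x _ => h6 x, (hv b).1 c hc, smul_zero, sub_zero]

end H92C
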