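import Pool.Agent.Lib.H92C.A17

/-!
# H92C, module A: exports (exactness of the complexes F_D)
-/

open MvPolynomial

namespace H92C

variable {K : Type} [Field K] {B : Type} [CommRing B] [Algebra K B]

/-- Exactness of F_D in the middle positions (homogeneous version). -/
theorem thmA_exact (z : ℤ → K) (hz : Function.Injective z) {N : ℕ} (D : Fin (N + 1) → ℤ) (hD : StrictMono D)
    (i j : Fin N) (hij : (j : ℕ) = i + 1) (t : ℤ) (v : W (MvPolynomial (Fin N) B) N)
    (hv : v ∈ U (MvPolynomial (Fin N) B) N (dl D i.succ)) (hg : Hg (t - D i.succ) v)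
    (h0 : bd z (xs N B) D i v = 0) :
    ∃ w ∈ U (MvPolynomial (Fin N) B) N (dl D j.succ), Hg (t - D j.succ) w ∧ bd z (xs N B) D j w = v :=
  (a17_exact (B := B) z hz N D hD).1 i j hij t v hv hg h0

/-- Exactness of F_D in the middle positions. -/
theorem thmA_exact' (z : ℤ → K) (hz : Function.Injective z) {N : ℕ} (D : Fin (N + 1) → ℤ) (hD : StrictMono D)
    (i j : Fin N) (hij : (j : ℕ) = i + 1) (v : W (MvPolynomial (Fin N) B) N)
    (hv : v ∈ U (MvPolynomial (Fin N) B) N (dl D i.succ))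
    (h0 : bd z (xs N B) D i v = 0) :
    ∃ w ∈ U (MvPolynomial (Fin N) B) N (dl D j.succ), bd z (xs N B) D j w = v := by
  obtain ⟨w, hw, _, h⟩ := (a17_exact' (B := B) z hz N D hD).1 i j hij 0 v hv (fun _ => trivial) h0
  exact ⟨w, hw, h⟩

/-- The last boundary of F_D is injective. -/
theorem thmA_inj (z : ℤ → K) (hz : Function.Injective z) {N : ℕ} (D : Fin (N + 1) → ℤ) (hD : StrictMono D)
    (i : Fin N) (hi : (i : ℕ) + 1 = N) (v : W (MvPolynomial (Fin N) B) N)
    (hv : v ∈ U (MvPolynomial (Fin N) B) N (dl D i.succ))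
    (h0 : bd z (xs N B) D i v = 0) : v = 0 :=
  (a17_exact' (B := B) z hz N D hD).2 i hi 0 v hv (fun _ => trivial) h0

/-- Regularity: in total degree > D_N - N every vector in position 0 is a boundary. -/
theorem thmA_reg (z : ℤ → K) (hz : Function.Injective z) {N : ℕ} (D : Fin (N + 1) → ℤ) (hD : StrictMono D)
    (i : Fin N) (hi : (i : ℕ) = 0) (t : ℤ) (ht : D (Fin.last N) - N < t) (v : W (MvPolynomial (Fin N) B) N)
    (hv : v ∈ U (MvPolynomial (Fin N) B) N (dl D i.castSucc)) (hg : Hg (t - D i.castSucc) v) :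
    ∃ w ∈ U (MvPolynomial (Fin N) B) N (dl D i.succ), Hg (t - D i.succ) w ∧ bd z (xs N B) D i w = v :=
  (a17_reg (B := B) z hz N D hD t ht i.castSucc hi v hv hg).2 i hi

/-- The boundary maps vectors under dl D (i+1) to vectors under dl D i. -/
theorem thmA_maps {R : Type} [CommRing R] [Algebra K R] (z : ℤ → K) (x : ℕ → R) {N : ℕ} (D : Fin (N + 1) → ℤ) (_ : StrictMono D)
    (i : Fin N) (v : W R N) (hv : v ∈ U R N (dl D i.succ)) : bd z x D i v ∈ U R N (dl D i.castSucc) :=
  a08_maps z x D i v (U_le_Vv _ hv)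

/-- Two boundaries compose to 0. -/
theorem thmA_comp {R : Type} [CommRing R] [Algebra K R] (z : ℤ → K) (hz : Function.Injective z) (x : ℕ → R) {N : ℕ}
    (D : Fin (N + 1) → ℤ) (hD : StrictMono D)
    (i j : Fin N) (hij : (j : ℕ) = i + 1) (v : W R N) (hv : v ∈ U R N (dl D j.succ)) :
    bd z x D i (bd z x D j v) = 0 :=
  a08_comp z hz x D hD i j hij v hv

/-- The boundary is homogeneous. -/
theorem thmA_hom (z : ℤ → K) {N : ℕ} (D : Fin (N + 1) → ℤ) (hD : StrictMono D)
    (i : Fin N) (t : ℤ) (v : W (MvPolynomial (Fin N) B) N) (hg : Hg (t - D i.succ) v) :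
    Hg (t - D i.castSucc) (bd z (xs N B) D i v) :=
  a08_bd z (xs N B) _ (a17_gr N) D hD i t v hg

end H92C
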