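import Pool.Agent.Lib.H92C.C01
import Pool.Agent.Lib.H92C.C02
import Pool.Agent.Lib.H92C.C04
import Pool.Agent.Lib.H92C.ThmA

/-!
# H92C, chunk C15 (M, 5 lemmas): syzygy modules as coefficients
-/

set_option autoImplicit false

open MvPolynomial

namespace H92C

variable {K : Type} [Field K] (z : ℤ → K) {B : Type} [CommRing B] [Algebra K B] {N : ℕ} {R : Type} [CommRing R]
  (φ : R →+* MvPolynomial (Fin N) B) (β : ℕ → ℕ) (D : ℕ → ℤ) (f : (i : ℕ) → (Fin (β (i + 1)) → R) →ₗ[R] (Fin (β i) → R)) (θ : B)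
  (D2 : Fin (N + 1) → ℤ)

/-- Boundaries are cycles and conversely.  PROOF: thmA_exact, thmA_maps, thmA_hom, thmA_comp. -/
theorem c15_BZ (hz : Function.Injective z) (hD : StrictMono D2) (i j : Fin N) (hij : (j : ℕ) = i + 1) (t : ℤ) :
    Zm z B D2 i t = Bm z B D2 j t := by
  have hc : j.castSucc = i.succ := by
    apply Fin.ext
    rw [Fin.val_castSucc, Fin.val_succ, hij]
  apply le_antisymm
  · intro v hv
    have h1 : v ∈ Gm B D2 i.succ t := hv.1
    have h2 : bd z (xs N B) D2 i v = 0 := hv.2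
    obtain ⟨w, hw, hg, he⟩ := thmA_exact z hz D2 hD i j hij t v h1.1 h1.2 h2
    exact ⟨w, ⟨hw, hg⟩, he⟩
  · rintro v ⟨w, hw, rfl⟩
    have hw' : w ∈ Gm B D2 j.succ t := hw
    refine ⟨⟨?_, ?_⟩, ?_⟩
    · rw [← hc]
      exact thmA_maps z (xs N B) D2 hD j w hw'.1
    · rw [← hc]
      exact thmA_hom z D2 hD j t w hw'.2
    · exact thmA_comp z hz (xs N B) D2 hD i j hij w hw'.1

theorem c15_Bm_le (hD : StrictMono D2) (i : Fin N) (t : ℤ) : Bm z B D2 i t ≤ Gm B D2 i.castSucc t := by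
  rintro v ⟨w, hw, rfl⟩
  have hw' : w ∈ Gm B D2 i.succ t := hw
  exact ⟨thmA_maps z (xs N B) D2 hD i w hw'.1, thmA_hom z D2 hD i t w hw'.2⟩

/-- The vectors with entries in Gm, Zm are stable under dd.  PROOF: U and the kernel are submodules over the polynomial ring in y; degrees: c01_mul, D (i+1) - D i + (a - D (i+1)) = a - D i. -/
theorem c15_stab (hf : ∀ i b c, φ (f i (Pi.single b 1) c) ∈ hm N B (D (i + 1) - D i)) (p : Fin (N + 1)) (a : ℤ) (i : ℕ)
    (v : Fin (β (i + 1)) → W (MvPolynomial (Fin N) B) N) (hv : v ∈ pS β (fun i => Gm B D2 p (a - D i)) (i + 1)) :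
    db (B := B) φ β f i v ∈ pS β (fun i => Gm B D2 p (a - D i)) i := by
  intro c
  show ∑ b, φ (f i (Pi.single b 1) c) • v b ∈ Gm B D2 p (a - D i)
  refine Submodule.sum_mem _ fun b _ => ?_
  have hb : v b ∈ Gm B D2 p (a - D (i + 1)) := hv b
  refine ⟨Submodule.smul_mem _ _ hb.1, fun g => ?_⟩
  have h1 := c01_mul (hf i b c) (hb.2 g)
  have h2 : D (i + 1) - D i + (a - D (i + 1) - D2 p) = a - D i - D2 p := by ring
  rw [h2] at h1
  exact h1

/-- The first step.  PROOF: c02_sub with S = pS Gm 0, T = pS Bm 0: T ≤ S by thmA_maps, thmA_hom; S (i+1) ≤ T (i+1): if β (i+1) = 0 or a - D (i+1) - D2 0 < 0 the vectors are 0,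
otherwise thmA_reg. -/
theorem c15_base (hz : Function.Injective z) (hD : StrictMono D2) (a : ℤ) (i0 : Fin N) (hi0 : (i0 : ℕ) = 0)
    (hgap : ∀ i, β (i + 1) = 0 ∨ a - D (i + 1) < D2 i0.castSucc ∨ D2 (Fin.last N) - N < a - D (i + 1)) (i : ℕ)
    (h : Ex (db (B := B) (M := W (MvPolynomial (Fin N) B) N) φ β f) θ (pS β fun i => Gm B D2 i0.castSucc (a - D i)) (fun _ => ⊥) i) :
    Ex (db (B := B) (M := W (MvPolynomial (Fin N) B) N) φ β f) θ (pS β fun i => Bm z B D2 i0 (a - D i)) (fun _ => ⊥) i := by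
  refine c02_sub _ θ _ _ ?_ i ?_ h
  · intro k v hv b
    exact c15_Bm_le z D2 hD i0 _ (hv b)
  · intro v hv b
    have hb : v b ∈ Gm B D2 i0.castSucc (a - D (i + 1)) := hv b
    show v b ∈ Bm z B D2 i0 (a - D (i + 1))
    rcases hgap i with h1 | h1 | h1
    · exact absurd b.2 (by omega)
    · have h2 : v b = 0 := by
        funext c
        exact (c01_neg (by omega)).1 (hb.2 c)
      rw [h2]
      exact Submodule.zero_mem _
    · obtain ⟨w, hw, hg, he⟩ := thmA_reg z hz D2 hD i0 hi0 (a - D (i + 1)) h1 (v b) hb.1 hb.2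
      exact ⟨w, ⟨hw, hg⟩, he⟩

/-- The induction step.  PROOF: c02_ker with S = pS Gm (j.castSucc = i0.succ), T = pS (Bm i0), Kr = pS (Zm i0) = pS (Bm j) (c15_BZ), δ v = (b ↦ bd z (xs N B) D2 i0 (v b)) (B-linear; commutes with dd by c04_nat);
hsur: the definition of Bm (choose preimages of the entries). -/
theorem c15_step (hz : Function.Injective z) (hD : StrictMono D2) (hff : ∀ i, f i ∘ₗ f (i + 1) = 0)
    (hf : ∀ i b c, φ (f i (Pi.single b 1) c) ∈ hm N B (D (i + 1) - D i)) (a : ℤ) (i0 j : Fin N) (hij : (j : ℕ) = i0 + 1) (i : ℕ)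
    (h1 : Ex (db (B := B) (M := W (MvPolynomial (Fin N) B) N) φ β f) θ (pS β fun i => Gm B D2 i0.succ (a - D i)) (fun _ => ⊥) i)
    (h2 : Ex (db (B := B) (M := W (MvPolynomial (Fin N) B) N) φ β f) θ (pS β fun i => Bm z B D2 i0 (a - D i)) (fun _ => ⊥) (i + 1)) :
    Ex (db (B := B) (M := W (MvPolynomial (Fin N) B) N) φ β f) θ (pS β fun i => Bm z B D2 j (a - D i)) (fun _ => ⊥) i := by
  let Tb : W (MvPolynomial (Fin N) B) N →ₗ[B] W (MvPolynomial (Fin N) B) N := (bd z (xs N B) D2 i0).restrictScalars B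
  let dl' : ∀ i, (Fin (β i) → W (MvPolynomial (Fin N) B) N) →ₗ[B] (Fin (β i) → W (MvPolynomial (Fin N) B) N) :=
    fun i => LinearMap.pi fun b => Tb ∘ₗ LinearMap.proj b
  refine c02_ker _ θ ?_ (pS β fun i => Gm B D2 i0.succ (a - D i)) (pS β fun i => Bm z B D2 i0 (a - D i)) _ ?_ dl' ?_ ?_ ?_ ?_ i h1 h2
  · intro k v
    show am φ (f k) (am φ (f (k + 1)) v) = 0
    rw [c04_comp_apply, hff, c04_zero]
    rfl
  · intro k v hv
    exact c15_stab φ β D f D2 hf i0.succ a k v hv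
  · intro k v
    funext b
    have h3 := congrFun (c04_nat φ (bd z (xs N B) D2 i0) (f k) v) b
    exact h3.symm
  · intro k v
    constructor
    · intro hv
      have hv' : ∀ b, v b ∈ Zm z B D2 i0 (a - D k) := by
        intro b
        rw [c15_BZ z D2 hz hD i0 j hij]
        exact hv b
      refine ⟨fun b => (hv' b).1, ?_⟩
      funext b
      exact (hv' b).2
    · rintro ⟨h3, h4⟩ b
      show v b ∈ Bm z B D2 j (a - D k)
      rw [← c15_BZ z D2 hz hD i0 j hij]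
      exact ⟨h3 b, congrFun h4 b⟩
  · intro k v hv b
    exact ⟨v b, hv b, rfl⟩
  · intro k u hu
    have hu' : ∀ b, ∃ w, w ∈ Gm B D2 i0.succ (a - D k) ∧ Tb w = u b := fun b => hu b
    choose w hw hw' using hu'
    exact ⟨w, hw, funext hw'⟩

/-- PROOF: induction on j (the claim for all i), c15_base and c15_step. -/
theorem c15 (hz : Function.Injective z) (hD : StrictMono D2) (hff : ∀ i, f i ∘ₗ f (i + 1) = 0)
    (hf : ∀ i b c, φ (f i (Pi.single b 1) c) ∈ hm N B (D (i + 1) - D i)) (a : ℤ)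
    (hgap : ∀ i, β (i + 1) = 0 ∨ a - D (i + 1) < D2 0 ∨ D2 (Fin.last N) - N < a - D (i + 1)) (j : Fin N)
    (h : ∀ p : Fin (N + 1), (p : ℕ) ≤ j → ∀ i,
      Ex (db (B := B) (M := W (MvPolynomial (Fin N) B) N) φ β f) θ (pS β fun i => Gm B D2 p (a - D i)) (fun _ => ⊥) i) (i : ℕ) :
    Ex (db (B := B) (M := W (MvPolynomial (Fin N) B) N) φ β f) θ (pS β fun i => Bm z B D2 j (a - D i)) (fun _ => ⊥) i := by
  obtain ⟨k, hk⟩ := j
  induction k generalizing i with
  | zero =>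
    refine c15_base z φ β D f θ D2 hz hD a ⟨0, hk⟩ rfl ?_ i (h _ le_rfl i)
    intro i'
    exact hgap i'
  | succ k ih =>
    refine c15_step z φ β D f θ D2 hz hD hff hf a ⟨k, by omega⟩ ⟨k + 1, hk⟩ rfl i ?_ ?_
    · exact h _ le_rfl i
    · exact ih (i + 1) (by omega) (fun p hp i => h p (le_trans hp (Nat.le_succ k)) i)

end H92C
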