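import Pool.Agent.Lib.H92C.CD

/-!
# H92C, chunk C16 (S/M, 4 lemmas): the operators are natural in the ring
-/

set_option autoImplicit false

open MvPolynomial

namespace H92C

variable {K R R' : Type} [Field K] [CommRing R] [Algebra K R] [CommRing R'] [Algebra K R'] (z : ℤ → K) (x : ℕ → R) (x' : ℕ → R')
  (T : R →ₗ[K] R')

theorem c16_tr (n : ℕ) (E : Fin n → ℤ) (v : W R n) : tr n E (fun c => T (v c)) = fun c => T (tr n E v c) := by
  cases n with
  | zero => rfl
  | succ n =>
    funext c
    by_cases h : Il E c.1 <;> simp [tr, h]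

/-- PROOF: induction on n (generalizing s and v), c16_tr, map_sum, map_smul, map_mul by hT. -/
theorem c16_XX (hT : ∀ l r, T (x l * r) = x' l * T r) (n : ℕ) (s : K) (v : W R n) :
    XX z x' n s (fun c => T (v c)) = fun c => T (XX z x n s v c) := by
  induction n generalizing s with
  | zero =>
    funext c
    simp [XX]
  | succ n ih =>
    funext c
    have h1 : ∀ (b : Fin n), tr n c.1 (XX z x' n (z (c.1 b - 1)) (sl (c.1 - ep b) (fun c => T (v c)))) c.2 =
        T (tr n c.1 (XX z x n (z (c.1 b - 1)) (sl (c.1 - ep b) v)) c.2) := by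
      intro b
      have h2 : XX z x' n (z (c.1 b - 1)) (sl (c.1 - ep b) (fun c => T (v c))) =
          fun c' => T (XX z x n (z (c.1 b - 1)) (sl (c.1 - ep b) v) c') :=
        ih (z (c.1 b - 1)) (sl (c.1 - ep b) v)
      rw [h2, c16_tr]
    show x' n * (pp z c.1 s • T (v c)) +
        ∑ b, LL z b s (c.1 - ep b) • tr n c.1 (XX z x' n (z (c.1 b - 1)) (sl (c.1 - ep b) (fun c => T (v c)))) c.2 =
      T (x n * (pp z c.1 s • v c) +
        ∑ b, LL z b s (c.1 - ep b) • tr n c.1 (XX z x n (z (c.1 b - 1)) (sl (c.1 - ep b) v)) c.2)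
    rw [map_add, hT, map_smul, map_sum]
    congr 1
    refine Finset.sum_congr rfl fun b _ => ?_
    rw [h1 b, map_smul]

theorem c16_QQ (hT : ∀ l r, T (x l * r) = x' l * T r) (n : ℕ) (a : ℤ) (m : ℕ) (v : W R n) :
    QQ z x' n a m (fun c => T (v c)) = fun c => T (QQ z x n a m v c) := by
  induction m with
  | zero => rfl
  | succ m ih =>
    show XX z x' n (z (a + m)) (QQ z x' n a m (fun c => T (v c))) = fun c => T (XX z x n (z (a + m)) (QQ z x n a m v) c)
    rw [ih, c16_XX z x x' T hT]

theorem c16_bd (hT : ∀ l r, T (x l * r) = x' l * T r) {N : ℕ} (D : Fin (N + 1) → ℤ) (i : Fin N) (v : W R N) :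
    bd z x' D i (fun c => T (v c)) = fun c => T (bd z x D i v c) := by
  show tr N (dl D i.castSucc) (QQ z x' N (D i.castSucc) (D i.succ - D i.castSucc).toNat (fun c => T (v c))) =
    fun c => T (tr N (dl D i.castSucc) (QQ z x N (D i.castSucc) (D i.succ - D i.castSucc).toNat v) c)
  rw [c16_QQ z x x' T hT, c16_tr]

end H92C
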