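import Pool.Agent.Lib.H92C.C01

/-!
# H92C, chunk C17 (M, 12 small lemmas): the coefficients of the x-monomials (cfc) and the embedding em
-/

set_option autoImplicit false

open MvPolynomial

namespace H92C

variable {K : Type} [Field K] {ν N : ℕ}

theorem c17_coeff (s : Fin ν →₀ ℕ) (P : MvPolynomial (Fin N) (MvPolynomial (Fin ν) K)) (μ : Fin N →₀ ℕ) :
    coeff μ (cfc s P) = coeff s (coeff μ P) := by
  classical
  unfold cfc
  rw [coeff_sum]
  simp only [coeff_monomial]
  rw [Finset.sum_ite_eq']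
  split_ifs with h
  · rfl
  · rw [notMem_support_iff.mp h, coeff_zero]

/-- cfc s is linear over K. -/
noncomputable def cfL (s : Fin ν →₀ ℕ) : MvPolynomial (Fin N) (MvPolynomial (Fin ν) K) →ₗ[K] MvPolynomial (Fin N) K where
  toFun := cfc s
  map_add' P P' := by
    ext μ
    simp [c17_coeff]
  map_smul' c P := by
    ext μ
    rw [c17_coeff]
    simp [c17_coeff, coeff_smul]

/-- em is linear over K. -/
noncomputable def emL (ν : ℕ) {N : ℕ} : MvPolynomial (Fin N) K →ₗ[K] MvPolynomial (Fin N) (MvPolynomial (Fin ν) K) where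
  toFun := em ν
  map_add' P P' := map_add _ _ _
  map_smul' c P := by
    ext μ
    simp [em, coeff_map, coeff_smul, smul_eq_C_mul]

/-- Coefficients of the product with an embedded polynomial. -/
theorem c17_coeff2 (s : Fin ν →₀ ℕ) (P : MvPolynomial (Fin N) (MvPolynomial (Fin ν) K)) (g : MvPolynomial (Fin N) K) (μ : Fin N →₀ ℕ) :
    coeff s (coeff μ (P * em ν g)) = ∑ x ∈ Finset.HasAntidiagonal.antidiagonal μ, coeff s (coeff x.1 P) * coeff x.2 g := by
  rw [coeff_mul, coeff_sum]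
  refine Finset.sum_congr rfl fun x _ => ?_
  rw [em, coeff_map, mul_comm, coeff_C_mul, mul_comm]

/-- PROOF: coefficients (coeff_mul), or g a monomial. -/
theorem c17_mul_em (s : Fin ν →₀ ℕ) (P : MvPolynomial (Fin N) (MvPolynomial (Fin ν) K)) (g : MvPolynomial (Fin N) K) :
    cfc s (P * em ν g) = cfc s P * g := by
  ext μ
  rw [c17_coeff, c17_coeff2, coeff_mul]
  refine Finset.sum_congr rfl fun x _ => ?_
  rw [c17_coeff]

theorem c17_em_xs0 (l : ℕ) : em ν (xs N K l) = xs N (MvPolynomial (Fin ν) K) l := by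
  unfold xs em
  split_ifs with h
  · rw [map_X]
  · rw [map_zero]

/-- Multiplication by the variables of xs. -/
theorem c17_xs (s : Fin ν →₀ ℕ) (l : ℕ) (P : MvPolynomial (Fin N) (MvPolynomial (Fin ν) K)) :
    cfL s (xs N (MvPolynomial (Fin ν) K) l * P) = xs N K l * cfL s P := by
  show cfc s (xs N (MvPolynomial (Fin ν) K) l * P) = xs N K l * cfc s P
  rw [← c17_em_xs0, mul_comm, c17_mul_em, mul_comm]

theorem c17_em_xs (l : ℕ) (g : MvPolynomial (Fin N) K) :
    emL ν (xs N K l * g) = xs N (MvPolynomial (Fin ν) K) l * emL ν g := by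
  show em ν (xs N K l * g) = xs N (MvPolynomial (Fin ν) K) l * em ν g
  rw [map_mul, c17_em_xs0]

theorem c17_smul_em (s : Fin ν →₀ ℕ) (c : MvPolynomial (Fin ν) K) (g : MvPolynomial (Fin N) K) :
    cfc s (c • em ν g) = coeff s c • g := by
  ext μ
  rw [c17_coeff, coeff_smul, coeff_smul, em, coeff_map, smul_eq_mul, mul_comm, coeff_C_mul, smul_eq_mul, mul_comm]

theorem c17_ext (P : MvPolynomial (Fin N) (MvPolynomial (Fin ν) K)) (h : ∀ s, cfc s P = 0) : P = 0 := by
  ext μ s
  rw [← c17_coeff, h, coeff_zero, coeff_zero, coeff_zero]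

/-- PROOF: T0 := the union of the supports of the coefficients of P; compare the coefficients (coeff μ, then coeff s). -/
theorem c17_sum (P : MvPolynomial (Fin N) (MvPolynomial (Fin ν) K)) : ∃ T0 : Finset (Fin ν →₀ ℕ), ∀ T : Finset (Fin ν →₀ ℕ), T0 ⊆ T →
    P = ∑ s ∈ T, (monomial s 1 : MvPolynomial (Fin ν) K) • em ν (cfc s P) := by
  classical
  refine ⟨P.support.biUnion fun μ => (coeff μ P).support, fun T hT => ?_⟩
  ext μ s
  rw [coeff_sum, coeff_sum]
  have h1 : ∀ s' : Fin ν →₀ ℕ, coeff s (coeff μ ((monomial s' 1 : MvPolynomial (Fin ν) K) • em ν (cfc s' P)))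
      = if s = s' then coeff s (coeff μ P) else 0 := by
    intro s'
    rw [coeff_smul, em, coeff_map, c17_coeff, smul_eq_mul, mul_comm, coeff_C_mul, coeff_monomial]
    by_cases h : s = s'
    · subst h
      simp
    · rw [if_neg h, if_neg (Ne.symm h), mul_zero]
  simp only [h1]
  rw [Finset.sum_ite_eq]
  split_ifs with h
  · rfl
  · by_contra hne
    apply h
    apply hT
    rw [Finset.mem_biUnion]
    refine ⟨μ, ?_, mem_support_iff.2 hne⟩
    rw [mem_support_iff]
    intro h0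
    rw [h0, coeff_zero] at hne
    exact hne rfl

theorem c17_hm (s : Fin ν →₀ ℕ) {δ : ℤ} {P : MvPolynomial (Fin N) (MvPolynomial (Fin ν) K)}
    (h : P ∈ hm N (MvPolynomial (Fin ν) K) δ) : cfc s P ∈ hm N K δ := by
  rw [c01_coeff] at h ⊢
  intro μ hμ
  rw [c17_coeff] at hμ
  refine h μ fun h0 => hμ ?_
  rw [h0, coeff_zero]

theorem c17_em_hm {δ : ℤ} {g : MvPolynomial (Fin N) K} (h : g ∈ hm N K δ) : em ν g ∈ hm N (MvPolynomial (Fin ν) K) δ := by
  rw [c01_coeff] at h ⊢
  intro μ hμ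
  refine h μ fun h0 => hμ ?_
  rw [em, coeff_map, h0, map_zero]

/-- PROOF: the coefficients of P are homogeneous of degree δ (c01_coeff). -/
theorem c17_xh {s : Fin ν →₀ ℕ} {δ : ℤ} {P : MvPolynomial (Fin N) (MvPolynomial (Fin ν) K)} (h : xh δ P) (hs : ∑ i, (s i : ℤ) ≠ δ) :
    cfc s P = 0 := by
  ext μ
  rw [c17_coeff, coeff_zero]
  by_contra hne
  exact hs (c01_coeff.1 (h μ) s hne)

end H92C
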