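import Pool.Agent.Lib.H92C.C14
import Pool.Agent.Lib.H92C.C16
import Pool.Agent.Lib.H92C.C17

/-!
# H92C, chunk C18 (M, 5 lemmas): the cycles over K[x] are free over K[x] with a basis of cycles over K
-/

set_option autoImplicit false

open MvPolynomial

namespace H92C

variable {K : Type} [Field K] (z : ℤ → K) {ν N : ℕ} (D2 : Fin (N + 1) → ℤ) (i : Fin N) (t : ℤ)

/-- PROOF: c17_hm; c16_bd with T = cfL s (c17_xs); cfc s 0 = 0. -/
theorem c18_cf (s : Fin ν →₀ ℕ) (v : W (MvPolynomial (Fin N) (MvPolynomial (Fin ν) K)) N) (hv : v ∈ Zm z (MvPolynomial (Fin ν) K) D2 i t) :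
    (fun c => cfc s (v c)) ∈ Zm z K D2 i t := by
  obtain ⟨⟨hU, hH⟩, hker⟩ := hv
  refine ⟨⟨fun c hc => ?_, fun c => c17_hm s (hH c)⟩, ?_⟩
  · show cfL s (v c) = 0
    rw [hU c hc, map_zero]
  · refine LinearMap.mem_ker.2 ?_
    have h0 : bd z (xs N (MvPolynomial (Fin ν) K)) D2 i v = 0 := LinearMap.mem_ker.1 hker
    have h1 := c16_bd z (xs N (MvPolynomial (Fin ν) K)) (xs N K) (cfL s) (c17_xs s) D2 i v
    show bd z (xs N K) D2 i (fun c => cfL s (v c)) = 0
    rw [h1, h0]
    funext c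
    exact map_zero _

/-- PROOF: c17_em_hm; c16_bd with T = emL ν (c17_em_xs). -/
theorem c18_em (g : W (MvPolynomial (Fin N) K) N) (hg : g ∈ Zm z K D2 i t) :
    (fun c => em ν (g c)) ∈ Zm z (MvPolynomial (Fin ν) K) D2 i t := by
  obtain ⟨⟨hU, hH⟩, hker⟩ := hg
  refine ⟨⟨fun c hc => ?_, fun c => c17_em_hm (hH c)⟩, ?_⟩
  · show em ν (g c) = 0
    rw [hU c hc, map_zero]
  · refine LinearMap.mem_ker.2 ?_
    have h0 : bd z (xs N K) D2 i g = 0 := LinearMap.mem_ker.1 hker
    have h1 := c16_bd z (xs N K) (xs N (MvPolynomial (Fin ν) K)) (emL ν) c17_em_xs D2 i g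
    show bd z (xs N (MvPolynomial (Fin ν) K)) D2 i (fun c => emL ν (g c)) = 0
    rw [h1, h0]
    funext c
    exact map_zero _

theorem c18_em_smul (a : K) (g : MvPolynomial (Fin N) K) : em ν (a • g) = (C a : MvPolynomial (Fin ν) K) • em ν g := by
  ext μ
  rw [em, coeff_map, coeff_smul, coeff_smul, coeff_map, smul_eq_mul, smul_eq_mul, map_mul]

/-- PROOF: v is supported on the finitely many patterns under dl D2 i.succ (c14_fin), so there is a finite set T of exponents with v c = ∑ over s ∈ T of x^s • em (cfc s (v c)) for all c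
(c17_sum; T = the union of the T0 of the patterns; for the other c both sides are 0).  The vectors cfc s ∘ v are in Zm over K (c18_cf): cfc s ∘ v = ∑_k a_(s,k) b_k (coordinates).
So v = ∑_k (∑_s monomial s a_(s,k)) • em ∘ b_k. -/
theorem c18_span {h : ℕ} (b : Module.Basis (Fin h) K (Zm z K D2 i t)) (v : W (MvPolynomial (Fin N) (MvPolynomial (Fin ν) K)) N)
    (hv : v ∈ Zm z (MvPolynomial (Fin ν) K) D2 i t) :
    ∃ c : Fin h → MvPolynomial (Fin ν) K, v = ∑ k, c k • (fun x => em ν ((b k : W (MvPolynomial (Fin N) K) N) x)) := by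
  classical
  have hfin := c14_fin N (dl D2 i.succ)
  have : Fintype {c : Ch N // gd N (dl D2 i.succ) c} := Fintype.ofFinite _
  choose T0 hT0 using fun c : Ch N => c17_sum (v c)
  set T : Finset (Fin ν →₀ ℕ) := Finset.univ.biUnion fun c : {c : Ch N // gd N (dl D2 i.succ) c} => T0 c.1 with hT
  have hvc : ∀ c, v c = ∑ s ∈ T, (monomial s 1 : MvPolynomial (Fin ν) K) • em ν (cfc s (v c)) := by
    intro c
    by_cases hc : gd N (dl D2 i.succ) c
    · refine hT0 c T ?_
      rw [hT]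
      exact Finset.subset_biUnion_of_mem (fun c : {c : Ch N // gd N (dl D2 i.succ) c} => T0 c.1) (Finset.mem_univ (⟨c, hc⟩ : {c : Ch N // gd N (dl D2 i.succ) c}))
    · have h0 : v c = 0 := hv.1.1 c hc
      rw [h0]
      symm
      refine Finset.sum_eq_zero fun s _ => ?_
      have h1 : cfc s (0 : MvPolynomial (Fin N) (MvPolynomial (Fin ν) K)) = 0 := map_zero (cfL s)
      rw [h1, map_zero, smul_zero]
  set a : (Fin ν →₀ ℕ) → Fin h → K := fun s k => b.repr ⟨_, c18_cf z D2 i t s v hv⟩ k with ha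
  have hrep : ∀ s x, cfc s (v x) = ∑ k, a s k • ((b k : W (MvPolynomial (Fin N) K) N) x) := by
    intro s x
    have h1 := b.sum_repr ⟨_, c18_cf z D2 i t s v hv⟩
    have h2 := congrFun (congrArg (fun y : Zm z K D2 i t => (y : W (MvPolynomial (Fin N) K) N)) h1) x
    simp only [Submodule.coe_sum, Submodule.coe_smul, Finset.sum_apply, Pi.smul_apply] at h2
    exact h2.symm
  refine ⟨fun k => ∑ s ∈ T, monomial s (a s k), ?_⟩
  funext x
  rw [hvc x, Finset.sum_apply]
  simp only [Pi.smul_apply, hrep, map_sum, c18_em_smul, Finset.smul_sum, Finset.sum_smul, smul_smul]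
  rw [Finset.sum_comm]
  refine Finset.sum_congr rfl fun k _ => Finset.sum_congr rfl fun s _ => ?_
  rw [mul_comm (monomial s 1 : MvPolynomial (Fin ν) K), C_mul_monomial, mul_one]

theorem c18_coef {h : ℕ} (b : Module.Basis (Fin h) K (Zm z K D2 i t)) (c : Fin h → MvPolynomial (Fin ν) K) (s : Fin ν →₀ ℕ)
    (h0 : ∀ x, cfc s (∑ k, c k • em ν ((b k : W (MvPolynomial (Fin N) K) N) x)) = 0) (k : Fin h) : coeff s (c k) = 0 := by
  have h1 : ∑ k, coeff s (c k) • b k = 0 := by
    apply Subtype.ext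
    funext x
    rw [Submodule.coe_sum, Finset.sum_apply]
    have h2 := h0 x
    have h3 : cfL s (∑ k, c k • em ν ((b k : W (MvPolynomial (Fin N) K) N) x)) = 0 := h2
    rw [map_sum] at h3
    simp only [Submodule.coe_smul, Pi.smul_apply]
    rw [Submodule.coe_zero, Pi.zero_apply, ← h3]
    refine Finset.sum_congr rfl fun k _ => ?_
    exact (c17_smul_em s (c k) _).symm
  exact (Fintype.linearIndependent_iff.1 b.linearIndependent) _ h1 k

/-- PROOF: apply cfc s (c17_smul_em): ∑_k coeff s (c k) b_k = 0. -/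
theorem c18_indep {h : ℕ} (b : Module.Basis (Fin h) K (Zm z K D2 i t)) (c : Fin h → MvPolynomial (Fin ν) K)
    (h0 : ∑ k, c k • (fun x => em ν ((b k : W (MvPolynomial (Fin N) K) N) x)) = 0) : c = 0 := by
  funext k
  ext s
  rw [Pi.zero_apply, coeff_zero]
  refine c18_coef z D2 i t b c s (fun x => ?_) k
  have h1 := congrFun h0 x
  rw [Finset.sum_apply] at h1
  simp only [Pi.smul_apply, Pi.zero_apply] at h1
  rw [h1]
  exact map_zero (cfL s)

/-- PROOF: if the degree of s is not δ apply cfc s: cfc s P = 0 (c17_xh, c17_mul_em), so ∑_k coeff s (c k) b_k = 0 and coeff s (c k) = 0; c01_coeff. -/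
theorem c18_homog {h : ℕ} (b : Module.Basis (Fin h) K (Zm z K D2 i t)) (δ : ℤ) (P : MvPolynomial (Fin N) (MvPolynomial (Fin ν) K))
    (hP : xh δ P) (g : W (MvPolynomial (Fin N) K) N) (c : Fin h → MvPolynomial (Fin ν) K)
    (hc : P • (fun x => em ν (g x)) = ∑ k, c k • (fun x => em ν ((b k : W (MvPolynomial (Fin N) K) N) x))) (k : Fin h) :
    c k ∈ hm ν K δ := by
  rw [c01_coeff]
  intro s hs
  by_contra hne
  refine hs (c18_coef z D2 i t b c s (fun x => ?_) k)
  have h1 := congrFun hc x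
  rw [Finset.sum_apply] at h1
  simp only [Pi.smul_apply] at h1
  rw [← h1, smul_eq_mul, c17_mul_em, c17_xh hP hne, zero_mul]

end H92C
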