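import Pool.Agent.Lib.H92C.CD

/-!
# H92C, chunk C19 (M, 3 lemmas): matrices and homotopies (pure linear algebra over a commutative ring)
-/

set_option autoImplicit false

open MvPolynomial

namespace H92C

/-- Transport of a complex to free modules.  PROOF: f' i on the basis vectors by hst (choice), extended linearly ((Pi.basisFun B _).constr B); both sides of
Φ i (f' i c) = dd i (Φ (i+1) c) are linear in c.  f' f' = 0 and Ex by the injectivity of Φ. -/
theorem c19_mat {B : Type} [CommRing B] {A : ℕ → Type} [∀ i, AddCommGroup (A i)] [∀ i, Module B (A i)] (dd : ∀ i, A (i + 1) →ₗ[B] A i)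
    (γ : ℕ → ℕ) (Φ : ∀ i, (Fin (γ i) → B) →ₗ[B] A i) (hinj : ∀ i, Function.Injective (Φ i))
    (hdd : ∀ i c, dd i (dd (i + 1) (Φ (i + 2) c)) = 0) (hst : ∀ i c, dd i (Φ (i + 1) c) ∈ LinearMap.range (Φ i)) :
    ∃ f' : ∀ i, (Fin (γ (i + 1)) → B) →ₗ[B] (Fin (γ i) → B), (∀ i c, Φ i (f' i c) = dd i (Φ (i + 1) c)) ∧
      (∀ i, f' i ∘ₗ f' (i + 1) = 0) ∧
      ∀ θ : B, (∀ i, Ex dd θ (fun i => LinearMap.range (Φ i)) (fun _ => ⊥) i) → ∀ i, Ex (A := fun i => Fin (γ i) → B) f' θ (fun _ => ⊤) (fun _ => ⊥) i := by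
  have hf : ∀ i c, Φ i (((LinearEquiv.ofInjective (Φ i) (hinj i)).symm.toLinearMap ∘ₗ
      (dd i ∘ₗ Φ (i + 1)).codRestrict (LinearMap.range (Φ i)) (hst i)) c) = dd i (Φ (i + 1) c) := by
    intro i c
    have h1 := (LinearEquiv.ofInjective (Φ i) (hinj i)).apply_symm_apply
      ((dd i ∘ₗ Φ (i + 1)).codRestrict (LinearMap.range (Φ i)) (hst i) c)
    exact congrArg Subtype.val h1
  refine ⟨fun i => (LinearEquiv.ofInjective (Φ i) (hinj i)).symm.toLinearMap ∘ₗ
      (dd i ∘ₗ Φ (i + 1)).codRestrict (LinearMap.range (Φ i)) (hst i), hf, fun i => ?_, fun θ h i v _ hv => ?_⟩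
  · refine LinearMap.ext fun c => hinj i ?_
    rw [LinearMap.comp_apply, hf, hf, hdd, LinearMap.zero_apply, map_zero]
  · have h1 : Cy dd (fun _ => ⊥) i (Φ i v) := by
      cases i with
      | zero => trivial
      | succ j =>
        have h2 := hf j v
        have h3 : ((LinearEquiv.ofInjective (Φ j) (hinj j)).symm.toLinearMap ∘ₗ
          (dd j ∘ₗ Φ (j + 1)).codRestrict (LinearMap.range (Φ j)) (hst j)) v = 0 := hv
        rw [h3, map_zero] at h2
        exact (Submodule.mem_bot B).2 h2.symm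
    obtain ⟨e, w, ⟨u, rfl⟩, hw⟩ := h i (Φ i v) ⟨v, rfl⟩ h1
    refine ⟨e, u, trivial, (Submodule.mem_bot B).2 (hinj i ?_)⟩
    rw [map_sub, map_smul, hf, map_zero]
    exact (Submodule.mem_bot B).1 hw

/-- A common exponent for a linear family of cycles. -/
theorem c19_fam {B : Type} [CommRing B] (γ : ℕ → ℕ) (f : ∀ i, (Fin (γ (i + 1)) → B) →ₗ[B] (Fin (γ i) → B)) (x : B) (i : ℕ)
    (h : Ex (A := fun i => Fin (γ i) → B) f x (fun _ => ⊤) (fun _ => ⊥) i) {m : ℕ} (T : (Fin m → B) →ₗ[B] (Fin (γ i) → B))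
    (hT : ∀ u, Cy (A := fun i => Fin (γ i) → B) f (fun _ => ⊥) i (T u)) :
    ∃ (e : ℕ) (L : (Fin m → B) →ₗ[B] (Fin (γ (i + 1)) → B)), ∀ u, f i (L u) = x ^ e • T u := by
  classical
  choose e w _ hw using fun b : Fin m => h (T (Pi.single b 1)) trivial (hT _)
  have hw' : ∀ b, f i (w b) = x ^ e b • T (Pi.single b 1) := fun b =>
    (sub_eq_zero.1 ((Submodule.mem_bot B).1 (hw b))).symm
  refine ⟨∑ b, e b, (Pi.basisFun B (Fin m)).constr B (fun b => x ^ (∑ b' ∈ Finset.univ.erase b, e b') • w b), fun u => ?_⟩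
  have h1 : f i ∘ₗ ((Pi.basisFun B (Fin m)).constr B (fun b => x ^ (∑ b' ∈ Finset.univ.erase b, e b') • w b)) =
      x ^ (∑ b, e b) • T := by
    refine (Pi.basisFun B (Fin m)).ext fun b => ?_
    rw [LinearMap.comp_apply, Module.Basis.constr_basis, map_smul, hw', LinearMap.smul_apply, smul_smul, ← pow_add,
      Finset.sum_erase_add _ _ (Finset.mem_univ b), Pi.basisFun_apply]
  exact LinearMap.congr_fun h1 u

/-- Homotopies in the positions < I.  PROOF: induction on I.  I = 0: h = 0, E = 0 (the second statement is empty; the first one by Ex in position 0 for the basis vectors, common exponent).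
Step from I to I + 1: for a basis vector v of position I + 1 the vector u = x^E v - h_I (f_I v) is a cycle: f_I u = x^E f_I v - (f_I h_I) (f_I v) = 0 (f_I h_I y = x^E y - h_(I-1) f_(I-1) y, f f = 0).
So x^E' u = f_(I+1) w_v; E' common to all the basis vectors; new h_j := x^E' h_j for j ≤ I, h_(I+1) v := w_v, exponent E + E'. -/
theorem c19_step {B : Type} [CommRing B] (γ : ℕ → ℕ) (f : ∀ i, (Fin (γ (i + 1)) → B) →ₗ[B] (Fin (γ i) → B))
    (hff : ∀ i, f i ∘ₗ f (i + 1) = 0) (x : B) (h : ∀ i, Ex (A := fun i => Fin (γ i) → B) f x (fun _ => ⊤) (fun _ => ⊥) i) (I : ℕ) :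
    ∃ (e : ℕ) (g : ∀ i, (Fin (γ i) → B) →ₗ[B] (Fin (γ (i + 1)) → B)),
      (∀ v, f 0 (g 0 v) = x ^ e • v) ∧ ∀ i < I, ∀ v, f (i + 1) (g (i + 1) v) + g i (f i v) = x ^ e • v := by
  induction I with
  | zero =>
    obtain ⟨e, L, hL⟩ := c19_fam γ f x 0 (h 0) LinearMap.id (fun u => trivial)
    refine ⟨e, fun i => match i with
      | 0 => L
      | i + 1 => 0, hL, fun i hi => absurd hi (Nat.not_lt_zero i)⟩
  | succ I ih =>
    obtain ⟨e, g, hg0, hg⟩ := ih
    let T : (Fin (γ (I + 1)) → B) →ₗ[B] (Fin (γ (I + 1)) → B) := x ^ e • LinearMap.id - g I ∘ₗ f I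
    have hcyc : ∀ v, f I (T v) = 0 := by
      intro v
      show f I ((x ^ e • LinearMap.id - g I ∘ₗ f I : (Fin (γ (I + 1)) → B) →ₗ[B] (Fin (γ (I + 1)) → B)) v) = 0
      rw [LinearMap.sub_apply, LinearMap.smul_apply, LinearMap.id_apply, LinearMap.comp_apply, map_sub, map_smul, sub_eq_zero]
      cases I with
      | zero => exact (hg0 _).symm
      | succ J =>
        have h1 := hg J (Nat.lt_succ_self J) (f (J + 1) v)
        have h2 : f J (f (J + 1) v) = 0 := LinearMap.congr_fun (hff J) v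
        rw [h2, map_zero, add_zero] at h1
        exact h1.symm
    obtain ⟨e', L, hL⟩ := c19_fam γ f x (I + 1) (h (I + 1)) T
      (fun u => (Submodule.mem_bot B).2 (hcyc u))
    refine ⟨e' + e, Function.update (fun i => x ^ e' • g i) (I + 1) L, fun v => ?_, fun i hi v => ?_⟩
    · rw [Function.update_of_ne (by omega), LinearMap.smul_apply, map_smul, hg0, smul_smul, pow_add]
    · have h3 : Function.update (fun i => x ^ e' • g i) (I + 1) L i = x ^ e' • g i :=
        Function.update_of_ne (by omega) _ _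
      rw [h3]
      rcases Nat.lt_succ_iff_lt_or_eq.1 hi with h4 | h4
      · have h5 : Function.update (fun i => x ^ e' • g i) (I + 1) L (i + 1) = x ^ e' • g (i + 1) :=
          Function.update_of_ne (by omega) _ _
        rw [h5, LinearMap.smul_apply, LinearMap.smul_apply, map_smul, ← smul_add, hg i h4, smul_smul, pow_add]
      · subst h4
        rw [Function.update_self, hL]
        show x ^ e' • ((x ^ e • LinearMap.id - g i ∘ₗ f i : (Fin (γ (i + 1)) → B) →ₗ[B] (Fin (γ (i + 1)) → B)) v) + (x ^ e' • g i) (f i v) = x ^ (e' + e) • v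
        rw [LinearMap.sub_apply, LinearMap.smul_apply, LinearMap.smul_apply, LinearMap.id_apply,
          LinearMap.comp_apply, ← smul_add, sub_add_cancel, smul_smul, pow_add]

/-- PROOF: c19_step for each x p with I = ν (in the positions > ν the modules are 0: Fin 0), then the exponent e := the sum of the exponents (multiply the homotopies by powers). -/
theorem c19 {B : Type} [CommRing B] (γ : ℕ → ℕ) (ν : ℕ) (hγ : ∀ i, ν < i → γ i = 0)
    (f : ∀ i, (Fin (γ (i + 1)) → B) →ₗ[B] (Fin (γ i) → B)) (hff : ∀ i, f i ∘ₗ f (i + 1) = 0) {n : ℕ} (x : Fin n → B)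
    (h : ∀ p i, Ex (A := fun i => Fin (γ i) → B) f (x p) (fun _ => ⊤) (fun _ => ⊥) i) :
    ∃ e : ℕ, ∀ p : Fin n, ∃ g : ∀ i, (Fin (γ i) → B) →ₗ[B] (Fin (γ (i + 1)) → B),
      (∀ v, f 0 (g 0 v) = x p ^ e • v) ∧ ∀ i v, f (i + 1) (g (i + 1) v) + g i (f i v) = x p ^ e • v := by
  classical
  choose e g hg0 hg using fun p : Fin n => c19_step γ f hff (x p) (h p) ν
  refine ⟨∑ p, e p, fun p => ⟨fun i => x p ^ (∑ p' ∈ Finset.univ.erase p, e p') • g p i, fun v => ?_, fun i v => ?_⟩⟩
  · rw [LinearMap.smul_apply, map_smul, hg0, smul_smul, ← pow_add, Finset.sum_erase_add _ _ (Finset.mem_univ p)]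
  · rcases Nat.lt_or_ge i ν with hi | hi
    · rw [LinearMap.smul_apply, LinearMap.smul_apply, map_smul, ← smul_add, hg p i hi, smul_smul, ← pow_add,
        Finset.sum_erase_add _ _ (Finset.mem_univ p)]
    · funext b
      have hb : (b : ℕ) < γ (i + 1) := b.2
      have h0 := hγ (i + 1) (by omega)
      omega

end H92C
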