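import Pool.Agent.Lib.H92C.C04
import Pool.Agent.Lib.H92C.C10
import Pool.Agent.Lib.H92C.C15
import Pool.Agent.Lib.H92C.C18
import Pool.Agent.Lib.H92C.C19

/-!
# H92C, chunk C20 (M, 5 lemmas): the complex with coefficients in a syzygy module as a complex of free modules over K[x]
-/

set_option autoImplicit false

open MvPolynomial

namespace H92C

variable {K : Type} [Field K] (z : ℤ → K) {M ν N : ℕ} (β : ℕ → ℕ) (D : ℕ → ℤ) (D2 : Fin (N + 1) → ℤ) (i0 : Fin N) (a : ℤ)

/-- The coordinates: c ↦ (b ↦ ∑_k c (b,k) • b_k). -/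
noncomputable def c20_Phi (h : ℕ → ℕ) (b : ∀ i, Module.Basis (Fin (h i)) K (Zm z K D2 i0 (a - D i))) (i : ℕ) :
    (Fin (β i * h i) → MvPolynomial (Fin ν) K) →ₗ[MvPolynomial (Fin ν) K] (Fin (β i) → W (MvPolynomial (Fin N) (MvPolynomial (Fin ν) K)) N) where
  toFun c := fun x => ∑ k, c (finProdFinEquiv (x, k)) • (fun y => em ν ((b i k : W (MvPolynomial (Fin N) K) N) y))
  map_add' c c' := by funext x; simp [add_smul, Finset.sum_add_distrib]
  map_smul' r c := by funext x; simp [Finset.smul_sum, mul_smul]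

/-- PROOF: c18_indep. -/
theorem c20_inj (h : ℕ → ℕ) (b : ∀ i, Module.Basis (Fin (h i)) K (Zm z K D2 i0 (a - D i))) (i : ℕ) :
    Function.Injective (c20_Phi (ν := ν) z β D D2 i0 a h b i) := by
  intro c c' hc
  have h0 : c20_Phi (ν := ν) z β D D2 i0 a h b i (c - c') = 0 := by
    rw [map_sub, hc, sub_self]
  have h1 : c - c' = 0 := by
    funext j
    obtain ⟨⟨x, k⟩, rfl⟩ := finProdFinEquiv.surjective j
    have h2 : ∑ k, (c - c') (finProdFinEquiv (x, k)) • (fun y => em ν ((b i k : W (MvPolynomial (Fin N) K) N) y)) = 0 :=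
      congrFun h0 x
    exact congrFun (c18_indep z D2 i0 (a - D i) (b i) (fun k => (c - c') (finProdFinEquiv (x, k))) h2) k
  exact sub_eq_zero.1 h1

/-- PROOF: c18_em, c18_span. -/
theorem c20_range (h : ℕ → ℕ) (b : ∀ i, Module.Basis (Fin (h i)) K (Zm z K D2 i0 (a - D i))) (i : ℕ) :
    LinearMap.range (c20_Phi (ν := ν) z β D D2 i0 a h b i) = pS β (fun i => Zm z (MvPolynomial (Fin ν) K) D2 i0 (a - D i)) i := by
  ext v
  constructor
  · rintro ⟨c, rfl⟩ x
    show (∑ k, c (finProdFinEquiv (x, k)) • (fun y => em ν ((b i k : W (MvPolynomial (Fin N) K) N) y))) ∈ _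
    exact Submodule.sum_mem _ fun k _ => Submodule.smul_mem _ _ (c18_em z D2 i0 (a - D i) _ (b i k).2)
  · intro hv
    choose c hc using fun x => c18_span z D2 i0 (a - D i) (b i) (v x) (hv x)
    refine ⟨fun j => c (finProdFinEquiv.symm j).1 (finProdFinEquiv.symm j).2, ?_⟩
    funext x
    show (∑ k, c (finProdFinEquiv.symm (finProdFinEquiv (x, k))).1 (finProdFinEquiv.symm (finProdFinEquiv (x, k))).2 •
      (fun y => em ν ((b i k : W (MvPolynomial (Fin N) K) N) y))) = v x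
    rw [hc x]
    refine Finset.sum_congr rfl fun k _ => ?_
    rw [Equiv.symm_apply_apply]

/-- The vectors with entries in Zm are stable under the boundary.  PROOF: c15_stab for p = i0.succ (c10_y), and bd z .. i0 commutes with db (c04_nat). -/
theorem c20_stab (f : (i : ℕ) → (Fin (β (i + 1)) → MvPolynomial (Fin M) K) →ₗ[MvPolynomial (Fin M) K] (Fin (β i) → MvPolynomial (Fin M) K))
    (hf : ∀ i b c, f i (Pi.single b 1) c ∈ hm M K (D (i + 1) - D i)) (i : ℕ)
    (v : Fin (β (i + 1)) → W (MvPolynomial (Fin N) (MvPolynomial (Fin ν) K)) N)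
    (hv : v ∈ pS β (fun i => Zm z (MvPolynomial (Fin ν) K) D2 i0 (a - D i)) (i + 1)) :
    db (B := MvPolynomial (Fin ν) K) (sgr K M ν N) β f i v ∈ pS β (fun i => Zm z (MvPolynomial (Fin ν) K) D2 i0 (a - D i)) i := by
  intro y
  refine ⟨?_, ?_⟩
  · exact c15_stab (B := MvPolynomial (Fin ν) K) (sgr K M ν N) β D f D2 (fun i b c => c10_y (hf i b c)) i0.succ a i v
      (fun x => (hv x).1) y
  · show bd z (xs N (MvPolynomial (Fin ν) K)) D2 i0 (am (sgr K M ν N) (f i) v y) = 0
    have h1 := congrFun (c04_nat (sgr K M ν N) (bd z (xs N (MvPolynomial (Fin ν) K)) D2 i0) (f i) v) y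
    rw [← h1]
    have h2 : (fun x => bd z (xs N (MvPolynomial (Fin ν) K)) D2 i0 (v x)) = 0 := by
      funext x
      exact (hv x).2
    rw [h2, map_zero]
    rfl

/-- PROOF: let (x, k) be the pair of the index j: Φ (Pi.single j 1) is em ∘ b_k at x, 0 elsewhere; the boundary at y is sgr (f_yx) • em ∘ b_k = ∑_k' (f' ..)(y, k') • em ∘ b_k'; c18_homog with
P = sgr (f i (Pi.single x 1) y) (c10_x). -/
theorem c20_homog (f : (i : ℕ) → (Fin (β (i + 1)) → MvPolynomial (Fin M) K) →ₗ[MvPolynomial (Fin M) K] (Fin (β i) → MvPolynomial (Fin M) K))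
    (hf : ∀ i b c, f i (Pi.single b 1) c ∈ hm M K (D (i + 1) - D i)) (h : ℕ → ℕ)
    (b : ∀ i, Module.Basis (Fin (h i)) K (Zm z K D2 i0 (a - D i))) (i : ℕ)
    (f' : (Fin (β (i + 1) * h (i + 1)) → MvPolynomial (Fin ν) K) →ₗ[MvPolynomial (Fin ν) K] (Fin (β i * h i) → MvPolynomial (Fin ν) K))
    (hf' : ∀ c, c20_Phi (ν := ν) z β D D2 i0 a h b i (f' c) =
      db (B := MvPolynomial (Fin ν) K) (sgr K M ν N) β f i (c20_Phi (ν := ν) z β D D2 i0 a h b (i + 1) c))
    (j : Fin (β (i + 1) * h (i + 1))) (j' : Fin (β i * h i)) : f' (Pi.single j 1) j' ∈ hm ν K (D (i + 1) - D i) := by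
  obtain ⟨⟨x, k⟩, rfl⟩ := finProdFinEquiv.surjective j
  obtain ⟨⟨y, k'⟩, rfl⟩ := finProdFinEquiv.surjective j'
  have h1 : ∀ x', c20_Phi (ν := ν) z β D D2 i0 a h b (i + 1) (Pi.single (finProdFinEquiv (x, k)) 1) x' =
      if x' = x then (fun y => em ν ((b (i + 1) k : W (MvPolynomial (Fin N) K) N) y)) else 0 := by
    intro x'
    show (∑ k₁, (Pi.single (finProdFinEquiv (x, k)) 1 : Fin (β (i + 1) * h (i + 1)) → MvPolynomial (Fin ν) K) (finProdFinEquiv (x', k₁)) •
      (fun y => em ν ((b (i + 1) k₁ : W (MvPolynomial (Fin N) K) N) y))) = _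
    split_ifs with hx
    · subst hx
      rw [Finset.sum_eq_single k]
      · rw [Pi.single_eq_same, one_smul]
      · intro k₁ _ hk
        rw [Pi.single_eq_of_ne, zero_smul]
        intro hcon
        exact hk (congrArg Prod.snd (finProdFinEquiv.injective hcon))
      · intro hcon
        exact absurd (Finset.mem_univ k) hcon
    · refine Finset.sum_eq_zero fun k₁ _ => ?_
      rw [Pi.single_eq_of_ne, zero_smul]
      intro hcon
      exact hx (congrArg Prod.fst (finProdFinEquiv.injective hcon))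
  have h2 := congrFun (hf' (Pi.single (finProdFinEquiv (x, k)) 1)) y
  have h3 : db (B := MvPolynomial (Fin ν) K) (sgr K M ν N) β f i (c20_Phi (ν := ν) z β D D2 i0 a h b (i + 1)
      (Pi.single (finProdFinEquiv (x, k)) 1)) y = sgr K M ν N (f i (Pi.single x 1) y) •
      (fun y => em ν ((b (i + 1) k : W (MvPolynomial (Fin N) K) N) y)) := by
    show (∑ x', sgr K M ν N (f i (Pi.single x' 1) y) • c20_Phi (ν := ν) z β D D2 i0 a h b (i + 1)
      (Pi.single (finProdFinEquiv (x, k)) 1) x') = _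
    rw [Finset.sum_eq_single x]
    · rw [h1, if_pos rfl]
    · intro x' _ hx
      rw [h1, if_neg hx, smul_zero]
    · intro hcon
      exact absurd (Finset.mem_univ x) hcon
  exact c18_homog z D2 i0 (a - D i) (b i) (D (i + 1) - D i) (sgr K M ν N (f i (Pi.single x 1) y)) (c10_x (hf i x y))
    (b (i + 1) k : W (MvPolynomial (Fin N) K) N) (fun k' => f' (Pi.single (finProdFinEquiv (x, k)) 1) (finProdFinEquiv (y, k')))
    (h3.symm.trans h2.symm) k'

/-- PROOF: c19_mat with dd = db sgr β f, Φ = c20_Phi (c20_inj, c20_range, c20_stab; c04_comp_apply), c20_homog + c01_toNat, c19 with n = ν, x = X. -/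
theorem c20 (f : (i : ℕ) → (Fin (β (i + 1)) → MvPolynomial (Fin M) K) →ₗ[MvPolynomial (Fin M) K] (Fin (β i) → MvPolynomial (Fin M) K))
    (hf : ∀ i b c, f i (Pi.single b 1) c ∈ hm M K (D (i + 1) - D i)) (hff : ∀ i, f i ∘ₗ f (i + 1) = 0) (h : ℕ → ℕ)
    (b : ∀ i, Module.Basis (Fin (h i)) K (Zm z K D2 i0 (a - D i))) (hh : ∀ i, ν < i → β i * h i = 0)
    (hE : ∀ (p : Fin ν) (i : ℕ), Ex (db (B := MvPolynomial (Fin ν) K) (M := W (MvPolynomial (Fin N) (MvPolynomial (Fin ν) K)) N)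
      (sgr K M ν N) β f) (X p) (pS β fun i => Zm z (MvPolynomial (Fin ν) K) D2 i0 (a - D i)) (fun _ => ⊥) i) :
    Cert K ν D (fun i => β i * h i) := by
  obtain ⟨f', hf'1, hf'2, hf'3⟩ := c19_mat (B := MvPolynomial (Fin ν) K)
    (A := fun i => Fin (β i) → W (MvPolynomial (Fin N) (MvPolynomial (Fin ν) K)) N)
    (db (B := MvPolynomial (Fin ν) K) (M := W (MvPolynomial (Fin N) (MvPolynomial (Fin ν) K)) N) (sgr K M ν N) β f)
    (fun i => β i * h i) (c20_Phi (ν := ν) z β D D2 i0 a h b) (c20_inj z β D D2 i0 a h b)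
    (fun i c => by
      show am (sgr K M ν N) (f i) (am (sgr K M ν N) (f (i + 1)) _) = 0
      rw [c04_comp_apply, hff i, c04_zero]
      rfl)
    (fun i c => by
      rw [c20_range]
      refine c20_stab z β D D2 i0 a f hf i _ ?_
      rw [← c20_range z β D D2 i0 a h b (i + 1)]
      exact LinearMap.mem_range_self _ c)
  have hEx : ∀ (p : Fin ν) (i : ℕ), Ex (A := fun i => Fin (β i * h i) → MvPolynomial (Fin ν) K) f' (X p) (fun _ => ⊤) (fun _ => ⊥) i := by
    intro p
    refine hf'3 (X p) fun i => ?_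
    have h1 : (fun i => LinearMap.range (c20_Phi (ν := ν) z β D D2 i0 a h b i)) =
        (pS β fun i => Zm z (MvPolynomial (Fin ν) K) D2 i0 (a - D i)) := by
      funext i
      exact c20_range z β D D2 i0 a h b i
    rw [h1]
    exact hE p i
  refine ⟨f', fun i j' j => c01_toNat (c20_homog z β D D2 i0 a f hf h b i (f' i) (hf'1 i) j j'), hf'2, ?_⟩
  exact c19 (fun i => β i * h i) ν hh f' hf'2 (fun p => (X p : MvPolynomial (Fin ν) K)) hEx

end H92C
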