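import Pool.Agent.Lib.H92C.C32
import Pool.Agent.Lib.H92C.ThmA

/-!
# H92C, chunk C33 (M, 5 lemmas): rank of the cycles as an alternating sum
-/

set_option autoImplicit false

open MvPolynomial

namespace H92C

/-- PROOF: Zm is contained in Gm K D i.succ t, c32_fin. -/
theorem c33_fin {K : Type} [Field K] (z : ℤ → K) {N : ℕ} (D : Fin (N + 1) → ℤ) (i : Fin N) (t : ℤ) :
    Module.Finite K (Zm z K D i t) := by
  haveI : Module.Finite K (Gm K D i.succ t) := c32_fin D i.succ t
  exact Submodule.finiteDimensional_inf_left _ _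


/-- PROOF: the map f := bd z (xs N K) D j, restricted to Gm K D j.succ t (as a K-linear map to W): its range is Zm z K D i t
(⊆: thmA_maps, thmA_hom, thmA_comp; note that j.castSucc = i.succ; ⊇: thmA_exact), its kernel is isomorphic to Zm z K D j t.
LinearMap.finrank_range_add_finrank_ker. -/
theorem c33_step {K : Type} [Field K] (z : ℤ → K) (hz : Function.Injective z) {N : ℕ} (D : Fin (N + 1) → ℤ) (hD : StrictMono D)
    (i j : Fin N) (hij : (j : ℕ) = i + 1) (t : ℤ) :
    Module.finrank K (Zm z K D i t) + Module.finrank K (Zm z K D j t) = Module.finrank K (Gm K D j.succ t) := by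
  haveI : Module.Finite K (Gm K D j.succ t) := c32_fin D j.succ t
  have hji : j.castSucc = i.succ := Fin.ext (by rw [Fin.val_castSucc, Fin.val_succ, hij])
  set f : W (MvPolynomial (Fin N) K) N →ₗ[K] W (MvPolynomial (Fin N) K) N := (bd z (xs N K) D j).restrictScalars K with hf
  have h1 : (Gm K D j.succ t).map f = Zm z K D i t := by
    ext v
    constructor
    · rintro ⟨w, hw, rfl⟩
      refine ⟨⟨?_, ?_⟩, ?_⟩
      · rw [← hji]
        exact thmA_maps z (xs N K) D hD j w hw.1
      · have h2 := thmA_hom (B := K) z D hD j t w hw.2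
        rw [hji] at h2
        exact h2
      · exact thmA_comp z hz (xs N K) D hD i j hij w hw.1
    · rintro ⟨hv, h0⟩
      obtain ⟨w, hw, hw2, hw3⟩ := thmA_exact (B := K) z hz D hD i j hij t v hv.1 hv.2 h0
      exact ⟨w, ⟨hw, hw2⟩, hw3⟩
  have h3 : Module.finrank K (LinearMap.range (f.domRestrict (Gm K D j.succ t))) = Module.finrank K (Zm z K D i t) := by
    rw [LinearMap.range_domRestrict, h1]
  have h4 : Module.finrank K (LinearMap.ker (f.domRestrict (Gm K D j.succ t))) = Module.finrank K (Zm z K D j t) := by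
    have h5 : (LinearMap.ker (f.domRestrict (Gm K D j.succ t))).map (Gm K D j.succ t).subtype = Zm z K D j t := by
      have h6 : LinearMap.ker (f.domRestrict (Gm K D j.succ t)) = (LinearMap.ker f).comap (Gm K D j.succ t).subtype := rfl
      rw [h6, Submodule.map_comap_subtype]
      rfl
    rw [← h5]
    exact (Submodule.equivMapOfInjective _ (Submodule.injective_subtype _) _).finrank_eq
  have h7 := LinearMap.finrank_range_add_finrank_ker (f.domRestrict (Gm K D j.succ t))
  rw [h3, h4] at h7
  exact h7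


/-- PROOF: Zm = ⊥ by thmA_inj. -/
theorem c33_last {K : Type} [Field K] (z : ℤ → K) (hz : Function.Injective z) {N : ℕ} (D : Fin (N + 1) → ℤ) (hD : StrictMono D)
    (i : Fin N) (hi : (i : ℕ) + 1 = N) (t : ℤ) : Module.finrank K (Zm z K D i t) = 0 := by
  have h1 : Zm z K D i t = ⊥ := by
    rw [eq_bot_iff]
    rintro v ⟨hv, h0⟩
    exact (Submodule.mem_bot K).2 (thmA_inj (B := K) z hz D hD i hi v hv.1 h0)
  rw [h1, finrank_bot]


/-- PROOF: induction on d := n - 1 - i. -/
theorem c33_num (n : ℕ) (zf g : ℕ → ℤ) (h : ∀ i, i + 1 < n → zf i + zf (i + 1) = g (i + 2)) (h0 : ∀ i, i + 1 = n → zf i = 0)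
    (i : ℕ) (hi : i < n) : zf i = ∑ k ∈ Finset.range (n - 1 - i), (-1) ^ k * g (i + 2 + k) := by
  obtain ⟨d, hd⟩ : ∃ d, d = n - 1 - i := ⟨_, rfl⟩
  induction d generalizing i with
  | zero =>
    rw [← hd, Finset.range_zero, Finset.sum_empty]
    exact h0 i (by omega)
  | succ d ih =>
    have h1 := ih (i + 1) (by omega) (by omega)
    have h2 := h i (by omega)
    have h3 : n - 1 - (i + 1) = d := by omega
    rw [h3] at h1
    rw [← hd, Finset.sum_range_succ']
    have h4 : ∑ k ∈ Finset.range d, (-1 : ℤ) ^ (k + 1) * g (i + 2 + (k + 1)) = - zf (i + 1) := by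
      rw [h1, ← Finset.sum_neg_distrib]
      refine Finset.sum_congr rfl fun k _ => ?_
      rw [pow_succ, show i + 2 + (k + 1) = i + 1 + 2 + k by ring]
      ring
    rw [h4, pow_zero, one_mul, add_zero]
    linarith


/-- PROOF: c33_num with zf i = if h : i < N then finrank (Zm ⟨i, h⟩) else 0 and g. -/
theorem c33_alt {K : Type} [Field K] (z : ℤ → K) (hz : Function.Injective z) {N : ℕ} (D : Fin (N + 1) → ℤ) (hD : StrictMono D)
    (i : Fin N) (t : ℤ) (g : ℕ → ℤ) (hg : ∀ (p : ℕ) (hp : p < N + 1), g p = Module.finrank K (Gm K D ⟨p, hp⟩ t)) :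
    (Module.finrank K (Zm z K D i t) : ℤ) = ∑ k ∈ Finset.range (N - 1 - i), (-1) ^ k * g (i + 2 + k) := by
  have h1 := c33_num N (fun i => if h : i < N then (Module.finrank K (Zm z K D ⟨i, h⟩ t) : ℤ) else 0) g
    (fun i hi => by
      have h2 := c33_step z hz D hD ⟨i, by omega⟩ ⟨i + 1, hi⟩ rfl t
      have h3 : i < N := by omega
      simp only [dif_pos hi, dif_pos h3]
      rw [hg (i + 2) (by omega)]
      exact_mod_cast h2)
    (fun i hi => by
      have h3 : i < N := by omega
      simp only [dif_pos h3]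
      exact_mod_cast c33_last z hz D hD ⟨i, h3⟩ hi t)
    i i.2
  simp only [dif_pos i.2] at h1
  exact h1


end H92C
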