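import Pool.Agent.Lib.H92C.C34

/-!
# H92C, chunk C36 (M, pure, 1 theorem from C34): the rank polynomial from its roots
-/

set_option autoImplicit false

namespace H92C

/-- The rank polynomial. -/
noncomputable def c36_P (m1 m2 : ℕ) (e : ℤ) (u : ℕ → ℤ) : Polynomial ℚ :=
  ∑ k ∈ Finset.range (m1 + 1), Polynomial.C ((-1) ^ k * (u k : ℚ)) *
    ∏ l ∈ Finset.range (m1 + m2), (Polynomial.X - Polynomial.C ((e : ℚ) + k - 1 - l))

theorem c36_eval (m1 m2 : ℕ) (e : ℤ) (u : ℕ → ℤ) (b : ℤ) :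
    (c36_P m1 m2 e u).eval (b : ℚ) =
      ((∑ k ∈ Finset.range (m1 + 1), (-1) ^ k * u k * ∏ l ∈ Finset.range (m1 + m2), (b - e - k + 1 + l) : ℤ) : ℚ) := by
  unfold c36_P
  rw [Polynomial.eval_finsetSum]
  push_cast
  refine Finset.sum_congr rfl fun k _ => ?_
  rw [Polynomial.eval_mul, Polynomial.eval_C, Polynomial.eval_prod]
  congr 1
  refine Finset.prod_congr rfl fun l _ => ?_
  rw [Polynomial.eval_sub, Polynomial.eval_X, Polynomial.eval_C]
  ring

theorem c36_deg (m1 m2 : ℕ) (e : ℤ) (u : ℕ → ℤ) : (c36_P m1 m2 e u).natDegree ≤ m2 + m1 := by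
  unfold c36_P
  refine Polynomial.natDegree_sum_le_of_forall_le _ _ fun k _ => ?_
  refine (Polynomial.natDegree_C_mul_le _ _).trans ?_
  refine (Polynomial.natDegree_prod_le _ _).trans ?_
  refine (Finset.sum_le_sum fun l _ => (Polynomial.natDegree_X_sub_C_le _)).trans ?_
  simp [add_comm]

/-- Put P x := ∑ k ≤ m1, (-1)^k u k ∏ l < m1 + m2, (x - e - k + 1 + l), a polynomial of degree ≤ m1 + m2 (X - C (e + k - 1 - l)).
Roots: e - 1 - j (j < m2): the factor l = j + k < m1 + m2 of every term is 0; and -1 - j (j < m1): hypothesis h.  At x = e only k = 0 survives (the factor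
l = k - 1) and gives (m1 + m2)! u 0.  Apply c34_root with r i = if i < m2 then e - 1 - i else -1 - (i - m2), x = e (distinct: e - 1 - j ≥ e - m2 > 0).
Finset.prod_range_add (or prod_range_add over m2 + m1). -/
theorem c36 (m1 m2 : ℕ) (e : ℤ) (he : (m2 : ℤ) < e) (u : ℕ → ℤ)
    (h : ∀ j < m1, ∑ k ∈ Finset.range (m1 + 1), (-1) ^ k * u k * ∏ l ∈ Finset.range (m1 + m2), (-1 - (j : ℤ) - e - k + 1 + l) = 0) (b : ℤ) :
    (∑ k ∈ Finset.range (m1 + 1), (-1) ^ k * u k * ∏ l ∈ Finset.range (m1 + m2), (b - e - k + 1 + l)) *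
        ((∏ k ∈ Finset.range m1, (e + k + 1)) * m2.factorial) =
      ((m1 + m2).factorial * u 0) * ((∏ j ∈ Finset.range m2, (b - e + 1 + j)) * ∏ j ∈ Finset.range m1, (b + 1 + j)) := by
  classical
  let rz : ℕ → ℤ := fun i => if i < m2 then e - 1 - i else -1 - ((i : ℤ) - m2)
  have hrz1 : ∀ i < m2, rz i = e - 1 - i := fun i hi => if_pos hi
  have hrz2 : ∀ i, rz (m2 + i) = -1 - (i : ℤ) := by
    intro i
    show (if m2 + i < m2 then e - 1 - ((m2 + i : ℕ) : ℤ) else -1 - (((m2 + i : ℕ) : ℤ) - m2)) = _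
    rw [if_neg (by omega)]
    push_cast
    ring
  have hprod : ∀ x : ℤ, ∏ i ∈ Finset.range (m2 + m1), (x - rz i) =
      (∏ j ∈ Finset.range m2, (x - e + 1 + j)) * ∏ j ∈ Finset.range m1, (x + 1 + j) := by
    intro x
    rw [Finset.prod_range_add]
    congr 1
    · refine Finset.prod_congr rfl fun i hi => ?_
      rw [hrz1 i (Finset.mem_range.1 hi)]
      ring
    · refine Finset.prod_congr rfl fun i _ => ?_
      rw [hrz2 i]
      ring
  have hev : ∀ x : ℤ, ((∏ i ∈ Finset.range (m2 + m1), (x - rz i) : ℤ) : ℚ) = ∏ i ∈ Finset.range (m2 + m1), ((x : ℚ) - (rz i : ℚ)) := by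
    intro x
    push_cast
    rfl
  -- the roots
  have hroot : ∀ i < m2 + m1, (c36_P m1 m2 e u).eval ((rz i : ℤ) : ℚ) = 0 := by
    intro i hi
    rw [c36_eval]
    by_cases him : i < m2
    · rw [hrz1 i him]
      have h1 : ∑ k ∈ Finset.range (m1 + 1), (-1) ^ k * u k * ∏ l ∈ Finset.range (m1 + m2), (e - 1 - (i : ℤ) - e - k + 1 + l) = 0 := by
        refine Finset.sum_eq_zero fun k hk => ?_
        have hk' := Finset.mem_range.1 hk
        have h2 : ∏ l ∈ Finset.range (m1 + m2), (e - 1 - (i : ℤ) - e - k + 1 + l) = 0 := by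
          refine Finset.prod_eq_zero (i := i + k) (Finset.mem_range.2 (by omega)) ?_
          push_cast
          ring
        rw [h2, mul_zero]
      rw [h1, Int.cast_zero]
    · obtain ⟨j, rfl⟩ := Nat.exists_eq_add_of_le (not_lt.1 him)
      rw [hrz2 j]
      rw [h j (by omega), Int.cast_zero]
  have hinj : ∀ i < m2 + m1, ∀ j < m2 + m1, ((rz i : ℤ) : ℚ) = ((rz j : ℤ) : ℚ) → i = j := by
    intro i hi j hj hij
    have hij' : rz i = rz j := by exact_mod_cast hij
    by_cases h1 : i < m2 <;> by_cases h2 : j < m2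
    · rw [hrz1 i h1, hrz1 j h2] at hij'
      omega
    · obtain ⟨j', rfl⟩ := Nat.exists_eq_add_of_le (not_lt.1 h2)
      rw [hrz1 i h1, hrz2 j'] at hij'
      omega
    · obtain ⟨i', rfl⟩ := Nat.exists_eq_add_of_le (not_lt.1 h1)
      rw [hrz2 i', hrz1 j h2] at hij'
      omega
    · obtain ⟨i', rfl⟩ := Nat.exists_eq_add_of_le (not_lt.1 h1)
      obtain ⟨j', rfl⟩ := Nat.exists_eq_add_of_le (not_lt.1 h2)
      rw [hrz2 i', hrz2 j'] at hij'
      omega
  have key := c34_root (n := m2 + m1) (fun i => ((rz i : ℤ) : ℚ)) hinj (c36_P m1 m2 e u) (c36_deg m1 m2 e u) hroot (e : ℚ) (b : ℚ)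
  rw [← hev b, ← hev e, c36_eval, c36_eval] at key
  have key2 : (∑ k ∈ Finset.range (m1 + 1), (-1) ^ k * u k * ∏ l ∈ Finset.range (m1 + m2), (b - e - k + 1 + l)) *
      ∏ i ∈ Finset.range (m2 + m1), (e - rz i) =
      (∑ k ∈ Finset.range (m1 + 1), (-1) ^ k * u k * ∏ l ∈ Finset.range (m1 + m2), (e - e - k + 1 + l)) *
      ∏ i ∈ Finset.range (m2 + m1), (b - rz i) := by exact_mod_cast key
  rw [hprod, hprod] at key2
  have hf : ∀ n : ℕ, ∏ l ∈ Finset.range n, (1 + (l : ℤ)) = n.factorial := by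
    intro n
    induction n with
    | zero => simp
    | succ n ih =>
      rw [Finset.prod_range_succ, ih, Nat.factorial_succ]
      push_cast
      ring
  have he1 : ∏ j ∈ Finset.range m2, (e - e + 1 + (j : ℤ)) = m2.factorial := by
    rw [← hf m2]
    refine Finset.prod_congr rfl fun l _ => ?_
    ring
  have he2 : ∏ j ∈ Finset.range m1, (e + 1 + (j : ℤ)) = ∏ k ∈ Finset.range m1, (e + k + 1) := by
    refine Finset.prod_congr rfl fun l _ => ?_
    ring
  have he3 : ∑ k ∈ Finset.range (m1 + 1), (-1) ^ k * u k * ∏ l ∈ Finset.range (m1 + m2), (e - e - k + 1 + l) =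
      (m1 + m2).factorial * u 0 := by
    rw [Finset.sum_eq_single 0]
    · rw [pow_zero, one_mul, mul_comm]
      congr 1
      rw [← hf (m1 + m2)]
      refine Finset.prod_congr rfl fun l _ => ?_
      push_cast
      ring
    · intro k hk hk0
      have hk' := Finset.mem_range.1 hk
      have h2 : ∏ l ∈ Finset.range (m1 + m2), (e - e - (k : ℤ) + 1 + l) = 0 := by
        refine Finset.prod_eq_zero (i := k - 1) (Finset.mem_range.2 (by omega)) ?_
        have h3 : ((k - 1 : ℕ) : ℤ) = (k : ℤ) - 1 := by omega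
        rw [h3]
        ring
      rw [h2, mul_zero]
    · intro h0
      exact absurd (Finset.mem_range.2 (Nat.succ_pos m1)) h0
  rw [he1, he2, he3] at key2
  linarith [key2]

end H92C
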