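import Pool.Agent.Lib.H92C.N00

/-! # H92C, module N, chunk N17: the relation between the u(G - G_i) (N.4) -/

open Finset

namespace H92C
namespace NM

/-- Proof. `Matrix.det_vandermonde` with the definition of `vd` (the row `S` as a `Fin N → ℚ`). -/
theorem vd_det {N : ℕ} (S : Fin N → ℤ) : (vd S : ℚ) = (Matrix.vandermonde fun i => (S i : ℚ)).det := by
  rw [Matrix.det_vandermonde]
  unfold vd
  push_cast
  rfl

/-- Proof. By linearity (`Polynomial.eval_eq_sum_range'`, degree `< N`) it suffices to take `p = X^r`, `r < N`. The matrix with the rows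
`(G_i^r, 1, G_i, .., G_i^(N-1))` has two equal columns, so its determinant is zero (`Matrix.det_zero_of_column_eq`). Expand along the column `0`
(`Matrix.det_succ_column_zero`): the minor of the row `i` is the Vandermonde determinant of `dl G i` (`vd_det`). -/
theorem lagr {N : ℕ} (G : Fin (N + 1) → ℤ) (p : Polynomial ℚ) (hp : p.natDegree < N) :
    ∑ i : Fin (N + 1), (-1 : ℚ) ^ (i : ℕ) * (vd (dl G i) : ℚ) * p.eval (G i : ℚ) = 0 := by
  classical
  -- monomials
  have hmono : ∀ r : ℕ, r < N →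
      ∑ i : Fin (N + 1), (-1 : ℚ) ^ (i : ℕ) * (vd (dl G i) : ℚ) * (G i : ℚ) ^ r = 0 := by
    intro r hr
    set M : Matrix (Fin (N + 1)) (Fin (N + 1)) ℚ := Matrix.of fun i j =>
      (Fin.cons ((G i : ℚ) ^ r) (fun k : Fin N => (G i : ℚ) ^ (k : ℕ)) : Fin (N + 1) → ℚ) j with hM
    have hdet : M.det = 0 := by
      apply Matrix.det_zero_of_column_eq (i := 0) (j := (⟨r, hr⟩ : Fin N).succ)
      · exact (Fin.succ_ne_zero _).symm
      · intro k
        simp only [hM, Matrix.of_apply, Fin.cons_zero, Fin.cons_succ]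
    have hexp := Matrix.det_succ_column_zero M
    rw [hdet] at hexp
    rw [hexp]
    refine Finset.sum_congr rfl fun i _ => ?_
    have e1 : M i 0 = (G i : ℚ) ^ r := by simp [hM]
    have e2 : (M.submatrix i.succAbove Fin.succ).det = (vd (dl G i) : ℚ) := by
      rw [vd_det]
      rfl
    rw [e1, e2]
    ring
  have heval : ∀ x : ℚ, p.eval x = ∑ r ∈ range N, p.coeff r * x ^ r := fun x =>
    Polynomial.eval_eq_sum_range' hp x
  calc ∑ i : Fin (N + 1), (-1 : ℚ) ^ (i : ℕ) * (vd (dl G i) : ℚ) * p.eval (G i : ℚ)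
      = ∑ r ∈ range N, p.coeff r *
          ∑ i : Fin (N + 1), (-1 : ℚ) ^ (i : ℕ) * (vd (dl G i) : ℚ) * (G i : ℚ) ^ r := by
        simp only [heval, Finset.mul_sum]
        rw [Finset.sum_comm]
        refine Finset.sum_congr rfl fun r _ => Finset.sum_congr rfl fun i _ => ?_
        ring
    _ = 0 := Finset.sum_eq_zero fun r hr => by
        rw [hmono r (Finset.mem_range.1 hr), mul_zero]

/-- Proof. `thmI_dim` for the rows `dl G i`, and `lagr`; divide by `sf N ≠ 0`. -/
theorem lagr_uu {N : ℕ} (G : Fin (N + 1) → ℤ) (hG : StrictMono G) (p : Polynomial ℚ) (hp : p.natDegree < N) :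
    ∑ i : Fin (N + 1), (-1 : ℚ) ^ (i : ℕ) * (uu (dl G i) : ℚ) * p.eval (G i : ℚ) = 0 := by
  have hS : ((∏ k ∈ Finset.range N, (k.factorial : ℤ) : ℤ) : ℚ) ≠ 0 := by
    have : (∏ k ∈ Finset.range N, (k.factorial : ℤ)) ≠ 0 :=
      Finset.prod_ne_zero_iff.2 fun k _ => by exact_mod_cast k.factorial_ne_zero
    exact_mod_cast this
  have hdl : ∀ i, StrictMono (dl G i) := fun i => hG.comp (Fin.strictMono_succAbove i)
  have h := lagr G p hp
  have e : ∀ i : Fin (N + 1), (vd (dl G i) : ℚ) =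
      (uu (dl G i) : ℚ) * ((∏ k ∈ Finset.range N, (k.factorial : ℤ) : ℤ) : ℚ) := by
    intro i
    have h1 := thmI_dim (dl G i) (hdl i)
    unfold vd
    rw [← h1]
    push_cast
    ring
  have h2 : (∑ i : Fin (N + 1), (-1 : ℚ) ^ (i : ℕ) * (uu (dl G i) : ℚ) * p.eval (G i : ℚ)) *
      ((∏ k ∈ Finset.range N, (k.factorial : ℤ) : ℤ) : ℚ) = 0 := by
    rw [← h, Finset.sum_mul]
    refine Finset.sum_congr rfl fun i _ => ?_
    rw [e i]
    ring
  exact (mul_eq_zero.1 h2).resolve_right hS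

end NM
end H92C
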