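import Pool.Agent.Lib.H92C.C35
import Pool.Agent.Lib.H92C.N17

/-!
# H92C, chunk C37 (M, 1 theorem from NM.lagr_uu): the roots -m1, .., -1 of the rank polynomial
-/

set_option autoImplicit false

namespace H92C

/-- The polynomial ∏ (l - j - X). -/
noncomputable def c37_p (m j : ℕ) : Polynomial ℚ := ∏ l ∈ Finset.range m, (Polynomial.C ((l : ℚ) - j) - Polynomial.X)

theorem c37_deg (m j : ℕ) : (c37_p m j).natDegree ≤ m := by
  unfold c37_p
  refine (Polynomial.natDegree_prod_le _ _).trans ?_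
  refine (Finset.sum_le_sum (g := fun _ => 1) fun l _ => ?_).trans ?_
  · refine (Polynomial.natDegree_sub_le _ _).trans ?_
    rw [Polynomial.natDegree_C, Polynomial.natDegree_X]
    simp
  · simp

theorem c37_eval (m j : ℕ) (y : ℤ) : (c37_p m j).eval (y : ℚ) = ((∏ l ∈ Finset.range m, ((l : ℤ) - j - y) : ℤ) : ℚ) := by
  unfold c37_p
  rw [Polynomial.eval_prod]
  push_cast
  refine Finset.prod_congr rfl fun l _ => ?_
  rw [Polynomial.eval_sub, Polynomial.eval_C, Polynomial.eval_X]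

/-- PROOF: NM.lagr_uu with G = Dpp m2 e, N = m1 + m2 + 1 and p = ∏ l < m1 + m2, (C (l - j) - X) (degree ≤ m1 + m2 < N): the terms i ≤ m2 vanish (factor
l = j + i ≤ m1 - 1 + m2), the terms i = m2 + 1 + k are (-1)^(m2 + 1) times those of the claim.  Fin.sum_univ_eq_sum_range after extending
by 0, Finset.sum_range_add (or sum_range_add over (m2 + 1) + (m1 + 1)). -/
theorem c37 (m1 m2 : ℕ) (e : ℤ) (he : (m2 : ℤ) < e) (u : ℕ → ℤ)
    (hu : ∀ (k : ℕ) (hk : m2 + 1 + k < m1 + m2 + 1 + 1), u k = uu (dl (Dpp m2 e) ⟨m2 + 1 + k, hk⟩)) (j : ℕ) (hj : j < m1) :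
    ∑ k ∈ Finset.range (m1 + 1), (-1) ^ k * u k * ∏ l ∈ Finset.range (m1 + m2), (-1 - (j : ℤ) - e - k + 1 + l) = 0 := by
  have h1 := NM.lagr_uu (N := m1 + m2 + 1) (Dpp m2 e) (c35_sm m2 e he) (c37_p (m1 + m2) j)
    (lt_of_le_of_lt (c37_deg (m1 + m2) j) (Nat.lt_succ_self _))
  let f : ℕ → ℚ := fun i => if h : i < m1 + m2 + 1 + 1 then
    (-1 : ℚ) ^ i * (uu (dl (Dpp m2 e) (⟨i, h⟩ : Fin (m1 + m2 + 1 + 1))) : ℚ) * (c37_p (m1 + m2) j).eval ((Dpp m2 e (⟨i, h⟩ : Fin (m1 + m2 + 1 + 1)) : ℤ) : ℚ) else 0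
  have h2 : ∑ i : Fin (m1 + m2 + 1 + 1), f i = 0 := by
    rw [← h1]
    refine Finset.sum_congr rfl fun i _ => ?_
    show (if h : (i : ℕ) < m1 + m2 + 1 + 1 then _ else _) = _
    rw [dif_pos i.2]
  rw [Fin.sum_univ_eq_sum_range f (m1 + m2 + 1 + 1), show m1 + m2 + 1 + 1 = (m2 + 1) + (m1 + 1) by omega, Finset.sum_range_add] at h2
  have h3 : ∑ i ∈ Finset.range (m2 + 1), f i = 0 := by
    refine Finset.sum_eq_zero fun i hi => ?_
    have hi' := Finset.mem_range.1 hi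
    show (if h : i < m1 + m2 + 1 + 1 then _ else _) = _
    rw [dif_pos (by omega), c37_eval]
    have h4 : Dpp m2 e (⟨i, by omega⟩ : Fin (m1 + m2 + 1 + 1)) = (i : ℤ) := by
      show (if i ≤ m2 then (i : ℤ) else _) = _
      rw [if_pos (by omega)]
    rw [h4]
    have h5 : ∏ l ∈ Finset.range (m1 + m2), ((l : ℤ) - j - i) = 0 := by
      refine Finset.prod_eq_zero (i := j + i) (Finset.mem_range.2 (by omega)) ?_
      push_cast
      ring
    rw [h5, Int.cast_zero, mul_zero]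
  rw [h3, zero_add] at h2
  have h6 : ∀ k ∈ Finset.range (m1 + 1), f (m2 + 1 + k) =
      (((-1) ^ (m2 + 1) * ((-1) ^ k * u k * ∏ l ∈ Finset.range (m1 + m2), (-1 - (j : ℤ) - e - k + 1 + l)) : ℤ) : ℚ) := by
    intro k hk
    have hk' := Finset.mem_range.1 hk
    show (if h : m2 + 1 + k < m1 + m2 + 1 + 1 then _ else _) = _
    rw [dif_pos (by omega), c37_eval]
    have h4 : Dpp m2 e (⟨m2 + 1 + k, by omega⟩ : Fin (m1 + m2 + 1 + 1)) = e + k := by
      show (if m2 + 1 + k ≤ m2 then _ else e + (((m2 + 1 + k : ℕ) : ℤ) - m2 - 1)) = _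
      rw [if_neg (by omega)]
      push_cast
      ring
    rw [h4, hu k (by omega)]
    have h5 : ∏ l ∈ Finset.range (m1 + m2), ((l : ℤ) - j - (e + k)) = ∏ l ∈ Finset.range (m1 + m2), (-1 - (j : ℤ) - e - k + 1 + l) := by
      refine Finset.prod_congr rfl fun l _ => ?_
      ring
    rw [h5]
    push_cast
    ring
  rw [Finset.sum_congr rfl h6] at h2
  have h7 : ∑ k ∈ Finset.range (m1 + 1), (-1) ^ (m2 + 1) * ((-1) ^ k * u k * ∏ l ∈ Finset.range (m1 + m2), (-1 - (j : ℤ) - e - k + 1 + l)) = 0 := by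
    exact_mod_cast h2
  rw [← Finset.mul_sum] at h7
  rcases mul_eq_zero.1 h7 with h8 | h8
  · exact absurd h8 (pow_ne_zero _ (by norm_num))
  · exact h8

end H92C
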