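import Pool.Agent.Lib.H92C.I06

/-!
# H92C, chunk I12 (M): compression of the operators C
-/

open MvPolynomial

namespace H92C

variable {K : Type} [Field K] (q : K)

/-- Proof. Let k = last, E1 := E + ep k (strictly increasing: only the last entry of E grows), E1 - ep k = E (add_sub_cancel_right). The word A := (sg (F - ep j) ∘ₗ sl (F - ep j)) ∘ₗ CC E1 k (r + 1) ∘ₗ ro (m+1) E k ∘ₗ (sg F ∘ₗ sl F) is in S E E: hp for F and F - ep j, rho from E to E1, cl from E1 to E1 - ep k = E (r + 1 < m + 1), comp. For v ∈ U E put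
y := ro (m+1) E k (sg F (sl F v)) = th (zq (E k)) F • sg F (sl F v) (i06_ro; Il E F gives Il E1 F, i06_last), y ∈ U E1 (i03_ro, i00_sg, i00_sl). By thmB_level for E1, the row F - ep j (Il (E1 - ep k) (F - ep j)) and r < m: sl (F - ep j) (CC E1 k (r+1) y) = ∑ i, bet E1 k (F - ep j + ep i) i • CC (F - ep j + ep i) i r (sl (F - ep j + ep i) y): for i ≠ j the row is ≠ F (i00_ep_inj) and the slice of y is 0
(i00_sl_sg_ne), for i = j: bet E1 k F j * th • CC F j r (sl F v). So A v = (bet * th) • sg (F - ep j) (CC F j r (sl F v)). th ≠ 0 (i06_th_ne, i06_last). bet E1 k F j ≠ 0: 1 - q⁻¹ ≠ 0 (hq 1), zq ≠ 0; zq (F j) ≠ zq (E1 i) for i ≠ k: E1 i = E i, and F j = E i with Il E F would give i = j.castSucc (E strictly increasing and E j.castSucc ≤ F j < E j.succ), but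
E j.castSucc ≤ F j - 1 by hF' ; zq (F j) ≠ zq (F c), c ≠ j (i01_sm). Multiply by (bet * th)⁻¹ and congr. -/
theorem i12_C (hq0 : q ≠ 0) (hq : ∀ j : ℕ, 0 < j → q ^ j ≠ 1) {m : ℕ} {a b : Fin (m + 1) → ℤ}
    {S : (Fin (m + 1) → ℤ) → (Fin (m + 1) → ℤ) → (W K (m + 1) →ₗ[K] W K (m + 1)) → Prop}
    (hS : Fam q a b S) (E : Fin (m + 1) → ℤ) (hE : Bx a b E) (hE1 : Bx a b (E + ep (Fin.last m))) (hm : StrictMono E)
    (hp : ∀ F, Il E F → S E E (sg F ∘ₗ sl F)) (F : Fin m → ℤ) (j : Fin m) (hF : Il E F) (hF' : Il E (F - ep j))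
    (r : ℕ) (hr : r < m) : S E E (sg (F - ep j) ∘ₗ CC q F j r ∘ₗ sl F) := by
  have hsub : E + ep (Fin.last m) - ep (Fin.last m) = E := add_sub_cancel_right _ _
  have hro := hS.rho E (Fin.last m) hE hE1
  have hcl : S (E + ep (Fin.last m)) E (CC q (E + ep (Fin.last m)) (Fin.last m) (r + 1)) := by
    have h := hS.cl (E + ep (Fin.last m)) (Fin.last m) (by simp) hE1 (by rw [hsub]; exact hE) (r + 1) (by omega)
    rwa [hsub] at h
  have hw := hS.comp E E E hE hE hE _ _
    (hS.comp E (E + ep (Fin.last m)) E hE hE1 hE _ _ (hS.comp E E (E + ep (Fin.last m)) hE hE hE1 _ _ (hp F hF) hro) hcl)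
    (hp (F - ep j) hF')
  have hFm : StrictMono F := i01_sm E F hF
  have hlast := i06_last E hm F hF
  have hmono1 : StrictMono (E + ep (Fin.last m)) := by
    intro x y hxy
    have h1 := hm hxy
    have hx : x ≠ Fin.last m := (lt_of_lt_of_le hxy (Fin.le_last y)).ne
    rw [Pi.add_apply, Pi.add_apply, i00_ep_ne _ _ hx, add_zero]
    by_cases hy : y = Fin.last m
    · rw [hy, i00_ep_self]
      rw [hy] at h1
      omega
    · rw [i00_ep_ne _ _ hy, add_zero]
      exact h1
  have hth : th q (zq q (E (Fin.last m))) F ≠ 0 := i06_th_ne q hq0 hq _ _ (fun j => (hlast.2 j).ne)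
  have hbet : bet q (E + ep (Fin.last m)) (Fin.last m) F j ≠ 0 := by
    have hq1 : q ≠ 1 := by
      have := hq 1 one_pos
      rwa [pow_one] at this
    have h1q : (1 : K) - q⁻¹ ≠ 0 := by
      rw [sub_ne_zero]
      intro h
      exact hq1 (inv_eq_one.1 h.symm)
    have hz : ∀ e, zq q e ≠ 0 := i00_zq_ne q hq0
    unfold bet
    apply div_ne_zero
    · apply mul_ne_zero
      · apply mul_ne_zero
        · apply mul_ne_zero
          · apply mul_ne_zero
            · apply mul_ne_zero
              · exact neg_ne_zero.2 h1q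
              · exact hz _
            · exact inv_ne_zero (hz _)
          · exact hz _
        · exact inv_ne_zero (hz _)
      · rw [Finset.prod_ne_zero_iff]
        intro i hi
        have hi2 : i ≠ Fin.last m := (Finset.mem_erase.1 hi).1
        rw [sub_ne_zero]
        intro h
        have h2 := i00_inj q hq0 hq h
        rw [Pi.add_apply, i00_ep_ne _ _ hi2, add_zero] at h2
        have h3 := hF' j
        rw [Pi.sub_apply, i00_ep_self] at h3
        have h4 := hF j
        -- E j.castSucc < F j = E i < E j.succ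
        have h5 : E j.castSucc < E i := by omega
        have h6 : E i < E j.succ := by omega
        have h7 := hm.lt_iff_lt.1 h5
        have h8 := hm.lt_iff_lt.1 h6
        rw [Fin.lt_def] at h7 h8
        simp at h7 h8
        omega
    · rw [Finset.prod_ne_zero_iff]
      intro c hc
      have hcj : c ≠ j := (Finset.mem_erase.1 hc).1
      rw [sub_ne_zero]
      intro h
      exact hcj (hFm.injective (i00_inj q hq0 hq h)).symm
  set s := bet q (E + ep (Fin.last m)) (Fin.last m) F j * th q (zq q (E (Fin.last m))) F with hs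
  have hs0 : s ≠ 0 := mul_ne_zero hbet hth
  have hw2 := hS.smul E E hE hE s⁻¹ _ hw
  refine hS.congr E E hE hE _ _ hw2 ?_
  intro v hv
  have hslU : sl F v ∈ U K m F := i00_sl E F v hv
  have hy1 : ro q (m + 1) E (Fin.last m) (sg F (sl F v)) = th q (zq q (E (Fin.last m))) F • sg F (sl F v) := by
    funext c
    rw [i06_ro]
    show _ = th q (zq q (E (Fin.last m))) F * (if c.1 = F then sl F v c.2 else 0)
    show (if Il (E + ep (Fin.last m)) c.1 then th q (zq q (E (Fin.last m))) c.1 * (if c.1 = F then sl F v c.2 else 0) else 0) = _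
    by_cases hc : c.1 = F
    · rw [if_pos hc, hc, if_pos hlast.1]
    · rw [if_neg hc, mul_zero, mul_zero, ite_self]
  set y := ro q (m + 1) E (Fin.last m) (sg F (sl F v)) with hy
  have hyU : y ∈ U K (m + 1) (E + ep (Fin.last m)) := i03_ro q _ _ _ _ (i00_sg E F _ hslU hF)
  have hlev := thmB_level q hq0 hq (E + ep (Fin.last m)) hmono1 (Fin.last m) (by rw [hsub]; exact hm) r hr y hyU (F - ep j)
    (by rw [hsub]; exact hF')
  have hval : sl (F - ep j) (CC q (E + ep (Fin.last m)) (Fin.last m) (r + 1) y) = s • CC q F j r (sl F v) := by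
    rw [hlev, Finset.sum_eq_single j]
    · have h1 : F - ep j + ep j = F := sub_add_cancel _ _
      rw [h1, hy1, map_smul, i00_sl_sg, map_smul, smul_smul]
    · intro i _ hi
      have hne : F - ep j + ep i ≠ F := by
        intro h
        apply hi
        apply i00_ep_inj
        have h3 : F - ep j + ep i = F - ep j + ep j := by rw [h, sub_add_cancel]
        exact add_left_cancel h3
      rw [hy1, map_smul, i00_sl_sg_ne F _ hne, smul_zero, map_zero, smul_zero]
    · intro h
      exact absurd (Finset.mem_univ _) h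
  show s⁻¹ • sg (F - ep j) (sl (F - ep j) (CC q (E + ep (Fin.last m)) (Fin.last m) (r + 1) y)) = sg (F - ep j) (CC q F j r (sl F v))
  rw [hval, map_smul, smul_smul, inv_mul_cancel₀ hs0, one_smul]

end H92C
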