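import Pool.Agent.Lib.H92C.I11
import Pool.Agent.Lib.H92C.I12

/-!
# H92C, chunk I13 (S/M): the compressed family of the lower level
-/

open MvPolynomial

namespace H92C

variable {K : Type} [Field K] (q : K)

/-- Proof. Bx (fun j => E j.castSucc) (fun j => E j.succ) F is Il E F (by definition). congr: for v ∈ U E, sl F v ∈ U F (i00_sl). add, smul: linearity (congr or rewriting with LinearMap.comp_add ..). comp: sl F' (sg F' w) = w (i00_sl_sg). one: hp. lam: i12_C with r = 0 (CC q F j 0 = tr m (F - ep j) by rfl, 0 < m because of j).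
rho: i11_rho with μ = m (1 ≤ m because of j). rhl: i11_rho. cl: i12_C. -/
theorem i13_fam (hq0 : q ≠ 0) (hq : ∀ j : ℕ, 0 < j → q ^ j ≠ 1) {m : ℕ} {a b : Fin (m + 1) → ℤ}
    {S : (Fin (m + 1) → ℤ) → (Fin (m + 1) → ℤ) → (W K (m + 1) →ₗ[K] W K (m + 1)) → Prop}
    (hS : Fam q a b S) (E : Fin (m + 1) → ℤ) (hE : Bx a b E) (hE1 : Bx a b (E + ep (Fin.last m))) (hm : StrictMono E)
    (hp : ∀ F, Il E F → S E E (sg F ∘ₗ sl F)) :
    Fam q (fun j : Fin m => E j.castSucc) (fun j : Fin m => E j.succ)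
      (fun F F' (A : W K m →ₗ[K] W K m) => S E E (sg F' ∘ₗ A ∘ₗ sl F)) := by
  refine ⟨?_, ?_, ?_, ?_, ?_, ?_, ?_, ?_, ?_⟩
  · intro F F' hF hF' A B hA hAB
    refine hS.congr E E hE hE _ _ hA ?_
    intro v hv
    show sg F' (A (sl F v)) = sg F' (B (sl F v))
    rw [hAB _ (i00_sl E F v hv)]
  · intro F F' hF hF' A B hA hB
    refine hS.congr E E hE hE _ _ (hS.add E E hE hE _ _ hA hB) ?_
    intro v _
    show sg F' (A (sl F v)) + sg F' (B (sl F v)) = sg F' (A (sl F v) + B (sl F v))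
    rw [map_add]
  · intro F F' hF hF' c A hA
    refine hS.congr E E hE hE _ _ (hS.smul E E hE hE c _ hA) ?_
    intro v _
    show c • sg F' (A (sl F v)) = sg F' (c • A (sl F v))
    rw [map_smul]
  · intro F F' F'' hF hF' hF'' A B hA hB
    refine hS.congr E E hE hE _ _ (hS.comp E E E hE hE hE _ _ hA hB) ?_
    intro v _
    show sg F'' (B (sl F' (sg F' (A (sl F v))))) = sg F'' (B (A (sl F v)))
    rw [i00_sl_sg]
  · intro F hF
    exact hp F hF
  · intro F j hF hF'
    have h := i12_C q hq0 hq hS E hE hE1 hm hp F j hF hF' 0 (by have := j.2; omega)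
    exact h
  · intro F j hF hF'
    exact i11_rho q hq0 hq hS E hE hE1 hm hp F j hF hF' m (by have := j.2; omega) (le_refl _)
  · intro F j _ hF hF' μ h1 h2
    exact i11_rho q hq0 hq hS E hE hE1 hm hp F j hF hF' μ h1 h2
  · intro F j _ hF hF' r hr
    exact i12_C q hq0 hq hS E hE hE1 hm hp F j hF hF' r hr

end H92C
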