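import Pool.Agent.Lib.H92C.I02

/-!
# H92C, chunk I14 (S/M): from the lower level to all operators of U E
-/

open MvPolynomial

namespace H92C

variable {K : Type} [Field K] (q : K)

/-- Proof. Let A map U E to U E. B := ∑ F ∈ IF E, ∑ F' ∈ IF E, sg F' ∘ₗ (sl F' ∘ₗ A ∘ₗ sg F) ∘ₗ sl F. Each term is in S E E by h (for w ∈ U F: sg F w ∈ U E (i00_sg), A of it ∈ U E, its slice ∈ U F' (i00_sl)); sums: Finset induction with add and the zero operator (i02_zero from one). For v ∈ U E: v = ∑ F ∈ IF E, sg F (sl F v)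
(i01_slices), A v = ∑ F, A (sg F (sl F v)), and each A (..) ∈ U E is the sum of its slices (i01_slices). congr. -/
theorem i14_full {m : ℕ} {a b : Fin (m + 1) → ℤ}
    {S : (Fin (m + 1) → ℤ) → (Fin (m + 1) → ℤ) → (W K (m + 1) →ₗ[K] W K (m + 1)) → Prop}
    (hS : Fam q a b S) (E : Fin (m + 1) → ℤ) (hE : Bx a b E)
    (h : ∀ F F', Il E F → Il E F' → ∀ A : W K m →ₗ[K] W K m, (∀ v ∈ U K m F, A v ∈ U K m F') → S E E (sg F' ∘ₗ A ∘ₗ sl F)) :
    Fl S E E := by
  intro A hA
  have hz : S E E 0 := i02_zero q hS hE hE _ (hS.one E hE)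
  have hsum : ∀ (X : Finset (Fin m → ℤ)) (B : (Fin m → ℤ) → W K (m + 1) →ₗ[K] W K (m + 1)), (∀ F ∈ X, S E E (B F)) → S E E (∑ F ∈ X, B F) := by
    intro X B
    classical
    induction X using Finset.induction_on with
    | empty =>
      intro _
      rw [Finset.sum_empty]
      exact hz
    | insert F X hFX ih =>
      intro hB
      rw [Finset.sum_insert hFX]
      exact hS.add E E hE hE _ _ (hB F (Finset.mem_insert_self _ _)) (ih (fun G hG => hB G (Finset.mem_insert_of_mem hG)))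
  have h1 : S E E (∑ F ∈ IF E, ∑ F' ∈ IF E, (sg F' ∘ₗ (sl F' ∘ₗ A ∘ₗ sg F) ∘ₗ sl F)) := by
    apply hsum
    intro F hF
    apply hsum
    intro F' hF'
    rw [mem_IF] at hF hF'
    apply h F F' hF hF'
    intro w hw
    exact i00_sl E F' _ (hA _ (i00_sg E F w hw hF))
  refine hS.congr E E hE hE _ _ h1 ?_
  intro v hv
  have h2 : A v = ∑ F ∈ IF E, A (sg F (sl F v)) := by
    conv_lhs => rw [i01_slices E v hv]
    rw [map_sum]
  rw [h2, LinearMap.sum_apply]
  apply Finset.sum_congr rfl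
  intro F hF
  rw [LinearMap.sum_apply]
  rw [mem_IF] at hF
  have h3 := i01_slices E (A (sg F (sl F v))) (hA _ (i00_sg E F _ (i00_sl E F v hv) hF))
  exact h3.symm

end H92C
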