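import Pool.Agent.Lib.H92C.I03

/-!
# H92C, chunk I04 (M): the common kernel of the operators C is zero
-/

open MvPolynomial

namespace H92C

variable {K : Type} [Field K] (q : K)

/-- I.2 (iii). Induction on m. Let k = last.
m = 0: r = 0: CC E k 0 = tr 1 (E - ep k), and Il (E - ep k) F is trivially true for rows F : Fin 0 → ℤ, so v = CC E k 0 v = 0.
m + 1 (level m + 2; write n = m + 1, E : Fin (n + 1) → ℤ): it suffices (i01_slices, or funext) that sl F v = 0 for every F interlacing E (for the others i00_sl_zero).
 From r = 0: v c = 0 for all c with Il (E - ep k) c.1 (CC E k 0 = tr). If Il (E - ep k) F: done. Otherwise, since Il E F, the only condition of Il (E - ep k) F that can fail is the upper one at the last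
 index (E - ep k has the entries of E except the last one, which is E k - 1; the lower conditions only involve the entries E j.castSucc, j.castSucc ≠ last): F last = E k - 1.
 Put F' := F - ep last (last : Fin n). Il (E - ep k) F': entries ≠ last as for F; at last: F' last = E k - 2 ≥ E (last.castSucc) because E - ep k is strictly increasing: E (last.castSucc) < E k - 1; and
 E k - 2 < E k - 1. So F' is strictly increasing (i01_sm), F too. Use the induction hypothesis (level n = m + 1) for the row F and the vector sl F v ∈ U F (i00_sl): need CC F last r (sl F v) = 0 for r < m + 1. By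
 thmB_level (r < n, for the row F' and F' + ep last = F): 0 = sl F' (CC E k (r + 1) v) = ∑ j, bet E k (F' + ep j) j • CC (F' + ep j) j r (sl (F' + ep j) v). For j ≠ last: the row F' + ep j has the last entry
 E k - 2, so sl (F' + ep j) v = 0: if it interlaces E it interlaces E - ep k and v vanishes there, otherwise i00_sl_zero. So bet E k F last • CC F last r (sl F v) = 0, and
 bet E k F last ≠ 0: 1 - q⁻¹ ≠ 0 (q ≠ 1 by hq 1), zq is never 0 (i00_zq_ne), zq (F last) ≠ zq (E i) for i ≠ k (F last = E k - 1 > E (last.castSucc) ≥ E i; i00_inj), zq (F last) ≠ zq (F c) for c ≠ last (F strictly increasing). -/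
theorem i04_ker (hq0 : q ≠ 0) (hq : ∀ j : ℕ, 0 < j → q ^ j ≠ 1) : ∀ (m : ℕ) (E : Fin (m + 1) → ℤ), StrictMono E →
    StrictMono (E - ep (Fin.last m)) → ∀ v ∈ U K (m + 1) E, (∀ r, r < m + 1 → CC q E (Fin.last m) r v = 0) → v = 0 := by
  intro m
  induction m with
  | zero =>
    intro E _ _ v _ h
    funext c
    have h1 := congrFun (h 0 zero_lt_one) c
    have h2 : CC q E (Fin.last 0) 0 v c = if Il (E - ep (Fin.last 0)) c.1 then v c else 0 := rfl
    have h3 : Il (E - ep (Fin.last 0)) c.1 := fun j => j.elim0
    rw [h2, if_pos h3] at h1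
    exact h1
  | succ m ih =>
    intro E hE hE' v hv h
    have h0 : ∀ c, Il (E - ep (Fin.last (m + 1))) c.1 → v c = 0 := by
      intro c hc
      have h1 := congrFun (h 0 (Nat.succ_pos _)) c
      have h2 : CC q E (Fin.last (m + 1)) 0 v c =
        if Il (E - ep (Fin.last (m + 1))) c.1 then v c else 0 := rfl
      rw [h2, if_pos hc] at h1
      exact h1
    -- the entries of E - ep k
    have e1 : ∀ j : Fin (m + 1), (E - ep (Fin.last (m + 1))) j.castSucc = E j.castSucc := fun j => by
      rw [Pi.sub_apply, i00_ep_ne _ _ (Fin.castSucc_lt_last j).ne, sub_zero]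
    have e2 : ∀ j : Fin (m + 1), j ≠ Fin.last m →
        (E - ep (Fin.last (m + 1))) j.succ = E j.succ := fun j hj => by
      rw [Pi.sub_apply, i00_ep_ne, sub_zero]
      intro h1
      exact hj (Fin.succ_injective _ (by rw [h1, Fin.succ_last]))
    have e3 : (E - ep (Fin.last (m + 1))) (Fin.last m).succ = E (Fin.last (m + 1)) - 1 := by
      rw [Fin.succ_last, Pi.sub_apply, i00_ep_self]
    have e4 : E (Fin.last m).castSucc < E (Fin.last (m + 1)) - 1 := by
      rw [← e3, ← e1]
      exact hE' (Fin.castSucc_lt_succ)
    -- rows which interlace E and have a small last entry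
    have e5 : ∀ F : Fin (m + 1) → ℤ, Il E F → F (Fin.last m) < E (Fin.last (m + 1)) - 1 →
        Il (E - ep (Fin.last (m + 1))) F := by
      intro F hF hl j
      rw [e1]
      refine ⟨(hF j).1, ?_⟩
      by_cases hj : j = Fin.last m
      · subst hj
        rw [e3]
        exact hl
      · rw [e2 j hj]
        exact (hF j).2
    suffices hs : ∀ F, sl F v = 0 by
      funext c
      exact congrFun (hs c.1) c.2
    intro F
    by_cases hIE : Il E F
    swap
    · exact i00_sl_zero E F v hv hIE
    by_cases hI' : Il (E - ep (Fin.last (m + 1))) F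
    · funext c
      exact h0 (F, c) hI'
    have hlast : F (Fin.last m) = E (Fin.last (m + 1)) - 1 := by
      have h1 : F (Fin.last m) < E (Fin.last (m + 1)) := (hIE (Fin.last m)).2
      by_contra hne
      exact hI' (e5 F hIE (by omega))
    have hF' : Il (E - ep (Fin.last (m + 1))) (F - ep (Fin.last m)) := by
      intro j
      rw [e1]
      by_cases hj : j = Fin.last m
      · subst hj
        rw [e3, Pi.sub_apply, i00_ep_self, hlast]
        constructor <;> omega
      · rw [e2 j hj, Pi.sub_apply, i00_ep_ne _ _ hj, sub_zero]
        exact hIE j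
    have hFm : StrictMono F := i01_sm E F hIE
    refine ih F hFm (i01_sm _ _ hF') (sl F v) (i00_sl E F v hv) fun r hr => ?_
    have h3 := thmB_level q hq0 hq E hE (Fin.last (m + 1)) hE' r hr v hv (F - ep (Fin.last m)) hF'
    rw [h (r + 1) (by omega), map_zero, Finset.sum_eq_single (Fin.last m), sub_add_cancel] at h3
    · refine (smul_eq_zero.1 h3.symm).resolve_left ?_
      have hinj := i00_inj q hq0 hq
      have hz := i00_zq_ne q hq0
      unfold bet
      refine div_ne_zero (mul_ne_zero (mul_ne_zero (mul_ne_zero (mul_ne_zero (mul_ne_zero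
        (neg_ne_zero.2 ?_) (hz _)) (inv_ne_zero (hz _))) (hz _)) (inv_ne_zero (hz _))) ?_) ?_
      · have h4 := hq 1 zero_lt_one
        rw [pow_one] at h4
        rw [sub_ne_zero]
        intro h5
        apply h4
        rw [← inv_inv q, ← h5, inv_one]
      · refine Finset.prod_ne_zero_iff.2 fun i hi => sub_ne_zero.2 (hinj.ne ?_)
        rw [hlast]
        have h4 : i ≠ Fin.last (m + 1) := Finset.ne_of_mem_erase hi
        have h5 : i ≤ (Fin.last m).castSucc := by
          rw [Fin.le_def]
          have h6 := i.2
          have h7 : (i : ℕ) ≠ m + 1 := fun h8 => h4 (Fin.ext h8)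
          simp only [Fin.val_castSucc, Fin.val_last]
          omega
        have h6 := hE.monotone h5
        omega
      · refine Finset.prod_ne_zero_iff.2 fun i hi => sub_ne_zero.2 (hinj.ne ?_)
        exact hFm.injective.ne (Finset.ne_of_mem_erase hi).symm
    · intro j _ hj
      have h4 : sl (F - ep (Fin.last m) + ep j) v = 0 := by
        by_cases h5 : Il E (F - ep (Fin.last m) + ep j)
        · funext c
          refine h0 (_, c) (e5 _ h5 ?_)
          show (F - ep (Fin.last m) + ep j) (Fin.last m) < _
          rw [Pi.add_apply, Pi.sub_apply, i00_ep_self, i00_ep_ne _ _ (Ne.symm hj), hlast]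
          omega
        · exact i00_sl_zero E _ v hv h5
      rw [h4, map_zero, smul_zero]
    · intro h4
      exact absurd (Finset.mem_univ _) h4

end H92C
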