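import Pool.Agent.Lib.H92C.I06

/-!
# H92C, chunk I05 (M/L): the images of the operators ρ^μ span
-/

open MvPolynomial

namespace H92C

variable {K : Type} [Field K] (q : K)

theorem i05_cs {m : ℕ} (E : Fin (m + 1) → ℤ) (j : Fin m) : (E + ep (Fin.last m)) j.castSucc = E j.castSucc := by
  rw [Pi.add_apply, i00_ep_ne _ _ (Fin.castSucc_lt_last j).ne, add_zero]

theorem i05_il {m : ℕ} (E : Fin (m + 1) → ℤ) (F : Fin m → ℤ) (h : Il (E + ep (Fin.last m)) F) (hne : ∀ j, F j ≠ E (Fin.last m)) :
    Il E F := by
  intro j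
  have h1 := h j
  rw [i05_cs] at h1
  refine ⟨h1.1, ?_⟩
  by_cases hj : j.succ = Fin.last m
  · have h2 := h1.2
    rw [Pi.add_apply, hj, i00_ep_self] at h2
    have h3 := hne j
    rw [hj]
    omega
  · have h2 := h1.2
    rw [Pi.add_apply, i00_ep_ne _ _ hj, add_zero] at h2
    exact h2

/-- Step 0: the top operator. -/
theorem i05_top (hq0 : q ≠ 0) (hq : ∀ j : ℕ, 0 < j → q ^ j ≠ 1) {m : ℕ} (E : Fin (m + 1) → ℤ) (u : W K (m + 1))
    (hu : u ∈ U K (m + 1) (E + ep (Fin.last m))) (h : ∀ c, u c ≠ 0 → ∀ j, c.1 j ≠ E (Fin.last m)) :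
    ∃ v ∈ U K (m + 1) E, u = ro q (m + 1) E (Fin.last m) v := by
  have hgd : ∀ c, u c ≠ 0 → Il (E + ep (Fin.last m)) c.1 ∧ gd m c.1 c.2 := by
    intro c hc
    by_contra hcon
    exact hc (hu c hcon)
  refine ⟨fun c => (th q (zq q (E (Fin.last m))) c.1)⁻¹ * u c, ?_, ?_⟩
  · intro c hc
    show (th q (zq q (E (Fin.last m))) c.1)⁻¹ * u c = 0
    by_cases huc : u c = 0
    · rw [huc, mul_zero]
    · exfalso
      have h1 := hgd c huc
      exact hc ⟨i05_il E c.1 h1.1 (h c huc), h1.2⟩
  · funext c
    rw [i06_ro]
    by_cases huc : u c = 0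
    · rw [huc]
      simp
    · rw [if_pos (hgd c huc).1]
      show u c = th q (zq q (E (Fin.last m))) c.1 * ((th q (zq q (E (Fin.last m))) c.1)⁻¹ * u c)
      rw [← mul_assoc, mul_inv_cancel₀ (i06_th_ne q hq0 hq _ _ (h c huc)), one_mul]

/-- The slices of a non top operator applied to a vector supported on one row. -/
theorem i05_slice (μ : ℕ) {m : ℕ} (hμ : μ ≠ m + 1) (E : Fin (m + 1) → ℤ) (k : Fin (m + 1)) (F' : Fin m → ℤ) (v' : W K m) (G : Fin m → ℤ)
    (hG : Il (E + ep k) G) : sl G (ro q μ E k (sg F' v')) =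
      ∑ b, LL (zq q) b (zq q (E k)) (G - ep b) • tr m G (PR q μ m (zq q (G b - 1)) (sl (G - ep b) (sg F' v'))) := by
  funext c
  show (if Il (E + ep k) G then PR q μ (m + 1) (zq q (E k)) (sg F' v') (G, c) else 0) = _
  rw [if_pos hG]
  show (if μ = m + 1 then _ else _) = _
  rw [if_neg hμ, Finset.sum_apply]
  rfl

theorem i05_slice_zero (μ : ℕ) {m : ℕ} (hμ : μ ≠ m + 1) (E : Fin (m + 1) → ℤ) (k : Fin (m + 1)) (F' : Fin m → ℤ) (v' : W K m) (G : Fin m → ℤ)
    (hG : ∀ b, G - ep b ≠ F') : sl G (ro q μ E k (sg F' v')) = 0 := by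
  by_cases hIl : Il (E + ep k) G
  · rw [i05_slice q μ hμ E k F' v' G hIl]
    apply Finset.sum_eq_zero
    intro b _
    rw [i00_sl_sg_ne F' (G - ep b) (hG b), map_zero, map_zero, smul_zero]
  · funext c
    show (if Il (E + ep k) G then PR q μ (m + 1) (zq q (E k)) (sg F' v') (G, c) else 0) = _
    rw [if_neg hIl]
    rfl

theorem i05_slice_one (μ : ℕ) {m : ℕ} (hμ : μ ≠ m + 1) (E : Fin (m + 1) → ℤ) (k : Fin (m + 1)) (F' : Fin m → ℤ) (v' : W K m) (j : Fin m)
    (hG : Il (E + ep k) (F' + ep j)) :
    sl (F' + ep j) (ro q μ E k (sg F' v')) = LL (zq q) j (zq q (E k)) F' • ro q μ F' j v' := by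
  rw [i05_slice q μ hμ E k F' v' _ hG, Finset.sum_eq_single j]
  · have h1 : F' + ep j - ep j = F' := add_sub_cancel_right _ _
    have h2 : (F' + ep j) j - 1 = F' j := by
      rw [Pi.add_apply, i00_ep_self]; ring
    rw [h1, h2, i00_sl_sg]
    rfl
  · intro b _ hb
    rw [i00_sl_sg_ne, map_zero, map_zero, smul_zero]
    intro h
    apply hb
    apply i00_ep_inj
    have h3 : F' + ep j = F' + ep b := by
      rw [sub_eq_iff_eq_add] at h
      exact h
    exact (add_left_cancel h3).symm
  · intro h
    exact absurd (Finset.mem_univ _) h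

theorem i05_LL (hq0 : q ≠ 0) (hq : ∀ j : ℕ, 0 < j → q ^ j ≠ 1) {m : ℕ} (F : Fin m → ℤ) (hF : StrictMono F) (j : Fin m) (e : ℤ)
    (he : ∀ c, c ≠ j → F c ≠ e) : LL (zq q) j (zq q e) F ≠ 0 := by
  unfold LL
  rw [Finset.prod_ne_zero_iff]
  intro c hc
  have hcj : c ≠ j := (Finset.mem_erase.1 hc).1
  apply div_ne_zero
  · rw [sub_ne_zero]
    intro h
    exact he c hcj (i00_inj q hq0 hq h).symm
  · rw [sub_ne_zero]
    intro h
    exact hcj (hF.injective (i00_inj q hq0 hq h)).symm

/-- I.2 (iv). Induction on m. Let k = last, w = zq (E k), Sp := the span on the right hand side.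
 Step 0 (top operator): if u ∈ U (E + ep k) vanishes at all chains c with c.1 k' = E k for k' = last of the row c.1 (no condition if m = 0), then u = ro (m+1) E k v with v c := (th w c.1)⁻¹ * u c (i06_ro): if u c ≠ 0
 then Il (E + ep k) c.1, so all entries of c.1 are < E k + 1 and ≠ E k, hence < E k, so Il E c.1 (v ∈ U E) and th w c.1 ≠ 0 (i06_th_ne). So u ∈ Sp (μ = m + 1).
 m = 0: Step 0 applies to all u (Fin 0 is empty; U (E + ep k) and U E are everything).
 m + 1 (write n = m + 1, so E : Fin (n + 1) → ℤ and the rows are F : Fin n → ℤ, last : Fin n): u = ∑ F ∈ IF (E + ep k), sg F (sl F u) (i01_slices), Sp is a submodule, so let u = sg F u', u' ∈ U F (i00_sl), Il (E + ep k) F. If F last ≠ E k: Step 0. If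
 F last = E k: put F' := F - ep last, Il E F' (at last: E k - 1 ≥ E last.castSucc, < E k), so F' is strictly increasing (i01_sm) and F = F' + ep last. Induction hypothesis for F': u' ∈ span of the ro μ F' last v', 1 ≤ μ ≤ m + 1, v' ∈ U F'.
 By Submodule.span_induction it suffices: sg F (ro μ F' last v') ∈ Sp (sg F is linear). Put v := sg F' v' ∈ U E (i00_sg) and y := ro μ E k v (μ ≤ m + 1 < m + 2 = level), y ∈ Sp, y ∈ U (E + ep k) (i03_ro). For a row G with Il (E + ep k) G (unfold ro, PR, μ ≠ level):
 sl G y = ∑ b, LL b w (G - ep b) • tr G (PR μ n (zq (G b - 1)) (sl (G - ep b) v)), and sl (G - ep b) v = 0 unless G - ep b = F' (i00_sl_sg_ne). If G = F: only b = last contributes (F - ep b = F - ep last iff b = last, i00_ep_inj), with the value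
 LL last w F' • ro μ F' last v' (as F last - 1 = F' last). If G ≠ F, then sl G y ≠ 0 forces G = F' + ep b with b ≠ last, so G last = E k - 1 ≠ E k. Hence y - LL last w F' • sg F (ro μ F' last v') ∈ U (E + ep k) vanishes on the rows with last entry E k (on F by the value above, on the others
 because sl G y = 0) and is in Sp by Step 0. And LL last w F' = ∏_{c ≠ last} (w - zq (F' c)) / (zq (F' last) - zq (F' c)) ≠ 0: F' c < F' last = E k - 1 < E k. So sg F (..) ∈ Sp. -/
theorem i05_span (hq0 : q ≠ 0) (hq : ∀ j : ℕ, 0 < j → q ^ j ≠ 1) : ∀ (m : ℕ) (E : Fin (m + 1) → ℤ), StrictMono E →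
    ∀ u ∈ U K (m + 1) (E + ep (Fin.last m)),
      u ∈ Submodule.span K {u' : W K (m + 1) | ∃ μ, 1 ≤ μ ∧ μ ≤ m + 1 ∧ ∃ v ∈ U K (m + 1) E, u' = ro q μ E (Fin.last m) v} := by
  intro m
  induction m with
  | zero =>
    intro E hE u hu
    obtain ⟨v, hv, huv⟩ := i05_top q hq0 hq E u hu (fun c _ j => j.elim0)
    exact Submodule.subset_span ⟨1, le_refl _, le_refl _, v, hv, huv⟩
  | succ m ih =>
    intro E hE u hu
    set k := Fin.last (m + 1) with hk
    set Sp := Submodule.span K {u' : W K (m + 1 + 1) | ∃ μ, 1 ≤ μ ∧ μ ≤ m + 1 + 1 ∧ ∃ v ∈ U K (m + 1 + 1) E, u' = ro q μ E k v} with hSp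
    have htop : ∀ w ∈ U K (m + 1 + 1) (E + ep k), (∀ c, w c ≠ 0 → ∀ j, c.1 j ≠ E k) → w ∈ Sp := by
      intro w hw h
      obtain ⟨v, hv, huv⟩ := i05_top q hq0 hq E w hw h
      exact Submodule.subset_span ⟨m + 1 + 1, by omega, le_refl _, v, hv, huv⟩
    have hEk : ∀ j : Fin (m + 1), E j.castSucc < E k := fun j => hE (Fin.castSucc_lt_last j)
    rw [i01_slices _ u hu]
    apply Submodule.sum_mem
    intro F hF
    rw [mem_IF] at hF
    have hFm : StrictMono F := i01_sm _ F hF
    have hu' : sl F u ∈ U K (m + 1) F := i00_sl _ F u hu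
    generalize sl F u = u' at hu'
    by_cases hlast : F (Fin.last m) = E k
    · -- the last entry is maximal
      have hF'il : Il E (F - ep (Fin.last m)) := by
        intro j
        have h1 := hF j
        rw [hk, i05_cs] at h1
        by_cases hj : j = Fin.last m
        · subst hj
          rw [Pi.sub_apply, i00_ep_self, hlast]
          have h2 := hEk (Fin.last m)
          refine ⟨by omega, ?_⟩
          show E k - 1 < E (Fin.last m).succ
          rw [Fin.succ_last]
          exact sub_one_lt _
        · rw [Pi.sub_apply, i00_ep_ne _ _ hj, sub_zero]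
          refine ⟨h1.1, ?_⟩
          have hj2 : j.succ ≠ Fin.last (m + 1) := by
            intro h
            apply hj
            rw [← Fin.succ_last] at h
            exact Fin.succ_injective _ h
          have h2 := h1.2
          rw [Pi.add_apply, i00_ep_ne _ _ hj2, add_zero] at h2
          exact h2
      set F' := F - ep (Fin.last m) with hF'
      have hFF' : F' + ep (Fin.last m) = F := sub_add_cancel _ _
      have hF'm : StrictMono F' := i01_sm _ F' hF'il
      have hF'last : F' (Fin.last m) = E k - 1 := by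
        rw [hF', Pi.sub_apply, i00_ep_self, hlast]
      have hF'lt : ∀ c, F' c < E k := by
        intro c
        have h1 := hF'm.monotone (Fin.le_last c)
        omega
      have h1 := ih F' hF'm u' (by rw [hFF']; exact hu')
      refine Submodule.span_induction (p := fun x _ => sg F x ∈ Sp) ?_ ?_ ?_ ?_ h1
      · rintro x ⟨μ, hμ1, hμ2, v', hv', rfl⟩
        have hμ : μ ≠ m + 1 + 1 := by omega
        have hy : ro q μ E k (sg F' v') ∈ Sp :=
          Submodule.subset_span ⟨μ, hμ1, by omega, sg F' v', i00_sg E F' v' hv' hF'il, rfl⟩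
        have hyU : ro q μ E k (sg F' v') ∈ U K (m + 1 + 1) (E + ep k) :=
          i03_ro q μ E k _ (i00_sg E F' v' hv' hF'il)
        have hslF : sl F (ro q μ E k (sg F' v')) = LL (zq q) (Fin.last m) (zq q (E k)) F' • ro q μ F' (Fin.last m) v' := by
          have h2 := i05_slice_one q μ hμ E k F' v' (Fin.last m) (by rw [hFF']; exact hF)
          rw [hFF'] at h2
          exact h2
        have hLL : LL (zq q) (Fin.last m) (zq q (E k)) F' ≠ 0 :=
          i05_LL q hq0 hq F' hF'm _ _ (fun c _ => (hF'lt c).ne)
        have hroU : ro q μ F' (Fin.last m) v' ∈ U K (m + 1) F := by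
          have h2 := i03_ro q μ F' (Fin.last m) v' hv'
          rw [hFF'] at h2
          exact h2
        have hdiff : ro q μ E k (sg F' v') - LL (zq q) (Fin.last m) (zq q (E k)) F' • sg F (ro q μ F' (Fin.last m) v') ∈ Sp := by
          apply htop
          · apply Submodule.sub_mem _ hyU
            apply Submodule.smul_mem
            exact i00_sg _ F _ hroU hF
          · intro c hc j hj
            apply hc
            -- the row c.1 has an entry E k, so it is the last one
            have hsl : ∀ G c', (ro q μ E k (sg F' v')) (G, c') = sl G (ro q μ E k (sg F' v')) c' := fun _ _ => rfl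
            obtain ⟨G, c'⟩ := c
            have hj' : G j = E k := hj
            show (ro q μ E k (sg F' v')) (G, c') - LL (zq q) (Fin.last m) (zq q (E k)) F' * (if G = F then ro q μ F' (Fin.last m) v' c' else 0) = 0
            rw [hsl]
            by_cases hGF : G = F
            · rw [if_pos hGF, hGF, hslF]
              show LL (zq q) (Fin.last m) (zq q (E k)) F' * ro q μ F' (Fin.last m) v' c' - _ = 0
              rw [sub_self]
            · rw [if_neg hGF, i05_slice_zero q μ hμ E k F' v' G]
              · simp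
              · intro b hb
                have hG : G = F' + ep b := by
                  rw [sub_eq_iff_eq_add] at hb
                  exact hb
                have hbl : b ≠ Fin.last m := by
                  intro h
                  apply hGF
                  rw [hG, h, hFF']
                have h3 : G j = F' j + ep b j := by rw [hG]; rfl
                by_cases hjb : j = b
                · rw [hjb, i00_ep_self] at h3
                  have h4 : F' b < F' (Fin.last m) := hF'm (lt_of_le_of_ne (Fin.le_last b) hbl)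
                  rw [hjb] at hj'
                  omega
                · rw [i00_ep_ne _ _ hjb] at h3
                  have h4 := hF'lt j
                  omega
        have h4 : LL (zq q) (Fin.last m) (zq q (E k)) F' • sg F (ro q μ F' (Fin.last m) v') ∈ Sp := by
          have h5 := Submodule.sub_mem _ hy hdiff
          rwa [sub_sub_cancel] at h5
        have h6 := Submodule.smul_mem Sp (LL (zq q) (Fin.last m) (zq q (E k)) F')⁻¹ h4
        rwa [smul_smul, inv_mul_cancel₀ hLL, one_smul] at h6
      · rw [map_zero]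
        exact Submodule.zero_mem _
      · intro x y _ _ hx hy
        rw [map_add]
        exact Submodule.add_mem _ hx hy
      · intro t x _ hx
        rw [map_smul]
        exact Submodule.smul_mem _ _ hx
    · -- the last entry is smaller
      apply htop
      · exact i00_sg _ F _ hu' hF
      · intro c hc j hj
        obtain ⟨G, c'⟩ := c
        have hj' : G j = E k := hj
        by_cases hGF : G = F
        · rw [hGF] at hj'
          have h1 := hFm.monotone (Fin.le_last j)
          have h2 := (hF (Fin.last m)).2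
          rw [Pi.add_apply, Fin.succ_last, ← hk, i00_ep_self] at h2
          omega
        · apply hc
          show (if G = F then _ else 0) = _
          rw [if_neg hGF]

end H92C
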