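import Pool.Agent.Lib.H92C.I02
import Pool.Agent.Lib.H92C.I04
import Pool.Agent.Lib.H92C.I05

/-!
# H92C, chunk I15 (M): moving the last entry up and down
-/

open MvPolynomial

namespace H92C

variable {K : Type} [Field K] (q : K)

theorem i15_r1 {n : ℕ} (c : Ch n) (u : W K n) : r1 c u (Pi.single c 1) = u := by
  show (Pi.single c 1 : W K n) c • u = u
  rw [Pi.single_eq_same, one_smul]

theorem i15_r1_mem {n : ℕ} (E : Fin n → ℤ) (c : Ch n) (u v : W K n) (hu : u ∈ U K n E) : r1 c u v ∈ U K n E :=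
  Submodule.smul_mem _ _ hu

theorem i15_zero_of {n : ℕ} {c0 : Ch n} {w : W K n} (h : ∀ c, r1 c (Pi.single c0 1) w = 0) : w = 0 := by
  funext c
  have h1 := congrFun (h c) c0
  have h2 : w c * (Pi.single c0 1 : W K n) c0 = 0 := h1
  rwa [Pi.single_eq_same, mul_one] at h2

theorem i15_mono {m : ℕ} {E : Fin (m + 1) → ℤ} (hm : StrictMono E) : StrictMono (E + ep (Fin.last m)) := by
  intro i j hij
  have h1 := hm hij
  have hi : i ≠ Fin.last m := fun hc => by
    rw [hc] at hij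
    exact absurd hij (not_lt.2 (Fin.le_last _))
  rw [Pi.add_apply, Pi.add_apply, i00_ep_ne _ _ hi, add_zero]
  have h2 : 0 ≤ ep (Fin.last m) j := by
    by_cases hj : j = Fin.last m
    · rw [hj, i00_ep_self]
      exact zero_le_one
    · rw [i00_ep_ne _ _ hj]
  omega

theorem i15_gd {m : ℕ} (E : Fin (m + 1) → ℤ) (c : Ch (m + 1)) (h : gd (m + 1) (E - ep (Fin.last m)) c) :
    gd (m + 1) E c := by
  refine ⟨fun j => ?_, h.2⟩
  have h1 := h.1 j
  rw [Pi.sub_apply, Pi.sub_apply, i00_ep_ne _ _ (Fin.castSucc_lt_last j).ne, sub_zero] at h1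
  refine ⟨h1.1, ?_⟩
  have h2 : 0 ≤ ep (Fin.last m) j.succ := by
    by_cases hj : j.succ = Fin.last m
    · rw [hj, i00_ep_self]
      exact zero_le_one
    · rw [i00_ep_ne _ _ hj]
  omega

/-- Up. Proof. Let k = last, E1 = E + ep k, c0 a pattern under E0 (i01_ex).
First: i02_a for E0, E1. hz: ro (m+1) E k ∘ₗ 0 with 0 ∈ S E0 E (h1) and rhl (comp, congr or LinearMap.comp_zero). For u ∈ U E1: u ∈ span of the ro μ E k v, 1 ≤ μ ≤ m+1, v ∈ U E (i05_span); Submodule.span_mono: ro μ E k v = (ro μ E k ∘ₗ r1 c0 v) (Pi.single c0 1), where r1 c0 v ∈ S E0 E by h1 (r1 c0 v maps U E0 to U E), ro μ E k ∈ S E E1 by rhl,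
Pi.single c0 1 ∈ U E0 (i01_single).
Second: i02_b for E1, E0. hz: 0 = 0 ∘ₗ CC E1 k 0 (h2: 0 ∈ S E E0; cl with r = 0 < m + 1 from E1 to E1 - ep k = E (add_sub_cancel_right)). Let v ∈ U E1 be killed by all B. For r < m + 1 and every chain c: the operator r1 c (Pi.single c0 1) ∘ₗ CC E1 k r is in S E1 E0 (h2, cl) and maps U E1 to U E0, so (CC E1 k r v) c • Pi.single c0 1 = 0, i.e. (CC E1 k r v) c = 0. So
CC E1 k r v = 0 for all r < m + 1 and v = 0 by i04_ker (E1 and E1 - ep k = E strictly increasing; E1 is strictly increasing because only the last entry of E grows). -/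
theorem i15_up (hq0 : q ≠ 0) (hq : ∀ j : ℕ, 0 < j → q ^ j ≠ 1) {m : ℕ} {a b : Fin (m + 1) → ℤ}
    {S : (Fin (m + 1) → ℤ) → (Fin (m + 1) → ℤ) → (W K (m + 1) →ₗ[K] W K (m + 1)) → Prop}
    (hS : Fam q a b S) {E0 E : Fin (m + 1) → ℤ} (hE0 : Bx a b E0) (hE : Bx a b E) (hE1 : Bx a b (E + ep (Fin.last m)))
    (hm0 : StrictMono E0) (hm : StrictMono E) (h0 : Fl S E0 E0) (h1 : Fl S E0 E) (h2 : Fl S E E0) :
    Fl S E0 (E + ep (Fin.last m)) ∧ Fl S (E + ep (Fin.last m)) E0 := by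
  obtain ⟨c0, hc0⟩ := i01_ex (m + 1) E0 hm0
  have hlast : ((Fin.last m : Fin (m + 1)) : ℕ) + 1 = m + 1 := rfl
  have hz0 : S E0 E 0 := h1 0 (fun v _ => Submodule.zero_mem _)
  have hz1 : S E E0 0 := h2 0 (fun v _ => Submodule.zero_mem _)
  constructor
  · refine i02_a q hS hE0 hE1 h0 ?_ ?_
    · have h3 := hS.comp E0 E (E + ep (Fin.last m)) hE0 hE hE1 0 _ hz0
        (hS.rhl E (Fin.last m) hlast hE hE1 (m + 1) (by omega) le_rfl)
      rwa [LinearMap.comp_zero] at h3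
    · intro u hu
      refine Submodule.span_mono ?_ (i05_span q hq0 hq m E hm u hu)
      rintro u' ⟨μ, hμ1, hμ2, v, hv, rfl⟩
      refine ⟨ro q μ E (Fin.last m) ∘ₗ r1 c0 v, ?_, Pi.single c0 1, i01_single E0 c0 hc0, ?_⟩
      · exact hS.comp E0 E (E + ep (Fin.last m)) hE0 hE hE1 _ _ (h1 _ fun w _ => i15_r1_mem E c0 v w hv)
          (hS.rhl E (Fin.last m) hlast hE hE1 μ hμ1 hμ2)
      · rw [LinearMap.comp_apply, i15_r1]
  · have hback : E + ep (Fin.last m) - ep (Fin.last m) = E := add_sub_cancel_right _ _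
    have hcl : ∀ r, r < m + 1 → S (E + ep (Fin.last m)) E (CC q (E + ep (Fin.last m)) (Fin.last m) r) := by
      intro r hr
      have h3 := hS.cl (E + ep (Fin.last m)) (Fin.last m) hlast hE1 (by rw [hback]; exact hE) r hr
      rwa [hback] at h3
    refine i02_b q hS hE0 hE1 h0 ?_ ?_
    · have h3 := hS.comp (E + ep (Fin.last m)) E E0 hE1 hE hE0 _ 0 (hcl 0 (Nat.succ_pos m)) hz1
      rwa [LinearMap.zero_comp] at h3
    · intro v hv hB
      refine i04_ker q hq0 hq m (E + ep (Fin.last m)) (i15_mono hm) (by rw [hback]; exact hm) v hv ?_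
      intro r hr
      refine i15_zero_of (c0 := c0) (fun c => ?_)
      refine hB (r1 c (Pi.single c0 1) ∘ₗ CC q (E + ep (Fin.last m)) (Fin.last m) r) ?_ ?_
      · exact hS.comp (E + ep (Fin.last m)) E E0 hE1 hE hE0 _ _ (hcl r hr)
          (h2 _ fun w _ => i15_r1_mem E0 c _ w (i01_single E0 c0 hc0))
      · intro w _
        exact i15_r1_mem E0 c _ _ (i01_single E0 c0 hc0)


/-- Down. Proof. Let k = last, E1 = E - ep k, c0 a pattern under E0 (i01_ex).
First: i02_a for E0, E1. hz: tr (m+1) E1 ∘ₗ 0 (h1, lam). For u ∈ U E1: u ∈ U E (Il E1 F implies Il E F: only the last upper bound is larger) and tr (m+1) E1 u = u (i03_tr_id), so u = (tr (m+1) E1 ∘ₗ r1 c0 u) (Pi.single c0 1) is in the spanning set (Submodule.subset_span).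
Second: i02_b for E1, E0. hz: 0 ∘ₗ ro (m+1) E1 k (h2, rho or rhl from E1 to E1 + ep k = E, sub_add_cancel). Let v ∈ U E1 be killed by all B: for every chain c, r1 c (Pi.single c0 1) ∘ₗ ro (m+1) E1 k kills v, so ro (m+1) E1 k v = 0 and v = 0 by i06_inj. -/
theorem i15_down (hq0 : q ≠ 0) (hq : ∀ j : ℕ, 0 < j → q ^ j ≠ 1) {m : ℕ} {a b : Fin (m + 1) → ℤ}
    {S : (Fin (m + 1) → ℤ) → (Fin (m + 1) → ℤ) → (W K (m + 1) →ₗ[K] W K (m + 1)) → Prop}
    (hS : Fam q a b S) {E0 E : Fin (m + 1) → ℤ} (hE0 : Bx a b E0) (hE : Bx a b E) (hE1 : Bx a b (E - ep (Fin.last m)))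
    (hm0 : StrictMono E0) (hm1 : StrictMono (E - ep (Fin.last m))) (h0 : Fl S E0 E0) (h1 : Fl S E0 E) (h2 : Fl S E E0) :
    Fl S E0 (E - ep (Fin.last m)) ∧ Fl S (E - ep (Fin.last m)) E0 := by
  obtain ⟨c0, hc0⟩ := i01_ex (m + 1) E0 hm0
  have hz0 : S E0 E 0 := h1 0 (fun v _ => Submodule.zero_mem _)
  have hz1 : S E E0 0 := h2 0 (fun v _ => Submodule.zero_mem _)
  have hlam := hS.lam E (Fin.last m) hE hE1
  constructor
  · refine i02_a q hS hE0 hE1 h0 ?_ ?_
    · have h3 := hS.comp E0 E (E - ep (Fin.last m)) hE0 hE hE1 0 _ hz0 hlam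
      rwa [LinearMap.comp_zero] at h3
    · intro u hu
      have huE : u ∈ U K (m + 1) E := fun c hc => hu c (fun hc2 => hc (i15_gd E c hc2))
      refine Submodule.subset_span ⟨tr (m + 1) (E - ep (Fin.last m)) ∘ₗ r1 c0 u, ?_, Pi.single c0 1,
        i01_single E0 c0 hc0, ?_⟩
      · exact hS.comp E0 E (E - ep (Fin.last m)) hE0 hE hE1 _ _ (h1 _ fun w _ => i15_r1_mem E c0 u w huE) hlam
      · rw [LinearMap.comp_apply, i15_r1]
        exact (i03_tr_id (m + 1) (E - ep (Fin.last m)) u hu).symm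
  · have hback : E - ep (Fin.last m) + ep (Fin.last m) = E := sub_add_cancel _ _
    have hrho : S (E - ep (Fin.last m)) E (ro q (m + 1) (E - ep (Fin.last m)) (Fin.last m)) := by
      have h3 := hS.rho (E - ep (Fin.last m)) (Fin.last m) hE1 (by rw [hback]; exact hE)
      rwa [hback] at h3
    refine i02_b q hS hE0 hE1 h0 ?_ ?_
    · have h3 := hS.comp (E - ep (Fin.last m)) E E0 hE1 hE hE0 _ 0 hrho hz1
      rwa [LinearMap.zero_comp] at h3
    · intro v hv hB
      refine i06_inj q hq0 hq (E - ep (Fin.last m)) hm1 v hv ?_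
      refine i15_zero_of (c0 := c0) (fun c => ?_)
      refine hB (r1 c (Pi.single c0 1) ∘ₗ ro q (m + 1) (E - ep (Fin.last m)) (Fin.last m)) ?_ ?_
      · exact hS.comp (E - ep (Fin.last m)) E E0 hE1 hE hE0 _ _ hrho
          (h2 _ fun w _ => i15_r1_mem E0 c _ w (i01_single E0 c0 hc0))
      · intro w _
        exact i15_r1_mem E0 c _ _ (i01_single E0 c0 hc0)


end H92C
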