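import Pool.Agent.Lib.H92C.I03

/-!
# H92C, chunk I06 (S/M, 4 small lemmas): the top operator ρ
-/

open MvPolynomial

namespace H92C

variable {K : Type} [Field K] (q : K)

/-- The top operator is diagonal. (Unfold ro, tr, PR with μ = m + 1.) -/
theorem i06_ro {m : ℕ} (E : Fin (m + 1) → ℤ) (k : Fin (m + 1)) (v : W K (m + 1)) (c : Ch (m + 1)) :
    ro q (m + 1) E k v c = if Il (E + ep k) c.1 then th q (zq q (E k)) c.1 * v c else 0 := by
  show (if Il (E + ep k) c.1 then (if m + 1 = m + 1 then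
      ((zq q (E k))⁻¹ * (zq q (∑ j, c.1 j))⁻¹ * pp (zq q) c.1 (zq q (E k))) • v c else
        ∑ b, LL (zq q) b (zq q (E k)) (c.1 - ep b) •
          tr m c.1 (PR q (m + 1) m (zq q (c.1 b - 1)) (sl (c.1 - ep b) v)) c.2) else 0) = _
  rw [if_pos rfl]
  rfl

/-- Its eigenvalues are not zero if no entry of F is E k. (i00_zq_ne, Finset.prod_ne_zero_iff, i00_inj.) -/
theorem i06_th_ne (hq0 : q ≠ 0) (hq : ∀ j : ℕ, 0 < j → q ^ j ≠ 1) {m : ℕ} (e : ℤ) (F : Fin m → ℤ) (h : ∀ j, F j ≠ e) :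
    th q (zq q e) F ≠ 0 := by
  refine mul_ne_zero (mul_ne_zero (inv_ne_zero (i00_zq_ne q hq0 e)) (inv_ne_zero (i00_zq_ne q hq0 _))) ?_
  exact Finset.prod_ne_zero_iff.2 fun j _ => sub_ne_zero.2 ((i00_inj q hq0 hq).ne (h j).symm)

/-- The last entry: rows interlacing E interlace E + ε_last, and all the entries are smaller than E last. -/
theorem i06_last {m : ℕ} (E : Fin (m + 1) → ℤ) (hE : StrictMono E) (F : Fin m → ℤ) (hF : Il E F) :
    Il (E + ep (Fin.last m)) F ∧ ∀ j, F j < E (Fin.last m) := by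
  refine ⟨fun j => ⟨?_, ?_⟩, fun j => ?_⟩
  · rw [Pi.add_apply, i00_ep_ne _ _ (Fin.castSucc_lt_last j).ne, add_zero]
    exact (hF j).1
  · rw [Pi.add_apply]
    have h1 : 0 ≤ ep (Fin.last m) j.succ := by
      by_cases h : j.succ = Fin.last m
      · rw [h, i00_ep_self]
        exact zero_le_one
      · rw [i00_ep_ne _ _ h]
    have h2 := (hF j).2
    omega
  · exact (hF j).2.trans_le (hE.monotone (Fin.le_last _))

/-- The top operator ρ for the last index is injective on U E. (From the three lemmas above; for chains which are not patterns under E both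
vectors vanish.) -/
theorem i06_inj (hq0 : q ≠ 0) (hq : ∀ j : ℕ, 0 < j → q ^ j ≠ 1) {m : ℕ} (E : Fin (m + 1) → ℤ) (hE : StrictMono E)
    (v : W K (m + 1)) (hv : v ∈ U K (m + 1) E) (h : ro q (m + 1) E (Fin.last m) v = 0) : v = 0 := by
  funext c
  by_cases hc : Il E c.1
  · have h1 := congrFun h c
    obtain ⟨h2, h3⟩ := i06_last E hE c.1 hc
    rw [i06_ro, if_pos h2] at h1
    exact (mul_eq_zero.1 h1).resolve_left (i06_th_ne q hq0 hq _ _ fun j => (h3 j).ne)
  · exact hv c (fun h2 => hc h2.1)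

end H92C
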