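import Pool.Agent.Lib.H92C.I02
import Pool.Agent.Lib.H92C.I06

/-!
# H92C, chunk I16 (M): neighbouring rows with all operators
-/

open MvPolynomial

namespace H92C

variable {K : Type} [Field K] (q : K)

/-- Proof. The row F j := E j.castSucc interlaces E (E strictly increasing) and E - ep k: lower bounds: (E - ep k) i ≤ E i; upper bounds: E j.castSucc < (E - ep k) j.succ: if j.succ ≠ k this is E strictly increasing, if j.succ = k: then j.castSucc ≠ k and
E j.castSucc = (E - ep k) j.castSucc < (E - ep k) k by hm1. F is strictly increasing (i01_sm); let c' be a pattern under F (i01_ex) and c := (F, c') : Ch (m + 1), a pattern under E and under E - ep k. e := Pi.single c 1 is in U E and in U (E - ep k) (i01_single).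
First claim: i02_c with A = tr (m+1) (E - ep k) (lam): tr e = e ≠ 0 (i03_tr_id). Second claim: i02_c with A = ro (m+1) (E - ep k) k (rho: from E - ep k to E - ep k + ep k = E, sub_add_cancel): by i06_ro its value at c is th (zq (E k - 1)) F * 1 ≠ 0 by i06_th_ne: F j ≠ E k - 1 for all j: for j.castSucc < k: F j = (E - ep k) j.castSucc < (E - ep k) k = E k - 1;
for j.castSucc ≥ k: F j ≥ E k. -/
theorem i16_step (hq0 : q ≠ 0) (hq : ∀ j : ℕ, 0 < j → q ^ j ≠ 1) {m : ℕ} {a b : Fin (m + 1) → ℤ}
    {S : (Fin (m + 1) → ℤ) → (Fin (m + 1) → ℤ) → (W K (m + 1) →ₗ[K] W K (m + 1)) → Prop}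
    (hS : Fam q a b S) (E : Fin (m + 1) → ℤ) (k : Fin (m + 1)) (hE : Bx a b E) (hE1 : Bx a b (E - ep k))
    (hm : StrictMono E) (hm1 : StrictMono (E - ep k)) (h0 : Fl S E E) (h1 : Fl S (E - ep k) (E - ep k)) :
    Fl S E (E - ep k) ∧ Fl S (E - ep k) E := by
  have hIl : Il E (fun j => E j.castSucc) := fun j => ⟨le_rfl, hm (Fin.castSucc_lt_succ)⟩
  have hIl1 : Il (E - ep k) (fun j => E j.castSucc) := by
    intro j
    constructor
    · have h2 : 0 ≤ ep k j.castSucc := by
        by_cases hj : j.castSucc = k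
        · rw [hj, i00_ep_self]
          exact zero_le_one
        · rw [i00_ep_ne _ _ hj]
      show (E - ep k) j.castSucc ≤ E j.castSucc
      rw [Pi.sub_apply]
      omega
    · show E j.castSucc < (E - ep k) j.succ
      by_cases hj : j.succ = k
      · have h2 : j.castSucc ≠ k := by
          rw [← hj]
          exact (Fin.castSucc_lt_succ).ne
        have h3 := hm1 (Fin.castSucc_lt_succ (i := j))
        rw [Pi.sub_apply, i00_ep_ne _ _ h2, sub_zero] at h3
        exact h3
      · rw [Pi.sub_apply, i00_ep_ne _ _ hj, sub_zero]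
        exact hm (Fin.castSucc_lt_succ)
  obtain ⟨c', hc'⟩ := i01_ex m (fun j => E j.castSucc) (i01_sm E _ hIl)
  obtain ⟨c, hc⟩ : ∃ c : Ch (m + 1), c = ((fun j => E j.castSucc), c') := ⟨_, rfl⟩
  have hg : gd (m + 1) E c := by
    rw [hc]
    exact ⟨hIl, hc'⟩
  have hg1 : gd (m + 1) (E - ep k) c := by
    rw [hc]
    exact ⟨hIl1, hc'⟩
  have he : (Pi.single c 1 : W K (m + 1)) ∈ U K (m + 1) E := i01_single E c hg
  have he1 : (Pi.single c 1 : W K (m + 1)) ∈ U K (m + 1) (E - ep k) := i01_single (E - ep k) c hg1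
  constructor
  · refine i02_c q hS hE hE1 h0 h1 _ (hS.lam E k hE hE1) (Pi.single c 1) he ?_
    rw [i03_tr_id (m + 1) (E - ep k) _ he1]
    intro h2
    have h3 := congrFun h2 c
    rw [Pi.single_eq_same] at h3
    exact one_ne_zero h3
  · have hback : E - ep k + ep k = E := sub_add_cancel _ _
    have hrho : S (E - ep k) E (ro q (m + 1) (E - ep k) k) := by
      have h3 := hS.rho (E - ep k) k hE1 (by rw [hback]; exact hE)
      rwa [hback] at h3
    refine i02_c q hS hE1 hE h1 h0 _ hrho (Pi.single c 1) he1 ?_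
    intro h2
    have h3 := congrFun h2 c
    rw [i06_ro, hback, if_pos hg.1, Pi.single_eq_same, mul_one] at h3
    refine i06_th_ne q hq0 hq _ c.1 ?_ h3
    intro j hj
    rw [hc] at hj
    have hj' : E j.castSucc = (E - ep k) k := hj
    have hk : (E - ep k) k = E k - 1 := by
      rw [Pi.sub_apply, i00_ep_self]
    rcases lt_or_ge j.castSucc k with hlt | hge
    · have h4 := hm1 hlt
      rw [Pi.sub_apply, i00_ep_ne _ _ hlt.ne, sub_zero] at h4
      omega
    · have h4 := hm.monotone hge
      omega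


end H92C
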