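import Pool.Agent.Lib.H92C.I00

/-!
# H92C, chunk I17 (M, pure combinatorics): the box is connected
-/

namespace H92C

/-- R is a symmetric transitive relation on the rows of the box; it is reflexive at the rows with last entry t0 (good rows), relates good rows E, E - ε_k (k not last), and if a good row E0 is related to E, it is related to E ± ε_last (as long as these are in the box). Then R relates all rows of the box. Proof.
(1) For E in the box let g E := Function.update E last t0 (good, in the box). R (g E) E: write E = g E + (E last - t0) • ep last; induction on the natural number |E last - t0| with hup / hdown (all intermediate rows have the same other entries and their last entry is between t0 and E last, so they are in the box).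
(2) Good rows: let G0 := the row with the entries a j (j not last) and t0 (in the box). R E G0 for every good E of the box: strong induction on the natural number ∑_j (E j - G0 j).toNat: if E = G0: reflexive; otherwise there is k ≠ last with E k > a k, E - ep k is a good row of the box with a smaller sum,
R E (E - ep k) by hgood, transitivity.
(3) R E E' : E ~ g E ~ G0 ~ g E' ~ E'. -/
theorem i17_conn {m : ℕ} (a b : Fin (m + 1) → ℤ) (t0 : ℤ) (ha : ∀ j, a j < b j) (ht : a (Fin.last m) ≤ t0) (ht' : t0 < b (Fin.last m))
    (R : (Fin (m + 1) → ℤ) → (Fin (m + 1) → ℤ) → Prop)
    (hsymm : ∀ E E', Bx a b E → Bx a b E' → R E E' → R E' E)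
    (htrans : ∀ E E' E'', Bx a b E → Bx a b E' → Bx a b E'' → R E E' → R E' E'' → R E E'')
    (hrefl : ∀ E, Bx a b E → E (Fin.last m) = t0 → R E E)
    (hgood : ∀ E k, k ≠ Fin.last m → Bx a b E → Bx a b (E - ep k) → E (Fin.last m) = t0 → R E (E - ep k))
    (hup : ∀ E0 E, Bx a b E0 → Bx a b E → Bx a b (E + ep (Fin.last m)) → E0 (Fin.last m) = t0 → R E0 E → R E0 (E + ep (Fin.last m)))
    (hdown : ∀ E0 E, Bx a b E0 → Bx a b E → Bx a b (E - ep (Fin.last m)) → E0 (Fin.last m) = t0 → R E0 E → R E0 (E - ep (Fin.last m))) :
    ∀ E E', Bx a b E → Bx a b E' → R E E' := by
  classical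
  set L := Fin.last m with hL
  have hg : ∀ E, Bx a b E → Bx a b (Function.update E L t0) := by
    intro E hE j
    by_cases hj : j = L
    · subst hj; simp [ht, ht']
    · simpa [Function.update_of_ne hj] using hE j
  have epL : ∀ j, j ≠ L → ep L j = 0 := fun j hj => i00_ep_ne L j hj
  have epLL : ep L L = 1 := i00_ep_self L
  -- (1)
  have up : ∀ k : ℕ, ∀ E, Bx a b E → E L = t0 + k → R (Function.update E L t0) E := by
    intro k
    induction k with
    | zero =>
      intro E hE h
      have h1 : Function.update E L t0 = E := by
        have : t0 = E L := by simpa using h.symm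
        rw [this]; exact Function.update_eq_self L E
      rw [h1]
      exact hrefl E hE (by simpa using h)
    | succ k ih =>
      intro E hE h
      have h1 : Bx a b (E - ep L) := by
        intro j
        by_cases hj : j = L
        · rw [hj]
          have h2 := (hE L).2
          rw [Pi.sub_apply, epLL, h]
          rw [h] at h2
          push_cast at h2 ⊢
          constructor <;> omega
        · rw [Pi.sub_apply, epL j hj, sub_zero]; exact hE j
      have h2 : (E - ep L) L = t0 + k := by
        rw [Pi.sub_apply, epLL, h]; push_cast; ring
      have h3 := ih _ h1 h2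
      have h4 : Function.update (E - ep L) L t0 = Function.update E L t0 := by
        funext j
        by_cases hj : j = L
        · subst hj; simp
        · simp [Function.update_of_ne hj, epL j hj]
      rw [h4] at h3
      have h5 : E - ep L + ep L = E := sub_add_cancel _ _
      have h6 := hup (Function.update E L t0) (E - ep L) (hg E hE) h1 (by rw [h5]; exact hE) (by simp) h3
      rwa [h5] at h6
  have down : ∀ k : ℕ, ∀ E, Bx a b E → E L = t0 - k → R (Function.update E L t0) E := by
    intro k
    induction k with
    | zero => intro E hE h; exact up 0 E hE (by simpa using h)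
    | succ k ih =>
      intro E hE h
      have h1 : Bx a b (E + ep L) := by
        intro j
        by_cases hj : j = L
        · rw [hj]
          have h2 := (hE L).1
          rw [Pi.add_apply, epLL, h]
          rw [h] at h2
          push_cast at h2 ⊢
          constructor <;> omega
        · rw [Pi.add_apply, epL j hj, add_zero]; exact hE j
      have h2 : (E + ep L) L = t0 - k := by
        rw [Pi.add_apply, epLL, h]; push_cast; ring
      have h3 := ih _ h1 h2
      have h4 : Function.update (E + ep L) L t0 = Function.update E L t0 := by
        funext j
        by_cases hj : j = L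
        · subst hj; simp
        · simp [Function.update_of_ne hj, epL j hj]
      rw [h4] at h3
      have h5 : E + ep L - ep L = E := add_sub_cancel_right _ _
      have h6 := hdown (Function.update E L t0) (E + ep L) (hg E hE) h1 (by rw [h5]; exact hE) (by simp) h3
      rwa [h5] at h6
  have c1 : ∀ E, Bx a b E → R (Function.update E L t0) E := by
    intro E hE
    rcases le_total t0 (E L) with h | h
    · exact up (E L - t0).toNat E hE (by rw [Int.toNat_of_nonneg (by omega)]; ring)
    · exact down (t0 - E L).toNat E hE (by rw [Int.toNat_of_nonneg (by omega)]; ring)
  -- (2)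
  have hG0 : Bx a b (Function.update a L t0) := hg a fun j => ⟨le_refl _, ha j⟩
  have c2 : ∀ n : ℕ, ∀ E, Bx a b E → E L = t0 → (∑ j, (E j - a j)) ≤ n → R E (Function.update a L t0) := by
    intro n
    induction n with
    | zero =>
      intro E hE h hs
      have h1 : E = Function.update a L t0 := by
        funext j
        by_cases hj : j = L
        · subst hj; simp [h]
        · rw [Function.update_of_ne hj]
          have h2 : ∀ i ∈ Finset.univ, 0 ≤ E i - a i := fun i _ => by have := (hE i).1; omega
          have h3 := Finset.single_le_sum h2 (Finset.mem_univ j)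
          have h4 := (hE j).1
          simp only [Nat.cast_zero] at hs
          omega
      rw [← h1]
      exact hrefl E hE h
    | succ n ih =>
      intro E hE h hs
      by_cases h1 : E = Function.update a L t0
      · rw [← h1]; exact hrefl E hE h
      · obtain ⟨k, hk⟩ := Function.ne_iff.1 h1
        have hkL : k ≠ L := by
          rintro rfl
          apply hk; simp [h]
        rw [Function.update_of_ne hkL] at hk
        have hk1 := (hE k).1
        have h2 : Bx a b (E - ep k) := by
          intro j
          by_cases hj : j = k
          · subst hj
            have := (hE j).2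
            rw [Pi.sub_apply, i00_ep_self]
            constructor <;> omega
          · rw [Pi.sub_apply, i00_ep_ne k j hj, sub_zero]; exact hE j
        have h3 : (E - ep k) L = t0 := by
          rw [Pi.sub_apply, i00_ep_ne k L (Ne.symm hkL), sub_zero, h]
        have h4 : (∑ j, ((E - ep k) j - a j)) = (∑ j, (E j - a j)) - 1 := by
          have h5 : ∀ j, (E - ep k) j - a j = (E j - a j) - ep k j := fun j => by rw [Pi.sub_apply]; ring
          rw [Finset.sum_congr rfl fun j _ => h5 j, Finset.sum_sub_distrib]
          congr 1
          rw [Finset.sum_eq_single k (fun j _ hj => i00_ep_ne k j hj) (fun h => absurd (Finset.mem_univ k) h), i00_ep_self]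
        have h5 := ih _ h2 h3 (by rw [h4]; push_cast at hs; omega)
        exact htrans _ _ _ hE h2 hG0 (hgood E k hkL hE h2 h) h5
  have c2' : ∀ E, Bx a b E → E L = t0 → R E (Function.update a L t0) := by
    intro E hE h
    refine c2 (∑ j, (E j - a j)).toNat E hE h (Int.self_le_toNat _)
  intro E E' hE hE'
  have e1 := hg E hE
  have e2 := hg E' hE'
  have r1 := hsymm _ _ e1 hE (c1 E hE)
  have r2 := c2' _ e1 (by simp)
  have r3 := hsymm _ _ e2 hG0 (c2' _ e2 (by simp))
  have r4 := c1 E' hE'
  exact htrans _ _ _ hE e2 hE' (htrans _ _ _ hE hG0 e2 (htrans _ _ _ hE e1 hG0 r1 r2) r3) r4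

end H92C
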