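import Mathlib

/-!
# H92C, chunk I19 (M, pure): the sum of Vandermonde determinants over an interlacing box
-/

namespace H92C

theorem i19_step (j : ℕ) (t : ℤ) : (descPochhammer ℤ (j + 1)).eval (t + 1) =
    (descPochhammer ℤ (j + 1)).eval t + ((j : ℤ) + 1) * (descPochhammer ℤ j).eval t := by
  have h1 : (descPochhammer ℤ (j + 1)).eval (t + 1) = (t + 1) * (descPochhammer ℤ j).eval t := by
    rw [descPochhammer_succ_left]
    simp
  have h2 : (descPochhammer ℤ (j + 1)).eval t = (descPochhammer ℤ j).eval t * (t - j) := by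
    rw [descPochhammer_succ_right]
    simp
  rw [h1, h2]
  ring

/-- Forward differences of the falling factorials: sums over an interval. Proof: for a ≤ b induction on b - a (Finset.sum_Ico..., Int.le_induction): descPochhammer ℤ (j+1) at (t+1) minus at t is (j + 1) * descPochhammer ℤ j at t (descPochhammer_succ_left / _right: (t+1) t (t-1) .. (t-j+1) - t (t-1) .. (t-j) = (j+1) t .. (t-j+1)). -/
theorem i19_sum (j : ℕ) (a b : ℤ) (hab : a ≤ b) :
    ∑ t ∈ Finset.Ico a b, ((j : ℤ) + 1) * (descPochhammer ℤ j).eval t = (descPochhammer ℤ (j + 1)).eval b - (descPochhammer ℤ (j + 1)).eval a := by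
  induction b, hab using Int.leInduction with
  | base => simp
  | succ b hab ih =>
    have h1 : Finset.Ico a (b + 1) = insert b (Finset.Ico a b) := by
      ext x
      simp only [Finset.mem_insert, Finset.mem_Ico]
      omega
    rw [h1, Finset.sum_insert (by simp), ih, i19_step]
    ring

theorem i19_V {n : ℕ} (E : Fin n → ℤ) : ∏ i, ∏ j ∈ Finset.Ioi i, (E j - E i) =
    (Matrix.of fun i j : Fin n => (descPochhammer ℤ (j : ℕ)).eval (E i)).det := by
  rw [← Matrix.det_vandermonde]
  exact Matrix.det_eval_matrixOfPolynomials_eq_det_vandermonde E (fun j => descPochhammer ℤ (j : ℕ))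
    (fun j => descPochhammer_natDegree (R := ℤ) (j : ℕ)) (fun j => monic_descPochhammer ℤ (j : ℕ))

theorem i19_fac (n : ℕ) : ∏ j : Fin n, (((j : ℕ) : ℤ) + 1) = (n.factorial : ℤ) := by
  rw [← Finset.prod_range_add_one_eq_factorial, Finset.prod_range]
  push_cast
  rfl

/-- Let V(E) = det (p_j (E_i)), p_j = descPochhammer ℤ j (monic of degree j): Matrix.det_eval_matrixOfPolynomials_eq_det_vandermonde and Matrix.det_vandermonde. Proof: subtract from every row the previous one (Matrix.det_eq_of_forall_row_eq_smul_add_pred with c = 1): the row 0 is (p_j (E_0))_j, the row i + 1 is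
(p_j (E_{i+1}) - p_j (E_i))_j, its column 0 is 0 (p_0 = 1). Expand along the column 0 (Matrix.det_succ_column_zero, only the row 0 contributes, with 1): the determinant of the n × n matrix (p_{j+1}(E_{i+1}) - p_{j+1}(E_i))_{i,j} = (∑_{t ∈ [E_i, E_{i+1})} (j + 1) p_j(t)) by i19_sum. By multilinearity in the rows (MultilinearMap.map_sum_finset for
Matrix.detRowAlternating) it is ∑ over F ∈ ∏ [E_i, E_{i+1}) of det ((j+1) p_j(F_i)) = n! det (p_j(F_i)) (Matrix.det_mul_row or det_mul_column; ∏ (j + 1) = n!) = n! V(F). -/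
theorem i19_vand {n : ℕ} (E : Fin (n + 1) → ℤ) (hE : Monotone E) :
    (n.factorial : ℤ) * ∑ F ∈ Fintype.piFinset (fun j : Fin n => Finset.Ico (E j.castSucc) (E j.succ)),
        ∏ i, ∏ j ∈ Finset.Ioi i, (F j - F i) = ∏ i, ∏ j ∈ Finset.Ioi i, (E j - E i) := by
  rw [i19_V E]
  set A : Matrix (Fin (n + 1)) (Fin (n + 1)) ℤ :=
    Matrix.of fun i j : Fin (n + 1) => (descPochhammer ℤ (j : ℕ)).eval (E i) with hA
  set B : Matrix (Fin (n + 1)) (Fin (n + 1)) ℤ := Matrix.of fun i j =>
    Fin.cases (A 0 j) (fun i' : Fin n => A i'.succ j - A i'.castSucc j) i with hB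
  have h1 : A.det = B.det := by
    refine Matrix.det_eq_of_forall_row_eq_smul_add_pred (fun _ => 1) (fun j => rfl) (fun i j => ?_)
    show A i.succ j = (A i.succ j - A i.castSucc j) + 1 * A i.castSucc j
    ring
  have hA0 : ∀ i, A i 0 = 1 := fun i => by
    show (descPochhammer ℤ 0).eval (E i) = 1
    simp
  have h2 : B.det = (Matrix.of fun i j : Fin n =>
      ∑ t ∈ Finset.Ico (E i.castSucc) (E i.succ), (((j : ℕ) : ℤ) + 1) * (descPochhammer ℤ (j : ℕ)).eval t).det := by
    rw [Matrix.det_succ_column_zero, Fin.sum_univ_succ]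
    have h3 : ∀ i : Fin n, B i.succ 0 = 0 := fun i => by
      show A i.succ 0 - A i.castSucc 0 = 0
      rw [hA0, hA0, sub_self]
    have h4 : B 0 0 = 1 := hA0 0
    have h5 : ∑ i : Fin n, (-1 : ℤ) ^ ((i.succ : Fin (n + 1)) : ℕ) * B i.succ 0 *
        (B.submatrix i.succ.succAbove Fin.succ).det = 0 :=
      Finset.sum_eq_zero fun i _ => by rw [h3 i]; ring
    rw [h5, h4]
    simp only [Fin.val_zero, pow_zero, one_mul, add_zero]
    congr 1
    ext i j
    show B ((0 : Fin (n + 1)).succAbove i) j.succ = _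
    rw [Fin.succAbove_zero]
    show A i.succ j.succ - A i.castSucc j.succ = _
    show (descPochhammer ℤ ((j.succ : Fin (n + 1)) : ℕ)).eval (E i.succ) -
      (descPochhammer ℤ ((j.succ : Fin (n + 1)) : ℕ)).eval (E i.castSucc) = _
    rw [Fin.val_succ]
    exact (i19_sum (j : ℕ) _ _ (hE (Fin.castSucc_lt_succ).le)).symm
  rw [h1, h2]
  have h6 : (Matrix.of fun i j : Fin n =>
      ∑ t ∈ Finset.Ico (E i.castSucc) (E i.succ), (((j : ℕ) : ℤ) + 1) * (descPochhammer ℤ (j : ℕ)).eval t).det =
      ∑ F ∈ Fintype.piFinset (fun j : Fin n => Finset.Ico (E j.castSucc) (E j.succ)),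
        (Matrix.of fun i j : Fin n => (((j : ℕ) : ℤ) + 1) * (descPochhammer ℤ (j : ℕ)).eval (F i)).det := by
    have h7 := (Matrix.detRowAlternating (n := Fin n) (R := ℤ)).toMultilinearMap.map_sum_finset
      (fun (i : Fin n) (t : ℤ) => fun j : Fin n => (((j : ℕ) : ℤ) + 1) * (descPochhammer ℤ (j : ℕ)).eval t)
      (fun j : Fin n => Finset.Ico (E j.castSucc) (E j.succ))
    have h8 : (Matrix.of fun i j : Fin n =>
        ∑ t ∈ Finset.Ico (E i.castSucc) (E i.succ), (((j : ℕ) : ℤ) + 1) * (descPochhammer ℤ (j : ℕ)).eval t) =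
        fun i : Fin n => ∑ t ∈ Finset.Ico (E i.castSucc) (E i.succ),
          (fun j : Fin n => (((j : ℕ) : ℤ) + 1) * (descPochhammer ℤ (j : ℕ)).eval t) := by
      funext i j
      rw [Finset.sum_apply]
      rfl
    rw [h8]
    exact h7
  rw [h6, Finset.mul_sum]
  refine Finset.sum_congr rfl fun F _ => ?_
  rw [i19_V F, ← i19_fac n]
  exact (Matrix.det_mul_row (fun j : Fin n => (((j : ℕ) : ℤ) + 1))
    (Matrix.of fun i j : Fin n => (descPochhammer ℤ (j : ℕ)).eval (F i))).symm

end H92C
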