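import Pool.Agent.Lib.H92C.I01
import Pool.Agent.Lib.H92C.I19

/-!
# H92C, chunk I20 (S/M): the dimension formula
-/

open MvPolynomial

namespace H92C

/-- Recursion. Proof: the patterns under E are the pairs (F, c), F ∈ IF E, c a pattern under F. (E.g. an equivalence of {c : Ch (n+1) // gd (n+1) E c} with Σ F : IF E, {c : Ch n // gd n F c}, all finite by i01_fin; Nat.card_sigma.) -/
theorem i20_rec {n : ℕ} (E : Fin (n + 1) → ℤ) : uu E = ∑ F ∈ IF E, uu F := by
  have e : {c : Ch (n + 1) // gd (n + 1) E c} ≃ Σ F : IF E, {c : Ch n // gd n F.1 c} :=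
    { toFun := fun c => ⟨⟨c.1.1, (mem_IF E c.1.1).2 c.2.1⟩, ⟨c.1.2, c.2.2⟩⟩
      invFun := fun p => ⟨(p.1.1, p.2.1), (mem_IF E p.1.1).1 p.1.2, p.2.2⟩
      left_inv := fun c => rfl
      right_inv := fun p => rfl }
  haveI : ∀ F : IF E, Finite {c : Ch n // gd n F.1 c} := fun F => (i01_fin n F.1).to_subtype
  unfold uu
  rw [Nat.card_congr e, Nat.card_sigma]
  exact Finset.sum_coe_sort (IF E) (fun F => Nat.card {c : Ch n // gd n F c})

/-- Proof: induction on n. n = 0: uu E = 1 (Ch 0 = Unit). n + 1: i20_rec, Finset.prod_range_succ, the induction hypothesis for the F ∈ IF E (mem_IF, i01_sm: strictly increasing), i19_vand (IF E is by definition the piFinset there). -/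
theorem i20_dim {n : ℕ} (E : Fin n → ℤ) (hE : StrictMono E) :
    (uu E : ℤ) * ∏ k ∈ Finset.range n, (k.factorial : ℤ) = ∏ i, ∏ j ∈ Finset.Ioi i, (E j - E i) := by
  induction n with
  | zero =>
    have h1 : uu E = 1 := by
      unfold uu
      haveI : Unique {c : Ch 0 // gd 0 E c} :=
        { default := ⟨(), trivial⟩
          uniq := fun c => rfl }
      exact Nat.card_unique
    rw [h1]
    simp
  | succ n ih =>
    rw [Finset.prod_range_succ, ← i19_vand E hE.monotone, i20_rec]
    have h1 : ∀ F ∈ IF E, (uu F : ℤ) * ∏ k ∈ Finset.range n, (k.factorial : ℤ) =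
        ∏ i, ∏ j ∈ Finset.Ioi i, (F j - F i) := fun F hF =>
      ih F (i01_sm E F ((mem_IF E F).1 hF))
    have h2 : ∑ F ∈ Fintype.piFinset (fun j : Fin n => Finset.Ico (E j.castSucc) (E j.succ)),
        ∏ i, ∏ j ∈ Finset.Ioi i, (F j - F i) = (∑ F ∈ IF E, (uu F : ℤ)) *
          ∏ k ∈ Finset.range n, (k.factorial : ℤ) := by
      rw [Finset.sum_mul]
      exact (Finset.sum_congr rfl h1).symm
    rw [h2]
    push_cast
    ring

end H92C
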