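import Pool.Agent.Lib.H92C.I10
import Pool.Agent.Lib.H92C.I13
import Pool.Agent.Lib.H92C.I14
import Pool.Agent.Lib.H92C.I15
import Pool.Agent.Lib.H92C.I16
import Pool.Agent.Lib.H92C.I17
import Pool.Agent.Lib.H92C.I20

/-!
# H92C, module I: exports (irreducibility)
-/

open MvPolynomial

namespace H92C

variable {K : Type} [Field K] (q : K)

theorem i18_sm {n : ℕ} {a b : Fin n → ℤ} (hba : ∀ i j : Fin n, i < j → b i ≤ a j) (E : Fin n → ℤ) (hE : Bx a b E) : StrictMono E := by
  intro i j hij
  have h1 := (hE i).2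
  have h2 := (hE j).1
  have h3 := hba i j hij
  omega

theorem i18_ell_nonneg : ∀ n : ℕ, 0 ≤ ell n
  | 0 => le_refl _
  | n + 1 => by
    have h := i18_ell_nonneg n
    show 0 ≤ ell n + n + 3
    omega

theorem i18_all (hq0 : q ≠ 0) (hq : ∀ j : ℕ, 0 < j → q ^ j ≠ 1) : ∀ (n : ℕ) (a b : Fin n → ℤ), (∀ j, a j < b j) →
    (∀ i j : Fin n, i < j → b i ≤ a j) → (∀ k : Fin n, (k : ℕ) + 1 = n → ell n ≤ b k - a k) →
    ∀ (S : (Fin n → ℤ) → (Fin n → ℤ) → (W K n →ₗ[K] W K n) → Prop), Fam q a b S →
    ∀ E E' : Fin n → ℤ, Bx a b E → Bx a b E' → Fl S E E' := by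
  intro n
  induction n with
  | zero =>
    intro a b hab hba hl S hS E E' hE hE' A hA
    have hEE : E' = E := Subsingleton.elim _ _
    subst hEE
    have h1 := hS.smul E' E' hE hE' (A 1 ()) _ (hS.one E' hE)
    refine hS.congr E' E' hE hE' _ _ h1 ?_
    intro v _
    have hv : v = v () • (1 : W K 0) := by
      funext c
      show v c = v () * 1
      rw [mul_one]
      rfl
    have hA1 : A v = v () • A 1 := by
      conv_lhs => rw [hv, map_smul]
    rw [hA1]
    funext c
    show A 1 () * v c = v () * A 1 c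
    rw [mul_comm]
    rfl
  | succ m ih =>
    intro a b hab hba hl S hS
    have hsm := fun E (hE : Bx a b E) => i18_sm hba E hE
    have hl' : ell m + m + 3 ≤ b (Fin.last m) - a (Fin.last m) := hl (Fin.last m) (by simp)
    have hell := i18_ell_nonneg m
    have hlast : ∀ E k, Bx a b E → k ≠ Fin.last m → E k < a (Fin.last m) := by
      intro E k hE hk
      have h1 := hba k (Fin.last m) (lt_of_le_of_ne (Fin.le_last k) hk)
      have h2 := (hE k).2
      omega
    -- good rows
    have hgood : ∀ E, Bx a b E → E (Fin.last m) = a (Fin.last m) + ell m → Fl S E E := by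
      intro E hE hEl
      have hE1 : Bx a b (E + ep (Fin.last m)) := by
        intro j
        by_cases hj : j = Fin.last m
        · subst hj
          rw [Pi.add_apply, i00_ep_self]
          have h1 := hE (Fin.last m)
          constructor
          · omega
          · rw [hEl]; omega
        · rw [Pi.add_apply, i00_ep_ne _ _ hj, add_zero]
          exact hE j
      have hp : ∀ F, Il E F → S E E (sg F ∘ₗ sl F) := by
        intro F hF
        exact i10_proj q hq0 hq hS E hE (hsm E hE) (by rw [hEl]; omega) F hF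
      have hfam := i13_fam q hq0 hq hS E hE hE1 (hsm E hE) hp
      refine i14_full q hS E hE ?_
      intro F F' hF hF' A hA
      refine ih (fun j : Fin m => E j.castSucc) (fun j : Fin m => E j.succ) ?_ ?_ ?_ _ hfam F F' hF hF' A hA
      · intro j
        exact hsm E hE (Fin.castSucc_lt_succ)
      · intro i j hij
        show E i.succ ≤ E j.castSucc
        apply (hsm E hE).monotone
        rw [Fin.le_def]
        simp
        exact hij
      · intro k hk
        show ell m ≤ E k.succ - E k.castSucc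
        have hks : k.succ = Fin.last m := by
          apply Fin.ext
          simp
          exact hk
        have hkc : k.castSucc ≠ Fin.last m := by
          intro h
          have := congrArg Fin.val h
          simp at this
          omega
        rw [hks, hEl]
        have := hlast E k.castSucc hE hkc
        omega
    -- connectivity
    have hconn := i17_conn a b (a (Fin.last m) + ell m) hab (by omega) (by omega)
      (fun E E' => Fl S E E' ∧ Fl S E' E) ?_ ?_ ?_ ?_ ?_ ?_
    · intro E E' hE hE'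
      exact (hconn E E' hE hE').1
    · intro E E' _ _ h
      exact ⟨h.2, h.1⟩
    · intro E E' E'' hE hE' hE'' h1 h2
      exact ⟨i02_d q hS hE hE' hE'' (hsm E' hE') h1.1 h2.1, i02_d q hS hE'' hE' hE (hsm E' hE') h2.2 h1.2⟩
    · intro E hE hEl
      exact ⟨hgood E hE hEl, hgood E hE hEl⟩
    · intro E k hk hE hE1 hEl
      refine i16_step q hq0 hq hS E k hE hE1 (hsm E hE) (hsm _ hE1) (hgood E hE hEl) (hgood _ hE1 ?_)
      rw [Pi.sub_apply, i00_ep_ne _ _ (Ne.symm hk), sub_zero]
      exact hEl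
    · intro E0 E hE0 hE hE1 hEl h
      exact i15_up q hq0 hq hS hE0 hE hE1 (hsm E0 hE0) (hsm E hE) (hgood E0 hE0 hEl) h.1 h.2
    · intro E0 E hE0 hE hE1 hEl h
      exact i15_down q hq0 hq hS hE0 hE hE1 (hsm E0 hE0) (hsm _ hE1) (hgood E0 hE0 hEl) h.1 h.2

/-- Irreducibility. -/
theorem thmI (hq0 : q ≠ 0) (hq : ∀ j : ℕ, 0 < j → q ^ j ≠ 1) {n : ℕ} (hn : 1 ≤ n) (a b : Fin n → ℤ) (hab : ∀ j, a j < b j)
    (hba : ∀ i j : Fin n, i < j → b i ≤ a j) (hl : ∀ k : Fin n, (k : ℕ) + 1 = n → ell n ≤ b k - a k)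
    (S : (Fin n → ℤ) → (Fin n → ℤ) → (W K n →ₗ[K] W K n) → Prop) (hS : Fam q a b S)
    (E E' : Fin n → ℤ) (hE : Bx a b E) (hE' : Bx a b E') (A : W K n →ₗ[K] W K n) (hA : ∀ v ∈ U K n E, A v ∈ U K n E') :
    S E E' A :=
  i18_all q hq0 hq n a b hab hba hl S hS E E' hE hE' A hA

/-- The number of patterns (Weyl's dimension formula). -/
theorem thmI_dim {n : ℕ} (E : Fin n → ℤ) (hE : StrictMono E) :
    (uu E : ℤ) * ∏ k ∈ Finset.range n, (k.factorial : ℤ) = ∏ i, ∏ j ∈ Finset.Ioi i, (E j - E i) :=
  i20_dim E hE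

end H92C
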