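import Pool.Agent.Lib.H92C.CD
import Pool.Agent.Lib.H92C.ThmA
import Pool.Agent.Lib.H92C.ThmI
import Pool.Agent.Lib.H92C.C33
import Pool.Agent.Lib.H92C.C36
import Pool.Agent.Lib.H92C.C37

/-!
# H92C, C30: the rank of the cycles (PROOF.md, C.9); target statement, the chunks C31 .. C39 are written by helper77
-/

set_option autoImplicit false

open MvPolynomial

namespace H92C

/-- The rank formula.  b = v2 - 1 - D 0, e = v2 - v1 in the application. -/
theorem c30 {K : Type} [Field K] (q : K) (hq0 : q ≠ 0) (hq : ∀ j : ℕ, 0 < j → q ^ j ≠ 1) (m1 m2 : ℕ) (h1 : 1 ≤ m1) (h2 : 1 ≤ m2)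
    (e b : ℤ) (he : (m2 : ℤ) < e) (hb : e ≤ b) (i0 : Fin (m1 + m2 + 1)) (hi0 : (i0 : ℕ) + 1 = m2) (p : Fin (m1 + m2 + 1 + 1)) (hp : (p : ℕ) = m2 + 1) :
    ((uu (dl (Dpp m2 e) p) : ℤ) * ∏ k ∈ Finset.range (m1 + m2 + 1), (k.factorial : ℤ) =
        (∏ k ∈ Finset.range (m2 + 1), (k.factorial : ℤ)) * (∏ k ∈ Finset.range m1, (k.factorial : ℤ)) *
          ∏ k ∈ Finset.range m1, ∏ i ∈ Finset.range (m2 + 1), (e + k + 1 - i)) ∧
    ((Module.finrank K (Zm (zq q) K (Dpp m2 e) i0 b) : ℤ) * ((∏ k ∈ Finset.range m1, (e + k + 1)) * m2.factorial) =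
        uu (dl (Dpp m2 e) p) * ((∏ j ∈ Finset.range m2, (b - e + 1 + j)) * ∏ j ∈ Finset.range m1, (b + 1 + j))) := by
  have hsm := c35_sm m2 e he (N := m1 + m2 + 1)
  have hz := i00_inj q hq0 hq
  refine ⟨?_, ?_⟩
  · rw [thmI_dim _ (a08_dl_mono (Dpp m2 e) hsm p)]
    exact c35_vd m1 m2 e p hp
  · let u : ℕ → ℤ := fun k => if h : m2 + 1 + k < m1 + m2 + 1 + 1 then (uu (dl (Dpp m2 e) (⟨m2 + 1 + k, h⟩ : Fin (m1 + m2 + 1 + 1))) : ℤ) else 0
    have hu : ∀ (k : ℕ) (hk : m2 + 1 + k < m1 + m2 + 1 + 1), u k = uu (dl (Dpp m2 e) ⟨m2 + 1 + k, hk⟩) := fun k hk => dif_pos hk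
    have hu0 : u 0 = uu (dl (Dpp m2 e) p) := by
      rw [hu 0 (by omega)]
      have : p = ⟨m2 + 1 + 0, by omega⟩ := Fin.ext hp
      rw [this]
    let g : ℕ → ℤ := fun p => if h : p < m1 + m2 + 1 + 1 then (Module.finrank K (Gm K (Dpp m2 e) (⟨p, h⟩ : Fin (m1 + m2 + 1 + 1)) b) : ℤ) else 0
    have hg : ∀ (p : ℕ) (hp : p < m1 + m2 + 1 + 1), g p = Module.finrank K (Gm K (Dpp m2 e) ⟨p, hp⟩ b) := fun p hp => dif_pos hp
    have halt := c33_alt (zq q) hz (Dpp m2 e) hsm i0 b g hg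
    have hr : m1 + m2 + 1 - 1 - (i0 : ℕ) = m1 + 1 := by omega
    rw [hr] at halt
    have hterm : ∀ k ∈ Finset.range (m1 + 1), ((m1 + m2).factorial : ℤ) * ((-1) ^ k * g ((i0 : ℕ) + 2 + k)) =
        (-1) ^ k * u k * ∏ l ∈ Finset.range (m1 + m2), (b - e - k + 1 + l) := by
      intro k hk
      have hk' := Finset.mem_range.1 hk
      have h3 : (i0 : ℕ) + 2 + k = m2 + 1 + k := by omega
      rw [h3, hg (m2 + 1 + k) (by omega), c32_rank, hu k (by omega)]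
      have h4 : Dpp m2 e (⟨m2 + 1 + k, by omega⟩ : Fin (m1 + m2 + 1 + 1)) = e + k := by
        show (if m2 + 1 + k ≤ m2 then _ else e + (((m2 + 1 + k : ℕ) : ℤ) - m2 - 1)) = _
        rw [if_neg (by omega)]
        push_cast
        ring
      have h5 := c31_rank K (m1 + m2) (b - (e + k)) (by push_cast; omega)
      have h6 : ∏ l ∈ Finset.range (m1 + m2), (b - (e + k) + 1 + (l : ℤ)) = ∏ l ∈ Finset.range (m1 + m2), (b - e - k + 1 + (l : ℤ)) := by
        refine Finset.prod_congr rfl fun l _ => ?_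
        ring
      rw [h4, ← h6, ← h5]
      push_cast
      ring
    have h7 : ((m1 + m2).factorial : ℤ) * (Module.finrank K (Zm (zq q) K (Dpp m2 e) i0 b) : ℤ) =
        ∑ k ∈ Finset.range (m1 + 1), (-1) ^ k * u k * ∏ l ∈ Finset.range (m1 + m2), (b - e - k + 1 + l) := by
      rw [halt, Finset.mul_sum]
      exact Finset.sum_congr rfl hterm
    have h8 := c36 m1 m2 e he u (fun j hj => c37 m1 m2 e he u hu j hj) b
    rw [← h7, hu0] at h8
    have h9 : ((m1 + m2).factorial : ℤ) ≠ 0 := by exact_mod_cast (Nat.factorial_ne_zero _)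
    refine mul_left_cancel₀ h9 ?_
    rw [← mul_assoc, h8]
    ring

/-- The spaces of cycles are finite dimensional. -/
theorem c30_fin {K : Type} [Field K] (z : ℤ → K) {N : ℕ} (D2 : Fin (N + 1) → ℤ) (i0 : Fin N) (t : ℤ) :
    Module.Finite K (Zm z K D2 i0 t) := c33_fin z D2 i0 t

end H92C
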