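import Pool.Agent.Lib.H92C.C01

/-!
# H92C, chunk C31 (S/M, 2 lemmas): dimension of the homogeneous polynomials of integral degree

Models: Pool/Agent/Lib/H92B/G3.lean, H1.lean (h1_card, h1_prod; Mon n t = the finset of the exponents of degree t).
-/

set_option autoImplicit false

open MvPolynomial

namespace H92C

/-- The exponents of degree t. -/
noncomputable abbrev c31_A (N t : ℕ) : Finset (Fin N →₀ ℕ) := (Finset.univ : Finset (Fin N)).finsuppAntidiag t

theorem c31_mem {N t : ℕ} (s : Fin N →₀ ℕ) : s ∈ c31_A N t ↔ ∑ i, (s i : ℤ) = t := by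
  rw [Finset.mem_finsuppAntidiag]
  constructor
  · rintro ⟨h, -⟩
    exact_mod_cast h
  · intro h
    exact ⟨by exact_mod_cast h, Finset.subset_univ _⟩

/-- The coordinates. -/
noncomputable def c31_map (K : Type) [Field K] (N t : ℕ) : hm N K (t : ℤ) →ₗ[K] (c31_A N t → K) where
  toFun x μ := coeff (μ : Fin N →₀ ℕ) x.1
  map_add' x y := by
    funext μ
    simp
  map_smul' c x := by
    funext μ
    simp

theorem c31_bij (K : Type) [Field K] (N t : ℕ) : Function.Bijective (c31_map K N t) := by
  constructor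
  · rw [injective_iff_map_eq_zero]
    intro x hx
    apply Subtype.ext
    show x.1 = 0
    ext μ
    rw [coeff_zero]
    by_cases h : μ ∈ c31_A N t
    · exact congrFun hx ⟨μ, h⟩
    · by_contra h1
      exact h ((c31_mem μ).2 (c01_coeff.1 x.2 μ h1))
  · intro c
    refine ⟨⟨∑ μ : c31_A N t, monomial (μ : Fin N →₀ ℕ) (c μ), ?_⟩, ?_⟩
    · refine Submodule.sum_mem _ fun μ _ => c01_coeff.2 fun s hs => ?_
      rw [coeff_monomial] at hs
      by_cases h : (μ : Fin N →₀ ℕ) = s
      · rw [← h]
        exact (c31_mem _).1 μ.2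
      · rw [if_neg h] at hs
        exact absurd rfl hs
    · funext μ
      show coeff (μ : Fin N →₀ ℕ) (∑ ν : c31_A N t, monomial (ν : Fin N →₀ ℕ) (c ν)) = c μ
      rw [coeff_sum, Finset.sum_eq_single μ]
      · rw [coeff_monomial, if_pos rfl]
      · intro ν _ hν
        rw [coeff_monomial, if_neg fun h => hν (Subtype.ext h)]
      · exact fun h => absurd (Finset.mem_univ _) h

theorem c31_bot (K : Type) [Field K] (N : ℕ) {j : ℤ} (hj : j < 0) : hm N K j = ⊥ := by
  unfold hm
  rw [if_neg (not_le.2 hj)]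

/-- PROOF: j < 0: hm = ⊥ (unfold hm, if_neg). j = t natural: hm N K t = homogeneousSubmodule, coefficients in the finite set of the exponents of
degree t (H92B.g3_bij). -/
theorem c31_fin (K : Type) [Field K] (N : ℕ) (j : ℤ) : Module.Finite K (hm N K j) := by
  rcases lt_or_ge j 0 with hj | hj
  · rw [c31_bot K N hj]
    infer_instance
  · obtain ⟨t, rfl⟩ := Int.eq_ofNat_of_zero_le hj
    exact (LinearEquiv.ofBijective _ (c31_bij K N t)).symm.finiteDimensional

/-- The number of monomials of degree y in m + 1 variables is binom (y + m) m; for -m ≤ y < 0 both sides are 0 (the factor l = -y - 1). -/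
theorem c31_rank (K : Type) [Field K] (m : ℕ) (y : ℤ) (hy : -(m : ℤ) ≤ y) :
    (m.factorial : ℤ) * Module.finrank K (hm (m + 1) K y) = ∏ l ∈ Finset.range m, (y + 1 + l) := by
  rcases lt_or_ge y 0 with hj | hj
  · rw [c31_bot K (m + 1) hj, finrank_bot]
    obtain ⟨l, hl⟩ := Int.eq_ofNat_of_zero_le (show 0 ≤ -y - 1 by omega)
    have h1 : l ∈ Finset.range m := Finset.mem_range.2 (by omega)
    rw [Finset.prod_eq_zero h1 (by omega)]
    simp
  · obtain ⟨t, rfl⟩ := Int.eq_ofNat_of_zero_le hj
    rw [(LinearEquiv.ofBijective _ (c31_bij K (m + 1) t)).finrank_eq, Module.finrank_fintype_fun_eq_card,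
      Fintype.card_coe, Finset.card_finsuppAntidiag_nat_eq_choose, Finset.card_univ, Fintype.card_fin]
    have h1 := Nat.ascFactorial_eq_factorial_mul_choose t m
    rw [Nat.ascFactorial_eq_prod_range] at h1
    have h2 : (m + 1 + t - 1).choose t = (t + m).choose m := by
      rw [show m + 1 + t - 1 = t + m by omega, Nat.choose_symm_add]
    rw [h2]
    exact_mod_cast h1.symm

end H92C
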