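import Pool.Agent.Lib.H92C.C31
import Pool.Agent.Lib.H92C.C14

/-!
# H92C, chunk C32 (S/M, 2 lemmas): dimension of the homogeneous vectors Gm

Gm K D p t is isomorphic to the functions from the (finitely many: c14_fin) patterns under dl D p to hm N K (t - D p):
v ↦ (c ↦ v c), inverse: extension by 0.  uu E = Nat.card of the patterns.  Module.finrank_pi_fintype, Nat.card_eq_fintype_card.
-/

set_option autoImplicit false

open MvPolynomial

namespace H92C

/-- The homogeneous vectors are the functions on the patterns. -/
noncomputable def c32_equiv {K : Type} [Field K] {N : ℕ} (D : Fin (N + 1) → ℤ) (p : Fin (N + 1)) (t : ℤ) :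
    Gm K D p t ≃ₗ[K] ({c : Ch N // gd N (dl D p) c} → hm N K (t - D p)) where
  toFun v := fun c => ⟨v.1 c.1, v.2.2 c.1⟩
  map_add' _ _ := rfl
  map_smul' _ _ := rfl
  invFun f := ⟨fun c => if h : gd N (dl D p) c then (f ⟨c, h⟩).1 else 0,
    fun c hc => dif_neg hc, fun c => by
      by_cases h : gd N (dl D p) c
      · simp only [dif_pos h]
        exact (f ⟨c, h⟩).2
      · simp only [dif_neg h]
        exact Submodule.zero_mem _⟩
  left_inv v := by
    apply Subtype.ext
    funext c
    by_cases h : gd N (dl D p) c
    · simp only [dif_pos h]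
    · simp only [dif_neg h]
      exact (v.2.1 c h).symm
  right_inv f := by
    funext c
    apply Subtype.ext
    simp only [dif_pos c.2]

theorem c32_fin {K : Type} [Field K] {N : ℕ} (D : Fin (N + 1) → ℤ) (p : Fin (N + 1)) (t : ℤ) : Module.Finite K (Gm K D p t) := by
  haveI : Finite {c : Ch N // gd N (dl D p) c} := c14_fin N (dl D p)
  haveI : Module.Finite K (hm N K (t - D p)) := c31_fin K N (t - D p)
  exact Module.Finite.equiv (c32_equiv D p t).symm


theorem c32_rank {K : Type} [Field K] {N : ℕ} (D : Fin (N + 1) → ℤ) (p : Fin (N + 1)) (t : ℤ) :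
    Module.finrank K (Gm K D p t) = uu (dl D p) * Module.finrank K (hm N K (t - D p)) := by
  haveI : Finite {c : Ch N // gd N (dl D p) c} := c14_fin N (dl D p)
  haveI : Fintype {c : Ch N // gd N (dl D p) c} := Fintype.ofFinite _
  haveI : Module.Finite K (hm N K (t - D p)) := c31_fin K N (t - D p)
  rw [(c32_equiv D p t).finrank_eq, Module.finrank_pi_fintype, Finset.sum_const, Finset.card_univ, smul_eq_mul, uu,
    Nat.card_eq_fintype_card]


end H92C
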