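import Mathlib

/-!
# H92C, chunk C34 (S, pure): a polynomial of degree ≤ n with n known distinct roots
-/

set_option autoImplicit false

namespace H92C

/-- PROOF: if x = r i for some i < n, both sides are 0.  Otherwise Q := C (∏ (x - r i)) * P - C (P.eval x) * ∏ (X - C (r i)) has degree ≤ n and
the n + 1 distinct roots r i, x, so Q = 0 (Polynomial.eq_zero_of_natDegree_lt_card_of_eval_eq_zero'); evaluate at b. -/
theorem c34_root {n : ℕ} (r : ℕ → ℚ) (hr : ∀ i < n, ∀ j < n, r i = r j → i = j) (P : Polynomial ℚ) (hP : P.natDegree ≤ n)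
    (h0 : ∀ i < n, P.eval (r i) = 0) (x b : ℚ) :
    P.eval b * ∏ i ∈ Finset.range n, (x - r i) = P.eval x * ∏ i ∈ Finset.range n, (b - r i) := by
  have hco : ∀ i ∈ Finset.range n, ∀ j ∈ Finset.range n, i ≠ j →
      IsCoprime (Polynomial.X - Polynomial.C (r i)) (Polynomial.X - Polynomial.C (r j)) := by
    intro i hi j hj hij
    refine Polynomial.isCoprime_X_sub_C_of_isUnit_sub ?_
    exact IsUnit.mk0 _ (sub_ne_zero.2 fun h => hij (hr i (Finset.mem_range.1 hi) j (Finset.mem_range.1 hj) h))
  have hdvd : ∏ i ∈ Finset.range n, (Polynomial.X - Polynomial.C (r i)) ∣ P := by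
    refine Finset.prod_dvd_of_coprime (fun i hi j hj hij => hco i hi j hj hij) fun i hi => ?_
    exact Polynomial.dvd_iff_isRoot.2 (h0 i (Finset.mem_range.1 hi))
  obtain ⟨Q, hQ⟩ := hdvd
  have hmon : (∏ i ∈ Finset.range n, (Polynomial.X - Polynomial.C (r i))).Monic :=
    Polynomial.monic_prod_of_monic _ _ fun i _ => Polynomial.monic_X_sub_C _
  have hdeg : (∏ i ∈ Finset.range n, (Polynomial.X - Polynomial.C (r i))).natDegree = n := by
    rw [Polynomial.natDegree_prod_of_monic _ _ fun i _ => Polynomial.monic_X_sub_C _]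
    simp
  have hQ0 : Q.natDegree = 0 := by
    by_cases hq : Q = 0
    · rw [hq, Polynomial.natDegree_zero]
    · have h1 := hmon.natDegree_mul' hq
      rw [← hQ, hdeg] at h1
      omega
  rw [Polynomial.eq_C_of_natDegree_eq_zero hQ0] at hQ
  have hev : ∀ y, P.eval y = (∏ i ∈ Finset.range n, (y - r i)) * Q.coeff 0 := by
    intro y
    rw [hQ, Polynomial.eval_mul, Polynomial.eval_C, Polynomial.eval_prod]
    simp
  rw [hev, hev]
  ring


end H92C
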