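import Pool.Agent.Lib.H92C.CD

/-!
# H92C, chunk C35 (S/M, 2 lemmas): the row Dpp and the Vandermonde product of two runs
-/

set_option autoImplicit false

namespace H92C

theorem c35_swap : ∀ (M : ℕ) (f : ℕ → ℕ → ℤ), ∏ i : Fin M, ∏ j ∈ Finset.Ioi i, f i j =
    ∏ j ∈ Finset.range M, ∏ i ∈ Finset.range j, f i j := by
  intro M
  induction M with
  | zero => intro f; simp
  | succ M ih =>
    intro f
    rw [Fin.prod_univ_succ, Finset.prod_range_succ']
    simp only [Fin.prod_Ioi_zero, Fin.prod_Ioi_succ]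
    have h1 := ih (fun i j => f (i + 1) (j + 1))
    simp only [Fin.val_succ, Fin.val_zero] at h1 ⊢
    rw [h1, Finset.range_zero, Finset.prod_empty, mul_one,
      Fin.prod_univ_eq_prod_range (fun j => f 0 (j + 1)) M, ← Finset.prod_mul_distrib]
    refine Finset.prod_congr rfl fun j _ => ?_
    rw [Finset.prod_range_succ', mul_comm]

theorem c35_fac (j : ℕ) : ∏ i ∈ Finset.range j, ((j : ℤ) - i) = j.factorial := by
  induction j with
  | zero => simp
  | succ j ih =>
    rw [Finset.prod_range_succ', Nat.factorial_succ]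
    push_cast
    rw [← ih, sub_zero, mul_comm]
    congr 1
    refine Finset.prod_congr rfl fun i _ => ?_
    ring

theorem c35_sm (m2 : ℕ) (e : ℤ) (he : (m2 : ℤ) < e) {N : ℕ} : StrictMono (Dpp m2 e (N := N)) := by
  intro a b hab
  have h1 : a.val < b.val := hab
  unfold Dpp
  split_ifs <;> omega


/-- dl (Dpp m2 e) p is the row 0, .., m2, e + 1, .., e + m1.  PROOF: with Q : ℕ → ℤ, Q j = if j ≤ m2 then j else e + (j - m2) the left side is
∏ j < m1 + m2 + 1, ∏ i < j, (Q j - Q i) (exchange the products, Fin.prod_univ_eq_prod_range, or reindex); Finset.prod_range_add twice;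
∏ i < j, (j - i) = j!. -/
theorem c35_vd (m1 m2 : ℕ) (e : ℤ) (p : Fin (m1 + m2 + 1 + 1)) (hp : (p : ℕ) = m2 + 1) :
    ∏ i : Fin (m1 + m2 + 1), ∏ j ∈ Finset.Ioi i, (dl (Dpp m2 e) p j - dl (Dpp m2 e) p i) =
      (∏ k ∈ Finset.range (m2 + 1), (k.factorial : ℤ)) * (∏ k ∈ Finset.range m1, (k.factorial : ℤ)) *
        ∏ k ∈ Finset.range m1, ∏ i ∈ Finset.range (m2 + 1), (e + k + 1 - i) := by
  set Q : ℕ → ℤ := fun j => if j ≤ m2 then (j : ℤ) else e + ((j : ℤ) - m2) with hQ
  have hdl : ∀ j : Fin (m1 + m2 + 1), dl (Dpp m2 e) p j = Q j := by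
    intro j
    unfold dl Dpp
    by_cases hj : (j : ℕ) ≤ m2
    · have h1 : p.succAbove j = j.castSucc := Fin.succAbove_of_castSucc_lt _ _ (by
        rw [Fin.lt_def, Fin.val_castSucc]
        omega)
      rw [h1, hQ]
      simp only [Fin.val_castSucc, if_pos hj]
    · have h1 : p.succAbove j = j.succ := Fin.succAbove_of_le_castSucc _ _ (by
        rw [Fin.le_def, Fin.val_castSucc]
        omega)
      have h2 : ¬ (j : ℕ) + 1 ≤ m2 := by omega
      rw [h1, hQ]
      simp only [Fin.val_succ, if_neg hj, if_neg h2]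
      push_cast
      ring
  have h1 : ∏ i : Fin (m1 + m2 + 1), ∏ j ∈ Finset.Ioi i, (dl (Dpp m2 e) p j - dl (Dpp m2 e) p i) =
      ∏ i : Fin (m1 + m2 + 1), ∏ j ∈ Finset.Ioi i, (Q j - Q i) :=
    Finset.prod_congr rfl fun i _ => Finset.prod_congr rfl fun j _ => by rw [hdl, hdl]
  rw [h1, c35_swap (m1 + m2 + 1) (fun i j => Q j - Q i), show m1 + m2 + 1 = (m2 + 1) + m1 by ring, Finset.prod_range_add,
    mul_assoc]
  congr 1
  · refine Finset.prod_congr rfl fun j hj => ?_
    have hj' := Finset.mem_range.1 hj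
    rw [← c35_fac j]
    refine Finset.prod_congr rfl fun i hi => ?_
    have hi' := Finset.mem_range.1 hi
    rw [hQ]
    simp only
    rw [if_pos (by omega), if_pos (by omega)]
  · rw [← Finset.prod_mul_distrib]
    refine Finset.prod_congr rfl fun k _ => ?_
    rw [Finset.prod_range_add, mul_comm]
    congr 1
    · rw [← c35_fac k]
      refine Finset.prod_congr rfl fun i hi => ?_
      rw [hQ]
      simp only
      rw [if_neg (by omega), if_neg (by omega)]
      push_cast
      ring
    · refine Finset.prod_congr rfl fun i hi => ?_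
      have hi' := Finset.mem_range.1 hi
      rw [hQ]
      simp only
      rw [if_neg (by omega), if_pos (by omega)]
      push_cast
      ring


end H92C
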