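import Pool.Agent.Lib.H92C.C08
import Pool.Agent.Lib.H92C.C09
import Pool.Agent.Lib.H92C.C13
import Pool.Agent.Lib.H92C.C20
import Pool.Agent.Lib.H92C.C30

/-!
# H92C, C40: assembly of the cutting theorem thmC_cut
-/

set_option autoImplicit false

open MvPolynomial

namespace H92C

theorem c40_mono (m2 : ℕ) (e : ℤ) (he : (m2 : ℤ) < e) {N : ℕ} : StrictMono (Dpp m2 e : Fin (N + 1) → ℤ) := by
  intro p r hpr
  have h : (p : ℕ) < r := hpr
  unfold Dpp
  split_ifs with h1 h2 h2 <;> omega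

theorem c40_z {K : Type} [Field K] (q : K) (hq0 : q ≠ 0) (hq : ∀ j : ℕ, 0 < j → q ^ j ≠ 1) : Function.Injective (zq q) := by
  have key : ∀ i j : ℤ, i < j → q ^ i ≠ q ^ j := by
    intro i j hij h
    have h1 : q ^ (j - i) = 1 := by
      rw [zpow_sub₀ hq0, ← h, div_self (zpow_ne_zero _ hq0)]
    obtain ⟨k, hk⟩ := Int.eq_ofNat_of_zero_le (show 0 ≤ j - i by omega)
    rw [hk] at h1
    exact hq k (by omega) (by exact_mod_cast h1)
  intro i j h
  rcases lt_trichotomy i j with h1 | h1 | h1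
  · exact absurd h (key i j h1)
  · exact h1
  · exact absurd h.symm (key j i h1)

theorem c40_D (n : ℕ) (D : ℕ → ℤ) (hD : ∀ i < n, D i < D (i + 1)) (i k : ℕ) (h : i + k ≤ n) : D i + k ≤ D (i + k) := by
  induction k with
  | zero => simp
  | succ k ih =>
    have h1 := ih (by omega)
    have h2 := hD (i + k) (by omega)
    have h3 : D (i + (k + 1)) = D (i + k + 1) := rfl
    push_cast
    rw [h3]
    linarith

/-- In low degrees there are no cycles. -/
theorem c40_low {K : Type} [Field K] (z : ℤ → K) (hz : Function.Injective z) {N : ℕ} (D2 : Fin (N + 1) → ℤ) (hD : StrictMono D2)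
    (i0 j0 : Fin N) (hij : (j0 : ℕ) = i0 + 1) (t : ℤ) (ht : t < D2 j0.succ) : Zm z K D2 i0 t = ⊥ := by
  rw [c15_BZ z D2 hz hD i0 j0 hij t, eq_bot_iff]
  rintro _ ⟨w, hw, rfl⟩
  have h0 : w = 0 := by
    funext c
    have := hw.2 c
    exact (c01_neg (by omega)).mp this
  rw [h0, map_zero]
  exact Submodule.zero_mem _

theorem c40 {K : Type} [Field K] (q : K) (hq0 : q ≠ 0) (hq : ∀ j : ℕ, 0 < j → q ^ j ≠ 1) (ν m1 m2 : ℕ) (h1 : 1 ≤ m1) (h2 : 1 ≤ m2)
    (D : ℕ → ℤ) (hD : ∀ i < ν + (m1 + m2), D i < D (i + 1)) (v1 v2 : ℤ)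
    (hv1 : ∀ j < m2, D (ν + 1 + j) = v1 + j) (hv2 : ∀ j < m1, D (ν + 1 + m2 + j) = v2 + j) (hgap : v1 + m2 < v2)
    (β : ℕ → ℕ) (hβ : ∀ i, ν + (m1 + m2) < i → β i = 0) (h : Rfl K (ν + (m1 + m2)) D β) :
    ∃ (β' : ℕ → ℕ) (u h : ℕ), (∀ i, ν < i → β' i = 0) ∧ Rfl K ν D β' ∧ β' 0 = β 0 * h ∧
      (u : ℤ) * ∏ k ∈ Finset.range (m1 + m2 + 1), (k.factorial : ℤ) =
        (∏ k ∈ Finset.range (m2 + 1), (k.factorial : ℤ)) * (∏ k ∈ Finset.range m1, (k.factorial : ℤ)) *
          ∏ k ∈ Finset.range m1, ∏ i ∈ Finset.range (m2 + 1), ((v2 - v1) + k + 1 - i) ∧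
      (h : ℤ) * ((∏ k ∈ Finset.range m1, ((v2 - v1) + k + 1)) * m2.factorial) =
        u * ((∏ j ∈ Finset.range m2, (v1 + j - D 0)) * ∏ j ∈ Finset.range m1, (v2 + j - D 0)) := by
  obtain ⟨f, hf, hex, e, hfl⟩ := h
  have hff : ∀ i, f i ∘ₗ f (i + 1) = 0 := by
    intro i
    apply LinearMap.ext
    intro x
    have hx : f (i + 1) x ∈ LinearMap.ker (f i) := by
      rw [← hex i]
      exact ⟨_, rfl⟩
    exact hx
  have hz := c40_z q hq0 hq
  have hD' := c40_D _ D hD
  have hf' : ∀ i b c, f i (Pi.single b 1) c ∈ hm (ν + (m1 + m2)) K (D (i + 1) - D i) := by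
    intro i b c
    by_cases hi : i < ν + (m1 + m2)
    · have h3 := hD i hi
      have h4 := hf i c b
      rw [← c01_nat, Int.toNat_of_nonneg (by omega)] at h4
      exact h4
    · exact Fin.elim0 ((hβ (i + 1) (by omega)) ▸ b)
  have hcert : ∀ a : Fin (ν + (m1 + m2)), ∃ h : (i : ℕ) → (Fin (β i) → MvPolynomial (Fin (ν + (m1 + m2))) K) →ₗ[MvPolynomial (Fin (ν + (m1 + m2))) K]
        (Fin (β (i + 1)) → MvPolynomial (Fin (ν + (m1 + m2))) K),
      (∀ v, f 0 (h 0 v) = (X a : MvPolynomial (Fin (ν + (m1 + m2))) K) ^ e • v) ∧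
      (∀ (i : ℕ) (v), f (i + 1) (h (i + 1) v) + h i (f i v) = (X a : MvPolynomial (Fin (ν + (m1 + m2))) K) ^ e • v) := fun a =>
    c08 β f hex (X a ^ e) (fun v => hfl a v)
  set a : ℤ := v2 - 1 with ha
  set D2 : Fin (m1 + m2 + 1 + 1) → ℤ := Dpp m2 (v2 - v1) with hD2
  have hmono : StrictMono D2 := c40_mono m2 (v2 - v1) (by omega)
  obtain ⟨i0, hi0⟩ : ∃ i0 : Fin (m1 + m2 + 1), (i0 : ℕ) + 1 = m2 := ⟨⟨m2 - 1, by omega⟩, by simp; omega⟩
  obtain ⟨j0, hj0⟩ : ∃ j0 : Fin (m1 + m2 + 1), (j0 : ℕ) = m2 := ⟨⟨m2, by omega⟩, rfl⟩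
  have hcase : ∀ i, β i = 0 ∨ (i ≤ ν ∧ D i < v1) ∨ (∃ j < m2, D i = v1 + j ∧ ν < i) ∨ (∃ j < m1, D i = v2 + j ∧ ν < i) := by
    intro i
    by_cases h3 : ν + (m1 + m2) < i
    · exact Or.inl (hβ i h3)
    by_cases h4 : i ≤ ν
    · right; left
      refine ⟨h4, ?_⟩
      have h5 := hD' i (ν + 1 - i) (by omega)
      have h6 := hv1 0 (by omega)
      have h7 : i + (ν + 1 - i) = ν + 1 + 0 := by omega
      rw [h7, h6] at h5
      push_cast at h5
      omega
    by_cases h5 : i < ν + 1 + m2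
    · right; right; left
      refine ⟨i - (ν + 1), by omega, ?_, by omega⟩
      rw [← hv1 (i - (ν + 1)) (by omega)]
      congr 1
      omega
    · right; right; right
      refine ⟨i - (ν + 1 + m2), by omega, ?_, by omega⟩
      rw [← hv2 (i - (ν + 1 + m2)) (by omega)]
      congr 1
      omega
  have hDlast : D2 (Fin.last (m1 + m2 + 1)) = (v2 - v1) + m1 := by
    rw [hD2]; unfold Dpp
    rw [if_neg (by simp only [Fin.val_last]; omega)]
    simp only [Fin.val_last]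
    push_cast
    ring
  have hD0 : D2 0 = 0 := by
    rw [hD2]; unfold Dpp
    rw [if_pos (by simp)]
    simp
  have hEx : ∀ (p : Fin ν) (i : ℕ), Ex (db (B := MvPolynomial (Fin ν) K)
      (M := W (MvPolynomial (Fin (m1 + m2 + 1)) (MvPolynomial (Fin ν) K)) (m1 + m2 + 1))
      (sgr K (ν + (m1 + m2)) ν (m1 + m2 + 1)) β f) (X p)
      (pS β fun i => Zm (zq q) (MvPolynomial (Fin ν) K) D2 i0 (a - D i)) (fun _ => ⊥) i := by
    intro p i
    have h4 := c15 (B := MvPolynomial (Fin ν) K) (zq q) (sgr K (ν + (m1 + m2)) ν (m1 + m2 + 1)) β D f (X p) D2 hz hmono hff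
      (fun i b c => c10_y (hf' i b c)) a ?_ j0 ?_ i
    · have h5 : (pS β fun i => Zm (zq q) (MvPolynomial (Fin ν) K) D2 i0 (a - D i)) =
          (pS β fun i => Bm (zq q) (MvPolynomial (Fin ν) K) D2 j0 (a - D i)) := by
        congr 1
        funext i
        exact c15_BZ (zq q) D2 hz hmono i0 j0 (by omega) _
      rw [h5]
      exact h4
    · intro i
      rw [hD0, hDlast]
      push_cast
      rcases hcase (i + 1) with h6 | ⟨h6, h7⟩ | ⟨j, hj, h6, h7⟩ | ⟨j, hj, h6, h7⟩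
      · exact Or.inl h6
      · right; right; omega
      · right; right; omega
      · right; left; omega
    · intro r hr i
      apply c14
      apply c13 (by omega) β D f hf' hff e hcert
      intro i
      have h8 : D2 r = (r : ℤ) := by
        rw [hD2]; unfold Dpp
        rw [if_pos (by omega)]
      rw [h8]
      push_cast
      rcases hcase i with h6 | ⟨h6, h7⟩ | ⟨j, hj, h6, h7⟩ | ⟨j, hj, h6, h7⟩
      · exact Or.inl h6
      · right; omega
      · right; omega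
      · right; omega
  have hfin : ∀ t, Module.Finite K (Zm (zq q) K D2 i0 t) := fun t => c30_fin (zq q) D2 i0 t
  have hc := c20 (zq q) β D D2 i0 a f hf' hff (fun i => Module.finrank K (Zm (zq q) K D2 i0 (a - D i)))
    (fun i => haveI := hfin (a - D i); Module.finBasis K (Zm (zq q) K D2 i0 (a - D i))) ?_ hEx
  · have hzero : ∀ i, ν < i → β i * Module.finrank K (Zm (zq q) K D2 i0 (a - D i)) = 0 := ?_
    · refine ⟨fun i => β i * Module.finrank K (Zm (zq q) K D2 i0 (a - D i)), uu (dl D2 j0.succ),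
        Module.finrank K (Zm (zq q) K D2 i0 (a - D 0)), hzero, c09 K ν D _ hzero hc, rfl, ?_⟩
      have hb : v2 - v1 ≤ a - D 0 := by
        have h5 := hD' 0 (ν + 1) (by omega)
        have h6 := hv1 0 (by omega)
        rw [zero_add, show ν + 1 = ν + 1 + 0 from rfl, h6] at h5
        push_cast at h5
        omega
      have h30 := c30 q hq0 hq m1 m2 h1 h2 (v2 - v1) (a - D 0) (by omega) hb i0 hi0 j0.succ (by simp [hj0])
      refine ⟨h30.1, ?_⟩
      have h31 := h30.2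
      have e1 : ∀ j ∈ Finset.range m2, (a - D 0 - (v2 - v1) + 1 + (j : ℤ)) = v1 + j - D 0 := fun j _ => by rw [ha]; ring
      have e2 : ∀ j ∈ Finset.range m1, (a - D 0 + 1 + (j : ℤ)) = v2 + j - D 0 := fun j _ => by rw [ha]; ring
      rw [Finset.prod_congr rfl e1, Finset.prod_congr rfl e2] at h31
      exact h31
    · intro i hi
      rcases hcase i with h6 | ⟨h6, h7⟩ | ⟨j, hj, h6, h7⟩ | ⟨j, hj, h6, h7⟩
      · rw [h6, zero_mul]
      · omega
      all_goals
        have h9 : D2 j0.succ = v2 - v1 := by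
          rw [hD2]; unfold Dpp
          rw [if_neg (by simp; omega)]
          simp [hj0]
        rw [c40_low (zq q) hz D2 hmono i0 j0 (by omega) (a - D i) (by omega)]
        simp
  · intro i hi
    rcases hcase i with h6 | ⟨h6, h7⟩ | ⟨j, hj, h6, h7⟩ | ⟨j, hj, h6, h7⟩
    · rw [h6, zero_mul]
    · omega
    all_goals
      have h9 : D2 j0.succ = v2 - v1 := by
        rw [hD2]; unfold Dpp
        rw [if_neg (by simp; omega)]
        simp [hj0]
      rw [c40_low (zq q) hz D2 hmono i0 j0 (by omega) (a - D i) (by omega)]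
      simp

end H92C
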