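import Pool.Agent.Lib.H92C.C04

/-!
# H92C, chunk C75 (S/M, 5 small lemmas): clearing denominators in polynomials over K(t) (section C.10)
-/

set_option autoImplicit false

open MvPolynomial

namespace H92C

section gen

variable {R S : Type} [CommRing R] [CommRing S] (φ : R →+* S)

/-- A matrix is determined by its image under an injective ring map.  PROOF: c04_single, then LinearMap.pi_ext' or (Pi.basisFun R _).ext. -/
theorem c75_inj (hφ : Function.Injective φ) {m n : ℕ} (f g : (Fin m → R) →ₗ[R] (Fin n → R)) (h : am (M := S) φ f = am φ g) : f = g := by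
  refine (Pi.basisFun R (Fin m)).ext fun b => ?_
  rw [Pi.basisFun_apply]
  funext a
  apply hφ
  rw [← c04_single φ f b a, ← c04_single φ g b a, h]

/-- A matrix with given entries. -/
theorem c75_mk {m n : ℕ} (p : Fin n → Fin m → R) : ∃ f : (Fin m → R) →ₗ[R] (Fin n → R), ∀ a b, f (Pi.single b 1) a = p a b := by
  refine ⟨(Pi.basisFun R (Fin m)).constr R (fun b a => p a b), fun a b => ?_⟩
  have h := (Pi.basisFun R (Fin m)).constr_basis R (fun (b : Fin m) (a : Fin n) => p a b) b
  rw [Pi.basisFun_apply] at h
  rw [h]

/-- Lifting of a matrix: if all the entries of f lift along φ then f = am φ F.  PROOF: c75_mk, c04_single. -/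
theorem c75_lift {m n : ℕ} (f : (Fin m → S) →ₗ[S] (Fin n → S)) (h : ∀ b a, ∃ p : R, φ p = f (Pi.single b 1) a) :
    ∃ F : (Fin m → R) →ₗ[R] (Fin n → R), am (M := S) φ F = f := by
  choose P hP using h
  obtain ⟨F, hF⟩ := c75_mk (R := R) (fun (a : Fin n) (b : Fin m) => P b a)
  refine ⟨F, (Pi.basisFun S (Fin m)).ext fun b => ?_⟩
  rw [Pi.basisFun_apply]
  funext a
  rw [c04_single, hF, hP]

end gen

section den

variable {K : Type} [Field K] {n : ℕ}

/-- The embedding of K[t][x] into K(t)[x]. -/
noncomputable def c75_io (K : Type) [Field K] (n : ℕ) : MvPolynomial (Fin n) (Polynomial K) →+* MvPolynomial (Fin n) (RatFunc K) :=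
  MvPolynomial.map (algebraMap (Polynomial K) (RatFunc K))

theorem c75_io_inj : Function.Injective (c75_io K n) :=
  MvPolynomial.map_injective _ (IsFractionRing.injective (Polynomial K) (RatFunc K))

/-- One denominator for one polynomial, with all multiples.  PROOF: IsLocalization.exist_integer_multiples_of_finset (nonZeroDivisors K[X]) on the finite set of the coefficients of p (or
RatFunc.num, RatFunc.denom: b := ∏ s ∈ p.support, denom (coeff s p)); P := ∑ s ∈ p.support, monomial s (the element with algebraMap = b * coeff s p). -/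
theorem c75_one (p : MvPolynomial (Fin n) (RatFunc K)) :
    ∃ b : Polynomial K, b ≠ 0 ∧ ∀ c : Polynomial K, ∃ P, c75_io K n P = C (algebraMap (Polynomial K) (RatFunc K) (c * b)) * p := by
  classical
  obtain ⟨b, hb⟩ := IsLocalization.exist_integer_multiples_of_finset
    (nonZeroDivisors (Polynomial K)) (p.support.image fun s => coeff s p)
  have h1 : ∀ s, ∃ r : Polynomial K, algebraMap (Polynomial K) (RatFunc K) r =
      algebraMap (Polynomial K) (RatFunc K) (b : Polynomial K) * coeff s p := by
    intro s
    by_cases hs : s ∈ p.support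
    · obtain ⟨r, hr⟩ := hb (coeff s p) (Finset.mem_image_of_mem _ hs)
      exact ⟨r, by rw [hr, Algebra.smul_def]⟩
    · rw [notMem_support_iff] at hs
      exact ⟨0, by rw [hs, mul_zero, map_zero]⟩
  choose g hg using h1
  refine ⟨b, nonZeroDivisors.coe_ne_zero b, fun c => ⟨∑ s ∈ p.support, monomial s (c * g s), ?_⟩⟩
  ext s
  rw [c75_io, coeff_map, coeff_C_mul, coeff_sum]
  simp only [coeff_monomial]
  rw [Finset.sum_ite_eq' p.support s]
  by_cases hs : s ∈ p.support
  · rw [if_pos hs, map_mul, map_mul, hg, mul_assoc]
  · rw [if_neg hs, map_zero]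
    rw [notMem_support_iff] at hs
    rw [hs, mul_zero]

/-- A common denominator for finitely many polynomials.  PROOF: induction on the finite index set (Finite.induction / Fintype, or ∏ j, b j with c75_one: the other factors go into c). -/
theorem c75_all {J : Type} [Finite J] (p : J → MvPolynomial (Fin n) (RatFunc K)) :
    ∃ b : Polynomial K, b ≠ 0 ∧ ∀ c : Polynomial K, ∀ j, ∃ P, c75_io K n P = C (algebraMap (Polynomial K) (RatFunc K) (c * b)) * p j := by
  classical
  haveI := Fintype.ofFinite J
  choose b hb h using fun j => c75_one (p j)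
  refine ⟨∏ j, b j, Finset.prod_ne_zero_iff.2 fun j _ => hb j, fun c j => ?_⟩
  obtain ⟨P, hP⟩ := h j (c * ∏ i ∈ Finset.univ.erase j, b i)
  refine ⟨P, ?_⟩
  rw [hP, ← Finset.mul_prod_erase Finset.univ b (Finset.mem_univ j)]
  congr 3
  ring

/-- Homogeneity descends.  PROOF: the coefficients of io P are the images of those of P (coeff_map), algebraMap is injective and b ≠ 0. -/
theorem c75_hom {m : ℕ} {b : Polynomial K} {p : MvPolynomial (Fin n) (RatFunc K)} {P : MvPolynomial (Fin n) (Polynomial K)}
    (h : c75_io K n P = C (algebraMap (Polynomial K) (RatFunc K) b) * p) (hp : p.IsHomogeneous m) : P.IsHomogeneous m := by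
  intro s hs
  apply hp
  intro h0
  apply hs
  have h1 := congrArg (coeff s) h
  rw [c75_io, coeff_map, coeff_C_mul, h0, mul_zero] at h1
  exact (map_eq_zero_iff _ (IsFractionRing.injective (Polynomial K) (RatFunc K))).1 h1

end den

end H92C
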