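import Pool.Agent.Lib.H92C.C75

/-!
# H92C, chunk C76 (M, 2 lemmas): a certificate over K(t) has a model over K[t] (section C.10)
-/

set_option autoImplicit false

open MvPolynomial

namespace H92C

variable {K : Type} [Field K] {n : ℕ}

/-- One denominator for two families of matrices which vanish for large indices.  PROOF: apply c75_all to the finite type of all the entries: indices
(i : Fin (n + 1)) × (b : Fin (β (i + 1))) × (a : Fin (β i)) for f and Fin n × (i : Fin (n + 1)) × .. for h (Sum of two sigma types, Fintype instances are found); for i > n β i = 0 and β (i + 1) = 0,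
there are no entries.  Then c75_lift: the entries of algebraMap b • f i lift.  (A matrix f i with β (i + 1) = 0: any two maps are equal, also for h with β i = 0.) -/
theorem c76_den (β : ℕ → ℕ) (hβ : ∀ i, n < i → β i = 0)
    (f : (i : ℕ) → (Fin (β (i + 1)) → MvPolynomial (Fin n) (RatFunc K)) →ₗ[MvPolynomial (Fin n) (RatFunc K)]
        (Fin (β i) → MvPolynomial (Fin n) (RatFunc K)))
    (h : Fin n → (i : ℕ) → (Fin (β i) → MvPolynomial (Fin n) (RatFunc K)) →ₗ[MvPolynomial (Fin n) (RatFunc K)]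
        (Fin (β (i + 1)) → MvPolynomial (Fin n) (RatFunc K))) :
    ∃ (b : Polynomial K) (F : (i : ℕ) → (Fin (β (i + 1)) → MvPolynomial (Fin n) (Polynomial K)) →ₗ[MvPolynomial (Fin n) (Polynomial K)]
        (Fin (β i) → MvPolynomial (Fin n) (Polynomial K)))
      (H : Fin n → (i : ℕ) → (Fin (β i) → MvPolynomial (Fin n) (Polynomial K)) →ₗ[MvPolynomial (Fin n) (Polynomial K)]
        (Fin (β (i + 1)) → MvPolynomial (Fin n) (Polynomial K))), b ≠ 0 ∧
      (∀ i, am (M := MvPolynomial (Fin n) (RatFunc K)) (c75_io K n) (F i) = (C (algebraMap (Polynomial K) (RatFunc K) b) : MvPolynomial (Fin n) (RatFunc K)) • f i) ∧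
      ∀ a i, am (M := MvPolynomial (Fin n) (RatFunc K)) (c75_io K n) (H a i) = (C (algebraMap (Polynomial K) (RatFunc K) b) : MvPolynomial (Fin n) (RatFunc K)) • h a i := by
  classical
  obtain ⟨b, hb, hp⟩ := c75_all (K := K) (n := n)
    (J := (Σ i : Fin (n + 1), Fin (β (i + 1)) × Fin (β i)) ⊕
      (Fin n × (Σ i : Fin (n + 1), Fin (β i) × Fin (β (i + 1)))))
    (fun j => match j with
      | Sum.inl x => f x.1 (Pi.single x.2.1 1) x.2.2
      | Sum.inr x => h x.1 x.2.1 (Pi.single x.2.2.1 1) x.2.2.2)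
  have hF : ∀ i, ∃ F : (Fin (β (i + 1)) → MvPolynomial (Fin n) (Polynomial K)) →ₗ[MvPolynomial (Fin n) (Polynomial K)]
      (Fin (β i) → MvPolynomial (Fin n) (Polynomial K)),
      am (M := MvPolynomial (Fin n) (RatFunc K)) (c75_io K n) F =
        (C (algebraMap (Polynomial K) (RatFunc K) b) : MvPolynomial (Fin n) (RatFunc K)) • f i := by
    intro i
    refine c75_lift _ _ fun c a => ?_
    rcases lt_or_ge n i with hi | hi
    · have h0 := hβ (i + 1) (by omega)
      exact absurd c.2 (by omega)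
    · obtain ⟨P, hP⟩ := hp 1 (Sum.inl ⟨⟨i, by omega⟩, (c, a)⟩)
      exact ⟨P, by rw [hP, one_mul]; rfl⟩
  have hH : ∀ (a : Fin n) (i : ℕ), ∃ H : (Fin (β i) → MvPolynomial (Fin n) (Polynomial K)) →ₗ[MvPolynomial (Fin n) (Polynomial K)]
      (Fin (β (i + 1)) → MvPolynomial (Fin n) (Polynomial K)),
      am (M := MvPolynomial (Fin n) (RatFunc K)) (c75_io K n) H =
        (C (algebraMap (Polynomial K) (RatFunc K) b) : MvPolynomial (Fin n) (RatFunc K)) • h a i := by
    intro x i
    refine c75_lift _ _ fun c a => ?_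
    rcases lt_or_ge n i with hi | hi
    · have h0 := hβ i hi
      exact absurd c.2 (by omega)
    · obtain ⟨P, hP⟩ := hp 1 (Sum.inr (x, ⟨⟨i, by omega⟩, (c, a)⟩))
      exact ⟨P, by rw [hP, one_mul]; rfl⟩
  choose F hF using hF
  choose H hH using hH
  exact ⟨b, F, H, hb, hF, hH⟩

theorem c76_io (b : Polynomial K) (a : Fin n) (e : ℕ) :
    c75_io K n (C (b ^ 2) * X a ^ e) =
      C (algebraMap (Polynomial K) (RatFunc K) b) * C (algebraMap (Polynomial K) (RatFunc K) b) * X a ^ e := by
  unfold c75_io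
  simp only [map_mul, map_pow, map_X, map_C]
  ring

/-- The model.  PROOF: c76_den; the identities hold after am (c75_io) (c04_comp, c04_add, c04_smul, c04_scal; both sides are multiplied by b^2), c75_inj with c75_io_inj.
Homogeneity: c75_hom for the entries (c04_single). -/
theorem c76_model (d : ℕ → ℤ) (β : ℕ → ℕ) (hβ : ∀ i, n < i → β i = 0) (hc : Cert (RatFunc K) n d β) :
    ∃ (b : Polynomial K) (F : (i : ℕ) → (Fin (β (i + 1)) → MvPolynomial (Fin n) (Polynomial K)) →ₗ[MvPolynomial (Fin n) (Polynomial K)]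
        (Fin (β i) → MvPolynomial (Fin n) (Polynomial K)))
      (H : Fin n → (i : ℕ) → (Fin (β i) → MvPolynomial (Fin n) (Polynomial K)) →ₗ[MvPolynomial (Fin n) (Polynomial K)]
        (Fin (β (i + 1)) → MvPolynomial (Fin n) (Polynomial K))) (e : ℕ), b ≠ 0 ∧
      (∀ (i : ℕ) (a : Fin (β i)) (c : Fin (β (i + 1))), (F i (Pi.single c 1) a).IsHomogeneous (d (i + 1) - d i).toNat) ∧
      (∀ i : ℕ, F i ∘ₗ F (i + 1) = 0) ∧
      (∀ a v, F 0 (H a 0 v) = (C (b ^ 2) * X a ^ e : MvPolynomial (Fin n) (Polynomial K)) • v) ∧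
      (∀ (a) (i : ℕ) (v), F (i + 1) (H a (i + 1) v) + H a i (F i v) = (C (b ^ 2) * X a ^ e : MvPolynomial (Fin n) (Polynomial K)) • v) := by
  obtain ⟨f, f1, f2, e, h⟩ := hc
  choose h h1 h2 using h
  obtain ⟨b, F, H, hb, hF, hH⟩ := c76_den β hβ f h
  refine ⟨b, F, H, e, hb, ?_, ?_, ?_, ?_⟩
  · intro i a c
    refine c75_hom (b := b) ?_ (f1 i a c)
    have h3 := congrFun (LinearMap.congr_fun (hF i) (Pi.single c 1)) a
    rw [c04_single] at h3
    exact h3
  · intro i
    refine c75_inj (c75_io K n) c75_io_inj _ _ ?_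
    rw [c04_comp, hF, hF, c04_zero, LinearMap.smul_comp, LinearMap.comp_smul, f2, smul_zero, smul_zero]
  · intro a v
    have h3 : F 0 ∘ₗ H a 0 = (C (b ^ 2) * X a ^ e : MvPolynomial (Fin n) (Polynomial K)) •
        (LinearMap.id : (Fin (β 0) → MvPolynomial (Fin n) (Polynomial K)) →ₗ[MvPolynomial (Fin n) (Polynomial K)] _) := by
      refine c75_inj (c75_io K n) c75_io_inj _ _ ?_
      refine LinearMap.ext fun w => ?_
      rw [c04_scal, c04_comp, hF, hH, c76_io, LinearMap.smul_comp, LinearMap.comp_smul]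
      simp only [LinearMap.smul_apply, LinearMap.comp_apply]
      rw [h1, smul_smul, smul_smul, mul_assoc]
    exact LinearMap.congr_fun h3 v
  · intro a i v
    have h3 : F (i + 1) ∘ₗ H a (i + 1) + H a i ∘ₗ F i = (C (b ^ 2) * X a ^ e : MvPolynomial (Fin n) (Polynomial K)) •
        (LinearMap.id : (Fin (β (i + 1)) → MvPolynomial (Fin n) (Polynomial K)) →ₗ[MvPolynomial (Fin n) (Polynomial K)] _) := by
      refine c75_inj (c75_io K n) c75_io_inj _ _ ?_
      refine LinearMap.ext fun w => ?_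
      rw [c04_scal, c04_add, c04_comp, c04_comp, hF, hF, hH, hH, c76_io, LinearMap.smul_comp, LinearMap.comp_smul,
        LinearMap.smul_comp, LinearMap.comp_smul]
      simp only [LinearMap.smul_apply, LinearMap.comp_apply, LinearMap.add_apply]
      rw [← smul_add, ← smul_add, h2, smul_smul, smul_smul, mul_assoc]
    exact LinearMap.congr_fun h3 v

end H92C
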