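import Pool.Agent.Lib.H92C.C76

/-!
# H92C, chunk C77 (M, 2 lemmas): specialization of t (section C.10)
-/

set_option autoImplicit false

open MvPolynomial

namespace H92C

variable {K : Type} [Field K] {n : ℕ}

/-- Specialization at a point which is not a root of the denominator.  PROOF: ψ := MvPolynomial.map (Polynomial.aeval τ).toRingHom : K[t][x] → L[x]; f' i := am ψ (F i),
h' a i := C ((aeval τ b)⁻¹ ^ 2) • am ψ (H a i); c04_comp_apply, c04_homot or c04_add, c04_scal; homogeneity: IsHomogeneous.map, c04_single. -/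
theorem c77_at (d : ℕ → ℤ) (β : ℕ → ℕ) (b : Polynomial K)
    (F : (i : ℕ) → (Fin (β (i + 1)) → MvPolynomial (Fin n) (Polynomial K)) →ₗ[MvPolynomial (Fin n) (Polynomial K)]
        (Fin (β i) → MvPolynomial (Fin n) (Polynomial K)))
    (H : Fin n → (i : ℕ) → (Fin (β i) → MvPolynomial (Fin n) (Polynomial K)) →ₗ[MvPolynomial (Fin n) (Polynomial K)]
        (Fin (β (i + 1)) → MvPolynomial (Fin n) (Polynomial K))) (e : ℕ)
    (h1 : ∀ (i : ℕ) (a : Fin (β i)) (c : Fin (β (i + 1))), (F i (Pi.single c 1) a).IsHomogeneous (d (i + 1) - d i).toNat)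
    (h2 : ∀ i : ℕ, F i ∘ₗ F (i + 1) = 0)
    (h3 : ∀ a v, F 0 (H a 0 v) = (C (b ^ 2) * X a ^ e : MvPolynomial (Fin n) (Polynomial K)) • v)
    (h4 : ∀ (a) (i : ℕ) (v), F (i + 1) (H a (i + 1) v) + H a i (F i v) = (C (b ^ 2) * X a ^ e : MvPolynomial (Fin n) (Polynomial K)) • v)
    (L : Type) [Field L] [Algebra K L] (τ : L) (hτ : Polynomial.aeval τ b ≠ 0) : Cert L n d β := by
  obtain ⟨ψ, hψ⟩ : ∃ ψ : MvPolynomial (Fin n) (Polynomial K) →+* MvPolynomial (Fin n) L,
      ψ = MvPolynomial.map (Polynomial.aeval τ : Polynomial K →ₐ[K] L).toRingHom := ⟨_, rfl⟩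
  have hx : ∀ a : Fin n, (C ((Polynomial.aeval τ b)⁻¹ ^ 2) : MvPolynomial (Fin n) L) *
      ψ (C (b ^ 2) * X a ^ e) = X a ^ e := by
    intro a
    have h5 : ψ (C (b ^ 2) * X a ^ e) = C (Polynomial.aeval τ b ^ 2) * X a ^ e := by
      rw [hψ]
      simp
    rw [h5, ← mul_assoc, ← C_mul, ← mul_pow, inv_mul_cancel₀ hτ, one_pow, C_1, one_mul]
  refine ⟨fun i => am (M := MvPolynomial (Fin n) L) ψ (F i), ?_, ?_, e, fun a => ?_⟩
  · intro i a c
    rw [c04_single, hψ]
    exact (h1 i a c).map _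
  · intro i
    rw [← c04_comp, h2, c04_zero]
  · obtain ⟨k3, k4⟩ := c04_homot (M := MvPolynomial (Fin n) L) ψ β F (H a) _ (h3 a) (h4 a)
    refine ⟨fun i => (C ((Polynomial.aeval τ b)⁻¹ ^ 2) : MvPolynomial (Fin n) L) •
      am (M := MvPolynomial (Fin n) L) ψ (H a i), fun v => ?_, fun i v => ?_⟩
    · rw [LinearMap.smul_apply, map_smul, k3, smul_smul, hx]
    · rw [LinearMap.smul_apply, map_smul, LinearMap.smul_apply, ← smul_add, k4, smul_smul, hx]

/-- Specialization (thmC_spec).  PROOF: c76_model, c := b.natDegree; a point τ with aeval τ b ≠ 0 exists: b.map (algebraMap K L) ≠ 0 and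
Polynomial.exists_eval_ne_zero_of_natDegree_lt_card (a cardinal inequality: Infinite L: Cardinal.aleph0_le_mk; otherwise L is finite or Nat.card L = 0 (excluded by c < Nat.card L), and
Nat.cast_card / Cardinal.mk_fintype); or directly: a nonzero polynomial has at most natDegree roots. -/
theorem c77_spec (K : Type) [Field K] (n : ℕ) (d : ℕ → ℤ) (β : ℕ → ℕ) (hβ : ∀ i, n < i → β i = 0) (h : Cert (RatFunc K) n d β) :
    ∃ c : ℕ, ∀ (L : Type) [Field L] [Algebra K L] (_ : Infinite L ∨ c < Nat.card L), Cert L n d β := by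
  obtain ⟨b, F, H, e, hb, h1, h2, h3, h4⟩ := c76_model d β hβ h
  refine ⟨b.natDegree, fun L _ _ hL => ?_⟩
  have h5 : b.map (algebraMap K L) ≠ 0 :=
    (Polynomial.map_ne_zero_iff (algebraMap K L).injective).2 hb
  have h6 : ((b.map (algebraMap K L)).natDegree : Cardinal) < Cardinal.mk L := by
    rw [Polynomial.natDegree_map]
    rcases finite_or_infinite L with hf | hi
    · have h7 : b.natDegree < Nat.card L := by
        rcases hL with hL | hL
        · exact absurd hL (not_infinite_iff_finite.2 hf)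
        · exact hL
      rw [← Nat.cast_card]
      exact_mod_cast h7
    · exact lt_of_lt_of_le (Cardinal.nat_lt_aleph0 _) (Cardinal.aleph0_le_mk L)
  obtain ⟨τ, hτ⟩ := Polynomial.exists_eval_ne_zero_of_natDegree_lt_card _ h5 h6
  rw [Polynomial.eval_map_algebraMap] at hτ
  exact c77_at d β b F H e h1 h2 h3 h4 L τ hτ

end H92C
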