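import Pool.Agent.Lib.H92C.Defs

/-!
# H92C, chunk C80 (S/M, 7 small lemmas): coordinates of polynomials over an extension field (section C.11)
-/

set_option autoImplicit false

open MvPolynomial

namespace H92C

variable {K L : Type} [Field K] [Field L] [Algebra K L] {n : ℕ}

/-- A K-linear form on L applied to the coefficients. -/
noncomputable def c80_co (l : L →ₗ[K] K) (p : MvPolynomial (Fin n) L) : MvPolynomial (Fin n) K :=
  ∑ s ∈ p.support, monomial s (l (coeff s p))

theorem c80_coeff (l : L →ₗ[K] K) (p : MvPolynomial (Fin n) L) (s : Fin n →₀ ℕ) : coeff s (c80_co l p) = l (coeff s p) := by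
  classical
  unfold c80_co
  rw [coeff_sum]
  simp only [coeff_monomial]
  rw [Finset.sum_ite_eq' p.support s]
  by_cases h : s ∈ p.support
  · rw [if_pos h]
  · rw [if_neg h, notMem_support_iff.1 h, map_zero]

theorem c80_add (l : L →ₗ[K] K) (p q : MvPolynomial (Fin n) L) : c80_co l (p + q) = c80_co l p + c80_co l q := by
  ext s
  rw [c80_coeff, coeff_add, coeff_add, c80_coeff, c80_coeff, map_add]

/-- PROOF: compare the coefficients: coeff_mul, coeff_map, algebraMap K L x * y = x • y. -/
theorem c80_mul (l : L →ₗ[K] K) (p : MvPolynomial (Fin n) K) (q : MvPolynomial (Fin n) L) :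
    c80_co l (MvPolynomial.map (algebraMap K L) p * q) = p * c80_co l q := by
  classical
  ext s
  rw [c80_coeff, coeff_mul, coeff_mul, map_sum]
  refine Finset.sum_congr rfl fun x _ => ?_
  rw [coeff_map, ← Algebra.smul_def, map_smul, smul_eq_mul, c80_coeff]

theorem c80_hom (l : L →ₗ[K] K) {m : ℕ} {p : MvPolynomial (Fin n) L} (hp : p.IsHomogeneous m) : (c80_co l p).IsHomogeneous m := by
  intro s hs
  refine hp (d := s) fun h => hs ?_
  rw [c80_coeff, h, map_zero]

/-- The polynomial with given coordinates. -/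
noncomputable def c80_su {r : ℕ} (ω : Module.Basis (Fin r) K L) (u : Fin r → MvPolynomial (Fin n) K) : MvPolynomial (Fin n) L :=
  ∑ j, C (ω j) * MvPolynomial.map (algebraMap K L) (u j)

theorem c80_su_co {r : ℕ} (ω : Module.Basis (Fin r) K L) (p : MvPolynomial (Fin n) L) :
    c80_su ω (fun j => c80_co (ω.coord j) p) = p := by
  ext s
  unfold c80_su
  rw [coeff_sum]
  have h : ∀ j, coeff s (C (ω j) * MvPolynomial.map (algebraMap K L) (c80_co (ω.coord j) p)) =
      ω.repr (coeff s p) j • ω j := by
    intro j
    rw [coeff_C_mul, coeff_map, c80_coeff, Module.Basis.coord_apply, Algebra.smul_def, mul_comm]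
  rw [Finset.sum_congr rfl fun j _ => h j]
  exact ω.sum_repr (coeff s p)

theorem c80_co_su {r : ℕ} (ω : Module.Basis (Fin r) K L) (u : Fin r → MvPolynomial (Fin n) K) (j : Fin r) :
    c80_co (ω.coord j) (c80_su ω u) = u j := by
  ext s
  rw [c80_coeff]
  unfold c80_su
  rw [coeff_sum, map_sum, Finset.sum_eq_single j]
  · rw [coeff_C_mul, coeff_map, mul_comm, ← Algebra.smul_def, map_smul, Module.Basis.coord_apply,
      Module.Basis.repr_self, Finsupp.single_eq_same, smul_eq_mul, mul_one]
  · intro i _ hi
    rw [coeff_C_mul, coeff_map, mul_comm, ← Algebra.smul_def, map_smul, Module.Basis.coord_apply,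
      Module.Basis.repr_self, Finsupp.single_eq_of_ne (Ne.symm hi), smul_zero]
  · intro h
    exact absurd (Finset.mem_univ j) h

theorem c80_su_mul {r : ℕ} (ω : Module.Basis (Fin r) K L) (p : MvPolynomial (Fin n) K) (u : Fin r → MvPolynomial (Fin n) K) :
    c80_su ω (fun j => p * u j) = MvPolynomial.map (algebraMap K L) p * c80_su ω u := by
  unfold c80_su
  rw [Finset.mul_sum]
  refine Finset.sum_congr rfl fun j _ => ?_
  rw [map_mul]
  ring

end H92C
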