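import Pool.Agent.Lib.H92C.C80

/-!
# H92C, chunk C81 (S/M): restriction of scalars (section C.11)
-/

set_option autoImplicit false

open MvPolynomial

namespace H92C

variable {K L : Type} [Field K] [Field L] [Algebra K L] {n : ℕ}

/-- The coordinates of a vector. -/
noncomputable def c81_J {r : ℕ} (ω : Module.Basis (Fin r) K L) {m : ℕ} (v : Fin m → MvPolynomial (Fin n) L) :
    Fin (r * m) → MvPolynomial (Fin n) K :=
  fun b => c80_co (ω.coord (finProdFinEquiv.symm b).1) (v (finProdFinEquiv.symm b).2)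

/-- The vector with given coordinates. -/
noncomputable def c81_I {r : ℕ} (ω : Module.Basis (Fin r) K L) {m : ℕ} (u : Fin (r * m) → MvPolynomial (Fin n) K) :
    Fin m → MvPolynomial (Fin n) L :=
  fun a => c80_su ω fun j => u (finProdFinEquiv (j, a))

theorem c81_IJ {r : ℕ} (ω : Module.Basis (Fin r) K L) {m : ℕ} (v : Fin m → MvPolynomial (Fin n) L) : c81_I ω (c81_J ω v) = v := by
  funext a
  show c80_su ω (fun j => c80_co (ω.coord (finProdFinEquiv.symm (finProdFinEquiv (j, a))).1)
    (v (finProdFinEquiv.symm (finProdFinEquiv (j, a))).2)) = v a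
  simp only [Equiv.symm_apply_apply]
  exact c80_su_co ω (v a)

theorem c81_JI {r : ℕ} (ω : Module.Basis (Fin r) K L) {m : ℕ} (u : Fin (r * m) → MvPolynomial (Fin n) K) : c81_J ω (c81_I ω u) = u := by
  funext b
  show c80_co (ω.coord (finProdFinEquiv.symm b).1)
    (c80_su ω fun j => u (finProdFinEquiv (j, (finProdFinEquiv.symm b).2))) = u b
  rw [c80_co_su]
  exact congrArg u (finProdFinEquiv.apply_symm_apply b)

theorem c81_I_add {r : ℕ} (ω : Module.Basis (Fin r) K L) {m : ℕ} (u u' : Fin (r * m) → MvPolynomial (Fin n) K) :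
    c81_I ω (u + u') = c81_I ω u + c81_I ω u' := by
  funext a
  show c80_su ω (fun j => u (finProdFinEquiv (j, a)) + u' (finProdFinEquiv (j, a))) = _
  unfold c80_su
  show _ = (∑ j, C (ω j) * MvPolynomial.map (algebraMap K L) (u (finProdFinEquiv (j, a)))) +
    ∑ j, C (ω j) * MvPolynomial.map (algebraMap K L) (u' (finProdFinEquiv (j, a)))
  rw [← Finset.sum_add_distrib]
  refine Finset.sum_congr rfl fun j _ => ?_
  rw [map_add, mul_add]

theorem c81_I_smul {r : ℕ} (ω : Module.Basis (Fin r) K L) {m : ℕ} (p : MvPolynomial (Fin n) K)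
    (u : Fin (r * m) → MvPolynomial (Fin n) K) :
    c81_I ω (p • u) = MvPolynomial.map (algebraMap K L) p • c81_I ω u := by
  funext a
  exact c80_su_mul ω p fun j => u (finProdFinEquiv (j, a))

theorem c81_I_zero {r : ℕ} (ω : Module.Basis (Fin r) K L) {m : ℕ} :
    c81_I ω (0 : Fin (r * m) → MvPolynomial (Fin n) K) = 0 := by
  have h := c81_I_smul ω (m := m) (0 : MvPolynomial (Fin n) K) 0
  rw [map_zero, zero_smul, zero_smul] at h
  exact h

theorem c81_J_add {r : ℕ} (ω : Module.Basis (Fin r) K L) {m : ℕ} (v v' : Fin m → MvPolynomial (Fin n) L) :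
    c81_J ω (v + v') = c81_J ω v + c81_J ω v' := by
  funext b
  exact c80_add _ _ _

theorem c81_J_smul {r : ℕ} (ω : Module.Basis (Fin r) K L) {m : ℕ} (p : MvPolynomial (Fin n) K)
    (v : Fin m → MvPolynomial (Fin n) L) :
    c81_J ω (MvPolynomial.map (algebraMap K L) p • v) = p • c81_J ω v := by
  funext b
  exact c80_mul _ _ _

theorem c81_J_zero {r : ℕ} (ω : Module.Basis (Fin r) K L) {m : ℕ} :
    c81_J ω (0 : Fin m → MvPolynomial (Fin n) L) = 0 := by
  have h := c81_J_smul ω (m := m) (0 : MvPolynomial (Fin n) K) 0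
  rw [map_zero, zero_smul, zero_smul] at h
  exact h

/-- The map f over L in coordinates over K: J ∘ f ∘ I.  PROOF: additivity and semilinearity of I and J from C80. -/
theorem c81_map {r : ℕ} (ω : Module.Basis (Fin r) K L) {m m' : ℕ}
    (f : (Fin m → MvPolynomial (Fin n) L) →ₗ[MvPolynomial (Fin n) L] (Fin m' → MvPolynomial (Fin n) L)) :
    ∃ g : (Fin (r * m) → MvPolynomial (Fin n) K) →ₗ[MvPolynomial (Fin n) K] (Fin (r * m') → MvPolynomial (Fin n) K),
      ∀ u, g u = c81_J ω (f (c81_I ω u)) := by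
  refine ⟨{ toFun := fun u => c81_J ω (f (c81_I ω u)), map_add' := fun u u' => ?_, map_smul' := fun p u => ?_ },
    fun u => rfl⟩
  · rw [c81_I_add, map_add, c81_J_add]
  · rw [c81_I_smul, map_smul, c81_J_smul, RingHom.id_apply]

/-- The entries.  PROOF: I (Pi.single b 1) = C (ω j) • Pi.single b' 1 for b = (j, b'); c80_hom, and C (ω j) * homogeneous is homogeneous. -/
theorem c81_hom {r : ℕ} (ω : Module.Basis (Fin r) K L) {m m' δ : ℕ}
    (f : (Fin m → MvPolynomial (Fin n) L) →ₗ[MvPolynomial (Fin n) L] (Fin m' → MvPolynomial (Fin n) L))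
    (hf : ∀ b a, (f (Pi.single b 1) a).IsHomogeneous δ) (b : Fin (r * m)) (a : Fin (r * m')) :
    (c81_J ω (f (c81_I ω (Pi.single b 1))) a).IsHomogeneous δ := by
  classical
  have h1 : c81_I ω (Pi.single b 1) = (C (ω (finProdFinEquiv.symm b).1) : MvPolynomial (Fin n) L) •
      (Pi.single (finProdFinEquiv.symm b).2 1 : Fin m → MvPolynomial (Fin n) L) := by
    funext a'
    show (∑ j, C (ω j) * MvPolynomial.map (algebraMap K L)
      ((Pi.single b 1 : Fin (r * m) → MvPolynomial (Fin n) K) (finProdFinEquiv (j, a')))) = _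
    rw [Pi.smul_apply, smul_eq_mul]
    by_cases h : a' = (finProdFinEquiv.symm b).2
    · rw [Finset.sum_eq_single (finProdFinEquiv.symm b).1]
      · have h2 : finProdFinEquiv ((finProdFinEquiv.symm b).1, a') = b := by
          rw [h]
          exact finProdFinEquiv.apply_symm_apply b
        rw [h2, Pi.single_eq_same, h, Pi.single_eq_same, map_one]
      · intro j _ hj
        rw [Pi.single_eq_of_ne, map_zero, mul_zero]
        intro h2
        apply hj
        rw [← h2, Equiv.symm_apply_apply]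
      · intro h2
        exact absurd (Finset.mem_univ _) h2
    · rw [Pi.single_eq_of_ne h, mul_zero]
      refine Finset.sum_eq_zero fun j _ => ?_
      rw [Pi.single_eq_of_ne, map_zero, mul_zero]
      intro h2
      apply h
      rw [← h2, Equiv.symm_apply_apply]
  rw [h1, map_smul]
  refine c80_hom _ ?_
  have h2 := (isHomogeneous_C (Fin n) (ω (finProdFinEquiv.symm b).1)).mul
    (hf (finProdFinEquiv.symm b).2 (finProdFinEquiv.symm a).2)
  rw [zero_add] at h2
  exact h2

theorem c81_smul {r : ℕ} (ω : Module.Basis (Fin r) K L) {m : ℕ} (p : MvPolynomial (Fin n) K) (u : Fin (r * m) → MvPolynomial (Fin n) K) :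
    c81_I ω (p • u) = MvPolynomial.map (algebraMap K L) p • c81_I ω u := by
  exact c81_I_smul ω p u

/-- Restriction of scalars (thmC_restr).  PROOF: ω := (Module.finBasisOfFinrankEq K L hr) (finite since the rank r is positive: Module.finite_of_finrank_pos), c81_map for every f i;
range = ker is transported by the mutually inverse maps I, J (c81_IJ, c81_JI; J 0 = 0, J is injective); X a ^ e • u: I (X a ^ e • u) = X a ^ e • I u = f 0 w (c81_smul, map_X), u = J (f 0 w) =
g 0 (J w). -/
theorem c81_restr (K L : Type) [Field K] [Field L] [Algebra K L] (r : ℕ) (hr : Module.finrank K L = r) (h0 : 0 < r) (n : ℕ) (d : ℕ → ℤ)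
    (β : ℕ → ℕ) (h : Rfl L n d β) : Rfl K n d (fun i => r * β i) := by
  obtain ⟨f, hf1, hf2, e, hf3⟩ := h
  haveI : Module.Finite K L := Module.finite_of_finrank_pos (hr ▸ h0)
  let ω := Module.finBasisOfFinrankEq K L hr
  choose g hg using fun i => c81_map (n := n) ω (f i)
  refine ⟨g, fun i a b => ?_, fun i => ?_, e, fun a u => ?_⟩
  · rw [hg]
    exact c81_hom ω (f i) (fun b a => hf1 i a b) b a
  · apply le_antisymm
    · rintro _ ⟨u, rfl⟩
      rw [LinearMap.mem_ker, hg, hg, c81_IJ]
      have h1 : f (i + 1) (c81_I ω u) ∈ LinearMap.ker (f i) := hf2 i ▸ ⟨_, rfl⟩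
      rw [LinearMap.mem_ker.1 h1, c81_J_zero]
    · intro u hu
      rw [LinearMap.mem_ker, hg] at hu
      have h1 : f i (c81_I ω u) = 0 := by
        rw [← c81_IJ ω (f i (c81_I ω u)), hu, c81_I_zero]
      have h2 : c81_I ω u ∈ LinearMap.range (f (i + 1)) := by
        rw [hf2 i]
        exact h1
      obtain ⟨w, hw⟩ := h2
      refine ⟨c81_J ω w, ?_⟩
      rw [hg, c81_IJ, hw, c81_JI]
  · obtain ⟨w, hw⟩ := hf3 a (c81_I ω u)
    refine ⟨c81_J ω w, ?_⟩
    rw [hg, c81_IJ, hw]
    have h1 := c81_I_smul ω ((X a : MvPolynomial (Fin n) K) ^ e) u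
    rw [map_pow, map_X] at h1
    rw [← h1, c81_JI]

end H92C
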