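import Pool.Agent.Lib.H92C.Defs

/-!
# H92C, module C: definitions (certificates, strands, the Laurent theorem, the Segre map)

Everything here is elementary: free modules Fin b → R, complexes f i : (Fin (β (i+1)) → R) → (Fin (β i) → R).
-/

set_option autoImplicit false

open MvPolynomial

namespace H92C

section am

/-- The matrix of f, mapped by φ, acts on the vectors with entries in the module M. -/
def am {R S M : Type} [CommRing R] [CommRing S] [AddCommGroup M] [Module S M] (φ : R →+* S) {m n : ℕ}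
    (f : (Fin m → R) →ₗ[R] (Fin n → R)) : (Fin m → M) →ₗ[S] (Fin n → M) where
  toFun v := fun a => ∑ b, φ (f (Pi.single b 1) a) • v b
  map_add' u v := by funext a; simp [Finset.sum_add_distrib]
  map_smul' c v := by funext a; simp [Finset.smul_sum, smul_smul, mul_comm]

/-- The boundary of a complex f over R acting on vectors with entries in M, as a B-linear map. -/
def db {R B S M : Type} [CommRing R] [CommRing B] [CommRing S] [Algebra B S] [AddCommGroup M] [Module S M] [Module B M]
    [IsScalarTower B S M] (φ : R →+* S) (β : ℕ → ℕ) (f : (i : ℕ) → (Fin (β (i + 1)) → R) →ₗ[R] (Fin (β i) → R)) (i : ℕ) :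
    (Fin (β (i + 1)) → M) →ₗ[B] (Fin (β i) → M) := (am φ (f i)).restrictScalars B

/-- The vectors of position i with entries in S i. -/
def pS {B M : Type} [CommRing B] [AddCommGroup M] [Module B M] (β : ℕ → ℕ) (S : ℕ → Submodule B M) (i : ℕ) :
    Submodule B (Fin (β i) → M) where
  carrier := {v | ∀ b, v b ∈ S i}
  zero_mem' := fun _ => (S i).zero_mem
  add_mem' := fun ha hb b => (S i).add_mem (ha b) (hb b)
  smul_mem' := fun c _ ha b => (S i).smul_mem c (ha b)

end am

section Ex

variable {Q : Type} [CommRing Q] {A : ℕ → Type} [∀ i, AddCommGroup (A i)] [∀ i, Module Q (A i)]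

/-- The cycles modulo S' (no condition in position 0). -/
def Cy (dd : ∀ i, A (i + 1) →ₗ[Q] A i) (S' : ∀ i, Submodule Q (A i)) : (i : ℕ) → A i → Prop
  | 0, _ => True
  | i + 1, v => dd i v ∈ S' i

/-- Every cycle of position i of the pair (S, S') is a boundary up to a power of θ. -/
def Ex (dd : ∀ i, A (i + 1) →ₗ[Q] A i) (θ : Q) (S S' : ∀ i, Submodule Q (A i)) (i : ℕ) : Prop :=
  ∀ v ∈ S i, Cy dd S' i v → ∃ (e : ℕ), ∃ w ∈ S (i + 1), θ ^ e • v - dd i w ∈ S' i

end Ex

section La

/-- The Laurent polynomials in r variables. -/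
abbrev La (r : ℕ) (B : Type) [CommRing B] : Type := AddMonoidAlgebra B (Fin r → ℤ)

/-- The exponents. -/
def exL (r : ℕ) : (Fin r →₀ ℕ) →+ (Fin r → ℤ) where
  toFun s := fun j => (s j : ℤ)
  map_zero' := by funext j; simp
  map_add' a b := by funext j; simp

/-- Polynomials as Laurent polynomials. -/
noncomputable def jL (r : ℕ) (B : Type) [CommRing B] : MvPolynomial (Fin r) B →+* La r B :=
  AddMonoidAlgebra.mapDomainRingHom B (exL r)

/-- The Laurent polynomials with exponents in P. -/
def SL {r : ℕ} {B : Type} [CommRing B] (P : Set (Fin r → ℤ)) : Submodule B (La r B) where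
  carrier := {u | ∀ α, α ∉ P → u.coeff α = 0}
  zero_mem' := fun _ _ => rfl
  add_mem' := fun {a b} ha hb α hα => by simp [ha α hα, hb α hα]
  smul_mem' := fun c a ha α hα => by simp [ha α hα]

/-- The Laurent polynomials of degree t. -/
def DL (r : ℕ) (B : Type) [CommRing B] (t : ℤ) : Submodule B (La r B) := SL {α | ∑ j, α j = t}

/-- The component of degree t. -/
noncomputable def prL {r : ℕ} {B : Type} [CommRing B] (t : ℤ) : La r B →ₗ[B] La r B where
  toFun u := AddMonoidAlgebra.ofCoeff (u.coeff.filter fun α => ∑ j, α j = t)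
  map_add' a b := by
    ext α
    by_cases h : ∑ j, α j = t <;> simp [h]
  map_smul' c a := by
    ext α
    by_cases h : ∑ j, α j = t <;> simp [h]

/-- Closed under adding nonnegative exponents. -/
def Upc {r : ℕ} (P : Set (Fin r → ℤ)) : Prop := ∀ α ∈ P, ∀ γ : Fin r → ℤ, (∀ j, 0 ≤ γ j) → α + γ ∈ P

/-- Closed under subtracting the j-th unit exponent. -/
def Dwn {r : ℕ} (j : Fin r) (P : Set (Fin r → ℤ)) : Prop := ∀ α ∈ P, α - Pi.single j 1 ∈ P

end La

section poly

/-- The homogeneous component of integral degree. -/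
noncomputable def hc {N : ℕ} {B : Type} [CommRing B] (j : ℤ) : MvPolynomial (Fin N) B →ₗ[B] MvPolynomial (Fin N) B :=
  if 0 ≤ j then homogeneousComponent j.toNat else 0

/-- The Segre map: x'_k goes to the sum of the x_i y_j, i + j = k. -/
noncomputable def sgr (K : Type) [Field K] (M ν N : ℕ) :
    MvPolynomial (Fin M) K →+* MvPolynomial (Fin N) (MvPolynomial (Fin ν) K) :=
  (aeval (R := K) fun k : Fin M => ∑ i : Fin ν, ∑ j : Fin N,
    if (i : ℕ) + j = k then (C (X i) * X j : MvPolynomial (Fin N) (MvPolynomial (Fin ν) K)) else 0).toRingHom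

/-- All coefficients are homogeneous of degree δ (δ an integer; 0 if δ < 0). -/
def xh {K : Type} [Field K] {ν N : ℕ} (δ : ℤ) (P : MvPolynomial (Fin N) (MvPolynomial (Fin ν) K)) : Prop :=
  ∀ s, coeff s P ∈ hm ν K δ

end poly

section rows

variable {K : Type} [Field K] (z : ℤ → K) (B : Type) [CommRing B] [Algebra K B] {N : ℕ}

/-- The homogeneous vectors of total degree t in position p of F_D. -/
def Gm (B : Type) [CommRing B] {N : ℕ} (D : Fin (N + 1) → ℤ) (p : Fin (N + 1)) (t : ℤ) : Submodule B (W (MvPolynomial (Fin N) B) N) where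
  carrier := {v | v ∈ U (MvPolynomial (Fin N) B) N (dl D p) ∧ Hg (t - D p) v}
  zero_mem' := ⟨Submodule.zero_mem _, fun _ => Submodule.zero_mem _⟩
  add_mem' := fun ha hb => ⟨Submodule.add_mem _ ha.1 hb.1, fun c => Submodule.add_mem _ (ha.2 c) (hb.2 c)⟩
  smul_mem' := fun r v ha => ⟨fun c hc => by
    show r • v c = 0
    rw [ha.1 c hc, smul_zero], fun c => Submodule.smul_mem _ r (ha.2 c)⟩

/-- The cycles of total degree t in position i + 1. -/
noncomputable def Zm (D : Fin (N + 1) → ℤ) (i : Fin N) (t : ℤ) : Submodule B (W (MvPolynomial (Fin N) B) N) :=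
  Gm B D i.succ t ⊓ LinearMap.ker ((bd z (xs N B) D i).restrictScalars B)

/-- The boundaries of total degree t in position i. -/
noncomputable def Bm (D : Fin (N + 1) → ℤ) (i : Fin N) (t : ℤ) : Submodule B (W (MvPolynomial (Fin N) B) N) :=
  (Gm B D i.succ t).map ((bd z (xs N B) D i).restrictScalars B)

/-- The row 0, 1, .., m2, e, e + 1, .. -/
def Dpp (m2 : ℕ) (e : ℤ) {N : ℕ} : Fin (N + 1) → ℤ := fun p => if (p : ℕ) ≤ m2 then (p : ℤ) else e + ((p : ℤ) - m2 - 1)

/-- The coefficient of x^s of a polynomial in x and y, as a polynomial in y. -/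
noncomputable def cfc {K : Type} [Field K] {ν N : ℕ} (s : Fin ν →₀ ℕ) (P : MvPolynomial (Fin N) (MvPolynomial (Fin ν) K)) :
    MvPolynomial (Fin N) K := ∑ μ ∈ P.support, monomial μ (coeff s (coeff μ P))

/-- Polynomials in y as polynomials in x and y. -/
noncomputable def em {K : Type} [Field K] (ν : ℕ) {N : ℕ} : MvPolynomial (Fin N) K →+* MvPolynomial (Fin N) (MvPolynomial (Fin ν) K) :=
  MvPolynomial.map C

end rows

end H92C
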