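import Mathlib

/-!
# H92C: definitions (MP_b67468, frozen statement S00399: integral points on the rays of the Boij-Soederberg cone)

See PROOF.md in this folder. K is a field, z : ℤ → K (later z e = q ^ e), R a commutative K-algebra, x 0, x 1, .. elements of R.
A vector of level n is a function on the chains of rows Ch n = (rows of length n-1, n-2, .., 0).
-/

open MvPolynomial

namespace H92C

/-- Chains of rows: a row of length n - 1, a row of length n - 2, .., a row of length 0. -/
def Ch : ℕ → Type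
  | 0 => Unit
  | n + 1 => (Fin n → ℤ) × Ch n

/-- Equality of chains is decidable. -/
def Ch.dec : (n : ℕ) → DecidableEq (Ch n)
  | 0 => inferInstanceAs (DecidableEq Unit)
  | n + 1 => haveI := Ch.dec n; inferInstanceAs (DecidableEq ((Fin n → ℤ) × Ch n))

instance (n : ℕ) : DecidableEq (Ch n) := Ch.dec n

/-- The vectors of level n with values in R. -/
abbrev W (R : Type) (n : ℕ) : Type := Ch n → R

/-- The unit row. -/
def ep {n : ℕ} (b : Fin n) : Fin n → ℤ := Pi.single b 1

/-- F interlaces E: E_j ≤ F_j < E_{j+1}. -/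
def Il {n : ℕ} (E : Fin (n + 1) → ℤ) (F : Fin n → ℤ) : Prop :=
  ∀ j : Fin n, E j.castSucc ≤ F j ∧ F j < E j.succ

instance {n : ℕ} (E : Fin (n + 1) → ℤ) (F : Fin n → ℤ) : Decidable (Il E F) :=
  inferInstanceAs (Decidable (∀ j : Fin n, E j.castSucc ≤ F j ∧ F j < E j.succ))

/-- The chain c is a pattern under the row E. -/
def gd : (n : ℕ) → (Fin n → ℤ) → Ch n → Prop
  | 0, _, _ => True
  | n + 1, E, c => Il E c.1 ∧ gd n c.1 c.2

/-- Being a pattern is decidable. -/
def gd.dec : (n : ℕ) → (E : Fin n → ℤ) → (c : Ch n) → Decidable (gd n E c)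
  | 0, _, _ => isTrue trivial
  | n + 1, E, c => haveI := gd.dec n c.1 c.2; inferInstanceAs (Decidable (Il E c.1 ∧ gd n c.1 c.2))

instance (n : ℕ) (E : Fin n → ℤ) (c : Ch n) : Decidable (gd n E c) := gd.dec n E c

/-- The number of patterns under E. -/
noncomputable def uu {n : ℕ} (E : Fin n → ℤ) : ℕ := Nat.card {c : Ch n // gd n E c}

/-- The finite set of the rows which interlace D. -/
noncomputable def IF {n : ℕ} (D : Fin (n + 1) → ℤ) : Finset (Fin n → ℤ) :=
  Fintype.piFinset fun j => Finset.Ico (D j.castSucc) (D j.succ)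

theorem mem_IF {n : ℕ} (D : Fin (n + 1) → ℤ) (G : Fin n → ℤ) : G ∈ IF D ↔ Il D G := by
  simp [IF, Il, Fintype.mem_piFinset]

/-- The row D without the entry i. -/
def dl {N : ℕ} (D : Fin (N + 1) → ℤ) (i : Fin (N + 1)) : Fin N → ℤ := fun j => D (i.succAbove j)

/-- The row E with the entry t inserted at the position p. -/
def ins {N : ℕ} (p : Fin (N + 1)) (t : ℤ) (E : Fin N → ℤ) : Fin (N + 1) → ℤ := p.insertNth (α := fun _ => ℤ) t E

/-- The length of the last interval needed in the irreducibility theorem. -/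
def ell : ℕ → ℤ
  | 0 => 0
  | n + 1 => ell n + n + 3

section ops

variable {K R : Type} [Field K] [CommRing R] [Algebra K R]

/-- The slice of a vector of level n + 1 at the row F. -/
def sl {n : ℕ} (F : Fin n → ℤ) : W R (n + 1) →ₗ[R] W R n where
  toFun v := fun c => v (F, c)
  map_add' _ _ := rfl
  map_smul' _ _ := rfl

/-- The vector of level n + 1 supported on the row F. -/
def sg {n : ℕ} (F : Fin n → ℤ) : W R n →ₗ[R] W R (n + 1) where
  toFun w := fun c => if c.1 = F then w c.2 else 0
  map_add' a b := by funext c; by_cases h : c.1 = F <;> simp [h]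
  map_smul' r a := by funext c; by_cases h : c.1 = F <;> simp [h]

/-- The truncation to the rows which interlace E. -/
def tr : (n : ℕ) → (Fin n → ℤ) → W R n →ₗ[R] W R n
  | 0, _ => LinearMap.id
  | n + 1, E =>
    { toFun := fun v c => if Il E c.1 then v c else 0
      map_add' := fun a b => by funext c; by_cases h : Il E c.1 <;> simp [h]
      map_smul' := fun r a => by funext c; by_cases h : Il E c.1 <;> simp [h] }

/-- The vectors supported on the patterns under E. -/
def U (R : Type) [CommRing R] (n : ℕ) (E : Fin n → ℤ) : Submodule R (W R n) where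
  carrier := {v | ∀ c, ¬ gd n E c → v c = 0}
  zero_mem' := fun _ _ => rfl
  add_mem' := fun {a b} ha hb c hc => by simp [ha c hc, hb c hc]
  smul_mem' := fun r a ha c hc => by simp [ha c hc]

/-- The valid vectors: supported on chains which are patterns under their first row. -/
def Vv (R : Type) [CommRing R] : (n : ℕ) → Submodule R (W R n)
  | 0 => ⊤
  | n + 1 =>
    { carrier := {v | ∀ c, ¬ gd n c.1 c.2 → v c = 0}
      zero_mem' := fun _ _ => rfl
      add_mem' := fun {a b} ha hb c hc => by simp [ha c hc, hb c hc]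
      smul_mem' := fun r a ha c hc => by simp [ha c hc] }

/-- The polynomial of a row: the product of the s - z (F j). -/
def pp {n : ℕ} (z : ℤ → K) (F : Fin n → ℤ) (s : K) : K := ∏ j, (s - z (F j))

/-- The Lagrange polynomial of the row F at the position b. -/
def LL {n : ℕ} (z : ℤ → K) (b : Fin n) (s : K) (F : Fin n → ℤ) : K :=
  ∏ c ∈ Finset.univ.erase b, (s - z (F c)) / (z (F b) - z (F c))

/-- The operator X(s) of level n. -/
def XX (z : ℤ → K) (x : ℕ → R) : (n : ℕ) → K → W R n →ₗ[R] W R n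
  | 0, _ => 0
  | n + 1, s =>
    { toFun := fun v c => x n * (pp z c.1 s • v c) +
        ∑ b, LL z b s (c.1 - ep b) • tr n c.1 (XX z x n (z (c.1 b - 1)) (sl (c.1 - ep b) v)) c.2
      map_add' := fun a b => by
        funext c
        simp only [map_add, Pi.add_apply, smul_add, mul_add, Finset.sum_add_distrib]
        ring
      map_smul' := fun r a => by
        funext c
        simp only [map_smul, Pi.smul_apply, smul_eq_mul, RingHom.id_apply, mul_add, Finset.mul_sum, mul_smul_comm]
        congr 1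
        ring_nf }

/-- δ_a on the vectors under E: the truncated operator X(z(E_a)) (from U E to U (E + ε_a)). -/
def de (z : ℤ → K) (x : ℕ → R) {n : ℕ} (E : Fin n → ℤ) (a : Fin n) : W R n →ₗ[R] W R n :=
  tr n (E + ep a) ∘ₗ XX z x n (z (E a))

/-- The product of the operators X(z(e)), a ≤ e < a + r. -/
def QQ (z : ℤ → K) (x : ℕ → R) (n : ℕ) (a : ℤ) : ℕ → W R n →ₗ[R] W R n
  | 0 => LinearMap.id
  | r + 1 => XX z x n (z (a + r)) ∘ₗ QQ z x n a r

/-- The boundary of the complex F_D from position i + 1 to position i (from U (D without d_{i+1}) to U (D without d_i)). -/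
def bd (z : ℤ → K) (x : ℕ → R) {N : ℕ} (D : Fin (N + 1) → ℤ) (i : Fin N) : W R N →ₗ[R] W R N :=
  tr N (dl D i.castSucc) ∘ₗ QQ z x N (D i.castSucc) (D i.succ - D i.castSucc).toNat

end ops

section qops

variable {K R : Type} [Field K] [CommRing R] [Algebra K R] (q : K)

/-- z e = q ^ e. -/
def zq : ℤ → K := fun e => q ^ e

/-- The tensor operators ρ^μ(s) of level n, 1 ≤ μ ≤ n (constants: they do not involve x). -/
def PR (μ : ℕ) : (n : ℕ) → K → W R n →ₗ[R] W R n
  | 0, _ => 0
  | n + 1, s =>
    { toFun := fun v c => if μ = n + 1 then (s⁻¹ * (zq q (∑ j, c.1 j))⁻¹ * pp (zq q) c.1 s) • v c else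
        ∑ b, LL (zq q) b s (c.1 - ep b) • tr n c.1 (PR μ n (zq q (c.1 b - 1)) (sl (c.1 - ep b) v)) c.2
      map_add' := fun a b => by
        funext c
        by_cases h : μ = n + 1 <;>
        simp [h, map_add, Pi.add_apply, smul_add, Finset.sum_add_distrib]
      map_smul' := fun r a => by
        funext c
        by_cases h : μ = n + 1 <;>
        simp [h, map_smul, Pi.smul_apply, smul_eq_mul, Finset.mul_sum] }

/-- ρ_k^μ on the vectors under E (from U E to U (E + ε_k)). -/
def ro (μ : ℕ) {n : ℕ} (E : Fin n → ℤ) (k : Fin n) : W R n →ₗ[R] W R n :=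
  tr n (E + ep k) ∘ₗ PR q μ n (zq q (E k))

/-- The coefficient of the operator e (E above, from the row F to the row F - ε_b). -/
def kap {n : ℕ} (E : Fin (n + 1) → ℤ) (F : Fin n → ℤ) (b : Fin n) : K :=
  (zq q (∑ i, E i))⁻¹ * zq q (∑ j, F j) * (zq q (F b))⁻¹ * (∏ i, (zq q (F b) - zq q (E i))) /
    ∏ c ∈ Finset.univ.erase b, (zq q (F b) - zq q (F c))

/-- The operator e_μ (1 ≤ μ < n) on the vectors under E. -/
def ee (μ : ℕ) : (n : ℕ) → (Fin n → ℤ) → W R n →ₗ[R] W R n
  | 0, _ => 0
  | n + 1, E =>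
    { toFun := fun v c => if μ = n then ∑ b, kap q E (c.1 + ep b) b • tr n c.1 (sl (c.1 + ep b) v) c.2 else
        ee μ n c.1 (sl c.1 v) c.2
      map_add' := fun a b => by
        funext c
        by_cases h : μ = n <;>
        simp [h, map_add, Pi.add_apply, smul_add, Finset.sum_add_distrib]
      map_smul' := fun r a => by
        funext c
        by_cases h : μ = n <;>
        simp [h, map_smul, Pi.smul_apply, smul_eq_mul, Finset.mul_sum] }

/-- The tensor operators C_{n-r}^k on the vectors under E (from U E to U (E - ε_k)): C_n = truncation,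
C_μ = C_{μ+1} e_μ - q⁻¹ e_μ C_{μ+1}. -/
def CC {n : ℕ} (E : Fin n → ℤ) (k : Fin n) : ℕ → W R n →ₗ[R] W R n
  | 0 => tr n (E - ep k)
  | r + 1 => CC E k r ∘ₗ ee q (n - r - 1) n E - algebraMap K R q⁻¹ • (ee q (n - r - 1) n (E - ep k) ∘ₗ CC E k r)

end qops

section poly

/-- The variables x 0, .., x (N - 1) of level N. -/
noncomputable def xs (N : ℕ) (B : Type) [CommRing B] : ℕ → MvPolynomial (Fin N) B :=
  fun l => if h : l < N then X ⟨l, h⟩ else 0

/-- The homogeneous polynomials of integral degree j (zero for j < 0). -/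
noncomputable def hm (N : ℕ) (B : Type) [CommRing B] (j : ℤ) : Submodule B (MvPolynomial (Fin N) B) :=
  if 0 ≤ j then homogeneousSubmodule (Fin N) B j.toNat else ⊥

/-- Homogeneous vectors of degree j. -/
def Hg {N : ℕ} {B : Type} [CommRing B] {n : ℕ} (j : ℤ) (v : W (MvPolynomial (Fin N) B) n) : Prop :=
  ∀ c, v c ∈ hm N B j

/-- A chain map of degree 1 from F_D to F_D' (over the polynomial ring in N variables over K): for homogeneous v of degree j in
position p (generators in degree D p) the image has degree j + D p + 1 - D' p. -/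
structure CM {K : Type} [Field K] (z : ℤ → K) {N : ℕ} (D D' : Fin (N + 1) → ℤ)
    (φ : Fin (N + 1) → (W (MvPolynomial (Fin N) K) N →ₗ[MvPolynomial (Fin N) K] W (MvPolynomial (Fin N) K) N)) : Prop where
  maps : ∀ p, ∀ v ∈ U (MvPolynomial (Fin N) K) N (dl D p), φ p v ∈ U (MvPolynomial (Fin N) K) N (dl D' p)
  comm : ∀ i : Fin N, ∀ v ∈ U (MvPolynomial (Fin N) K) N (dl D i.succ),
    φ i.castSucc (bd z (xs N K) D i v) = bd z (xs N K) D' i (φ i.succ v)
  hom : ∀ p, ∀ v ∈ U (MvPolynomial (Fin N) K) N (dl D p), ∀ j : ℤ, Hg j v → Hg (j + D p + 1 - D' p) (φ p v)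

/-- The constants. -/
noncomputable def io {K : Type} [Field K] {N n : ℕ} (v : W K n) : W (MvPolynomial (Fin N) K) n := fun c => C (v c)

/-- The operator A occurs as the component in position p of a chain map of degree 1 from F_D to F_D'. -/
def TT {K : Type} [Field K] (z : ℤ → K) {N : ℕ} (D D' : Fin (N + 1) → ℤ) (p : Fin (N + 1)) (A : W K N →ₗ[K] W K N) : Prop :=
  ∃ φ, CM z D D' φ ∧ ∀ v ∈ U K N (dl D p), φ p (io v) = io (A v)

end poly

section res

/-- A pure resolution of type d with Betti numbers β of a module of finite length (over k[x_0, .., x_{n-1}]). -/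
def Rfl (k : Type) [Field k] (n : ℕ) (d : ℕ → ℤ) (β : ℕ → ℕ) : Prop :=
  ∃ f : (i : ℕ) → (Fin (β (i + 1)) → MvPolynomial (Fin n) k) →ₗ[MvPolynomial (Fin n) k]
        (Fin (β i) → MvPolynomial (Fin n) k),
    (∀ (i : ℕ) (a : Fin (β i)) (b : Fin (β (i + 1))),
      (f i (Pi.single b 1) a).IsHomogeneous (d (i + 1) - d i).toNat) ∧
    (∀ i : ℕ, LinearMap.range (f (i + 1)) = LinearMap.ker (f i)) ∧
    (∃ e : ℕ, ∀ (a : Fin n) (v : Fin (β 0) → MvPolynomial (Fin n) k), (X a : MvPolynomial (Fin n) k) ^ e • v ∈ LinearMap.range (f 0))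

/-- The same by certificates: a complex on which the multiplications by the X_a^e are homotopic to 0. -/
def Cert (k : Type) [Field k] (n : ℕ) (d : ℕ → ℤ) (β : ℕ → ℕ) : Prop :=
  ∃ f : (i : ℕ) → (Fin (β (i + 1)) → MvPolynomial (Fin n) k) →ₗ[MvPolynomial (Fin n) k]
        (Fin (β i) → MvPolynomial (Fin n) k),
    (∀ (i : ℕ) (a : Fin (β i)) (b : Fin (β (i + 1))),
      (f i (Pi.single b 1) a).IsHomogeneous (d (i + 1) - d i).toNat) ∧
    (∀ i : ℕ, f i ∘ₗ f (i + 1) = 0) ∧
    ∃ (e : ℕ), ∀ a : Fin n, ∃ h : (i : ℕ) → (Fin (β i) → MvPolynomial (Fin n) k) →ₗ[MvPolynomial (Fin n) k]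
        (Fin (β (i + 1)) → MvPolynomial (Fin n) k),
      (∀ v, f 0 (h 0 v) = (X a : MvPolynomial (Fin n) k) ^ e • v) ∧
      (∀ (i : ℕ) (v), f (i + 1) (h (i + 1) v) + h i (f i v) = (X a : MvPolynomial (Fin n) k) ^ e • v)

end res

end H92C
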