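import Pool.Agent.Lib.H92C.ThmI

/-!
# H92C, module H: definitions

Graded matrices over polynomial rings, the cone of Y - X, slices, direct sums of the complexes F_G, letters.
-/

open MvPolynomial

namespace H92C

section graded

variable {K : Type} [Field K]

/-- M is the matrix of a graded map of degree 0 from the free module with generators in the degrees δ to the free module with
generators in the degrees δ'. -/
def Gmh {n : ℕ} {ι κ : Type} (δ : ι → ℤ) (δ' : κ → ℤ) (M : Matrix κ ι (MvPolynomial (Fin n) K)) : Prop :=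
  ∀ b a, M b a ∈ hm n K (δ a - δ' b)

/-- Homogeneous vectors of total degree t of the free module with generators in the degrees δ. -/
def Gv {n : ℕ} {ι : Type} (δ : ι → ℤ) (t : ℤ) (v : ι → MvPolynomial (Fin n) K) : Prop :=
  ∀ a, v a ∈ hm n K (t - δ a)

/-- The embedding of the polynomial ring in N variables into that in N + 1 variables (the new variable is X 0). -/
noncomputable def uph (K : Type) [Field K] (N : ℕ) : MvPolynomial (Fin N) K →+* MvPolynomial (Fin (N + 1)) K :=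
  (rename Fin.succ : MvPolynomial (Fin N) K →ₐ[K] MvPolynomial (Fin (N + 1)) K).toRingHom

/-- The constant part of the slice (t, t + 1) of a matrix. -/
noncomputable def slice {n : ℕ} {ι κ : Type} (δ : ι → ℤ) (δ' : κ → ℤ) (M : Matrix κ ι (MvPolynomial (Fin n) K)) (t : ℤ) :
    Matrix {b : κ // δ' b = t + 1} {a : ι // δ a = t} K :=
  fun b a => constantCoeff (M b.1 a.1)

end graded

/-- A complex of free graded modules over the polynomial ring in N variables over K with a chain endomorphism of degree 1;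
position i + 1 here is the homological degree i (the position 0 is empty). Generators of position i + 1 have degrees in
[D i, D (i + 1)). -/
structure Cpx (K : Type) [Field K] (N : ℕ) (D : ℕ → ℤ) (ι : ℕ → Type) [∀ i, Fintype (ι i)] [∀ i, DecidableEq (ι i)]
    (δ : (i : ℕ) → ι i → ℤ)
    (d : (i : ℕ) → Matrix (ι i) (ι (i + 1)) (MvPolynomial (Fin N) K))
    (x : (i : ℕ) → Matrix (ι i) (ι i) (MvPolynomial (Fin N) K)) : Prop where
  e0 : IsEmpty (ι 0)
  eN : ∀ i, N + 1 < i → IsEmpty (ι i)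
  deg : ∀ i (a : ι (i + 1)), D i ≤ δ (i + 1) a ∧ δ (i + 1) a < D (i + 1)
  gd : ∀ i, Gmh (δ (i + 1)) (δ i) (d i)
  gx : ∀ i, Gmh (fun a => δ i a + 1) (δ i) (x i)
  dd : ∀ i, d i * d (i + 1) = 0
  xd : ∀ i, x i * d i = d i * x (i + 1)
  ex : ∀ i (v : ι (i + 2) → MvPolynomial (Fin N) K), (d (i + 1)).mulVec v = 0 → ∃ w, (d (i + 2)).mulVec w = v
  reg : ∃ T : ℤ, ∀ t, T ≤ t → ∀ v, Gv (δ 1) t v → ∃ w, (d 1).mulVec w = v
  sl : ∀ i t, D i ≤ t → t + 1 < D (i + 1) →
    Function.Bijective (slice (δ (i + 1)) (δ (i + 1)) (x (i + 1)) t).mulVec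

section cone

variable {K : Type} [Field K] {N : ℕ} {ι : ℕ → Type} [∀ i, Fintype (ι i)] [∀ i, DecidableEq (ι i)]

/-- The boundary of the cone of Y - X, from position i + 1 to position i. -/
noncomputable def cn (d : (i : ℕ) → Matrix (ι i) (ι (i + 1)) (MvPolynomial (Fin N) K))
    (x : (i : ℕ) → Matrix (ι i) (ι i) (MvPolynomial (Fin N) K)) (i : ℕ) :
    Matrix (ι (i + 1) ⊕ ι i) (ι (i + 2) ⊕ ι (i + 1)) (MvPolynomial (Fin (N + 1)) K) :=
  Matrix.fromBlocks ((d (i + 1)).map (uph K N))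
    (Matrix.scalar (ι (i + 1)) (X 0) - (x (i + 1)).map (uph K N)) 0 (-((d i).map (uph K N)))

/-- The degrees of the generators of the cone in position i. -/
def cd (δ : (i : ℕ) → ι i → ℤ) (i : ℕ) : ι (i + 1) ⊕ ι i → ℤ := Sum.elim (δ (i + 1)) (fun a => δ i a + 1)

/-- The generators of the cone of degree D i in position i. -/
abbrev Vt (ι : ℕ → Type) (D : ℕ → ℤ) (δ : (i : ℕ) → ι i → ℤ) (i : ℕ) : Type :=
  {a : ι (i + 1) // δ (i + 1) a = D i} ⊕ {a : ι i // δ i a + 1 = D i}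

/-- The generators in position i which are cancelled against generators in position i + 1. -/
abbrev Bt (ι : ℕ → Type) (D : ℕ → ℤ) (δ : (i : ℕ) → ι i → ℤ) (i : ℕ) : Type :=
  {a : ι (i + 1) // δ (i + 1) a ≠ D i}

/-- The generators in position i + 1 which are cancelled against generators in position i. -/
abbrev At (ι : ℕ → Type) (D : ℕ → ℤ) (δ : (i : ℕ) → ι i → ℤ) (i : ℕ) : Type :=
  {a : ι (i + 1) // δ (i + 1) a + 1 ≠ D (i + 1)}

/-- The embedding of Vt. -/
def vE (D : ℕ → ℤ) (δ : (i : ℕ) → ι i → ℤ) (i : ℕ) : Vt ι D δ i → ι (i + 1) ⊕ ι i :=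
  Sum.map Subtype.val Subtype.val

/-- The embedding of Bt. -/
def bE (D : ℕ → ℤ) (δ : (i : ℕ) → ι i → ℤ) (i : ℕ) : Bt ι D δ i → ι (i + 1) ⊕ ι i := fun a => Sum.inl a.1

/-- The embedding of At. -/
def aE (D : ℕ → ℤ) (δ : (i : ℕ) → ι i → ℤ) (i : ℕ) : At ι D δ i → ι (i + 2) ⊕ ι (i + 1) := fun a => Sum.inr a.1

end cone

section ff

variable {K : Type} [Field K]

/-- Generators of the direct sum of the F_{r g}: position p + 1 of the complex (homological degree p). -/
def Ix {N : ℕ} {Γ : Type} (r : Γ → Fin (N + 1) → ℤ) : ℕ → Type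
  | 0 => Empty
  | p + 1 => {x : Γ × Ch N // ∃ h : p < N + 1, gd N (dl (r x.1) ⟨p, h⟩) x.2}

/-- Degrees of the generators. -/
def ixd {N : ℕ} {Γ : Type} (r : Γ → Fin (N + 1) → ℤ) : (i : ℕ) → Ix r i → ℤ
  | 0, _ => 0
  | p + 1, x => if h : p < N + 1 then r x.1.1 ⟨p, h⟩ else 0

open Classical in
/-- The boundary of the direct sum. -/
noncomputable def ixb (z : ℤ → K) {N : ℕ} {Γ : Type} (r : Γ → Fin (N + 1) → ℤ) :
    (i : ℕ) → Matrix (Ix r i) (Ix r (i + 1)) (MvPolynomial (Fin N) K)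
  | 0 => 0
  | p + 1 => fun y x => if h : p < N then
      (if x.1.1 = y.1.1 then bd z (xs N K) (r x.1.1) ⟨p, h⟩ (Pi.single x.1.2 1) y.1.2 else 0) else 0

/-- The matrices of a family of maps (φ g g' p from position p of F_{r g} to position p of F_{r g'}). -/
noncomputable def ixx {N : ℕ} {Γ : Type} (r : Γ → Fin (N + 1) → ℤ)
    (φ : Γ → Γ → Fin (N + 1) → (W (MvPolynomial (Fin N) K) N →ₗ[MvPolynomial (Fin N) K] W (MvPolynomial (Fin N) K) N)) :
    (i : ℕ) → Matrix (Ix r i) (Ix r i) (MvPolynomial (Fin N) K)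
  | 0 => 0
  | p + 1 => fun y x => if h : p < N + 1 then φ x.1.1 y.1.1 ⟨p, h⟩ (Pi.single x.1.2 1) y.1.2 else 0

/-- The generators of the slice (p, t). -/
abbrev Sx {N : ℕ} {Γ : Type} (r : Γ → Fin (N + 1) → ℤ) (p : Fin (N + 1)) (t : ℤ) : Type :=
  {x : Γ × Ch N // r x.1 p = t ∧ gd N (dl (r x.1) p) x.2}

/-- The slice (p, t) of a family. -/
noncomputable def sm {N : ℕ} {Γ : Type} (r : Γ → Fin (N + 1) → ℤ)
    (φ : Γ → Γ → Fin (N + 1) → (W (MvPolynomial (Fin N) K) N →ₗ[MvPolynomial (Fin N) K] W (MvPolynomial (Fin N) K) N))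
    (p : Fin (N + 1)) (t : ℤ) : Matrix (Sx r p (t + 1)) (Sx r p t) K :=
  fun y x => constantCoeff (φ x.1.1 y.1.1 p (Pi.single x.1.2 1) y.1.2)

end ff

section higman

/-- Abstract letters: V = vertices, each with a subspace of M; Lt a b A = A is a letter from a to b. -/
structure Lts {K : Type} [Field K] {M : Type} [AddCommGroup M] [Module K M] {V : Type} (Us : V → Submodule K M)
    (Lt : V → V → (M →ₗ[K] M) → Prop) : Prop where
  zero : ∀ a b, Lt a b 0
  add : ∀ a b A B, Lt a b A → Lt a b B → Lt a b (A + B)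
  smul : ∀ a b (c : K) A, Lt a b A → Lt a b (c • A)
  one : ∀ a, Lt a a LinearMap.id
  maps : ∀ a b A, Lt a b A → ∀ v ∈ Us a, A v ∈ Us b

/-- The matrix S of operators from the sum of the Us (g j) to the sum of the Us (h i) is bijective. -/
def BijM {K : Type} [Field K] {M : Type} [AddCommGroup M] [Module K M] {V : Type} (Us : V → Submodule K M)
    {ι κ : Type} [Fintype ι] (g : ι → V) (h : κ → V) (S : κ → ι → (M →ₗ[K] M)) : Prop :=
  ∀ w : κ → M, (∀ i, w i ∈ Us (h i)) → ∃! y : ι → M, (∀ j, y j ∈ Us (g j)) ∧ ∀ i, ∑ j, S i j (y j) = w i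

/-- A is realizable: A = P - Q S⁻¹ R with matrices of letters, S bijective. -/
def Rz {K : Type} [Field K] {M : Type} [AddCommGroup M] [Module K M] {V : Type} (Us : V → Submodule K M)
    (Lt : V → V → (M →ₗ[K] M) → Prop) (a b : V) (A : M →ₗ[K] M) : Prop :=
  ∃ (ι : Type) (_ : Fintype ι) (g : ι → V) (P : M →ₗ[K] M) (Q R : ι → (M →ₗ[K] M)) (S : ι → ι → (M →ₗ[K] M)),
    Lt a b P ∧ (∀ i, Lt (g i) b (Q i)) ∧ (∀ i, Lt a (g i) (R i)) ∧ (∀ i j, Lt (g j) (g i) (S i j)) ∧
    BijM Us g g S ∧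
    ∀ v ∈ Us a, ∀ y : ι → M, (∀ i, y i ∈ Us (g i)) → (∀ i, ∑ j, S i j (y j) = R i v) → A v = P v - ∑ i, Q i (y i)

/-- There is a bijective matrix of letters from the family e to the family f. -/
def LB {K : Type} [Field K] {M : Type} [AddCommGroup M] [Module K M] {V : Type} (Us : V → Submodule K M)
    (Lt : V → V → (M →ₗ[K] M) → Prop) {α β : Type} [Fintype α] (e : α → V) (f : β → V) : Prop :=
  ∃ T : β → α → (M →ₗ[K] M), (∀ b a, Lt (e a) (f b) (T b a)) ∧ BijM Us e f T

end higman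

end H92C
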