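import Pool.Agent.Lib.H92C.H00

/-! # H92C, chunk H01 (S/M): the spaces hm of homogeneous polynomials of integral degree -/

open MvPolynomial

namespace H92C

variable {K : Type} [Field K] {n : ℕ}

/-- PROOF. If 0 ≤ j this is the definition, else p = 0. -/
theorem hm_isHom {j : ℤ} {p : MvPolynomial (Fin n) K} (hp : p ∈ hm n K j) : p.IsHomogeneous j.toNat := by
  unfold hm at hp
  split_ifs at hp with h
  · exact (mem_homogeneousSubmodule _ _).1 hp
  · rw [Submodule.mem_bot] at hp
    rw [hp]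
    exact isHomogeneous_zero _ _ _

/-- PROOF. Definition (`if_pos`). -/
theorem hm_of_isHom {j : ℕ} {p : MvPolynomial (Fin n) K} (hp : p.IsHomogeneous j) : p ∈ hm n K (j : ℤ) := by
  unfold hm
  rw [if_pos (Int.natCast_nonneg j), Int.toNat_natCast]
  exact (mem_homogeneousSubmodule _ _).2 hp

/-- PROOF. Definition (`if_neg`). -/
theorem hm_neg {j : ℤ} (hj : j < 0) {p : MvPolynomial (Fin n) K} (hp : p ∈ hm n K j) : p = 0 := by
  unfold hm at hp
  rw [if_neg (not_le.2 hj)] at hp
  exact (Submodule.mem_bot K).1 hp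

/-- PROOF. If one of j, k is negative then p * r = 0.  Otherwise `IsHomogeneous.mul` and (j + k).toNat = j.toNat + k.toNat. -/
theorem hm_mul {j k : ℤ} {p r : MvPolynomial (Fin n) K} (hp : p ∈ hm n K j) (hr : r ∈ hm n K k) :
    p * r ∈ hm n K (j + k) := by
  rcases lt_or_ge j 0 with hj | hj
  · rw [hm_neg hj hp, zero_mul]
    exact Submodule.zero_mem _
  rcases lt_or_ge k 0 with hk | hk
  · rw [hm_neg hk hr, mul_zero]
    exact Submodule.zero_mem _
  obtain ⟨a, rfl⟩ := Int.eq_ofNat_of_zero_le hj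
  obtain ⟨c, rfl⟩ := Int.eq_ofNat_of_zero_le hk
  have h1 := hm_isHom hp
  have h2 := hm_isHom hr
  rw [Int.toNat_natCast] at h1 h2
  have h3 := hm_of_isHom (h1.mul h2)
  push_cast at h3
  exact h3

/-- PROOF. `isHomogeneous_C`. -/
theorem hm_C (c : K) : (C c : MvPolynomial (Fin n) K) ∈ hm n K 0 := by
  have := hm_of_isHom (K := K) (isHomogeneous_C (Fin n) c)
  exact_mod_cast this

/-- PROOF. `isHomogeneous_one`. -/
theorem hm_one : (1 : MvPolynomial (Fin n) K) ∈ hm n K 0 := by
  have := hm_of_isHom (K := K) (isHomogeneous_one (Fin n) K)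
  exact_mod_cast this

/-- PROOF. `isHomogeneous_X`. -/
theorem hm_X (i : Fin n) : (X i : MvPolynomial (Fin n) K) ∈ hm n K 1 := by
  have := hm_of_isHom (K := K) (isHomogeneous_X K i)
  exact_mod_cast this

/-- PROOF. `isHomogeneous_X_pow`. -/
theorem hm_X_pow (i : Fin n) (e : ℕ) : (X i ^ e : MvPolynomial (Fin n) K) ∈ hm n K (e : ℤ) := by
  exact hm_of_isHom (isHomogeneous_X_pow i e)

/-- PROOF. A homogeneous polynomial of degree 0 is constant (`totalDegree` or `homogeneousSubmodule_zero`). -/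
theorem hm_zero_eq {p : MvPolynomial (Fin n) K} (hp : p ∈ hm n K 0) : p = C (constantCoeff p) := by
  have h1 := hm_isHom hp
  rw [Int.toNat_zero] at h1
  have h2 := totalDegree_eq_zero_iff_eq_C.1 (Nat.le_zero.1 h1.totalDegree_le)
  rw [constantCoeff_eq]
  exact h2

/-- PROOF. j < 0: p = 0.  j > 0: the coefficient of the monomial 0 of a homogeneous polynomial of positive degree is 0
(`IsHomogeneous.coeff_eq_zero`). -/
theorem hm_const {j : ℤ} (hj : j ≠ 0) {p : MvPolynomial (Fin n) K} (hp : p ∈ hm n K j) : constantCoeff p = 0 := by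
  rcases lt_or_gt_of_ne hj with h | h
  · rw [hm_neg h hp, map_zero]
  · have h1 := hm_isHom hp
    rw [constantCoeff_eq]
    refine h1.coeff_eq_zero ?_
    rw [map_zero]
    omega

/-- PROOF. From `hm_zero_eq` (j = 0) and `hm_neg` (j < 0). -/
theorem hm_const_zero {j : ℤ} (hj : j ≤ 0) {p : MvPolynomial (Fin n) K} (hp : p ∈ hm n K j) (h0 : constantCoeff p = 0) :
    p = 0 := by
  rcases lt_or_eq_of_le hj with h | h
  · exact hm_neg h hp
  · subst h
    rw [hm_zero_eq hp, h0, map_zero]

end H92C
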