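import Pool.Agent.Lib.H92C.H01

/-! # H92C, chunk H02 (S/M): calculus of graded matrices -/

open MvPolynomial

namespace H92C

variable {K : Type} [Field K] {n : ℕ} {ι κ μ : Type}

/-- PROOF. Entrywise, `Submodule.zero_mem`. -/
theorem gm_zero (δ : ι → ℤ) (δ' : κ → ℤ) : Gmh δ δ' (0 : Matrix κ ι (MvPolynomial (Fin n) K)) := by
  intro b a
  exact Submodule.zero_mem _


/-- PROOF. Entrywise, `Submodule.add_mem`. -/
theorem gm_add {δ : ι → ℤ} {δ' : κ → ℤ} {M M' : Matrix κ ι (MvPolynomial (Fin n) K)} (h : Gmh δ δ' M) (h' : Gmh δ δ' M') :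
    Gmh δ δ' (M + M') := by
  intro b a
  exact Submodule.add_mem _ (h b a) (h' b a)


/-- PROOF. Entrywise, `Submodule.neg_mem`. -/
theorem gm_neg {δ : ι → ℤ} {δ' : κ → ℤ} {M : Matrix κ ι (MvPolynomial (Fin n) K)} (h : Gmh δ δ' M) : Gmh δ δ' (-M) := by
  intro b a
  exact Submodule.neg_mem _ (h b a)


/-- PROOF. Entrywise, `Submodule.sub_mem`. -/
theorem gm_sub {δ : ι → ℤ} {δ' : κ → ℤ} {M M' : Matrix κ ι (MvPolynomial (Fin n) K)} (h : Gmh δ δ' M) (h' : Gmh δ δ' M') :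
    Gmh δ δ' (M - M') := by
  intro b a
  exact Submodule.sub_mem _ (h b a) (h' b a)


/-- PROOF. The entry is the sum over c of M b c * M' c a, and hm (δ' c - δ'' b) * hm (δ a - δ' c) lies in hm (δ a - δ'' b) (`hm_mul`). -/
theorem gm_mul [Fintype κ] {δ : ι → ℤ} {δ' : κ → ℤ} {δ'' : μ → ℤ} {M : Matrix μ κ (MvPolynomial (Fin n) K)}
    {M' : Matrix κ ι (MvPolynomial (Fin n) K)} (h : Gmh δ' δ'' M) (h' : Gmh δ δ' M') : Gmh δ δ'' (M * M') := by
  intro b a
  rw [Matrix.mul_apply]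
  refine Submodule.sum_mem _ (fun c _ => ?_)
  have h1 := hm_mul (h b c) (h' c a)
  have e : (δ' c - δ'' b) + (δ a - δ' c) = δ a - δ'' b := by ring
  rwa [e] at h1


/-- PROOF. Entrywise: 1 in hm 0, or 0. -/
theorem gm_one [DecidableEq ι] (δ : ι → ℤ) : Gmh δ δ (1 : Matrix ι ι (MvPolynomial (Fin n) K)) := by
  intro b a
  by_cases h : b = a
  · subst h
    rw [Matrix.one_apply_eq, sub_self]
    exact hm_one
  · rw [Matrix.one_apply_ne h]
    exact Submodule.zero_mem _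


/-- PROOF. Definition. -/
theorem gm_submatrix {ι' κ' : Type} {δ : ι → ℤ} {δ' : κ → ℤ} {M : Matrix κ ι (MvPolynomial (Fin n) K)} (h : Gmh δ δ' M)
    (f : ι' → ι) (g : κ' → κ) : Gmh (δ ∘ f) (δ' ∘ g) (M.submatrix g f) := by
  intro b a
  exact h (g b) (f a)


/-- PROOF. Entrywise: if M b a = 0 the entry is 0; otherwise the degree is 0 and `hm_C`. -/
theorem gm_C {δ : ι → ℤ} {δ' : κ → ℤ} {M : Matrix κ ι K} (h : ∀ b a, M b a ≠ 0 → δ a = δ' b) :
    Gmh δ δ' (M.map (C : K → MvPolynomial (Fin n) K)) := by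
  intro b a
  rw [Matrix.map_apply]
  by_cases hc : M b a = 0
  · rw [hc, map_zero]
    exact Submodule.zero_mem _
  · rw [h b a hc, sub_self]
    exact hm_C _


/-- PROOF. The entry at b is the sum over a of M b a * v a, and hm (δ a - δ' b) * hm (t - δ a) lies in hm (t - δ' b). -/
theorem gv_mulVec [Fintype ι] {δ : ι → ℤ} {δ' : κ → ℤ} {M : Matrix κ ι (MvPolynomial (Fin n) K)} (h : Gmh δ δ' M) {t : ℤ}
    {v : ι → MvPolynomial (Fin n) K} (hv : Gv δ t v) : Gv δ' t (M.mulVec v) := by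
  intro b
  show (∑ a, M b a * v a) ∈ _
  refine Submodule.sum_mem _ (fun a _ => ?_)
  have h1 := hm_mul (h b a) (hv a)
  have e : (δ a - δ' b) + (t - δ a) = t - δ' b := by ring
  rwa [e] at h1


/-- PROOF. Induction on e with `gm_mul` (x maps the degrees δ + 1 to δ, so x^e maps δ + e to δ): state it in the form of vectors,
using `gv_mulVec` in each step: (x^(e+1)).mulVec v = x.mulVec ((x^e).mulVec v) and Gv (fun a => δ a + 1) (t + 1) w follows from Gv δ t w. -/
theorem gv_pow [Fintype ι] [DecidableEq ι] {δ : ι → ℤ} {x : Matrix ι ι (MvPolynomial (Fin n) K)}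
    (h : Gmh (fun a => δ a + 1) δ x) (e : ℕ) {t : ℤ} {v : ι → MvPolynomial (Fin n) K} (hv : Gv δ t v) :
    Gv δ (t + e) ((x ^ e).mulVec v) := by
  induction e with
  | zero =>
    rw [pow_zero, Matrix.one_mulVec, Nat.cast_zero, add_zero]
    exact hv
  | succ e ih =>
    rw [pow_succ', ← Matrix.mulVec_mulVec]
    have h1 : Gv (fun a => δ a + 1) (t + ((e + 1 : ℕ) : ℤ)) ((x ^ e).mulVec v) := by
      intro a
      have h2 := ih a
      have e1 : t + ((e + 1 : ℕ) : ℤ) - (δ a + 1) = t + (e : ℤ) - δ a := by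
        push_cast
        ring
      show _ ∈ hm n K (t + ((e + 1 : ℕ) : ℤ) - (δ a + 1))
      rwa [e1]
    exact gv_mulVec h h1


end H92C
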