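import Pool.Agent.Lib.H92C.H01

/-! # H92C, chunk H03 (M): the embedding uph and the decomposition of a polynomial in N + 1 variables by the powers of X 0 -/

open MvPolynomial

namespace H92C

variable {K : Type} [Field K] {N : ℕ}

/-- PROOF. `uph K N p = rename Fin.succ p`; `IsHomogeneous.rename_isHomogeneous`; the case j < 0 by `hm_neg`. -/
theorem up_hm {j : ℤ} {p : MvPolynomial (Fin N) K} (hp : p ∈ hm N K j) : uph K N p ∈ hm (N + 1) K j := by
  by_cases hj : 0 ≤ j
  · obtain ⟨m, rfl⟩ := Int.eq_ofNat_of_zero_le hj
    have h1 := hm_isHom hp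
    rw [Int.toNat_natCast] at h1
    exact hm_of_isHom (h1.rename_isHomogeneous)
  · rw [hm_neg (not_le.1 hj) hp, map_zero]
    exact Submodule.zero_mem _


/-- PROOF. `rename_C`. -/
theorem up_C (c : K) : uph K N (C c) = C c := by
  exact rename_C _ _


/-- PROOF. `constantCoeff_rename`. -/
theorem up_const (p : MvPolynomial (Fin N) K) : constantCoeff (uph K N p) = constantCoeff p := by
  exact constantCoeff_rename _ _


/-- PROOF. Both sides are K-algebra maps in p (`finSuccEquiv K N` composed with rename, and `Polynomial.C` as an algebra map) which agree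
on the X j (`finSuccEquiv_X_succ`): `MvPolynomial.algHom_ext` or `MvPolynomial.induction_on`. -/
theorem up_fse (p : MvPolynomial (Fin N) K) : finSuccEquiv K N (uph K N p) = Polynomial.C p := by
  show finSuccEquiv K N (rename Fin.succ p) = Polynomial.C p
  induction p using MvPolynomial.induction_on with
  | C a =>
    rw [rename_C]
    simp [finSuccEquiv_apply]
  | add p q hp hq =>
    rw [map_add, map_add, hp, hq, Polynomial.C_add]
  | mul_X p i hp =>
    rw [map_mul, map_mul, hp, rename_X, finSuccEquiv_X_succ, ← Polynomial.C_mul]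


/-- The coefficient of X 0 ^ k, a polynomial in the other variables. -/
noncomputable def cfh (k : ℕ) (v : MvPolynomial (Fin (N + 1)) K) : MvPolynomial (Fin N) K := (finSuccEquiv K N v).coeff k

/-- PROOF. Apply the injective map `finSuccEquiv K N`: the right side becomes the sum of X ^ k * C (coeff k), `up_fse`, `finSuccEquiv_X_zero`,
`Polynomial.as_sum_range'` (m > natDegree). -/
theorem cf_sum (v : MvPolynomial (Fin (N + 1)) K) (m : ℕ) (hm' : (finSuccEquiv K N v).natDegree < m) :
    v = ∑ k ∈ Finset.range m, X 0 ^ k * uph K N (cfh k v) := by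
  apply (finSuccEquiv K N).injective
  rw [map_sum]
  conv_lhs => rw [Polynomial.as_sum_range' _ m hm']
  refine Finset.sum_congr rfl (fun k _ => ?_)
  rw [map_mul, map_pow, finSuccEquiv_X_zero, up_fse, ← Polynomial.C_mul_X_pow_eq_monomial, mul_comm]
  rfl


/-- PROOF. j < 0: v = 0. Otherwise `IsHomogeneous.finSuccEquiv_coeff_isHomogeneous` if k ≤ j.toNat; if k > j.toNat then all coefficients are 0:
coeff m (cfh k v) = coeff (m.cons k) v (`finSuccEquiv_coeff_coeff`), and the degree of m.cons k is at least k > j.toNat. -/
theorem cf_hm {j : ℤ} {v : MvPolynomial (Fin (N + 1)) K} (hv : v ∈ hm (N + 1) K j) (k : ℕ) : cfh k v ∈ hm N K (j - k) := by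
  by_cases hj : 0 ≤ j
  · obtain ⟨m, rfl⟩ := Int.eq_ofNat_of_zero_le hj
    have h1 := hm_isHom hv
    rw [Int.toNat_natCast] at h1
    by_cases hk : k ≤ m
    · have h2 := h1.finSuccEquiv_coeff_isHomogeneous k (m - k) (by omega)
      have h3 := hm_of_isHom h2
      have e : ((m - k : ℕ) : ℤ) = (m : ℤ) - k := by omega
      rw [e] at h3
      exact h3
    · have h2 : cfh k v = 0 := by
        ext i
        unfold cfh
        rw [finSuccEquiv_coeff_coeff, coeff_zero]
        apply h1.coeff_eq_zero
        intro hc
        have h3 : (Finsupp.cons k i).degree = k + i.degree := by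
          simp [Finsupp.degree_eq_sum, Fin.sum_univ_succ, Finsupp.cons_zero, Finsupp.cons_succ]
        omega
      rw [h2]
      exact Submodule.zero_mem _
  · have h2 : cfh k v = 0 := by
      unfold cfh
      rw [hm_neg (not_le.1 hj) hv, map_zero, Polynomial.coeff_zero]
    rw [h2]
    exact Submodule.zero_mem _


end H92C
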