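import Pool.Agent.Lib.H92C.H02

/-! # H92C, chunk H04 (M): the inverse of a degree preserving matrix of constants -/

open MvPolynomial

namespace H92C

variable {K : Type} [Field K] {ι κ : Type} [Fintype ι] [Fintype κ] [DecidableEq ι] [DecidableEq κ]

/-- PROOF. The linear map `M.mulVecLin` is bijective; let A be the matrix of its inverse (`LinearEquiv.ofBijective`, `LinearMap.toMatrix'` of the symm), so
A * M = 1 and M * A = 1.  Let A' a b := if δ a = δ' b then A a b else 0.  Then A' * M = 1: the entry (a, a') is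
Σ_b A' a b * M b a'; the terms with M b a' ≠ 0 have δ' b = δ a', so A' a b = A a b if δ a = δ a', and A' a b = 0 otherwise: for δ a = δ a' the sum
is (A * M) a a'; for δ a ≠ δ a' it is 0 = 1 a a'.  From A' * M = 1 and M * A = 1: A' = A' * (M * A) = A. -/
theorem inv_deg (δ : ι → ℤ) (δ' : κ → ℤ) (M : Matrix κ ι K) (h : ∀ b a, M b a ≠ 0 → δ a = δ' b)
    (hb : Function.Bijective M.mulVec) :
    ∃ A : Matrix ι κ K, A * M = 1 ∧ M * A = 1 ∧ ∀ a b, A a b ≠ 0 → δ' b = δ a := by
  let e : (ι → K) ≃ₗ[K] (κ → K) := LinearEquiv.ofBijective M.mulVecLin hb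
  have he : e.toLinearMap = Matrix.toLin' M := by
    ext1 v
    rfl
  let A : Matrix ι κ K := LinearMap.toMatrix' e.symm.toLinearMap
  have h1 : A * M = 1 := by
    have h2 : LinearMap.toMatrix' (e.symm.toLinearMap ∘ₗ e.toLinearMap) = A * M := by
      rw [LinearMap.toMatrix'_comp, he, LinearMap.toMatrix'_toLin']
    rw [← h2]
    have h3 : e.symm.toLinearMap ∘ₗ e.toLinearMap = LinearMap.id := by
      ext1 v
      simp
    rw [h3, LinearMap.toMatrix'_id]
  have h1' : M * A = 1 := by
    have h2 : LinearMap.toMatrix' (e.toLinearMap ∘ₗ e.symm.toLinearMap) = M * A := by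
      rw [LinearMap.toMatrix'_comp, he, LinearMap.toMatrix'_toLin']
    rw [← h2]
    have h3 : e.toLinearMap ∘ₗ e.symm.toLinearMap = LinearMap.id := by
      ext1 v
      simp
    rw [h3, LinearMap.toMatrix'_id]
  let A' : Matrix ι κ K := fun a b => if δ a = δ' b then A a b else 0
  have h4 : A' * M = 1 := by
    ext a a'
    rw [Matrix.mul_apply]
    have h5 : ∀ b, A' a b * M b a' = if δ a = δ a' then A a b * M b a' else 0 := by
      intro b
      show (if δ a = δ' b then A a b else 0) * M b a' = _
      by_cases hM : M b a' = 0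
      · rw [hM, mul_zero, mul_zero, ite_self]
      · rw [h b a' hM]
        by_cases hd : δ a = δ' b
        · rw [if_pos hd, if_pos hd]
        · rw [if_neg hd, if_neg hd, zero_mul]
    rw [Finset.sum_congr rfl (fun b _ => h5 b)]
    by_cases hd : δ a = δ a'
    · simp only [if_pos hd]
      rw [← Matrix.mul_apply, h1]
    · simp only [if_neg hd]
      rw [Finset.sum_const_zero, Matrix.one_apply_ne (fun hc => hd (by rw [hc]))]
  have h5 : A' = A := by
    calc A' = A' * (M * A) := by rw [h1', Matrix.mul_one]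
      _ = A := by rw [← Matrix.mul_assoc, h4, Matrix.one_mul]
  refine ⟨A, h1, h1', fun a b hab => ?_⟩
  by_contra hd
  apply hab
  rw [← h5]
  exact if_neg (fun hc => hd hc.symm)


end H92C
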