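import Pool.Agent.Lib.H92C.H02

/-! # H92C, chunk H05 (S/M): strictly triangular matrices are nilpotent -/

open MvPolynomial

namespace H92C

variable {R : Type} [CommRing R] {ι : Type} [Fintype ι] [DecidableEq ι]

/-- PROOF. By induction on k: a nonzero entry (b, a) of M ^ k satisfies δ b + k ≤ δ a (a nonzero entry of M ^ (k+1) = M ^ k * M needs a c with
(M ^ k) b c ≠ 0 and M c a ≠ 0).  For k larger than all differences δ a - δ b (ι is finite) all entries are 0. -/
theorem tri_nil (δ : ι → ℤ) (M : Matrix ι ι R) (h : ∀ b a, M b a ≠ 0 → δ b < δ a) : ∃ r : ℕ, M ^ r = 0 := by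
  have h1 : ∀ k : ℕ, ∀ b a, (M ^ k) b a ≠ 0 → δ b + k ≤ δ a := by
    intro k
    induction k with
    | zero =>
      intro b a hba
      have h2 : b = a := by
        by_contra hc
        apply hba
        rw [pow_zero, Matrix.one_apply_ne hc]
      rw [h2, Nat.cast_zero, add_zero]
    | succ k ih =>
      intro b a hba
      rw [pow_succ, Matrix.mul_apply] at hba
      obtain ⟨c, -, hc⟩ := Finset.exists_ne_zero_of_sum_ne_zero hba
      have h2 := ih b c (left_ne_zero_of_mul hc)
      have h3 := h c a (right_ne_zero_of_mul hc)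
      push_cast
      omega
  refine ⟨(2 * ∑ a, |δ a|).toNat + 1, ?_⟩
  ext b a
  by_contra hc
  have h2 := h1 _ b a hc
  have h3 : ∀ c, |δ c| ≤ ∑ a, |δ a| := fun c =>
    Finset.single_le_sum (f := fun a => |δ a|) (fun _ _ => abs_nonneg _) (Finset.mem_univ c)
  have h4 := h3 a
  have h5 := h3 b
  have h6 := le_abs_self (δ a)
  have h7 := neg_abs_le (δ b)
  have h8 : 0 ≤ ∑ a, |δ a| := Finset.sum_nonneg (fun _ _ => abs_nonneg _)
  push_cast at h2
  omega


end H92C
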