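import Pool.Agent.Lib.H92C.H04
import Pool.Agent.Lib.H92C.H05

/-! # H92C, chunk H06 (M): graded Nakayama lemma for square matrices -/

open MvPolynomial

namespace H92C

variable {K : Type} [Field K] {n : ℕ} {ι κ : Type} [Fintype ι] [Fintype κ] [DecidableEq ι] [DecidableEq κ]

omit [Fintype κ] [DecidableEq κ] in
theorem h06_pow {δ : ι → ℤ} {T : Matrix ι ι (MvPolynomial (Fin n) K)} (h : Gmh δ δ T) (r : ℕ) : Gmh δ δ (T ^ r) := by
  induction r with
  | zero =>
    rw [pow_zero]
    exact gm_one δ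
  | succ r ih =>
    rw [pow_succ]
    exact gm_mul ih h

omit [Fintype κ] [DecidableEq κ] in
theorem h06_sum {δ : ι → ℤ} {T : Matrix ι ι (MvPolynomial (Fin n) K)} (h : Gmh δ δ T) (r : ℕ) :
    Gmh δ δ (∑ i ∈ Finset.range r, T ^ i) := by
  induction r with
  | zero =>
    rw [Finset.range_zero, Finset.sum_empty]
    exact gm_zero δ δ
  | succ r ih =>
    rw [Finset.sum_range_succ]
    exact gm_add ih (h06_pow h r)

/-- PROOF. Let M0 be the matrix of the constant coefficients.  M0 b a ≠ 0 implies δ a = δ' b (`hm_const`).  By `inv_deg` there is A over K with A * M0 = 1,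
M0 * A = 1, A a b ≠ 0 → δ' b = δ a; B := A.map C is graded (`gm_C`).  Put T := 1 - B * M.  T is graded (δ to δ), and its constant coefficients are
1 - A * M0 = 0 (`constantCoeff` is a ring homomorphism, `Matrix.map_mul`).  So T b a ≠ 0 implies δ b < δ a (`hm_const_zero`), T ^ r = 0 for some r (`tri_nil`).
Let S := Σ_{i<r} T ^ i, graded (`gm_mul`, `gm_one`, sums by induction).  S * (1 - T) = 1 - T ^ r = 1 (`geom_sum_mul` uph to sign,
`mul_neg_geom_sum`).  Since 1 - T = B * M: M' := S * B satisfies M' * M = 1, and it is graded.  M * M' = 1: the types ι and κ have the same cardinality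
(A * M0 = 1, M0 * A = 1; `Matrix.mul_eq_one_comm_of_equiv` with an equivalence from `Fintype.card_eq`; card equality from the bijective linear map M0,
`LinearEquiv.ofBijective` and `finrank`). -/
theorem nak (δ : ι → ℤ) (δ' : κ → ℤ) (M : Matrix κ ι (MvPolynomial (Fin n) K)) (hM : Gmh δ δ' M)
    (h0 : Function.Bijective (M.map (constantCoeff : MvPolynomial (Fin n) K → K)).mulVec) :
    ∃ M' : Matrix ι κ (MvPolynomial (Fin n) K), Gmh δ' δ M' ∧ M' * M = 1 ∧ M * M' = 1 := by
  set M0 : Matrix κ ι K := M.map (constantCoeff : MvPolynomial (Fin n) K → K) with hM0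
  have hdeg : ∀ b a, M0 b a ≠ 0 → δ a = δ' b := by
    intro b a hba
    by_contra hc
    exact hba (hm_const (sub_ne_zero.2 hc) (hM b a))
  obtain ⟨A, hA1, hA2, hA3⟩ := inv_deg δ δ' M0 hdeg h0
  have gB : Gmh δ' δ (A.map (C : K → MvPolynomial (Fin n) K)) := gm_C hA3
  set B := A.map (C : K → MvPolynomial (Fin n) K) with hB
  obtain ⟨T, hT⟩ : ∃ T : Matrix ι ι (MvPolynomial (Fin n) K), T = 1 - B * M := ⟨_, rfl⟩
  have gT : Gmh δ δ T := by
    rw [hT]
    exact gm_sub (gm_one δ) (gm_mul gB hM)
  have hBM : (B * M).map (constantCoeff : MvPolynomial (Fin n) K →+* K) = 1 := by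
    rw [Matrix.map_mul]
    have e1 : B.map (constantCoeff : MvPolynomial (Fin n) K →+* K) = A := by
      ext a b
      simp [hB]
    rw [e1]
    exact hA1
  have hT0 : ∀ b a, constantCoeff (T b a) = 0 := by
    intro b a
    have h2 := congrFun (congrFun hBM b) a
    rw [Matrix.map_apply] at h2
    rw [hT, Matrix.sub_apply, map_sub, h2]
    by_cases hc : b = a
    · subst hc
      rw [Matrix.one_apply_eq, Matrix.one_apply_eq, map_one, sub_self]
    · rw [Matrix.one_apply_ne hc, Matrix.one_apply_ne hc, map_zero, sub_self]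
  have hTtri : ∀ b a, T b a ≠ 0 → δ b < δ a := by
    intro b a hba
    by_contra hc
    exact hba (hm_const_zero (by omega) (gT b a) (hT0 b a))
  obtain ⟨r, hr⟩ := tri_nil δ T hTtri
  have hS : (∑ i ∈ Finset.range r, T ^ i) * (B * M) = 1 := by
    have h2 := geom_sum_mul_neg T r
    have h3 : (1 : Matrix ι ι (MvPolynomial (Fin n) K)) - T = B * M := by
      rw [hT, sub_sub_cancel]
    rwa [h3, hr, sub_zero] at h2
  have h3 : ((∑ i ∈ Finset.range r, T ^ i) * B) * M = 1 := by
    rw [Matrix.mul_assoc]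
    exact hS
  refine ⟨(∑ i ∈ Finset.range r, T ^ i) * B, gm_mul (h06_sum gT r) gB, h3, ?_⟩
  have hcard : Fintype.card ι = Fintype.card κ := by
    have h4 := (LinearEquiv.ofBijective M0.mulVecLin h0).finrank_eq
    simpa using h4
  exact (Matrix.mul_eq_one_comm_of_card_eq _ _ _ hcard).1 h3

end H92C
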