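import Pool.Agent.Lib.H92C.H03

/-! # H92C, chunk H07 (M): exactness is preserved by adjoining the variable X 0 -/

open MvPolynomial

namespace H92C

variable {K : Type} [Field K] {N : ℕ} {α β γ : Type} [Fintype α] [Fintype β] [Fintype γ]

/-- PROOF. `finSuccEquiv K N` is a ring isomorphism with `up_fse`; so the k-th coefficient vector of (d.map uph).mulVec v is d.mulVec of the k-th
coefficient vector of v (the coefficient of X^k in Σ_b C (d a b) * w b is Σ_b d a b * (w b).coeff k; `Polynomial.finset_sum_coeff`,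
`Polynomial.coeff_C_mul`). -/
theorem cf_mulVec (d : Matrix α β (MvPolynomial (Fin N) K)) (v : β → MvPolynomial (Fin (N + 1)) K) (k : ℕ) (a : α) :
    cfh k ((d.map (uph K N)).mulVec v a) = d.mulVec (fun b => cfh k (v b)) a := by
  simp only [cfh, Matrix.mulVec, dotProduct, Matrix.map_apply, map_sum, map_mul, up_fse,
    Polynomial.finset_sum_coeff, Polynomial.coeff_C_mul]

/-- PROOF. `cfh k` of every coordinate of v is in the kernel of d (`cf_mulVec`), choose w_k with e.mulVec w_k = cfh k ∘ v for k < m, where m is larger than all the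
degrees natDegree (finSuccEquiv (v b)); w := Σ_{k<m} X 0 ^ k • uph ∘ w_k.  Then (e.map uph).mulVec w = Σ_k X 0 ^ k • uph ∘ (cfh k ∘ v) = v (`cf_sum`,
`Matrix.mulVec_sum`, `Matrix.mulVec_smul`, `RingHom.map_mulVec`). -/
theorem up_ex (d : Matrix α β (MvPolynomial (Fin N) K)) (e : Matrix β γ (MvPolynomial (Fin N) K))
    (h : ∀ v, d.mulVec v = 0 → ∃ w, e.mulVec w = v) (v : β → MvPolynomial (Fin (N + 1)) K)
    (hv : (d.map (uph K N)).mulVec v = 0) : ∃ w, (e.map (uph K N)).mulVec w = v := by
  have hk : ∀ k : ℕ, ∃ w, e.mulVec w = fun b => cfh k (v b) := by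
    intro k
    refine h _ ?_
    funext a
    rw [← cf_mulVec, hv]
    simp [cfh]
  choose W hW using hk
  set m := (Finset.univ.sup fun b => (finSuccEquiv K N (v b)).natDegree) + 1 with hm
  refine ⟨fun c => ∑ k ∈ Finset.range m, X 0 ^ k * uph K N (W k c), ?_⟩
  funext b
  have h1 : (finSuccEquiv K N (v b)).natDegree < m :=
    Nat.lt_succ_of_le (Finset.le_sup (f := fun b => (finSuccEquiv K N (v b)).natDegree)
      (Finset.mem_univ b))
  rw [cf_sum (v b) m h1]
  simp only [Matrix.mulVec, dotProduct, Matrix.map_apply, Finset.mul_sum]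
  rw [Finset.sum_comm]
  refine Finset.sum_congr rfl fun k _ => ?_
  have h2 : cfh k (v b) = ∑ c, e b c * W k c := by
    have := congrFun (hW k) b
    simp only [Matrix.mulVec, dotProduct] at this
    exact this.symm
  rw [h2, map_sum, Finset.mul_sum]
  refine Finset.sum_congr rfl fun c _ => ?_
  rw [map_mul]
  ring

end H92C
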