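import Pool.Agent.Lib.H92C.H07

/-! # H92C, chunk H08 (M): X 0 - x is injective modulo a submodule stable under x -/

open MvPolynomial

namespace H92C

variable {K : Type} [Field K] {N : ℕ} {α β : Type} [Fintype α] [Fintype β] [DecidableEq α] [DecidableEq β]

theorem h08_cf_sub (k : ℕ) (u v : MvPolynomial (Fin (N + 1)) K) : cfh k (u - v) = cfh k u - cfh k v := by
  unfold cfh
  rw [map_sub, Polynomial.coeff_sub]

theorem h08_cf_up (k m : ℕ) (p : MvPolynomial (Fin N) K) : cfh k (X 0 ^ m * uph K N p) = if k = m then p else 0 := by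
  unfold cfh
  rw [map_mul, map_pow, finSuccEquiv_X_zero, up_fse, mul_comm, Polynomial.coeff_C_mul, Polynomial.coeff_X_pow]
  split_ifs with h
  · rw [mul_one]
  · rw [mul_zero]

theorem h08_cf_X (m : ℕ) (v : MvPolynomial (Fin (N + 1)) K) : cfh (m + 1) (X 0 * v) = cfh m v := by
  unfold cfh
  rw [map_mul, finSuccEquiv_X_zero, Polynomial.coeff_X_mul]

theorem h08_ind (e : Matrix α β (MvPolynomial (Fin N) K)) (x : Matrix α α (MvPolynomial (Fin N) K))
    (x' : Matrix β β (MvPolynomial (Fin N) K)) (hx : x * e = e * x') (m : ℕ) :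
    ∀ (v : α → MvPolynomial (Fin (N + 1)) K) (w : β → MvPolynomial (Fin (N + 1)) K),
    (∀ a k, m ≤ k → cfh k (v a) = 0) →
    (e.map (uph K N)).mulVec w = (X 0 : MvPolynomial (Fin (N + 1)) K) • v - (x.map (uph K N)).mulVec v →
    ∃ w', (e.map (uph K N)).mulVec w' = v := by
  induction m with
  | zero =>
    intro v w hv _
    refine ⟨0, ?_⟩
    rw [Matrix.mulVec_zero]
    funext a
    have h1 : finSuccEquiv K N (v a) = 0 := by
      ext1 k
      rw [Polynomial.coeff_zero]
      exact hv a k (Nat.zero_le k)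
    rw [Pi.zero_apply]
    exact ((map_eq_zero_iff _ (finSuccEquiv K N).injective).1 h1).symm
  | succ m ih =>
    intro v w hv h
    obtain ⟨c, hc⟩ : ∃ c : β → MvPolynomial (Fin N) K, c = fun b => cfh (m + 1) (w b) := ⟨_, rfl⟩
    have h1 : ∀ a, e.mulVec c a = cfh m (v a) := by
      intro a
      have h2 := congrArg (cfh (m + 1)) (congrFun h a)
      rw [cf_mulVec, Pi.sub_apply, Pi.smul_apply, smul_eq_mul, h08_cf_sub, h08_cf_X, cf_mulVec] at h2
      have h3 : (fun b => cfh (m + 1) (v b)) = 0 := by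
        funext b
        exact hv b (m + 1) le_rfl
      rw [h3, Matrix.mulVec_zero, Pi.zero_apply, sub_zero] at h2
      rw [hc]
      exact h2
    have h4 : (e.map (uph K N)).mulVec (fun b => uph K N (c b)) = fun a => uph K N (cfh m (v a)) := by
      funext a
      rw [← h1 a, RingHom.map_mulVec]
      rfl
    have h5 : (e.map (uph K N)).mulVec (fun b => uph K N (x'.mulVec c b)) =
        (x.map (uph K N)).mulVec ((e.map (uph K N)).mulVec (fun b => uph K N (c b))) := by
      have h6 : (fun b => uph K N (x'.mulVec c b)) = (x'.map (uph K N)).mulVec (fun b => uph K N (c b)) := by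
        funext b
        rw [RingHom.map_mulVec]
        rfl
      rw [h6, Matrix.mulVec_mulVec, Matrix.mulVec_mulVec, ← Matrix.map_mul, ← Matrix.map_mul, hx]
    obtain ⟨u, hu⟩ : ∃ u, u = (e.map (uph K N)).mulVec (fun b => uph K N (c b)) := ⟨_, rfl⟩
    rw [← hu] at h4 h5
    obtain ⟨w3, hw3⟩ := ih (v - (X 0 : MvPolynomial (Fin (N + 1)) K) ^ m • u)
      (w - (X 0 : MvPolynomial (Fin (N + 1)) K) ^ (m + 1) • (fun b => uph K N (c b)) +
        (X 0 : MvPolynomial (Fin (N + 1)) K) ^ m • (fun b => uph K N (x'.mulVec c b))) (by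
        intro a k hk
        rw [Pi.sub_apply, Pi.smul_apply, smul_eq_mul, h4, h08_cf_sub, h08_cf_up]
        split_ifs with h7
        · rw [h7, sub_self]
        · rw [sub_zero]
          exact hv a k (by omega)) (by
        rw [Matrix.mulVec_add, Matrix.mulVec_sub, Matrix.mulVec_smul, Matrix.mulVec_smul, h5, ← hu, h,
          Matrix.mulVec_sub, Matrix.mulVec_smul, smul_sub, smul_smul, pow_succ']
        abel)
    refine ⟨w3 + (X 0 : MvPolynomial (Fin (N + 1)) K) ^ m • (fun b => uph K N (c b)), ?_⟩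
    rw [Matrix.mulVec_add, Matrix.mulVec_smul, hw3, ← hu, sub_add_cancel]

/-- PROOF. Induction on m with: for all v with natDegree (finSuccEquiv (v a)) < m for all a (i.e. v = Σ_{k<m} X 0 ^ k • uph ∘ v_k).  m = 0: v = 0.
m + 1: taking `cfh (m + 1)` in (e.map uph).mulVec w = X 0 • v - (x.map uph).mulVec v gives e.mulVec (cfh (m+1) ∘ w) = cfh m ∘ v - 0
(coefficient of X^(m+1): of X * v it is the coefficient m; of x v it is x.mulVec of the coefficient m + 1 of v, which is 0).  Let c := cfh (m + 1) ∘ w and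
v' := v - X 0 ^ m • uph ∘ (e.mulVec c).  Then X 0 • v' - x v' = (e.map uph).mulVec (w - X 0 ^ (m+1) • uph ∘ c + X 0 ^ m • uph ∘ (x'.mulVec c)), since x e = e x'.  v' has degrees < m
(in each coordinate the coefficient m of v' is 0).  Induction: v' = (e.map uph).mulVec w'', so v = (e.map uph).mulVec (w'' + X 0 ^ m • uph ∘ c). -/
theorem up_lead (e : Matrix α β (MvPolynomial (Fin N) K)) (x : Matrix α α (MvPolynomial (Fin N) K))
    (x' : Matrix β β (MvPolynomial (Fin N) K)) (hx : x * e = e * x')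
    (v : α → MvPolynomial (Fin (N + 1)) K) (w : β → MvPolynomial (Fin (N + 1)) K)
    (h : (e.map (uph K N)).mulVec w = (X 0 : MvPolynomial (Fin (N + 1)) K) • v - (x.map (uph K N)).mulVec v) :
    ∃ w', (e.map (uph K N)).mulVec w' = v := by
  refine h08_ind e x x' hx (Finset.univ.sup (fun a => (finSuccEquiv K N (v a)).natDegree) + 1) v w ?_ h
  intro a k hk
  refine Polynomial.coeff_eq_zero_of_natDegree_lt ?_
  have h1 := Finset.le_sup (f := fun a => (finSuccEquiv K N (v a)).natDegree) (Finset.mem_univ a)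
  exact Nat.lt_of_lt_of_le (Nat.lt_succ_of_le h1) hk

end H92C
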