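import Pool.Agent.Lib.H92C.H02
import Pool.Agent.Lib.H92C.H08

/-! # H92C, chunk H09 (M): the cone of X 0 - x is an exact graded complex -/

open MvPolynomial

namespace H92C

variable {K : Type} [Field K] {N : ℕ} {D : ℕ → ℤ} {ι : ℕ → Type} [∀ i, Fintype (ι i)] [∀ i, DecidableEq (ι i)]
  {δ : (i : ℕ) → ι i → ℤ} {d : (i : ℕ) → Matrix (ι i) (ι (i + 1)) (MvPolynomial (Fin N) K)}
  {x : (i : ℕ) → Matrix (ι i) (ι i) (MvPolynomial (Fin N) K)}

/-- PROOF. Blocks: the block (1,1) by `up_hm` from h.gd; the block (1,2): the scalar matrix has entries X 0 (degree 1, `hm_X`) or 0, x by h.gx and `up_hm`;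
the block (2,2): degrees (δ a + 1) - (δ b + 1). -/
theorem cn_gm (h : Cpx K N D ι δ d x) (i : ℕ) : Gmh (cd δ (i + 1)) (cd δ i) (cn d x i) := by
  intro b a
  rcases b with b | b <;> rcases a with a | a
  · exact up_hm (h.gd (i + 1) b a)
  · show Matrix.scalar (ι (i + 1)) (X 0) b a - uph K N (x (i + 1) b a) ∈ hm (N + 1) K (δ (i + 1) a + 1 - δ (i + 1) b)
    refine Submodule.sub_mem _ ?_ (up_hm (h.gx (i + 1) b a))
    rw [Matrix.scalar_apply, Matrix.diagonal_apply]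
    split_ifs with hba
    · subst hba
      have h1 : δ (i + 1) b + 1 - δ (i + 1) b = 1 := by ring
      rw [h1]
      exact hm_X 0
    · exact Submodule.zero_mem _
  · exact Submodule.zero_mem _
  · show -(uph K N (d i b a)) ∈ hm (N + 1) K (δ (i + 1) a + 1 - (δ i b + 1))
    have h1 : δ (i + 1) a + 1 - (δ i b + 1) = δ (i + 1) a - δ i b := by ring
    rw [h1]
    exact Submodule.neg_mem _ (up_hm (h.gd i b a))

/-- PROOF. `Matrix.fromBlocks_multiply`: d d = 0; the block (1,2) is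
(X 0 - x (i+1))·... : d (i+1) (X 0 - x (i+2)) - (X 0 - x (i+1)) d (i+1) = x (i+1) d (i+1) - d (i+1) x (i+2) = 0 by h.xd (all under `map (uph K N)`, `Matrix.map_mul`);
the block (2,2) is d d = 0. -/
theorem cn_cn (h : Cpx K N D ι δ d x) (i : ℕ) : cn d x i * cn d x (i + 1) = 0 := by
  have hz : ∀ j, (d j).map (uph K N) * (d (j + 1)).map (uph K N) = 0 := by
    intro j
    rw [← Matrix.map_mul, h.dd j, Matrix.map_zero _ (map_zero _)]
  have hx : (x (i + 1)).map (uph K N) * (d (i + 1)).map (uph K N) = (d (i + 1)).map (uph K N) * (x (i + 2)).map (uph K N) := by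
    rw [← Matrix.map_mul, ← Matrix.map_mul, h.xd (i + 1)]
  have hs : (d (i + 1)).map (uph K N) * Matrix.scalar (ι (i + 2)) (X 0 : MvPolynomial (Fin (N + 1)) K) =
      Matrix.scalar (ι (i + 1)) (X 0 : MvPolynomial (Fin (N + 1)) K) * (d (i + 1)).map (uph K N) := by
    ext a b
    rw [Matrix.scalar_apply, Matrix.scalar_apply, Matrix.mul_diagonal, Matrix.diagonal_mul, mul_comm]
  unfold cn
  rw [Matrix.fromBlocks_multiply, hz]
  simp only [Matrix.zero_mul, Matrix.mul_zero, Matrix.neg_mul, Matrix.mul_neg, neg_zero, Matrix.mul_sub, Matrix.sub_mul, hz, hs, hx,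
    add_neg_cancel, add_zero, sub_zero, Matrix.fromBlocks_zero]

/-- PROOF. Write v = (a, b), a on ι (i+2), b on ι (i+1).  (cn d x i).mulVec v = 0 says d(i+1) a + (X 0 - x(i+1)) b = 0 and d i b = 0.  Claim: b is in the range of
(d (i+1)).map uph.  For i ≥ 1 by `up_ex` and h.ex (index i - 1).  For i = 0: (X 0 - x 1) b = d 1 (-a), so `up_lead` (with x 1, x 2, h.xd 1).  Let b = d(i+1) b'.
Then a' := a + (X 0 - x(i+2)) b' satisfies d(i+1) a' = d(i+1) a + (X 0 - x(i+1)) d(i+1) b' = 0, so a' = d(i+2) a'' by `up_ex` and h.ex i.  w := (a'', -b'):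
(cn d x (i+1)).mulVec w = (d(i+2) a'' - (X 0 - x(i+2)) b', d(i+1) b') = (a, b). -/
theorem cn_ex (h : Cpx K N D ι δ d x) (i : ℕ) (v : ι (i + 2) ⊕ ι (i + 1) → MvPolynomial (Fin (N + 1)) K)
    (hv : (cn d x i).mulVec v = 0) : ∃ w, (cn d x (i + 1)).mulVec w = v := by
  obtain ⟨a, ha⟩ : ∃ a : ι (i + 2) → MvPolynomial (Fin (N + 1)) K, a = v ∘ Sum.inl := ⟨_, rfl⟩
  obtain ⟨b, hb⟩ : ∃ b : ι (i + 1) → MvPolynomial (Fin (N + 1)) K, b = v ∘ Sum.inr := ⟨_, rfl⟩
  unfold cn at hv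
  rw [Matrix.fromBlocks_mulVec, ← ha, ← hb] at hv
  have h1 : ((d (i + 1)).map (uph K N)).mulVec a +
      (Matrix.scalar (ι (i + 1)) (X 0) - (x (i + 1)).map (uph K N)).mulVec b = 0 := by
    funext c
    exact congrFun hv (Sum.inl c)
  have h2 : ((d i).map (uph K N)).mulVec b = 0 := by
    funext c
    have h3 := congrFun hv (Sum.inr c)
    rw [Sum.elim_inr, Matrix.zero_mulVec, zero_add, Matrix.neg_mulVec, Pi.neg_apply, Pi.zero_apply, neg_eq_zero] at h3
    exact h3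
  have hsc : ∀ (j : ℕ) (u : ι j → MvPolynomial (Fin (N + 1)) K),
      (Matrix.scalar (ι j) (X 0 : MvPolynomial (Fin (N + 1)) K)).mulVec u = (X 0 : MvPolynomial (Fin (N + 1)) K) • u := by
    intro j u
    funext c
    rw [Matrix.scalar_apply, Matrix.mulVec_diagonal, Pi.smul_apply, smul_eq_mul]
  obtain ⟨b', hb'⟩ : ∃ b', ((d (i + 1)).map (uph K N)).mulVec b' = b := by
    rcases i with _ | i
    · refine up_lead (d 1) (x 1) (x 2) (h.xd 1) b (-a) ?_
      rw [← hsc, ← Matrix.sub_mulVec, Matrix.mulVec_neg]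
      exact neg_eq_of_add_eq_zero_right h1
    · exact up_ex (d (i + 1)) (d (i + 2)) (h.ex i) b h2
  have hxd : (x (i + 1)).map (uph K N) * (d (i + 1)).map (uph K N) = (d (i + 1)).map (uph K N) * (x (i + 2)).map (uph K N) := by
    rw [← Matrix.map_mul, ← Matrix.map_mul, h.xd (i + 1)]
  obtain ⟨a'', ha''⟩ : ∃ a'', ((d (i + 2)).map (uph K N)).mulVec a'' =
      a + (Matrix.scalar (ι (i + 2)) (X 0) - (x (i + 2)).map (uph K N)).mulVec b' := by
    refine up_ex (d (i + 1)) (d (i + 2)) (h.ex i) _ ?_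
    rw [Matrix.mulVec_add, Matrix.sub_mulVec, Matrix.mulVec_sub, hsc, Matrix.mulVec_smul, hb', Matrix.mulVec_mulVec, ← hxd,
      ← Matrix.mulVec_mulVec, hb', ← hsc, ← Matrix.sub_mulVec]
    exact h1
  refine ⟨Sum.elim a'' (-b'), ?_⟩
  unfold cn
  rw [Matrix.fromBlocks_mulVec, Sum.elim_comp_inl, Sum.elim_comp_inr, ha'', Matrix.mulVec_neg, add_neg_cancel_right, Matrix.zero_mulVec,
    zero_add, Matrix.mulVec_neg, Matrix.neg_mulVec, neg_neg, hb']
  funext c
  rcases c with c | c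
  · rw [Sum.elim_inl, ha]
    rfl
  · rw [Sum.elim_inr, hb]
    rfl

end H92C
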