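import Pool.Agent.Lib.H92C.H09

/-! # H92C, chunk H10 (M): regularity of the cone -/

open MvPolynomial

namespace H92C

variable {K : Type} [Field K] {N : ℕ} {D : ℕ → ℤ} {ι : ℕ → Type} [∀ i, Fintype (ι i)] [∀ i, DecidableEq (ι i)]
  {δ : (i : ℕ) → ι i → ℤ} {d : (i : ℕ) → Matrix (ι i) (ι (i + 1)) (MvPolynomial (Fin N) K)}
  {x : (i : ℕ) → Matrix (ι i) (ι i) (MvPolynomial (Fin N) K)}

/-- PROOF. Telescoping: X 0 ^ k • w - x^k w = (X 0 - x) Σ_{j<k} X 0 ^ (k-1-j) • x^j w; induction on k: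
X 0 ^ (k+1) w - x^(k+1) w = X 0 ^ k (X 0 w - x w) + (X 0 ^ k (x w) - x^k (x w)), and X 0 commutes with x. -/
theorem pow_sub {α : Type} [Fintype α] [DecidableEq α] (x : Matrix α α (MvPolynomial (Fin N) K)) (k : ℕ)
    (w : α → MvPolynomial (Fin (N + 1)) K) :
    ∃ b, (X 0 : MvPolynomial (Fin (N + 1)) K) ^ k • w - ((x ^ k).map (uph K N)).mulVec w =
      (Matrix.scalar α (X 0) - x.map (uph K N)).mulVec b := by
  have hsc : ∀ u : α → MvPolynomial (Fin (N + 1)) K,
      (Matrix.scalar α (X 0 : MvPolynomial (Fin (N + 1)) K)).mulVec u = (X 0 : MvPolynomial (Fin (N + 1)) K) • u := by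
    intro u
    funext c
    rw [Matrix.scalar_apply, Matrix.mulVec_diagonal, Pi.smul_apply, smul_eq_mul]
  induction k generalizing w with
  | zero =>
    refine ⟨0, ?_⟩
    rw [pow_zero, pow_zero, one_smul, Matrix.map_one _ (map_zero _) (map_one _), Matrix.one_mulVec, sub_self, Matrix.mulVec_zero]
  | succ k ih =>
    obtain ⟨b', hb'⟩ := ih ((x.map (uph K N)).mulVec w)
    refine ⟨(X 0 : MvPolynomial (Fin (N + 1)) K) ^ k • w + b', ?_⟩
    rw [Matrix.mulVec_add, ← hb', Matrix.mulVec_smul, Matrix.sub_mulVec, hsc, pow_succ, pow_succ, Matrix.map_mul,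
      ← Matrix.mulVec_mulVec, smul_sub, smul_smul]
    abel

/-- PROOF. Let T be the bound of h.reg.  Write v = (a, b) with b on the empty type ι 0 (so b = 0), a = Σ_{k<m} X 0 ^ k • uph ∘ a_k with a_k = cfh k ∘ a (`cf_sum`), Gv (δ 1) (t - k) a_k
(`cf_hm`).  By `pow_sub`, a = uph ∘ (Σ_k x^k a_k) + (X 0 - x) b'.  u := Σ_k x^k.mulVec a_k has Gv (δ 1) t u (`gv_pow`), so u = (d 1).mulVec w.  Hence
(a, 0) = (cn d x 0).mulVec (uph ∘ w, b'). -/
theorem cn_reg (h : Cpx K N D ι δ d x) : ∃ T : ℤ, ∀ t, T ≤ t → ∀ v, Gv (cd δ 0) t v → ∃ w, (cn d x 0).mulVec w = v := by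
  obtain ⟨T, hT⟩ := h.reg
  refine ⟨T, fun t ht v hv => ?_⟩
  have := h.e0
  obtain ⟨a, ha⟩ : ∃ a : ι 1 → MvPolynomial (Fin (N + 1)) K, a = v ∘ Sum.inl := ⟨_, rfl⟩
  have hGa : ∀ c, a c ∈ hm (N + 1) K (t - δ 1 c) := fun c => by
    rw [ha]
    exact hv (Sum.inl c)
  obtain ⟨m, hm1⟩ : ∃ m, ∀ c, (finSuccEquiv K N (a c)).natDegree < m :=
    ⟨Finset.univ.sup (fun c => (finSuccEquiv K N (a c)).natDegree) + 1, fun c =>
      Nat.lt_succ_of_le (Finset.le_sup (f := fun c => (finSuccEquiv K N (a c)).natDegree) (Finset.mem_univ c))⟩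
  choose b hb using fun k : ℕ => pow_sub (x 1) k (fun c => uph K N (cfh k (a c)))
  obtain ⟨u, hu⟩ : ∃ u : ι 1 → MvPolynomial (Fin N) K, u = ∑ k ∈ Finset.range m, (x 1 ^ k).mulVec (fun c => cfh k (a c)) := ⟨_, rfl⟩
  have hGu : Gv (δ 1) t u := by
    intro c
    rw [hu, Finset.sum_apply]
    refine Submodule.sum_mem _ fun k _ => ?_
    have h1 : Gv (δ 1) (t - k) (fun c => cfh k (a c)) := by
      intro c
      have h2 := cf_hm (hGa c) k
      have h3 : t - δ 1 c - k = t - k - δ 1 c := by ring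
      rw [h3] at h2
      exact h2
    have h4 := gv_pow (h.gx 1) k h1 c
    rw [sub_add_cancel] at h4
    exact h4
  obtain ⟨w, hw⟩ := hT t ht u hGu
  have hasum : a = (fun c => uph K N (u c)) + (Matrix.scalar (ι 1) (X 0) - (x 1).map (uph K N)).mulVec (∑ k ∈ Finset.range m, b k) := by
    have h1 : a = ∑ k ∈ Finset.range m, ((X 0 : MvPolynomial (Fin (N + 1)) K) ^ k • fun c => uph K N (cfh k (a c))) := by
      funext c
      rw [Finset.sum_apply]
      exact cf_sum (a c) m (hm1 c)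
    have h2 : (fun c => uph K N (u c)) = ∑ k ∈ Finset.range m, ((x 1 ^ k).map (uph K N)).mulVec (fun c => uph K N (cfh k (a c))) := by
      funext c
      rw [hu, Finset.sum_apply, Finset.sum_apply, map_sum]
      refine Finset.sum_congr rfl fun k _ => ?_
      rw [RingHom.map_mulVec]
      rfl
    rw [h2, Matrix.mulVec_sum, ← Finset.sum_add_distrib]
    conv_lhs => rw [h1]
    refine Finset.sum_congr rfl fun k _ => ?_
    rw [← hb k, add_sub_cancel]
  refine ⟨Sum.elim (fun c => uph K N (w c)) (∑ k ∈ Finset.range m, b k), ?_⟩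
  funext c
  rcases c with c | c
  · unfold cn
    rw [Matrix.fromBlocks_mulVec, Sum.elim_comp_inl, Sum.elim_comp_inr, Sum.elim_inl]
    have h1 : ((d (0 + 1)).map (uph K N)).mulVec (fun c => uph K N (w c)) = fun c => uph K N (u c) := by
      funext c
      rw [← hw, RingHom.map_mulVec]
      rfl
    rw [h1]
    have h2 := congrFun hasum c
    rw [ha] at h2
    exact h2.symm
  · exact h.e0.elim c

/-- PROOF. For a generator g of position 0 the vector X s ^ e • (single g 1) satisfies Gv (cd δ 0) (e + cd δ 0 g); choose e with e + cd δ 0 g ≥ T for all g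
(finite type), so all these vectors are in the range of the linear map (cn d x 0).mulVecLin, and X s ^ e • v is a linear combination of them. -/
theorem cn_pow (h : Cpx K N D ι δ d x) : ∃ e : ℕ, ∀ (s : Fin (N + 1)) (v : ι 1 ⊕ ι 0 → MvPolynomial (Fin (N + 1)) K),
    ∃ w, (cn d x 0).mulVec w = (X s : MvPolynomial (Fin (N + 1)) K) ^ e • v := by
  obtain ⟨T, hT⟩ := cn_reg h
  refine ⟨∑ g, (T - cd δ 0 g).toNat, fun s v => ?_⟩
  obtain ⟨e, he⟩ : ∃ e : ℕ, e = ∑ g, (T - cd δ 0 g).toNat := ⟨_, rfl⟩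
  rw [← he]
  have h1 : ∀ g : ι 1 ⊕ ι 0, ∃ w, (cn d x 0).mulVec w = Pi.single g ((X s : MvPolynomial (Fin (N + 1)) K) ^ e) := by
    intro g
    have h2 : (T - cd δ 0 g).toNat ≤ e := by
      rw [he]
      exact Finset.single_le_sum (f := fun g => (T - cd δ 0 g).toNat) (fun _ _ => Nat.zero_le _) (Finset.mem_univ g)
    refine hT (e + cd δ 0 g) (by omega) _ ?_
    intro g'
    by_cases hg : g' = g
    · subst hg
      rw [Pi.single_eq_same, add_sub_cancel_right]
      exact hm_X_pow s e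
    · rw [Pi.single_eq_of_ne hg]
      exact Submodule.zero_mem _
  choose w hw using h1
  refine ⟨∑ g, v g • w g, ?_⟩
  rw [Matrix.mulVec_sum]
  funext c
  rw [Finset.sum_apply, Finset.sum_eq_single c]
  · rw [Matrix.mulVec_smul, hw, Pi.smul_apply, Pi.single_eq_same, Pi.smul_apply, smul_eq_mul, smul_eq_mul, mul_comm]
  · intro g _ hg
    rw [Matrix.mulVec_smul, hw, Pi.smul_apply, Pi.single_eq_of_ne (Ne.symm hg), smul_zero]
  · intro hc
    exact (hc (Finset.mem_univ c)).elim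

end H92C
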