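import Mathlib

/-! # H92C, chunk H11 (M): block elimination in a complex of modules (pure linear algebra) -/

namespace H92C

/-- A complex C with decompositions C i = V i ⊕ B i ⊕ A (i-1) such that the component A i → B i of the boundary is invertible. -/
structure Elim (R : Type) [CommRing R] (C V B A : ℕ → Type)
    [∀ i, AddCommGroup (C i)] [∀ i, Module R (C i)] [∀ i, AddCommGroup (V i)] [∀ i, Module R (V i)]
    [∀ i, AddCommGroup (B i)] [∀ i, Module R (B i)] [∀ i, AddCommGroup (A i)] [∀ i, Module R (A i)]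
    (d : (i : ℕ) → C (i + 1) →ₗ[R] C i) (pV : (i : ℕ) → C i →ₗ[R] V i) (jV : (i : ℕ) → V i →ₗ[R] C i)
    (pB : (i : ℕ) → C i →ₗ[R] B i) (jA : (i : ℕ) → A i →ₗ[R] C (i + 1)) (th : (i : ℕ) → B i →ₗ[R] A i) : Prop where
  pVjV : ∀ i v, pV i (jV i v) = v
  pBjV : ∀ i v, pB i (jV i v) = 0
  pVjA : ∀ i a, pV (i + 1) (jA i a) = 0
  pBjA : ∀ i a, pB (i + 1) (jA i a) = 0
  ker : ∀ i y, pV (i + 1) y = 0 → pB (i + 1) y = 0 → ∃ a, jA i a = y
  ker0 : ∀ y, pV 0 y = 0 → pB 0 y = 0 → y = 0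
  th1 : ∀ i a, th i (pB i (d i (jA i a))) = a
  th2 : ∀ i b, pB i (d i (jA i (th i b))) = b
  dd : ∀ i y, d i (d (i + 1) y) = 0
  ex : ∀ i y, d i y = 0 → ∃ w, d (i + 1) w = y

section

variable {R : Type} [CommRing R] {C V B A : ℕ → Type}
    [∀ i, AddCommGroup (C i)] [∀ i, Module R (C i)] [∀ i, AddCommGroup (V i)] [∀ i, Module R (V i)]
    [∀ i, AddCommGroup (B i)] [∀ i, Module R (B i)] [∀ i, AddCommGroup (A i)] [∀ i, Module R (A i)]
    {d : (i : ℕ) → C (i + 1) →ₗ[R] C i} {pV : (i : ℕ) → C i →ₗ[R] V i} {jV : (i : ℕ) → V i →ₗ[R] C i}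
    {pB : (i : ℕ) → C i →ₗ[R] B i} {jA : (i : ℕ) → A i →ₗ[R] C (i + 1)} {th : (i : ℕ) → B i →ₗ[R] A i}

/-- The reduced boundary. -/
def rd (d : (i : ℕ) → C (i + 1) →ₗ[R] C i) (pV : (i : ℕ) → C i →ₗ[R] V i) (jV : (i : ℕ) → V i →ₗ[R] C i)
    (pB : (i : ℕ) → C i →ₗ[R] B i) (jA : (i : ℕ) → A i →ₗ[R] C (i + 1)) (th : (i : ℕ) → B i →ₗ[R] A i) (i : ℕ) :
    V (i + 1) →ₗ[R] V i :=
  pV i ∘ₗ d i ∘ₗ jV (i + 1) - pV i ∘ₗ d i ∘ₗ jA i ∘ₗ th i ∘ₗ pB i ∘ₗ d i ∘ₗ jV (i + 1)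


def h11_s (d : (i : ℕ) → C (i + 1) →ₗ[R] C i) (jV : (i : ℕ) → V i →ₗ[R] C i)
    (pB : (i : ℕ) → C i →ₗ[R] B i) (jA : (i : ℕ) → A i →ₗ[R] C (i + 1)) (th : (i : ℕ) → B i →ₗ[R] A i) (i : ℕ)
    (v : V (i + 1)) : C (i + 1) :=
  jV (i + 1) v - jA i (th i (pB i (d i (jV (i + 1) v))))

theorem h11_pV (h : Elim R C V B A d pV jV pB jA th) (i : ℕ) (v : V (i + 1)) :
    pV (i + 1) (h11_s d jV pB jA th i v) = v := by
  simp [h11_s, h.pVjV, h.pVjA]

theorem h11_pB (h : Elim R C V B A d pV jV pB jA th) (i : ℕ) (v : V (i + 1)) :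
    pB (i + 1) (h11_s d jV pB jA th i v) = 0 := by
  simp [h11_s, h.pBjV, h.pBjA]

theorem h11_pBd (h : Elim R C V B A d pV jV pB jA th) (i : ℕ) (v : V (i + 1)) :
    pB i (d i (h11_s d jV pB jA th i v)) = 0 := by
  simp [h11_s, h.th2]

theorem h11_rd (i : ℕ) (v : V (i + 1)) :
    pV i (d i (h11_s d jV pB jA th i v)) = rd d pV jV pB jA th i v := by
  simp [h11_s, rd]

theorem h11_uniq (h : Elim R C V B A d pV jV pB jA th) (i : ℕ) (y : C (i + 1))
    (hB : pB (i + 1) y = 0) (hd : pB i (d i y) = 0) : h11_s d jV pB jA th i (pV (i + 1) y) = y := by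
  obtain ⟨a, ha⟩ := h.ker i (y - h11_s d jV pB jA th i (pV (i + 1) y))
    (by rw [map_sub, h11_pV h, sub_self]) (by rw [map_sub, h11_pB h, hB, sub_self])
  have h1 : pB i (d i (jA i a)) = 0 := by
    rw [ha, map_sub, map_sub, hd, h11_pBd h, sub_self]
  have h2 : a = 0 := by
    rw [← h.th1 i a, h1, map_zero]
  rw [h2, map_zero] at ha
  exact (sub_eq_zero.1 ha.symm).symm

/-- PROOF. s v := jV v - jA (th (pB (d (jV v)))) (in position i + 1) satisfies pV (s v) = v, pB (s v) = 0, pB (d (s v)) = 0 and pV (d (s v)) = rd v. An element y of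
position i + 1 with pB y = 0 and pB (d y) = 0 is s (pV y): y - s (pV y) has pV = 0 and pB = 0, so it is jA a, and a = th (pB (d (jA a))) = 0. For w in
V (i + 2): y := d (s w) in position i + 1 has pB y = 0, d y = 0, so y = s (pV y) = s (rd w), and d (s (rd w)) = d (d (s w)) = 0, so rd (rd w) = pV (d (s (rd w))) = 0. -/
theorem rd_rd (h : Elim R C V B A d pV jV pB jA th) (i : ℕ) (w : V (i + 2)) :
    rd d pV jV pB jA th i (rd d pV jV pB jA th (i + 1) w) = 0 := by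
  have h1 : d i (d (i + 1) (h11_s d jV pB jA th (i + 1) w)) = 0 := h.dd i _
  have h2 := h11_uniq h i (d (i + 1) (h11_s d jV pB jA th (i + 1) w)) (h11_pBd h (i + 1) w)
    (by rw [h1, map_zero])
  rw [h11_rd (i + 1) w] at h2
  rw [← h11_rd i, h2, h1, map_zero]

/-- PROOF. With s as in `rd_rd`: if rd v = 0, v in V (i + 1), then y := d (s v) in position i has pV y = 0 and pB y = 0, and d y = 0 (if i ≥ 1): y = s' (pV y) = 0 by the
uniqueness (for i = 0 by ker0; for i ≥ 1: y = jA a and a = th (pB (d (jA a))) = th (pB (d y)) = 0).  So d (s v) = 0, s v = d y for some y in position i + 2.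
Let z := jA (th (pB y)) (position i + 3... : jA (i+2) applied to th (i+2) (pB (i+2) y), in position i + 3) and y' := y - d z: pB y' = 0 (th2), d y' = s v, so pB (d y') = 0 and
y' = s'' (pV y').  Then rd (pV y') = pV (d (s'' (pV y'))) = pV (d y') = pV (s v) = v. -/
theorem rd_ex (h : Elim R C V B A d pV jV pB jA th) (i : ℕ) (v : V (i + 1)) (hv : rd d pV jV pB jA th i v = 0) :
    ∃ w, rd d pV jV pB jA th (i + 1) w = v := by
  have h1 : pV i (d i (h11_s d jV pB jA th i v)) = 0 := by rw [h11_rd, hv]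
  have h2 : pB i (d i (h11_s d jV pB jA th i v)) = 0 := h11_pBd h i v
  have h3 : d i (h11_s d jV pB jA th i v) = 0 := by
    cases i with
    | zero => exact h.ker0 _ h1 h2
    | succ j =>
      have h4 : d j (d (j + 1) (h11_s d jV pB jA th (j + 1) v)) = 0 := h.dd j _
      have h5 := h11_uniq h j _ h2 (by rw [h4, map_zero])
      rw [← h5, h1]
      simp [h11_s]
  obtain ⟨y, hy⟩ := h.ex i _ h3
  have h6 : pB (i + 2) (y - d (i + 2) (jA (i + 2) (th (i + 2) (pB (i + 2) y)))) = 0 := by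
    rw [map_sub, h.th2, sub_self]
  have h7 : d (i + 1) (y - d (i + 2) (jA (i + 2) (th (i + 2) (pB (i + 2) y)))) =
      h11_s d jV pB jA th i v := by
    rw [map_sub, h.dd, sub_zero, hy]
  have h8 := h11_uniq h (i + 1) _ h6 (by rw [h7]; exact h11_pB h i v)
  refine ⟨pV (i + 2) (y - d (i + 2) (jA (i + 2) (th (i + 2) (pB (i + 2) y)))), ?_⟩
  rw [← h11_rd (i + 1), h8, h7, h11_pV h]

/-- PROOF. r • jV v = d y for some y in position 1.  y' := y - d (jA (th (pB y))) has pB y' = 0, d y' = r • jV v, pB (d y') = 0, so y' = s (pV y') and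
rd (pV y') = pV (d y') = r • v. -/
theorem rd_sm (h : Elim R C V B A d pV jV pB jA th) (r : R) (hr : ∀ c : C 0, ∃ y, d 0 y = r • c) (v : V 0) :
    ∃ w, rd d pV jV pB jA th 0 w = r • v := by
  obtain ⟨y, hy⟩ := hr (jV 0 v)
  have h6 : pB 1 (y - d 1 (jA 1 (th 1 (pB 1 y)))) = 0 := by
    rw [map_sub, h.th2, sub_self]
  have h7 : d 0 (y - d 1 (jA 1 (th 1 (pB 1 y)))) = r • jV 0 v := by
    rw [map_sub, h.dd, sub_zero, hy]
  have h8 := h11_uniq h 0 _ h6 (by rw [h7, map_smul, h.pBjV, smul_zero])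
  refine ⟨pV 1 (y - d 1 (jA 1 (th 1 (pB 1 y)))), ?_⟩
  rw [← h11_rd 0, h8, h7, map_smul, h.pVjV]

end

end H92C
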