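import Pool.Agent.Lib.H92C.H10
import Pool.Agent.Lib.H92C.H11
import Pool.Agent.Lib.H92C.H06

/-! # H92C, chunk H12 (M): the component At → Bt of the cone is invertible -/

open MvPolynomial

namespace H92C

variable {K : Type} [Field K] {N : ℕ} {D : ℕ → ℤ} {ι : ℕ → Type} [∀ i, Fintype (ι i)] [∀ i, DecidableEq (ι i)]
  {δ : (i : ℕ) → ι i → ℤ} {d : (i : ℕ) → Matrix (ι i) (ι (i + 1)) (MvPolynomial (Fin N) K)}
  {x : (i : ℕ) → Matrix (ι i) (ι i) (MvPolynomial (Fin N) K)}

theorem h12_entry (i : ℕ) (b : Bt ι D δ i) (a : At ι D δ i) :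
    ((cn d x i).submatrix (bE D δ i) (aE D δ i)).map
      (constantCoeff : MvPolynomial (Fin (N + 1)) K → K) b a = - constantCoeff (x (i + 1) b.1 a.1) := by
  have h1 : (cn d x i).submatrix (bE D δ i) (aE D δ i) b a =
      Matrix.scalar (ι (i + 1)) (X 0) b.1 a.1 - uph K N (x (i + 1) b.1 a.1) := rfl
  rw [Matrix.map_apply, h1, map_sub, up_const]
  have h2 : constantCoeff (Matrix.scalar (ι (i + 1)) (X 0 : MvPolynomial (Fin (N + 1)) K) b.1 a.1) = 0 := by
    rw [Matrix.scalar_apply, Matrix.diagonal_apply]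
    split_ifs <;> simp
  rw [h2, zero_sub]

theorem h12_zero (h : Cpx K N D ι δ d x) (i : ℕ) (b a : ι (i + 1)) (hba : δ (i + 1) a + 1 ≠ δ (i + 1) b) :
    constantCoeff (x (i + 1) b a) = 0 := by
  have h1 := h.gx (i + 1) b a
  exact hm_const (by intro h2; apply hba; linarith) h1

theorem h12_key (h : Cpx K N D ι δ d x) (i : ℕ) (v : At ι D δ i → K) (b : Bt ι D δ i) (t : ℤ)
    (hb : δ (i + 1) b.1 = t + 1) (ht : t + 1 ≠ D (i + 1)) :
    (((cn d x i).submatrix (bE D δ i) (aE D δ i)).map
      (constantCoeff : MvPolynomial (Fin (N + 1)) K → K)).mulVec v b =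
    - (slice (δ (i + 1)) (δ (i + 1)) (x (i + 1)) t).mulVec
      (fun a => v ⟨a.1, by rw [a.2]; exact ht⟩) ⟨b.1, hb⟩ := by
  rw [Matrix.mulVec, Matrix.mulVec, dotProduct, dotProduct, ← Finset.sum_neg_distrib]
  symm
  apply Fintype.sum_of_injective (fun a : {a : ι (i + 1) // δ (i + 1) a = t} =>
    (⟨a.1, by rw [a.2]; exact ht⟩ : At ι D δ i))
  · intro a a' haa
    have := congrArg Subtype.val haa
    exact Subtype.ext this
  · intro a ha
    rw [h12_entry, h12_zero h, neg_zero, zero_mul]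
    intro h2
    apply ha
    exact ⟨⟨a.1, by rw [hb] at h2; linarith⟩, rfl⟩
  · intro a
    rw [h12_entry, neg_mul]
    rfl

/-- PROOF. The entry of the cone at (inl b, inr a) is X 0 or 0 minus uph (x b a), its constant coefficient is - constantCoeff (x b a) (`up_const`), which is 0 unless
δ b = δ a + 1 (`hm_const`, h.gx).  Injective: if v is in the kernel then for every t with D i ≤ t, t + 1 < D (i + 1) the restriction of v to the generators a of degree t
(they lie in At, as t + 1 ≠ D (i + 1)) is in the kernel of the slice t (look at the rows b of degree t + 1 ≠ D i, which lie in Bt), so it is 0 (h.sl); every a in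
At has such a degree t = δ a (h.deg and δ a + 1 ≠ D (i + 1)).  Surjective: given w on Bt, for each t choose the preimage under the slice t of the negative of the restriction of w to the b of
degree t + 1 and put the preimages together; every b in Bt has degree t + 1 with D i ≤ t. -/
theorem th_bij (h : Cpx K N D ι δ d x) (i : ℕ) :
    Function.Bijective ((((cn d x i).submatrix (bE D δ i) (aE D δ i)).map
      (constantCoeff : MvPolynomial (Fin (N + 1)) K → K)).mulVec) := by
  constructor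
  · intro v v' hvv
    funext a
    have h1 := h.deg i a.1
    have h2 := a.2
    have ht : δ (i + 1) a.1 + 1 < D (i + 1) := by
      rcases lt_or_eq_of_le (Int.add_one_le_of_lt h1.2) with h3 | h3
      · exact h3
      · exact absurd h3 h2
    have h4 := (h.sl i (δ (i + 1) a.1) h1.1 ht).1
    have h5 : (fun c : {c : ι (i + 1) // δ (i + 1) c = δ (i + 1) a.1} =>
        v ⟨c.1, by rw [c.2]; exact ht.ne⟩) = (fun c => v' ⟨c.1, by rw [c.2]; exact ht.ne⟩) := by
      apply h4
      funext b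
      have hb : δ (i + 1) b.1 ≠ D i := by
        rw [b.2]; have := h1.1; omega
      have h6 := h12_key h i v ⟨b.1, hb⟩ (δ (i + 1) a.1) b.2 ht.ne
      have h7 := h12_key h i v' ⟨b.1, hb⟩ (δ (i + 1) a.1) b.2 ht.ne
      have h8 := congrFun hvv ⟨b.1, hb⟩
      rw [h6, h7] at h8
      exact neg_injective h8
    exact congrFun h5 ⟨a.1, rfl⟩
  · intro w
    have hch : ∀ t : ℤ, ∃ u : {a : ι (i + 1) // δ (i + 1) a = t} → K, D i ≤ t → t + 1 < D (i + 1) →
        ∀ (b : Bt ι D δ i) (hb : δ (i + 1) b.1 = t + 1),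
          (slice (δ (i + 1)) (δ (i + 1)) (x (i + 1)) t).mulVec u ⟨b.1, hb⟩ = - w b := by
      intro t
      by_cases hD : D i ≤ t
      · by_cases hD' : t + 1 < D (i + 1)
        · obtain ⟨u, hu⟩ := (h.sl i t hD hD').2
            (fun b => - w ⟨b.1, by rw [b.2]; omega⟩)
          refine ⟨u, fun _ _ b hb => ?_⟩
          rw [hu]
        · exact ⟨0, fun _ h3 => absurd h3 hD'⟩
      · exact ⟨0, fun h3 => absurd h3 hD⟩
    choose u hu using hch
    refine ⟨fun a => u (δ (i + 1) a.1) ⟨a.1, rfl⟩, ?_⟩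
    funext b
    have h1 := h.deg i b.1
    have h2 := b.2
    have h3 : D i ≤ δ (i + 1) b.1 - 1 := by
      have := h1.1
      omega
    have h4 : δ (i + 1) b.1 - 1 + 1 < D (i + 1) := by have := h1.2; omega
    have hb : δ (i + 1) b.1 = (δ (i + 1) b.1 - 1) + 1 := by ring
    rw [h12_key h i _ b (δ (i + 1) b.1 - 1) hb h4.ne]
    have h5 : (fun a : {a : ι (i + 1) // δ (i + 1) a = δ (i + 1) b.1 - 1} =>
        u (δ (i + 1) a.1) ⟨a.1, rfl⟩) = u (δ (i + 1) b.1 - 1) := by
      funext a
      obtain ⟨a, ha⟩ := a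
      generalize δ (i + 1) b.1 - 1 = t at ha
      subst ha
      rfl
    rw [h5, hu _ h3 h4 b hb, neg_neg]

/-- PROOF. `nak` for the submatrix (graded by `cn_gm`, `gm_submatrix`) and `th_bij`. -/
theorem th_inv (h : Cpx K N D ι δ d x) (i : ℕ) :
    ∃ T : Matrix (At ι D δ i) (Bt ι D δ i) (MvPolynomial (Fin (N + 1)) K),
      Gmh (fun b : Bt ι D δ i => δ (i + 1) b.1) (fun a : At ι D δ i => δ (i + 1) a.1 + 1) T ∧
      T * (cn d x i).submatrix (bE D δ i) (aE D δ i) = 1 ∧ (cn d x i).submatrix (bE D δ i) (aE D δ i) * T = 1 := by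
  exact nak _ _ _ (gm_submatrix (cn_gm h i) (aE D δ i) (bE D δ i)) (th_bij h i)

end H92C
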