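import Pool.Agent.Lib.H92C.H12

/-! # H92C, chunk H13 (M): the reduced cone -/

open MvPolynomial

namespace H92C

variable {K : Type} [Field K] {N : ℕ} {D : ℕ → ℤ} {ι : ℕ → Type} [∀ i, Fintype (ι i)] [∀ i, DecidableEq (ι i)]
  {δ : (i : ℕ) → ι i → ℤ} {d : (i : ℕ) → Matrix (ι i) (ι (i + 1)) (MvPolynomial (Fin N) K)}
  {x : (i : ℕ) → Matrix (ι i) (ι i) (MvPolynomial (Fin N) K)}

theorem h13_sum {R α β : Type} [CommRing R] [Fintype α] [Fintype β] {f : α → β} (hf : Function.Injective f) (F : β → R)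
    (v : α → R) : ∑ b, F b * Function.extend f v 0 b = ∑ a, F (f a) * v a := by
  symm
  refine Finset.sum_of_injOn f hf.injOn (fun _ _ => by rw [Finset.mem_coe]; exact Finset.mem_univ _) ?_ ?_
  · intro b _ hb
    have h1 : ¬ ∃ a, f a = b := by
      rintro ⟨a, ha⟩
      exact hb ⟨a, by rw [Finset.mem_coe]; exact Finset.mem_univ _, ha⟩
    rw [Function.extend_apply' _ _ _ h1, Pi.zero_apply, mul_zero]
  · intro a _
    rw [hf.extend_apply]

theorem h13_mv {R α β γ μ : Type} [CommRing R] [Fintype α] [Fintype β] {f : α → β} (hf : Function.Injective f)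
    (M : Matrix γ β R) (g : μ → γ) (v : α → R) (b : μ) :
    M.mulVec (Function.extend f v 0) (g b) = (M.submatrix g f).mulVec v b :=
  h13_sum hf (fun c => M (g b) c) v

theorem h13_vinj (D : ℕ → ℤ) (δ : (i : ℕ) → ι i → ℤ) (i : ℕ) : Function.Injective (vE D δ i) :=
  Sum.map_injective.2 ⟨Subtype.val_injective, Subtype.val_injective⟩

theorem h13_binj (D : ℕ → ℤ) (δ : (i : ℕ) → ι i → ℤ) (i : ℕ) : Function.Injective (bE D δ i) :=
  Sum.inl_injective.comp Subtype.val_injective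

theorem h13_ainj (D : ℕ → ℤ) (δ : (i : ℕ) → ι i → ℤ) (i : ℕ) : Function.Injective (aE D δ i) :=
  Sum.inr_injective.comp Subtype.val_injective

theorem h13_bv (D : ℕ → ℤ) (δ : (i : ℕ) → ι i → ℤ) (i : ℕ) (b : Bt ι D δ i) (a : Vt ι D δ i) : vE D δ i a ≠ bE D δ i b := by
  intro h
  rcases a with a | a
  · have h1 : a.1 = b.1 := Sum.inl_injective h
    exact b.2 (by rw [← h1]; exact a.2)
  · exact Sum.inr_ne_inl h

theorem h13_av (D : ℕ → ℤ) (δ : (i : ℕ) → ι i → ℤ) (i : ℕ) (b : At ι D δ i) (a : Vt ι D δ (i + 1)) :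
    vE D δ (i + 1) a ≠ aE D δ i b := by
  intro h
  rcases a with a | a
  · exact Sum.inl_ne_inr h
  · have h1 : a.1 = b.1 := Sum.inr_injective h
    exact b.2 (by rw [← h1]; exact a.2)

/-- The matrix of the reduced cone. -/
noncomputable def Fm (D : ℕ → ℤ) (δ : (i : ℕ) → ι i → ℤ) (d : (i : ℕ) → Matrix (ι i) (ι (i + 1)) (MvPolynomial (Fin N) K))
    (x : (i : ℕ) → Matrix (ι i) (ι i) (MvPolynomial (Fin N) K))
    (T : (i : ℕ) → Matrix (At ι D δ i) (Bt ι D δ i) (MvPolynomial (Fin (N + 1)) K)) (i : ℕ) :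
    Matrix (Vt ι D δ i) (Vt ι D δ (i + 1)) (MvPolynomial (Fin (N + 1)) K) :=
  (cn d x i).submatrix (vE D δ i) (vE D δ (i + 1)) -
    (cn d x i).submatrix (vE D δ i) (aE D δ i) * T i * (cn d x i).submatrix (bE D δ i) (vE D δ (i + 1))

/-- PROOF. Products of graded matrices (`cn_gm`, `gm_submatrix`, `gm_mul`, `gm_sub`); the degree of a generator in Vt i is D i by definition of Vt (cd on vE). -/
theorem fm_gm (h : Cpx K N D ι δ d x) (T : (i : ℕ) → Matrix (At ι D δ i) (Bt ι D δ i) (MvPolynomial (Fin (N + 1)) K))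
    (hT : ∀ i, Gmh (fun b : Bt ι D δ i => δ (i + 1) b.1) (fun a : At ι D δ i => δ (i + 1) a.1 + 1) (T i)) (i : ℕ) :
    Gmh (fun _ : Vt ι D δ (i + 1) => D (i + 1)) (fun _ : Vt ι D δ i => D i) (Fm D δ d x T i) := by
  have hv : ∀ j, cd δ j ∘ vE D δ j = fun _ => D j := by
    intro j
    funext a
    rcases a with a | a
    · exact a.2
    · exact a.2
  have h1 := cn_gm h i
  have h2 := gm_submatrix h1 (vE D δ (i + 1)) (vE D δ i)
  have h3 := gm_submatrix h1 (aE D δ i) (vE D δ i)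
  have h4 := gm_submatrix h1 (vE D δ (i + 1)) (bE D δ i)
  rw [hv, hv] at h2
  rw [hv] at h3 h4
  unfold Fm
  refine gm_sub h2 (gm_mul (gm_mul h3 ?_) h4)
  exact hT i

/-- PROOF. The data for `Elim`: C i = functions on ι (i+1) ⊕ ι i, V i, B i, A i = functions on Vt, Bt, At; pV, pB = restriction along vE, bE (as linear maps), jV, jA = extension by 0
(for example mulVecLin of the matrices (1).submatrix id vE, (1).submatrix id aE; or fun c => Σ_a if vE a = c then u a else 0); th i = (T i).mulVecLin.  The maps vE, bE, aE are injective and their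
images (of Vt (i+1), Bt (i+1), At i) form a partition of ι (i+2) ⊕ ι (i+1): inl a is in vE if δ a = D (i+1), otherwise in bE; inr a is in vE if δ a + 1 = D (i+1), otherwise in aE.
In position 0 there is no inr (h.e0).  th1, th2 from the hypotheses on T; dd, ex from `cn_cn`, `cn_ex`. -/
theorem elim_cn (h : Cpx K N D ι δ d x) (T : (i : ℕ) → Matrix (At ι D δ i) (Bt ι D δ i) (MvPolynomial (Fin (N + 1)) K))
    (h1 : ∀ i, T i * (cn d x i).submatrix (bE D δ i) (aE D δ i) = 1)
    (h2 : ∀ i, (cn d x i).submatrix (bE D δ i) (aE D δ i) * T i = 1) :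
    ∃ (pV : (i : ℕ) → (ι (i + 1) ⊕ ι i → MvPolynomial (Fin (N + 1)) K) →ₗ[MvPolynomial (Fin (N + 1)) K]
        (Vt ι D δ i → MvPolynomial (Fin (N + 1)) K))
      (jV : (i : ℕ) → (Vt ι D δ i → MvPolynomial (Fin (N + 1)) K) →ₗ[MvPolynomial (Fin (N + 1)) K]
        (ι (i + 1) ⊕ ι i → MvPolynomial (Fin (N + 1)) K))
      (pB : (i : ℕ) → (ι (i + 1) ⊕ ι i → MvPolynomial (Fin (N + 1)) K) →ₗ[MvPolynomial (Fin (N + 1)) K]
        (Bt ι D δ i → MvPolynomial (Fin (N + 1)) K))
      (jA : (i : ℕ) → (At ι D δ i → MvPolynomial (Fin (N + 1)) K) →ₗ[MvPolynomial (Fin (N + 1)) K]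
        (ι (i + 2) ⊕ ι (i + 1) → MvPolynomial (Fin (N + 1)) K)),
      Elim (MvPolynomial (Fin (N + 1)) K) (fun i => ι (i + 1) ⊕ ι i → MvPolynomial (Fin (N + 1)) K)
        (fun i => Vt ι D δ i → MvPolynomial (Fin (N + 1)) K) (fun i => Bt ι D δ i → MvPolynomial (Fin (N + 1)) K)
        (fun i => At ι D δ i → MvPolynomial (Fin (N + 1)) K) (fun i => (cn d x i).mulVecLin) pV jV pB jA
        (fun i => (T i).mulVecLin) ∧
      ∀ i v, rd (fun i => (cn d x i).mulVecLin) pV jV pB jA (fun i => (T i).mulVecLin) i v = (Fm D δ d x T i).mulVec v := by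
  have hA : ∀ i (a : At ι D δ i → MvPolynomial (Fin (N + 1)) K) (b : Bt ι D δ i),
      (cn d x i).mulVec (Function.extend (aE D δ i) a 0) (bE D δ i b) = ((cn d x i).submatrix (bE D δ i) (aE D δ i)).mulVec a b :=
    fun i a b => h13_mv (h13_ainj D δ i) _ _ _ _
  refine ⟨fun i => LinearMap.funLeft _ _ (vE D δ i), fun i => Function.ExtendByZero.linearMap _ (vE D δ i),
    fun i => LinearMap.funLeft _ _ (bE D δ i), fun i => Function.ExtendByZero.linearMap _ (aE D δ i), ⟨?_, ?_, ?_, ?_, ?_, ?_, ?_, ?_, ?_, ?_⟩, ?_⟩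
  · intro i v
    funext a
    exact (h13_vinj D δ i).extend_apply v 0 a
  · intro i v
    funext b
    exact Function.extend_apply' (f := vE D δ i) v (0 : ι (i + 1) ⊕ ι i → MvPolynomial (Fin (N + 1)) K) (bE D δ i b)
      fun ⟨a, ha⟩ => h13_bv D δ i b a ha
  · intro i a
    funext c
    exact Function.extend_apply' (f := aE D δ i) a (0 : ι (i + 2) ⊕ ι (i + 1) → MvPolynomial (Fin (N + 1)) K)
      (vE D δ (i + 1) c) fun ⟨b, hb⟩ => h13_av D δ i b c hb.symm
  · intro i a
    funext c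
    exact Function.extend_apply' (f := aE D δ i) a (0 : ι (i + 2) ⊕ ι (i + 1) → MvPolynomial (Fin (N + 1)) K)
      (bE D δ (i + 1) c) fun ⟨b, hb⟩ => Sum.inr_ne_inl hb
  · intro i y hV hB
    refine ⟨fun a => y (aE D δ i a), ?_⟩
    funext c
    show Function.extend (aE D δ i) (fun a => y (aE D δ i a)) 0 c = y c
    rcases c with c | c
    · rw [Function.extend_apply' _ _ _ (fun ⟨b, hb⟩ => Sum.inr_ne_inl hb), Pi.zero_apply]
      by_cases hc : δ (i + 2) c = D (i + 1)
      · exact (congrFun hV (Sum.inl ⟨c, hc⟩)).symm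
      · exact (congrFun hB ⟨c, hc⟩).symm
    · by_cases hc : δ (i + 1) c + 1 = D (i + 1)
      · rw [Function.extend_apply' _ _ _ (fun ⟨b, hb⟩ => by
          have h3 : b.1 = c := Sum.inr_injective hb
          exact b.2 (by rw [h3]; exact hc)), Pi.zero_apply]
        exact (congrFun hV (Sum.inr ⟨c, hc⟩)).symm
      · exact (h13_ainj D δ i).extend_apply _ 0 ⟨c, hc⟩
  · intro y hV hB
    funext c
    rcases c with c | c
    · by_cases hc : δ 1 c = D 0
      · exact congrFun hV (Sum.inl ⟨c, hc⟩)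
      · exact congrFun hB ⟨c, hc⟩
    · exact h.e0.elim c
  · intro i a
    show (T i).mulVec (fun b => (cn d x i).mulVec (Function.extend (aE D δ i) a 0) (bE D δ i b)) = a
    have h3 : (fun b => (cn d x i).mulVec (Function.extend (aE D δ i) a 0) (bE D δ i b)) =
        ((cn d x i).submatrix (bE D δ i) (aE D δ i)).mulVec a := funext fun b => hA i a b
    rw [h3, Matrix.mulVec_mulVec, h1, Matrix.one_mulVec]
  · intro i b
    funext c
    show (cn d x i).mulVec (Function.extend (aE D δ i) ((T i).mulVec b) 0) (bE D δ i c) = b c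
    rw [hA, Matrix.mulVec_mulVec, h2, Matrix.one_mulVec]
  · intro i y
    show (cn d x i).mulVec ((cn d x (i + 1)).mulVec y) = 0
    rw [Matrix.mulVec_mulVec, cn_cn h i, Matrix.zero_mulVec]
  · intro i y hy
    exact cn_ex h i y hy
  · intro i v
    funext b
    show (cn d x i).mulVec (Function.extend (vE D δ (i + 1)) v 0) (vE D δ i b) -
      (cn d x i).mulVec (Function.extend (aE D δ i) ((T i).mulVec
        (fun c => (cn d x i).mulVec (Function.extend (vE D δ (i + 1)) v 0) (bE D δ i c))) 0) (vE D δ i b) = _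
    have h3 : (fun c => (cn d x i).mulVec (Function.extend (vE D δ (i + 1)) v 0) (bE D δ i c)) =
        ((cn d x i).submatrix (bE D δ i) (vE D δ (i + 1))).mulVec v := funext fun c => h13_mv (h13_vinj D δ (i + 1)) _ _ _ _
    rw [h3, h13_mv (h13_vinj D δ (i + 1)), h13_mv (h13_ainj D δ i)]
    unfold Fm
    rw [Matrix.sub_mulVec, ← Matrix.mulVec_mulVec, ← Matrix.mulVec_mulVec, Pi.sub_apply]

end H92C
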