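import Pool.Agent.Lib.H92C.H13

/-! # H92C, chunk H14 (M): the cone theorem -/

open MvPolynomial

namespace H92C

variable {K : Type} [Field K] {N : ℕ} {D : ℕ → ℤ} {ι : ℕ → Type} [∀ i, Fintype (ι i)] [∀ i, DecidableEq (ι i)]
  {δ : (i : ℕ) → ι i → ℤ} {d : (i : ℕ) → Matrix (ι i) (ι (i + 1)) (MvPolynomial (Fin N) K)}
  {x : (i : ℕ) → Matrix (ι i) (ι i) (MvPolynomial (Fin N) K)}

/-- PROOF. Choose T i by `th_inv`.  β i := Fintype.card (Vt i), e i : Vt i ≃ Fin (β i).  f i := the linear map of the matrix Fm i reindexed by e i, e (i+1) (for example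
`(Matrix.reindex (e i) (e (i+1)) (Fm ..)).mulVecLin`); its entries are the entries of Fm, homogeneous by `fm_gm` and `hm_isHom`.  Exactness: with `elim_cn`, `rd_rd` and `rd_ex` (range f (i+1) =
ker f i); the power: `cn_pow` and `rd_sm` with r = X s ^ e.  β i = 0 for i > N + 1: ι (i+1) and ι i are empty.  β 0: ι 0 is empty. -/
theorem cone_thm (h : Cpx K N D ι δ d x) : ∃ β : ℕ → ℕ, (∀ i, N + 1 < i → β i = 0) ∧
    β 0 = Fintype.card {a : ι 1 // δ 1 a = D 0} ∧ Rfl K (N + 1) D β := by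
  choose T hT h1 h2 using th_inv h
  obtain ⟨pV, jV, pB, jA, hE, hrd⟩ := elim_cn h T h1 h2
  obtain ⟨ep, hep⟩ := cn_pow h
  have hf : ∀ (i : ℕ) (v : Fin (Fintype.card (Vt ι D δ (i + 1))) → MvPolynomial (Fin (N + 1)) K),
      ((Fm D δ d x T i).submatrix (Fintype.equivFin (Vt ι D δ i)).symm (Fintype.equivFin (Vt ι D δ (i + 1))).symm).mulVec v =
      (Fm D δ d x T i).mulVec (v ∘ Fintype.equivFin (Vt ι D δ (i + 1))) ∘ (Fintype.equivFin (Vt ι D δ i)).symm :=
    fun i v => Matrix.submatrix_mulVec_equiv _ _ _ _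
  refine ⟨fun i => Fintype.card (Vt ι D δ i), ?_, ?_,
    fun i => ((Fm D δ d x T i).submatrix (Fintype.equivFin (Vt ι D δ i)).symm (Fintype.equivFin (Vt ι D δ (i + 1))).symm).mulVecLin,
    ?_, ?_, ep, ?_⟩
  · intro i hi
    have := h.eN i hi
    have := h.eN (i + 1) (by omega)
    exact Fintype.card_eq_zero
  · have := h.e0
    show Fintype.card (Vt ι D δ 0) = _
    rw [Fintype.card_sum, Fintype.card_eq_zero (α := {a : ι 0 // δ 0 a + 1 = D 0}), add_zero]
  · intro i a b
    rw [Matrix.mulVecLin_apply, Matrix.mulVec_single_one]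
    exact hm_isHom (fm_gm h T hT i _ _)
  · intro i
    ext v
    rw [LinearMap.mem_range, LinearMap.mem_ker, Matrix.mulVecLin_apply, hf]
    constructor
    · rintro ⟨w, rfl⟩
      rw [Matrix.mulVecLin_apply, hf]
      have h3 := rd_rd hE i (w ∘ Fintype.equivFin (Vt ι D δ (i + 2)))
      rw [hrd, hrd] at h3
      rw [Function.comp_assoc, Equiv.symm_comp_self, Function.comp_id, h3]
      rfl
    · intro hv
      have h3 : (Fm D δ d x T i).mulVec (v ∘ Fintype.equivFin (Vt ι D δ (i + 1))) = 0 := by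
        funext b
        have h4 := congrFun hv (Fintype.equivFin (Vt ι D δ i) b)
        rw [Function.comp_apply, Equiv.symm_apply_apply] at h4
        exact h4
      rw [← hrd] at h3
      obtain ⟨w, hw⟩ := rd_ex hE i _ h3
      rw [hrd] at hw
      refine ⟨w ∘ (Fintype.equivFin (Vt ι D δ (i + 2))).symm, ?_⟩
      rw [Matrix.mulVecLin_apply, hf, Function.comp_assoc, Equiv.symm_comp_self, Function.comp_id, hw, Function.comp_assoc,
        Equiv.self_comp_symm, Function.comp_id]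
  · intro a v
    obtain ⟨w, hw⟩ := rd_sm hE ((X a : MvPolynomial (Fin (N + 1)) K) ^ ep) (fun c => hep a c) (v ∘ Fintype.equivFin (Vt ι D δ 0))
    rw [hrd] at hw
    rw [LinearMap.mem_range]
    refine ⟨w ∘ (Fintype.equivFin (Vt ι D δ 1)).symm, ?_⟩
    rw [Matrix.mulVecLin_apply, hf, Function.comp_assoc, Equiv.symm_comp_self, Function.comp_id, hw]
    funext b
    rw [Function.comp_apply, Pi.smul_apply, Function.comp_apply, Equiv.apply_symm_apply, Pi.smul_apply]

end H92C
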