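import Pool.Agent.Lib.H92C.H01
import Pool.Agent.Lib.H92C.H02

/-! # H92C, H20: finiteness of the sets of patterns and instances (proved) -/

open MvPolynomial

namespace H92C

theorem fin_Il {n : ℕ} (E : Fin (n + 1) → ℤ) : Finite {F : Fin n → ℤ // Il E F} := by
  have h : {F : Fin n → ℤ | Il E F} = ↑(IF E) := by
    ext F
    simp [mem_IF]
  have h2 : ({F : Fin n → ℤ | Il E F}).Finite := by
    rw [h]; exact Finset.finite_toSet _
  exact h2.to_subtype

theorem fin_gd : (n : ℕ) → (E : Fin n → ℤ) → Finite {c : Ch n // gd n E c}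
  | 0, E => by
    have : Finite (Ch 0) := inferInstanceAs (Finite Unit)
    infer_instance
  | n + 1, E => by
    have h1 := fin_Il E
    have h2 : ∀ F : {F : Fin n → ℤ // Il E F}, Finite {c : Ch n // gd n F.1 c} := fun F => fin_gd n F.1
    let f : {c : Ch (n + 1) // gd (n + 1) E c} → Σ F : {F : Fin n → ℤ // Il E F}, {c : Ch n // gd n F.1 c} :=
      fun c => ⟨⟨c.1.1, c.2.1⟩, ⟨c.1.2, c.2.2⟩⟩
    refine Finite.of_injective f ?_
    rintro ⟨⟨F, c⟩, hc⟩ ⟨⟨F', c'⟩, hc'⟩ h
    have h3 : F = F' := congrArg (fun s => s.1.1) h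
    subst h3
    have h4 : c = c' := by
      have := Sigma.mk.inj h
      have h5 := eq_of_heq this.2
      exact congrArg Subtype.val h5
    subst h4
    rfl

variable {N : ℕ} {Γ : Type}

theorem fin_dl [Finite Γ] (r : Γ → Fin (N + 1) → ℤ) (P : Γ → Prop) (p : Fin (N + 1)) :
    Finite {x : Γ × Ch N // P x.1 ∧ gd N (dl (r x.1) p) x.2} := by
  have h2 : ∀ g : Γ, Finite {c : Ch N // gd N (dl (r g) p) c} := fun g => fin_gd N _
  let f : {x : Γ × Ch N // P x.1 ∧ gd N (dl (r x.1) p) x.2} → Σ g : Γ, {c : Ch N // gd N (dl (r g) p) c} :=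
    fun x => ⟨x.1.1, ⟨x.1.2, x.2.2⟩⟩
  refine Finite.of_injective f ?_
  rintro ⟨⟨F, c⟩, hc⟩ ⟨⟨F', c'⟩, hc'⟩ h
  have h3 : F = F' := congrArg (fun s => s.1) h
  subst h3
  have h4 : c = c' := by
    have := Sigma.mk.inj h
    have h5 := eq_of_heq this.2
    exact congrArg Subtype.val h5
  subst h4
  rfl

instance Sx.finite [Finite Γ] (r : Γ → Fin (N + 1) → ℤ) (p : Fin (N + 1)) (t : ℤ) : Finite (Sx r p t) :=
  fin_dl r (fun g => r g p = t) p

noncomputable instance Sx.fintype [Finite Γ] (r : Γ → Fin (N + 1) → ℤ) (p : Fin (N + 1)) (t : ℤ) : Fintype (Sx r p t) :=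
  Fintype.ofFinite _

theorem Ix.fin [Finite Γ] (r : Γ → Fin (N + 1) → ℤ) : (i : ℕ) → Finite (Ix r i)
  | 0 => inferInstanceAs (Finite Empty)
  | p + 1 => by
    by_cases h : p < N + 1
    · have h1 := fin_dl r (fun _ => True) ⟨p, h⟩
      let f : Ix r (p + 1) → {x : Γ × Ch N // True ∧ gd N (dl (r x.1) ⟨p, h⟩) x.2} :=
        fun x => ⟨x.1, trivial, x.2.2⟩
      refine Finite.of_injective f ?_
      intro a b hab
      have := congrArg Subtype.val hab
      exact Subtype.ext this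
    · have : IsEmpty (Ix r (p + 1)) := ⟨fun x => h x.2.1⟩
      exact Finite.of_subsingleton

noncomputable instance Ix.fintype [Finite Γ] (r : Γ → Fin (N + 1) → ℤ) (i : ℕ) : Fintype (Ix r i) :=
  haveI := Ix.fin r i
  Fintype.ofFinite _

open Classical in
noncomputable instance Ix.deceq (r : Γ → Fin (N + 1) → ℤ) (i : ℕ) : DecidableEq (Ix r i) := fun _ _ => inferInstance

end H92C
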