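import Pool.Agent.Lib.H92C.H20

/-! # H92C, chunk H21 (M): vectors over the generators of the direct sum -/

open MvPolynomial

namespace H92C

variable {K : Type} [Field K] {N : ℕ} {Γ : Type}

open Classical in
/-- The component at g of a vector over the generators in position p + 1. -/
noncomputable def ex (r : Γ → Fin (N + 1) → ℤ) (p : ℕ) (w : Ix r (p + 1) → MvPolynomial (Fin N) K) (g : Γ) :
    W (MvPolynomial (Fin N) K) N :=
  fun c => if h : ∃ h : p < N + 1, gd N (dl (r g) ⟨p, h⟩) c then w ⟨(g, c), h⟩ else 0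

/-- PROOF. Definition of U. -/
theorem ex_mem (r : Γ → Fin (N + 1) → ℤ) (p : ℕ) (h : p < N + 1) (w : Ix r (p + 1) → MvPolynomial (Fin N) K) (g : Γ) :
    ex r p w g ∈ U (MvPolynomial (Fin N) K) N (dl (r g) ⟨p, h⟩) := by
  intro c hc
  unfold ex
  rw [dif_neg]
  rintro ⟨h', hg⟩
  exact hc hg

/-- PROOF. `dif_pos`. -/
theorem ex_apply (r : Γ → Fin (N + 1) → ℤ) (p : ℕ) (w : Ix r (p + 1) → MvPolynomial (Fin N) K) (x : Ix r (p + 1)) :
    ex r p w x.1.1 x.1.2 = w x := by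
  unfold ex
  exact dif_pos x.2

/-- PROOF. w x := u x.1.1 x.1.2; outside of the patterns u g is 0. -/
theorem ex_pack (r : Γ → Fin (N + 1) → ℤ) (p : ℕ) (h : p < N + 1) (u : Γ → W (MvPolynomial (Fin N) K) N)
    (hu : ∀ g, u g ∈ U (MvPolynomial (Fin N) K) N (dl (r g) ⟨p, h⟩)) :
    ∃ w : Ix r (p + 1) → MvPolynomial (Fin N) K, ∀ g, ex r p w g = u g := by
  refine ⟨fun x => u x.1.1 x.1.2, fun g => ?_⟩
  funext c
  unfold ex
  by_cases hh : ∃ h : p < N + 1, gd N (dl (r g) ⟨p, h⟩) c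
  · rw [dif_pos hh]
  · rw [dif_neg hh]
    exact (hu g c fun hg => hh ⟨h, hg⟩).symm

open Classical in
/-- PROOF. Evaluate at c: at most one x with x.1 = (g, c) contributes; `Finset.sum_apply`, `Pi.single_apply`. -/
theorem ex_sum [Fintype Γ] (r : Γ → Fin (N + 1) → ℤ) (p : ℕ) (w : Ix r (p + 1) → MvPolynomial (Fin N) K) (g : Γ) :
    ex r p w g = ∑ x : Ix r (p + 1), if x.1.1 = g then w x • Pi.single x.1.2 1 else 0 := by
  funext c
  rw [Finset.sum_apply]
  have hterm : ∀ x : Ix r (p + 1), (if x.1.1 = g then w x • Pi.single x.1.2 (1 : MvPolynomial (Fin N) K) else 0 :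
      W (MvPolynomial (Fin N) K) N) c = if x.1.1 = g ∧ x.1.2 = c then w x else 0 := by
    intro x
    by_cases h1 : x.1.1 = g
    · by_cases h2 : x.1.2 = c
      · rw [if_pos h1, if_pos ⟨h1, h2⟩, Pi.smul_apply, h2, Pi.single_eq_same, smul_eq_mul, mul_one]
      · rw [if_pos h1, if_neg (fun h => h2 h.2), Pi.smul_apply, Pi.single_eq_of_ne (fun h => h2 h.symm), smul_zero]
    · rw [if_neg h1, if_neg (fun h => h1 h.1), Pi.zero_apply]
  rw [Finset.sum_congr rfl fun x _ => hterm x]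
  by_cases hh : ∃ h : p < N + 1, gd N (dl (r g) ⟨p, h⟩) c
  · obtain ⟨a, ha⟩ : ∃ a : Ix r (p + 1), a.1 = (g, c) := ⟨⟨(g, c), hh⟩, rfl⟩
    have h0 : ex r p w a.1.1 a.1.2 = w a := ex_apply r p w a
    rw [ha] at h0
    rw [h0]
    symm
    refine (Finset.sum_eq_single a ?_ ?_).trans ?_
    · intro x _ hx
      rw [if_neg]
      rintro ⟨h1, h2⟩
      exact hx (Subtype.ext ((Prod.ext h1 h2 : x.1 = (g, c)).trans ha.symm))
    · intro h
      exact absurd (Finset.mem_univ _) h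
    · rw [ha]
      exact if_pos ⟨rfl, rfl⟩
  · have h0 : ex r p w g c = 0 := dif_neg hh
    rw [h0]
    symm
    refine Finset.sum_eq_zero fun x _ => ?_
    rw [if_neg]
    rintro ⟨h1, h2⟩
    apply hh
    rw [← h1, ← h2]
    exact x.2

open Classical in
theorem h21_ixb (z : ℤ → K) (r : Γ → Fin (N + 1) → ℤ) (p : ℕ) (h : p < N) (y : Ix r (p + 1)) (x : Ix r (p + 2)) :
    ixb z r (p + 1) y x =
      if x.1.1 = y.1.1 then bd z (xs N K) (r x.1.1) ⟨p, h⟩ (Pi.single x.1.2 1) y.1.2 else 0 :=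
  dif_pos h

theorem h21_ixx (r : Γ → Fin (N + 1) → ℤ)
    (φ : Γ → Γ → Fin (N + 1) → (W (MvPolynomial (Fin N) K) N →ₗ[MvPolynomial (Fin N) K] W (MvPolynomial (Fin N) K) N))
    (p : ℕ) (h : p < N + 1) (y x : Ix r (p + 1)) :
    ixx r φ (p + 1) y x = φ x.1.1 y.1.1 ⟨p, h⟩ (Pi.single x.1.2 1) y.1.2 :=
  dif_pos h

/-- PROOF. `Matrix.mulVec`, `dotProduct`: the sum over x : Ix r (p+2) of (if x.1.1 = y.1.1 then bd .. (single x.1.2 1) y.1.2 else 0) * w x = bd .. (ex r (p+1) w y.1.1) y.1.2 by `ex_sum` and linearity. -/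
theorem ixb_mulVec [Fintype Γ] (z : ℤ → K) (r : Γ → Fin (N + 1) → ℤ) (p : ℕ) (h : p < N) (w : Ix r (p + 2) → MvPolynomial (Fin N) K)
    (y : Ix r (p + 1)) :
    (ixb z r (p + 1)).mulVec w y = bd z (xs N K) (r y.1.1) ⟨p, h⟩ (ex r (p + 1) w y.1.1) y.1.2 := by
  classical
  rw [ex_sum, map_sum, Finset.sum_apply]
  unfold Matrix.mulVec dotProduct
  refine Finset.sum_congr rfl fun x _ => ?_
  change ixb z r (p + 1) y x * w x = _
  rw [h21_ixb z r p h y x]
  by_cases h1 : x.1.1 = y.1.1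
  · rw [if_pos h1, if_pos h1, map_smul, Pi.smul_apply, smul_eq_mul, h1, mul_comm]
  · rw [if_neg h1, if_neg h1, map_zero, Pi.zero_apply, zero_mul]

/-- PROOF. As `ixb_mulVec`: split the sum over x according to g = x.1.1 (`ex_sum` for each g, `Finset.sum_comm`). -/
theorem ixx_mulVec [Fintype Γ] (r : Γ → Fin (N + 1) → ℤ)
    (φ : Γ → Γ → Fin (N + 1) → (W (MvPolynomial (Fin N) K) N →ₗ[MvPolynomial (Fin N) K] W (MvPolynomial (Fin N) K) N))
    (p : ℕ) (h : p < N + 1) (w : Ix r (p + 1) → MvPolynomial (Fin N) K) (y : Ix r (p + 1)) :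
    (ixx r φ (p + 1)).mulVec w y = ∑ g, φ g y.1.1 ⟨p, h⟩ (ex r p w g) y.1.2 := by
  classical
  have h1 : ∀ g, φ g y.1.1 ⟨p, h⟩ (ex r p w g) y.1.2 =
      ∑ x : Ix r (p + 1), if x.1.1 = g then w x * φ g y.1.1 ⟨p, h⟩ (Pi.single x.1.2 1) y.1.2 else 0 := by
    intro g
    rw [ex_sum, map_sum, Finset.sum_apply]
    refine Finset.sum_congr rfl fun x _ => ?_
    by_cases h1 : x.1.1 = g
    · rw [if_pos h1, if_pos h1, map_smul, Pi.smul_apply, smul_eq_mul]
    · rw [if_neg h1, if_neg h1, map_zero, Pi.zero_apply]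
  rw [Finset.sum_congr rfl fun g _ => h1 g, Finset.sum_comm]
  unfold Matrix.mulVec dotProduct
  refine Finset.sum_congr rfl fun x _ => ?_
  rw [Finset.sum_ite_eq, if_pos (Finset.mem_univ _)]
  change ixx r φ (p + 1) y x * w x = _
  rw [h21_ixx r φ p h y x, mul_comm]

end H92C
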