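import Pool.Agent.Lib.H92C.H21

/-! # H92C, chunk H22 (M): exactness of the direct sum of the F_{r g} -/

open MvPolynomial

namespace H92C

variable {K : Type} [Field K] {N : ℕ} {Γ : Type} [Fintype Γ]

omit [Fintype Γ] in
theorem h22_ex_eq (r : Γ → Fin (N + 1) → ℤ) (p : ℕ) (h : p < N + 1) (w : Ix r (p + 1) → MvPolynomial (Fin N) K) (g : Γ)
    (u : W (MvPolynomial (Fin N) K) N) (hu : u ∈ U (MvPolynomial (Fin N) K) N (dl (r g) ⟨p, h⟩))
    (hw : ∀ y : Ix r (p + 1), y.1.1 = g → w y = u y.1.2) : ex r p w g = u := by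
  funext c
  by_cases hh : ∃ h : p < N + 1, gd N (dl (r g) ⟨p, h⟩) c
  · obtain ⟨a, ha⟩ : ∃ a : Ix r (p + 1), a.1 = (g, c) := ⟨⟨(g, c), hh⟩, rfl⟩
    have h0 : ex r p w a.1.1 a.1.2 = w a := ex_apply r p w a
    have h1 := hw a (by rw [ha])
    rw [ha] at h0 h1
    rw [h0, h1]
  · have h0 : ex r p w g c = 0 := dif_neg hh
    rw [h0]
    exact (hu c fun hg => hh ⟨h, hg⟩).symm

omit [Fintype Γ] in
theorem h22_ex_zero (r : Γ → Fin (N + 1) → ℤ) (p : ℕ) (g : Γ) :
    ex r p (0 : Ix r (p + 1) → MvPolynomial (Fin N) K) g = 0 := by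
  funext c
  by_cases hh : ∃ h : p < N + 1, gd N (dl (r g) ⟨p, h⟩) c
  · exact dif_pos hh
  · exact dif_neg hh

omit [Fintype Γ] in
theorem h22_ixb_zero (z : ℤ → K) (r : Γ → Fin (N + 1) → ℤ) (p : ℕ) (h : ¬ p < N) : ixb z r (p + 1) = 0 := by
  funext y x
  exact dif_neg h

/-- PROOF. By `ixb_mulVec`; the component at g of (ixb (p+1)).mulVec w is bd (ex w g), because this vector lies in U (dl (r g) p) (`thmA_maps`), so it vanishes outside of the patterns. -/
theorem ex_ixb (z : ℤ → K) (r : Γ → Fin (N + 1) → ℤ) (hr : ∀ g, StrictMono (r g)) (p : ℕ) (h : p < N)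
    (w : Ix r (p + 2) → MvPolynomial (Fin N) K) (g : Γ) :
    ex r p ((ixb z r (p + 1)).mulVec w) g = bd z (xs N K) (r g) ⟨p, h⟩ (ex r (p + 1) w g) := by
  refine h22_ex_eq r p (by omega) _ g _ (thmA_maps z (xs N K) (r g) (hr g) ⟨p, h⟩ _ (ex_mem r (p + 1) (by omega) w g))
    (fun y hy => ?_)
  rw [ixb_mulVec z r p h w y, hy]

/-- PROOF. It suffices that the product kills every vector w (take the unit vectors).  i = 0: no rows.  i = p + 1: if p + 1 < N, `ex_ixb` twice and `thmA_comp` for each g (with `ex_mem`); otherwise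
one of the factors is 0 by definition (ixb (p+2) = 0 if p + 1 ≥ N). -/
theorem ix_dd (z : ℤ → K) (hz : Function.Injective z) (r : Γ → Fin (N + 1) → ℤ) (hr : ∀ g, StrictMono (r g)) (i : ℕ) :
    ixb z r i * ixb z r (i + 1) = 0 := by
  match i with
  | 0 =>
    funext a
    exact Empty.elim a
  | p + 1 =>
    by_cases h : p + 1 < N
    · refine Matrix.ext_of_mulVec_single fun a => ?_
      rw [← Matrix.mulVec_mulVec, Matrix.zero_mulVec]
      funext y
      rw [ixb_mulVec z r p (by omega) _ y, ex_ixb z r hr (p + 1) h,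
        thmA_comp z hz (xs N K) (r y.1.1) (hr _) ⟨p, by omega⟩ ⟨p + 1, h⟩ rfl _ (ex_mem r (p + 2) (by omega) _ _)]
      rfl
    · rw [h22_ixb_zero z r (p + 1) h, Matrix.mul_zero]

/-- PROOF. v is a function on Ix r (i + 2) (homological degree i + 1).  If i + 1 ≥ N + 1 the type Ix r (i+2) is empty, w := 0.  Otherwise i < N and bd (r g) ⟨i⟩ (ex r (i+1) v g) = 0 for all g
(`ex_ixb`, ex r i 0 g = 0).  If i + 1 = N: `thmA_inj` gives ex v g = 0 for all g, so v = 0 (`ex_apply`), w := 0.  If i + 1 < N: `thmA_exact'` gives w_g in U (dl (r g) (i+2)) with bd w_g = ex v g;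
`ex_pack` gives w, and (ixb (i+2)).mulVec w = v by `ixb_mulVec` and `ex_apply`. -/
theorem ix_ex (z : ℤ → K) (hz : Function.Injective z) (r : Γ → Fin (N + 1) → ℤ) (hr : ∀ g, StrictMono (r g)) (i : ℕ)
    (v : Ix r (i + 2) → MvPolynomial (Fin N) K) (hv : (ixb z r (i + 1)).mulVec v = 0) :
    ∃ w, (ixb z r (i + 2)).mulVec w = v := by
  by_cases h : i < N
  · have h1 : ∀ g, bd z (xs N K) (r g) ⟨i, h⟩ (ex r (i + 1) v g) = 0 := by
      intro g
      rw [← ex_ixb z r hr i h v g, hv, h22_ex_zero]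
    by_cases h2 : i + 1 < N
    · have h3 : ∀ g, ∃ u ∈ U (MvPolynomial (Fin N) K) N (dl (r g) (⟨i + 1, h2⟩ : Fin N).succ),
          bd z (xs N K) (r g) ⟨i + 1, h2⟩ u = ex r (i + 1) v g := fun g =>
        thmA_exact' z hz (r g) (hr g) ⟨i, h⟩ ⟨i + 1, h2⟩ rfl _ (ex_mem r (i + 1) (by omega) v g) (h1 g)
      choose u hu1 hu2 using h3
      obtain ⟨w, hw⟩ := ex_pack r (i + 2) (by omega) u hu1
      refine ⟨w, ?_⟩
      funext y
      rw [ixb_mulVec z r (i + 1) h2 w y, hw, hu2, ex_apply]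
    · refine ⟨0, ?_⟩
      rw [Matrix.mulVec_zero]
      funext y
      rw [← ex_apply r (i + 1) v y, thmA_inj z hz (r y.1.1) (hr _) ⟨i, h⟩ (by show i + 1 = N; omega) _
        (ex_mem r (i + 1) (by omega) v _) (h1 _)]
      rfl
  · refine ⟨0, ?_⟩
    funext y
    have h4 := y.2.1
    exact absurd h4 (by omega)

end H92C
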