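import Pool.Agent.Lib.H92C.H22

/-! # H92C, chunk H23 (M): degrees and regularity of the direct sum -/

open MvPolynomial

namespace H92C

variable {K : Type} [Field K] {N : ℕ} {Γ : Type} [Fintype Γ]

omit [Fintype Γ] in
theorem h23_ixd (r : Γ → Fin (N + 1) → ℤ) (p : ℕ) (h : p < N + 1) (x : Ix r (p + 1)) :
    ixd r (p + 1) x = r x.1.1 ⟨p, h⟩ := dif_pos h

/-- PROOF. i = 0: no rows.  i = p + 1: if p < N and x.1.1 = y.1.1 = g the entry is bd (r g) ⟨p⟩ (single c 1) c', and single c 1 is homogeneous of degree 0 = r g (p+1) - r g (p+1) (`hm_one`), so by `thmA_hom` with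
t = r g (p+1) the entry has degree r g (p+1) - r g p.  Otherwise the entry is 0. -/
theorem ix_gm (z : ℤ → K) (r : Γ → Fin (N + 1) → ℤ) (hr : ∀ g, StrictMono (r g)) (i : ℕ) :
    Gmh (ixd r (i + 1)) (ixd r i) (ixb z r i) := by
  match i with
  | 0 => exact fun b _ => Empty.elim b
  | p + 1 =>
    intro y x
    by_cases h : p < N
    · classical
      rw [h21_ixb z r p h y x]
      by_cases h1 : x.1.1 = y.1.1
      · rw [if_pos h1]
        have h2 : ixd r (p + 1 + 1) x = r x.1.1 (⟨p, h⟩ : Fin N).succ := dif_pos (by omega)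
        have h3 : ixd r (p + 1) y = r x.1.1 (⟨p, h⟩ : Fin N).castSucc := by
          rw [h1]
          exact dif_pos (by omega)
        rw [h2, h3]
        refine thmA_hom z (r x.1.1) (hr _) ⟨p, h⟩ (r x.1.1 (⟨p, h⟩ : Fin N).succ) _ ?_ y.1.2
        intro c
        rw [sub_self]
        by_cases h4 : c = x.1.2
        · rw [h4, Pi.single_eq_same]
          exact hm_one
        · rw [Pi.single_eq_of_ne h4]
          exact Submodule.zero_mem _
      · rw [if_neg h1]
        exact Submodule.zero_mem _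
    · have h0 : ixb z r (p + 1) y x = 0 := dif_neg h
      rw [h0]
      exact Submodule.zero_mem _

/-- PROOF. T := an upper bound of the numbers r g (last) - N + 1 (Γ is finite).  Let v be homogeneous of total degree t ≥ T.  For every g, ex r 0 v g is in U (dl (r g) 0) and Hg (t - r g 0), so by
`thmA_reg` (i = ⟨0, _⟩, N ≥ 1) it is bd w_g with w_g in U (dl (r g) 1); `ex_pack`, `ixb_mulVec`, `ex_apply`. -/
theorem ix_reg (z : ℤ → K) (hz : Function.Injective z) (hN : 1 ≤ N) (r : Γ → Fin (N + 1) → ℤ) (hr : ∀ g, StrictMono (r g)) :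
    ∃ T : ℤ, ∀ t, T ≤ t → ∀ v, Gv (ixd r 1) t v → ∃ w, (ixb z r 1).mulVec w = v := by
  obtain ⟨T, hT⟩ : ∃ T : ℤ, ∀ g, r g (Fin.last N) - N < T := by
    obtain ⟨M, hM⟩ := (Set.finite_range fun g => r g (Fin.last N) - (N : ℤ)).bddAbove
    exact ⟨M + 1, fun g => lt_of_le_of_lt (hM ⟨g, rfl⟩) (lt_add_one M)⟩
  refine ⟨T, fun t ht v hv => ?_⟩
  have h0 : 0 < N := hN
  have h3 : ∀ g, ∃ u ∈ U (MvPolynomial (Fin N) K) N (dl (r g) (⟨0, h0⟩ : Fin N).succ),
      bd z (xs N K) (r g) ⟨0, h0⟩ u = ex r 0 v g := by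
    intro g
    have hg : Hg (t - r g (⟨0, h0⟩ : Fin N).castSucc) (ex r 0 v g) := by
      intro c
      by_cases hh : ∃ h : 0 < N + 1, gd N (dl (r g) ⟨0, h⟩) c
      · obtain ⟨a, ha⟩ : ∃ a : Ix r (0 + 1), a.1 = (g, c) := ⟨⟨(g, c), hh⟩, rfl⟩
        have h1 : ex r 0 v a.1.1 a.1.2 = v a := ex_apply r 0 v a
        have h2 := hv a
        have h4 : ixd r (0 + 1) a = r a.1.1 (⟨0, h0⟩ : Fin N).castSucc := h23_ixd r 0 (by omega) a
        change v a ∈ hm N K (t - ixd r (0 + 1) a) at h2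
        rw [h4, ← h1, ha] at h2
        exact h2
      · have h1 : ex r 0 v g c = 0 := dif_neg hh
        rw [h1]
        exact Submodule.zero_mem _
    obtain ⟨u, hu1, -, hu2⟩ := thmA_reg z hz (r g) (hr g) ⟨0, h0⟩ rfl t (lt_of_lt_of_le (hT g) ht) (ex r 0 v g)
      (ex_mem r 0 (by omega) v g) hg
    exact ⟨u, hu1, hu2⟩
  choose u hu1 hu2 using h3
  obtain ⟨w, hw⟩ := ex_pack r 1 (by omega) u hu1
  refine ⟨w, ?_⟩
  funext y
  have h5 := ixb_mulVec z r 0 h0 w y
  rw [hw, hu2, ex_apply] at h5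
  exact h5

end H92C
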