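import Pool.Agent.Lib.H92C.H22

/-! # H92C, chunk H24 (M): the chain endomorphism of the direct sum given by a family of chain maps -/

open MvPolynomial

namespace H92C

variable {K : Type} [Field K] {N : ℕ} {Γ : Type} [Fintype Γ]

/-- PROOF. The right side is in U (dl (r g') p) (`CM.maps`, `ex_mem`, sums), so it vanishes outside of the patterns; on the patterns it is `ixx_mulVec`. -/
theorem ex_ixx (z : ℤ → K) (r : Γ → Fin (N + 1) → ℤ)
    (φ : Γ → Γ → Fin (N + 1) → (W (MvPolynomial (Fin N) K) N →ₗ[MvPolynomial (Fin N) K] W (MvPolynomial (Fin N) K) N))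
    (hφ : ∀ g g', CM z (r g) (r g') (φ g g'))
    (p : ℕ) (h : p < N + 1) (w : Ix r (p + 1) → MvPolynomial (Fin N) K) (g' : Γ) :
    ex r p ((ixx r φ (p + 1)).mulVec w) g' = ∑ g, φ g g' ⟨p, h⟩ (ex r p w g) := by
  refine h22_ex_eq r p h _ g' _ (Submodule.sum_mem _ fun g _ =>
    (hφ g g').maps ⟨p, h⟩ _ (ex_mem r p h w g)) (fun y hy => ?_)
  rw [ixx_mulVec r φ p h w y, hy, Finset.sum_apply]

/-- PROOF. It suffices to compare the products on all vectors w.  i = 0: no rows.  i = p + 1, p ≥ N: ixb = 0.  i = p + 1, p < N: for y in Ix r (p+1), by `ixx_mulVec`, `ex_ixb`, `ixb_mulVec`, `ex_ixx` the two sides at y are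
Σ_g φ g g' p (bd (r g) p (ex w g)) and bd (r g') p (Σ_g φ g g' (p+1) (ex w g)) at y.1.2, g' = y.1.1; equal by `CM.comm` and linearity. -/
theorem ix_xd (z : ℤ → K) (r : Γ → Fin (N + 1) → ℤ) (hr : ∀ g, StrictMono (r g))
    (φ : Γ → Γ → Fin (N + 1) → (W (MvPolynomial (Fin N) K) N →ₗ[MvPolynomial (Fin N) K] W (MvPolynomial (Fin N) K) N))
    (hφ : ∀ g g', CM z (r g) (r g') (φ g g')) (i : ℕ) :
    ixx r φ i * ixb z r i = ixb z r i * ixx r φ (i + 1) := by
  match i with
  | 0 =>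
    funext a
    exact Empty.elim a
  | p + 1 =>
    by_cases h : p < N
    · refine Matrix.ext_of_mulVec_single fun a => ?_
      rw [← Matrix.mulVec_mulVec, ← Matrix.mulVec_mulVec]
      funext y
      rw [ixx_mulVec r φ p (by omega) _ y, ixb_mulVec z r p h _ y, ex_ixx z r φ hφ (p + 1) (by omega), map_sum,
        Finset.sum_apply]
      refine Finset.sum_congr rfl fun g _ => ?_
      rw [ex_ixb z r hr p h]
      exact congrFun ((hφ g y.1.1).comm ⟨p, h⟩ _ (ex_mem r (p + 1) (by omega) _ g)) _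
    · rw [h22_ixb_zero z r p h, Matrix.mul_zero, Matrix.zero_mul]

/-- PROOF. i = 0: no rows.  i = p + 1: the entry is φ g g' p (single c 1) c', `CM.hom` with j = 0 (single c 1 is in U (dl (r g) p), as c is a pattern). -/
theorem ix_gx (z : ℤ → K) (r : Γ → Fin (N + 1) → ℤ)
    (φ : Γ → Γ → Fin (N + 1) → (W (MvPolynomial (Fin N) K) N →ₗ[MvPolynomial (Fin N) K] W (MvPolynomial (Fin N) K) N))
    (hφ : ∀ g g', CM z (r g) (r g') (φ g g')) (i : ℕ) :
    Gmh (fun a => ixd r i a + 1) (ixd r i) (ixx r φ i) := by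
  match i with
  | 0 => exact fun b _ => Empty.elim b
  | p + 1 =>
    intro y x
    have h : p < N + 1 := x.2.1
    have h1 : ixd r (p + 1) x = r x.1.1 ⟨p, h⟩ := dif_pos h
    have h2 : ixd r (p + 1) y = r y.1.1 ⟨p, h⟩ := dif_pos h
    rw [h21_ixx r φ p h y x]
    change _ ∈ hm N K (ixd r (p + 1) x + 1 - ixd r (p + 1) y)
    rw [h1, h2]
    have h3 := (hφ x.1.1 y.1.1).hom ⟨p, h⟩ (Pi.single x.1.2 1) ?_ 0 ?_ y.1.2
    · rw [zero_add] at h3
      exact h3
    · intro c hc
      have h4 : c ≠ x.1.2 := fun h5 => hc (h5 ▸ x.2.2)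
      exact Pi.single_eq_of_ne h4 _
    · intro c
      by_cases h4 : c = x.1.2
      · rw [h4, Pi.single_eq_same]
        exact hm_one
      · rw [Pi.single_eq_of_ne h4]
        exact Submodule.zero_mem _

end H92C
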