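import Pool.Agent.Lib.H92C.H20

/-! # H92C, chunk H25 (S/M): slices of the direct sum -/

open MvPolynomial

namespace H92C

variable {K : Type} [Field K] {N : ℕ} {Γ : Type} [Fintype Γ]

omit [Fintype Γ] in
theorem h25_ixd (r : Γ → Fin (N + 1) → ℤ) (p : ℕ) (h : p < N + 1) (x : Ix r (p + 1)) :
    ixd r (p + 1) x = r x.1.1 ⟨p, h⟩ := dif_pos h

/-- The generators of a slice. -/
def h25e (r : Γ → Fin (N + 1) → ℤ) (p : ℕ) (hp : p < N + 1) (t : ℤ) :
    {a : Ix r (p + 1) // ixd r (p + 1) a = t} ≃ Sx r ⟨p, hp⟩ t where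
  toFun a := ⟨a.1.1, (h25_ixd r p hp a.1).symm.trans a.2, a.1.2.2⟩
  invFun x := ⟨⟨x.1, hp, x.2.2⟩, (h25_ixd r p hp ⟨x.1, hp, x.2.2⟩).trans x.2.1⟩
  left_inv _ := rfl
  right_inv _ := rfl

/-- PROOF. If p ≥ N + 1 both index types are empty.  Otherwise x ↦ x.1 gives equivalences {a : Ix r (p+1) // ixd r (p+1) a = t} ≃ Sx r ⟨p, h⟩ t (for t and for t + 1), under which the two
matrices agree entry by entry (definitions of `slice`, `ixx`, `sm`, `ixd`); bijectivity of mulVec is transported. -/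
theorem ix_sl (r : Γ → Fin (N + 1) → ℤ)
    (φ : Γ → Γ → Fin (N + 1) → (W (MvPolynomial (Fin N) K) N →ₗ[MvPolynomial (Fin N) K] W (MvPolynomial (Fin N) K) N))
    (p : ℕ) (t : ℤ) (h : ∀ hp : p < N + 1, Function.Bijective (sm r φ ⟨p, hp⟩ t).mulVec) :
    Function.Bijective (slice (ixd r (p + 1)) (ixd r (p + 1)) (ixx r φ (p + 1)) t).mulVec := by
  by_cases hp : p < N + 1
  · have h1 : slice (ixd r (p + 1)) (ixd r (p + 1)) (ixx r φ (p + 1)) t =
        (sm r φ ⟨p, hp⟩ t).submatrix (h25e r p hp (t + 1)) (h25e r p hp t) := by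
      funext b a
      have h2 : ixx r φ (p + 1) b.1 a.1 = φ a.1.1.1 b.1.1.1 ⟨p, hp⟩ (Pi.single a.1.1.2 1) b.1.1.2 := dif_pos hp
      change constantCoeff (ixx r φ (p + 1) b.1 a.1) = _
      rw [h2]
      rfl
    rw [h1]
    have h2 : ((sm r φ ⟨p, hp⟩ t).submatrix (h25e r p hp (t + 1)) (h25e r p hp t)).mulVec =
        (Equiv.arrowCongr (h25e r p hp (t + 1)).symm (Equiv.refl K)) ∘ (sm r φ ⟨p, hp⟩ t).mulVec ∘
          (Equiv.arrowCongr (h25e r p hp t) (Equiv.refl K)) := by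
      funext v
      rw [Matrix.submatrix_mulVec_equiv]
      rfl
    rw [h2]
    exact (Equiv.bijective _).comp ((h hp).comp (Equiv.bijective _))
  · have h1 : ∀ t, IsEmpty {a : Ix r (p + 1) // ixd r (p + 1) a = t} := fun t => ⟨fun a => hp a.1.2.1⟩
    have h2 := h1 t
    have h3 := h1 (t + 1)
    exact ⟨fun a b _ => Subsingleton.elim a b, fun w => ⟨0, Subsingleton.elim _ _⟩⟩

end H92C
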