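import Pool.Agent.Lib.H92C.H23
import Pool.Agent.Lib.H92C.H24
import Pool.Agent.Lib.H92C.H25

/-! # H92C, chunk H26 (S/M): the direct sum of the F_{r g} with the endomorphism φ is a Cpx -/

open MvPolynomial

namespace H92C

variable {K : Type} [Field K] (q : K)

/-- PROOF. q ^ e = q ^ e' with e < e' gives q ^ (e' - e) = 1 (`zpow_sub₀`), with e' - e = (a positive natural number). -/
theorem h26_zq_inj (hq0 : q ≠ 0) (hq : ∀ j : ℕ, 0 < j → q ^ j ≠ 1) : Function.Injective (zq q) := by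
  have key : ∀ a b : ℤ, a ≤ b → zq q a = zq q b → a = b := by
    intro a b hab h
    by_contra hne
    have h1 : q ^ (b - a) = 1 := by
      rw [zpow_sub₀ hq0]
      simp only [zq] at h
      rw [h]
      exact div_self (zpow_ne_zero _ hq0)
    obtain ⟨j, hj⟩ := Int.eq_ofNat_of_zero_le (sub_nonneg.mpr hab)
    rw [hj, zpow_natCast] at h1
    refine hq j ?_ h1
    omega
  intro a b h
  rcases le_total a b with hab | hab
  · exact key a b hab h
  · exact (key b a hab h.symm).symm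

/-- PROOF. `Infinite.of_injective` with zq q. -/
theorem h26_inf_K (hq0 : q ≠ 0) (hq : ∀ j : ℕ, 0 < j → q ^ j ≠ 1) : Infinite K :=
  Infinite.of_injective (zq q) (h26_zq_inj q hq0 hq)

/-- PROOF. e0: Ix r 0 is Empty.  eN: i = p + 1 with p > N, the condition p < N + 1 fails.  deg: a.2.1 gives h : i < N + 1 and ixd r (i+1) a = r a.1.1 ⟨i, h⟩ (`dif_pos`); hrD.
gd, gx, dd, xd, ex, reg: `ix_gm`, `ix_gx`, `ix_dd`, `ix_xd`, `ix_ex`, `ix_reg` with `h26_zq_inj`.  sl: `ix_sl` and hs. -/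
theorem ix_cpx (hq0 : q ≠ 0) (hq : ∀ j : ℕ, 0 < j → q ^ j ≠ 1) {N : ℕ} {Γ : Type} [Fintype Γ] (hN : 1 ≤ N) (D : ℕ → ℤ)
    (r : Γ → Fin (N + 1) → ℤ) (hr : ∀ g, StrictMono (r g))
    (hrD : ∀ g (p : Fin (N + 1)), D p ≤ r g p ∧ r g p < D ((p : ℕ) + 1))
    (φ : Γ → Γ → Fin (N + 1) → (W (MvPolynomial (Fin N) K) N →ₗ[MvPolynomial (Fin N) K] W (MvPolynomial (Fin N) K) N))
    (hφ : ∀ g g', CM (zq q) (r g) (r g') (φ g g'))
    (hs : ∀ (p : Fin (N + 1)) (t : ℤ), D p ≤ t → t + 1 < D ((p : ℕ) + 1) → Function.Bijective (sm r φ p t).mulVec) :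
    Cpx K N D (Ix r) (ixd r) (ixb (zq q) r) (ixx r φ) := by
  have hz := h26_zq_inj q hq0 hq
  exact
    { e0 := inferInstanceAs (IsEmpty Empty)
      eN := fun i hi => by
        match i with
        | 0 => omega
        | p + 1 => exact ⟨fun x => by have h := x.2.1; omega⟩
      deg := fun i a => by
        have h : i < N + 1 := a.2.1
        have h1 : ixd r (i + 1) a = r a.1.1 ⟨i, h⟩ := dif_pos h
        rw [h1]
        exact hrD a.1.1 ⟨i, h⟩
      gd := ix_gm (zq q) r hr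
      gx := ix_gx (zq q) r φ hφ
      dd := ix_dd (zq q) hz r hr
      xd := ix_xd (zq q) r hr φ hφ
      ex := fun i v hv => ix_ex (zq q) hz r hr i v hv
      reg := ix_reg (zq q) hz hN r hr
      sl := fun i t h1 h2 => ix_sl r φ i t fun hp => hs ⟨i, hp⟩ t h1 h2 }

end H92C
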