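import Pool.Agent.Lib.H92C.H20

/-! # H92C, H30: definitions for part 2 of module H (the summands, the slices, the letters, block matrices) -/

open MvPolynomial

namespace H92C

/-- The total rank of the slice (p, t): the sum of m G * u (G without G_p) over the rows G which interlace D, with G_p = t. -/
noncomputable def slr {N : ℕ} (D : Fin (N + 2) → ℤ) (m : (Fin (N + 1) → ℤ) → ℕ) (p : Fin (N + 1)) (t : ℤ) : ℕ :=
  ∑ G ∈ (IF D).filter (fun G => G p = t), m G * uu (dl G p)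

/-- The summands: mm G copies of F_G for every row G which interlaces D. -/
abbrev Gam {N : ℕ} (D : Fin (N + 2) → ℤ) (mm : (Fin (N + 1) → ℤ) → ℕ) : Type :=
  Σ G : {G : Fin (N + 1) → ℤ // G ∈ IF D}, Fin (mm G.1)

/-- The row of a summand. -/
def gr {N : ℕ} (D : Fin (N + 2) → ℤ) (mm : (Fin (N + 1) → ℤ) → ℕ) : Gam D mm → Fin (N + 1) → ℤ := fun g => g.1.1

/-- The lower bounds of the box of the rows G without G_p, G interlacing D. -/
def bA {N : ℕ} (D : ℕ → ℤ) (p : Fin (N + 1)) : Fin N → ℤ := fun k => D (p.succAbove k)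

/-- The upper bounds of this box. -/
def bB {N : ℕ} (D : ℕ → ℤ) (p : Fin (N + 1)) : Fin N → ℤ := fun k => D ((p.succAbove k : ℕ) + 1)

/-- The rows of the box: the vertices of the slices (p, t). -/
abbrev Vx {N : ℕ} (D : ℕ → ℤ) (p : Fin (N + 1)) : Type := {E : Fin N → ℤ // Bx (bA D p) (bB D p) E}

/-- The spaces at the vertices. -/
def Uv (K : Type) [Field K] {N : ℕ} (D : ℕ → ℤ) (p : Fin (N + 1)) : Vx D p → Submodule K (W K N) := fun E => U K N E.1

/-- The letters of the slice (p, t). -/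
def Ltt {K : Type} [Field K] (q : K) {N : ℕ} (D : ℕ → ℤ) (p : Fin (N + 1)) (t : ℤ) :
    Vx D p → Vx D p → (W K N →ₗ[K] W K N) → Prop :=
  fun E E' A => TT (zq q) (ins p t E.1) (ins p (t + 1) E'.1) p A

/-- Block matrices. -/
def bm {E κ₁ κ₂ ι₁ ι₂ : Type} (A : κ₁ → ι₁ → E) (B : κ₁ → ι₂ → E) (C' : κ₂ → ι₁ → E) (F : κ₂ → ι₂ → E) :
    κ₁ ⊕ κ₂ → ι₁ ⊕ ι₂ → E :=
  Sum.elim (fun i => Sum.elim (A i) (B i)) (fun i => Sum.elim (C' i) (F i))

open Classical in
/-- Block diagonal matrices. -/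
noncomputable def sigS {E : Type} [Zero E] {J : Type} {ι : J → Type} (S : (x : J) → ι x → ι x → E) :
    (Σ x, ι x) → (Σ x, ι x) → E :=
  fun x y => if h : y.1 = x.1 then S x.1 x.2 (h ▸ y.2) else 0

/-- The box is finite. -/
theorem Vx.fin {N : ℕ} (D : ℕ → ℤ) (p : Fin (N + 1)) : Finite (Vx D p) := by
  have h : {E : Fin N → ℤ | Bx (bA D p) (bB D p) E} =
      ↑(Fintype.piFinset fun j => Finset.Ico (bA D p j) (bB D p j)) := by
    ext E
    simp [Bx, Fintype.mem_piFinset]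
  have h2 : ({E : Fin N → ℤ | Bx (bA D p) (bB D p) E}).Finite := by
    rw [h]; exact Finset.finite_toSet _
  exact h2.to_subtype

noncomputable instance Vx.fintype {N : ℕ} (D : ℕ → ℤ) (p : Fin (N + 1)) : Fintype (Vx D p) :=
  haveI := Vx.fin D p
  Fintype.ofFinite _

end H92C
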