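import Mathlib

/-! # H92C, chunk H31 (M): generic combinations of matrices (pure Mathlib) -/

open MvPolynomial

namespace H92C

/-- A family of matrices T q q' (q, q' in a finite type Q) such that T q q is bijective for all q: some combination c (the same for all q) makes all the
sums Σ_{q'} c q' T q q' bijective.

PROOF. The linear map T q q is bijective, so κ q and ι q have the same cardinality (`LinearEquiv.ofBijective (Matrix.mulVecLin _)`, `LinearEquiv.finrank_eq`,
`Module.finrank_fintype_fun_eq_card`); choose e q : ι q ≃ κ q.  Let P q := det of the matrix (over MvPolynomial Q K) Σ_{q'} X q' • ((T q q').submatrix (e q) id).map C.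
The evaluation of P q at c is det ((Σ_{q'} c q' • T q q').submatrix (e q) id) (`RingHom.map_det`).  At c = Pi.single q 1 it is the determinant of the invertible matrix
(T q q).submatrix (e q) id, so it is not 0 and P q ≠ 0.  ∏ q, P q ≠ 0 (`Finset.prod_ne_zero_iff`), so there is c with eval c (∏ q, P q) ≠ 0 (`MvPolynomial.funext`, K is infinite).
Then for all q the square matrix (Σ_{q'} c q' • T q q').submatrix (e q) id has nonzero determinant, its mulVec is bijective (`Matrix.mulVec_injective_iff_isUnit`,
`Matrix.mulVec_surjective_iff_isUnit`), and mulVec of the original matrix is this one composed with the reindexing of the target by e q. -/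
theorem pencil {K : Type} [Field K] [Infinite K] {Q : Type} [Fintype Q] [DecidableEq Q] {ι κ : Q → Type}
    [∀ q, Fintype (ι q)] [∀ q, Fintype (κ q)] (T : (q : Q) → Q → Matrix (κ q) (ι q) K)
    (h : ∀ q, Function.Bijective (T q q).mulVec) :
    ∃ c : Q → K, ∀ q, Function.Bijective (∑ q', c q' • T q q').mulVec := by
  classical
  have he : ∀ q, Nonempty (ι q ≃ κ q) := by
    intro q
    have e := LinearEquiv.ofBijective (Matrix.mulVecLin (T q q)) (h q)
    have h1 := e.finrank_eq
    rw [Module.finrank_fintype_fun_eq_card, Module.finrank_fintype_fun_eq_card] at h1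
    exact Fintype.card_eq.1 h1
  have e : ∀ q, ι q ≃ κ q := fun q => (he q).some
  -- square matrices
  let P : (q : Q) → MvPolynomial Q K := fun q =>
    (∑ q', (X q' : MvPolynomial Q K) • ((T q q').submatrix (e q) id).map (C : K →+* MvPolynomial Q K)).det
  have hev : ∀ (c : Q → K) q, eval c (P q) = (∑ q', c q' • (T q q').submatrix (e q) id).det := by
    intro c q
    show (eval c) _ = _
    rw [RingHom.map_det]
    congr 1
    ext i j
    simp only [RingHom.mapMatrix_apply, Matrix.map_apply, Matrix.sum_apply, map_sum, Matrix.smul_apply,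
      smul_eq_mul, map_mul, eval_X, Matrix.submatrix_apply]
    refine Finset.sum_congr rfl fun q' _ => ?_
    rw [eval_C]
  -- bijectivity and determinants
  have hbij : ∀ (q : Q) (A : Matrix (κ q) (ι q) K), (A.submatrix (e q) id).det ≠ 0 ↔
      Function.Bijective A.mulVec := by
    intro q A
    have h1 : (A.submatrix (e q) id).mulVec = (fun v : κ q → K => v ∘ (e q)) ∘ A.mulVec := by
      funext v i
      simp [Matrix.mulVec, dotProduct, Matrix.submatrix_apply]
    have h2 : Function.Bijective (fun v : κ q → K => v ∘ (e q)) :=
      (Equiv.arrowCongr (e q).symm (Equiv.refl K)).bijective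
    have h3 : Function.Bijective (A.submatrix (e q) id).mulVec ↔ Function.Bijective A.mulVec := by
      rw [h1]
      exact Function.Bijective.of_comp_iff' h2 _
    rw [← h3]
    constructor
    · intro hd
      have hu : IsUnit (A.submatrix (e q) id) := (Matrix.isUnit_iff_isUnit_det _).2 (isUnit_iff_ne_zero.2 hd)
      exact ⟨Matrix.mulVec_injective_iff_isUnit.2 hu, Matrix.mulVec_surjective_iff_isUnit.2 hu⟩
    · intro hb
      have hu := Matrix.mulVec_injective_iff_isUnit.1 hb.1
      exact isUnit_iff_ne_zero.1 ((Matrix.isUnit_iff_isUnit_det _).1 hu)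
  have hsub : ∀ (c : Q → K) q, (∑ q', c q' • (T q q').submatrix (e q) id)
      = (∑ q', c q' • T q q').submatrix (e q) id := by
    intro c q
    ext i j
    simp [Matrix.sum_apply, Matrix.submatrix_apply]
  have hP : ∀ q, P q ≠ 0 := by
    intro q h0
    have h1 := hev (Pi.single q 1) q
    rw [h0, map_zero, hsub] at h1
    have h2 : (∑ q', (Pi.single q 1 : Q → K) q' • T q q') = T q q := by
      rw [Finset.sum_eq_single q]
      · simp
      · intro b _ hb
        simp [Pi.single_eq_of_ne hb]
      · simp
    rw [h2] at h1
    exact (hbij q (T q q)).2 (h q) h1.symm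
  have hprod : (∏ q, P q) ≠ 0 := Finset.prod_ne_zero_iff.2 fun q _ => hP q
  obtain ⟨c, hc⟩ : ∃ c : Q → K, eval c (∏ q, P q) ≠ 0 := by
    by_contra hcon
    push Not at hcon
    apply hprod
    apply MvPolynomial.funext
    intro c
    rw [hcon c, map_zero]
  refine ⟨c, fun q => ?_⟩
  rw [map_prod] at hc
  have h1 := Finset.prod_ne_zero_iff.1 hc q (Finset.mem_univ q)
  rw [hev, hsub] at h1
  exact (hbij q _).1 h1

end H92C
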