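import Pool.Agent.Lib.H92C.H30

/-! # H92C, chunk H32 (M): chain maps of degree 1 form a vector space; slices are linear -/

open MvPolynomial

namespace H92C

variable {K : Type} [Field K] {N : ℕ}

/-- PROOF. All three properties for 0 (`Submodule.zero_mem`). -/
theorem h32_cm_zero (z : ℤ → K) (D D' : Fin (N + 1) → ℤ) : CM z D D' (fun _ => 0) where
  maps p v _ := by
    rw [LinearMap.zero_apply]
    exact Submodule.zero_mem _
  comm i v _ := by
    rw [LinearMap.zero_apply, LinearMap.zero_apply, map_zero]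
  hom p v _ j _ := fun c => by
    rw [LinearMap.zero_apply]
    exact Submodule.zero_mem _

/-- PROOF. maps: `Submodule.add_mem`; comm: linearity; hom: entrywise `Submodule.add_mem` in hm. -/
theorem h32_cm_add {z : ℤ → K} {D D' : Fin (N + 1) → ℤ}
    {φ ψ : Fin (N + 1) → (W (MvPolynomial (Fin N) K) N →ₗ[MvPolynomial (Fin N) K] W (MvPolynomial (Fin N) K) N)}
    (hφ : CM z D D' φ) (hψ : CM z D D' ψ) : CM z D D' (fun p => φ p + ψ p) where
  maps p v hv := by
    rw [LinearMap.add_apply]
    exact Submodule.add_mem _ (hφ.maps p v hv) (hψ.maps p v hv)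
  comm i v hv := by
    rw [LinearMap.add_apply, LinearMap.add_apply, map_add, hφ.comm i v hv, hψ.comm i v hv]
  hom p v hv j hj := fun c => by
    rw [LinearMap.add_apply]
    exact Submodule.add_mem _ (hφ.hom p v hv j hj c) (hψ.hom p v hv j hj c)

/-- PROOF. maps: `Submodule.smul_mem`; comm: linearity (`map_smul`); hom: C c * p = c • p is in the K-submodule hm. -/
theorem h32_cm_smul {z : ℤ → K} {D D' : Fin (N + 1) → ℤ}
    {φ : Fin (N + 1) → (W (MvPolynomial (Fin N) K) N →ₗ[MvPolynomial (Fin N) K] W (MvPolynomial (Fin N) K) N)}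
    (c : K) (hφ : CM z D D' φ) : CM z D D' (fun p => (C c : MvPolynomial (Fin N) K) • φ p) where
  maps p v hv := by
    rw [LinearMap.smul_apply]
    exact Submodule.smul_mem _ _ (hφ.maps p v hv)
  comm i v hv := by
    rw [LinearMap.smul_apply, LinearMap.smul_apply, map_smul, hφ.comm i v hv]
  hom p v hv j hj := fun d => by
    rw [LinearMap.smul_apply]
    show C c * (φ p v) d ∈ _
    rw [← smul_eq_C_mul]
    exact Submodule.smul_mem _ _ (hφ.hom p v hv j hj d)

theorem h32_cm_fsum {Q : Type} {z : ℤ → K} {D D' : Fin (N + 1) → ℤ}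
    {φ : Q → Fin (N + 1) → (W (MvPolynomial (Fin N) K) N →ₗ[MvPolynomial (Fin N) K] W (MvPolynomial (Fin N) K) N)}
    (c : Q → K) (hφ : ∀ s, CM z D D' (φ s)) (S : Finset Q) :
    CM z D D' (fun p => ∑ s ∈ S, (C (c s) : MvPolynomial (Fin N) K) • φ s p) := by
  classical
  induction S using Finset.induction_on with
  | empty =>
    have := h32_cm_zero z D D'
    simpa using this
  | insert a S ha ih =>
    have h1 := h32_cm_add (h32_cm_smul (c a) (hφ a)) ih
    have h2 : (fun p => ∑ s ∈ insert a S, (C (c s) : MvPolynomial (Fin N) K) • φ s p) =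
        fun p => (C (c a) : MvPolynomial (Fin N) K) • φ a p + ∑ s ∈ S, (C (c s) : MvPolynomial (Fin N) K) • φ s p := by
      funext p
      rw [Finset.sum_insert ha]
    rw [h2]
    exact h1

/-- PROOF. `Finset.induction_on` over the subsets of the index type, `h32_cm_zero`, `h32_cm_add`, `h32_cm_smul`. -/
theorem h32_cm_sum {Q : Type} [Fintype Q] {z : ℤ → K} {D D' : Fin (N + 1) → ℤ}
    {φ : Q → Fin (N + 1) → (W (MvPolynomial (Fin N) K) N →ₗ[MvPolynomial (Fin N) K] W (MvPolynomial (Fin N) K) N)}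
    (c : Q → K) (hφ : ∀ s, CM z D D' (φ s)) : CM z D D' (fun p => ∑ s, (C (c s) : MvPolynomial (Fin N) K) • φ s p) :=
  h32_cm_fsum c hφ Finset.univ

/-- PROOF. Entrywise: constantCoeff is a ring homomorphism, constantCoeff (C c) = c, `LinearMap.sum_apply`, `Finset.sum_apply`, `Matrix.sum_apply`. -/
theorem h32_sm_sum {Γ Q : Type} [Fintype Q] (r : Γ → Fin (N + 1) → ℤ)
    (φ : Q → Γ → Γ → Fin (N + 1) → (W (MvPolynomial (Fin N) K) N →ₗ[MvPolynomial (Fin N) K] W (MvPolynomial (Fin N) K) N))
    (c : Q → K) (p : Fin (N + 1)) (t : ℤ) :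
    sm r (fun g g' p => ∑ s, (C (c s) : MvPolynomial (Fin N) K) • φ s g g' p) p t = ∑ s, c s • sm r (φ s) p t := by
  ext y x
  rw [Matrix.sum_apply]
  simp only [Matrix.smul_apply, sm, LinearMap.sum_apply, Finset.sum_apply, LinearMap.smul_apply, map_sum]
  refine Finset.sum_congr rfl fun s _ => ?_
  show constantCoeff (C (c s) * _) = _
  rw [map_mul, constantCoeff_C, smul_eq_mul]

end H92C
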