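import Pool.Agent.Lib.H92C.H31
import Pool.Agent.Lib.H92C.H32

/-! # H92C, chunk H33 (M): one endomorphism for all slices -/

open MvPolynomial

namespace H92C

variable {K : Type} [Field K] {N : ℕ} {Γ : Type} [Fintype Γ]

/-- PROOF. Q := the finite type of the pairs (p, t) with D p ≤ t < D (p + 1) - 1: Σ p : Fin (N + 1), {t : ℤ // t ∈ Finset.Ico (D p) (D (p + 1) - 1)}.  Choose φ_q for q in Q from h.
Apply `pencil` to T q q' := sm r (φ_{q'}) q.1 q.2 (index types Sx, finite).  With the resulting c let φ g g' p := Σ_q C (c q) • φ_q g g' p: `h32_cm_sum`, `h32_sm_sum`. -/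
theorem gen_phi [Infinite K] (z : ℤ → K) (D : ℕ → ℤ) (r : Γ → Fin (N + 1) → ℤ)
    (h : ∀ (p : Fin (N + 1)) (t : ℤ), D p ≤ t → t + 1 < D ((p : ℕ) + 1) →
      ∃ φ : Γ → Γ → Fin (N + 1) → (W (MvPolynomial (Fin N) K) N →ₗ[MvPolynomial (Fin N) K] W (MvPolynomial (Fin N) K) N),
        (∀ g g', CM z (r g) (r g') (φ g g')) ∧ Function.Bijective (sm r φ p t).mulVec) :
    ∃ φ : Γ → Γ → Fin (N + 1) → (W (MvPolynomial (Fin N) K) N →ₗ[MvPolynomial (Fin N) K] W (MvPolynomial (Fin N) K) N),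
      (∀ g g', CM z (r g) (r g') (φ g g')) ∧
      ∀ (p : Fin (N + 1)) (t : ℤ), D p ≤ t → t + 1 < D ((p : ℕ) + 1) → Function.Bijective (sm r φ p t).mulVec := by
  classical
  have h' : ∀ s : (Σ p : Fin (N + 1), {t : ℤ // t ∈ Finset.Ico (D p) (D ((p : ℕ) + 1) - 1)}),
      ∃ φ : Γ → Γ → Fin (N + 1) → (W (MvPolynomial (Fin N) K) N →ₗ[MvPolynomial (Fin N) K] W (MvPolynomial (Fin N) K) N),
        (∀ g g', CM z (r g) (r g') (φ g g')) ∧ Function.Bijective (sm r φ s.1 s.2.1).mulVec := by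
    rintro ⟨p, t, ht⟩
    rw [Finset.mem_Ico] at ht
    exact h p t ht.1 (by linarith [ht.2])
  choose φ hφ1 hφ2 using h'
  obtain ⟨c, hc⟩ := pencil (fun s s' => sm r (φ s') s.1 s.2.1) hφ2
  refine ⟨fun g g' p => ∑ s, (C (c s) : MvPolynomial (Fin N) K) • φ s g g' p, fun g g' => ?_, fun p t h1 h2 => ?_⟩
  · exact h32_cm_sum c (fun s => hφ1 s g g')
  · rw [h32_sm_sum]
    exact hc ⟨p, t, Finset.mem_Ico.2 ⟨h1, by linarith⟩⟩

end H92C
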