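import Pool.Agent.Lib.H92C.H30

/-! # H92C, chunk H34 (M): counting the generators -/

open MvPolynomial

namespace H92C

variable {N : ℕ}

/-- PROOF. An element a is a pair (g, c), g = (G, k), with G in IF D, k < mm G, G 0 = t (value of ixd, `dif_pos`) and c a pattern under dl G 0.  So the type is equivalent to
Σ G : {G // G ∈ IF D ∧ G 0 = t}, Fin (mm G) × {c // gd N (dl G 0) c}; `Nat.card_sigma` (or Fintype.card_sigma), `Nat.card_prod`, `Nat.card_fin`; the sum over the subtype is the sum over the filter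
(`Finset.sum_subtype` or `Finset.sum_coe_sort`). -/
theorem ix_cnt (D : Fin (N + 2) → ℤ) (mm : (Fin (N + 1) → ℤ) → ℕ) (t : ℤ) :
    Nat.card {a : Ix (gr D mm) 1 // ixd (gr D mm) 1 a = t} = slr D mm 0 t := by
  classical
  have hv : ∀ a : Ix (gr D mm) 1, ixd (gr D mm) 1 a = a.1.1.1.1 0 := by
    intro a
    show (if h : 0 < N + 1 then gr D mm a.1.1 ⟨0, h⟩ else 0) = _
    rw [dif_pos (Nat.succ_pos N)]
    rfl
  have e : {a : Ix (gr D mm) 1 // ixd (gr D mm) 1 a = t} ≃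
      Σ G : {G : Fin (N + 1) → ℤ // G ∈ (IF D).filter (fun G => G 0 = t)}, Fin (mm G.1) × {c : Ch N // gd N (dl G.1 0) c} :=
    { toFun := fun a => ⟨⟨a.1.1.1.1.1, Finset.mem_filter.2 ⟨a.1.1.1.1.2, by rw [← hv]; exact a.2⟩⟩,
        (a.1.1.1.2, ⟨a.1.1.2, a.1.2.2⟩)⟩
      invFun := fun s => ⟨⟨(⟨⟨s.1.1, (Finset.mem_filter.1 s.1.2).1⟩, s.2.1⟩, s.2.2.1), ⟨Nat.succ_pos N, s.2.2.2⟩⟩, by
        rw [hv]; exact (Finset.mem_filter.1 s.1.2).2⟩
      left_inv := fun a => rfl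
      right_inv := fun s => rfl }
  have hf : ∀ G : {G : Fin (N + 1) → ℤ // G ∈ (IF D).filter (fun G => G 0 = t)}, Finite {c : Ch N // gd N (dl G.1 0) c} :=
    fun G => fin_gd N _
  rw [Nat.card_congr e, Nat.card_sigma]
  have h1 : ∀ G : {G : Fin (N + 1) → ℤ // G ∈ (IF D).filter (fun G => G 0 = t)},
      Nat.card (Fin (mm G.1) × {c : Ch N // gd N (dl G.1 0) c}) = mm G.1 * uu (dl G.1 0) := by
    intro G
    rw [Nat.card_prod, Nat.card_fin]
    rfl
  rw [Finset.sum_congr rfl fun G _ => h1 G]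
  unfold slr
  exact Finset.sum_coe_sort ((IF D).filter (fun G => G 0 = t)) (fun G => mm G * uu (dl G 0))

end H92C
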