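import Pool.Agent.Lib.H92C.H30

/-! # H92C, chunk H40 (M): bijective block matrices of operators -/

namespace H92C

variable {K : Type} [Field K] {M : Type} [AddCommGroup M] [Module K M] {V : Type} {Us : V → Submodule K M}

/-- PROOF. Σ_j (if i = j then id else 0) (y j) = y i; so y = w is the unique solution. -/
theorem bij_one {ι : Type} [Fintype ι] [DecidableEq ι] (g : ι → V) :
    BijM Us g g (fun i j => if i = j then LinearMap.id else (0 : M →ₗ[K] M)) := by
  intro w hw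
  refine ⟨w, ⟨hw, fun i => ?_⟩, fun y hy => ?_⟩
  · rw [Finset.sum_eq_single i]
    · simp
    · intro b _ hb
      simp [Ne.symm hb]
    · simp
  · funext i
    have h1 := hy.2 i
    rw [Finset.sum_eq_single i] at h1
    · simpa using h1
    · intro b _ hb
      simp [Ne.symm hb]
    · simp

/-- PROOF. The empty function is the unique solution. -/
theorem bij_empty {ι : Type} [Fintype ι] [IsEmpty ι] (g : ι → V) (S : ι → ι → (M →ₗ[K] M)) : BijM Us g g S := by
  intro w hw
  exact ⟨fun i => isEmptyElim i, ⟨fun i => isEmptyElim i, fun i => isEmptyElim i⟩,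
    fun y _ => funext fun i => isEmptyElim i⟩

/-- Block lower triangular matrices.

PROOF. The equations for y = (y1, y2) are S1 y1 = w1 and L y1 + S2 y2 = w2 (`Fintype.sum_sum_type`, definition of bm).  Existence: y1 from S1; w2 - L y1 is in the spaces Us (h2 i)
(hL and `Submodule.sum_mem`), so y2 exists.  Uniqueness: y1 is unique, then y2 is unique (S2 y2 = w2 - L y1).  Functions on a sum type: `Sum.elim`, `Sum.rec`. -/
theorem bij_low {ι₁ ι₂ κ₁ κ₂ : Type} [Fintype ι₁] [Fintype ι₂] {g₁ : ι₁ → V} {g₂ : ι₂ → V} {h₁ : κ₁ → V} {h₂ : κ₂ → V}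
    {S₁ : κ₁ → ι₁ → (M →ₗ[K] M)} {S₂ : κ₂ → ι₂ → (M →ₗ[K] M)} {L : κ₂ → ι₁ → (M →ₗ[K] M)}
    (hS₁ : BijM Us g₁ h₁ S₁) (hS₂ : BijM Us g₂ h₂ S₂) (hL : ∀ i j, ∀ v ∈ Us (g₁ j), L i j v ∈ Us (h₂ i)) :
    BijM Us (Sum.elim g₁ g₂) (Sum.elim h₁ h₂) (bm S₁ (fun _ _ => 0) L S₂) := by
  intro w hw
  obtain ⟨y1, ⟨hy1, hy1e⟩, hy1u⟩ := hS₁ (fun i => w (Sum.inl i)) (fun i => hw (Sum.inl i))
  have hw2 : ∀ i, w (Sum.inr i) - ∑ j, L i j (y1 j) ∈ Us (h₂ i) := fun i =>
    Submodule.sub_mem _ (hw (Sum.inr i)) (Submodule.sum_mem _ fun j _ => hL i j _ (hy1 j))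
  obtain ⟨y2, ⟨hy2, hy2e⟩, hy2u⟩ := hS₂ (fun i => w (Sum.inr i) - ∑ j, L i j (y1 j)) hw2
  refine ⟨Sum.elim y1 y2, ⟨?_, ?_⟩, ?_⟩
  · rintro (j | j)
    · exact hy1 j
    · exact hy2 j
  · rintro (i | i)
    · simp only [Fintype.sum_sum_type, bm, Sum.elim_inl, Sum.elim_inr, LinearMap.zero_apply,
        Finset.sum_const_zero, add_zero]
      exact hy1e i
    · simp only [Fintype.sum_sum_type, bm, Sum.elim_inl, Sum.elim_inr]
      rw [hy2e i]
      abel
  · intro z hz
    obtain ⟨hz1, hz2⟩ := hz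
    have e1 : (fun j => z (Sum.inl j)) = y1 := by
      apply hy1u
      refine ⟨fun j => hz1 (Sum.inl j), fun i => ?_⟩
      have h1 := hz2 (Sum.inl i)
      simpa only [Fintype.sum_sum_type, bm, Sum.elim_inl, Sum.elim_inr, LinearMap.zero_apply,
        Finset.sum_const_zero, add_zero] using h1
    have e2 : (fun j => z (Sum.inr j)) = y2 := by
      apply hy2u
      refine ⟨fun j => hz1 (Sum.inr j), fun i => ?_⟩
      have h1 := hz2 (Sum.inr i)
      simp only [Fintype.sum_sum_type, bm, Sum.elim_inl, Sum.elim_inr] at h1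
      have h2 : ∀ j, z (Sum.inl j) = y1 j := fun j => congrFun e1 j
      simp only [h2] at h1
      show _ = w (Sum.inr i) - ∑ j, L i j (y1 j)
      rw [← h1]
      abel
    funext j
    rcases j with j | j
    · exact congrFun e1 j
    · exact congrFun e2 j

/-- Reindexing.

PROOF. The solutions for the new index types correspond to those for the old ones by y ↦ y ∘ σ, w ↦ w ∘ τ (`Equiv.sum_comp`). -/
theorem bij_congr {ι κ ι' κ' : Type} [Fintype ι] [Fintype ι'] {g : ι → V} {h : κ → V} {S : κ → ι → (M →ₗ[K] M)}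
    (hS : BijM Us g h S) (σ : ι' ≃ ι) (τ : κ' ≃ κ) :
    BijM Us (fun j => g (σ j)) (fun i => h (τ i)) (fun i j => S (τ i) (σ j)) := by
  intro w hw
  have hw' : ∀ i, w (τ.symm i) ∈ Us (h i) := fun i => by
    have := hw (τ.symm i)
    simpa using this
  obtain ⟨y, ⟨hy, hye⟩, hyu⟩ := hS (fun i => w (τ.symm i)) hw'
  refine ⟨fun j => y (σ j), ⟨fun j => hy (σ j), fun i => ?_⟩, fun z hz => ?_⟩
  · have h1 := hye (τ i)
    rw [Equiv.symm_apply_apply] at h1
    rw [← h1]
    exact Equiv.sum_comp σ (fun j => S (τ i) j (y j))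
  · obtain ⟨hz1, hz2⟩ := hz
    have e1 : (fun j => z (σ.symm j)) = y := by
      apply hyu
      refine ⟨fun j => by simpa using hz1 (σ.symm j), fun i => ?_⟩
      have h1 := hz2 (τ.symm i)
      simp only [Equiv.apply_symm_apply] at h1
      rw [← h1, ← Equiv.sum_comp σ]
      simp
    funext j
    rw [← e1]
    simp

end H92C
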