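import Pool.Agent.Lib.H92C.H40

/-! # H92C, chunk H41 (S/M): bijective matrices of letters -/

namespace H92C

variable {K : Type} [Field K] {M : Type} [AddCommGroup M] [Module K M] {V : Type} {Us : V → Submodule K M}
  {Lt : V → V → (M →ₗ[K] M) → Prop}

/-- PROOF. The identity matrix: `bij_one`, Lts.one, Lts.zero. -/
theorem lb_refl (hL : Lts Us Lt) {ι : Type} [Fintype ι] (g : ι → V) : LB Us Lt g g := by
  classical
  refine ⟨fun i j => if i = j then LinearMap.id else (0 : M →ₗ[K] M), ?_, bij_one g⟩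
  intro b a
  show Lt (g a) (g b) (if b = a then LinearMap.id else (0 : M →ₗ[K] M))
  by_cases h : b = a
  · subst h
    rw [if_pos rfl]
    exact hL.one _
  · rw [if_neg h]
    exact hL.zero _ _

/-- PROOF. Block diagonal: bm T 0 0 T', `bij_low` with L = 0. -/
theorem lb_sum (hL : Lts Us Lt) {α β α' β' : Type} [Fintype α] [Fintype α'] {e : α → V} {f : β → V} {e' : α' → V} {f' : β' → V}
    (h : LB Us Lt e f) (h' : LB Us Lt e' f') : LB Us Lt (Sum.elim e e') (Sum.elim f f') := by
  obtain ⟨T, hT, hTb⟩ := h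
  obtain ⟨T', hT', hTb'⟩ := h'
  refine ⟨bm T (fun _ _ => 0) (fun _ _ => 0) T', ?_, bij_low hTb hTb' (fun _ _ _ _ => Submodule.zero_mem _)⟩
  intro b a
  rcases b with b | b <;> rcases a with a | a
  · exact hT b a
  · exact hL.zero _ _
  · exact hL.zero _ _
  · exact hT' b a

/-- PROOF. `bij_congr` (rewrite e' = fun a => e (σ a), f' = fun b => f (τ b) by funext). -/
theorem lb_congr {α β α' β' : Type} [Fintype α] [Fintype α'] {e : α → V} {f : β → V} {e' : α' → V} {f' : β' → V}
    (h : LB Us Lt e f) (σ : α' ≃ α) (τ : β' ≃ β) (he : ∀ a, e' a = e (σ a)) (hf : ∀ b, f' b = f (τ b)) :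
    LB Us Lt e' f' := by
  obtain ⟨T, hT, hTb⟩ := h
  have he' : e' = fun a => e (σ a) := funext he
  have hf' : f' = fun b => f (τ b) := funext hf
  rw [he', hf']
  exact ⟨fun b a => T (τ b) (σ a), fun b a => hT (τ b) (σ a), bij_congr hTb σ τ⟩

end H92C
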