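import Pool.Agent.Lib.H92C.H40

/-! # H92C, chunk H42 (M): realizable operators: letters, scalars, sums -/

namespace H92C

variable {K : Type} [Field K] {M : Type} [AddCommGroup M] [Module K M] {V : Type} {Us : V → Submodule K M}
  {Lt : V → V → (M →ₗ[K] M) → Prop}

/-- PROOF. ι := Empty, P := A; `bij_empty`; the sums over Empty are 0. -/
theorem rz_letter {a b : V} {A : M →ₗ[K] M} (h : Lt a b A) : Rz Us Lt a b A := by
  refine ⟨Empty, inferInstance, Empty.elim, A, Empty.elim, Empty.elim, Empty.elim, h, fun i => i.elim,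
    fun i => i.elim, fun i => i.elim, bij_empty _ _, fun v _ y _ _ => ?_⟩
  rw [Finset.univ_eq_empty, Finset.sum_empty, sub_zero]

/-- PROOF. The same data. -/
theorem rz_congr {a b : V} {A B : M →ₗ[K] M} (h : Rz Us Lt a b A) (hAB : ∀ v ∈ Us a, A v = B v) : Rz Us Lt a b B := by
  obtain ⟨ι, fι, g, P, Q, R, S, h1, h2, h3, h4, h5, h6⟩ := h
  exact ⟨ι, fι, g, P, Q, R, S, h1, h2, h3, h4, h5, fun v hv y hy he => by
    rw [← hAB v hv]; exact h6 v hv y hy he⟩

/-- PROOF. P ↦ c • P, Q ↦ c • Q (Lts.smul). -/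
theorem rz_smul (hL : Lts Us Lt) {a b : V} {A : M →ₗ[K] M} (c : K) (h : Rz Us Lt a b A) : Rz Us Lt a b (c • A) := by
  obtain ⟨ι, fι, g, P, Q, R, S, h1, h2, h3, h4, h5, h6⟩ := h
  refine ⟨ι, fι, g, c • P, fun i => c • Q i, R, S, hL.smul _ _ _ _ h1, fun i => hL.smul _ _ _ _ (h2 i),
    h3, h4, h5, fun v hv y hy he => ?_⟩
  rw [LinearMap.smul_apply, h6 v hv y hy he, smul_sub, Finset.smul_sum]
  rfl

/-- PROOF. ι := ι_A ⊕ ι_B, g := Sum.elim g_A g_B, P := P_A + P_B, Q := Sum.elim Q_A Q_B, R := Sum.elim R_A R_B, S := bm S_A 0 0 S_B (`bij_low` with L = 0; the zero blocks are letters by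
Lts.zero).  A solution y restricts to solutions on ι_A and ι_B (`Fintype.sum_sum_type`). -/
theorem rz_add (hL : Lts Us Lt) {a b : V} {A B : M →ₗ[K] M} (hA : Rz Us Lt a b A) (hB : Rz Us Lt a b B) :
    Rz Us Lt a b (A + B) := by
  obtain ⟨ιA, fA, gA, PA, QA, RA, SA, a1, a2, a3, a4, a5, a6⟩ := hA
  obtain ⟨ιB, fB, gB, PB, QB, RB, SB, b1, b2, b3, b4, b5, b6⟩ := hB
  refine ⟨ιA ⊕ ιB, inferInstance, Sum.elim gA gB, PA + PB, Sum.elim QA QB, Sum.elim RA RB,
    bm SA (fun _ _ => 0) (fun _ _ => 0) SB, hL.add _ _ _ _ a1 b1, ?_, ?_, ?_, ?_, ?_⟩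
  · rintro (i | i)
    · exact a2 i
    · exact b2 i
  · rintro (i | i)
    · exact a3 i
    · exact b3 i
  · rintro (i | i) (j | j)
    · exact a4 i j
    · exact hL.zero _ _
    · exact hL.zero _ _
    · exact b4 i j
  · exact bij_low a5 b5 (fun i j v _ => Submodule.zero_mem _)
  · intro v hv y hy he
    have hA := a6 v hv (fun i => y (Sum.inl i)) (fun i => hy (Sum.inl i)) (fun i => by
      have h1 := he (Sum.inl i)
      rw [Fintype.sum_sum_type] at h1
      simpa [bm] using h1)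
    have hB := b6 v hv (fun i => y (Sum.inr i)) (fun i => hy (Sum.inr i)) (fun i => by
      have h1 := he (Sum.inr i)
      rw [Fintype.sum_sum_type] at h1
      simpa [bm] using h1)
    rw [LinearMap.add_apply, LinearMap.add_apply, hA, hB, Fintype.sum_sum_type]
    simp only [Sum.elim_inl, Sum.elim_inr]
    abel

end H92C
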