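import Pool.Agent.Lib.H92C.H42

/-! # H92C, chunk H43 (M): realizable operators: composition -/

namespace H92C

variable {K : Type} [Field K] {M : Type} [AddCommGroup M] [Module K M] {V : Type} {Us : V → Submodule K M}
  {Lt : V → V → (M →ₗ[K] M) → Prop}

/-- PROOF. Let (ι_A, g_A, P_A, Q_A, R_A, S_A), (ι_B, ..) be the data of A, B.  Data of B ∘ A: ι := ι_A ⊕ (Unit ⊕ ι_B), g := Sum.elim g_A (Sum.elim (fun _ => b) g_B), P := 0,
Q := (0, P_B, Q_B), R := (R_A, -P_A, 0), S := [[S_A, 0, 0], [-Q_A, 1, 0], [0, R_B, S_B]], that is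
bm S_A 0 (Sum.elim (fun _ j => - Q_A j) (fun _ _ => 0)) (bm (fun _ _ => id) 0 (fun i _ => R_B i) S_B).  All entries are letters (Lts.zero, one, smul with -1).  S is bijective: `bij_low` twice
(`bij_one` or a direct argument for the 1 × 1 block id; the blocks below the diagonal map the spaces correctly by Lts.maps).  A solution for v in Us a is
(y_A, y', y_B) with S_A y_A = R_A v, so A v = P_A v - Q_A y_A; - Q_A y_A + y' = - P_A v, so y' = - A v (in Us b as y' is in Us b); R_B y' + S_B y_B = 0, so S_B y_B = R_B (A v) and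
B (A v) = P_B (A v) - Q_B y_B.  The output is P v - Q y = - P_B y' - Q_B y_B = P_B (A v) - Q_B y_B = B (A v). -/
theorem rz_comp (hL : Lts Us Lt) {a b c : V} {A B : M →ₗ[K] M} (hA : Rz Us Lt a b A) (hB : Rz Us Lt b c B) :
    Rz Us Lt a c (B ∘ₗ A) := by
  obtain ⟨ιA, fA, gA, PA, QA, RA, SA, a1, a2, a3, a4, a5, a6⟩ := hA
  obtain ⟨ιB, fB, gB, PB, QB, RB, SB, b1, b2, b3, b4, b5, b6⟩ := hB
  have hneg : ∀ a b (A : M →ₗ[K] M), Lt a b A → Lt a b (-A) := by
    intro a b A hA
    have := hL.smul a b (-1 : K) A hA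
    rwa [neg_one_smul] at this
  have hid : BijM Us (fun _ : Unit => b) (fun _ : Unit => b) (fun _ _ => (LinearMap.id : M →ₗ[K] M)) := by
    have h1 := bij_one (Us := Us) (fun _ : Unit => b)
    have h2 : (fun i j : Unit => if i = j then LinearMap.id else (0 : M →ₗ[K] M)) =
        (fun _ _ => (LinearMap.id : M →ₗ[K] M)) := by
      funext i j
      rw [if_pos (Subsingleton.elim i j)]
    rwa [h2] at h1
  refine ⟨ιA ⊕ (Unit ⊕ ιB), inferInstance, Sum.elim gA (Sum.elim (fun _ => b) gB), 0,
    Sum.elim (fun _ => 0) (Sum.elim (fun _ => PB) QB), Sum.elim RA (Sum.elim (fun _ => -PA) (fun _ => 0)),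
    bm SA (fun _ _ => 0) (Sum.elim (fun _ j => -QA j) (fun _ _ => 0))
      (bm (fun _ _ => LinearMap.id) (fun _ _ => 0) (fun i _ => RB i) SB), hL.zero _ _, ?_, ?_, ?_, ?_, ?_⟩
  · rintro (i | i | i)
    · exact hL.zero _ _
    · exact b1
    · exact b2 i
  · rintro (i | i | i)
    · exact a3 i
    · exact hneg _ _ _ a1
    · exact hL.zero _ _
  · rintro (i | i | i) (j | j | j)
    · exact a4 i j
    · exact hL.zero _ _
    · exact hL.zero _ _
    · exact hneg _ _ _ (a2 j)
    · exact hL.one _
    · exact hL.zero _ _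
    · exact hL.zero _ _
    · exact b3 i
    · exact b4 i j
  · refine bij_low a5 (bij_low hid b5 (fun i j v hv => hL.maps _ _ _ (b3 i) v hv)) ?_
    rintro (i | i) j v hv
    · exact hL.maps _ _ _ (hneg _ _ _ (a2 j)) v hv
    · exact Submodule.zero_mem _
  · intro v hv y hy he
    have hA := a6 v hv (fun i => y (Sum.inl i)) (fun i => hy (Sum.inl i)) (fun i => by
      have h1 := he (Sum.inl i)
      rw [Fintype.sum_sum_type] at h1
      simpa [bm] using h1)
    have hU : y (Sum.inr (Sum.inl ())) = -(A v) := by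
      have h1 := he (Sum.inr (Sum.inl ()))
      rw [Fintype.sum_sum_type, Fintype.sum_sum_type] at h1
      simp only [bm, Sum.elim_inl, Sum.elim_inr, LinearMap.neg_apply, LinearMap.zero_apply, Finset.sum_const_zero,
        LinearMap.id_apply, Finset.univ_unique, Finset.sum_singleton, add_zero, Finset.sum_neg_distrib,
        PUnit.default_eq_unit] at h1
      rw [hA, neg_sub, ← sub_eq_zero]
      have h2 := sub_eq_zero.2 h1
      rw [← h2]
      abel
    have hAv : A v ∈ Us b := by
      have h1 := hy (Sum.inr (Sum.inl ()))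
      rw [hU] at h1
      have h2 := Submodule.neg_mem _ h1
      rwa [neg_neg] at h2
    have hB := b6 (A v) hAv (fun i => y (Sum.inr (Sum.inr i))) (fun i => hy (Sum.inr (Sum.inr i))) (fun i => by
      have h1 := he (Sum.inr (Sum.inr i))
      rw [Fintype.sum_sum_type, Fintype.sum_sum_type] at h1
      simp only [bm, Sum.elim_inl, Sum.elim_inr, LinearMap.zero_apply, Finset.sum_const_zero,
        Finset.univ_unique, Finset.sum_singleton, zero_add, PUnit.default_eq_unit, hU, map_neg] at h1
      have h2 : ∀ x z : M, -x + z = 0 → z = x := fun x z h => by rw [← sub_eq_zero, ← h]; abel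
      exact h2 _ _ h1)
    rw [LinearMap.comp_apply, hB, Fintype.sum_sum_type, Fintype.sum_sum_type]
    simp only [Sum.elim_inl, Sum.elim_inr, LinearMap.zero_apply, Finset.sum_const_zero, zero_add,
      Finset.univ_unique, Finset.sum_singleton, PUnit.default_eq_unit, hU, map_neg]
    abel

end H92C
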