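import Pool.Agent.Lib.H92C.H40

/-! # H92C, chunk H44 (M): block diagonal matrices; a matrix of realizable operators is realized at once -/

namespace H92C

variable {K : Type} [Field K] {M : Type} [AddCommGroup M] [Module K M] {V : Type} {Us : V → Submodule K M}
  {Lt : V → V → (M →ₗ[K] M) → Prop}

theorem h44_pos {E : Type} [Zero E] {J : Type} {ι : J → Type} (S : (x : J) → ι x → ι x → E) (x : J) (i j : ι x) :
    sigS S ⟨x, i⟩ ⟨x, j⟩ = S x i j := by
  unfold sigS
  rw [dif_pos rfl]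

theorem h44_neg {E : Type} [Zero E] {J : Type} {ι : J → Type} (S : (x : J) → ι x → ι x → E) (x y : J) (h : y ≠ x) (i : ι x)
    (j : ι y) : sigS S ⟨x, i⟩ ⟨y, j⟩ = 0 := by
  unfold sigS
  rw [dif_neg h]

/-- PROOF. `Fintype.sum_sigma`; the terms with y.1 ≠ x.1 vanish, the term with y.1 = x.1 has `dif_pos rfl`. -/
theorem sigS_sum {J : Type} [Fintype J] {ι : J → Type} [∀ x, Fintype (ι x)] (S : (x : J) → ι x → ι x → (M →ₗ[K] M))
    (y : (Σ x, ι x) → M) (x : J) (i : ι x) : ∑ j, sigS S ⟨x, i⟩ j (y j) = ∑ j, S x i j (y ⟨x, j⟩) := by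
  rw [Fintype.sum_sigma, Finset.sum_eq_single x]
  · exact Finset.sum_congr rfl fun j _ => by rw [h44_pos]
  · intro x' _ hx'
    exact Finset.sum_eq_zero fun j _ => by rw [h44_neg S x x' hx', LinearMap.zero_apply]
  · intro h
    exact absurd (Finset.mem_univ x) h

/-- PROOF. By `sigS_sum` the equations for y decompose into the equations for the y ⟨x, ·⟩; choose the unique solution for each x. -/
theorem sigS_bij {J : Type} [Fintype J] {ι : J → Type} [∀ x, Fintype (ι x)] {g : (x : J) → ι x → V}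
    {S : (x : J) → ι x → ι x → (M →ₗ[K] M)} (h : ∀ x, BijM Us (g x) (g x) (S x)) :
    BijM Us (fun x : Σ x, ι x => g x.1 x.2) (fun x : Σ x, ι x => g x.1 x.2) (sigS S) := by
  intro w hw
  have h1 := fun x => h x (fun i => w ⟨x, i⟩) (fun i => hw ⟨x, i⟩)
  choose y hy1 hy2 using h1
  refine ⟨fun s => y s.1 s.2, ⟨fun s => (hy1 s.1).1 s.2, ?_⟩, ?_⟩
  · rintro ⟨x, i⟩
    rw [sigS_sum S (fun s => y s.1 s.2) x i]
    exact (hy1 x).2 i
  · rintro y' ⟨h2, h3⟩
    funext ⟨x, i⟩
    have h4 := hy2 x (fun i => y' ⟨x, i⟩) ⟨fun i => h2 ⟨x, i⟩, fun i => by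
      have := h3 ⟨x, i⟩
      rw [sigS_sum S y' x i] at this
      exact this⟩
    exact congrFun h4 i

/-- PROOF. Choose the data (ι p, g p, P p, Q p, R p, S p) for every pair p = (b, a) (`Rz` is an existential; `choose`, with the Fintype instances as a part of the data).  ι := Σ p, ι p, g := the family of the g p,
P b a := P (b, a), Q b (p, i) := if p.1 = b then Q p i else 0, R (p, i) a := if p.2 = a then R p i else 0, S := sigS S (its entries are letters: for y.1 = x.1 destruct the pairs; else Lts.zero); `sigS_bij`.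
A solution y has, for each pair p = (b, a), S p (y ⟨p, ·⟩) = R p (v a) (`sigS_sum`; Σ_a' R (p, i) a' (v a') = R p i (v p.2)), so A b a (v a) = P b a (v a) - Σ_i Q (b,a) i (y ⟨(b,a), i⟩); sum over a
(`Fintype.sum_sigma`, `Fintype.sum_prod_type`, the terms with p.1 ≠ b vanish). -/
theorem rz_block (hL : Lts Us Lt) {α β : Type} [Fintype α] [Fintype β] [DecidableEq α] [DecidableEq β] {e : α → V} {f : β → V}
    {A : β → α → (M →ₗ[K] M)} (hA : ∀ b a, Rz Us Lt (e a) (f b) (A b a)) :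
    ∃ (ι : Type) (_ : Fintype ι) (g : ι → V) (P : β → α → (M →ₗ[K] M)) (Q : β → ι → (M →ₗ[K] M)) (R : ι → α → (M →ₗ[K] M))
      (S : ι → ι → (M →ₗ[K] M)),
      (∀ b a, Lt (e a) (f b) (P b a)) ∧ (∀ b i, Lt (g i) (f b) (Q b i)) ∧ (∀ i a, Lt (e a) (g i) (R i a)) ∧
      (∀ i j, Lt (g j) (g i) (S i j)) ∧ BijM Us g g S ∧
      ∀ v : α → M, (∀ a, v a ∈ Us (e a)) → ∀ y : ι → M, (∀ i, y i ∈ Us (g i)) → (∀ i, ∑ j, S i j (y j) = ∑ a, R i a (v a)) →
        ∀ b, ∑ a, A b a (v a) = ∑ a, P b a (v a) - ∑ i, Q b i (y i) := by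
  choose ι hι g P Q R S hP hQ hR hS hB hM using hA
  letI inst : ∀ p : β × α, Fintype (ι p.1 p.2) := fun p => hι p.1 p.2
  refine ⟨Σ p : β × α, ι p.1 p.2, inferInstance, fun s => g s.1.1 s.1.2 s.2, P,
    fun b s => if s.1.1 = b then Q s.1.1 s.1.2 s.2 else 0, fun s a => if s.1.2 = a then R s.1.1 s.1.2 s.2 else 0,
    sigS (fun (p : β × α) i j => S p.1 p.2 i j), hP, ?_, ?_, ?_, ?_, ?_⟩
  · intro b s
    show Lt (g s.1.1 s.1.2 s.2) (f b) (if s.1.1 = b then Q s.1.1 s.1.2 s.2 else 0)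
    by_cases h : s.1.1 = b
    · subst h
      rw [if_pos rfl]
      exact hQ _ _ _
    · rw [if_neg h]
      exact hL.zero _ _
  · intro s a
    show Lt (e a) (g s.1.1 s.1.2 s.2) (if s.1.2 = a then R s.1.1 s.1.2 s.2 else 0)
    by_cases h : s.1.2 = a
    · subst h
      rw [if_pos rfl]
      exact hR _ _ _
    · rw [if_neg h]
      exact hL.zero _ _
  · rintro ⟨p, i⟩ ⟨p', j⟩
    by_cases h : p' = p
    · subst h
      rw [h44_pos]
      exact hS _ _ _ _
    · rw [h44_neg _ p p' h]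
      exact hL.zero _ _
  · exact sigS_bij (g := fun (p : β × α) i => g p.1 p.2 i) (S := fun (p : β × α) i j => S p.1 p.2 i j) (fun p => hB p.1 p.2)
  · intro v hv y hy hsol b
    have h1 : ∀ (b : β) (a : α) (i : ι b a), ∑ j, S b a i j (y ⟨(b, a), j⟩) = R b a i (v a) := by
      intro b a i
      have h2 := hsol ⟨(b, a), i⟩
      rw [sigS_sum (fun (p : β × α) i j => S p.1 p.2 i j) y (b, a) i] at h2
      refine h2.trans ?_
      rw [Finset.sum_eq_single a]
      · show (if a = a then R b a i else 0 : M →ₗ[K] M) (v a) = _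
        rw [if_pos rfl]
      · intro a' _ ha'
        show (if a = a' then R b a i else 0 : M →ₗ[K] M) (v a') = 0
        rw [if_neg (fun h => ha' h.symm), LinearMap.zero_apply]
      · intro h
        exact absurd (Finset.mem_univ a) h
    have h3 : ∀ a, A b a (v a) = P b a (v a) - ∑ i, Q b a i (y ⟨(b, a), i⟩) := fun a =>
      hM b a (v a) (hv a) (fun i => y ⟨(b, a), i⟩) (fun i => hy ⟨(b, a), i⟩) (h1 b a)
    have h4 : ∑ s : (Σ p : β × α, ι p.1 p.2), (if s.1.1 = b then Q s.1.1 s.1.2 s.2 else 0 : M →ₗ[K] M) (y s) =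
        ∑ a, ∑ i, Q b a i (y ⟨(b, a), i⟩) := by
      rw [Fintype.sum_sigma, Fintype.sum_prod_type, Finset.sum_eq_single b]
      · refine Finset.sum_congr rfl fun a _ => Finset.sum_congr rfl fun i _ => ?_
        rw [if_pos rfl]
      · intro b' _ hb'
        refine Finset.sum_eq_zero fun a _ => Finset.sum_eq_zero fun i _ => ?_
        rw [if_neg hb', LinearMap.zero_apply]
      · intro h
        exact absurd (Finset.mem_univ b) h
    rw [h4, ← Finset.sum_sub_distrib]
    exact Finset.sum_congr rfl fun a _ => h3 a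

end H92C
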