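import Pool.Agent.Lib.H92C.H40

/-! # H92C, chunk H45 (M): the Schur complement -/

namespace H92C

variable {K : Type} [Field K] {M : Type} [AddCommGroup M] [Module K M] {V : Type} {Us : V → Submodule K M}
  {Lt : V → V → (M →ₗ[K] M) → Prop}

/-- PROOF. T := bm P Q R S.  The equations for (v, y) with right side (w1, w2) are P v + Q y = w1, R v + S y = w2 (`Fintype.sum_sum_type`).
Let y0 be the solution of S y0 = w2; w1 - Q y0 lies in the spaces Us (f b) (Lts.maps, `Submodule.sum_mem`, sub_mem), let v be the solution of A v = w1 - Q y0; let y1 be the solution of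
S y1 = R v (R v lies in the spaces Us (g i)).  Existence: (v, y0 - y1): R v + S y0 - S y1 = w2, P v + Q y0 - Q y1 = A v + Q y0 = w1 by the hypothesis hA.
Uniqueness: let (v', y') be a solution; y0 - y' solves S (y0 - y') = w2 - S y' = R v', so A v' = P v' - Q (y0 - y') = w1 - Q y0, hence v' = v, and y0 - y' = y1. -/
theorem lb_schur (hL : Lts Us Lt) {α β ι : Type} [Fintype α] [Fintype ι] {e : α → V} {f : β → V} {g : ι → V}
    {A P : β → α → (M →ₗ[K] M)} {Q : β → ι → (M →ₗ[K] M)} {R : ι → α → (M →ₗ[K] M)} {S : ι → ι → (M →ₗ[K] M)}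
    (hA : BijM Us e f A) (hP : ∀ b a, Lt (e a) (f b) (P b a)) (hQ : ∀ b i, Lt (g i) (f b) (Q b i))
    (hR : ∀ i a, Lt (e a) (g i) (R i a)) (hS : ∀ i j, Lt (g j) (g i) (S i j)) (hSb : BijM Us g g S)
    (h : ∀ v : α → M, (∀ a, v a ∈ Us (e a)) → ∀ y : ι → M, (∀ i, y i ∈ Us (g i)) →
      (∀ i, ∑ j, S i j (y j) = ∑ a, R i a (v a)) → ∀ b, ∑ a, A b a (v a) = ∑ a, P b a (v a) - ∑ i, Q b i (y i)) :
    LB Us Lt (Sum.elim e g) (Sum.elim f g) := by
  refine ⟨bm P Q R S, ?_, ?_⟩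
  · rintro (b | i) (a | j)
    · exact hP b a
    · exact hQ b j
    · exact hR i a
    · exact hS i j
  intro w hw
  obtain ⟨y0, ⟨hy0, hy0e⟩, hy0u⟩ := hSb (fun i => w (Sum.inr i)) (fun i => hw (Sum.inr i))
  have hw1 : ∀ b, w (Sum.inl b) - ∑ i, Q b i (y0 i) ∈ Us (f b) := fun b =>
    Submodule.sub_mem _ (hw (Sum.inl b)) (Submodule.sum_mem _ fun i _ => hL.maps _ _ _ (hQ b i) _ (hy0 i))
  obtain ⟨v, ⟨hv, hve⟩, hvu⟩ := hA (fun b => w (Sum.inl b) - ∑ i, Q b i (y0 i)) hw1
  have hRv : ∀ i, ∑ a, R i a (v a) ∈ Us (g i) := fun i =>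
    Submodule.sum_mem _ fun a _ => hL.maps _ _ _ (hR i a) _ (hv a)
  obtain ⟨y1, ⟨hy1, hy1e⟩, hy1u⟩ := hSb (fun i => ∑ a, R i a (v a)) hRv
  have hAv := h v hv y1 hy1 hy1e
  refine ⟨Sum.elim v (fun i => y0 i - y1 i), ⟨?_, ?_⟩, ?_⟩
  · rintro (a | i)
    · exact hv a
    · exact Submodule.sub_mem _ (hy0 i) (hy1 i)
  · rintro (b | i)
    · simp only [Fintype.sum_sum_type, bm, Sum.elim_inl, Sum.elim_inr, map_sub, Finset.sum_sub_distrib]
      have h1 := hve b
      rw [hAv b] at h1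
      have h2 : w (Sum.inl b) = (∑ a, P b a (v a) - ∑ i, Q b i (y1 i)) + ∑ i, Q b i (y0 i) := by
        rw [h1]; abel
      rw [h2]
      abel
    · simp only [Fintype.sum_sum_type, bm, Sum.elim_inl, Sum.elim_inr, map_sub, Finset.sum_sub_distrib]
      rw [hy0e i, hy1e i]
      abel
  · intro z hz
    obtain ⟨hz1, hz2⟩ := hz
    have hzi : ∀ i, ∑ a, R i a (z (Sum.inl a)) + ∑ j, S i j (z (Sum.inr j)) = w (Sum.inr i) := by
      intro i
      have h1 := hz2 (Sum.inr i)
      simpa only [Fintype.sum_sum_type, bm, Sum.elim_inl, Sum.elim_inr] using h1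
    have hzb : ∀ b, ∑ a, P b a (z (Sum.inl a)) + ∑ j, Q b j (z (Sum.inr j)) = w (Sum.inl b) := by
      intro b
      have h1 := hz2 (Sum.inl b)
      simpa only [Fintype.sum_sum_type, bm, Sum.elim_inl, Sum.elim_inr] using h1
    have hd : ∀ i, y0 i - z (Sum.inr i) ∈ Us (g i) := fun i =>
      Submodule.sub_mem _ (hy0 i) (hz1 (Sum.inr i))
    have hde : ∀ i, ∑ j, S i j (y0 j - z (Sum.inr j)) = ∑ a, R i a (z (Sum.inl a)) := by
      intro i
      simp only [map_sub, Finset.sum_sub_distrib]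
      rw [hy0e i, ← hzi i]
      abel
    have hA' := h (fun a => z (Sum.inl a)) (fun a => hz1 (Sum.inl a)) _ hd hde
    have e1 : (fun a => z (Sum.inl a)) = v := by
      apply hvu
      refine ⟨fun a => hz1 (Sum.inl a), fun b => ?_⟩
      rw [hA' b]
      simp only [map_sub, Finset.sum_sub_distrib]
      show _ = w (Sum.inl b) - ∑ i, Q b i (y0 i)
      rw [← hzb b]
      abel
    have e2 : (fun i => y0 i - z (Sum.inr i)) = y1 := by
      apply hy1u
      refine ⟨hd, fun i => ?_⟩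
      show _ = ∑ a, R i a (v a)
      rw [hde i]
      refine Finset.sum_congr rfl fun a _ => ?_
      rw [show z (Sum.inl a) = v a from congrFun e1 a]
    funext j
    rcases j with a | i
    · exact congrFun e1 a
    · show z (Sum.inr i) = y0 i - y1 i
      rw [← congrFun e2 i]
      abel

end H92C
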