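import Mathlib

/-! # H92C, chunk H46 (S/M): families with equal fibres (pure Mathlib) -/

namespace H92C

/-- PROOF. The fibres over x are finite types of the same cardinality, choose equivalences (`Finite.equivOfCardEq` / `Nat.card_eq_card_iff...`), and compose `Equiv.sigmaFiberEquiv e` (inverse), `Equiv.sigmaCongrRight`,
`Equiv.sigmaFiberEquiv f`. -/
theorem fib_equiv {V α β : Type} [Finite α] [Finite β] (e : α → V) (f : β → V)
    (h : ∀ x, Nat.card {a // e a = x} = Nat.card {b // f b = x}) : ∃ σ : α ≃ β, ∀ a, f (σ a) = e a := by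
  classical
  have hx : ∀ x, Nonempty ({a // e a = x} ≃ {b // f b = x}) := fun x =>
    Finite.card_eq.1 (h x)
  have E : ∀ x, {a // e a = x} ≃ {b // f b = x} := fun x => (hx x).some
  refine ⟨(Equiv.sigmaFiberEquiv e).symm.trans ((Equiv.sigmaCongrRight E).trans (Equiv.sigmaFiberEquiv f)), ?_⟩
  intro a
  exact (E (e a) ⟨a, rfl⟩).2

/-- PROOF. {a : (Σ x, Fin (m x)) // a.1 = x} ≃ Fin (m x). -/
theorem card_fib {V : Type} (m : V → ℕ) (x : V) : Nat.card {a : (Σ x, Fin (m x)) // a.1 = x} = m x := by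
  have E : {a : (Σ x, Fin (m x)) // a.1 = x} ≃ Fin (m x) :=
    { toFun := fun a => cast (by rw [a.2]) a.1.2
      invFun := fun i => ⟨⟨x, i⟩, rfl⟩
      left_inv := by
        rintro ⟨⟨y, i⟩, hy⟩
        subst hy
        rfl
      right_inv := fun i => rfl }
  rw [Nat.card_congr E, Nat.card_fin]

/-- PROOF. The fibre of Sum.elim e e' over x is the sum of the fibres (`Nat.card_sum`). -/
theorem card_sum_elim {V α β : Type} [Finite α] [Finite β] (e : α → V) (e' : β → V) (x : V) :
    Nat.card {a : α ⊕ β // Sum.elim e e' a = x} = Nat.card {a // e a = x} + Nat.card {a // e' a = x} := by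
  have E : {a : α ⊕ β // Sum.elim e e' a = x} ≃ {a // e a = x} ⊕ {a // e' a = x} :=
    { toFun := fun a => match a with
        | ⟨Sum.inl a, h⟩ => Sum.inl ⟨a, h⟩
        | ⟨Sum.inr b, h⟩ => Sum.inr ⟨b, h⟩
      invFun := fun a => match a with
        | Sum.inl a => ⟨Sum.inl a.1, a.2⟩
        | Sum.inr b => ⟨Sum.inr b.1, b.2⟩
      left_inv := by
        rintro ⟨a | b, h⟩ <;> rfl
      right_inv := by
        rintro (a | b) <;> rfl }
  rw [Nat.card_congr E, Nat.card_sum]

end H92C
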