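import Pool.Agent.Lib.H92C.H30

/-! # H92C, chunk H47 (M): direct sums of the same dimension are isomorphic, in terms of matrices of operators -/

namespace H92C

variable {K : Type} [Field K] {M : Type} [AddCommGroup M] [Module K M] {V : Type} {Us : V → Submodule K M}

/-- PROOF. Let Y1 := (a : α) → Us (e a), Y2 := (b : β) → Us (f b), finite dimensional of the same dimension (`Module.finrank_pi_fintype`), so there is Φ : Y1 ≃ₗ[K] Y2 (`LinearEquiv.ofFinrankEq`).
For a, b the linear map Us (e a) → M, x ↦ (Φ (Pi.single a x) b : M) extends to a linear map A b a : M → M (`LinearMap.exists_extend`).  It maps Us (e a) to Us (f b).  For y with y a in Us (e a):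
Σ_a A b a (y a) = Σ_a Φ (single a (y a)) b = Φ y b (`Finset.univ_sum_single`-type lemma `LinearMap.pi_ext`, `map_sum`).  So the equations for y are Φ y = w, with the unique solution Φ.symm w. -/
theorem base_iso {α β : Type} [Fintype α] [Fintype β] [DecidableEq α] (e : α → V) (f : β → V)
    (hfin : ∀ x, Module.Finite K (Us x))
    (hd : ∑ a, Module.finrank K (Us (e a)) = ∑ b, Module.finrank K (Us (f b))) :
    ∃ A : β → α → (M →ₗ[K] M), (∀ b a, ∀ v ∈ Us (e a), A b a v ∈ Us (f b)) ∧ BijM Us e f A := by
  haveI := fun x => hfin x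
  have hd' : Module.finrank K ((a : α) → Us (e a)) = Module.finrank K ((b : β) → Us (f b)) := by
    rw [Module.finrank_pi_fintype, Module.finrank_pi_fintype]
    exact hd
  let Φ : ((a : α) → Us (e a)) ≃ₗ[K] ((b : β) → Us (f b)) := LinearEquiv.ofFinrankEq _ _ hd'
  have hex : ∀ b a, ∃ A : M →ₗ[K] M, ∀ x : Us (e a), A x = (Φ (Pi.single a x) b : M) := by
    intro b a
    obtain ⟨A, hA⟩ := LinearMap.exists_extend ((Us (f b)).subtype ∘ₗ LinearMap.proj b ∘ₗ Φ.toLinearMap ∘ₗ
      LinearMap.single K (fun a => Us (e a)) a)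
    exact ⟨A, fun x => LinearMap.congr_fun hA x⟩
  choose A hA using hex
  refine ⟨A, ?_, ?_⟩
  · intro b a v hv
    rw [show A b a v = _ from hA b a ⟨v, hv⟩]
    exact (Φ _ b).2
  · intro w hw
    let w' : (b : β) → Us (f b) := fun b => ⟨w b, hw b⟩
    have key : ∀ (y : (a : α) → Us (e a)) (b : β), ∑ a, A b a (y a) = (Φ y b : M) := by
      intro y b
      conv_rhs => rw [← Finset.univ_sum_single y]
      rw [map_sum, Finset.sum_apply, AddSubmonoidClass.coe_finset_sum]
      exact Finset.sum_congr rfl fun a _ => hA b a (y a)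
    refine ⟨fun a => (Φ.symm w' a : M), ⟨fun a => (Φ.symm w' a).2, fun b => ?_⟩, ?_⟩
    · rw [key (Φ.symm w') b, Φ.apply_symm_apply]
    · rintro y' ⟨h1, h2⟩
      have h3 : Φ (fun a => ⟨y' a, h1 a⟩) = w' := by
        funext b
        apply Subtype.ext
        rw [← key]
        exact h2 b
      have h4 : (fun a => (⟨y' a, h1 a⟩ : Us (e a))) = Φ.symm w' := by rw [← h3, Φ.symm_apply_apply]
      funext a
      exact congrArg Subtype.val (congrFun h4 a)

end H92C
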