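import Pool.Agent.Lib.H92C.H41
import Pool.Agent.Lib.H92C.H44
import Pool.Agent.Lib.H92C.H45
import Pool.Agent.Lib.H92C.H46
import Pool.Agent.Lib.H92C.H47

/-! # H92C, chunk H48 (M): bijective matrices of letters between large balanced families -/

namespace H92C

variable {K : Type} [Field K] {M : Type} [AddCommGroup M] [Module K M] {V : Type} {Us : V → Submodule K M}
  {Lt : V → V → (M →ₗ[K] M) → Prop}

/-- PROOF. α0 := Σ x, Fin (m x), e0 := Sigma.fst, β0 := Σ x, Fin (m' x), f0 := Sigma.fst.  The sums of the dimensions over α0 and β0 are Σ_x m x * dim and Σ_x m' x * dim, so `base_iso` gives A, all entries realizable (hR),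
`rz_block` gives (ι, g, P, Q, R, S) and `lb_schur` gives LB (Sum.elim e0 g) (Sum.elim f0 g).  M0 := Nat.card ι.  Let M' ≥ M0, e, f as in the statement.  Let m'' x := M' - Nat.card {i // g i = x}
(Nat.card {i // g i = x} ≤ M0 ≤ M'), γ := Σ x, Fin (m'' x), g' := Sigma.fst.  `lb_sum` with `lb_refl` gives LB (Sum.elim (Sum.elim e0 g) g') (Sum.elim (Sum.elim f0 g) g'), whose fibres over x have
m x + Nat.card {i // g i = x} + m'' x = m x + M' and m' x + M' elements (`card_sum_elim`, `card_fib`).  `fib_equiv` (twice) and `lb_congr`. -/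
theorem lb_pad [Fintype V] (hL : Lts Us Lt) (hfin : ∀ x, Module.Finite K (Us x)) (m m' : V → ℕ)
    (hd : ∑ x, m x * Module.finrank K (Us x) = ∑ x, m' x * Module.finrank K (Us x))
    (hR : ∀ a b, ∀ A : M →ₗ[K] M, (∀ v ∈ Us a, A v ∈ Us b) → Rz Us Lt a b A) :
    ∃ M0 : ℕ, ∀ M' : ℕ, M0 ≤ M' → ∀ (α β : Type) [Fintype α] [Fintype β] (e : α → V) (f : β → V),
      (∀ x, Nat.card {a // e a = x} = m x + M') → (∀ x, Nat.card {b // f b = x} = m' x + M') → LB Us Lt e f := by
  classical
  obtain ⟨A, hA1, hA2⟩ := base_iso (Us := Us) (α := Σ x, Fin (m x)) (β := Σ x, Fin (m' x)) (fun a => a.1) (fun b => b.1) hfin (by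
    rw [Fintype.sum_sigma, Fintype.sum_sigma]
    refine Eq.trans (Finset.sum_congr rfl fun x _ => ?_) (hd.trans (Finset.sum_congr rfl fun x _ => ?_))
    · show ∑ _y : Fin (m x), Module.finrank K (Us x) = _
      rw [Finset.sum_const, Finset.card_univ, Fintype.card_fin, smul_eq_mul]
    · show _ = ∑ _y : Fin (m' x), Module.finrank K (Us x)
      rw [Finset.sum_const, Finset.card_univ, Fintype.card_fin, smul_eq_mul])
  obtain ⟨ι, hι, g, P, Q, R, S, h1, h2, h3, h4, h5, h6⟩ := rz_block hL (fun b a => hR _ _ (A b a) (hA1 b a))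
  have hLB := lb_schur hL hA2 h1 h2 h3 h4 h5 h6
  refine ⟨Nat.card ι, fun M' hM' α β _ _ e f he hf => ?_⟩
  have hc : ∀ x, Nat.card {i // g i = x} ≤ M' := fun x =>
    (Nat.card_le_card_of_injective Subtype.val Subtype.val_injective).trans hM'
  have hLB2 := lb_sum hL hLB (lb_refl hL (fun a : (Σ x, Fin (M' - Nat.card {i // g i = x})) => a.1))
  obtain ⟨σ, hσ⟩ := fib_equiv e (Sum.elim (Sum.elim (fun a : (Σ x, Fin (m x)) => a.1) g)
    (fun a : (Σ x, Fin (M' - Nat.card {i // g i = x})) => a.1)) (fun x => by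
      rw [he, card_sum_elim, card_sum_elim, card_fib, card_fib]
      have := hc x
      omega)
  obtain ⟨τ, hτ⟩ := fib_equiv f (Sum.elim (Sum.elim (fun a : (Σ x, Fin (m' x)) => a.1) g)
    (fun a : (Σ x, Fin (M' - Nat.card {i // g i = x})) => a.1)) (fun x => by
      rw [hf, card_sum_elim, card_sum_elim, card_fib, card_fib]
      have := hc x
      omega)
  exact lb_congr hLB2 σ τ (fun a => (hσ a).symm) (fun b => (hτ b).symm)

end H92C
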