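import Pool.Agent.Lib.H92C.H20

/-! # H92C, chunk H49 (S/M): the dimension of U K n E -/

namespace H92C

variable {K : Type} [Field K]

/-- PROOF. Restriction to the patterns, with inverse the extension by 0. -/
theorem h49_u_equiv (n : ℕ) (E : Fin n → ℤ) : Nonempty (U K n E ≃ₗ[K] ({c : Ch n // gd n E c} → K)) := by
  refine ⟨{ toFun := fun v c => v.1 c.1
            map_add' := fun _ _ => rfl
            map_smul' := fun _ _ => rfl
            invFun := fun f => ⟨fun c => if h : gd n E c then f ⟨c, h⟩ else 0, fun c hc => dif_neg hc⟩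
            left_inv := ?_
            right_inv := ?_ }⟩
  · intro v
    apply Subtype.ext
    funext c
    by_cases h : gd n E c
    · exact dif_pos h
    · exact (dif_neg h).trans (v.2 c h).symm
  · intro f
    funext c
    exact dif_pos c.2

/-- PROOF. `h49_u_equiv`, `fin_gd`. -/
theorem h49_u_fin (n : ℕ) (E : Fin n → ℤ) : Module.Finite K (U K n E) := by
  have := fin_gd n E
  obtain ⟨e⟩ := h49_u_equiv (K := K) n E
  exact Module.Finite.equiv e.symm

/-- PROOF. `h49_u_equiv`, `Module.finrank_fintype_fun_eq_card`, definition of uu. -/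
theorem h49_u_rank (n : ℕ) (E : Fin n → ℤ) : Module.finrank K (U K n E) = uu E := by
  have := fin_gd n E
  have := Fintype.ofFinite {c : Ch n // gd n E c}
  obtain ⟨e⟩ := h49_u_equiv (K := K) n E
  rw [e.finrank_eq, Module.finrank_fintype_fun_eq_card, uu, Nat.card_eq_fintype_card]

end H92C
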