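import Pool.Agent.Lib.H92C.H30

/-! # H92C, chunk H50 (M): rows: insertion and deletion of an entry -/

namespace H92C

variable {N : ℕ}

/-- PROOF. `Fin.insertNth_apply_succAbove`. -/
theorem h50_dl_ins (p : Fin (N + 1)) (t : ℤ) (E : Fin N → ℤ) : dl (ins p t E) p = E := by
  funext j
  exact Fin.insertNth_apply_succAbove (α := fun _ => ℤ) p t E j

/-- PROOF. `Fin.insertNth_apply_same`. -/
theorem h50_ins_same (p : Fin (N + 1)) (t : ℤ) (E : Fin N → ℤ) : ins p t E p = t :=
  Fin.insertNth_apply_same (α := fun _ => ℤ) p t E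

/-- PROOF. `Fin.insertNth_apply_succAbove`. -/
theorem h50_ins_sa (p : Fin (N + 1)) (t : ℤ) (E : Fin N → ℤ) (k : Fin N) : ins p t E (p.succAbove k) = E k :=
  Fin.insertNth_apply_succAbove (α := fun _ => ℤ) p t E k

theorem h50_ext (p : Fin (N + 1)) (G G' : Fin (N + 1) → ℤ) (h1 : G p = G' p) (h2 : ∀ k, G (p.succAbove k) = G' (p.succAbove k)) :
    G = G' := by
  funext i
  rcases Fin.eq_self_or_eq_succAbove p i with h | ⟨k, h⟩
  · rw [h, h1]
  · rw [h, h2]

theorem h50_ep_same {n : ℕ} (p : Fin n) : ep p p = 1 := Pi.single_eq_same _ _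

theorem h50_ep_ne {n : ℕ} {p i : Fin n} (h : i ≠ p) : ep p i = 0 := Pi.single_eq_of_ne h _

theorem h50_ep_sa (p : Fin (N + 1)) (k j : Fin N) : ep (p.succAbove k) (p.succAbove j) = ep k j := by
  by_cases h : j = k
  · rw [h, h50_ep_same, h50_ep_same]
  · rw [h50_ep_ne h, h50_ep_ne]
    intro h'
    exact h (Fin.succAbove_right_injective h')

/-- PROOF. Compare at p and at p.succAbove k (`Fin.eq_self_or_eq_succAbove`). -/
theorem h50_ins_dl (p : Fin (N + 1)) (G : Fin (N + 1) → ℤ) : ins p (G p) (dl G p) = G := by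
  apply h50_ext p
  · exact h50_ins_same _ _ _
  · intro k
    rw [h50_ins_sa]
    rfl

/-- PROOF. Compare at p and at p.succAbove k; ep p (p.succAbove k) = 0 (`Fin.succAbove_ne`). -/
theorem h50_ins_one (p : Fin (N + 1)) (t : ℤ) (E : Fin N → ℤ) : ins p (t + 1) E = ins p t E + ep p := by
  apply h50_ext p
  · rw [Pi.add_apply, h50_ins_same, h50_ins_same, h50_ep_same]
  · intro k
    rw [Pi.add_apply, h50_ins_sa, h50_ins_sa, h50_ep_ne (Fin.succAbove_ne p k), add_zero]

/-- PROOF. As `h50_ins_one`; ep (p.succAbove k) (p.succAbove j) = ep k j (`Fin.succAbove_right_injective`). -/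
theorem h50_ins_add (p : Fin (N + 1)) (t : ℤ) (E : Fin N → ℤ) (k : Fin N) :
    ins p (t + 1) (E + ep k) = ins p t E + ep p + ep (p.succAbove k) := by
  apply h50_ext p
  · rw [Pi.add_apply, Pi.add_apply, h50_ins_same, h50_ins_same, h50_ep_same, h50_ep_ne (Fin.succAbove_ne p k).symm, add_zero]
  · intro j
    rw [Pi.add_apply, Pi.add_apply, h50_ins_sa, h50_ins_sa, h50_ep_ne (Fin.succAbove_ne p j), add_zero, h50_ep_sa, Pi.add_apply]

/-- PROOF. As `h50_ins_add`. -/
theorem h50_ins_sub (p : Fin (N + 1)) (t : ℤ) (E : Fin N → ℤ) (k : Fin N) :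
    ins p (t + 1) (E - ep k) = ins p t E + ep p - ep (p.succAbove k) := by
  apply h50_ext p
  · rw [Pi.sub_apply, Pi.add_apply, h50_ins_same, h50_ins_same, h50_ep_same, h50_ep_ne (Fin.succAbove_ne p k).symm, sub_zero]
  · intro j
    rw [Pi.sub_apply, Pi.add_apply, h50_ins_sa, h50_ins_sa, h50_ep_ne (Fin.succAbove_ne p j), add_zero, h50_ep_sa, Pi.sub_apply]

theorem h50_mono (D : ℕ → ℤ) (hD : ∀ i ≤ N, D i < D (i + 1)) (i j : ℕ) (hij : i ≤ j) (hj : j ≤ N + 1) : D i ≤ D j := by
  obtain ⟨e, rfl⟩ := Nat.exists_eq_add_of_le hij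
  clear hij
  induction e with
  | zero => exact le_rfl
  | succ e ih => exact (ih (by omega)).trans (hD (i + e) (by omega)).le

/-- PROOF. Monotonicity along i < i + 1: for j < k, G j < D (j + 1) ≤ D k ≤ G k (D is increasing on 0, .., N + 1). -/
theorem h50_IF_strict (D : ℕ → ℤ) (hD : ∀ i ≤ N, D i < D (i + 1)) (G : Fin (N + 1) → ℤ)
    (hG : G ∈ IF (fun i : Fin (N + 2) => D i)) : StrictMono G := by
  rw [mem_IF] at hG
  intro j k hjk
  have h1 : G j < D (j + 1) := by
    have := (hG j).2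
    simpa using this
  have h2 : D k ≤ G k := by
    have := (hG k).1
    simpa using this
  have h3 : D (j + 1) ≤ D k := h50_mono D hD _ _ (by exact hjk) (by omega)
  omega

/-- PROOF. `mem_IF`; the conditions for G = ins p t E at p and at the p.succAbove k are the three hypotheses (`Fin.eq_self_or_eq_succAbove`; the value of castSucc and succ as natural numbers). -/
theorem h50_ins_IF (D : ℕ → ℤ) (p : Fin (N + 1)) (t : ℤ) (h1 : D p ≤ t) (h2 : t < D ((p : ℕ) + 1)) (E : Fin N → ℤ)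
    (hE : Bx (bA D p) (bB D p) E) : ins p t E ∈ IF (fun i : Fin (N + 2) => D i) := by
  rw [mem_IF]
  intro i
  rcases Fin.eq_self_or_eq_succAbove p i with h | ⟨k, h⟩
  · rw [h, h50_ins_same]
    constructor
    · simpa using h1
    · simpa using h2
  · rw [h, h50_ins_sa]
    have h3 := hE k
    unfold bA bB at h3
    constructor
    · simpa using h3.1
    · simpa using h3.2

/-- PROOF. `mem_IF`, at the indices p.succAbove k and p. -/
theorem h50_IF_box (D : ℕ → ℤ) (p : Fin (N + 1)) (G : Fin (N + 1) → ℤ) (hG : G ∈ IF (fun i : Fin (N + 2) => D i)) :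
    Bx (bA D p) (bB D p) (dl G p) ∧ D p ≤ G p ∧ G p < D ((p : ℕ) + 1) := by
  rw [mem_IF] at hG
  refine ⟨fun k => ?_, ?_, ?_⟩
  · have h := hG (p.succAbove k)
    unfold bA bB dl
    simpa using h
  · simpa using (hG p).1
  · simpa using (hG p).2

end H92C
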