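import Pool.Agent.Lib.H92C.H32
import Pool.Agent.Lib.H92C.H50

/-! # H92C, chunk H51 (M): the letters of a slice -/

open MvPolynomial

namespace H92C

variable {K : Type} [Field K] (q : K) {N : ℕ}

/-- PROOF. io 0 = 0; io (A v + B v) = io (A v) + io (B v); io (c • v) = C c • io v; entrywise (`map_add`, `C_mul`). -/
theorem h51_io_add {n : ℕ} (v w : W K n) : io (N := N) (v + w) = io v + io w := by
  funext c
  exact map_add C (v c) (w c)

/-- PROOF. Entrywise. -/
theorem h51_io_smul {n : ℕ} (c : K) (v : W K n) : io (N := N) (c • v) = (C c : MvPolynomial (Fin N) K) • io v := by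
  funext d
  exact map_mul C c (v d)

/-- PROOF. Entrywise. -/
theorem h51_io_zero {n : ℕ} : io (N := N) (0 : W K n) = 0 := by
  funext c
  exact map_zero C

/-- PROOF. Entrywise: C a = 0 iff a = 0 (`C_eq_zero` / `C_injective`). -/
theorem h51_io_U {n : ℕ} (E : Fin n → ℤ) (v : W K n) : io (N := N) v ∈ U (MvPolynomial (Fin N) K) n E ↔ v ∈ U K n E := by
  constructor
  · intro h c hc
    exact C_eq_zero.1 (h c hc)
  · intro h c hc
    show C (v c) = 0
    rw [h c hc, map_zero]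

/-- PROOF. zero: the chain map 0 (`h32_cm_zero`); add: `h32_cm_add`, `h51_io_add`; smul: `h32_cm_smul`, `h51_io_smul`; one: `thmB_id` for G = ins p t E, G + ep p = ins p (t+1) E (`h50_ins_one`), both are increasing
(`h50_ins_IF`, `h50_IF_strict`); maps: for v in U K N E, io v is in U (dl (ins p t E) p) (`h50_dl_ins`, `h51_io_U`), φ p (io v) is in U (dl (ins p (t+1) E') p) (`CM.maps`) and equal to io (A v), `h51_io_U`. -/
theorem ltt_lts (hq0 : q ≠ 0) (hq : ∀ j : ℕ, 0 < j → q ^ j ≠ 1) (D : ℕ → ℤ) (hD : ∀ i ≤ N, D i < D (i + 1))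
    (p : Fin (N + 1)) (t : ℤ) (h1 : D p ≤ t) (h2 : t + 1 < D ((p : ℕ) + 1)) : Lts (Uv K D p) (Ltt q D p t) := by
  refine ⟨?_, ?_, ?_, ?_, ?_⟩
  · intro a b
    refine ⟨fun _ => 0, h32_cm_zero _ _ _, fun v _ => ?_⟩
    rw [LinearMap.zero_apply, LinearMap.zero_apply, h51_io_zero]
  · rintro a b A B ⟨φ, hφ, hφA⟩ ⟨ψ, hψ, hψB⟩
    refine ⟨fun p => φ p + ψ p, h32_cm_add hφ hψ, fun v hv => ?_⟩
    rw [LinearMap.add_apply, LinearMap.add_apply, h51_io_add, hφA v hv, hψB v hv]
  · rintro a b c A ⟨φ, hφ, hφA⟩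
    refine ⟨fun p => (C c : MvPolynomial (Fin N) K) • φ p, h32_cm_smul c hφ, fun v hv => ?_⟩
    rw [LinearMap.smul_apply, LinearMap.smul_apply, h51_io_smul, hφA v hv]
  · intro a
    have h3 := h50_ins_IF D p t h1 (by omega) a.1 a.2
    have h4 := h50_ins_IF D p (t + 1) (by omega) h2 a.1 a.2
    show TT (zq q) (ins p t a.1) (ins p (t + 1) a.1) p LinearMap.id
    have h5 := h50_IF_strict D hD _ h4
    rw [h50_ins_one] at h5 ⊢
    exact thmB_id q hq0 hq _ (h50_IF_strict D hD _ h3) p h5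
  · rintro a b A ⟨φ, hφ, hφA⟩ v hv
    have hv' : v ∈ U K N (dl (ins p t a.1) p) := by
      rw [h50_dl_ins]
      exact hv
    have h3 := hφ.maps p (io v) ((h51_io_U _ _).2 hv')
    rw [hφA v hv', h51_io_U, h50_dl_ins] at h3
    exact h3

end H92C
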