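import Pool.Agent.Lib.H92C.H43
import Pool.Agent.Lib.H92C.H51

/-! # H92C, chunk H52 (M): the realizable operators of a slice form a family with all letters (Fam) -/

open MvPolynomial

namespace H92C

variable {K : Type} [Field K] (q : K) {N : ℕ}

/-- PROOF. congr, add, smul, comp: `rz_congr`, `rz_add`, `rz_smul`, `rz_comp` (Lts by `ltt_lts`; the middle vertex of comp is in the box by the hypothesis of Fam.comp).  one: `rz_letter` and Lts.one.
lam: with G := ins p t E, k' := p.succAbove k ≠ p: G + ep p - ep k' = ins p (t+1) (E - ep k) (`h50_ins_sub`), increasing (`h50_ins_IF`, `h50_IF_strict`), dl of it at p is E - ep k (`h50_dl_ins`): `thmB_lam` is the letter.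
rho, rhl: `h50_ins_add`, G k' = E k (`h50_ins_sa`), ro q μ E k = tr (E + ep k) ∘ PR q μ N (zq q (E k)) by definition: `thmB_rho` (for rho μ = N ≥ 1).
cl: k' = p.succAbove k = Fin.last N because p < N and k + 1 = N; CC q (dl G p) k r with dl G p = E: `thmB_C`. -/
theorem fam_sl (hq0 : q ≠ 0) (hq : ∀ j : ℕ, 0 < j → q ^ j ≠ 1) (hN : 1 ≤ N) (D : ℕ → ℤ) (hD : ∀ i ≤ N, D i < D (i + 1))
    (p : Fin (N + 1)) (hp : (p : ℕ) < N) (t : ℤ) (h1 : D p ≤ t) (h2 : t + 1 < D ((p : ℕ) + 1)) :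
    Fam q (bA D p) (bB D p) (fun E E' A => ∀ (hE : Bx (bA D p) (bB D p) E) (hE' : Bx (bA D p) (bB D p) E'),
      Rz (Uv K D p) (Ltt q D p t) ⟨E, hE⟩ ⟨E', hE'⟩ A) := by
  have hL : Lts (Uv K D p) (Ltt q D p t) := ltt_lts q hq0 hq D hD p t h1 h2
  have hG : ∀ E, Bx (bA D p) (bB D p) E → StrictMono (ins p t E) := fun E hE =>
    h50_IF_strict D hD _ (h50_ins_IF D p t h1 (by omega) E hE)
  have hG' : ∀ E, Bx (bA D p) (bB D p) E → StrictMono (ins p (t + 1) E) := fun E hE =>
    h50_IF_strict D hD _ (h50_ins_IF D p (t + 1) (by omega) h2 E hE)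
  have hrho : ∀ (E : Fin N → ℤ) (k : Fin N) (hE : Bx (bA D p) (bB D p) E) (hE' : Bx (bA D p) (bB D p) (E + ep k)) (μ : ℕ),
      1 ≤ μ → μ ≤ N → Ltt q D p t ⟨E, hE⟩ ⟨E + ep k, hE'⟩ (ro q μ E k) := by
    intro E k hE hE' μ hμ1 hμ2
    have h3 := hG' (E + ep k) hE'
    rw [h50_ins_add] at h3
    have h4 := thmB_rho q hq0 hq (ins p t E) (hG E hE) p (p.succAbove k) (Fin.succAbove_ne p k) h3 μ hμ1 hμ2
    rw [← h50_ins_add, h50_dl_ins, h50_ins_sa] at h4
    exact h4
  refine ⟨?_, ?_, ?_, ?_, ?_, ?_, ?_, ?_, ?_⟩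
  · intro E E' _ _ A B h hAB hE hE'
    exact rz_congr (h hE hE') hAB
  · intro E E' _ _ A B hA hB hE hE'
    exact rz_add hL (hA hE hE') (hB hE hE')
  · intro E E' _ _ c A hA hE hE'
    exact rz_smul hL c (hA hE hE')
  · intro E E' E'' _ hm _ A B hA hB hE hE''
    exact rz_comp hL (hA hE hm) (hB hm hE'')
  · intro E _ hE hE'
    exact rz_letter (hL.one ⟨E, hE⟩)
  · intro E k _ _ hE hE'
    refine rz_letter ?_
    have h3 := hG' (E - ep k) hE'
    rw [h50_ins_sub] at h3
    have h4 := thmB_lam q hq0 hq (ins p t E) (hG E hE) p (p.succAbove k) (Fin.succAbove_ne p k) h3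
    rw [← h50_ins_sub, h50_dl_ins] at h4
    exact h4
  · intro E k _ _ hE hE'
    exact rz_letter (hrho E k hE hE' N hN le_rfl)
  · intro E k _ _ _ μ hμ1 hμ2 hE hE'
    exact rz_letter (hrho E k hE hE' μ hμ1 hμ2)
  · intro E k hk _ _ r hr hE hE'
    refine rz_letter ?_
    have hlast : p.succAbove k = Fin.last N := by
      have hle : p ≤ k.castSucc := by
        rw [Fin.le_def]
        simp only [Fin.val_castSucc]
        omega
      rw [Fin.succAbove_of_le_castSucc p k hle]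
      apply Fin.ext
      simp only [Fin.val_succ, Fin.val_last]
      omega
    have h3 := hG' (E - ep k) hE'
    rw [h50_ins_sub, hlast] at h3
    have hne : Fin.last N ≠ p := by
      intro h
      rw [← h, Fin.val_last] at hp
      omega
    have h4 := thmB_C q hq0 hq (ins p t E) (hG E hE) p hne h3 r hr k hk
    rw [← hlast, ← h50_ins_sub, h50_dl_ins] at h4
    exact h4

end H92C
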