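import Pool.Agent.Lib.H92C.H52

/-! # H92C, chunk H53 (S/M): all operators of a slice are realizable -/

open MvPolynomial

namespace H92C

variable {K : Type} [Field K] (q : K) {N : ℕ}

/-- PROOF. `thmI` with n = N for the family of `fam_sl`.  hab: D (p.succAbove j) < D (p.succAbove j + 1) by hD.  hba: for i < j, p.succAbove i < p.succAbove j, so D (p.succAbove i + 1) ≤ D (p.succAbove j) (D is
increasing on 0 .. N + 1).  hl: for k + 1 = N and p < N, p.succAbove k = N, so bB - bA = D (N + 1) - D N ≥ ell N. -/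
theorem rz_all (hq0 : q ≠ 0) (hq : ∀ j : ℕ, 0 < j → q ^ j ≠ 1) (hN : 1 ≤ N) (D : ℕ → ℤ) (hD : ∀ i ≤ N, D i < D (i + 1))
    (hl : ell N ≤ D (N + 1) - D N) (p : Fin (N + 1)) (hp : (p : ℕ) < N) (t : ℤ) (h1 : D p ≤ t) (h2 : t + 1 < D ((p : ℕ) + 1))
    (E E' : Vx D p) (A : W K N →ₗ[K] W K N) (hA : ∀ v ∈ Uv K D p E, A v ∈ Uv K D p E') :
    Rz (Uv K D p) (Ltt q D p t) E E' A := by
  have hmono : ∀ a b : ℕ, a ≤ b → b ≤ N + 1 → D a ≤ D b := by
    intro a b hab
    induction b, hab using Nat.le_induction with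
    | base => intro _; exact le_rfl
    | succ m hm ih =>
      intro hb
      exact le_trans (ih (by omega)) (hD m (by omega)).le
  have hfam := fam_sl q hq0 hq hN D hD p hp t h1 h2
  refine thmI q hq0 hq hN (bA D p) (bB D p) ?_ ?_ ?_ _ hfam E.1 E'.1 E.2 E'.2 A hA E.2 E'.2
  · intro j
    exact hD _ (by have := (p.succAbove j).isLt; omega)
  · intro i j hij
    have h3 : p.succAbove i < p.succAbove j := (Fin.strictMono_succAbove p) hij
    rw [Fin.lt_def] at h3
    exact hmono _ _ (by omega) (by have := (p.succAbove j).isLt; omega)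
  · intro k hk
    have hlast : ((p.succAbove k : Fin (N + 1)) : ℕ) = N := by
      have hle : p ≤ k.castSucc := by
        rw [Fin.le_def]
        simp only [Fin.val_castSucc]
        omega
      rw [Fin.succAbove_of_le_castSucc p k hle]
      simp only [Fin.val_succ]
      omega
    show ell N ≤ D (((p.succAbove k : Fin (N + 1)) : ℕ) + 1) - D ((p.succAbove k : Fin (N + 1)) : ℕ)
    rw [hlast]
    exact hl

end H92C
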