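import Pool.Agent.Lib.H92C.H48
import Pool.Agent.Lib.H92C.H49
import Pool.Agent.Lib.H92C.H53

/-! # H92C, chunk H54 (M): bijective matrices of letters for the slices -/

open MvPolynomial

namespace H92C

variable {K : Type} [Field K] (q : K) {N : ℕ}

/-- PROOF. The rows G in IF D with G p = t correspond to the vertices x of the box by G = ins p t x, x = dl G p (`h50_ins_IF`, `h50_IF_box`, `h50_ins_dl`, `h50_dl_ins`, `h50_ins_same`); `Finset.sum_bij'` or `Fintype.sum_equiv`. -/
theorem slr_box (D : ℕ → ℤ) (m : (Fin (N + 1) → ℤ) → ℕ) (p : Fin (N + 1)) (t : ℤ) (h1 : D p ≤ t) (h2 : t < D ((p : ℕ) + 1)) :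
    slr (fun i : Fin (N + 2) => D i) m p t = ∑ x : Vx D p, m (ins p t x.1) * uu x.1 := by
  unfold slr
  symm
  refine Finset.sum_bij' (fun x _ => ins p t x.1)
    (fun G hG => ⟨dl G p, (h50_IF_box D p G (Finset.mem_filter.1 hG).1).1⟩) ?_ ?_ ?_ ?_ ?_
  · intro x _
    exact Finset.mem_filter.2 ⟨h50_ins_IF D p t h1 h2 x.1 x.2, h50_ins_same p t x.1⟩
  · intro G _
    exact Finset.mem_univ _
  · intro x _
    exact Subtype.ext (h50_dl_ins p t x.1)
  · intro G hG
    change ins p t (dl G p) = G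
    rw [← (Finset.mem_filter.1 hG).2]
    exact h50_ins_dl p G
  · intro x _
    change m (ins p t x.1) * uu x.1 = m (ins p t x.1) * uu (dl (ins p t x.1) p)
    rw [h50_dl_ins]

theorem h54_update (p : Fin (N + 1)) (t s : ℤ) (E : Fin N → ℤ) :
    Function.update (ins p t E) p s = ins p s E := by
  have h1 : dl (Function.update (ins p t E) p s) p = E := by
    funext k
    change Function.update (ins p t E) p s (p.succAbove k) = E k
    rw [Function.update_of_ne (Fin.succAbove_ne p k), h50_ins_sa]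
  have h2 := h50_ins_dl p (Function.update (ins p t E) p s)
  rw [h1, Function.update_self] at h2
  exact h2.symm

/-- PROOF. p < N: `lb_pad` with m x := m (ins p t x.1), m' x := m (ins p (t+1) x.1), Lts by `ltt_lts`, `h49_u_fin`, `rz_all`; the balance by `slr_box`, `h49_u_rank` and hbal.
p = N (p = Fin.last N): m (ins p (t+1) x.1) = m (ins p t x.1) by hlast (G := ins p t x.1 is in IF; Function.update G (last) (t+1) = ins p (t+1) x.1), so the two families have the same
fibres; `fib_equiv`, `lb_refl`, `lb_congr`; M0 := 0. -/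
theorem slice_lb (hq0 : q ≠ 0) (hq : ∀ j : ℕ, 0 < j → q ^ j ≠ 1) (hN : 1 ≤ N) (D : ℕ → ℤ) (hD : ∀ i ≤ N, D i < D (i + 1))
    (hl : ell N ≤ D (N + 1) - D N) (m : (Fin (N + 1) → ℤ) → ℕ)
    (hlast : ∀ G ∈ IF (fun i : Fin (N + 2) => D i), ∀ t : ℤ, D N ≤ t → t < D (N + 1) →
      m (Function.update G (Fin.last N) t) = m G)
    (hbal : ∀ p : Fin (N + 1), (p : ℕ) < N → ∀ t t' : ℤ, D p ≤ t → t < D (p + 1) → D p ≤ t' → t' < D (p + 1) →
      slr (fun i : Fin (N + 2) => D i) m p t = slr (fun i : Fin (N + 2) => D i) m p t')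
    (p : Fin (N + 1)) (t : ℤ) (h1 : D p ≤ t) (h2 : t + 1 < D ((p : ℕ) + 1)) :
    ∃ M0 : ℕ, ∀ M' : ℕ, M0 ≤ M' → ∀ (α β : Type) [Fintype α] [Fintype β] (e : α → Vx D p) (f : β → Vx D p),
      (∀ x, Nat.card {a // e a = x} = m (ins p t x.1) + M') →
      (∀ x, Nat.card {b // f b = x} = m (ins p (t + 1) x.1) + M') → LB (Uv K D p) (Ltt q D p t) e f := by
  have hL := ltt_lts q hq0 hq D hD p t h1 h2
  by_cases hp : (p : ℕ) < N
  · refine lb_pad hL (fun x => h49_u_fin N x.1) (fun x => m (ins p t x.1)) (fun x => m (ins p (t + 1) x.1)) ?_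
      (fun a b A hA => rz_all q hq0 hq hN D hD hl p hp t h1 h2 a b A hA)
    have h3 := slr_box D m p t h1 (by omega)
    have h4 := slr_box D m p (t + 1) (by omega) h2
    have h5 := hbal p hp t (t + 1) h1 (by omega) (by omega) h2
    have h6 : ∀ x : Vx D p, Module.finrank K (Uv K D p x) = uu x.1 := fun x => h49_u_rank N x.1
    simp only [h6]
    rw [← h3, ← h4, h5]
  · have hpN : p = Fin.last N := Fin.ext (by have := p.2; simp only [Fin.val_last]; omega)
    refine ⟨0, fun M' _ α β _ _ e f he hf => ?_⟩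
    have h3 : ∀ x : Vx D p, m (ins p (t + 1) x.1) = m (ins p t x.1) := by
      intro x
      have h4 := hlast (ins p t x.1) (h50_ins_IF D p t h1 (by omega) x.1 x.2) (t + 1)
        (by rw [hpN, Fin.val_last] at h1; omega) (by rw [hpN, Fin.val_last] at h2; exact h2)
      rw [← hpN, h54_update] at h4
      exact h4
    obtain ⟨σ, hσ⟩ := fib_equiv e f fun x => by rw [he, hf, h3]
    refine lb_congr (lb_refl hL e) (Equiv.refl α) σ.symm (fun a => rfl) (fun b => ?_)
    rw [← hσ, Equiv.apply_symm_apply]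

end H92C
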