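import Pool.Agent.Lib.H92C.H50

/-! # H92C, chunk H55 (M): the matrix of a slice is bijective if the operators form a bijective block matrix -/

open MvPolynomial

namespace H92C

variable {K : Type} [Field K] {N : ℕ} {Γ : Type} [Fintype Γ] [DecidableEq Γ]

/-- The family of vectors of a vector on the slice. -/
def h55_enc (r : Γ → Fin (N + 1) → ℤ) (p : Fin (N + 1)) (t : ℤ) (v : Sx r p t → K) (a : {g // r g p = t}) : W K N :=
  fun c => if h : gd N (dl (r a.1) p) c then v ⟨(a.1, c), a.2, h⟩ else 0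

omit [Fintype Γ] [DecidableEq Γ] in
theorem h55_mem (r : Γ → Fin (N + 1) → ℤ) (p : Fin (N + 1)) (t : ℤ) (v : Sx r p t → K) (a : {g // r g p = t}) :
    h55_enc r p t v a ∈ U K N (dl (r a.1) p) := fun _ hc => dif_neg hc

omit [Fintype Γ] [DecidableEq Γ] in
theorem h55_dec (r : Γ → Fin (N + 1) → ℤ) (p : Fin (N + 1)) (t : ℤ) (y : {g // r g p = t} → W K N)
    (hy : ∀ a, y a ∈ U K N (dl (r a.1) p)) : h55_enc r p t (fun x => y ⟨x.1.1, x.2.1⟩ x.1.2) = y := by
  funext a c
  by_cases h : gd N (dl (r a.1) p) c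
  · exact dif_pos h
  · exact (dif_neg h).trans (hy a c h).symm

omit [Fintype Γ] [DecidableEq Γ] in
theorem h55_inj (r : Γ → Fin (N + 1) → ℤ) (p : Fin (N + 1)) (t : ℤ) (v v' : Sx r p t → K)
    (h : h55_enc r p t v = h55_enc r p t v') : v = v' := by
  funext x
  have h1 := congrFun (congrFun h ⟨x.1.1, x.2.1⟩) x.1.2
  unfold h55_enc at h1
  rw [dif_pos x.2.2, dif_pos x.2.2] at h1
  exact h1

/-- The index set of the slice. -/
def h55_eqv (r : Γ → Fin (N + 1) → ℤ) (p : Fin (N + 1)) (t : ℤ) :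
    Sx r p t ≃ Σ a : {g // r g p = t}, {c : Ch N // gd N (dl (r a.1) p) c} where
  toFun x := ⟨⟨x.1.1, x.2.1⟩, ⟨x.1.2, x.2.2⟩⟩
  invFun y := ⟨(y.1.1, y.2.1), y.1.2, y.2.2⟩
  left_inv _ := rfl
  right_inv _ := rfl

omit [Fintype Γ] [DecidableEq Γ] in
theorem h55_sum (r : Γ → Fin (N + 1) → ℤ) (p : Fin (N + 1)) (t : ℤ) (v : Sx r p t → K) (a : {g // r g p = t})
    [Fintype {c : Ch N // gd N (dl (r a.1) p) c}] :
    h55_enc r p t v a = ∑ c : {c : Ch N // gd N (dl (r a.1) p) c}, v ⟨(a.1, c.1), a.2, c.2⟩ • (Pi.single c.1 1 : W K N) := by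
  funext c
  rw [Finset.sum_apply]
  by_cases h : gd N (dl (r a.1) p) c
  · rw [Finset.sum_eq_single (⟨c, h⟩ : {c : Ch N // gd N (dl (r a.1) p) c})]
    · rw [Pi.smul_apply, Pi.single_eq_same, smul_eq_mul, mul_one]
      exact dif_pos h
    · intro b _ hb
      rw [Pi.smul_apply, Pi.single_eq_of_ne, smul_zero]
      intro h'
      exact hb (Subtype.ext h'.symm)
    · intro h'
      exact absurd (Finset.mem_univ _) h'
  · rw [Finset.sum_eq_zero]
    · exact dif_neg h
    · intro b _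
      rw [Pi.smul_apply, Pi.single_eq_of_ne, smul_zero]
      rintro rfl
      exact h b.2

omit [Fintype Γ] [DecidableEq Γ] in
theorem h55_io_single (c : Ch N) : (Pi.single c 1 : W (MvPolynomial (Fin N) K) N) = io (Pi.single c 1 : W K N) := by
  funext c'
  unfold io
  by_cases h : c' = c
  · subst h
    rw [Pi.single_eq_same, Pi.single_eq_same, map_one]
  · rw [Pi.single_eq_of_ne h, Pi.single_eq_of_ne h, map_zero]

omit [DecidableEq Γ] in
theorem h55_mul (r : Γ → Fin (N + 1) → ℤ)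
    (φ : Γ → Γ → Fin (N + 1) → (W (MvPolynomial (Fin N) K) N →ₗ[MvPolynomial (Fin N) K] W (MvPolynomial (Fin N) K) N))
    (p : Fin (N + 1)) (t : ℤ) (T : {g // r g p = t + 1} → {g // r g p = t} → (W K N →ₗ[K] W K N))
    (hφ : ∀ (b : {g // r g p = t + 1}) (a : {g // r g p = t}), ∀ v ∈ U K N (dl (r a.1) p), φ a.1 b.1 p (io v) = io (T b a v))
    [Fintype {g // r g p = t}]
    (v : Sx r p t → K) (y : Sx r p (t + 1)) :
    (sm r φ p t).mulVec v y = (∑ a, T ⟨y.1.1, y.2.1⟩ a (h55_enc r p t v a)) y.1.2 := by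
  have hfin : ∀ a : {g // r g p = t}, Fintype {c : Ch N // gd N (dl (r a.1) p) c} := fun a =>
    haveI := fin_gd N (dl (r a.1) p)
    Fintype.ofFinite _
  have h1 : (sm r φ p t).mulVec v y = ∑ x : Sx r p t, sm r φ p t y x * v x := rfl
  rw [h1, Fintype.sum_equiv (h55_eqv r p t) _ (fun z => sm r φ p t y ((h55_eqv r p t).symm z) * v ((h55_eqv r p t).symm z))
    (fun x => by rw [Equiv.symm_apply_apply]), Fintype.sum_sigma, Finset.sum_apply]
  refine Finset.sum_congr rfl fun a _ => ?_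
  rw [h55_sum, map_sum, Finset.sum_apply]
  refine Finset.sum_congr rfl fun c _ => ?_
  rw [map_smul, Pi.smul_apply, smul_eq_mul, mul_comm]
  have h2 : (Pi.single c.1 1 : W K N) ∈ U K N (dl (r a.1) p) := by
    intro c' hc'
    rw [Pi.single_eq_of_ne]
    rintro rfl
    exact hc' c.2
  have h3 := hφ ⟨y.1.1, y.2.1⟩ a _ h2
  rw [← h55_io_single] at h3
  have h4 : sm r φ p t y ((h55_eqv r p t).symm ⟨a, c⟩) = T ⟨y.1.1, y.2.1⟩ a (Pi.single c.1 1) y.1.2 := by
    show constantCoeff (φ a.1 y.1.1 p (Pi.single c.1 1) y.1.2) = _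
    rw [h3]
    exact constantCoeff_C _ _
  rw [h4]
  rfl

/-- PROOF. io (single c 1) = single c 1 and hφ: the entry of sm at (y, x) is T b a (single c 1) c' with a = x.1.1, b = y.1.1, c = x.1.2, c' = y.1.2 (constantCoeff (C s) = s).  For v : Sx r p t → K let ṽ a c := v (a, c) if c is a pattern
under dl (r a) p, else 0; ṽ a is in U, ṽ a = Σ_c v (a, c) • single c 1, so (sm ..).mulVec v y = Σ_a T b a (ṽ a) c' (linearity).  v ↦ ṽ is a bijection of the functions on Sx r p t with the families (ṽ a) in the spaces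
U K N (dl (r a) p), a in {g // r g p = t}; similarly for t + 1; the sums Σ_a T b a (ṽ a) are in U (hT).  So the bijectivity is hb. -/
theorem sm_bij (r : Γ → Fin (N + 1) → ℤ)
    (φ : Γ → Γ → Fin (N + 1) → (W (MvPolynomial (Fin N) K) N →ₗ[MvPolynomial (Fin N) K] W (MvPolynomial (Fin N) K) N))
    (p : Fin (N + 1)) (t : ℤ) (T : {g // r g p = t + 1} → {g // r g p = t} → (W K N →ₗ[K] W K N))
    (hT : ∀ b a, ∀ v ∈ U K N (dl (r a.1) p), T b a v ∈ U K N (dl (r b.1) p))
    (hφ : ∀ (b : {g // r g p = t + 1}) (a : {g // r g p = t}), ∀ v ∈ U K N (dl (r a.1) p), φ a.1 b.1 p (io v) = io (T b a v))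
    (hb : ∀ w : {g // r g p = t + 1} → W K N, (∀ b, w b ∈ U K N (dl (r b.1) p)) →
      ∃! y : {g // r g p = t} → W K N, (∀ a, y a ∈ U K N (dl (r a.1) p)) ∧ ∀ b, ∑ a, T b a (y a) = w b) :
    Function.Bijective (sm r φ p t).mulVec := by
  have key : ∀ (v : Sx r p t → K) (w : Sx r p (t + 1) → K), (sm r φ p t).mulVec v = w ↔
      ∀ b, ∑ a, T b a (h55_enc r p t v a) = h55_enc r p (t + 1) w b := by
    intro v w
    constructor
    · intro h b
      funext c
      by_cases hc : gd N (dl (r b.1) p) c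
      · have h1 := h55_mul r φ p t T hφ v ⟨(b.1, c), b.2, hc⟩
        rw [h] at h1
        have h2 : h55_enc r p (t + 1) w b c = w ⟨(b.1, c), b.2, hc⟩ := dif_pos hc
        rw [h2, h1]
      · have h2 : ∑ a, T b a (h55_enc r p t v a) ∈ U K N (dl (r b.1) p) :=
          Submodule.sum_mem _ fun a _ => hT b a _ (h55_mem r p t v a)
        rw [h2 c hc, h55_mem r p (t + 1) w b c hc]
    · intro h
      funext y
      rw [h55_mul r φ p t T hφ v y, h ⟨y.1.1, y.2.1⟩]
      exact dif_pos y.2.2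
  constructor
  · intro v v' hvv
    obtain ⟨y, _, hy⟩ := hb _ (h55_mem r p (t + 1) ((sm r φ p t).mulVec v))
    have h1 := hy (h55_enc r p t v) ⟨h55_mem r p t v, (key v _).mp rfl⟩
    have h2 := hy (h55_enc r p t v') ⟨h55_mem r p t v', (key v' _).mp hvv.symm⟩
    exact h55_inj r p t v v' (h1.trans h2.symm)
  · intro w
    obtain ⟨y, hy, _⟩ := hb _ (h55_mem r p (t + 1) w)
    refine ⟨fun x => y ⟨x.1.1, x.2.1⟩ x.1.2, ?_⟩
    rw [key, h55_dec r p t y hy.1]
    exact hy.2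

end H92C
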