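import Pool.Agent.Lib.H92C.H54
import Pool.Agent.Lib.H92C.H55

/-! # H92C, chunk H56 (M): the endomorphism for one slice -/

open MvPolynomial

namespace H92C

variable {K : Type} [Field K] (q : K) {N : ℕ}

/-- PROOF. a in the fibre is ((G, k), G p = t) with dl G p = x, i.e. G = ins p t x (`h50_ins_dl`, `h50_dl_ins`, `h50_ins_same`), which is in IF D (`h50_ins_IF`), and k < mm G. -/
theorem gam_fib (D : ℕ → ℤ) (mm : (Fin (N + 1) → ℤ) → ℕ) (p : Fin (N + 1)) (t : ℤ) (h1 : D p ≤ t) (h2 : t < D ((p : ℕ) + 1))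
    (e : {g : Gam (fun i : Fin (N + 2) => D i) mm // gr _ mm g p = t} → Vx D p) (he : ∀ a, (e a).1 = dl (gr _ mm a.1) p)
    (x : Vx D p) : Nat.card {a // e a = x} = mm (ins p t x.1) := by
  have hG0m : ins p t x.1 ∈ IF (fun i : Fin (N + 2) => D i) := h50_ins_IF D p t h1 h2 x.1 x.2
  have key : ∀ a : {a // e a = x}, a.1.1.1.1 = ins p t x.1 := by
    intro a
    have h3 := h50_ins_dl p (gr _ mm a.1.1)
    have h4 : dl (gr _ mm a.1.1) p = x.1 := by rw [← he, a.2]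
    rw [a.1.2, h4] at h3
    exact h3.symm
  let E : {a // e a = x} ≃ Fin (mm (ins p t x.1)) :=
    { toFun := fun a => Fin.cast (congrArg mm (key a)) a.1.1.2
      invFun := fun k => ⟨⟨⟨⟨ins p t x.1, hG0m⟩, k⟩, h50_ins_same p t x.1⟩,
        Subtype.ext (by rw [he]; exact h50_dl_ins p t x.1)⟩
      left_inv := by
        intro a
        have hk := key a
        rcases a with ⟨⟨⟨⟨G, hG⟩, k⟩, hg⟩, ha⟩
        simp only at hk
        subst hk
        rfl
      right_inv := fun k => rfl }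
  rw [Nat.card_congr E, Nat.card_eq_fintype_card, Fintype.card_fin]

/-- PROOF. Γ := Gam, r := gr.  M0 := the number of `slice_lb`.  For M' ≥ M0: α := {g // r g p = t}, β := {g // r g p = t + 1}, e a := ⟨dl (r a) p, _⟩ (`h50_IF_box`), f similarly; the fibre cardinalities by `gam_fib`.  LB gives T b a with
Ltt (e a) (f b) (T b a), i.e. TT (zq q) (r a) (r b) p (T b a) (`h50_ins_dl`): choose the chain maps ψ a b.  φ g g' := ψ ⟨g, _⟩ ⟨g', _⟩ if r g p = t and r g' p = t + 1, else 0 (`h32_cm_zero`).  `sm_bij` (hT by Lts.maps or `CM.maps`). -/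
theorem slice_phi (hq0 : q ≠ 0) (hq : ∀ j : ℕ, 0 < j → q ^ j ≠ 1) (hN : 1 ≤ N) (D : ℕ → ℤ) (hD : ∀ i ≤ N, D i < D (i + 1))
    (hl : ell N ≤ D (N + 1) - D N) (m : (Fin (N + 1) → ℤ) → ℕ)
    (hlast : ∀ G ∈ IF (fun i : Fin (N + 2) => D i), ∀ t : ℤ, D N ≤ t → t < D (N + 1) →
      m (Function.update G (Fin.last N) t) = m G)
    (hbal : ∀ p : Fin (N + 1), (p : ℕ) < N → ∀ t t' : ℤ, D p ≤ t → t < D (p + 1) → D p ≤ t' → t' < D (p + 1) →
      slr (fun i : Fin (N + 2) => D i) m p t = slr (fun i : Fin (N + 2) => D i) m p t')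
    (p : Fin (N + 1)) (t : ℤ) (h1 : D p ≤ t) (h2 : t + 1 < D ((p : ℕ) + 1)) :
    ∃ M0 : ℕ, ∀ M' : ℕ, M0 ≤ M' →
      ∃ φ : Gam (fun i : Fin (N + 2) => D i) (fun G => m G + M') → Gam (fun i : Fin (N + 2) => D i) (fun G => m G + M') →
        Fin (N + 1) → (W (MvPolynomial (Fin N) K) N →ₗ[MvPolynomial (Fin N) K] W (MvPolynomial (Fin N) K) N),
        (∀ g g', CM (zq q) (gr _ _ g) (gr _ _ g') (φ g g')) ∧ Function.Bijective (sm (gr _ _) φ p t).mulVec := by
  classical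
  obtain ⟨M0, hM0⟩ := slice_lb q hq0 hq hN D hD hl m hlast hbal p t h1 h2
  refine ⟨M0, fun M' hM' => ?_⟩
  let Df : Fin (N + 2) → ℤ := fun i => D i
  let mm : (Fin (N + 1) → ℤ) → ℕ := fun G => m G + M'
  let r := gr Df mm
  let e : {g : Gam Df mm // r g p = t} → Vx D p := fun a => ⟨dl (r a.1) p, (h50_IF_box D p _ a.1.1.2).1⟩
  let f : {g : Gam Df mm // r g p = t + 1} → Vx D p := fun b => ⟨dl (r b.1) p, (h50_IF_box D p _ b.1.1.2).1⟩
  obtain ⟨T, hT, hb⟩ := hM0 M' hM' _ _ e f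
    (fun x => gam_fib D mm p t h1 (by omega) e (fun _ => rfl) x)
    (fun x => gam_fib D mm p (t + 1) (by omega) h2 f (fun _ => rfl) x)
  have hT' : ∀ b a, TT (zq q) (r a.1) (r b.1) p (T b a) := by
    intro b a
    have h3 : TT (zq q) (ins p t (e a).1) (ins p (t + 1) (f b).1) p (T b a) := hT b a
    have e1 : ins p t (e a).1 = r a.1 := by
      have h4 := h50_ins_dl p (r a.1)
      rw [a.2] at h4
      exact h4
    have e2 : ins p (t + 1) (f b).1 = r b.1 := by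
      have h4 := h50_ins_dl p (r b.1)
      rw [b.2] at h4
      exact h4
    rwa [e1, e2] at h3
  choose ψ hψ1 hψ2 using hT'
  refine ⟨fun g g' => if h : r g p = t ∧ r g' p = t + 1 then ψ ⟨g', h.2⟩ ⟨g, h.1⟩ else fun _ => 0, ?_, ?_⟩
  · intro g g'
    by_cases h : r g p = t ∧ r g' p = t + 1
    · simp only [dif_pos h]
      exact hψ1 ⟨g', h.2⟩ ⟨g, h.1⟩
    · simp only [dif_neg h]
      exact h32_cm_zero _ _ _
  · refine sm_bij r _ p t T ?_ ?_ ?_
    · intro b a v hv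
      exact (ltt_lts q hq0 hq D hD p t h1 h2).maps _ _ _ (hT b a) v hv
    · intro b a v hv
      have h3 : r a.1 p = t ∧ r b.1 p = t + 1 := ⟨a.2, b.2⟩
      simp only [dif_pos h3]
      exact hψ2 b a v hv
    · exact hb

end H92C
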