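import Pool.Agent.Lib.H92C.H14
import Pool.Agent.Lib.H92C.H26
import Pool.Agent.Lib.H92C.H33
import Pool.Agent.Lib.H92C.H34
import Pool.Agent.Lib.H92C.H56

/-! # H92C, chunk H57 (M): assembly of module H -/

open MvPolynomial

namespace H92C

variable {K : Type} [Field K] (q : K)

/-- PROOF. The slices (p, t) with D p ≤ t, t + 1 < D (p + 1) form a finite set; M0 := the sum (or the supremum) of the numbers of `slice_phi`.  For M ≥ M0, Γ := Gam D (m + M), r := gr: `slice_phi` for every slice, `gen_phi` (`h26_inf_K`) gives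
φ with all slices bijective; `ix_cpx` (the rows are in IF D: `h50_IF_strict`, `h50_IF_box`) gives a Cpx, `cone_thm` gives β; β 0 = Fintype.card {a : Ix r 1 // ixd r 1 a = D 0} = slr D (m + M) 0 (D 0) by `ix_cnt`. -/
theorem h57_thm (hq0 : q ≠ 0) (hq : ∀ j : ℕ, 0 < j → q ^ j ≠ 1) {N : ℕ} (hN : 1 ≤ N) (D : ℕ → ℤ)
    (hD : ∀ i ≤ N, D i < D (i + 1)) (hl : ell N ≤ D (N + 1) - D N)
    (m : (Fin (N + 1) → ℤ) → ℕ)
    (hlast : ∀ G ∈ IF (fun i : Fin (N + 2) => D i), ∀ t : ℤ, D N ≤ t → t < D (N + 1) →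
      m (Function.update G (Fin.last N) t) = m G)
    (hbal : ∀ p : Fin (N + 1), (p : ℕ) < N → ∀ t t' : ℤ, D p ≤ t → t < D (p + 1) → D p ≤ t' → t' < D (p + 1) →
      slr (fun i : Fin (N + 2) => D i) m p t = slr (fun i : Fin (N + 2) => D i) m p t') :
    ∃ M0 : ℕ, ∀ M : ℕ, M0 ≤ M → ∃ β : ℕ → ℕ, (∀ i, N + 1 < i → β i = 0) ∧
      β 0 = slr (fun i : Fin (N + 2) => D i) (fun G => m G + M) 0 (D 0) ∧ Rfl K (N + 1) D β := by
  classical
  have key : ∀ s : (Σ p : Fin (N + 1), {t : ℤ // t ∈ Finset.Ico (D p) (D ((p : ℕ) + 1) - 1)}), ∃ M0 : ℕ, ∀ M' : ℕ, M0 ≤ M' →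
      ∃ φ : Gam (fun i : Fin (N + 2) => D i) (fun G => m G + M') → Gam (fun i : Fin (N + 2) => D i) (fun G => m G + M') →
        Fin (N + 1) → (W (MvPolynomial (Fin N) K) N →ₗ[MvPolynomial (Fin N) K] W (MvPolynomial (Fin N) K) N),
        (∀ g g', CM (zq q) (gr _ _ g) (gr _ _ g') (φ g g')) ∧
          Function.Bijective (sm (gr _ _) φ s.1 s.2.1).mulVec := by
    rintro ⟨p, t, ht⟩
    have ht' := Finset.mem_Ico.1 ht
    exact slice_phi q hq0 hq hN D hD hl m hlast hbal p t ht'.1 (by have := ht'.2; omega)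
  choose M0 hM0 using key
  refine ⟨∑ s, M0 s, ?_⟩
  intro M hM
  have hM' : ∀ s, M0 s ≤ M := fun s =>
    le_trans (Finset.single_le_sum (f := M0) (fun _ _ => Nat.zero_le _) (Finset.mem_univ s)) hM
  haveI : Infinite K := h26_inf_K q hq0 hq
  obtain ⟨φ, hφ, hs⟩ := gen_phi (K := K) (zq q) D (gr (fun i : Fin (N + 2) => D i) (fun G => m G + M))
    (fun p t h1 h2 => by
      have hmem : t ∈ Finset.Ico (D p) (D ((p : ℕ) + 1) - 1) := Finset.mem_Ico.2 ⟨h1, by omega⟩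
      exact hM0 ⟨p, t, hmem⟩ M (hM' _))
  have hcpx := ix_cpx q hq0 hq hN D (gr (fun i : Fin (N + 2) => D i) (fun G => m G + M))
    (fun g => h50_IF_strict D hD _ g.1.2) (fun g p => (h50_IF_box D p _ g.1.2).2) φ hφ hs
  obtain ⟨β, h1, h2, h3⟩ := cone_thm hcpx
  refine ⟨β, h1, ?_, h3⟩
  rw [h2, ← ix_cnt, Nat.card_eq_fintype_card]

end H92C
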