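import Pool.Agent.Lib.H92C.ThmB

/-!
# H92C, module I: definitions (families of operators) and simple facts
-/

open MvPolynomial

namespace H92C

variable {K : Type} [Field K] (q : K)

/-- The box a ≤ E < b. -/
def Bx {n : ℕ} (a b E : Fin n → ℤ) : Prop := ∀ j, a j ≤ E j ∧ E j < b j

/-- A family S E E' of spaces of operators from U E to U E' (E, E' in the box), closed under sums and compositions, which contains the
letters: identity, λ_k, top ρ_k, and for the last κ: ρ_κ^μ and C_μ^κ. -/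
structure Fam {n : ℕ} (a b : Fin n → ℤ) (S : (Fin n → ℤ) → (Fin n → ℤ) → (W K n →ₗ[K] W K n) → Prop) : Prop where
  congr : ∀ E E', Bx a b E → Bx a b E' → ∀ A B, S E E' A → (∀ v ∈ U K n E, A v = B v) → S E E' B
  add : ∀ E E', Bx a b E → Bx a b E' → ∀ A B, S E E' A → S E E' B → S E E' (A + B)
  smul : ∀ E E', Bx a b E → Bx a b E' → ∀ (c : K) A, S E E' A → S E E' (c • A)
  comp : ∀ E E' E'', Bx a b E → Bx a b E' → Bx a b E'' → ∀ A B, S E E' A → S E' E'' B → S E E'' (B ∘ₗ A)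
  one : ∀ E, Bx a b E → S E E LinearMap.id
  lam : ∀ E k, Bx a b E → Bx a b (E - ep k) → S E (E - ep k) (tr n (E - ep k))
  rho : ∀ E k, Bx a b E → Bx a b (E + ep k) → S E (E + ep k) (ro q n E k)
  rhl : ∀ E (k : Fin n), (k : ℕ) + 1 = n → Bx a b E → Bx a b (E + ep k) → ∀ μ, 1 ≤ μ → μ ≤ n → S E (E + ep k) (ro q μ E k)
  cl : ∀ E (k : Fin n), (k : ℕ) + 1 = n → Bx a b E → Bx a b (E - ep k) → ∀ r, r < n → S E (E - ep k) (CC q E k r)

/-- All operators from U E to U E' belong to the family S. -/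
def Fl {n : ℕ} (S : (Fin n → ℤ) → (Fin n → ℤ) → (W K n →ₗ[K] W K n) → Prop) (E E' : Fin n → ℤ) : Prop :=
  ∀ A : W K n →ₗ[K] W K n, (∀ v ∈ U K n E, A v ∈ U K n E') → S E E' A

/-- The rank one operator v ↦ v c • u. -/
def r1 {n : ℕ} (c : Ch n) (u : W K n) : W K n →ₗ[K] W K n where
  toFun v := v c • u
  map_add' v w := by simp [add_smul]
  map_smul' r v := by simp [mul_smul]

/-- The diagonal operator of level m + 1 with the eigenvalue f F on the slice F. -/
def dg {m : ℕ} (f : (Fin m → ℤ) → K) : W K (m + 1) →ₗ[K] W K (m + 1) where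
  toFun v := fun c => f c.1 * v c
  map_add' v w := by funext c; simp [mul_add]
  map_smul' r v := by funext c; simp [mul_left_comm]

/-- The eigenvalue of the top operator ρ on the slice F. -/
def th {m : ℕ} (s : K) (F : Fin m → ℤ) : K := s⁻¹ * (zq q (∑ j, F j))⁻¹ * pp (zq q) F s

theorem i00_U {n : ℕ} (E : Fin n → ℤ) (v : W K n) : v ∈ U K n E ↔ ∀ c, ¬ gd n E c → v c = 0 := Iff.rfl

theorem i00_gd {n : ℕ} (E : Fin (n + 1) → ℤ) (c : Ch (n + 1)) : gd (n + 1) E c ↔ Il E c.1 ∧ gd n c.1 c.2 := Iff.rfl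

theorem i00_ep_self {n : ℕ} (k : Fin n) : ep k k = 1 := by simp [ep]

theorem i00_ep_ne {n : ℕ} (k j : Fin n) (h : j ≠ k) : ep k j = 0 := by simp [ep, h]

theorem i00_ep_inj {n : ℕ} (j k : Fin n) (h : ep j = ep k) : j = k := by
  by_contra hne
  have h1 := congrFun h j
  rw [i00_ep_self, i00_ep_ne k j hne] at h1
  exact one_ne_zero h1

theorem i00_inj (hq0 : q ≠ 0) (hq : ∀ j : ℕ, 0 < j → q ^ j ≠ 1) : Function.Injective (zq q) := by
  intro a b hab
  by_contra hne
  have key : ∀ a b : ℤ, zq q a = zq q b → ¬ a < b := by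
    intro a b h hlt
    obtain ⟨j, hj⟩ := Int.eq_ofNat_of_zero_le (sub_nonneg.2 hlt.le)
    have hj0 : 0 < j := by omega
    apply hq j hj0
    have h1 : q ^ (b - a) = 1 := by
      rw [zpow_sub₀ hq0]
      rw [show q ^ b = q ^ a from h.symm]
      exact div_self (zpow_ne_zero _ hq0)
    rw [hj] at h1
    simpa using h1
  rcases lt_or_gt_of_ne hne with h | h
  · exact key a b hab h
  · exact key b a hab.symm h

theorem i00_zq_ne (hq0 : q ≠ 0) (e : ℤ) : zq q e ≠ 0 := zpow_ne_zero _ hq0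

/-- The slice of a vector supported under E is supported under its row. -/
theorem i00_sl {n : ℕ} (E : Fin (n + 1) → ℤ) (F : Fin n → ℤ) (v : W K (n + 1)) (hv : v ∈ U K (n + 1) E) : sl F v ∈ U K n F := by
  intro c hc
  exact hv (F, c) (fun h => hc h.2)

/-- The slices at the rows which do not interlace are zero. -/
theorem i00_sl_zero {n : ℕ} (E : Fin (n + 1) → ℤ) (F : Fin n → ℤ) (v : W K (n + 1)) (hv : v ∈ U K (n + 1) E) (hF : ¬ Il E F) : sl F v = 0 := by
  funext c
  exact hv (F, c) (fun h => hF h.1)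

theorem i00_sg {n : ℕ} (E : Fin (n + 1) → ℤ) (F : Fin n → ℤ) (w : W K n) (hw : w ∈ U K n F) (hF : Il E F) : sg F w ∈ U K (n + 1) E := by
  intro c hc
  by_cases h : c.1 = F
  · have h2 : ¬ gd n F c.2 := fun h3 => hc ⟨h ▸ hF, h ▸ h3⟩
    show (if c.1 = F then w c.2 else 0) = 0
    rw [if_pos h]
    exact hw _ h2
  · show (if c.1 = F then w c.2 else 0) = 0
    rw [if_neg h]

theorem i00_sl_sg {n : ℕ} (F : Fin n → ℤ) (w : W K n) : sl F (sg F w) = w := by
  funext c
  show (if F = F then w c else 0) = w c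
  rw [if_pos rfl]

theorem i00_sl_sg_ne {n : ℕ} (F G : Fin n → ℤ) (h : G ≠ F) (w : W K n) : sl G (sg F w) = 0 := by
  funext c
  show (if G = F then w c else 0) = 0
  rw [if_neg h]

end H92C
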