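import Pool.Agent.Lib.H92C.I00

/-!
# H92C, chunk I01 (M, 5 small lemmas): patterns under a row, the basis of U E
-/

open MvPolynomial

namespace H92C

variable {K : Type} [Field K]

/-- There are finitely many patterns under E. Proof: induction on n. n = 0: Ch 0 = Unit. n + 1: the set is contained in the image under
(F, c') ↦ (F, c') of the finite union over F in IF E (a Finset, mem_IF) of {F} × {c' | gd n F c'}; e.g.
Set.Finite.subset (Set.Finite.biUnion (IF E).finite_toSet (fun F _ => (ih F).image (fun c' => (F, c')))). -/
theorem i01_fin : ∀ (n : ℕ) (E : Fin n → ℤ), {c : Ch n | gd n E c}.Finite := by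
  intro n
  induction n with
  | zero =>
    intro E
    haveI : Finite (Ch 0) := inferInstanceAs (Finite Unit)
    exact Set.toFinite _
  | succ n ih =>
    intro E
    refine Set.Finite.subset (Set.Finite.biUnion (IF E).finite_toSet
      (fun F _ => (ih F).image (fun c' => ((F, c') : Ch (n + 1))))) ?_
    intro c hc
    rw [Set.mem_iUnion₂]
    exact ⟨c.1, Finset.mem_coe.2 ((mem_IF E c.1).2 hc.1), c.2, hc.2, rfl⟩

/-- A row which interlaces another row is strictly increasing: F j < E (j+1) ≤ F (j+1). (n = 0 trivial, otherwise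
Fin.strictMono_iff_lt_succ; note j.castSucc.succ = j.succ.castSucc, Fin.succ_castSucc.) -/
theorem i01_sm {n : ℕ} (E : Fin (n + 1) → ℤ) (F : Fin n → ℤ) (hF : Il E F) : StrictMono F := by
  cases n with
  | zero =>
    intro i
    exact i.elim0
  | succ n =>
    rw [Fin.strictMono_iff_lt_succ]
    intro i
    have h1 := (hF i.castSucc).2
    have h2 := (hF i.succ).1
    rw [Fin.succ_castSucc] at h1
    exact h1.trans_le h2

/-- There is a pattern under every strictly increasing row. Proof: induction on n, first row F = fun j => E j.castSucc (it interlaces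
E because E j.castSucc < E j.succ, and it is strictly increasing). -/
theorem i01_ex : ∀ (n : ℕ) (E : Fin n → ℤ), StrictMono E → ∃ c : Ch n, gd n E c := by
  intro n
  induction n with
  | zero =>
    intro E _
    exact ⟨(), trivial⟩
  | succ n ih =>
    intro E hE
    obtain ⟨c, hc⟩ := ih (fun j => E j.castSucc) (fun i j hij => hE (Fin.castSucc_lt_castSucc_iff.2 hij))
    exact ⟨(fun j => E j.castSucc, c), fun j => ⟨le_rfl, hE (Fin.castSucc_lt_succ)⟩, hc⟩

/-- The basis vectors. -/
theorem i01_single {n : ℕ} (E : Fin n → ℤ) (c : Ch n) (hc : gd n E c) : (Pi.single c 1 : W K n) ∈ U K n E := by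
  intro c' hc'
  refine Pi.single_eq_of_ne ?_ _
  rintro rfl
  exact hc' hc

/-- Every vector of U E is the sum of its coordinates times the basis vectors. Proof: funext c; if gd n E c then exactly the term c is
nonzero (Finset.sum_eq_single), otherwise v c = 0 and all terms at c vanish. -/
theorem i01_sum {n : ℕ} (E : Fin n → ℤ) (v : W K n) (hv : v ∈ U K n E) :
    v = ∑ c ∈ (i01_fin n E).toFinset, v c • (Pi.single c 1 : W K n) := by
  funext c
  rw [Finset.sum_apply]
  by_cases hc : gd n E c
  · rw [Finset.sum_eq_single c]
    · rw [Pi.smul_apply, Pi.single_eq_same, smul_eq_mul, mul_one]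
    · intro c' _ hne
      rw [Pi.smul_apply, Pi.single_eq_of_ne hne.symm, smul_zero]
    · intro h
      exact absurd ((Set.Finite.mem_toFinset _).2 hc) h
  · rw [hv c hc]
    refine (Finset.sum_eq_zero fun c' hc' => ?_).symm
    rw [Pi.smul_apply, Pi.single_eq_of_ne, smul_zero]
    rintro rfl
    exact hc ((Set.Finite.mem_toFinset _).1 hc')

/-- Every vector of U E (level n + 1) is the sum of its slices. Proof: funext (G, c); if Il E G then the term F = G is v (G, c) and the
other terms vanish; otherwise v (G, c) = 0 and all terms vanish (F in IF E, G ≠ F). -/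
theorem i01_slices {n : ℕ} (E : Fin (n + 1) → ℤ) (v : W K (n + 1)) (hv : v ∈ U K (n + 1) E) :
    v = ∑ F ∈ IF E, sg F (sl F v) := by
  funext c
  rw [Finset.sum_apply]
  by_cases hc : Il E c.1
  · rw [Finset.sum_eq_single c.1]
    · show v c = if c.1 = c.1 then v (c.1, c.2) else 0
      rw [if_pos rfl]
      rfl
    · intro F _ hne
      show (if c.1 = F then v (F, c.2) else 0) = 0
      rw [if_neg hne.symm]
    · intro h
      exact absurd ((mem_IF E c.1).2 hc) h
  · rw [hv c (fun h => hc h.1)]
    refine (Finset.sum_eq_zero fun F hF => ?_).symm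
    show (if c.1 = F then v (F, c.2) else 0) = 0
    rw [if_neg]
    rintro rfl
    exact hc ((mem_IF E c.1).1 hF)

end H92C
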