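import Pool.Agent.Lib.H92C.I01

/-!
# H92C, chunk I02 (M, 6 small lemmas): the rank one trick

Notation: Fl S E E' (all operators from U E to U E' belong to S), r1 c u (the rank one operator v ↦ v c • u), see I00.
Common step (i02_red): if S E E' contains 0 and all r1 c u, c a pattern under E, u in U E', then Fl S E E'.
-/

open MvPolynomial

namespace H92C

variable {K : Type} [Field K] (q : K)

theorem i02_r1_mem {n : ℕ} {E : Fin n → ℤ} (c : Ch n) (u : W K n) (hu : u ∈ U K n E) (w : W K n) :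
    r1 c u w ∈ U K n E :=
  Submodule.smul_mem _ _ hu

theorem i02_r1_zero {n : ℕ} (c : Ch n) : r1 c (0 : W K n) = 0 :=
  LinearMap.ext fun w => smul_zero (w c)

theorem i02_r1_add {n : ℕ} (c : Ch n) (u u' : W K n) : r1 c (u + u') = r1 c u + r1 c u' :=
  LinearMap.ext fun w => smul_add (w c) u u'

theorem i02_r1_smul {n : ℕ} (c : Ch n) (t : K) (u : W K n) : r1 c (t • u) = t • r1 c u :=
  LinearMap.ext fun w => smul_comm (w c) t u

theorem i02_finite {n : ℕ} (E : Fin n → ℤ) : FiniteDimensional K (U K n E) := by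
  have h1 : ((fun c => (Pi.single c 1 : W K n)) '' {c : Ch n | gd n E c}).Finite :=
    (i01_fin n E).image _
  haveI := FiniteDimensional.span_of_finite K h1
  refine Submodule.finiteDimensional_of_le (S₂ := Submodule.span K
    ((fun c => (Pi.single c 1 : W K n)) '' {c : Ch n | gd n E c})) ?_
  intro v hv
  rw [i01_sum E v hv]
  refine Submodule.sum_mem _ fun c hc => Submodule.smul_mem _ _ (Submodule.subset_span ?_)
  exact ⟨c, (Set.Finite.mem_toFinset _).1 hc, rfl⟩

/-- The zero operator: from smul with the scalar 0 (and zero_smul). -/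
theorem i02_zero {n : ℕ} {a b : Fin n → ℤ} {S : (Fin n → ℤ) → (Fin n → ℤ) → (W K n →ₗ[K] W K n) → Prop} (hS : Fam q a b S)
    {E E' : Fin n → ℤ} (hE : Bx a b E) (hE' : Bx a b E') (A : W K n →ₗ[K] W K n) (hA : S E E' A) : S E E' 0 := by
  have h1 := hS.smul E E' hE hE' 0 A hA
  rw [zero_smul] at h1
  exact h1

/-- Reduction to rank one operators. Proof: let A map U E to U E'. Put B := ∑ c ∈ (i01_fin n E).toFinset, r1 c (A (Pi.single c 1)). By
induction on the finset (add, zero) B is in S E E' (A (Pi.single c 1) ∈ U E' by i01_single). On U E: A v = B v by i01_sum (apply A: map_sum, map_smul).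
Conclude with congr. -/
theorem i02_red {n : ℕ} {a b : Fin n → ℤ} {S : (Fin n → ℤ) → (Fin n → ℤ) → (W K n →ₗ[K] W K n) → Prop} (hS : Fam q a b S)
    {E E' : Fin n → ℤ} (hE : Bx a b E) (hE' : Bx a b E') (hz : S E E' 0)
    (h : ∀ c, gd n E c → ∀ u ∈ U K n E', S E E' (r1 c u)) : Fl S E E' := by
  intro A hA
  have hB : S E E' (∑ c ∈ (i01_fin n E).toFinset, r1 c (A (Pi.single c 1))) := by
    refine Finset.sum_induction _ (S E E') (fun a b ha hb => hS.add E E' hE hE' a b ha hb) hz ?_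
    intro c hc
    have hc' : gd n E c := (Set.Finite.mem_toFinset _).1 hc
    exact h c hc' _ (hA _ (i01_single E c hc'))
  refine hS.congr E E' hE hE' _ A hB fun v hv => ?_
  rw [LinearMap.sum_apply]
  conv_rhs => rw [i01_sum E v hv, map_sum]
  refine Finset.sum_congr rfl fun c _ => ?_
  rw [map_smul]
  rfl

/-- (a) Proof: i02_red. Given a pattern c under E0 and u in U E, use h u and Submodule.span_induction for the predicate
u' ↦ S E0 E (r1 c u'): for u' = A v: r1 c (A v) = A ∘ₗ r1 c v, r1 c v ∈ S E0 E0 by h0 (it maps U E0 to U E0 because v ∈ U E0), comp; zero: hz;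
sums: r1 c (u + u') = r1 c u + r1 c u'; scalars: r1 c (t • u) = t • r1 c u. -/
theorem i02_a {n : ℕ} {a b : Fin n → ℤ} {S : (Fin n → ℤ) → (Fin n → ℤ) → (W K n →ₗ[K] W K n) → Prop} (hS : Fam q a b S)
    {E0 E : Fin n → ℤ} (hE0 : Bx a b E0) (hE : Bx a b E) (h0 : Fl S E0 E0) (hz : S E0 E 0)
    (h : ∀ u ∈ U K n E, u ∈ Submodule.span K {u' : W K n | ∃ A, S E0 E A ∧ ∃ v ∈ U K n E0, u' = A v}) : Fl S E0 E := by
  refine i02_red q hS hE0 hE hz fun c hc u hu => ?_
  refine Submodule.span_induction (p := fun u' _ => S E0 E (r1 c u')) ?_ ?_ ?_ ?_ (h u hu)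
  · rintro u' ⟨A, hA, v, hv, rfl⟩
    have e : r1 c (A v) = A ∘ₗ r1 c v := LinearMap.ext fun w => (map_smul A (w c) v).symm
    rw [e]
    exact hS.comp E0 E0 E hE0 hE0 hE _ _ (h0 _ (fun w _ => i02_r1_mem c v hv w)) hA
  · rw [i02_r1_zero]
    exact hz
  · intro u₁ u₂ _ _ h₁ h₂
    rw [i02_r1_add]
    exact hS.add E0 E hE0 hE _ _ h₁ h₂
  · intro t u₁ _ h₁
    rw [i02_r1_smul]
    exact hS.smul E0 E hE0 hE _ _ h₁

/-- (b) Proof: i02_red. Given a pattern c under E and u in U E0. Let X := U K n E (finite dimensional: it is contained in the span of the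
finitely many Pi.single c' 1, i01_sum; or inject it into functions on the finite set of the patterns). Let Φ be the set of the linear forms on X of the form
v ↦ (B v) c0 with B as in h and c0 any chain. By h the common kernel of Φ is 0, so Φ spans the dual of X
(Subspace.dualCoannihilator_dualAnnihilator_eq or a similar lemma: for P = span Φ, P.dualCoannihilator = ⊥, so P = ⊤). Hence the form v ↦ v c on X is
a finite sum of α_i (B_i v) c_i, and on U E: r1 c u = ∑ α_i • (r1 c_i u ∘ₗ B_i). r1 c_i u ∈ S E0 E0 by h0 (it has values in multiples of u ∈ U E0). So it is in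
S E E0 by comp, smul, add, congr. (One may do a span induction on the predicate: for the form f there is an operator in S E E0 which is v ↦ f v • u on U E.) -/
theorem i02_b {n : ℕ} {a b : Fin n → ℤ} {S : (Fin n → ℤ) → (Fin n → ℤ) → (W K n →ₗ[K] W K n) → Prop} (hS : Fam q a b S)
    {E0 E : Fin n → ℤ} (hE0 : Bx a b E0) (hE : Bx a b E) (h0 : Fl S E0 E0) (hz : S E E0 0)
    (h : ∀ v ∈ U K n E, (∀ B, S E E0 B → (∀ w ∈ U K n E, B w ∈ U K n E0) → B v = 0) → v = 0) : Fl S E E0 := by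
  haveI := i02_finite (K := K) E
  -- the linear forms which occur
  let Φ : Submodule K (Module.Dual K (U K n E)) :=
    { carrier := {g | ∃ f : W K n →ₗ[K] K, f.domRestrict (U K n E) = g ∧
        ∀ u ∈ U K n E0, S E E0 (f.smulRight u)}
      zero_mem' := ⟨0, LinearMap.ext fun _ => rfl, fun u _ => by
        have e : (0 : W K n →ₗ[K] K).smulRight u = 0 := LinearMap.ext fun w => zero_smul K u
        rw [e]
        exact hz⟩
      add_mem' := by
        rintro g₁ g₂ ⟨f₁, rfl, h₁⟩ ⟨f₂, rfl, h₂⟩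
        refine ⟨f₁ + f₂, LinearMap.ext fun _ => rfl, fun u hu => ?_⟩
        have e : (f₁ + f₂).smulRight u = f₁.smulRight u + f₂.smulRight u :=
          LinearMap.ext fun w => add_smul (f₁ w) (f₂ w) u
        rw [e]
        exact hS.add E E0 hE hE0 _ _ (h₁ u hu) (h₂ u hu)
      smul_mem' := by
        rintro t g₁ ⟨f₁, rfl, h₁⟩
        refine ⟨t • f₁, LinearMap.ext fun _ => rfl, fun u hu => ?_⟩
        have e : (t • f₁).smulRight u = t • f₁.smulRight u :=
          LinearMap.ext fun w => smul_assoc t (f₁ w) u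
        rw [e]
        exact hS.smul E E0 hE hE0 _ _ (h₁ u hu) }
  have hΦ0 : Φ.dualCoannihilator = ⊥ := by
    rw [Submodule.eq_bot_iff]
    intro x hx
    rw [Submodule.mem_dualCoannihilator] at hx
    apply Subtype.ext
    refine h x.1 x.2 fun B hB hBm => ?_
    funext c0
    refine hx (((LinearMap.proj c0 : W K n →ₗ[K] K) ∘ₗ B).domRestrict (U K n E)) ?_
    refine ⟨(LinearMap.proj c0 : W K n →ₗ[K] K) ∘ₗ B, rfl, fun u hu => ?_⟩
    have e : ((LinearMap.proj c0 : W K n →ₗ[K] K) ∘ₗ B).smulRight u = r1 c0 u ∘ₗ B :=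
      LinearMap.ext fun w => rfl
    rw [e]
    exact hS.comp E E0 E0 hE hE0 hE0 _ _ hB (h0 _ (fun w _ => i02_r1_mem c0 u hu w))
  have hΦ1 : Φ = ⊤ := by
    have h1 := Subspace.dualCoannihilator_dualAnnihilator_eq (W := Φ)
    rw [hΦ0] at h1
    rw [← h1]
    exact Submodule.dualAnnihilator_bot
  refine i02_red q hS hE hE0 hz fun c hc u hu => ?_
  have h1 : (LinearMap.proj c : W K n →ₗ[K] K).domRestrict (U K n E) ∈ Φ := by
    rw [hΦ1]
    exact Submodule.mem_top
  obtain ⟨f, hf, hfu⟩ := h1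
  refine hS.congr E E0 hE hE0 _ _ (hfu u hu) fun v hv => ?_
  have h2 : f v = v c := LinearMap.congr_fun hf ⟨v, hv⟩
  show f v • u = v c • u
  rw [h2]

/-- (c) Proof: i02_a. A v ≠ 0: choose a chain c with (A v) c ≠ 0. For u in U E1: u = R (A v) with R := ((A v) c)⁻¹ • r1 c u, R ∈ S E1 E1 by h1. So
u = (R ∘ₗ A) v is in the spanning set. hz: i02_zero from hA. -/
theorem i02_c {n : ℕ} {a b : Fin n → ℤ} {S : (Fin n → ℤ) → (Fin n → ℤ) → (W K n →ₗ[K] W K n) → Prop} (hS : Fam q a b S)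
    {E0 E1 : Fin n → ℤ} (hE0 : Bx a b E0) (hE1 : Bx a b E1) (h0 : Fl S E0 E0) (h1 : Fl S E1 E1)
    (A : W K n →ₗ[K] W K n) (hA : S E0 E1 A) (v : W K n) (hv : v ∈ U K n E0) (hne : A v ≠ 0) : Fl S E0 E1 := by
  obtain ⟨c, hc⟩ : ∃ c, A v c ≠ 0 := by
    by_contra hcon
    push Not at hcon
    exact hne (funext hcon)
  refine i02_a q hS hE0 hE1 h0 (i02_zero q hS hE0 hE1 A hA) fun u hu => ?_
  refine Submodule.subset_span ⟨(((A v) c)⁻¹ • r1 c u) ∘ₗ A, ?_, v, hv, ?_⟩
  · exact hS.comp E0 E1 E1 hE0 hE1 hE1 _ _ hA (h1 _ (fun w _ =>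
      Submodule.smul_mem _ _ (i02_r1_mem c u hu w)))
  · show u = ((A v) c)⁻¹ • ((A v) c • u)
    rw [smul_smul, inv_mul_cancel₀ hc, one_smul]

/-- (d) Proof: i02_red. Let c0 be a pattern under E0 (i01_ex). For a pattern c under E and u in U E': on U E (even everywhere)
r1 c u = r1 c0 u ∘ₗ r1 c (Pi.single c0 1); the first factor is in S E0 E' (h2), the second in S E E0 (h1, i01_single). The zero operator: 0 = 0 ∘ₗ 0, h1, h2. -/
theorem i02_d {n : ℕ} {a b : Fin n → ℤ} {S : (Fin n → ℤ) → (Fin n → ℤ) → (W K n →ₗ[K] W K n) → Prop} (hS : Fam q a b S)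
    {E E0 E' : Fin n → ℤ} (hE : Bx a b E) (hE0 : Bx a b E0) (hE' : Bx a b E') (hm : StrictMono E0)
    (h1 : Fl S E E0) (h2 : Fl S E0 E') : Fl S E E' := by
  obtain ⟨c0, hc0⟩ := i01_ex n E0 hm
  have hz : S E E' 0 := by
    have h3 := hS.comp E E0 E' hE hE0 hE' 0 0 (h1 0 (fun v _ => Submodule.zero_mem _))
      (h2 0 (fun v _ => Submodule.zero_mem _))
    rw [LinearMap.zero_comp] at h3
    exact h3
  refine i02_red q hS hE hE' hz fun c hc u hu => ?_
  have e : r1 c u = r1 c0 u ∘ₗ r1 c (Pi.single c0 1) := by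
    refine LinearMap.ext fun w => ?_
    show w c • u = (w c • (Pi.single c0 1 : W K n)) c0 • u
    rw [Pi.smul_apply, Pi.single_eq_same, smul_eq_mul, mul_one]
  rw [e]
  exact hS.comp E E0 E' hE hE0 hE' _ _
    (h1 _ (fun w _ => i02_r1_mem c _ (i01_single E0 c0 hc0) w))
    (h2 _ (fun w _ => i02_r1_mem c0 u hu w))

end H92C
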