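import Pool.Agent.Lib.H92C.I01

/-!
# H92C, chunk I03 (M, 7 small lemmas): supports of the letters
-/

open MvPolynomial

namespace H92C

variable {K : Type} [Field K] (q : K)

/-- The truncation maps U E to U E'. (n = 0: everything is in U. n + 1: at a chain c which is not a pattern under E': either c.1 does not interlace E'
and the truncation is 0, or c.2 is not a pattern under c.1 and v c = 0.) -/
theorem i03_tr : ∀ (n : ℕ) (E E' : Fin n → ℤ) (v : W K n), v ∈ U K n E → tr n E' v ∈ U K n E' := by
  intro n E E' v hv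
  cases n with
  | zero =>
    intro c hc
    exact absurd trivial hc
  | succ n =>
    intro c hc
    show (if Il E' c.1 then v c else 0) = 0
    by_cases h : Il E' c.1
    · rw [if_pos h]
      exact hv c (fun h2 => hc ⟨h, h2.2⟩)
    · rw [if_neg h]

/-- The truncation is the identity on U E'. -/
theorem i03_tr_id : ∀ (n : ℕ) (E' : Fin n → ℤ) (v : W K n), v ∈ U K n E' → tr n E' v = v := by
  intro n E' v hv
  cases n with
  | zero => rfl
  | succ n =>
    funext c
    show (if Il E' c.1 then v c else 0) = v c
    by_cases h : Il E' c.1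
    · rw [if_pos h]
    · rw [if_neg h]
      exact (hv c (fun h2 => h h2.1)).symm

/-- U E is contained in Vv, and the truncation maps Vv to U E'. -/
theorem i03_Vv : ∀ (n : ℕ) (E E' : Fin n → ℤ) (v : W K n), (v ∈ U K n E → v ∈ Vv K n) ∧ (v ∈ Vv K n → tr n E' v ∈ U K n E') := by
  intro n E E' v
  cases n with
  | zero => exact ⟨fun _ => Submodule.mem_top, fun _ c hc => absurd trivial hc⟩
  | succ n =>
    refine ⟨fun hv c hc => hv c (fun h => hc h.2), fun hv c hc => ?_⟩
    show (if Il E' c.1 then v c else 0) = 0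
    by_cases h : Il E' c.1
    · rw [if_pos h]
      exact hv c (fun h2 => hc ⟨h, h2⟩)
    · rw [if_neg h]

/-- PR keeps Vv. Induction on n. Level n + 1, chain c with c.2 not a pattern under c.1: μ = n + 1: a scalar times v c = 0. Otherwise a sum of
LL • tr n c.1 (PR μ n (..) (sl (c.1 - ep b) v)) c.2; sl (c.1 - ep b) v ∈ U ≤ Vv, PR of it is in Vv (induction), the truncation is in U (c.1), so its value at c.2 is 0. -/
theorem i03_PR (μ : ℕ) : ∀ (n : ℕ) (s : K) (v : W K n), v ∈ Vv K n → PR q μ n s v ∈ Vv K n := by
  intro n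
  induction n with
  | zero =>
    intro s v hv
    exact Submodule.mem_top
  | succ n ih =>
    intro s v hv c hc
    show (if μ = n + 1 then (s⁻¹ * (zq q (∑ j, c.1 j))⁻¹ * pp (zq q) c.1 s) • v c else
        ∑ b, LL (zq q) b s (c.1 - ep b) • tr n c.1 (PR q μ n (zq q (c.1 b - 1)) (sl (c.1 - ep b) v)) c.2) = 0
    by_cases h : μ = n + 1
    · rw [if_pos h, hv c hc, smul_zero]
    · rw [if_neg h]
      refine Finset.sum_eq_zero fun b _ => ?_
      have h1 : sl (c.1 - ep b) v ∈ U K n (c.1 - ep b) := fun c' hc' => hv (c.1 - ep b, c') hc'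
      have h2 : PR q μ n (zq q (c.1 b - 1)) (sl (c.1 - ep b) v) ∈ Vv K n :=
        ih _ _ ((i03_Vv n (c.1 - ep b) c.1 _).1 h1)
      have h3 := (i03_Vv n c.1 c.1 _).2 h2
      rw [h3 c.2 hc, smul_zero]

/-- ro maps U E to U (E + ε_k). From i03_Vv and i03_PR. -/
theorem i03_ro (μ : ℕ) {n : ℕ} (E : Fin n → ℤ) (k : Fin n) (v : W K n) (hv : v ∈ U K n E) : ro q μ E k v ∈ U K n (E + ep k) := by
  exact (i03_Vv n E (E + ep k) _).2 (i03_PR q μ n _ _ ((i03_Vv n E E _).1 hv))

/-- ee keeps U E. Induction on n. Level n + 1, chain c not a pattern under E. Case μ = n: sum of kap E (c.1 + ep b) b • tr n c.1 (sl (c.1 + ep b) v) c.2. If c.1 does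
not interlace E: if c.1 + ep b does not interlace E then the slice is 0 (i00_sl_zero); if it does, then c.1 b = E b.castSucc - 1 (all the other conditions for c.1 follow from those for c.1 + ep b)
and kap E (c.1 + ep b) b contains the factor zq (c.1 b + 1) - zq (E b.castSucc) = 0. If c.1 interlaces E but c.2 is not a pattern under c.1: tr n c.1 (..) ∈ U c.1 (i03_tr, i00_sl). Case μ ≠ n: induction
(if c.1 does not interlace E the slice is 0). -/
theorem i03_ee (μ : ℕ) : ∀ (n : ℕ) (E : Fin n → ℤ) (v : W K n), v ∈ U K n E → ee q μ n E v ∈ U K n E := by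
  intro n
  induction n with
  | zero =>
    intro E v hv c hc
    exact absurd trivial hc
  | succ n ih =>
    intro E v hv c hc
    show (if μ = n then ∑ b, kap q E (c.1 + ep b) b • tr n c.1 (sl (c.1 + ep b) v) c.2 else
        ee q μ n c.1 (sl c.1 v) c.2) = 0
    by_cases h : μ = n
    · rw [if_pos h]
      refine Finset.sum_eq_zero fun b _ => ?_
      by_cases hI : Il E (c.1 + ep b)
      · by_cases hc1 : Il E c.1
        · have h1 : tr n c.1 (sl (c.1 + ep b) v) ∈ U K n c.1 :=
            i03_tr n (c.1 + ep b) c.1 _ (i00_sl E _ v hv)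
          rw [h1 c.2 (fun h2 => hc ⟨hc1, h2⟩), smul_zero]
        · have h2 : (c.1 + ep b) b = E b.castSucc := by
            by_contra hne
            apply hc1
            intro j
            have h4 := hI j
            by_cases hj : j = b
            · subst hj
              rw [Pi.add_apply, i00_ep_self] at h4 hne
              constructor <;> omega
            · rw [Pi.add_apply, i00_ep_ne b j hj, add_zero] at h4
              exact h4
          have h3 : kap q E (c.1 + ep b) b = 0 := by
            unfold kap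
            rw [Finset.prod_eq_zero (Finset.mem_univ b.castSucc) (by rw [h2, sub_self]), mul_zero, zero_div]
          rw [h3, zero_smul]
      · rw [i00_sl_zero E _ v hv hI, map_zero, Pi.zero_apply, smul_zero]
    · rw [if_neg h]
      by_cases hc1 : Il E c.1
      · exact ih c.1 _ (i00_sl E c.1 v hv) c.2 (fun h2 => hc ⟨hc1, h2⟩)
      · rw [i00_sl_zero E _ v hv hc1, map_zero, Pi.zero_apply]

/-- CC maps U E to U (E - ε_k). Induction on r from i03_tr, i03_ee (U is a submodule). -/
theorem i03_CC {n : ℕ} (E : Fin n → ℤ) (k : Fin n) : ∀ (r : ℕ) (v : W K n), v ∈ U K n E → CC q E k r v ∈ U K n (E - ep k) := by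
  intro r
  induction r with
  | zero =>
    intro v hv
    exact i03_tr n E (E - ep k) v hv
  | succ r ih =>
    intro v hv
    show CC q E k r (ee q (n - r - 1) n E v) -
      algebraMap K K q⁻¹ • ee q (n - r - 1) n (E - ep k) (CC q E k r v) ∈ U K n (E - ep k)
    exact Submodule.sub_mem _ (ih _ (i03_ee q _ n E v hv))
      (Submodule.smul_mem _ _ (i03_ee q _ n _ _ (ih v hv)))

end H92C
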