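import Mathlib

/-!
# H92C, chunk I07 (S/M, pure): an algebra of functions which separates points
-/

namespace H92C

/-- Let X be finite and P a class of functions closed under sums, scalars, products, containing 1 and separating the points of X. Then for x in X there is f in P
with f x = 1 and f y = 0 for all other y in X. Proof: for y ≠ x in X choose g_y in P with g_y x ≠ g_y y; h_y := (g_y x - g_y y)⁻¹ • (g_y + (- g_y y) • 1) is in P, h_y x = 1, h_y y = 0. Take the
product of the h_y over X.erase x (induction on the finset: product of functions in P is in P). -/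
theorem i07_sep {K : Type} [Field K] {α : Type} [DecidableEq α] (X : Finset α) (P : (α → K) → Prop) (h1 : P 1)
    (hadd : ∀ f g, P f → P g → P (f + g)) (hsmul : ∀ (c : K) f, P f → P (c • f)) (hmul : ∀ f g, P f → P g → P (f * g))
    (hsep : ∀ x ∈ X, ∀ y ∈ X, x ≠ y → ∃ f, P f ∧ f x ≠ f y) (x : α) (hx : x ∈ X) :
    ∃ f, P f ∧ f x = 1 ∧ ∀ y ∈ X, y ≠ x → f y = 0 := by
  have key : ∀ s : Finset α, s ⊆ X → x ∉ s → ∃ f, P f ∧ f x = 1 ∧ ∀ y ∈ s, f y = 0 := by
    intro s
    induction s using Finset.induction_on with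
    | empty => intro _ _; exact ⟨1, h1, rfl, fun y hy => absurd hy (Finset.notMem_empty y)⟩
    | insert y s hy ih =>
      intro hs hx'
      obtain ⟨f, hf, hfx, hfs⟩ := ih (fun a ha => hs (Finset.mem_insert_of_mem ha)) (fun h => hx' (Finset.mem_insert_of_mem h))
      have hxy : x ≠ y := fun h => hx' (h ▸ Finset.mem_insert_self _ _)
      obtain ⟨g, hg, hgxy⟩ := hsep x hx y (hs (Finset.mem_insert_self _ _)) hxy
      have hne : g x - g y ≠ 0 := sub_ne_zero.2 hgxy
      refine ⟨f * ((g x - g y)⁻¹ • (g + (-g y) • 1)), hmul _ _ hf (hsmul _ _ (hadd _ _ hg (hsmul _ _ h1))), ?_, ?_⟩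
      · simp only [Pi.mul_apply, Pi.smul_apply, Pi.add_apply, Pi.one_apply, smul_eq_mul, mul_one, hfx, one_mul]
        rw [← sub_eq_add_neg]
        exact inv_mul_cancel₀ hne
      · intro w hw
        rcases Finset.mem_insert.1 hw with h | h
        · subst h
          simp
        · simp [hfs w h]
  obtain ⟨f, hf, hfx, hfs⟩ := key (X.erase x) (Finset.erase_subset _ _) (Finset.notMem_erase x X)
  exact ⟨f, hf, hfx, fun y hy hyx => hfs y (Finset.mem_erase.2 ⟨hyx, hy⟩)⟩

end H92C
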