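import Pool.Agent.Lib.H92C.I06

/-!
# H92C, chunk I08 (M): the words λ^r ρ^r are diagonal operators
-/

open MvPolynomial

namespace H92C

variable {K : Type} [Field K] (q : K)

theorem i08_box {m : ℕ} {a b : Fin (m + 1) → ℤ} (E : Fin (m + 1) → ℤ) (hE : Bx a b E) (t : ℕ) (ht : E (Fin.last m) + t < b (Fin.last m)) :
    Bx a b (E + (t : ℤ) • ep (Fin.last m)) := by
  intro j
  have h := hE j
  by_cases hj : j = Fin.last m
  · subst hj
    rw [Pi.add_apply, Pi.smul_apply, i00_ep_self, smul_eq_mul, mul_one]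
    constructor
    · omega
    · exact ht
  · rw [Pi.add_apply, Pi.smul_apply, i00_ep_ne _ _ hj, smul_zero, add_zero]
    exact h

theorem i08_il {m : ℕ} (E : Fin (m + 1) → ℤ) (F : Fin m → ℤ) (hF : Il E F) (t : ℕ) : Il (E + (t : ℤ) • ep (Fin.last m)) F := by
  intro j
  have h := hF j
  rw [Pi.add_apply, Pi.add_apply, Pi.smul_apply, Pi.smul_apply, i00_ep_ne _ _ (Fin.castSucc_lt_last j).ne, smul_zero, add_zero]
  refine ⟨h.1, ?_⟩
  by_cases hj : j.succ = Fin.last m
  · rw [hj, i00_ep_self, smul_eq_mul, mul_one]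
    rw [hj] at h
    omega
  · rw [i00_ep_ne _ _ hj, smul_zero, add_zero]
    exact h.2

theorem i08_next {m : ℕ} (E : Fin (m + 1) → ℤ) (r : ℕ) : E + ((r + 1 : ℕ) : ℤ) • ep (Fin.last m) = E + (r : ℤ) • ep (Fin.last m) + ep (Fin.last m) := by
  push_cast
  rw [add_smul, one_smul, add_assoc]

theorem i08_last {m : ℕ} (E : Fin (m + 1) → ℤ) (r : ℕ) : (E + (r : ℤ) • ep (Fin.last m)) (Fin.last m) = E (Fin.last m) + r := by
  rw [Pi.add_apply, Pi.smul_apply, i00_ep_self, smul_eq_mul, mul_one]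

/-- The words up. Put E_r := E + r • ep last (in ℤ). Claim: for E last + r < b last: E_r is in the box and S E E_r (dg g_r), g_r F = ∏ i < r, th (zq (E last + i)) F. Induction on r: r = 0: one and congr. r + 1: rho for E_r (S E_r E_{r+1} (ro (m+1) E_r last)), comp, and
congr: for v ∈ U E: (ro (m+1) E_r last) (dg g_r v) c = (if Il E_{r+1} c.1 then th (zq (E_r last)) c.1 * (g_r c.1 * v c) else 0) (i06_ro), E_r last = E last + r. If Il E c.1 then Il E_{r+1} c.1 (only the last upper bound changes), otherwise v c = 0. -/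
theorem i08_up {m : ℕ} {a b : Fin (m + 1) → ℤ} {S : (Fin (m + 1) → ℤ) → (Fin (m + 1) → ℤ) → (W K (m + 1) →ₗ[K] W K (m + 1)) → Prop}
    (hS : Fam q a b S) (E : Fin (m + 1) → ℤ) (hE : Bx a b E) (r : ℕ) (hr : E (Fin.last m) + r < b (Fin.last m)) :
    S E (E + (r : ℤ) • ep (Fin.last m)) (dg (fun F => ∏ i ∈ Finset.range r, th q (zq q (E (Fin.last m) + i)) F)) := by
  induction r with
  | zero =>
    have h0 : E + ((0 : ℕ) : ℤ) • ep (Fin.last m) = E := by simp
    rw [h0]
    refine hS.congr E E hE hE _ _ (hS.one E hE) ?_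
    intro v _
    funext c
    show v c = (∏ i ∈ Finset.range 0, th q (zq q (E (Fin.last m) + i)) c.1) * v c
    rw [Finset.prod_range_zero, one_mul]
  | succ r ih =>
    have hr' : E (Fin.last m) + r < b (Fin.last m) := by push_cast at hr; omega
    have h1 := ih hr'
    have hEr := i08_box E hE r hr'
    have hEr1 := i08_box E hE (r + 1) hr
    rw [i08_next] at hEr1 ⊢
    have h2 := hS.rho _ (Fin.last m) hEr hEr1
    have h3 := hS.comp _ _ _ hE hEr hEr1 _ _ h1 h2
    refine hS.congr _ _ hE hEr1 _ _ h3 ?_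
    intro v hv
    funext c
    show ro q (m + 1) (E + (r : ℤ) • ep (Fin.last m)) (Fin.last m) (dg (fun F => ∏ i ∈ Finset.range r, th q (zq q (E (Fin.last m) + i)) F) v) c =
      (∏ i ∈ Finset.range (r + 1), th q (zq q (E (Fin.last m) + i)) c.1) * v c
    rw [i06_ro, i08_last]
    show (if Il (E + (r : ℤ) • ep (Fin.last m) + ep (Fin.last m)) c.1 then
      th q (zq q (E (Fin.last m) + r)) c.1 * ((∏ i ∈ Finset.range r, th q (zq q (E (Fin.last m) + i)) c.1) * v c) else 0) = _
    by_cases hIl : Il E c.1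
    · have h4 := i08_il E c.1 hIl (r + 1)
      rw [i08_next] at h4
      rw [if_pos h4, Finset.prod_range_succ]
      ring
    · have hv0 : v c = 0 := hv c (fun h => hIl h.1)
      rw [hv0]
      simp

/-- The way down. Claim: for t ≤ r: S E (E + (r - t) • ep last) (dg g) if S E (E + r • ep last) (dg g); induction on t with lam, comp, congr: for v ∈ U E the truncation to E + (r - t - 1) • ep last does not change dg g v (all the rows of
the support interlace E, hence this row). Take t = r: S E E (dg g) (E + 0 • ep last = E). -/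
theorem i08_down {m : ℕ} {a b : Fin (m + 1) → ℤ} {S : (Fin (m + 1) → ℤ) → (Fin (m + 1) → ℤ) → (W K (m + 1) →ₗ[K] W K (m + 1)) → Prop}
    (hS : Fam q a b S) (E : Fin (m + 1) → ℤ) (hE : Bx a b E) (g : (Fin m → ℤ) → K) : ∀ (r : ℕ), E (Fin.last m) + r < b (Fin.last m) →
    S E (E + (r : ℤ) • ep (Fin.last m)) (dg g) → S E E (dg g) := by
  intro r
  induction r with
  | zero =>
    intro _ h
    have h0 : E + ((0 : ℕ) : ℤ) • ep (Fin.last m) = E := by simp
    rwa [h0] at h
  | succ r ih =>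
    intro hr h
    have hr' : E (Fin.last m) + r < b (Fin.last m) := by push_cast at hr; omega
    apply ih hr'
    have hEr := i08_box E hE r hr'
    have hEr1 := i08_box E hE (r + 1) hr
    rw [i08_next] at hEr1 h
    have hsub : E + (r : ℤ) • ep (Fin.last m) + ep (Fin.last m) - ep (Fin.last m) = E + (r : ℤ) • ep (Fin.last m) := add_sub_cancel_right _ _
    have h2 := hS.lam _ (Fin.last m) hEr1 (by rw [hsub]; exact hEr)
    rw [hsub] at h2
    have h3 := hS.comp _ _ _ hE hEr1 hEr _ _ h h2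
    refine hS.congr _ _ hE hEr _ _ h3 ?_
    intro v hv
    funext c
    show (if Il (E + (r : ℤ) • ep (Fin.last m)) c.1 then g c.1 * v c else 0) = g c.1 * v c
    by_cases hIl : Il E c.1
    · rw [if_pos (i08_il E c.1 hIl r)]
    · have hv0 : v c = 0 := hv c (fun h => hIl h.1)
      rw [hv0]
      simp

/-- The words. -/
theorem i08_word {m : ℕ} {a b : Fin (m + 1) → ℤ} {S : (Fin (m + 1) → ℤ) → (Fin (m + 1) → ℤ) → (W K (m + 1) →ₗ[K] W K (m + 1)) → Prop}
    (hS : Fam q a b S) (E : Fin (m + 1) → ℤ) (hE : Bx a b E) (r : ℕ) (hr : E (Fin.last m) + r < b (Fin.last m)) :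
    S E E (dg (fun F => ∏ i ∈ Finset.range r, th q (zq q (E (Fin.last m) + i)) F)) :=
  i08_down q hS E hE _ r hr (i08_up q hS E hE r hr)

end H92C
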