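import Pool.Agent.Lib.H92C.I06

/-!
# H92C, chunk I09 (M): the eigenvalues of the words separate the rows
-/

open MvPolynomial

namespace H92C

variable {K : Type} [Field K] (q : K)

/-- Proof. All entries of F, F' are < E last (i06_last), so th (zq (E last + i)) F ≠ 0 for i ≥ 0 (i06_th_ne), and from the equality of the products for r = i and r = i + 1 (Finset.prod_range_succ, i ≤ m):
th (zq (E last + i)) F = th (zq (E last + i)) F' for i = 0..m. Cancel s⁻¹: the polynomials C (zq (∑ F))⁻¹ * ∏ j, (X - C (zq (F j))) and the same for F' (degree ≤ m, leading coefficients (zq (∑ F))⁻¹ resp. (zq (∑ F'))⁻¹) agree at the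
m + 1 different points zq (E last + i) (i00_inj), so they are equal (Polynomial.eq_of_degree_sub_lt_of_eval_finset_eq or card_roots). Compare the leading coefficients (nonzero) and cancel: ∏ (X - C (zq (F j))) = ∏ (X - C (zq (F' j))): the same roots, so
{F j} = {F' j} (i00_inj), and both are strictly increasing (i01_sm): F = F' (StrictMono.range_inj). -/
theorem i09_sep (hq0 : q ≠ 0) (hq : ∀ j : ℕ, 0 < j → q ^ j ≠ 1) {m : ℕ} (E : Fin (m + 1) → ℤ) (hE : StrictMono E)
    (F F' : Fin m → ℤ) (hF : Il E F) (hF' : Il E F')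
    (h : ∀ r, r ≤ m + 1 → ∏ i ∈ Finset.range r, th q (zq q (E (Fin.last m) + i)) F =
      ∏ i ∈ Finset.range r, th q (zq q (E (Fin.last m) + i)) F') : F = F' := by
  have hlast := (i06_last E hE F hF).2
  have hlast' := (i06_last E hE F' hF').2
  have hne : ∀ i : ℕ, th q (zq q (E (Fin.last m) + i)) F ≠ 0 := fun i =>
    i06_th_ne q hq0 hq _ F (fun j => by
      have := hlast j
      omega)
  have hth : ∀ i : ℕ, i < m + 1 → th q (zq q (E (Fin.last m) + i)) F = th q (zq q (E (Fin.last m) + i)) F' := by
    intro i hi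
    have h1 := h i hi.le
    have h2 := h (i + 1) hi
    rw [Finset.prod_range_succ, Finset.prod_range_succ, ← h1] at h2
    exact mul_left_cancel₀ (Finset.prod_ne_zero_iff.2 fun k _ => hne k) h2
  have hpoly : Polynomial.C (zq q (∑ j, F j))⁻¹ * ∏ j, (Polynomial.X - Polynomial.C (zq q (F j))) =
      Polynomial.C (zq q (∑ j, F' j))⁻¹ * ∏ j, (Polynomial.X - Polynomial.C (zq q (F' j))) := by
    have hdeg : ∀ (a : K) (G : Fin m → ℤ),
        (Polynomial.C a * ∏ j, (Polynomial.X - Polynomial.C (zq q (G j)))).degree <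
          ((Finset.range (m + 1)).card : WithBot ℕ) := by
      intro a G
      rw [Finset.card_range]
      refine lt_of_le_of_lt Polynomial.degree_le_natDegree ?_
      have h1 : (Polynomial.C a * ∏ j, (Polynomial.X - Polynomial.C (zq q (G j)))).natDegree ≤ m := by
        refine (Polynomial.natDegree_C_mul_le _ _).trans ?_
        rw [Polynomial.natDegree_prod_of_monic _ _ (fun j _ => Polynomial.monic_X_sub_C _)]
        simp
      exact_mod_cast Nat.lt_succ_of_le h1
    refine Polynomial.eq_of_degrees_lt_of_eval_index_eq (v := fun i : ℕ => zq q (E (Fin.last m) + i))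
      (Finset.range (m + 1)) ?_ (hdeg _ F) (hdeg _ F') ?_
    · intro i _ j _ hij
      have h1 := i00_inj q hq0 hq hij
      omega
    · intro i hi
      have h1 := hth i (Finset.mem_range.1 hi)
      unfold th pp at h1
      rw [mul_assoc, mul_assoc] at h1
      have h2 := mul_left_cancel₀ (inv_ne_zero (i00_zq_ne q hq0 _)) h1
      simp only [Polynomial.eval_mul, Polynomial.eval_C, Polynomial.eval_prod, Polynomial.eval_sub,
        Polynomial.eval_X]
      exact h2
  have key : ∀ G G' : Fin m → ℤ, Polynomial.C (zq q (∑ j, G j))⁻¹ * ∏ j, (Polynomial.X - Polynomial.C (zq q (G j))) =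
      Polynomial.C (zq q (∑ j, G' j))⁻¹ * ∏ j, (Polynomial.X - Polynomial.C (zq q (G' j))) →
      Set.range G ⊆ Set.range G' := by
    rintro G G' hGG _ ⟨j, rfl⟩
    have h1 := congrArg (Polynomial.eval (zq q (G j))) hGG
    simp only [Polynomial.eval_mul, Polynomial.eval_C, Polynomial.eval_prod, Polynomial.eval_sub,
      Polynomial.eval_X] at h1
    rw [Finset.prod_eq_zero (Finset.mem_univ j) (sub_self _), mul_zero] at h1
    rcases mul_eq_zero.1 h1.symm with h2 | h2
    · exact absurd h2 (inv_ne_zero (i00_zq_ne q hq0 _))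
    · obtain ⟨j', -, hj'⟩ := Finset.prod_eq_zero_iff.1 h2
      exact ⟨j', (i00_inj q hq0 hq (sub_eq_zero.1 hj')).symm⟩
  have hr : Set.range F = Set.range F' := Set.Subset.antisymm (key F F' hpoly) (key F' F hpoly.symm)
  exact (StrictMono.range_inj (i01_sm E F hF) (i01_sm E F' hF')).1 hr


end H92C
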