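import Pool.Agent.Lib.H92C.I07
import Pool.Agent.Lib.H92C.I08
import Pool.Agent.Lib.H92C.I09

/-!
# H92C, chunk I10 (M): the projectors to the slices
-/

open MvPolynomial

namespace H92C

variable {K : Type} [Field K] (q : K)

/-- Proof. i07_sep with X = IF E (mem_IF), P f :<=> S E E (dg f): 1: one and congr (dg 1 = id); sums, scalars: add, smul, congr; products: comp and congr (dg f (dg g v) = dg (f * g) v); separation: for F ≠ F' in IF E, by i09_sep (contrapositive) there is r ≤ m + 1 with different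
products; this function is in P by i08_word (E last + r ≤ E last + (m + 1) < b last). We get f with S E E (dg f), f F = 1, f = 0 on the other rows of IF E. congr: for v ∈ U E, dg f v = sg F (sl F v): at a chain c with c.1 = F: f F * v c = v c; c.1 ≠ F: if Il E c.1 then f c.1 = 0, otherwise v c = 0. -/
theorem i10_proj (hq0 : q ≠ 0) (hq : ∀ j : ℕ, 0 < j → q ^ j ≠ 1) {m : ℕ} {a b : Fin (m + 1) → ℤ}
    {S : (Fin (m + 1) → ℤ) → (Fin (m + 1) → ℤ) → (W K (m + 1) →ₗ[K] W K (m + 1)) → Prop}
    (hS : Fam q a b S) (E : Fin (m + 1) → ℤ) (hE : Bx a b E) (hm : StrictMono E) (hr : E (Fin.last m) + (m + 1) < b (Fin.last m))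
    (F : Fin m → ℤ) (hF : Il E F) : S E E (sg F ∘ₗ sl F) := by
  classical
  have h := i07_sep (K := K) (IF E) (fun f => S E E (dg f)) ?_ ?_ ?_ ?_ ?_ F ((mem_IF E F).2 hF)
  · obtain ⟨f, hf, hf1, hf0⟩ := h
    refine hS.congr E E hE hE _ _ hf ?_
    intro v hv
    funext c
    show f c.1 * v c = (if c.1 = F then v (F, c.2) else 0)
    by_cases hc : c.1 = F
    · rw [if_pos hc, hc, hf1, one_mul]
      obtain ⟨G, c'⟩ := c
      have hc' : G = F := hc
      rw [hc']
    · rw [if_neg hc]
      by_cases hIl : Il E c.1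
      · rw [hf0 c.1 ((mem_IF E c.1).2 hIl) hc, zero_mul]
      · have hv0 : v c = 0 := hv c (fun h => hIl h.1)
        rw [hv0, mul_zero]
  · refine hS.congr E E hE hE _ _ (hS.one E hE) ?_
    intro v _
    funext c
    show v c = 1 * v c
    rw [one_mul]
  · intro f g hf hg
    refine hS.congr E E hE hE _ _ (hS.add E E hE hE _ _ hf hg) ?_
    intro v _
    funext c
    show f c.1 * v c + g c.1 * v c = (f c.1 + g c.1) * v c
    rw [add_mul]
  · intro t f hf
    refine hS.congr E E hE hE _ _ (hS.smul E E hE hE t _ hf) ?_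
    intro v _
    funext c
    show t * (f c.1 * v c) = (t * f c.1) * v c
    rw [mul_assoc]
  · intro f g hf hg
    refine hS.congr E E hE hE _ _ (hS.comp E E E hE hE hE _ _ hg hf) ?_
    intro v _
    funext c
    show f c.1 * (g c.1 * v c) = (f c.1 * g c.1) * v c
    rw [mul_assoc]
  · intro x hx y hy hxy
    by_contra hcon
    push Not at hcon
    apply hxy
    apply i09_sep q hq0 hq E hm x y ((mem_IF E x).1 hx) ((mem_IF E y).1 hy)
    intro r hrm
    apply hcon (fun F => ∏ i ∈ Finset.range r, th q (zq q (E (Fin.last m) + i)) F)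
    apply i08_word q hS E hE r
    have : (r : ℤ) ≤ m + 1 := by exact_mod_cast hrm
    omega

end H92C
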