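import Pool.Agent.Lib.H92C.I06

/-!
# H92C, chunk I11 (M): compression of the operators ρ^μ
-/

open MvPolynomial

namespace H92C

variable {K : Type} [Field K] (q : K)

/-- The value of a non top operator ρ on a vector supported on one row. Proof: unfold ro, PR (μ ≠ m + 1), tr; Il (E + ep last) (F + ep j) (from Il E (F + ep j), i06_last or directly). The sum over b: sl (F + ep j - ep b) (sg F w) = 0 unless F + ep j - ep b = F, i.e. b = j (i00_ep_inj), with the value w
(i00_sl_sg). And (F + ep j) j - 1 = F j. -/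
theorem i11_value {m : ℕ} (E : Fin (m + 1) → ℤ) (hm : StrictMono E) (F : Fin m → ℤ) (j : Fin m) (hF' : Il E (F + ep j)) (μ : ℕ) (h2 : μ ≤ m)
    (w : W K m) : sl (F + ep j) (ro q μ E (Fin.last m) (sg F w)) = LL (zq q) j (zq q (E (Fin.last m))) F • ro q μ F j w := by
  have hG : Il (E + ep (Fin.last m)) (F + ep j) := (i06_last E hm (F + ep j) hF').1
  have hμ : μ ≠ m + 1 := by omega
  have h0 : sl (F + ep j) (ro q μ E (Fin.last m) (sg F w)) =
      ∑ b, LL (zq q) b (zq q (E (Fin.last m))) (F + ep j - ep b) •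
        tr m (F + ep j) (PR q μ m (zq q ((F + ep j) b - 1)) (sl (F + ep j - ep b) (sg F w))) := by
    funext c
    show (if Il (E + ep (Fin.last m)) (F + ep j) then PR q μ (m + 1) (zq q (E (Fin.last m))) (sg F w) (F + ep j, c) else 0) = _
    rw [if_pos hG]
    show (if μ = m + 1 then _ else _) = _
    rw [if_neg hμ, Finset.sum_apply]
    rfl
  rw [h0, Finset.sum_eq_single j]
  · have h1 : F + ep j - ep j = F := add_sub_cancel_right _ _
    have h2 : (F + ep j) j - 1 = F j := by
      rw [Pi.add_apply, i00_ep_self]; ring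
    rw [h1, h2, i00_sl_sg]
    rfl
  · intro b _ hb
    rw [i00_sl_sg_ne, map_zero, map_zero, smul_zero]
    intro h
    apply hb
    apply i00_ep_inj
    rw [sub_eq_iff_eq_add] at h
    exact (add_left_cancel h).symm
  · intro h
    exact absurd (Finset.mem_univ _) h

/-- Compression. Proof: the word A := (sg (F + ep j) ∘ₗ sl (F + ep j)) ∘ₗ tr (m+1) E ∘ₗ ro μ E last ∘ₗ (sg F ∘ₗ sl F) is in S E E: hp for F and F + ep j, rhl (k = last, μ ≤ m + 1) from E to E + ep last, lam from E + ep last to E = (E + ep last) - ep last (rewrite with add_sub_cancel_right), comp. For v ∈ U E: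
A v = sg (F + ep j) (sl (F + ep j) (ro μ E last (sg F (sl F v)))) (the truncation to E does not change the slice at F + ep j, as Il E (F + ep j)) = LL • sg (F + ep j) (ro μ F j (sl F v)) by i11_value. LL ≠ 0: its factors are (w - zq (F c)) / (zq (F j) - zq (F c)), c ≠ j, w = zq (E last), F c < E last (i06_last), F strictly increasing (i01_sm), i00_inj. Multiply by LL⁻¹ (smul) and congr. -/
theorem i11_rho (hq0 : q ≠ 0) (hq : ∀ j : ℕ, 0 < j → q ^ j ≠ 1) {m : ℕ} {a b : Fin (m + 1) → ℤ}
    {S : (Fin (m + 1) → ℤ) → (Fin (m + 1) → ℤ) → (W K (m + 1) →ₗ[K] W K (m + 1)) → Prop}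
    (hS : Fam q a b S) (E : Fin (m + 1) → ℤ) (hE : Bx a b E) (hE1 : Bx a b (E + ep (Fin.last m))) (hm : StrictMono E)
    (hp : ∀ F, Il E F → S E E (sg F ∘ₗ sl F)) (F : Fin m → ℤ) (j : Fin m) (hF : Il E F) (hF' : Il E (F + ep j))
    (μ : ℕ) (h1 : 1 ≤ μ) (h2 : μ ≤ m) : S E E (sg (F + ep j) ∘ₗ ro q μ F j ∘ₗ sl F) := by
  have hsub : E + ep (Fin.last m) - ep (Fin.last m) = E := add_sub_cancel_right _ _
  have hlam : S (E + ep (Fin.last m)) E (tr (m + 1) E) := by
    have h := hS.lam (E + ep (Fin.last m)) (Fin.last m) hE1 (by rw [hsub]; exact hE)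
    rwa [hsub] at h
  have hro := hS.rhl E (Fin.last m) (by simp) hE hE1 μ h1 (by omega)
  have hw := hS.comp E E E hE hE hE _ _
    (hS.comp E (E + ep (Fin.last m)) E hE hE1 hE _ _ (hS.comp E E (E + ep (Fin.last m)) hE hE hE1 _ _ (hp F hF) hro) hlam)
    (hp (F + ep j) hF')
  have hLL : LL (zq q) j (zq q (E (Fin.last m))) F ≠ 0 := by
    unfold LL
    rw [Finset.prod_ne_zero_iff]
    intro c hc
    have hcj : c ≠ j := (Finset.mem_erase.1 hc).1
    have hFm : StrictMono F := i01_sm E F hF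
    apply div_ne_zero
    · rw [sub_ne_zero]
      intro h
      have h3 := (i06_last E hm F hF).2 c
      exact h3.ne (i00_inj q hq0 hq h).symm
    · rw [sub_ne_zero]
      intro h
      exact hcj (hFm.injective (i00_inj q hq0 hq h)).symm
  have hw2 := hS.smul E E hE hE (LL (zq q) j (zq q (E (Fin.last m))) F)⁻¹ _ hw
  refine hS.congr E E hE hE _ _ hw2 ?_
  intro v _
  have htr : ∀ w : W K (m + 1), sl (F + ep j) (tr (m + 1) E w) = sl (F + ep j) w := by
    intro w
    funext c
    show (if Il E (F + ep j) then w (F + ep j, c) else 0) = w (F + ep j, c)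
    rw [if_pos hF']
  show (LL (zq q) j (zq q (E (Fin.last m))) F)⁻¹ • sg (F + ep j) (sl (F + ep j) (tr (m + 1) E (ro q μ E (Fin.last m) (sg F (sl F v))))) =
    sg (F + ep j) (ro q μ F j (sl F v))
  rw [htr, i11_value q E hm F j hF' μ h2, map_smul, smul_smul, inv_mul_cancel₀ hLL, one_smul]

end H92C
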