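import Pool.Agent.Lib.H92C.ThmH

/-!
# H92C, module N: definitions of the construction (sections N.0, N.1 of PROOF.md)

The windows are numbered from the left: window `w` (`w < n`) is the window `V_{1,j}, V_{2,j}` of PROOF.md with `j = n - 1 - w`.
Index `O w` is the last index before the window `w`; the window `w` has the indices `O w + 1, .., O w + q w`, `O (w + 1) = O w + q w`.
First run: `O w + k` with `1 ≤ k`, `k + g w < q w`; second run: `O w + k` with `q w ≤ k + g w`, `k ≤ q w`.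
All residues are residues modulo `l ^ K` of `D i - d 0`.
-/

open Finset

namespace H92C
namespace NM

/-- The parameters: `c j = d j - d 0`, `L = l ^ K0`, `E_j = E0 + j`. -/
structure Par where
  /-- the prime -/
  l : ℕ
  /-- the number of windows -/
  n : ℕ
  /-- the differences -/
  c : ℕ → ℕ
  /-- `L = l ^ K0` -/
  K0 : ℕ
  /-- the smallest exponent -/
  E0 : ℕ
  hl : l.Prime
  hn : 2 ≤ n
  c0 : c 0 = 0
  cs : ∀ i < n, c i < c (i + 1)
  hL : c n + n < l ^ K0
  hE : K0 < E0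
  hLE : l ^ K0 + n < l ^ E0

namespace Par

variable (P : Par)

/-- The exponent of the window w. -/
def e (w : ℕ) : ℕ := P.E0 + (P.n - 1 - w)

/-- The size of the window w. -/
def q (w : ℕ) : ℕ := P.l ^ P.e w

/-- The second run of the window w has g w + 1 elements. -/
def g (w : ℕ) : ℕ := P.c (P.n - 1 - w)

/-- The last index before the window w. -/
def O : ℕ → ℕ
  | 0 => P.n
  | w + 1 => O w + P.q w

/-- The number N of the theorem. -/
def N : ℕ := P.O P.n - 1

/-- The residues, using the first w windows only. -/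
def Xa : ℕ → ℕ → ℕ
  | 0, i => P.c i
  | w + 1, i => if i ≤ P.O w then Xa w i else P.q w + (P.g w + (i - P.O w)) % P.q w

/-- The residue of D i - d 0. -/
def X (i : ℕ) : ℕ := P.Xa P.n i

/-- The pages, using the first w windows only. -/
def pa : ℕ → ℕ → ℕ
  | 0, _ => 0
  | w + 1, i => if i ≤ P.O w then pa w i else if i - P.O w + P.g w < P.q w then 2 * w + 1 else 2 * w + 2

/-- The page of the index i: D i = d 0 + X i + pg i * (Y * l ^ K). -/
def pg (i : ℕ) : ℕ := P.pa P.n i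

/-- The new residues at the indices O w. -/
def zt : ℕ → ℕ
  | 0 => P.l ^ P.E0
  | 1 => 2 * P.l ^ P.E0 - 1
  | w + 2 => P.l ^ P.K0 + (w + 1)

/-- The modified residues, using the first w windows only. -/
def xa : ℕ → ℕ → ℕ
  | 0, i => P.c i
  | w + 1, i => if i < P.O w then xa w i else if i = P.O w then P.zt w else P.q w + (P.g w + (i - P.O w)) % P.q w

/-- The residues of the chosen points: x i for i < N. -/
def x (i : ℕ) : ℕ := P.xa P.n i

/-- The sequence D. -/
def D (d0 : ℤ) (K Y : ℕ) (i : ℕ) : ℤ := d0 + P.X i + P.pg i * (Y * (P.l : ℤ) ^ K)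

/-- The chosen points. -/
def p (d0 : ℤ) (K Y : ℕ) (i : ℕ) : ℤ :=
  if P.x i = P.X i then P.D d0 K Y i else d0 + P.x i + (P.pg i * Y + 1) * (P.l : ℤ) ^ K

end Par

/-- The number of the ordered pairs of indices (equal ones included) with congruent values modulo M. -/
def prs {N : ℕ} (M : ℕ) (y : Fin N → ℤ) : ℕ :=
  (univ.filter fun ij : Fin N × Fin N => (M : ℤ) ∣ y ij.2 - y ij.1).card

/-- The number of the indices with value c modulo M. -/
def cnt {N : ℕ} (M : ℕ) (y : Fin N → ℤ) (c : ℕ) : ℕ :=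
  (univ.filter fun i : Fin N => (M : ℤ) ∣ y i - c).card

/-- The family x 0, .., x (N - 1) is balanced modulo all powers of l. -/
def Bal (l N : ℕ) (x : ℕ → ℕ) : Prop :=
  ∀ r, 1 ≤ r → ∃ a, ∀ c < l ^ r, a ≤ ((range N).filter fun i => x i % l ^ r = c).card ∧
    ((range N).filter fun i => x i % l ^ r = c).card ≤ a + 1

/-- The Vandermonde product. -/
def vd {N : ℕ} (S : Fin N → ℤ) : ℤ := ∏ i, ∏ j ∈ Ioi i, (S j - S i)

/-- The superfactorial 0! 1! ⋯ (N-1)!. -/
def sf (N : ℕ) : ℕ := ∏ k ∈ range N, k.factorial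

/-- The box of the first N' + 1 blocks. -/
noncomputable def Bo (D : ℕ → ℤ) (N' : ℕ) : Finset (Fin (N' + 1) → ℤ) :=
  Fintype.piFinset fun j => Ico (D j) (D ((j : ℕ) + 1))

/-- The number uw(G - G_i): the sum over t in the last block of u(G - G_i + t). -/
noncomputable def uw (D : ℕ → ℤ) (N' : ℕ) (G : Fin (N' + 1) → ℤ) (i : Fin (N' + 1)) : ℤ :=
  ∑ t ∈ Ico (D (N' + 1)) (D (N' + 2)), (uu (Fin.snoc (α := fun _ => ℤ) (fun j => G (i.succAbove j)) t) : ℤ)

/-- The vector v_G. -/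
noncomputable def vec (D : ℕ → ℤ) (N' : ℕ) (G : Fin (N' + 1) → ℤ) (i : Fin (N' + 1)) (t : ℤ) : ℤ :=
  if G i = t then uw D N' G i else 0

/-- The space KK of PROOF.md N.5 (only the values y i t with t in the block i matter). -/
def KK (D : ℕ → ℤ) (N' : ℕ) (y : Fin (N' + 1) → ℤ → ℤ) : Prop :=
  ∀ p : Polynomial ℚ, p.natDegree ≤ N' → ∑ t ∈ Ico (D (N' + 1)) (D (N' + 2)), p.eval (t : ℚ) = 0 →
    ∑ i : Fin (N' + 1), (-1 : ℚ) ^ (i : ℕ) * ∑ t ∈ Ico (D i) (D ((i : ℕ) + 1)), (y i t : ℚ) * p.eval (t : ℚ) = 0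

/-- A multiple, prime to l, of y is an integral combination of the vectors v_G. -/
def Sp (l : ℕ) (D : ℕ → ℤ) (N' : ℕ) (y : Fin (N' + 1) → ℤ → ℤ) : Prop :=
  ∃ c : ℤ, ¬ (l : ℤ) ∣ c ∧ ∃ mm : (Fin (N' + 1) → ℤ) → ℤ, ∀ i : Fin (N' + 1), ∀ t ∈ Ico (D i) (D ((i : ℕ) + 1)),
    c * y i t = ∑ G ∈ Bo D N', mm G * vec D N' G i t

/-- The product of the distances of D i to the other elements. -/
def dpr (D : ℕ → ℤ) (N i : ℕ) : ℕ := ∏ j ∈ (range (N + 2)).erase i, (D i - D j).natAbs

end NM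
end H92C
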