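import Pool.Agent.Lib.H92C.N00

/-! # H92C, module N, chunk N01: the indices `O w` -/

open Finset

namespace H92C
namespace NM
namespace Par

variable (P : Par)

/-- Proof. `P.l` is positive. -/
theorem q_pos (w : ℕ) : 0 < P.q w := by
  exact pow_pos P.hl.pos _

/-- Proof. `le_induction`, `O (w + 1) = O w + q w` (by `rfl`), `q_pos`. -/
theorem O_lt {w w' : ℕ} (h : w < w') : P.O w < P.O w' := by
  have hm : StrictMono P.O := strictMono_nat_of_lt_succ fun k => by
    show P.O k < P.O k + P.q k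
    have := P.q_pos k
    omega
  exact hm h

/-- Proof. From `O_lt`. -/
theorem O_mono {w w' : ℕ} (h : w ≤ w') : P.O w ≤ P.O w' := by
  rcases h.lt_or_eq with h | h
  · exact (P.O_lt h).le
  · rw [h]

/-- Proof. `O 0 = n`. -/
theorem n_le_O (w : ℕ) : P.n ≤ P.O w := by
  have h : P.O 0 ≤ P.O w := P.O_mono (Nat.zero_le w)
  exact h

/-- Proof. `N = O n - 1` and `O n > 0`. -/
theorem N_succ : P.N + 1 = P.O P.n := by
  have h := P.n_le_O P.n
  have h2 := P.hn
  unfold Par.N
  omega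

/-- Proof. `n - 1 - (n - 1) = 0` and `c 0 = 0`. -/
theorem g_last : P.g (P.n - 1) = 0 := by
  unfold Par.g
  rw [Nat.sub_self, P.c0]

/-- Proof. `e (n - 1) = E0`. -/
theorem q_last : P.q (P.n - 1) = P.l ^ P.E0 := by
  unfold Par.q Par.e
  rw [Nat.sub_self, add_zero]

/-- The index N is the last element of the first run of the last window. Proof. `N + 1 = O n = O (n - 1) + q (n - 1)` (`n - 1 + 1 = n`). -/
theorem N_eq : P.N = P.O (P.n - 1) + (P.l ^ P.E0 - 1) := by
  have h1 := P.N_succ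
  have h2 : P.O P.n = P.O (P.n - 1) + P.q (P.n - 1) := by
    have h3 : P.n = P.n - 1 + 1 := by have := P.hn; omega
    conv_lhs => rw [h3]
    rfl
  have h4 := P.q_last
  have h5 := P.q_pos (P.n - 1)
  omega

/-- Proof. `N + 1 = O n ≥ O 1 = n + q 0 ≥ n + 2` (`q 0 = l ^ e 0`, `e 0 ≥ 1` because `K0 < E0`, so `q 0 ≥ 2`). -/
theorem n_lt_N : P.n < P.N := by
  have h1 := P.N_succ
  have h2 : P.O 1 ≤ P.O P.n := P.O_mono (by have := P.hn; omega)
  have h3 : P.O 1 = P.n + P.q 0 := rfl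
  have h4 : 2 ≤ P.q 0 := by
    unfold Par.q
    have h5 : 1 ≤ P.e 0 := by
      unfold Par.e
      have := P.hE
      omega
    calc 2 ≤ P.l := P.hl.two_le
      _ = P.l ^ 1 := (pow_one _).symm
      _ ≤ P.l ^ P.e 0 := Nat.pow_le_pow_right P.hl.pos h5
  omega

/-- Proof. Induction on `m ≤ n`: every `i ≤ O m` is `≤ n` or of the form `O w + k` with `w < m`, `1 ≤ k ≤ q w`. Then `m = n`, `N + 1 = O n`. -/
theorem cover (i : ℕ) (h : i ≤ P.N + 1) :
    i ≤ P.n ∨ ∃ w < P.n, ∃ k, 1 ≤ k ∧ k ≤ P.q w ∧ i = P.O w + k := by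
  have key : ∀ m, m ≤ P.n → ∀ i ≤ P.O m, i ≤ P.n ∨ ∃ w < m, ∃ k, 1 ≤ k ∧ k ≤ P.q w ∧ i = P.O w + k := by
    intro m
    induction m with
    | zero => intro _ i hi; exact Or.inl hi
    | succ m ih =>
      intro hm i hi
      by_cases h1 : i ≤ P.O m
      · rcases ih (by omega) i h1 with h2 | ⟨w, hw, k, hk⟩
        · exact Or.inl h2
        · exact Or.inr ⟨w, by omega, k, hk⟩
      · have h2 : P.O (m + 1) = P.O m + P.q m := rfl
        exact Or.inr ⟨m, by omega, i - P.O m, by omega, by omega, by omega⟩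
  exact key P.n le_rfl i (by rw [← P.N_succ]; exact h)

/-- Proof. Induction on `m ≤ n`: every `i < O m` is `< n` or of the form `O w + k` with `w < m`, `k < q w`. -/
theorem cover' (i : ℕ) (h : i ≤ P.N) : i < P.n ∨ ∃ w < P.n, ∃ k < P.q w, i = P.O w + k := by
  have key : ∀ m, m ≤ P.n → ∀ i < P.O m, i < P.n ∨ ∃ w < m, ∃ k < P.q w, i = P.O w + k := by
    intro m
    induction m with
    | zero => intro _ i hi; exact Or.inl hi
    | succ m ih =>
      intro hm i hi
      by_cases h1 : i < P.O m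
      · rcases ih (by omega) i h1 with h2 | ⟨w, hw, k, hk⟩
        · exact Or.inl h2
        · exact Or.inr ⟨w, by omega, k, hk⟩
      · have h2 : P.O (m + 1) = P.O m + P.q m := rfl
        exact Or.inr ⟨m, by omega, i - P.O m, by omega, by omega⟩
  exact key P.n le_rfl i (by rw [← P.N_succ]; omega)

end Par
end NM
end H92C
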