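import Pool.Agent.Lib.H92C.N01

/-! # H92C, module N, chunk N02: sizes -/

open Finset

namespace H92C
namespace NM
namespace Par

variable (P : Par)

/-- Proof. Induction on `j` from `cs`. -/
theorem c_lt {i j : ℕ} (h : i < j) (hj : j ≤ P.n) : P.c i < P.c j := by
  obtain ⟨d, rfl⟩ := Nat.exists_eq_add_of_lt h
  clear h
  induction d with
  | zero => exact P.cs i (by omega)
  | succ d ih => exact (ih (by omega)).trans (P.cs _ (by omega))

/-- Proof. `c i ≤ c n` by `c_lt`, and `hL`. -/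
theorem c_L {i : ℕ} (h : i ≤ P.n) : P.c i + P.n < P.l ^ P.K0 := by
  have h1 := P.hL
  rcases Nat.lt_or_ge i P.n with h2 | h2
  · have := P.c_lt h2 le_rfl
    omega
  · have : i = P.n := by omega
    rw [this]
    exact h1

/-- Proof. `c_L`: `n - 1 - w ≤ n`. -/
theorem g_L (w : ℕ) : P.g w + P.n < P.l ^ P.K0 := by
  exact P.c_L (by omega)

/-- Proof. `E0 ≤ e w`. -/
theorem E0_le_q (w : ℕ) : P.l ^ P.E0 ≤ P.q w := by
  exact Nat.pow_le_pow_right P.hl.pos (Nat.le_add_right _ _)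

/-- Proof. `hLE` and `E0_le_q`. -/
theorem L_lt_q (w : ℕ) : P.l ^ P.K0 + P.n < P.q w := by
  have := P.E0_le_q w
  have := P.hLE
  omega

/-- Proof. `g_L` and `L_lt_q`. -/
theorem g_lt_q (w : ℕ) : P.g w + 1 < P.q w := by
  have := P.g_L w
  have := P.L_lt_q w
  have := P.hn
  omega

/-- Proof. `e w = e w' + (w' - w) ≥ e w' + 1`, `l ≥ 2`. -/
theorem q_dbl {w w' : ℕ} (h : w < w') (h' : w' < P.n) : 2 * P.q w' ≤ P.q w := by
  have h1 : P.e w' + 1 ≤ P.e w := by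
    unfold e
    omega
  calc 2 * P.q w' ≤ P.l * P.q w' := Nat.mul_le_mul_right _ P.hl.two_le
    _ = P.l ^ (P.e w' + 1) := by unfold q; rw [pow_succ, mul_comm]
    _ ≤ P.q w := Nat.pow_le_pow_right P.hl.pos h1

/-- Proof. `e w + 1 ≤ E0 + n ≤ K` (`n ≥ 1`) and `2 ≤ l`. -/
theorem q_le (w : ℕ) {K : ℕ} (hK : P.E0 + P.n ≤ K) : 2 * P.q w ≤ P.l ^ K := by
  have h1 : P.e w + 1 ≤ K := by
    have := P.hn
    unfold e
    omega
  calc 2 * P.q w ≤ P.l * P.q w := Nat.mul_le_mul_right _ P.hl.two_le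
    _ = P.l ^ (P.e w + 1) := by unfold q; rw [pow_succ, mul_comm]
    _ ≤ P.l ^ K := Nat.pow_le_pow_right P.hl.pos h1

/-- Proof. `e w + 1 ≤ E0 + n ≤ K`. -/
theorem q_dvd (w : ℕ) {K : ℕ} (hK : P.E0 + P.n ≤ K) : P.l ^ (P.e w + 1) ∣ P.l ^ K := by
  have h1 : P.e w + 1 ≤ K := by
    have := P.hn
    unfold e
    omega
  exact pow_dvd_pow _ h1

/-- Proof. `L + n < l ^ E0 ≤ q 0 ≤ l ^ K`. -/
theorem L_le {K : ℕ} (hK : P.E0 + P.n ≤ K) : P.l ^ P.K0 + P.n < P.l ^ K := by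
  have h1 : P.l ^ P.E0 ≤ P.l ^ K := Nat.pow_le_pow_right P.hl.pos (by omega)
  have := P.hLE
  omega

/-- Proof. `w = 0`: `l ^ E0 < 2 l ^ E0 ≤ 2 q 0`; `w = 1` the same; `w + 2 ≤ n - 1`: `L + (w + 1) < L + n < l ^ K`. Use `q_le`, `E0_le_q`. -/
theorem zt_lt {w : ℕ} (hw : w < P.n) {K : ℕ} (hK : P.E0 + P.n ≤ K) : P.zt w < P.l ^ K := by
  have h0 := P.q_le 0 hK
  have h1 := P.E0_le_q 0
  have h2 : 0 < P.l ^ P.E0 := Nat.pow_pos P.hl.pos
  have h3 := P.L_le hK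
  match w, hw with
  | 0, _ =>
    show P.l ^ P.E0 < _
    omega
  | 1, _ =>
    show 2 * P.l ^ P.E0 - 1 < _
    omega
  | w + 2, hw =>
    show P.l ^ P.K0 + (w + 1) < _
    omega

end Par
end NM
end H92C
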