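import Pool.Agent.Lib.H92C.N02

/-! # H92C, module N, chunk N03: the values of X, pg, x -/

open Finset

namespace H92C
namespace NM
namespace Par

variable (P : Par)

theorem n03_Xa (m i : ℕ) (hi : i ≤ P.O m) : ∀ m', m ≤ m' → P.Xa m' i = P.Xa m i := by
  intro m' h
  induction m', h using Nat.le_induction with
  | base => rfl
  | succ m' hm ih =>
    have h1 : P.Xa (m' + 1) i = P.Xa m' i := if_pos (hi.trans (P.O_mono hm))
    rw [h1, ih]

theorem n03_pa (m i : ℕ) (hi : i ≤ P.O m) : ∀ m', m ≤ m' → P.pa m' i = P.pa m i := by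
  intro m' h
  induction m', h using Nat.le_induction with
  | base => rfl
  | succ m' hm ih =>
    have h1 : P.pa (m' + 1) i = P.pa m' i := if_pos (hi.trans (P.O_mono hm))
    rw [h1, ih]

theorem n03_xa (m i : ℕ) (hi : i < P.O m) : ∀ m', m ≤ m' → P.xa m' i = P.xa m i := by
  intro m' h
  induction m', h using Nat.le_induction with
  | base => rfl
  | succ m' hm ih =>
    have h1 : P.xa (m' + 1) i = P.xa m' i := if_pos (lt_of_lt_of_le hi (P.O_mono hm))
    rw [h1, ih]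

/-- Proof. Induction on `m`: `Xa m i = c i` for `i ≤ n` (`n ≤ O w` by `n_le_O`, so always the first branch). -/
theorem X_le {i : ℕ} (h : i ≤ P.n) : P.X i = P.c i := by
  exact P.n03_Xa 0 i h P.n (Nat.zero_le _)

/-- Proof. For `m ≥ w + 1` the value `Xa m (O w + k)` is constant (`O w + k ≤ O (w + 1) ≤ O m'` for `m' ≥ w + 1` by `O_mono`, first branch), and
`Xa (w + 1) (O w + k)` is the second branch, `O w + k - O w = k`. -/
theorem X_win {w k : ℕ} (hw : w < P.n) (h1 : 1 ≤ k) (h2 : k ≤ P.q w) :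
    P.X (P.O w + k) = P.q w + (P.g w + k) % P.q w := by
  have h3 : P.O (w + 1) = P.O w + P.q w := rfl
  have h4 : P.X (P.O w + k) = P.Xa (w + 1) (P.O w + k) := P.n03_Xa (w + 1) (P.O w + k) (by omega) P.n hw
  have h5 : P.Xa (w + 1) (P.O w + k) = P.q w + (P.g w + (P.O w + k - P.O w)) % P.q w := if_neg (by omega)
  rw [h4, h5, Nat.add_sub_cancel_left]

/-- First run. Proof. `X_win`, `Nat.mod_eq_of_lt`. -/
theorem X_win1 {w k : ℕ} (hw : w < P.n) (h1 : 1 ≤ k) (h2 : k + P.g w < P.q w) :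
    P.X (P.O w + k) = P.q w + P.g w + k := by
  rw [P.X_win hw h1 (by omega), Nat.mod_eq_of_lt (by omega)]
  omega

/-- Second run. Proof. `X_win` with `k = q w - g w + j`, `g w + k = q w + j`, `j ≤ g w < q w` (`g_lt_q`). -/
theorem X_win2 {w j : ℕ} (hw : w < P.n) (h2 : j ≤ P.g w) :
    P.X (P.O w + (P.q w - P.g w + j)) = P.q w + j := by
  have h3 := P.g_lt_q w
  rw [P.X_win hw (by omega) (by omega)]
  have h4 : P.g w + (P.q w - P.g w + j) = P.q w + j := by omega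
  rw [h4, Nat.add_mod_left, Nat.mod_eq_of_lt (by omega)]

/-- Proof. As `X_le`. -/
theorem pg_le {i : ℕ} (h : i ≤ P.n) : P.pg i = 0 := by
  exact P.n03_pa 0 i h P.n (Nat.zero_le _)

/-- Proof. As `X_win`. -/
theorem pg_win1 {w k : ℕ} (hw : w < P.n) (h1 : 1 ≤ k) (h2 : k + P.g w < P.q w) :
    P.pg (P.O w + k) = 2 * w + 1 := by
  have h3 : P.O (w + 1) = P.O w + P.q w := rfl
  have h4 : P.pg (P.O w + k) = P.pa (w + 1) (P.O w + k) := P.n03_pa (w + 1) (P.O w + k) (by omega) P.n hw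
  have h5 : P.pa (w + 1) (P.O w + k) =
      if P.O w + k - P.O w + P.g w < P.q w then 2 * w + 1 else 2 * w + 2 := if_neg (by omega)
  rw [h4, h5, if_pos (by omega)]

/-- Proof. As `X_win`. -/
theorem pg_win2 {w k : ℕ} (hw : w < P.n) (h1 : 1 ≤ k) (h2 : P.q w ≤ k + P.g w) (h3 : k ≤ P.q w) :
    P.pg (P.O w + k) = 2 * w + 2 := by
  have h3' : P.O (w + 1) = P.O w + P.q w := rfl
  have h4 : P.pg (P.O w + k) = P.pa (w + 1) (P.O w + k) := P.n03_pa (w + 1) (P.O w + k) (by omega) P.n hw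
  have h5 : P.pa (w + 1) (P.O w + k) =
      if P.O w + k - P.O w + P.g w < P.q w then 2 * w + 1 else 2 * w + 2 := if_neg (by omega)
  rw [h4, h5, if_neg (by omega)]

/-- Proof. `w = 0`: `O 0 = n`. `w = w' + 1`: `O w = O w' + q w'`, `pg_win2`. -/
theorem pg_O {w : ℕ} (hw : w ≤ P.n) : P.pg (P.O w) = 2 * w := by
  cases w with
  | zero => exact P.pg_le le_rfl
  | succ w =>
    have h := P.q_pos w
    have h3 : P.O (w + 1) = P.O w + P.q w := rfl
    rw [h3, P.pg_win2 (by omega) (by omega) (by omega) le_rfl]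
    ring

/-- Proof. As `X_le`. -/
theorem x_lt {i : ℕ} (h : i < P.n) : P.x i = P.c i := by
  exact P.n03_xa 0 i h P.n (Nat.zero_le _)

/-- Proof. As `X_win`: for `m ≥ w + 1`, `O w < O (w + 1) ≤ O m'`. -/
theorem x_O {w : ℕ} (hw : w < P.n) : P.x (P.O w) = P.zt w := by
  have h4 : P.x (P.O w) = P.xa (w + 1) (P.O w) := P.n03_xa (w + 1) (P.O w) (P.O_lt (Nat.lt_succ_self w)) P.n hw
  have h5 : P.xa (w + 1) (P.O w) =
      if P.O w = P.O w then P.zt w else P.q w + (P.g w + (P.O w - P.O w)) % P.q w := if_neg (by omega)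
  rw [h4, h5, if_pos rfl]

/-- Proof. As `X_win`: `O w + k < O (w + 1) ≤ O m'` for `m' ≥ w + 1`. -/
theorem x_win {w k : ℕ} (hw : w < P.n) (h1 : 1 ≤ k) (h2 : k < P.q w) :
    P.x (P.O w + k) = P.q w + (P.g w + k) % P.q w := by
  have h3 : P.O (w + 1) = P.O w + P.q w := rfl
  have h4 : P.x (P.O w + k) = P.xa (w + 1) (P.O w + k) := P.n03_xa (w + 1) (P.O w + k) (by omega) P.n hw
  have h5 : P.xa (w + 1) (P.O w + k) =
      if P.O w + k = P.O w then P.zt w else P.q w + (P.g w + (P.O w + k - P.O w)) % P.q w := if_neg (by omega)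
  rw [h4, h5, if_neg (by omega), Nat.add_sub_cancel_left]

/-- Proof. `cover'`: `i < n`: `x_lt`, `X_le`; `i = O w + k`: `k = 0` or `x_win`, `X_win`. -/
theorem x_eq {i : ℕ} (h : i ≤ P.N) : P.x i = P.X i ∨ ∃ w < P.n, i = P.O w := by
  rcases P.cover' i h with h1 | ⟨w, hw, k, hk, rfl⟩
  · left
    rw [P.x_lt h1, P.X_le h1.le]
  · rcases Nat.eq_zero_or_pos k with h2 | h2
    · right
      exact ⟨w, hw, by rw [h2]; rfl⟩
    · left
      rw [P.x_win hw h2 hk, P.X_win hw h2 hk.le]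

/-- Proof. `cover`: `c i ≤ c i + n < L < l ^ K` or `q w + (..) % q w < 2 q w ≤ l ^ K`. -/
theorem X_lt {i : ℕ} (h : i ≤ P.N + 1) {K : ℕ} (hK : P.E0 + P.n ≤ K) : P.X i < P.l ^ K := by
  rcases P.cover i h with h1 | ⟨w, hw, k, hk1, hk2, rfl⟩
  · rw [P.X_le h1]
    have h2 := P.c_L h1
    have h3 := P.L_le hK
    omega
  · rw [P.X_win hw hk1 hk2]
    have h2 := Nat.mod_lt (P.g w + k) (P.q_pos w)
    have h3 := P.q_le w hK
    omega

/-- Proof. `x_eq`, `X_lt`, `x_O`, `zt_lt`. -/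
theorem x_lt_K {i : ℕ} (h : i ≤ P.N) {K : ℕ} (hK : P.E0 + P.n ≤ K) : P.x i < P.l ^ K := by
  rcases P.x_eq h with h1 | ⟨w, hw, rfl⟩
  · rw [h1]
    exact P.X_lt (by omega) hK
  · rw [P.x_O hw]
    exact P.zt_lt hw hK

end Par
end NM
end H92C
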