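import Pool.Agent.Lib.H92C.N03

/-! # H92C, module N, chunk N04: sums over all indices -/

open Finset

namespace H92C
namespace NM

/-- A rotation of a period. Proof. `k ↦ (g + (k + 1)) % q` is a bijection of `range q`. -/
theorem sum_rot (q g : ℕ) (hg : g < q) (f : ℕ → ℤ) :
    ∑ k ∈ range q, f ((g + (k + 1)) % q) = ∑ z ∈ range q, f z := by
  obtain ⟨b, rfl⟩ : ∃ b, q = b + (g + 1) := ⟨q - (g + 1), by omega⟩
  rw [Finset.sum_range_add]
  have h2 : ∑ z ∈ range (b + (g + 1)), f z = ∑ z ∈ range (g + 1), f z + ∑ z ∈ range b, f (g + 1 + z) := by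
    rw [Nat.add_comm b (g + 1), Finset.sum_range_add]
  rw [h2, add_comm]
  congr 1
  · refine Finset.sum_congr rfl fun j hj => ?_
    have hj := Finset.mem_range.1 hj
    have h3 : g + (b + j + 1) = j + (b + (g + 1)) := by ring
    rw [h3, Nat.add_mod_right, Nat.mod_eq_of_lt (by omega)]
  · refine Finset.sum_congr rfl fun k hk => ?_
    have hk := Finset.mem_range.1 hk
    rw [Nat.mod_eq_of_lt (by omega)]
    congr 1
    ring

/-- Proof. `sum_rot` for `q = (q - 1) + 1`: the last term `k = q - 1` is `f ((g + q) % q) = f g`. -/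
theorem sum_rot' (q g : ℕ) (hg : g < q) (f : ℕ → ℤ) :
    f g + ∑ k ∈ range (q - 1), f ((g + (k + 1)) % q) = ∑ z ∈ range q, f z := by
  obtain ⟨b, rfl⟩ : ∃ b, q = b + 1 := ⟨q - 1, by omega⟩
  rw [← sum_rot (b + 1) g hg f, Finset.sum_range_succ, Nat.add_sub_cancel, Nat.add_mod_right, Nat.mod_eq_of_lt hg,
    add_comm]

namespace Par

variable (P : Par)

/-- Proof. Induction on `m`, `Finset.sum_range_add` (or `Finset.prod_range_add`), `O (m + 1) = O m + q m`. -/
theorem sum_O (f : ℕ → ℤ) (m : ℕ) : ∑ i ∈ range (P.O m), f i =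
    ∑ i ∈ range P.n, f i + ∑ w ∈ range m, ∑ k ∈ range (P.q w), f (P.O w + k) := by
  induction m with
  | zero =>
    rw [Finset.sum_range_zero, add_zero]
    rfl
  | succ m ih =>
    have h1 : P.O (m + 1) = P.O m + P.q m := rfl
    rw [h1, Finset.sum_range_add, ih, Finset.sum_range_succ]
    ring

theorem n04_aux (f : ℕ → ℤ) (m : ℕ) : ∑ i ∈ range (P.O m + 1), f i =
    ∑ i ∈ range (P.n + 1), f i + ∑ w ∈ range m, ∑ k ∈ range (P.q w), f (P.O w + (k + 1)) := by
  induction m with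
  | zero =>
    rw [Finset.sum_range_zero, add_zero]
    rfl
  | succ m ih =>
    have h1 : P.O (m + 1) + 1 = (P.O m + 1) + P.q m := by
      show P.O m + P.q m + 1 = _
      ring
    rw [h1, Finset.sum_range_add, ih, Finset.sum_range_succ (fun w => ∑ k ∈ range (P.q w), f (P.O w + (k + 1))) m,
      add_assoc]
    refine congrArg₂ (· + ·) rfl (congrArg₂ (· + ·) rfl (Finset.sum_congr rfl fun k _ => congrArg f ?_))
    ring

/-- The residues of the D i are the c i and the elements of the windows.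

Proof. `∑_{i < O m + 1} f (X i) = ∑_{i < n + 1} f (X i) + ∑_{w < m} ∑_{k < q w} f (X (O w + (k + 1)))` by induction on `m`
(`O (m+1) + 1 = (O m + 1) + q m`), for `m = n`: `O n + 1 = N + 2`. Then `X_le`, `X_win`, and `sum_rot` with `f (q w + ·)`. -/
theorem sum_X (f : ℕ → ℤ) : ∑ i ∈ range (P.N + 2), f (P.X i) =
    ∑ i ∈ range (P.n + 1), f (P.c i) + ∑ w ∈ range P.n, ∑ z ∈ range (P.q w), f (P.q w + z) := by
  have h1 : P.N + 2 = P.O P.n + 1 := by
    rw [← P.N_succ]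
  rw [h1, P.n04_aux (fun i => f (P.X i)) P.n]
  refine congrArg₂ (· + ·) (Finset.sum_congr rfl fun i hi => ?_) (Finset.sum_congr rfl fun w hw => ?_)
  · have hi := Finset.mem_range.1 hi
    rw [P.X_le (by omega)]
  · have hw := Finset.mem_range.1 hw
    have h2 := P.g_lt_q w
    rw [← sum_rot (P.q w) (P.g w) (by omega) fun z => f (P.q w + z)]
    refine Finset.sum_congr rfl fun k hk => ?_
    have hk := Finset.mem_range.1 hk
    show f (P.X (P.O w + (k + 1))) = f (P.q w + (P.g w + (k + 1)) % P.q w)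
    rw [P.X_win hw (by omega) (by omega)]

theorem n04_xN : P.x P.N = 2 * P.l ^ P.E0 - 1 := by
  have h1 := P.hLE
  have h2 := P.hn
  have h3 := P.q_last
  have h4 := P.g_last
  have h5 : 0 < P.l ^ P.K0 := Nat.pow_pos P.hl.pos
  rw [P.N_eq, P.x_win (w := P.n - 1) (by omega) (by omega) (by omega), h3, h4, zero_add, Nat.mod_eq_of_lt (by omega)]
  omega

/-- The residues x i, i < N.

Proof. `sum_O` for `m = n` and `f (x i)`: `∑_{i < N + 1} f (x i) = ∑_{i < n} f (c i) + ∑_w (f (zt w) + ∑_{k < q w - 1} f (q w + (g w + (k + 1)) % q w))`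
(`x_lt`, `x_O`, `x_win`; the term `k = 0` separated), and by `sum_rot'` the inner sum is `∑_z f (q w + z) - f (q w + g w)`. The last term `i = N`
of the left side is `f (2 l^E0 - 1)`: `N = O (n-1) + (l^E0 - 1)` (`N_eq`), `x_win` with `g (n-1) = 0`, `q (n-1) = l^E0` (`l^E0 - 1 ≥ 1`). -/
theorem sum_x (f : ℕ → ℤ) : ∑ i ∈ range P.N, f (P.x i) + f (2 * P.l ^ P.E0 - 1) +
      ∑ w ∈ range P.n, f (P.q w + P.g w) =
    ∑ i ∈ range P.n, f (P.c i) + ∑ w ∈ range P.n, f (P.zt w) +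
      ∑ w ∈ range P.n, ∑ z ∈ range (P.q w), f (P.q w + z) := by
  have h0 : ∑ i ∈ range P.N, f (P.x i) + f (2 * P.l ^ P.E0 - 1) = ∑ i ∈ range (P.O P.n), f (P.x i) := by
    rw [← P.N_succ, Finset.sum_range_succ, P.n04_xN]
  have h1 : ∑ i ∈ range P.n, f (P.x i) = ∑ i ∈ range P.n, f (P.c i) :=
    Finset.sum_congr rfl fun i hi => by rw [P.x_lt (Finset.mem_range.1 hi)]
  rw [h0, P.sum_O (fun i => f (P.x i)) P.n, h1, add_assoc, add_assoc]
  congr 1
  rw [← Finset.sum_add_distrib, ← Finset.sum_add_distrib]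
  refine Finset.sum_congr rfl fun w hw => ?_
  have hw := Finset.mem_range.1 hw
  have h2 := P.g_lt_q w
  rw [← sum_rot' (P.q w) (P.g w) (by omega) fun z => f (P.q w + z)]
  have h3 : ∑ k ∈ range (P.q w), f (P.x (P.O w + k)) =
      ∑ k ∈ range (P.q w - 1), f (P.x (P.O w + (k + 1))) + f (P.x (P.O w + 0)) := by
    rw [← Finset.sum_range_succ' (fun k => f (P.x (P.O w + k))) (P.q w - 1)]
    congr 2
    omega
  rw [h3, Nat.add_zero, P.x_O hw]
  have h4 : ∑ k ∈ range (P.q w - 1), f (P.x (P.O w + (k + 1))) =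
      ∑ k ∈ range (P.q w - 1), f (P.q w + (P.g w + (k + 1)) % P.q w) := by
    refine Finset.sum_congr rfl fun k hk => ?_
    have hk := Finset.mem_range.1 hk
    rw [P.x_win hw (by omega) (by omega)]
  rw [h4]
  ring

/-- The sum in terms of j = n - 1 - w.

Proof. In `sum_x` the term `w = n - 1` of the third sum on the left is `f (l^E0)` (`g_last`, `q_last`), which cancels with `f (zt 0)`, and `f (zt 1)` cancels with
`f (2 l^E0 - 1)`; the other `zt w`, `2 ≤ w < n`, are `L + 1, .., L + (n - 2)`. Reverse the order in the sums over the windows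
(`Finset.sum_range_reflect`): `q w = l ^ (E0 + j)`, `g w = c j` with `j = n - 1 - w`. -/
theorem sum_x' (f : ℕ → ℤ) : ∑ i ∈ range P.N, f (P.x i) + ∑ j ∈ Ico 1 P.n, f (P.l ^ (P.E0 + j) + P.c j) =
    ∑ j ∈ range P.n, f (P.c j) + ∑ k ∈ Ico 1 (P.n - 1), f (P.l ^ P.K0 + k) +
      ∑ j ∈ range P.n, ∑ z ∈ range (P.l ^ (P.E0 + j)), f (P.l ^ (P.E0 + j) + z) := by
  have h0 := P.sum_x f
  have hn := P.hn
  have h1 : ∑ w ∈ range P.n, f (P.q w + P.g w) = ∑ j ∈ range P.n, f (P.l ^ (P.E0 + j) + P.c j) := by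
    rw [← Finset.sum_range_reflect (fun j => f (P.l ^ (P.E0 + j) + P.c j)) P.n]
    rfl
  have h2 : ∑ w ∈ range P.n, ∑ z ∈ range (P.q w), f (P.q w + z) =
      ∑ j ∈ range P.n, ∑ z ∈ range (P.l ^ (P.E0 + j)), f (P.l ^ (P.E0 + j) + z) := by
    rw [← Finset.sum_range_reflect (fun j => ∑ z ∈ range (P.l ^ (P.E0 + j)), f (P.l ^ (P.E0 + j) + z)) P.n]
    rfl
  have h3 : ∑ j ∈ range P.n, f (P.l ^ (P.E0 + j) + P.c j) =
      f (P.l ^ P.E0) + ∑ j ∈ Ico 1 P.n, f (P.l ^ (P.E0 + j) + P.c j) := by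
    rw [Finset.range_eq_Ico, Finset.sum_eq_sum_Ico_succ_bot (by omega : 0 < P.n), P.c0]
    rfl
  have h4 : ∑ w ∈ range P.n, f (P.zt w) = f (P.l ^ P.E0) + f (2 * P.l ^ P.E0 - 1) +
      ∑ k ∈ Ico 1 (P.n - 1), f (P.l ^ P.K0 + k) := by
    obtain ⟨m, hm⟩ : ∃ m, P.n = m + 2 := ⟨P.n - 2, by omega⟩
    rw [hm, Finset.sum_range_succ', Finset.sum_range_succ', Finset.sum_Ico_eq_sum_range]
    have h5 : m + 2 - 1 - 1 = m := by omega
    rw [h5]
    have h6 : ∀ k, f (P.zt (k + 1 + 1)) = f (P.l ^ P.K0 + (1 + k)) := by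
      intro k
      show f (P.l ^ P.K0 + (k + 1)) = _
      rw [Nat.add_comm k 1]
    rw [Finset.sum_congr rfl fun k _ => h6 k]
    show _ + f (2 * P.l ^ P.E0 - 1) + f (P.l ^ P.E0) = _
    ring
  rw [h1, h2, h3, h4] at h0
  linarith

end Par
end NM
end H92C
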