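import Pool.Agent.Lib.H92C.N04

/-! # H92C, module N, chunk N05: the residues are distinct -/

open Finset

namespace H92C
namespace NM
namespace Par

variable (P : Par)

theorem n05_rot {q g k k' : ℕ} (h1 : 1 ≤ k) (h2 : k ≤ q) (h1' : 1 ≤ k') (h2' : k' ≤ q)
    (h : (g + k) % q = (g + k') % q) : k = k' := by
  have h3 : k ≡ k' [MOD q] := Nat.ModEq.add_left_cancel' g h
  rcases le_total k k' with h4 | h4
  · have h5 := (Nat.modEq_iff_dvd' h4).1 h3
    rcases Nat.eq_zero_or_pos (k' - k) with h6 | h6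
    · omega
    · have := Nat.le_of_dvd h6 h5
      omega
  · have h5 := (Nat.modEq_iff_dvd' h4).1 h3.symm
    rcases Nat.eq_zero_or_pos (k - k') with h6 | h6
    · omega
    · have := Nat.le_of_dvd h6 h5
      omega

theorem n05_c {i j : ℕ} (hi : i ≤ P.n) (hj : j ≤ P.n) (h : P.c i = P.c j) : i = j := by
  rcases lt_trichotomy i j with h1 | h1 | h1
  · have := P.c_lt h1 hj
    omega
  · exact h1
  · have := P.c_lt h1 hi
    omega

/-- Proof. `cover` for both: the residues of the `i ≤ n` are the `c i < L`, strictly increasing (`c_lt`); those of the window `w` are in `[q w, 2 q w)`,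
and these intervals are disjoint (`q_dbl`) and above `L` (`L_lt_q`); inside a window `(g + k) % q = (g + k') % q` with `1 ≤ k, k' ≤ q` gives `k = k'`. -/
theorem X_inj {i j : ℕ} (hi : i ≤ P.N + 1) (hj : j ≤ P.N + 1) (h : P.X i = P.X j) : i = j := by
  rcases P.cover i hi with h1 | ⟨w, hw, k, hk1, hk2, rfl⟩
  · rcases P.cover j hj with h2 | ⟨w', hw', k', hk1', hk2', rfl⟩
    · rw [P.X_le h1, P.X_le h2] at h
      exact P.n05_c h1 h2 h
    · rw [P.X_le h1, P.X_win hw' hk1' hk2'] at h
      have h3 := P.c_L h1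
      have h4 := P.L_lt_q w'
      omega
  · rcases P.cover j hj with h2 | ⟨w', hw', k', hk1', hk2', rfl⟩
    · rw [P.X_le h2, P.X_win hw hk1 hk2] at h
      have h3 := P.c_L h2
      have h4 := P.L_lt_q w
      omega
    · rw [P.X_win hw hk1 hk2, P.X_win hw' hk1' hk2'] at h
      have h5 := Nat.mod_lt (P.g w + k) (P.q_pos w)
      have h6 := Nat.mod_lt (P.g w' + k') (P.q_pos w')
      rcases lt_trichotomy w w' with h7 | h7 | h7
      · have := P.q_dbl h7 hw'
        omega
      · subst h7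
        have h8 := n05_rot hk1 hk2 hk1' hk2' (Nat.add_left_cancel h)
        rw [h8]
      · have := P.q_dbl h7 hw
        omega

theorem n05_zt_big (w : ℕ) : P.l ^ P.K0 < P.zt w := by
  have h1 := P.hLE
  match w with
  | 0 => show _ < P.l ^ P.E0; omega
  | 1 => show _ < 2 * P.l ^ P.E0 - 1; omega
  | w + 2 => show _ < P.l ^ P.K0 + (w + 1); omega

theorem n05_zt_inj {w w' : ℕ} (hw : w < P.n) (hw' : w' < P.n) (h : P.zt w = P.zt w') : w = w' := by
  have h1 := P.hLE
  have h2 := P.hn
  have h0 : 0 < P.l ^ P.K0 := Nat.pow_pos P.hl.pos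
  have e0 : P.zt 0 = P.l ^ P.E0 := rfl
  have e1 : P.zt 1 = 2 * P.l ^ P.E0 - 1 := rfl
  have e2 : ∀ w, P.zt (w + 2) = P.l ^ P.K0 + (w + 1) := fun _ => rfl
  rcases w with _ | _ | w
  · rcases w' with _ | _ | w'
    · rfl
    · change P.zt 0 = P.zt 1 at h
      rw [e0, e1] at h
      omega
    · rw [e2] at h
      change P.zt 0 = _ at h
      rw [e0] at h
      omega
  · rcases w' with _ | _ | w'
    · change P.zt 1 = P.zt 0 at h
      rw [e0, e1] at h
      omega
    · rfl
    · rw [e2] at h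
      change P.zt 1 = _ at h
      rw [e1] at h
      omega
  · rcases w' with _ | _ | w'
    · rw [e2] at h
      change _ = P.zt 0 at h
      rw [e0] at h
      omega
    · rw [e2] at h
      change _ = P.zt 1 at h
      rw [e1] at h
      omega
    · rw [e2, e2] at h
      omega

theorem n05_bc {w w' k : ℕ} (hw : w < P.n) (hw' : w' < P.n) (hk : 1 ≤ k) (hk' : k < P.q w') (hj : P.O w' + k < P.N)
    (h : P.zt w = P.q w' + (P.g w' + k) % P.q w') : False := by
  have h1 := P.hLE
  have h2 := P.hn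
  have h3 := P.E0_le_q w'
  have h4 := P.N_eq
  have h5 := P.q_last
  have h6 := P.g_last
  have e0 : P.zt 0 = P.l ^ P.E0 := rfl
  have e1 : P.zt 1 = 2 * P.l ^ P.E0 - 1 := rfl
  have e2 : ∀ w, P.zt (w + 2) = P.l ^ P.K0 + (w + 1) := fun _ => rfl
  rcases Nat.lt_or_ge w' (P.n - 1) with h7 | h7
  · have h8 := P.q_dbl h7 (by omega)
    rw [h5] at h8
    rcases w with _ | _ | w
    · change P.zt 0 = _ at h
      rw [e0] at h
      omega
    · change P.zt 1 = _ at h
      rw [e1] at h
      omega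
    · rw [e2] at h
      omega
  · have h8 : w' = P.n - 1 := by omega
    subst h8
    rw [h6, h5, zero_add, Nat.mod_eq_of_lt (by rw [h5] at hk'; exact hk')] at h
    rcases w with _ | _ | w
    · change P.zt 0 = _ at h
      rw [e0] at h
      omega
    · change P.zt 1 = _ at h
      rw [e1] at h
      omega
    · rw [e2] at h
      omega

theorem n05_aux {w j : ℕ} (hw : w < P.n) (hj : j < P.N) (h : P.x (P.O w) = P.x j) : P.O w = j := by
  rw [P.x_O hw] at h
  rcases P.cover' j hj.le with h1 | ⟨w', hw', k, hk, rfl⟩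
  · rw [P.x_lt h1] at h
    have h2 := P.n05_zt_big w
    have h3 := P.c_L h1.le
    omega
  · rcases Nat.eq_zero_or_pos k with h2 | h2
    · subst h2
      rw [Nat.add_zero, P.x_O hw'] at h
      rw [P.n05_zt_inj hw hw' h, Nat.add_zero]
    · rw [P.x_win hw' h2 hk] at h
      exact (P.n05_bc hw hw' h2 hk hj h).elim

/-- Proof. `cover'` for both (`i < N`). The values are: `c i < L` (`i < n`); `zt w` (`i = O w`): `l^E0`, `2 l^E0 - 1`, `L + (w - 1)` with
`L < L + (w - 1) < L + n < l^E0`; and `q w + (g w + k) % q w` (`1 ≤ k < q w`), different from `q w + g w`; for the last window (`w = n - 1`, `g w = 0`, `q w = l^E0`)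
these are `l^E0 + k`, different from `l^E0` and, as `i < N`, `k < l^E0 - 1` (`N_eq`), from `2 l^E0 - 1`; for `w < n - 1` they are `≥ q w ≥ 2 l^E0` (`q_dbl`). -/
theorem x_inj {i j : ℕ} (hi : i < P.N) (hj : j < P.N) (h : P.x i = P.x j) : i = j := by
  rcases P.x_eq hi.le with h1 | ⟨w, hw, rfl⟩
  · rcases P.x_eq hj.le with h2 | ⟨w', hw', rfl⟩
    · rw [h1, h2] at h
      exact P.X_inj (by omega) (by omega) h
    · exact (P.n05_aux hw' hi h.symm).symm
  · exact P.n05_aux hw hj h

/-- Proof. `i = O (n - 1) + j` (`x_win`, `g_last`, `q_last`, `N_eq`). -/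
theorem x_last {j : ℕ} (h1 : 1 ≤ j) (h2 : j + 2 ≤ P.l ^ P.E0) :
    ∃ i < P.N, i ≠ P.n ∧ P.x i = P.l ^ P.E0 + j := by
  have h3 := P.N_eq
  have h4 := P.n_le_O (P.n - 1)
  have hn := P.hn
  have h5 := P.q_last
  refine ⟨P.O (P.n - 1) + j, by omega, by omega, ?_⟩
  rw [P.x_win (by omega) h1 (by omega), h5, P.g_last, zero_add, Nat.mod_eq_of_lt (by omega)]

/-- Proof. `N = O (n-1) + (l^E0 - 1)`, `X_win1`. -/
theorem X_N : P.X P.N = 2 * P.l ^ P.E0 - 1 := by
  have hn := P.hn
  have h1 := P.hLE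
  have h5 := P.q_last
  have h6 : 0 < P.l ^ P.K0 := Nat.pow_pos P.hl.pos
  rw [P.N_eq, P.X_win (w := P.n - 1) (by omega) (by omega) (by omega), h5, P.g_last, zero_add, Nat.mod_eq_of_lt (by omega)]
  omega

/-- Proof. `N + 1 = O (n - 1) + q (n - 1)`, `X_win` with `g = 0`, or `X_win2`. -/
theorem X_N1 : P.X (P.N + 1) = P.l ^ P.E0 := by
  have hn := P.hn
  have h1 := P.hLE
  have h5 := P.q_last
  have h7 : P.N + 1 = P.O (P.n - 1) + P.l ^ P.E0 := by
    have := P.N_eq
    omega
  rw [h7, P.X_win (w := P.n - 1) (by omega) (by omega) (by omega), h5, P.g_last, zero_add, Nat.mod_self, add_zero]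

end Par
end NM
end H92C
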