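import Pool.Agent.Lib.H92C.N05

/-! # H92C, module N, chunk N06: counting in a window -/

open Finset

namespace H92C
namespace NM

/-- Proof. `l^r` divides `l^e`; an interval of `l^e` consecutive numbers contains each residue `l^(e-r)` times (`Nat.count_modEq_card`, or induction on
`l^(e-r)` periods: `z = u * l^r + v`). -/
theorem win_cnt (l e r a : ℕ) (hl : 2 ≤ l) (h : r ≤ e) :
    ((range (l ^ e)).filter fun z => (l ^ e + z) % l ^ r = a % l ^ r).card = l ^ (e - r) := by
  have h1 : l ^ r ∣ l ^ e := pow_dvd_pow l h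
  have hr : 0 < l ^ r := Nat.pow_pos (by omega)
  have h2 : ((range (l ^ e)).filter fun z => (l ^ e + z) % l ^ r = a % l ^ r) =
      (range (l ^ e)).filter fun z => z ≡ a [MOD l ^ r] := by
    refine Finset.filter_congr fun z _ => ?_
    obtain ⟨t, ht⟩ := h1
    rw [ht, Nat.mul_add_mod]
    rfl
  rw [h2, ← Nat.count_eq_card_filter_range, Nat.count_modEq_card _ hr, Nat.mod_eq_zero_of_dvd h1,
    if_neg (Nat.not_lt_zero _),
    add_zero, Nat.pow_div h (by omega)]

/-- Proof. `l^e + z < 2 l^e ≤ l^r`, so `(l^e + z) % l^r = l^e + z`; the only possible `z` is `a % l^r - l^e`. -/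
theorem win_cnt' (l e r a : ℕ) (hl : 2 ≤ l) (h : e < r) :
    ((range (l ^ e)).filter fun z => (l ^ e + z) % l ^ r = a % l ^ r).card =
      if l ^ e ≤ a % l ^ r ∧ a % l ^ r < 2 * l ^ e then 1 else 0 := by
  have h1 : 2 * l ^ e ≤ l ^ r := by
    calc 2 * l ^ e ≤ l * l ^ e := Nat.mul_le_mul_right _ hl
      _ = l ^ (e + 1) := by rw [pow_succ]; ring
      _ ≤ l ^ r := Nat.pow_le_pow_right (by omega) h
  have h2 : ((range (l ^ e)).filter fun z => (l ^ e + z) % l ^ r = a % l ^ r) =
      (range (l ^ e)).filter fun z => l ^ e + z = a % l ^ r := by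
    refine Finset.filter_congr fun z hz => ?_
    have hz := Finset.mem_range.1 hz
    rw [Nat.mod_eq_of_lt (by omega : l ^ e + z < l ^ r)]
  rw [h2]
  split_ifs with h3
  · rw [Finset.card_eq_one]
    refine ⟨a % l ^ r - l ^ e, ?_⟩
    ext z
    simp only [Finset.mem_filter, Finset.mem_range, Finset.mem_singleton]
    omega
  · rw [Finset.card_eq_zero]
    ext z
    simp only [Finset.mem_filter, Finset.mem_range, Finset.notMem_empty, iff_false]
    omega

/-- An interval of integers starting at 0 is balanced. Proof. `a = m / M`: the numbers `z < m` with `z % M = c` are `c, c + M, ..`, there are `m / M` of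
them, and one more if `c < m % M`. -/
theorem bal_interval (M m : ℕ) (hM : 0 < M) : ∃ a, ∀ c < M, a ≤ ((range m).filter fun z => z % M = c).card ∧
    ((range m).filter fun z => z % M = c).card ≤ a + 1 := by
  refine ⟨m / M, fun c hc => ?_⟩
  have h2 : ((range m).filter fun z => z % M = c) = (range m).filter fun z => z ≡ c [MOD M] := by
    refine Finset.filter_congr fun z _ => ?_
    show _ ↔ z % M = c % M
    rw [Nat.mod_eq_of_lt hc]
  rw [h2, ← Nat.count_eq_card_filter_range, Nat.count_modEq_card _ hM]
  split_ifs <;> omega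

end NM
end H92C
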