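import Pool.Agent.Lib.H92C.N06

/-! # H92C, module N, chunk N07: balance modulo small powers -/

open Finset

namespace H92C
namespace NM
namespace Par

variable (P : Par)

/-- Proof. Take `f y = if y % l^r = c then 1 else 0` in `sum_x'`; `l^r` divides `l^K0` and all `l^(E0+j)`, so `f (l^(E0+j) + c j) = f (c j)` cancels for
`j ≥ 1`, `f (l^K0 + k) = f k`, and the windows contribute `l^(E0+j-r)` each (`win_cnt`). So
`#{i < N : x i % l^r = c} = #{z < n - 1 : z % l^r = c} + ∑_{j<n} l^(E0+j-r)` (`c 0 = 0` is `z = 0`), and `bal_interval`. -/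
theorem bal_small (r : ℕ) (h1 : 1 ≤ r) (hr : r ≤ P.K0) :
    ∃ a, ∀ c < P.l ^ r, a ≤ ((range P.N).filter fun i => P.x i % P.l ^ r = c).card ∧
      ((range P.N).filter fun i => P.x i % P.l ^ r = c).card ≤ a + 1 := by
  have hl2 : 2 ≤ P.l := P.hl.two_le
  have hlr : 0 < P.l ^ r := pow_pos (by omega) r
  obtain ⟨a, ha⟩ := bal_interval (P.l ^ r) (P.n - 1) hlr
  refine ⟨a + ∑ j ∈ range P.n, P.l ^ (P.E0 + j - r), fun c hc => ?_⟩
  have hE := P.hE
  have hn := P.hn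
  have hs := P.sum_x' (fun y => if y % P.l ^ r = c then (1 : ℤ) else 0)
  have hdE : ∀ j y, (P.l ^ (P.E0 + j) + y) % P.l ^ r = y % P.l ^ r := by
    intro j y
    obtain ⟨k, hk⟩ := pow_dvd_pow P.l (show r ≤ P.E0 + j by omega)
    rw [hk, Nat.mul_add_mod]
  have hdK : ∀ y, (P.l ^ P.K0 + y) % P.l ^ r = y % P.l ^ r := by
    intro y
    obtain ⟨k, hk⟩ := pow_dvd_pow P.l hr
    rw [hk, Nat.mul_add_mod]
  have h2 : ∀ j ∈ range P.n, ∑ z ∈ range (P.l ^ (P.E0 + j)),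
      (if (P.l ^ (P.E0 + j) + z) % P.l ^ r = c then (1 : ℤ) else 0) = ((P.l ^ (P.E0 + j - r) : ℕ) : ℤ) := by
    intro j _
    rw [sum_boole]
    have h3 := win_cnt P.l (P.E0 + j) r c hl2 (by omega)
    rw [Nat.mod_eq_of_lt hc] at h3
    rw [h3]
  simp only [hdE, hdK] at hs h2
  rw [sum_congr rfl h2] at hs
  have h4 : ∑ j ∈ range P.n, (if P.c j % P.l ^ r = c then (1 : ℤ) else 0) =
      (if 0 % P.l ^ r = c then (1 : ℤ) else 0) + ∑ j ∈ Ico 1 P.n, (if P.c j % P.l ^ r = c then (1 : ℤ) else 0) := by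
    rw [range_eq_Ico, sum_eq_sum_Ico_succ_bot (by omega : 0 < P.n), P.c0]
  have h5 : ∑ k ∈ range (P.n - 1), (if k % P.l ^ r = c then (1 : ℤ) else 0) =
      (if 0 % P.l ^ r = c then (1 : ℤ) else 0) + ∑ k ∈ Ico 1 (P.n - 1), (if k % P.l ^ r = c then (1 : ℤ) else 0) := by
    rw [range_eq_Ico, sum_eq_sum_Ico_succ_bot (by omega : 0 < P.n - 1)]
  have h6 : ∑ i ∈ range P.N, (if P.x i % P.l ^ r = c then (1 : ℤ) else 0) =
      ∑ k ∈ range (P.n - 1), (if k % P.l ^ r = c then (1 : ℤ) else 0) + ∑ j ∈ range P.n, ((P.l ^ (P.E0 + j - r) : ℕ) : ℤ) := by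
    linarith
  rw [sum_boole, sum_boole, ← Nat.cast_sum] at h6
  have h7 : ((range P.N).filter fun i => P.x i % P.l ^ r = c).card =
      ((range (P.n - 1)).filter fun z => z % P.l ^ r = c).card + ∑ j ∈ range P.n, P.l ^ (P.E0 + j - r) := by
    exact_mod_cast h6
  have h8 := ha c hc
  rw [h7]
  omega

end Par
end NM
end H92C
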