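import Pool.Agent.Lib.H92C.N06

/-! # H92C, module N, chunk N08: balance modulo large powers -/

open Finset

namespace H92C
namespace NM
namespace Par

variable (P : Par)

/-- A sum of indicators of mutually exclusive events is at most one. -/
theorem n08_one (s : Finset ℕ) (Q : ℕ → Prop) [DecidablePred Q] (h : ∀ i ∈ s, ∀ j ∈ s, Q i → Q j → i = j) :
    ∑ i ∈ s, (if Q i then (1 : ℤ) else 0) ≤ 1 := by
  have h1 : (s.filter Q).card ≤ 1 := by
    rw [card_le_one]
    intro a ha b hb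
    exact h a (mem_filter.1 ha).1 b (mem_filter.1 hb).1 (mem_filter.1 ha).2 (mem_filter.1 hb).2
  have h2 : ∑ i ∈ s, (if Q i then (1 : ℤ) else 0) = ((s.filter Q).card : ℤ) := by
    rw [card_filter]
    push_cast
    rfl
  rw [h2]
  exact_mod_cast h1

/-- Proof. Let `f y = if y % l^r = c then 1 else 0`, `c < l^r`. `sum_x'` and `win_cnt`, `win_cnt'`. Call `j < n` big if `r ≤ E0 + j`. For a big `j ≥ 1`:
`f (l^(E0+j) + c j) = f (c j)` cancels, and the window contributes `l^(E0+j-r)`. So with `a = ∑_{j big} l^(E0+j-r)`: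
`#{i < N : x i % l^r = c} = a + f 0 + ∑_{1 ≤ j, j small} f (c j) + ∑_{k=1}^{n-2} f (L + k) + ∑_{j small} [l^(E0+j) ≤ c < 2 l^(E0+j)] - ∑_{1 ≤ j, j small} f (l^(E0+j) + c j)`.
Everything here is smaller than `l^r` (`L + k < 2 L ≤ l^(K0+1)`, `2 l^(E0+j) ≤ l^r` for small `j`), so `f y = [y = c]`. Three cases.
`c < L`: the terms are `[c = 0] + ∑_{1 ≤ j small} [c = c_j] ≤ 1` (the `c_j` are distinct, `c_0 = 0`), the others vanish.
`L ≤ c < l^E0`: only `∑_k [L + k = c] ≤ 1`.
`l^E0 ≤ c`: only the windows: at most one small `j` has `l^(E0+j) ≤ c < 2 l^(E0+j)` (disjoint), it contributes `1` or `1 - 1`; the other `j` contribute `0`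
(`l^(E0+j) + c_j` is in the window `j`). So the count is `a` or `a + 1`. -/
theorem bal_large (r : ℕ) (hr : P.K0 < r) :
    ∃ a, ∀ c < P.l ^ r, a ≤ ((range P.N).filter fun i => P.x i % P.l ^ r = c).card ∧
      ((range P.N).filter fun i => P.x i % P.l ^ r = c).card ≤ a + 1 := by
  classical
  have hl2 : 2 ≤ P.l := P.hl.two_le
  have hlpos : 0 < P.l := P.hl.pos
  set M := P.l ^ r with hM
  have hMpos : 0 < M := pow_pos hlpos r
  have hL0 : P.l ^ P.K0 ≤ P.l ^ (P.K0 + 1) := Nat.pow_le_pow_right hlpos (Nat.le_succ _)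
  have h2L : 2 * P.l ^ P.K0 ≤ M := by
    calc 2 * P.l ^ P.K0 ≤ P.l * P.l ^ P.K0 := Nat.mul_le_mul_right _ hl2
      _ = P.l ^ (P.K0 + 1) := by rw [pow_succ]; ring
      _ ≤ M := Nat.pow_le_pow_right hlpos hr
  have hcL : ∀ j ≤ P.n, P.c j + P.n < P.l ^ P.K0 := fun j hj => P.c_L hj
  have hnL : P.n < P.l ^ P.K0 := by have := hcL 0 (Nat.zero_le _); omega
  have hLE := P.hLE
  have hEj : ∀ j, P.l ^ P.E0 ≤ P.l ^ (P.E0 + j) := fun j => Nat.pow_le_pow_right hlpos (Nat.le_add_right _ _)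
  have hdbl : ∀ j j', j < j' → 2 * P.l ^ (P.E0 + j) ≤ P.l ^ (P.E0 + j') := by
    intro j j' h
    calc 2 * P.l ^ (P.E0 + j) ≤ P.l * P.l ^ (P.E0 + j) := Nat.mul_le_mul_right _ hl2
      _ = P.l ^ (P.E0 + j + 1) := by rw [pow_succ]; ring
      _ ≤ _ := Nat.pow_le_pow_right hlpos (by omega)
  have hsm : ∀ j, P.E0 + j < r → 2 * P.l ^ (P.E0 + j) ≤ M := by
    intro j h
    calc 2 * P.l ^ (P.E0 + j) ≤ P.l * P.l ^ (P.E0 + j) := Nat.mul_le_mul_right _ hl2
      _ = P.l ^ (P.E0 + j + 1) := by rw [pow_succ]; ring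
      _ ≤ _ := Nat.pow_le_pow_right hlpos (by omega)
  refine ⟨∑ j ∈ range P.n, if r ≤ P.E0 + j then P.l ^ (P.E0 + j - r) else 0, fun c hc => ?_⟩
  set f : ℕ → ℤ := fun y => if y % M = c then 1 else 0 with hf
  have hfs : ∀ y, y < M → f y = if y = c then 1 else 0 := by
    intro y hy
    simp only [hf, Nat.mod_eq_of_lt hy]
  have hsum := P.sum_x' f
  have hcount : ((((range P.N).filter fun i => P.x i % M = c).card : ℕ) : ℤ) = ∑ i ∈ range P.N, f (P.x i) := by
    rw [card_filter]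
    push_cast
    rfl
  -- the windows
  have hW : ∀ j, ∑ z ∈ range (P.l ^ (P.E0 + j)), f (P.l ^ (P.E0 + j) + z) =
      if r ≤ P.E0 + j then ((P.l ^ (P.E0 + j - r) : ℕ) : ℤ) else
        if P.l ^ (P.E0 + j) ≤ c ∧ c < 2 * P.l ^ (P.E0 + j) then 1 else 0 := by
    intro j
    have e1 : ∑ z ∈ range (P.l ^ (P.E0 + j)), f (P.l ^ (P.E0 + j) + z) =
        ((((range (P.l ^ (P.E0 + j))).filter fun z => (P.l ^ (P.E0 + j) + z) % P.l ^ r = c % P.l ^ r).card : ℕ) : ℤ) := by
      rw [card_filter]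
      push_cast
      refine sum_congr rfl fun z _ => ?_
      simp only [hf]
      rw [Nat.mod_eq_of_lt hc]
    rw [e1]
    by_cases h : r ≤ P.E0 + j
    · rw [if_pos h, win_cnt P.l (P.E0 + j) r c hl2 h]
    · rw [if_neg h, win_cnt' P.l (P.E0 + j) r c hl2 (not_le.1 h), Nat.mod_eq_of_lt hc]
      push_cast
      rfl
  -- one summand for each j
  set b : ℕ → ℤ := fun j => f (P.c j) + (∑ z ∈ range (P.l ^ (P.E0 + j)), f (P.l ^ (P.E0 + j) + z)) -
    (if j = 0 then 0 else f (P.l ^ (P.E0 + j) + P.c j)) -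
    (if r ≤ P.E0 + j then ((P.l ^ (P.E0 + j - r) : ℕ) : ℤ) else 0) with hb
  have hIco : ∑ j ∈ Ico 1 P.n, f (P.l ^ (P.E0 + j) + P.c j) =
      ∑ j ∈ range P.n, if j = 0 then 0 else f (P.l ^ (P.E0 + j) + P.c j) := by
    have hn := P.hn
    obtain ⟨m, hm⟩ : ∃ m, P.n = m + 1 := ⟨P.n - 1, by omega⟩
    rw [hm, sum_range_succ', if_pos rfl, add_zero, range_eq_Ico, ← sum_Ico_add' (fun j => f (P.l ^ (P.E0 + j) + P.c j)) 0 m 1]
    refine sum_congr (by simp) fun j _ => ?_
    rw [if_neg (Nat.succ_ne_zero j)]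
  have hmain : ((((range P.N).filter fun i => P.x i % M = c).card : ℕ) : ℤ) =
      ((∑ j ∈ range P.n, (if r ≤ P.E0 + j then P.l ^ (P.E0 + j - r) else 0) : ℕ) : ℤ) +
        (∑ j ∈ range P.n, b j + ∑ k ∈ Ico 1 (P.n - 1), f (P.l ^ P.K0 + k)) := by
    have e1 : ((∑ j ∈ range P.n, (if r ≤ P.E0 + j then P.l ^ (P.E0 + j - r) else 0) : ℕ) : ℤ) =
        ∑ j ∈ range P.n, (if r ≤ P.E0 + j then ((P.l ^ (P.E0 + j - r) : ℕ) : ℤ) else 0) := by
      rw [Nat.cast_sum]
      refine sum_congr rfl fun j _ => ?_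
      split_ifs <;> simp
    have e2 : ∑ j ∈ range P.n, b j = ∑ j ∈ range P.n, f (P.c j) +
        (∑ j ∈ range P.n, ∑ z ∈ range (P.l ^ (P.E0 + j)), f (P.l ^ (P.E0 + j) + z)) -
        (∑ j ∈ range P.n, if j = 0 then 0 else f (P.l ^ (P.E0 + j) + P.c j)) -
        ∑ j ∈ range P.n, (if r ≤ P.E0 + j then ((P.l ^ (P.E0 + j - r) : ℕ) : ℤ) else 0) := by
      rw [← sum_add_distrib, ← sum_sub_distrib, ← sum_sub_distrib]
    rw [hcount, e1, e2, ← hIco]
    linarith
  have hbig : ∀ j < P.n, r ≤ P.E0 + j → b j = if j = 0 then (if c = 0 then 1 else 0) else 0 := by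
    intro j hj h
    simp only [hb]
    rw [hW j, if_pos h, if_pos h]
    by_cases hj0 : j = 0
    · subst hj0
      rw [if_pos rfl, if_pos rfl, P.c0, hfs 0 hMpos]
      by_cases hc0 : c = 0
      · rw [if_pos hc0, if_pos hc0.symm]; ring
      · rw [if_neg hc0, if_neg (fun h => hc0 h.symm)]; ring
    · rw [if_neg hj0, if_neg hj0]
      have e1 : f (P.l ^ (P.E0 + j) + P.c j) = f (P.c j) := by
        simp only [hf]
        have e2 : (P.l ^ (P.E0 + j) + P.c j) % M = P.c j % M := by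
          obtain ⟨u, hu⟩ : M ∣ P.l ^ (P.E0 + j) := pow_dvd_pow _ h
          rw [hu, add_comm, Nat.add_mul_mod_self_left]
        rw [e2]
      rw [e1]; ring
  have hsmall : ∀ j < P.n, P.E0 + j < r → b j = (if P.c j = c then 1 else 0) +
      (if P.l ^ (P.E0 + j) ≤ c ∧ c < 2 * P.l ^ (P.E0 + j) then 1 else 0) -
      (if j = 0 then 0 else if P.l ^ (P.E0 + j) + P.c j = c then 1 else 0) := by
    intro j hj h
    simp only [hb]
    have h1 := hcL j hj.le
    have h2 := hEj j
    have h3 := hsm j h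
    rw [hW j, if_neg (not_le.2 h), if_neg (not_le.2 h), hfs (P.c j) (by omega),
      hfs (P.l ^ (P.E0 + j) + P.c j) (by omega)]
    ring
  have hk : ∀ k ∈ Ico 1 (P.n - 1), f (P.l ^ P.K0 + k) = if P.l ^ P.K0 + k = c then 1 else 0 := by
    intro k hk
    have := (mem_Ico.1 hk).2
    exact hfs _ (by omega)
  have hτ : 0 ≤ ∑ j ∈ range P.n, b j + ∑ k ∈ Ico 1 (P.n - 1), f (P.l ^ P.K0 + k) ∧
      ∑ j ∈ range P.n, b j + ∑ k ∈ Ico 1 (P.n - 1), f (P.l ^ P.K0 + k) ≤ 1 := by
    rcases lt_or_ge c (P.l ^ P.K0) with hcA | hcA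
    · -- c < L
      have e1 : ∑ k ∈ Ico 1 (P.n - 1), f (P.l ^ P.K0 + k) = 0 := by
        refine sum_eq_zero fun k hkk => ?_
        rw [hk k hkk, if_neg (by omega)]
      have e2 : ∀ j ∈ range P.n, 0 ≤ b j ∧ b j ≤ if P.c j = c then 1 else 0 := by
        intro j hj
        have hj' := mem_range.1 hj
        rcases le_or_gt r (P.E0 + j) with h | h
        · rw [hbig j hj' h]
          by_cases hj0 : j = 0
          · subst hj0
            rw [if_pos rfl, P.c0]
            by_cases hc0 : c = 0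
            · rw [if_pos hc0, if_pos hc0.symm]; exact ⟨by norm_num, le_rfl⟩
            · rw [if_neg hc0, if_neg (fun h => hc0 h.symm)]; exact ⟨le_rfl, le_rfl⟩
          · rw [if_neg hj0]
            refine ⟨le_rfl, ?_⟩
            split_ifs <;> norm_num
        · rw [hsmall j hj' h]
          have h2 := hEj j
          have e3 : ¬ (P.l ^ (P.E0 + j) ≤ c ∧ c < 2 * P.l ^ (P.E0 + j)) := by omega
          have e4 : ¬ (P.l ^ (P.E0 + j) + P.c j = c) := by omega
          rw [if_neg e3, if_neg e4]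
          simp only [ite_self, add_zero, sub_zero]
          refine ⟨?_, le_rfl⟩
          split_ifs <;> norm_num
      rw [e1, add_zero]
      refine ⟨sum_nonneg fun j hj => (e2 j hj).1, (sum_le_sum fun j hj => (e2 j hj).2).trans ?_⟩
      refine n08_one _ _ fun i hi j hj h1 h2 => ?_
      by_contra hij
      rcases lt_or_gt_of_ne hij with h | h
      · have := P.c_lt h (mem_range.1 hj).le
        omega
      · have := P.c_lt h (mem_range.1 hi).le
        omega
    · rcases lt_or_ge c (P.l ^ P.E0) with hcB | hcB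
      · -- L ≤ c < l ^ E0
        have e2 : ∀ j ∈ range P.n, b j = 0 := by
          intro j hj
          have hj' := mem_range.1 hj
          have h1 := hcL j hj'.le
          have h2 := hEj j
          rcases le_or_gt r (P.E0 + j) with h | h
          · rw [hbig j hj' h, if_neg (by omega : ¬ c = 0), ite_self]
          · rw [hsmall j hj' h, if_neg (by omega), if_neg (by omega), if_neg (by omega : ¬ (P.l ^ (P.E0 + j) + P.c j = c)), ite_self]
            ring
        rw [sum_eq_zero e2, zero_add, sum_congr rfl hk]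
        refine ⟨sum_nonneg fun k _ => by split_ifs <;> norm_num, ?_⟩
        exact n08_one _ _ fun i _ j _ h1 h2 => by omega
      · -- l ^ E0 ≤ c
        have e1 : ∑ k ∈ Ico 1 (P.n - 1), f (P.l ^ P.K0 + k) = 0 := by
          refine sum_eq_zero fun k hkk => ?_
          have := (mem_Ico.1 hkk).2
          rw [hk k hkk, if_neg (by omega)]
        have e2 : ∀ j ∈ range P.n, 0 ≤ b j ∧
            b j ≤ if P.l ^ (P.E0 + j) ≤ c ∧ c < 2 * P.l ^ (P.E0 + j) then 1 else 0 := by
          intro j hj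
          have hj' := mem_range.1 hj
          have h1 := hcL j hj'.le
          have h2 := hEj j
          rcases le_or_gt r (P.E0 + j) with h | h
          · rw [hbig j hj' h, if_neg (by omega : ¬ c = 0), ite_self]
            refine ⟨le_rfl, ?_⟩
            split_ifs <;> norm_num
          · rw [hsmall j hj' h, if_neg (by omega : ¬ (P.c j = c))]
            by_cases hw : P.l ^ (P.E0 + j) ≤ c ∧ c < 2 * P.l ^ (P.E0 + j)
            · rw [if_pos hw]
              split_ifs <;> norm_num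
            · rw [if_neg hw, if_neg (by omega : ¬ (P.l ^ (P.E0 + j) + P.c j = c)), ite_self]
              norm_num
        rw [e1, add_zero]
        refine ⟨sum_nonneg fun j hj => (e2 j hj).1, (sum_le_sum fun j hj => (e2 j hj).2).trans ?_⟩
        refine n08_one _ _ fun i hi j hj h1 h2 => ?_
        by_contra hij
        rcases lt_or_gt_of_ne hij with h | h
        · have := hdbl i j h
          omega
        · have := hdbl j i h
          omega
  obtain ⟨hτ0, hτ1⟩ := hτ
  constructor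
  · refine Int.ofNat_le.1 ?_
    rw [hmain]
    linarith
  · refine Int.ofNat_le.1 ?_
    rw [hmain, Nat.cast_add, Nat.cast_one]
    linarith

end Par
end NM
end H92C
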