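import Pool.Agent.Lib.H92C.N07
import Pool.Agent.Lib.H92C.N08

/-! # H92C, module N: the family x is balanced -/

open Finset

namespace H92C
namespace NM
namespace Par

variable (P : Par)

theorem bal : Bal P.l P.N P.x := by
  intro r h1
  rcases le_or_gt r P.K0 with h | h
  · exact P.bal_small r h1 h
  · exact P.bal_large r h

end Par
end NM
end H92C
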