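import Pool.Agent.Lib.H92C.N00

/-! # H92C, module N, chunk N10: valuations by counting -/

open Finset

namespace H92C
namespace NM

/-- Proof. `l^r ∣ a` iff `r ≤ v` (`padicValInt_dvd_iff`, `a ≠ 0`): the set is contained in `Icc 1 v`. -/
theorem val_ge (l : ℕ) (hl : l.Prime) (K : ℕ) (a : ℤ) (ha : a ≠ 0) :
    ((Icc 1 K).filter fun r => (l : ℤ) ^ r ∣ a).card ≤ padicValInt l a := by
  haveI : Fact l.Prime := ⟨hl⟩
  have h1 : ((Icc 1 K).filter fun r => (l : ℤ) ^ r ∣ a) ⊆ Icc 1 (padicValInt l a) := by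
    intro r hr
    rw [mem_filter, mem_Icc] at hr
    rw [mem_Icc]
    refine ⟨hr.1.1, ?_⟩
    rcases (padicValInt_dvd_iff r a).1 hr.2 with h | h
    · exact absurd h ha
    · exact h
  have h2 := card_le_card h1
  rwa [Nat.card_Icc, Nat.add_sub_cancel] at h2

/-- Proof. `a ≠ 0`, and `v < K` because `l^K` does not divide `a`; the set is `Icc 1 v`. -/
theorem val_eq (l : ℕ) (hl : l.Prime) (K : ℕ) (a : ℤ) (ha : ¬ (l : ℤ) ^ K ∣ a) :
    padicValInt l a = ((Icc 1 K).filter fun r => (l : ℤ) ^ r ∣ a).card := by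
  haveI : Fact l.Prime := ⟨hl⟩
  have ha0 : a ≠ 0 := by
    rintro rfl
    exact ha (dvd_zero _)
  have hv : padicValInt l a < K := by
    by_contra h
    exact ha ((padicValInt_dvd_iff K a).2 (Or.inr (by omega)))
  have h1 : ((Icc 1 K).filter fun r => (l : ℤ) ^ r ∣ a) = Icc 1 (padicValInt l a) := by
    ext r
    rw [mem_filter, mem_Icc, mem_Icc, padicValInt_dvd_iff]
    constructor
    · rintro ⟨h2, h3 | h3⟩
      · exact absurd h3 ha0
      · exact ⟨h2.1, h3⟩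
    · rintro ⟨h2, h3⟩
      exact ⟨⟨h2, by omega⟩, Or.inr h3⟩
  rw [h1, Nat.card_Icc, Nat.add_sub_cancel]

/-- The valuation only depends on the class modulo `l^K`. Proof. `val_eq` for both (`(l:ℤ)^r ∣ a ↔ (l:ℤ)^r ∣ b` for `r ≤ K`). -/
theorem val_congr (l : ℕ) (hl : l.Prime) (K : ℕ) (a b : ℤ) (ha : ¬ (l : ℤ) ^ K ∣ a) (h : a ≡ b [ZMOD (l : ℤ) ^ K]) :
    padicValInt l a = padicValInt l b := by
  have h1 : ∀ r ≤ K, ((l : ℤ) ^ r ∣ a ↔ (l : ℤ) ^ r ∣ b) := by
    intro r hr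
    have h2 : a ≡ b [ZMOD (l : ℤ) ^ r] := h.of_dvd (pow_dvd_pow _ hr)
    constructor
    · intro h3
      exact (Int.modEq_zero_iff_dvd).1 (h2.symm.trans ((Int.modEq_zero_iff_dvd).2 h3))
    · intro h3
      exact (Int.modEq_zero_iff_dvd).1 (h2.trans ((Int.modEq_zero_iff_dvd).2 h3))
  have hb : ¬ (l : ℤ) ^ K ∣ b := fun h3 => ha ((h1 K le_rfl).2 h3)
  rw [val_eq l hl K a ha, val_eq l hl K b hb]
  congr 1
  refine filter_congr fun r hr => ?_
  exact h1 r (mem_Icc.1 hr).2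

/-- Proof. Induction on the set (`padicValInt.mul`; the products are nonzero). -/
theorem val_prod (l : ℕ) (hl : l.Prime) {ι : Type} [DecidableEq ι] (s : Finset ι) (f : ι → ℤ) (h : ∀ i ∈ s, f i ≠ 0) :
    padicValInt l (∏ i ∈ s, f i) = ∑ i ∈ s, padicValInt l (f i) := by
  haveI : Fact l.Prime := ⟨hl⟩
  induction s using Finset.induction_on with
  | empty => simp
  | insert i s hi ih =>
    have h1 : f i ≠ 0 := h i (mem_insert_self i s)
    have h2 : ∏ k ∈ s, f k ≠ 0 := prod_ne_zero_iff.2 fun k hk => h k (mem_insert_of_mem hk)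
    rw [prod_insert hi, sum_insert hi, padicValInt.mul h1 h2, ih fun k hk => h k (mem_insert_of_mem hk)]

end NM
end H92C
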