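import Pool.Agent.Lib.H92C.N00

/-! # H92C, module N, chunk N11: balanced families minimise the number of congruent pairs -/

open Finset

namespace H92C
namespace NM

theorem n11_key (M : ℕ) (hM : 0 < M) (y : ℤ) (c : ℕ) (hc : c < M) : (y % (M : ℤ)).toNat = c ↔ (M : ℤ) ∣ y - c := by
  have hM' : (0 : ℤ) < M := by exact_mod_cast hM
  have h1 := Int.emod_nonneg y hM'.ne'
  have h2 := Int.emod_lt_of_pos y hM'
  constructor
  · intro h
    have h4 : y % (M : ℤ) = (c : ℤ) := by omega
    have h5 := Int.mul_ediv_add_emod y M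
    exact ⟨y / M, by rw [h4] at h5; linarith⟩
  · rintro ⟨k, hk⟩
    have h4 : y = c + M * k := by linarith
    have h5 : y % (M : ℤ) = (c : ℤ) := by
      rw [h4, Int.add_mul_emod_self_left]
      exact Int.emod_eq_of_lt (by omega) (by exact_mod_cast hc)
    rw [h5]; rfl

theorem n11_lt (M : ℕ) (hM : 0 < M) (y : ℤ) : (y % (M : ℤ)).toNat ∈ range M := by
  have hM' : (0 : ℤ) < M := by exact_mod_cast hM
  have h1 := Int.emod_nonneg y hM'.ne'
  have h2 := Int.emod_lt_of_pos y hM'
  rw [Finset.mem_range]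
  omega

/-- Proof. Every `y i` is congruent to exactly one `c < M`. -/
theorem cnt_sum {N : ℕ} (M : ℕ) (hM : 0 < M) (y : Fin N → ℤ) : ∑ c ∈ range M, cnt M y c = N := by
  classical
  have hcard : (univ : Finset (Fin N)).card = ∑ c ∈ range M, (univ.filter fun i : Fin N => (y i % (M : ℤ)).toNat = c).card :=
    Finset.card_eq_sum_card_fiberwise fun i _ => n11_lt M hM (y i)
  rw [Finset.card_univ, Fintype.card_fin] at hcard
  refine Eq.trans ?_ hcard.symm
  refine Finset.sum_congr rfl fun c hc => ?_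
  unfold cnt
  congr 1
  ext i
  simp only [Finset.mem_filter, Finset.mem_univ, true_and]
  exact (n11_key M hM (y i) c (Finset.mem_range.1 hc)).symm

/-- Proof. Sort the pairs by the common residue `c` (`card_eq_sum_card_fiberwise`), the fibre is `{i : y i ≡ c} × {i : y i ≡ c}` (`card_product`). -/
theorem prs_eq {N : ℕ} (M : ℕ) (hM : 0 < M) (y : Fin N → ℤ) : prs M y = ∑ c ∈ range M, cnt M y c ^ 2 := by
  classical
  have hcard : prs M y = ∑ c ∈ range M, ((univ.filter fun ij : Fin N × Fin N => (M : ℤ) ∣ y ij.2 - y ij.1).filter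
      fun ij => (y ij.1 % (M : ℤ)).toNat = c).card :=
    Finset.card_eq_sum_card_fiberwise fun i _ => n11_lt M hM (y i.1)
  rw [hcard]
  refine Finset.sum_congr rfl fun c hc => ?_
  have hc' : c < M := Finset.mem_range.1 hc
  unfold cnt
  rw [pow_two, ← Finset.card_product]
  congr 1
  ext ⟨i, j⟩
  simp only [Finset.mem_filter, Finset.mem_univ, true_and, Finset.mem_product]
  rw [n11_key M hM (y i) c hc']
  constructor
  · rintro ⟨h1, h2⟩
    refine ⟨h2, ?_⟩
    have := dvd_add h1 h2
    rwa [sub_add_sub_cancel] at this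
  · rintro ⟨h1, h2⟩
    refine ⟨?_, h1⟩
    have := dvd_sub h2 h1
    rwa [sub_sub_sub_cancel_right] at this

/-- Proof. For every natural number `k`: `k^2 ≥ (2a+1) k - a(a+1)`, with equality for `k = a` and `k = a + 1` (`(k - a)(k - a - 1) ≥ 0` for integers).
Sum over `c < M` (`prs_eq`, `cnt_sum`): `prs M y = (2a+1) N - M a (a+1) ≤ prs M y'` (in integers). -/
theorem prs_le {N : ℕ} (M : ℕ) (hM : 0 < M) (y y' : Fin N → ℤ) (a : ℕ) (h : ∀ c < M, a ≤ cnt M y c ∧ cnt M y c ≤ a + 1) :
    prs M y ≤ prs M y' := by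
  have h1 : (prs M y : ℤ) = (2 * a + 1) * N - M * (a * (a + 1)) := by
    rw [prs_eq M hM y]
    have h2 : ∀ c ∈ range M, ((cnt M y c : ℤ)) ^ 2 = (2 * a + 1) * cnt M y c - a * (a + 1) := by
      intro c hc
      obtain ⟨h3, h4⟩ := h c (Finset.mem_range.1 hc)
      rcases (by omega : cnt M y c = a ∨ cnt M y c = a + 1) with h5 | h5
      · rw [h5]; ring
      · rw [h5]; push_cast; ring
    push_cast
    rw [Finset.sum_congr rfl h2, Finset.sum_sub_distrib, ← Finset.mul_sum, ← Nat.cast_sum, cnt_sum M hM y,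
      Finset.sum_const, Finset.card_range, nsmul_eq_mul]
  have h2 : (2 * a + 1) * N - M * (a * (a + 1)) ≤ (prs M y' : ℤ) := by
    rw [prs_eq M hM y']
    have h2 : ∀ c ∈ range M, (2 * (a : ℤ) + 1) * cnt M y' c - a * (a + 1) ≤ ((cnt M y' c : ℤ)) ^ 2 := by
      intro c _
      rcases le_or_gt (cnt M y' c : ℤ) a with h5 | h5
      · nlinarith
      · nlinarith [(by omega : (a : ℤ) + 1 ≤ cnt M y' c)]
    have h3 := Finset.sum_le_sum h2
    rw [Finset.sum_sub_distrib, ← Finset.mul_sum, ← Nat.cast_sum, cnt_sum M hM y', Finset.sum_const, Finset.card_range,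
      nsmul_eq_mul] at h3
    push_cast
    exact h3
  exact_mod_cast h1.le.trans h2

/-- Proof. The two filters are the same set. -/
theorem prs_congr {N : ℕ} (M : ℕ) (y y' : Fin N → ℤ) (h : ∀ i, (M : ℤ) ∣ y i - y' i) : prs M y = prs M y' := by
  unfold prs
  congr 1
  ext ⟨i, j⟩
  simp only [Finset.mem_filter, Finset.mem_univ, true_and]
  constructor
  · intro h1
    have := (h1.sub (h j)).add (h i)
    have h2 : y j - y i - (y j - y' j) + (y i - y' i) = y' j - y' i := by ring
    rwa [h2] at this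
  · intro h1
    have := (h1.add (h j)).sub (h i)
    have h2 : y' j - y' i + (y j - y' j) - (y i - y' i) = y j - y i := by ring
    rwa [h2] at this

/-- Proof. An injective self map of `Fin N` is a bijection; `card_bij` for `(i, j) ↦ (σ i, σ j)`. -/
theorem prs_perm {N : ℕ} (M : ℕ) (y : Fin N → ℤ) (σ : Fin N → Fin N) (hσ : Function.Injective σ) :
    prs M (fun i => y (σ i)) = prs M y := by
  have hb : Function.Bijective σ := Finite.injective_iff_bijective.1 hσ
  unfold prs
  refine Finset.card_bij (fun ij _ => (σ ij.1, σ ij.2)) ?_ ?_ ?_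
  · intro ij h
    simpa using h
  · intro a _ b _ h
    exact Prod.ext (hσ (Prod.ext_iff.1 h).1) (hσ (Prod.ext_iff.1 h).2)
  · rintro ⟨i, j⟩ h
    obtain ⟨i', rfl⟩ := hb.2 i
    obtain ⟨j', rfl⟩ := hb.2 j
    exact ⟨(i', j'), by simpa using h, rfl⟩

end NM
end H92C
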