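import Pool.Agent.Lib.H92C.N10

/-! # H92C, module N, chunk N12: the valuation of the Vandermonde product -/

open Finset

namespace H92C
namespace NM

/-- Proof. `val_prod` twice: `v (vd y) = ∑_{i<j} v (y j - y i)`, and the sum over the ordered pairs `i ≠ j` is twice this (`v (-a) = v a`). -/
theorem two_val_vd (l : ℕ) (hl : l.Prime) {N : ℕ} (y : Fin N → ℤ) (hy : Function.Injective y) :
    2 * padicValInt l (vd y) =
      ∑ ij ∈ (univ : Finset (Fin N × Fin N)).filter (fun ij => ij.1 ≠ ij.2), padicValInt l (y ij.2 - y ij.1) := by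
  classical
  have hv : padicValInt l (vd y) = ∑ i, ∑ j, if i < j then padicValInt l (y j - y i) else 0 := by
    unfold vd
    rw [val_prod l hl]
    · refine Finset.sum_congr rfl fun i _ => ?_
      rw [val_prod l hl]
      · rw [← Finset.sum_filter]
        refine Finset.sum_congr ?_ fun _ _ => rfl
        ext j; simp
      · intro j hj
        rw [Finset.mem_Ioi] at hj
        exact sub_ne_zero.2 fun h => hj.ne' (hy h)
    · intro i _
      refine Finset.prod_ne_zero_iff.2 fun j hj => ?_
      rw [Finset.mem_Ioi] at hj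
      exact sub_ne_zero.2 fun h => hj.ne' (hy h)
  have hs : ∀ i j, padicValInt l (y i - y j) = padicValInt l (y j - y i) := by
    intro i j
    rw [padicValInt, padicValInt, ← Int.natAbs_neg (y i - y j), neg_sub]
  rw [Finset.sum_filter, ← Finset.univ_product_univ, Finset.sum_product]
  have h1 : ∀ i j : Fin N, (if i ≠ j then padicValInt l (y j - y i) else 0) =
      (if i < j then padicValInt l (y j - y i) else 0) + (if j < i then padicValInt l (y i - y j) else 0) := by
    intro i j
    rcases lt_trichotomy i j with h | h | h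
    · rw [if_pos h.ne, if_pos h, if_neg h.not_gt, add_zero]
    · rw [h]; simp
    · rw [if_pos h.ne', if_neg h.not_gt, if_pos h, zero_add, hs]
  simp only [h1, Finset.sum_add_distrib]
  rw [← hv]
  have h2 : ∑ i : Fin N, ∑ j : Fin N, (if j < i then padicValInt l (y i - y j) else 0) = padicValInt l (vd y) := by
    rw [hv, Finset.sum_comm]
  rw [h2]
  ring

theorem n12_sum (l : ℕ) {N : ℕ} (K : ℕ) (y : Fin N → ℤ) :
    ∑ r ∈ Icc 1 K, prs (l ^ r) y =
      ∑ ij ∈ (univ : Finset (Fin N × Fin N)).filter (fun ij => ij.1 ≠ ij.2), ((Icc 1 K).filter fun r => (l : ℤ) ^ r ∣ y ij.2 - y ij.1).card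
        + K * N := by
  classical
  have h1 : ∑ r ∈ Icc 1 K, prs (l ^ r) y =
      ∑ ij : Fin N × Fin N, ((Icc 1 K).filter fun r => (l : ℤ) ^ r ∣ y ij.2 - y ij.1).card := by
    simp only [prs, Finset.card_filter]
    rw [Finset.sum_comm]
    push_cast
    rfl
  rw [h1, ← Finset.sum_filter_add_sum_filter_not (univ : Finset (Fin N × Fin N)) (fun ij => ij.1 ≠ ij.2)]
  congr 1
  have h2 : ∀ ij ∈ (univ : Finset (Fin N × Fin N)).filter (fun ij => ¬ ij.1 ≠ ij.2),
      ((Icc 1 K).filter fun r => (l : ℤ) ^ r ∣ y ij.2 - y ij.1).card = K := by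
    intro ij hij
    have h3 : ij.1 = ij.2 := by
      have := (Finset.mem_filter.1 hij).2
      push Not at this
      exact this
    rw [h3, sub_self, Finset.filter_true_of_mem (fun r _ => dvd_zero _), Nat.card_Icc, Nat.add_sub_cancel]
  rw [Finset.sum_congr rfl h2, Finset.sum_const, smul_eq_mul]
  have h4 : ((univ : Finset (Fin N × Fin N)).filter (fun ij => ¬ ij.1 ≠ ij.2)).card = N := by
    have h5 : (univ : Finset (Fin N × Fin N)).filter (fun ij => ¬ ij.1 ≠ ij.2) = (univ : Finset (Fin N)).map ⟨fun i => (i, i), fun a b h => (Prod.ext_iff.1 h).1⟩ := by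
      ext ⟨i, j⟩
      simp [Prod.ext_iff]
    rw [h5, Finset.card_map, Finset.card_univ, Fintype.card_fin]
  rw [h4, mul_comm]

/-- Proof. `∑_{r=1..K} prs (l^r) y = ∑_{(i,j)} #{r in 1..K : l^r ∣ y j - y i}` (exchange of sums); the diagonal pairs contribute `K` each (`N` of
them), the others at most `v (y j - y i)` (`val_ge`). Then `two_val_vd`. -/
theorem prs_le_vd (l : ℕ) (hl : l.Prime) {N : ℕ} (K : ℕ) (y : Fin N → ℤ) (hy : Function.Injective y) :
    ∑ r ∈ Icc 1 K, prs (l ^ r) y ≤ 2 * padicValInt l (vd y) + K * N := by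
  rw [n12_sum l K y, two_val_vd l hl y hy]
  refine Nat.add_le_add_right (Finset.sum_le_sum fun ij hij => ?_) _
  have h1 := (Finset.mem_filter.1 hij).2
  exact val_ge l hl K _ (sub_ne_zero.2 fun h => h1 (hy h).symm)

/-- Proof. The same with `val_eq`. (`y` is injective because `l^K ∣ 0`.) -/
theorem prs_eq_vd (l : ℕ) (hl : l.Prime) {N : ℕ} (K : ℕ) (y : Fin N → ℤ) (hy : ∀ i j, i ≠ j → ¬ (l : ℤ) ^ K ∣ y j - y i) :
    ∑ r ∈ Icc 1 K, prs (l ^ r) y = 2 * padicValInt l (vd y) + K * N := by
  have hy' : Function.Injective y := by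
    intro i j h
    by_contra hne
    exact hy i j hne (by rw [h, sub_self]; exact dvd_zero _)
  rw [n12_sum l K y, two_val_vd l hl y hy']
  congr 1
  refine Finset.sum_congr rfl fun ij hij => ?_
  have h1 := (Finset.mem_filter.1 hij).2
  exact (val_eq l hl K _ (hy _ _ h1)).symm

/-- Proof. `N = 0`: both are 1. `N = n + 1`: `Matrix.det_vandermonde` and `Matrix.det_vandermonde_id_eq_superFactorial`
(`Nat.superFactorial n = ∏_{k ≤ n} k!`, induction), or `thmI_dim` for the row `0, 1, .., N - 1` is NOT needed. -/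
theorem vd_id (N : ℕ) : vd (fun i : Fin N => ((i : ℕ) : ℤ)) = sf N := by
  rcases N with _ | n
  · simp [vd, sf]
  · have h1 := Matrix.det_vandermonde (fun i : Fin (n + 1) => ((i : ℕ) : ℤ))
    have h2 := Matrix.det_vandermonde_id_eq_superFactorial (R := ℤ) n
    rw [h1] at h2
    unfold vd
    rw [h2]
    have h3 : ∀ n : ℕ, Nat.superFactorial n = sf (n + 1) := by
      intro n
      induction n with
      | zero => simp [sf]
      | succ n ih =>
        rw [Nat.superFactorial_succ, ih, sf, sf, Finset.prod_range_succ _ (n + 1), mul_comm]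
    rw [h3]

/-- Proof. `vd S > 0` and `sf N > 0`. (`thmI_dim`.) -/
theorem uu_pos {N : ℕ} (S : Fin N → ℤ) (hS : StrictMono S) : 0 < uu S := by
  have h1 := thmI_dim S hS
  have h2 : (0 : ℤ) < ∏ i, ∏ j ∈ Finset.Ioi i, (S j - S i) :=
    Finset.prod_pos fun i _ => Finset.prod_pos fun j hj => sub_pos.2 (hS (Finset.mem_Ioi.1 hj))
  rw [← h1] at h2
  have h3 : (0 : ℤ) < ∏ k ∈ Finset.range N, (k.factorial : ℤ) := Finset.prod_pos fun k _ => by exact_mod_cast k.factorial_pos
  have h4 := (pos_iff_pos_of_mul_pos h2).2 h3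
  exact_mod_cast h4

end NM
end H92C
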