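import Pool.Agent.Lib.H92C.N11
import Pool.Agent.Lib.H92C.N12

/-! # H92C, module N, chunk N13: u(S) is prime to l for balanced residues (N.2) -/

open Finset

namespace H92C
namespace NM

theorem n13_cnt (N M : ℕ) (hM : 0 < M) (x : ℕ → ℕ) (c : ℕ) (hc : c < M) :
    cnt M (fun i : Fin N => ((x i : ℕ) : ℤ)) c = ((range N).filter fun i => x i % M = c).card := by
  unfold cnt
  have key : ∀ a : ℕ, (M : ℤ) ∣ (a : ℤ) - c ↔ a % M = c := by
    intro a
    rw [← n11_key M hM (a : ℤ) c hc]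
    have : ((a : ℤ) % (M : ℤ)).toNat = a % M := by
      rw [← Int.natCast_mod, Int.toNat_natCast]
    rw [this]
  refine Finset.card_bij (fun i _ => (i : ℕ)) ?_ ?_ ?_
  · intro i hi
    rw [Finset.mem_filter] at hi ⊢
    exact ⟨Finset.mem_range.2 i.2, (key _).1 hi.2⟩
  · intro a _ b _ h
    exact Fin.ext h
  · intro b hb
    rw [Finset.mem_filter, Finset.mem_range] at hb
    exact ⟨⟨b, hb.1⟩, Finset.mem_filter.2 ⟨Finset.mem_univ _, (key _).2 hb.2⟩, rfl⟩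

/-- Proof. For `r` in `1..K`: `cnt (l^r) (x) c = #{i < N : x i % l^r = c}` for `c < l^r`, so `prs_le` applies with the `a` of `Bal`. -/
theorem bal_sum (l : ℕ) (hl : l.Prime) (N K : ℕ) (x : ℕ → ℕ) (hb : Bal l N x) (y' : Fin N → ℤ) :
    ∑ r ∈ Icc 1 K, prs (l ^ r) (fun i : Fin N => ((x i : ℕ) : ℤ)) ≤ ∑ r ∈ Icc 1 K, prs (l ^ r) y' := by
  refine Finset.sum_le_sum fun r hr => ?_
  have hM : 0 < l ^ r := pow_pos hl.pos r
  obtain ⟨a, ha⟩ := hb r (Finset.mem_Icc.1 hr).1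
  refine prs_le (l ^ r) hM _ y' a fun c hc => ?_
  rw [n13_cnt N (l ^ r) hM x c hc]
  exact ha c hc

/-- Proof. `S j - S i ≡ x (σ j) - x (σ i)` modulo `l^K`, not divisible by `l^K` for `i ≠ j`. So with `prs_congr`, `prs_perm` and `prs_eq_vd`, `bal_sum`,
`prs_le_vd`, `vd_id`: `2 v(vd S) + K N = ∑ prs (l^r) S = ∑ prs (l^r) x ≤ ∑ prs (l^r) (id) ≤ 2 v(sf N) + K N`. By `thmI_dim` `uu S * sf N = vd S`, so
`v(uu S) + v(sf N) = v(vd S) ≤ v(sf N)` and `v(uu S) = 0`, `uu S ≠ 0` (`uu_pos`). -/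
theorem uu_prime (l : ℕ) (hl : l.Prime) (N K : ℕ) (x : ℕ → ℕ) (hb : Bal l N x)
    (hx : ∀ i < N, ∀ j < N, x i ≡ x j [MOD l ^ K] → i = j) (S : Fin N → ℤ) (hS : StrictMono S) (d0 : ℤ)
    (σ : Fin N → Fin N) (hσ : Function.Injective σ) (h : ∀ j, S j ≡ d0 + x (σ j) [ZMOD (l : ℤ) ^ K]) :
    ¬ l ∣ uu S := by
  have := Fact.mk hl
  have hdvd : ∀ j, (l : ℤ) ^ K ∣ S j - (d0 + x (σ j)) := fun j => (h j).symm.dvd
  have h1 : ∀ r ∈ Icc 1 K, prs (l ^ r) S = prs (l ^ r) (fun i : Fin N => ((x i : ℕ) : ℤ)) := by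
    intro r hr
    have h2 : prs (l ^ r) S = prs (l ^ r) (fun i : Fin N => d0 + ((x (σ i) : ℕ) : ℤ)) := by
      apply prs_congr
      intro i
      have h3 : ((l ^ r : ℕ) : ℤ) ∣ (l : ℤ) ^ K := by
        push_cast
        exact pow_dvd_pow _ (Finset.mem_Icc.1 hr).2
      exact h3.trans (hdvd i)
    have h3 : prs (l ^ r) (fun i : Fin N => d0 + ((x (σ i) : ℕ) : ℤ)) = prs (l ^ r) (fun i : Fin N => ((x (σ i) : ℕ) : ℤ)) := by
      unfold prs
      simp only [add_sub_add_left_eq_sub]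
    rw [h2, h3]
    exact prs_perm (l ^ r) (fun i : Fin N => ((x i : ℕ) : ℤ)) σ hσ
  have h2 : ∀ i j, i ≠ j → ¬ (l : ℤ) ^ K ∣ S j - S i := by
    intro i j hij hd
    apply hij
    have h3 := (dvd_sub (dvd_add hd (hdvd i)) (hdvd j))
    have h4 : S j - S i + (S i - (d0 + x (σ i))) - (S j - (d0 + x (σ j))) = (x (σ j) : ℤ) - x (σ i) := by ring
    rw [h4] at h3
    have h5 : x (σ i) ≡ x (σ j) [MOD l ^ K] := by
      rw [Nat.modEq_iff_dvd]
      push_cast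
      exact h3
    exact hσ (Fin.ext (hx _ (σ i).2 _ (σ j).2 h5))
  have h3 := prs_eq_vd l hl K S h2
  rw [Finset.sum_congr rfl h1] at h3
  have h4 := bal_sum l hl N K x hb (fun i : Fin N => ((i : ℕ) : ℤ))
  have h5 := prs_le_vd l hl K (fun i : Fin N => ((i : ℕ) : ℤ)) (fun a b hab => Fin.ext (Int.ofNat.inj hab))
  rw [vd_id] at h5
  have h6 : padicValInt l (vd S) ≤ padicValInt l (sf N) := by omega
  have h7 : (uu S : ℤ) * (sf N : ℤ) = vd S := by
    have := thmI_dim S hS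
    unfold sf vd
    rw [← this]
    push_cast
    rfl
  have h8 := uu_pos S hS
  have h9 : 0 < sf N := Finset.prod_pos fun k _ => k.factorial_pos
  have h10 : padicValInt l (uu S : ℤ) + padicValInt l (sf N) = padicValInt l (vd S) := by
    rw [← h7]
    exact (padicValInt.mul (by exact_mod_cast h8.ne') (by exact_mod_cast h9.ne')).symm
  have h11 : padicValInt l (uu S : ℤ) = 0 := by omega
  rw [padicValInt.of_nat] at h11
  intro hd
  have h12 := one_le_padicValNat_of_dvd h8.ne' hd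
  omega

end NM
end H92C
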