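import Mathlib

/-! # H92C, module N, chunk N14: sums of integer valued polynomials over full periods -/

open Finset

namespace H92C
namespace NM

theorem n14_diff (F : ℤ) (p : Polynomial ℤ) (g : ℕ → ℤ) (hg : ∀ t : ℕ, F * g t = p.eval (t : ℤ)) (r : ℕ) :
    ∀ n : ℕ, F * ((fwdDiff (1 : ℕ))^[r] g) n = ((fwdDiff (1 : ℤ))^[r] p.eval) (n : ℤ) := by
  induction r with
  | zero => intro n; simpa using hg n
  | succ r ih =>
    intro n
    rw [Function.iterate_succ_apply', Function.iterate_succ_apply']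
    unfold fwdDiff at ih ⊢
    have h1 := ih (n + 1)
    have h2 := ih n
    push_cast at h1
    rw [mul_sub, h1, h2]

theorem n14_hockey (M r : ℕ) : ∑ t ∈ range M, t.choose r = M.choose (r + 1) := by
  induction M with
  | zero => simp
  | succ M ih => rw [Finset.sum_range_succ, ih, Nat.choose_succ_succ' M r, add_comm]

/-- Newton's formula. Proof. `shift_eq_sum_fwdDiff_iter` (with `M = ℕ`, `h = 1`, `y = 0`) for `g : ℕ → ℤ`: `g t = ∑_{r ≤ t} C(t,r) Δ^r g 0`; let `a r = Δ^r g 0`. Since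
`F * Δ^r g = Δ^r (p.eval)` (linearity) vanishes for `r > natDegree p` (`Polynomial.fwdDiff_iter_eq_zero_of_degree_lt`) and `F ≠ 0`, `a r = 0` for these `r`; and
`C(t,r) = 0` for `r > t`. (Or directly by induction on `natDegree p`.) -/
theorem newton (F : ℤ) (hF : F ≠ 0) (p : Polynomial ℤ) (g : ℕ → ℤ) (hg : ∀ t : ℕ, F * g t = p.eval (t : ℤ)) :
    ∃ a : ℕ → ℤ, ∀ t : ℕ, g t = ∑ r ∈ range (p.natDegree + 1), a r * (t.choose r : ℤ) := by
  refine ⟨fun r => ((fwdDiff (1 : ℕ))^[r] g) 0, fun t => ?_⟩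
  have h0 : ∀ r, p.natDegree < r → ((fwdDiff (1 : ℕ))^[r] g) 0 = 0 := by
    intro r hr
    have h1 := n14_diff F p g hg r 0
    rw [Polynomial.fwdDiff_iter_eq_zero_of_degree_lt hr] at h1
    simp only [Pi.zero_apply] at h1
    exact (mul_eq_zero.1 h1).resolve_left hF
  have h1 := shift_eq_sum_fwdDiff_iter (1 : ℕ) g t 0
  have h2 : (0 : ℕ) + t • 1 = t := by simp
  rw [h2] at h1
  rw [h1]
  have e1 : ∑ k ∈ range (t + 1), t.choose k • ((fwdDiff (1 : ℕ))^[k] g) 0 =
      ∑ k ∈ range (t + 1 + (p.natDegree + 1)), ((fwdDiff (1 : ℕ))^[k] g) 0 * (t.choose k : ℤ) := by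
    have e2 : ∑ k ∈ range (t + 1), t.choose k • ((fwdDiff (1 : ℕ))^[k] g) 0 =
        ∑ k ∈ range (t + 1), ((fwdDiff (1 : ℕ))^[k] g) 0 * (t.choose k : ℤ) :=
      Finset.sum_congr rfl fun k _ => by rw [nsmul_eq_mul, mul_comm]
    rw [e2]
    apply Finset.sum_subset
    · exact Finset.range_subset_range.2 (by omega)
    · intro k _ hk
      rw [Finset.mem_range] at hk
      rw [Nat.choose_eq_zero_of_lt (by omega)]
      simp
  rw [e1]
  symm
  apply Finset.sum_subset
  · exact Finset.range_subset_range.2 (by omega)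
  · intro k _ hk
    rw [Finset.mem_range] at hk
    show ((fwdDiff (1 : ℕ))^[k] g) 0 * (t.choose k : ℤ) = 0
    rw [h0 k (by omega), zero_mul]

/-- Proof. `j * C(M, j) = M * C(M - 1, j - 1)` is divisible by `l^K`, and `l^K` does not divide `j` (`0 < j < l^K`), so `l` divides `C(M, j)`
(otherwise `l^K` would be prime to `C(M, j)` and divide `j`). -/
theorem dvd_choose (l : ℕ) (hl : l.Prime) (K M j : ℕ) (hM : l ^ K ∣ M) (h1 : 0 < j) (h2 : j < l ^ K) : l ∣ M.choose j := by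
  by_contra hc
  obtain ⟨k, rfl⟩ : ∃ k, j = k + 1 := ⟨j - 1, by omega⟩
  have hco : Nat.Coprime (l ^ K) (M.choose (k + 1)) :=
    Nat.Coprime.pow_left K ((Nat.Prime.coprime_iff_not_dvd hl).2 hc)
  rcases Nat.eq_zero_or_pos M with h0 | h0
  · apply hc
    rw [h0]
    simp
  · obtain ⟨m, rfl⟩ : ∃ m, M = m + 1 := ⟨M - 1, by omega⟩
    have h3 : l ^ K ∣ (m + 1).choose (k + 1) * (k + 1) := by
      have := Nat.add_one_mul_choose_eq m k
      have h4 : (m + 1).choose (k + 1) * (k + 1) = (m + 1) * m.choose k := this.symm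
      rw [h4]
      exact hM.mul_right _
    have h5 : l ^ K ∣ k + 1 := hco.dvd_of_dvd_mul_left h3
    have := Nat.le_of_dvd h1 h5
    omega

/-- Proof. `newton`; `∑_{t<M} C(t,r) = C(M, r+1)` (hockey stick: `Nat.sum_range_choose`-like lemma `Nat.sum_Icc_choose`, or induction on `M`), and `dvd_choose`
for `r + 1 ≤ natDegree p + 1 < l^K`. -/
theorem sum_period (l : ℕ) (hl : l.Prime) (K : ℕ) (F : ℤ) (hF : F ≠ 0) (p : Polynomial ℤ) (hp : p.natDegree + 1 < l ^ K)
    (g : ℕ → ℤ) (hg : ∀ t : ℕ, F * g t = p.eval (t : ℤ)) (M : ℕ) (hM : l ^ K ∣ M) :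
    (l : ℤ) ∣ ∑ t ∈ range M, g t := by
  obtain ⟨a, ha⟩ := newton F hF p g hg
  have e : ∑ t ∈ range M, g t = ∑ r ∈ range (p.natDegree + 1), a r * (M.choose (r + 1) : ℤ) := by
    calc ∑ t ∈ range M, g t = ∑ t ∈ range M, ∑ r ∈ range (p.natDegree + 1), a r * (t.choose r : ℤ) :=
          Finset.sum_congr rfl fun t _ => ha t
      _ = ∑ r ∈ range (p.natDegree + 1), ∑ t ∈ range M, a r * (t.choose r : ℤ) := Finset.sum_comm
      _ = ∑ r ∈ range (p.natDegree + 1), a r * (M.choose (r + 1) : ℤ) := by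
          refine Finset.sum_congr rfl fun r _ => ?_
          rw [← Finset.mul_sum, ← n14_hockey M r]
          push_cast
          rfl
  rw [e]
  refine Finset.dvd_sum fun r hr => ?_
  rw [Finset.mem_range] at hr
  have h1 : l ∣ M.choose (r + 1) := dvd_choose l hl K M (r + 1) hM (by omega) (by omega)
  exact Dvd.dvd.mul_left (by exact_mod_cast h1) _

end NM
end H92C
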