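import Pool.Agent.Lib.H92C.N10
import Pool.Agent.Lib.H92C.N14

/-! # H92C, module N, chunk N15: adding a last element -/

open Finset

namespace H92C
namespace NM

/-- Proof. `Fin.snoc` of a strictly increasing row with larger last element. -/
theorem snoc_mono {N' : ℕ} (S : Fin N' → ℤ) (hS : StrictMono S) (t : ℤ) (ht : ∀ j, S j < t) :
    StrictMono (Fin.snoc (α := fun _ => ℤ) S t : Fin (N' + 1) → ℤ) := by
  intro i j hij
  induction i using Fin.lastCases with
  | last => exact absurd hij (not_lt.2 (Fin.le_last j))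
  | cast i =>
    induction j using Fin.lastCases with
    | last => rw [Fin.snoc_castSucc, Fin.snoc_last]; exact ht i
    | cast j => rw [Fin.snoc_castSucc, Fin.snoc_castSucc]; exact hS (Fin.castSucc_lt_castSucc_iff.1 hij)

/-- Proof. Split the product over the pairs `i < j` of `Fin (N' + 1)` according to whether `j` is the last index (`Fin.prod_univ_castSucc`). -/
theorem vd_snoc {N' : ℕ} (S : Fin N' → ℤ) (t : ℤ) :
    vd (Fin.snoc (α := fun _ => ℤ) S t : Fin (N' + 1) → ℤ) = vd S * ∏ j, (t - S j) := by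
  unfold vd
  rw [Fin.prod_univ_castSucc]
  have h0 : Ioi (Fin.last N') = ∅ := by
    ext x
    simp [Fin.le_last]
  rw [h0, prod_empty, mul_one, ← prod_mul_distrib]
  refine prod_congr rfl fun i _ => ?_
  have h1 : Ioi i.castSucc = insert (Fin.last N') ((Ioi i).map Fin.castSuccEmb) := by
    ext x
    rw [mem_insert, mem_map, mem_Ioi]
    induction x using Fin.lastCases with
    | last => simp [Fin.castSucc_lt_last]
    | cast x =>
      constructor
      · intro h
        exact Or.inr ⟨x, mem_Ioi.2 (Fin.castSucc_lt_castSucc_iff.1 h), rfl⟩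
      · rintro (h | ⟨y, hy, hyx⟩)
        · exact absurd h (ne_of_lt (Fin.castSucc_lt_last x))
        · have h2 : y = x := Fin.castSucc_injective _ hyx
          rw [← h2]
          exact Fin.castSucc_lt_castSucc_iff.2 (mem_Ioi.1 hy)
  rw [h1, prod_insert, prod_map]
  · simp only [Fin.coe_castSuccEmb, Fin.snoc_castSucc, Fin.snoc_last]
    rw [mul_comm]
  · rw [mem_map]
    rintro ⟨y, _, hy⟩
    exact absurd hy (ne_of_lt (Fin.castSucc_lt_last y))

/-- Proof. `thmI_dim`, `snoc_mono`, `vd_snoc` (`sf`, `vd` are abbreviations for the products in `thmI_dim`). -/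
theorem uu_snoc {N' : ℕ} (S : Fin N' → ℤ) (hS : StrictMono S) (t : ℤ) (ht : ∀ j, S j < t) :
    (uu (Fin.snoc (α := fun _ => ℤ) S t : Fin (N' + 1) → ℤ) : ℤ) * sf (N' + 1) = vd S * ∏ j, (t - S j) := by
  rw [← vd_snoc]
  have h := thmI_dim _ (snoc_mono S hS t ht)
  unfold sf vd
  push_cast
  exact h

theorem n15_sf_ne (n : ℕ) : sf n ≠ 0 := by
  unfold sf
  exact prod_ne_zero_iff.2 fun k _ => Nat.factorial_ne_zero k

/-- Proof. `l^K` divides the right side of `uu_snoc`, and `v(sf (N'+1)) < K`; so `l` divides `uu`. -/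
theorem uu_snoc_dvd (l : ℕ) (hl : l.Prime) {N' K : ℕ} (hF : padicValNat l (sf (N' + 1)) < K) (S : Fin N' → ℤ)
    (hS : StrictMono S) (t : ℤ) (ht : ∀ j, S j < t) (j : Fin N') (hj : (l : ℤ) ^ K ∣ t - S j) :
    (l : ℤ) ∣ uu (Fin.snoc (α := fun _ => ℤ) S t : Fin (N' + 1) → ℤ) := by
  have hlf : Fact l.Prime := ⟨hl⟩
  have h1 := uu_snoc S hS t ht
  have h2 : (l : ℤ) ^ K ∣ (uu (Fin.snoc (α := fun _ => ℤ) S t : Fin (N' + 1) → ℤ) : ℤ) * sf (N' + 1) := by
    rw [h1]
    exact Dvd.dvd.mul_left (hj.trans (dvd_prod_of_mem (fun j => t - S j) (mem_univ j))) _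
  by_contra h3
  have h3' : ¬ l ∣ uu (Fin.snoc (α := fun _ => ℤ) S t : Fin (N' + 1) → ℤ) := fun h => h3 (by exact_mod_cast h)
  have h4 : l ^ K ∣ uu (Fin.snoc (α := fun _ => ℤ) S t : Fin (N' + 1) → ℤ) * sf (N' + 1) := by exact_mod_cast h2
  have h5 : l ^ K ∣ sf (N' + 1) :=
    (Nat.Coprime.pow_left K ((Nat.Prime.coprime_iff_not_dvd hl).2 h3')).dvd_of_dvd_mul_left h4
  have h6 := (padicValNat_dvd_iff_le (n15_sf_ne _)).1 h5
  omega

/-- The sum over an interval of full periods.

Proof. `g s = uu (snoc S (A + s))`, `s : ℕ`; by `uu_snoc` `sf (N'+1) * g s = p.eval s` with `p = C (vd S) * ∏_j (X + C (A - S j))` of degree `≤ N'`. `sum_period` with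
`M = B - A`. -/
theorem uu_sum (l : ℕ) (hl : l.Prime) {N' K : ℕ} (hK : N' + 1 < l ^ K) (S : Fin N' → ℤ)
    (hS : StrictMono S) (A B : ℤ) (hA : ∀ j, S j < A) (hAB : A ≤ B) (h : (l : ℤ) ^ K ∣ B - A) :
    (l : ℤ) ∣ ∑ t ∈ Ico A B, (uu (Fin.snoc (α := fun _ => ℤ) S t : Fin (N' + 1) → ℤ) : ℤ) := by
  obtain ⟨M, hM⟩ := Int.eq_ofNat_of_zero_le (sub_nonneg.2 hAB)
  have hB : B = A + M := by rw [← hM]; ring
  have h1 : ∑ t ∈ Ico A B, (uu (Fin.snoc (α := fun _ => ℤ) S t : Fin (N' + 1) → ℤ) : ℤ) =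
      ∑ s ∈ range M, (uu (Fin.snoc (α := fun _ => ℤ) S (A + s) : Fin (N' + 1) → ℤ) : ℤ) := by
    symm
    refine sum_nbij (fun s : ℕ => A + (s : ℤ)) (fun s hs => ?_) (fun a _ b _ hab => ?_) (fun t ht => ?_) (fun s _ => rfl)
    · rw [mem_range] at hs
      rw [mem_Ico, hB]
      constructor <;> omega
    · have : A + (a : ℤ) = A + b := hab
      omega
    · rw [mem_coe, mem_Ico, hB] at ht
      refine ⟨(t - A).toNat, ?_, ?_⟩
      · rw [mem_coe, mem_range]
        omega
      · show A + (((t - A).toNat : ℕ) : ℤ) = t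
        omega
  rw [h1]
  refine sum_period l hl K (sf (N' + 1)) (by exact_mod_cast n15_sf_ne (N' + 1))
    (Polynomial.C (vd S) * ∏ j, (Polynomial.X + Polynomial.C (A - S j))) ?_ _ (fun t => ?_) M ?_
  · have h2 : (Polynomial.C (vd S) * ∏ j, (Polynomial.X + Polynomial.C (A - S j))).natDegree ≤ N' := by
      refine (Polynomial.natDegree_C_mul_le _ _).trans ?_
      refine (Polynomial.natDegree_prod_le _ _).trans ?_
      refine (sum_le_sum fun j _ => (Polynomial.natDegree_X_add_C (A - S j)).le).trans ?_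
      simp
    omega
  · rw [Polynomial.eval_mul, Polynomial.eval_C, Polynomial.eval_prod]
    simp only [Polynomial.eval_add, Polynomial.eval_X, Polynomial.eval_C]
    have h3 := uu_snoc S hS (A + t) (fun j => by have := hA j; omega)
    rw [mul_comm, h3]
    congr 1
    refine prod_congr rfl fun j _ => ?_
    ring
  · rw [hM] at h
    exact_mod_cast h

end NM
end H92C
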