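import Pool.Agent.Lib.H92C.N13
import Pool.Agent.Lib.H92C.N15

/-! # H92C, module N, chunk N16: the sum over the last block is prime to l (N.3) -/

open Finset

namespace H92C
namespace NM

theorem n16_onto {n : ℕ} (σ : Fin n → Fin (n + 1)) (hσ : Function.Injective σ) (i0 : Fin (n + 1)) (h0 : ∀ j, σ j ≠ i0)
    (i : Fin (n + 1)) (hi : i ≠ i0) : ∃ k, σ k = i := by
  classical
  have h1 : (univ.image σ) ⊆ univ.erase i0 := by
    intro y hy
    obtain ⟨k, _, rfl⟩ := mem_image.1 hy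
    exact mem_erase.2 ⟨h0 k, mem_univ _⟩
  have h2 : (univ.image σ) = univ.erase i0 := by
    refine eq_of_subset_of_card_le h1 ?_
    rw [card_erase_of_mem (mem_univ _), card_image_of_injective _ hσ]
    simp
  have h3 : i ∈ univ.image σ := by
    rw [h2]
    exact mem_erase.2 ⟨hi, mem_univ _⟩
  obtain ⟨k, _, hk⟩ := mem_image.1 h3
  exact ⟨k, hk⟩

theorem n16_split (g : ℤ → ℤ) {a b c : ℤ} (hab : a ≤ b) (hbc : b ≤ c) :
    ∑ t ∈ Ico a b, g t + ∑ t ∈ Ico b c, g t = ∑ t ∈ Ico a c, g t := by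
  rw [← Ico_union_Ico_eq_Ico hab hbc, sum_union (Ico_disjoint_Ico_consecutive a b c)]

/-- Proof. Let `g t = uu (snoc S t)`. The interval `[A, B + (T - 1))` has a length divisible by `l^K` (`A ≡ d0 + 2 T - 1`, `B ≡ d0 + T`), so by `uu_sum`
`∑_{[A,B)} g + g B + ∑_{1 ≤ j ≤ T - 2} g (B + j) ≡ 0 mod l` (`T ≥ 2`). For `1 ≤ j ≤ T - 2`: `x i = T + j` for some `i < N' + 1`, `i ≠ i0`; `i = σ k` for some `k` (`σ` is an injective map of `Fin N'` into
the complement of `i0`, so it is onto), and `B + j ≡ d0 + T + j ≡ S k` modulo `l^K`: `l ∣ g (B + j)` (`uu_snoc_dvd`). `g B` is prime to `l` by `uu_prime` for the row `snoc S B` and the map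
`Fin.snoc σ i0` (`B ≡ d0 + T = d0 + x i0`). So `l` does not divide the sum over `[A, B)`. -/
theorem uw_prime (l : ℕ) (hl : l.Prime) (N' K T : ℕ) (hT : 2 ≤ T) (hK : N' + 1 < l ^ K)
    (hF : padicValNat l (sf (N' + 1)) < K) (x : ℕ → ℕ) (hb : Bal l (N' + 1) x)
    (hx : ∀ i < N' + 1, ∀ j < N' + 1, x i ≡ x j [MOD l ^ K] → i = j) (i0 : Fin (N' + 1)) (hx0 : x i0 = T)
    (hxT : ∀ j, 1 ≤ j → j + 2 ≤ T → ∃ i < N' + 1, i ≠ i0 ∧ x i = T + j)
    (d0 A B : ℤ) (hAB : A < B) (hA : A ≡ d0 + (2 * T - 1) [ZMOD (l : ℤ) ^ K]) (hB : B ≡ d0 + T [ZMOD (l : ℤ) ^ K])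
    (S : Fin N' → ℤ) (hS : StrictMono S) (hSA : ∀ j, S j < A) (σ : Fin N' → Fin (N' + 1)) (hσ : Function.Injective σ)
    (hσ0 : ∀ j, σ j ≠ i0) (h : ∀ j, S j ≡ d0 + x (σ j) [ZMOD (l : ℤ) ^ K]) :
    ¬ (l : ℤ) ∣ ∑ t ∈ Ico A B, (uu (Fin.snoc (α := fun _ => ℤ) S t : Fin (N' + 1) → ℤ) : ℤ) := by
  intro hdvd
  set g : ℤ → ℤ := fun t => (uu (Fin.snoc (α := fun _ => ℤ) S t : Fin (N' + 1) → ℤ) : ℤ) with hg
  have hTz : (2 : ℤ) ≤ T := by exact_mod_cast hT
  have h1 : (l : ℤ) ∣ ∑ t ∈ Ico A (B + (T - 1)), g t := by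
    refine uu_sum l hl hK S hS A (B + (T - 1)) hSA (by omega) ?_
    have h2 := (hB.add_right ((T : ℤ) - 1)).sub hA
    have h3 : d0 + (T : ℤ) + (T - 1) - (d0 + (2 * T - 1)) = 0 := by ring
    rw [h3] at h2
    exact (Int.modEq_zero_iff_dvd).1 h2
  have h4 : ∑ t ∈ Ico A (B + (T - 1)), g t = ∑ t ∈ Ico A B, g t + (g B + ∑ t ∈ Ico (B + 1) (B + (T - 1)), g t) := by
    rw [← n16_split g hAB.le (by omega : B ≤ B + ((T : ℤ) - 1)),
      ← n16_split g (by omega : B ≤ B + 1) (by omega : B + 1 ≤ B + ((T : ℤ) - 1))]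
    congr 2
    have h5 : Ico B (B + 1) = {B} := by
      ext y
      rw [mem_Ico, mem_singleton]
      omega
    rw [h5, sum_singleton]
  have h5 : (l : ℤ) ∣ ∑ t ∈ Ico (B + 1) (B + (T - 1)), g t := by
    refine dvd_sum fun t ht => ?_
    rw [mem_Ico] at ht
    obtain ⟨j, hj⟩ := Int.eq_ofNat_of_zero_le (show 0 ≤ t - B by omega)
    have ht' : t = B + j := by rw [← hj]; ring
    obtain ⟨i, hi, hi0, hxi⟩ := hxT j (by omega) (by omega)
    obtain ⟨k, hk⟩ := n16_onto σ hσ i0 hσ0 ⟨i, hi⟩ (fun h' => hi0 (by rw [← h']))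
    refine uu_snoc_dvd l hl hF S hS t (fun j' => by have := hSA j'; omega) k ?_
    have h6 := h k
    rw [hk] at h6
    have h7 : ((x i : ℕ) : ℤ) = T + j := by rw [hxi]; push_cast; ring
    have h6' : S k ≡ d0 + (x i : ℕ) [ZMOD (l : ℤ) ^ K] := h6
    rw [h7] at h6'
    have h8 : t ≡ d0 + (T + j) [ZMOD (l : ℤ) ^ K] := by
      rw [ht', ← add_assoc]
      exact hB.add_right _
    exact (h6'.trans h8.symm).dvd
  have h6 : (l : ℤ) ∣ g B := by
    rw [h4] at h1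
    have h7 := (dvd_add_right hdvd).1 h1
    exact (dvd_add_left h5).1 h7
  have h6' : (l : ℤ) ∣ (uu (Fin.snoc (α := fun _ => ℤ) S B : Fin (N' + 1) → ℤ) : ℤ) := h6
  have h7 : l ∣ uu (Fin.snoc (α := fun _ => ℤ) S B : Fin (N' + 1) → ℤ) := by exact_mod_cast h6'
  refine uu_prime l hl (N' + 1) K x hb hx _ (snoc_mono S hS B fun j => by have := hSA j; omega) d0
    (Fin.snoc (α := fun _ => Fin (N' + 1)) σ i0) (fun a b hab => ?_) (fun j => ?_) h7
  · induction a using Fin.lastCases with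
    | last =>
      induction b using Fin.lastCases with
      | last => rfl
      | cast b =>
        rw [Fin.snoc_castSucc, Fin.snoc_last] at hab
        exact absurd hab.symm (hσ0 b)
    | cast a =>
      induction b using Fin.lastCases with
      | last =>
        rw [Fin.snoc_castSucc, Fin.snoc_last] at hab
        exact absurd hab (hσ0 a)
      | cast b =>
        rw [Fin.snoc_castSucc, Fin.snoc_castSucc] at hab
        rw [hσ hab]
  · induction j using Fin.lastCases with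
    | last =>
      rw [Fin.snoc_last, Fin.snoc_last, hx0]
      exact hB
    | cast j =>
      rw [Fin.snoc_castSucc, Fin.snoc_castSucc]
      exact h j

end NM
end H92C
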