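import Pool.Agent.Lib.H92C.N17

/-! # H92C, module N, chunk N18: the vectors v_G are in KK -/

open Finset

namespace H92C
namespace NM

theorem n18_mono (D : ℕ → ℤ) (M : ℕ) (hD : ∀ i < M, D i < D (i + 1)) {a b : ℕ} (hab : a ≤ b) (hb : b ≤ M) : D a ≤ D b := by
  induction b, hab using Nat.le_induction with
  | base => exact le_refl _
  | succ b _ ih => exact (ih (by omega)).trans (hD b (by omega)).le

/-- Proof. `D j ≤ G j < D (j + 1) ≤ D k ≤ G k` for `j < k`. -/
theorem Bo_mono (D : ℕ → ℤ) (N' : ℕ) (hD : ∀ i ≤ N' + 1, D i < D (i + 1)) (G : Fin (N' + 1) → ℤ) (hG : G ∈ Bo D N') :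
    StrictMono G := by
  intro j k hjk
  have h1 := Finset.mem_Ico.1 (Fintype.mem_piFinset.1 hG j)
  have h2 := Finset.mem_Ico.1 (Fintype.mem_piFinset.1 hG k)
  have h3 : D ((j : ℕ) + 1) ≤ D k := n18_mono D (N' + 1) (fun i hi => hD i (by omega)) (by have : (j : ℕ) < k := hjk; omega) (by omega)
  omega

/-- Proof. The same. -/
theorem Bo_lt (D : ℕ → ℤ) (N' : ℕ) (hD : ∀ i ≤ N' + 1, D i < D (i + 1)) (G : Fin (N' + 1) → ℤ) (hG : G ∈ Bo D N') (j : Fin (N' + 1)) :
    G j < D (N' + 1) := by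
  have h1 := Finset.mem_Ico.1 (Fintype.mem_piFinset.1 hG j)
  have h3 : D ((j : ℕ) + 1) ≤ D (N' + 1) := n18_mono D (N' + 1) (fun i hi => hD i (by omega)) (by omega) (by omega)
  omega

theorem n18_dl {N' : ℕ} (G : Fin (N' + 1) → ℤ) (s : ℤ) (i : Fin (N' + 1)) :
    dl (Fin.snoc (α := fun _ => ℤ) G s : Fin (N' + 2) → ℤ) i.castSucc =
      (Fin.snoc (α := fun _ => ℤ) (fun j => G (i.succAbove j)) s : Fin (N' + 1) → ℤ) := by
  funext j
  unfold dl
  induction j using Fin.lastCases with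
  | last =>
    have h : i.castSucc.succAbove (Fin.last N') = Fin.last (N' + 1) := by
      rw [Fin.succAbove_of_le_castSucc]
      · rfl
      · exact Fin.castSucc_le_castSucc_iff.2 (Fin.le_last i)
    rw [h, Fin.snoc_last, Fin.snoc_last]
  | cast j =>
    rw [Fin.castSucc_succAbove_castSucc, Fin.snoc_castSucc, Fin.snoc_castSucc]

theorem n18_dl_last {N' : ℕ} (G : Fin (N' + 1) → ℤ) (s : ℤ) :
    dl (Fin.snoc (α := fun _ => ℤ) G s : Fin (N' + 2) → ℤ) (Fin.last (N' + 1)) = G := by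
  funext j
  unfold dl
  rw [Fin.succAbove_last, Fin.snoc_castSucc]

/-- The relation (R).

Proof. The sum over `t` in the block `i` of `vec D N' G i t * p(t)` is `uw D N' G i * p(G i)` (only `t = G i`, which is in the block). For each `s` in the last block apply
`lagr_uu` (`N := N' + 1`) to the row `snoc G s` of length `N' + 2` (strictly increasing): `dl (snoc G s) (castSucc i) = snoc (fun j => G (i.succAbove j)) s`
(`Fin.castSucc_succAbove_castSucc`, ..) and `dl (snoc G s) (last) = G`. Sum over `s`: `∑_i (-1)^i uw i p(G i) + (-1)^(N'+1) uu G ∑_s p(s) = 0`. -/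
theorem vec_KK (D : ℕ → ℤ) (N' : ℕ) (hD : ∀ i ≤ N' + 1, D i < D (i + 1)) (G : Fin (N' + 1) → ℤ) (hG : G ∈ Bo D N') :
    KK D N' (vec D N' G) := by
  intro p hp hsum
  have hmono := Bo_mono D N' hD G hG
  have h1 : ∀ i : Fin (N' + 1), ∑ t ∈ Ico (D i) (D ((i : ℕ) + 1)), (vec D N' G i t : ℚ) * p.eval (t : ℚ) =
      (uw D N' G i : ℚ) * p.eval (G i : ℚ) := by
    intro i
    rw [sum_eq_single (G i)]
    · unfold vec
      rw [if_pos rfl]
    · intro t _ ht
      unfold vec
      rw [if_neg (Ne.symm ht)]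
      simp
    · intro h
      exact absurd (Fintype.mem_piFinset.1 hG i) h
  have h2 : ∀ s ∈ Ico (D (N' + 1)) (D (N' + 2)),
      ∑ i : Fin (N' + 1), (-1 : ℚ) ^ (i : ℕ) *
        ((uu (Fin.snoc (α := fun _ => ℤ) (fun j => G (i.succAbove j)) s : Fin (N' + 1) → ℤ) : ℚ) * p.eval (G i : ℚ)) +
        (-1 : ℚ) ^ (N' + 1) * (uu G : ℚ) * p.eval (s : ℚ) = 0 := by
    intro s hs
    have h3 : StrictMono (Fin.snoc (α := fun _ => ℤ) G s : Fin (N' + 2) → ℤ) := by
      intro i j hij
      induction i using Fin.lastCases with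
      | last => exact absurd hij (not_lt.2 (Fin.le_last j))
      | cast i =>
        induction j using Fin.lastCases with
        | last =>
          rw [Fin.snoc_castSucc, Fin.snoc_last]
          exact lt_of_lt_of_le (Bo_lt D N' hD G hG i) (Finset.mem_Ico.1 hs).1
        | cast j => rw [Fin.snoc_castSucc, Fin.snoc_castSucc]; exact hmono (Fin.castSucc_lt_castSucc_iff.1 hij)
    have h4 := lagr_uu (Fin.snoc (α := fun _ => ℤ) G s : Fin (N' + 2) → ℤ) h3 p (Nat.lt_succ_of_le hp)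
    rw [Fin.sum_univ_castSucc] at h4
    simp only [n18_dl, n18_dl_last, Fin.snoc_castSucc, Fin.snoc_last, Fin.val_castSucc, Fin.val_last] at h4
    rw [← h4]
    congr 1
    refine sum_congr rfl fun i _ => ?_
    ring
  have h5 := sum_congr rfl h2
  rw [sum_const_zero, sum_add_distrib, sum_comm, ← mul_sum, hsum, mul_zero, add_zero] at h5
  rw [← h5]
  refine sum_congr rfl fun i _ => ?_
  rw [h1, ← mul_sum, ← sum_mul]
  congr 2
  unfold uw
  push_cast
  rfl

end NM
end H92C
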