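import Pool.Agent.Lib.H92C.N00

/-! # H92C, module N, chunk N19: closure properties of KK and Sp -/

open Finset

namespace H92C
namespace NM

/-- Proof. Linearity. -/
theorem KK_lin (D : ℕ → ℤ) (N' : ℕ) (y y' : Fin (N' + 1) → ℤ → ℤ) (a b : ℤ) (hy : KK D N' y) (hy' : KK D N' y') :
    KK D N' (fun i t => a * y i t + b * y' i t) := by
  intro p hp hs
  have h1 := hy p hp hs
  have h2 := hy' p hp hs
  have h3 : ∑ i : Fin (N' + 1), (-1 : ℚ) ^ (i : ℕ) * ∑ t ∈ Ico (D i) (D ((i : ℕ) + 1)),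
      ((a * y i t + b * y' i t : ℤ) : ℚ) * p.eval (t : ℚ) =
      (a : ℚ) * (∑ i : Fin (N' + 1), (-1 : ℚ) ^ (i : ℕ) * ∑ t ∈ Ico (D i) (D ((i : ℕ) + 1)),
        (y i t : ℚ) * p.eval (t : ℚ)) +
      (b : ℚ) * (∑ i : Fin (N' + 1), (-1 : ℚ) ^ (i : ℕ) * ∑ t ∈ Ico (D i) (D ((i : ℕ) + 1)),
        (y' i t : ℚ) * p.eval (t : ℚ)) := by
    rw [Finset.mul_sum, Finset.mul_sum, ← Finset.sum_add_distrib]
    refine Finset.sum_congr rfl fun i _ => ?_
    have h4 : ∑ t ∈ Ico (D i) (D ((i : ℕ) + 1)), ((a * y i t + b * y' i t : ℤ) : ℚ) * p.eval (t : ℚ) =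
        (a : ℚ) * (∑ t ∈ Ico (D i) (D ((i : ℕ) + 1)), (y i t : ℚ) * p.eval (t : ℚ)) +
        (b : ℚ) * (∑ t ∈ Ico (D i) (D ((i : ℕ) + 1)), (y' i t : ℚ) * p.eval (t : ℚ)) := by
      rw [Finset.mul_sum, Finset.mul_sum, ← Finset.sum_add_distrib]
      refine Finset.sum_congr rfl fun t _ => ?_
      push_cast
      ring
    rw [h4]
    ring
  rw [h3, h1, h2]
  ring

/-- Proof. `c = 1`, `mm = 0`. -/
theorem Sp_zero (l : ℕ) (hl : l.Prime) (D : ℕ → ℤ) (N' : ℕ) (y : Fin (N' + 1) → ℤ → ℤ)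
    (h : ∀ i : Fin (N' + 1), ∀ t ∈ Ico (D i) (D ((i : ℕ) + 1)), y i t = 0) : Sp l D N' y := by
  refine ⟨1, ?_, fun _ => 0, ?_⟩
  · intro h1
    have h2 := Int.eq_one_of_dvd_one (by positivity) h1
    have h3 := hl.one_lt
    omega
  · intro i t ht
    rw [h i t ht]
    simp

/-- Proof. If `c (u y - a v_G) = ∑ mm v` then `(c u) y = ∑ mm v + c a v_G = ∑ (mm + c a [G' = G]) v_{G'}` and `c u` is prime to `l`. -/
theorem Sp_step (l : ℕ) (hl : l.Prime) (D : ℕ → ℤ) (N' : ℕ) (y : Fin (N' + 1) → ℤ → ℤ) (G : Fin (N' + 1) → ℤ) (hG : G ∈ Bo D N')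
    (u a : ℤ) (hu : ¬ (l : ℤ) ∣ u) (h : Sp l D N' (fun i t => u * y i t - a * vec D N' G i t)) : Sp l D N' y := by
  classical
  obtain ⟨c, hc, mm, hmm⟩ := h
  refine ⟨c * u, ?_, fun G' => mm G' + if G' = G then c * a else 0, ?_⟩
  · intro h1
    rcases (Nat.prime_iff_prime_int.1 hl).dvd_or_dvd h1 with h2 | h2
    · exact hc h2
    · exact hu h2
  · intro i t ht
    have h1 := hmm i t ht
    have h2 : ∑ G' ∈ Bo D N', (mm G' + if G' = G then c * a else 0) * vec D N' G' i t =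
        (∑ G' ∈ Bo D N', mm G' * vec D N' G' i t) + c * a * vec D N' G i t := by
      have h3 : ∀ G' : Fin (N' + 1) → ℤ, (mm G' + if G' = G then c * a else 0) * vec D N' G' i t =
          mm G' * vec D N' G' i t + (if G' = G then c * a * vec D N' G i t else 0) := by
        intro G'
        by_cases h4 : G' = G
        · rw [if_pos h4, if_pos h4, h4]; ring
        · rw [if_neg h4, if_neg h4]; ring
      rw [Finset.sum_congr rfl fun G' _ => h3 G', Finset.sum_add_distrib, Finset.sum_ite_eq' (Bo D N') G,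
        if_pos hG]
    rw [h2, ← h1]
    ring

end NM
end H92C
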