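import Pool.Agent.Lib.H92C.N00

/-! # H92C, module N, chunk N20: an element of KK which lives on the chosen points is zero -/

open Finset

namespace H92C
namespace NM

/-- Proof. Only the values `y j (p j)`, `j ≠ i0`, can be nonzero. Fix `j ≠ i0`. Let `A = ∏_{i ≠ i0, j} (X - C (p i))` (degree `N' - 1`; all `p i < D (N' + 1)`, so
`A(t) > 0` for `t` in the last block), `S0 = ∑_t A(t) > 0`, `S1 = ∑_t t A(t)` (`t` in the last block, which is not empty) and `P = (C S0 * X - C S1) * A`: degree `≤ N'`, `∑_t P(t) = S0 S1 - S1 S0 = 0`. `KK` for `P`: all terms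
with `i ≠ j` vanish (`P (p i) = 0`), so `y j (p j) * P (p j) = 0`, and `P (p j) = (S0 p_j - S1) A(p_j)` with `S0 p_j - S1 = ∑_t (p_j - t) A(t) < 0`, `A (p j) ≠ 0` (the `p i` are distinct:
`D i ≤ p i < D (i + 1)`). -/
theorem KK_zero (D : ℕ → ℤ) (N' : ℕ) (hD : ∀ i ≤ N' + 1, D i < D (i + 1)) (i0 : Fin (N' + 1)) (p : Fin (N' + 1) → ℤ)
    (hp : ∀ i : Fin (N' + 1), D i ≤ p i ∧ p i < D ((i : ℕ) + 1)) (y : Fin (N' + 1) → ℤ → ℤ) (hy : KK D N' y)
    (h0 : ∀ t ∈ Ico (D i0) (D ((i0 : ℕ) + 1)), y i0 t = 0)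
    (h1 : ∀ j, j ≠ i0 → ∀ t ∈ Ico (D j) (D ((j : ℕ) + 1)), t ≠ p j → y j t = 0) :
    ∀ j : Fin (N' + 1), ∀ t ∈ Ico (D j) (D ((j : ℕ) + 1)), y j t = 0 := by
  classical
  intro j t ht
  by_cases hj : j = i0
  · subst hj; exact h0 t ht
  by_cases htp : t = p j
  swap
  · exact h1 j hj t ht htp
  subst htp
  -- monotonicity
  have hmono : ∀ a b : ℕ, a ≤ b → b ≤ N' + 2 → D a ≤ D b := by
    intro a b hab
    induction b, hab using Nat.le_induction with
    | base => intro _; exact le_rfl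
    | succ b hab ih =>
      intro hb
      exact (ih (by omega)).trans (hD b (by omega)).le
  have hpN : ∀ i, p i < D (N' + 1) := fun i =>
    (hp i).2.trans_le (hmono _ _ (by have := i.isLt; omega) (by omega))
  have hpinj : ∀ i k : Fin (N' + 1), i < k → p i < p k := fun i k hik =>
    (hp i).2.trans_le ((hmono _ _ (by have : (i : ℕ) < k := hik; omega) (by have := k.isLt; omega)).trans (hp k).1)
  have hpne : ∀ i, i ≠ j → p j ≠ p i := by
    intro i hij
    rcases lt_or_gt_of_ne hij with h | h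
    · exact (hpinj _ _ h).ne'
    · exact (hpinj _ _ h).ne
  set Bk := Ico (D (N' + 1)) (D (N' + 2)) with hBk
  have hBne : Bk.Nonempty := by
    refine ⟨D (N' + 1), ?_⟩
    rw [hBk, mem_Ico]
    exact ⟨le_rfl, hD (N' + 1) le_rfl⟩
  set I := (univ.erase i0).erase j with hI
  set A : Polynomial ℚ := ∏ i ∈ I, (Polynomial.X - Polynomial.C (p i : ℚ)) with hA
  have hAe : ∀ x : ℚ, A.eval x = ∏ i ∈ I, (x - p i) := by
    intro x
    rw [hA, Polynomial.eval_prod]
    simp
  have hcard : I.card + 2 = N' + 1 := by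
    have e1 : (univ.erase i0 : Finset (Fin (N' + 1))).card = N' := by
      rw [card_erase_of_mem (mem_univ _), card_univ, Fintype.card_fin]; omega
    have hjm : j ∈ (univ.erase i0 : Finset (Fin (N' + 1))) := mem_erase.2 ⟨hj, mem_univ _⟩
    have e2 := card_erase_add_one hjm
    rw [hI]
    omega
  have hAd : A.natDegree ≤ I.card := by
    rw [hA]
    refine (Polynomial.natDegree_prod_le _ _).trans ?_
    refine (sum_le_sum fun i _ => (Polynomial.natDegree_X_sub_C_le (p i : ℚ))).trans ?_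
    simp
  have hApos : ∀ s ∈ Bk, 0 < A.eval (s : ℚ) := by
    intro s hs
    rw [hAe]
    refine prod_pos fun i _ => ?_
    have h2 := (mem_Ico.1 hs).1
    have h3 := hpN i
    have h4 : (p i : ℚ) < s := by exact_mod_cast h3.trans_le h2
    linarith
  set S0 : ℚ := ∑ s ∈ Bk, A.eval (s : ℚ) with hS0
  set S1 : ℚ := ∑ s ∈ Bk, (s : ℚ) * A.eval (s : ℚ) with hS1
  have hS0pos : 0 < S0 := sum_pos hApos hBne
  set P : Polynomial ℚ := (Polynomial.C S0 * Polynomial.X - Polynomial.C S1) * A with hP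
  have hPe : ∀ x : ℚ, P.eval x = (S0 * x - S1) * A.eval x := by
    intro x
    rw [hP]
    simp
  have hPd : P.natDegree ≤ N' := by
    rw [hP]
    refine Polynomial.natDegree_mul_le.trans ?_
    have h2 : (Polynomial.C S0 * Polynomial.X - Polynomial.C S1).natDegree ≤ 1 := by
      refine (Polynomial.natDegree_sub_le _ _).trans ?_
      rw [Polynomial.natDegree_C]
      have h3 : (Polynomial.C S0 * Polynomial.X : Polynomial ℚ).natDegree ≤ 1 :=
        (Polynomial.natDegree_C_mul_le _ _).trans Polynomial.natDegree_X_le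
      omega
    omega
  have hPs : ∑ s ∈ Bk, P.eval (s : ℚ) = 0 := by
    have e1 : ∑ s ∈ Bk, P.eval (s : ℚ) = S0 * ∑ s ∈ Bk, (s : ℚ) * A.eval (s : ℚ) - S1 * ∑ s ∈ Bk, A.eval (s : ℚ) := by
      rw [mul_sum, mul_sum, ← sum_sub_distrib]
      refine sum_congr rfl fun s _ => ?_
      rw [hPe]
      ring
    rw [e1, ← hS0, ← hS1]
    ring
  have hk := hy P hPd hPs
  have hpm : ∀ i : Fin (N' + 1), p i ∈ Ico (D i) (D ((i : ℕ) + 1)) := fun i => mem_Ico.2 (hp i)
  have hterm : ∀ i : Fin (N' + 1), i ≠ j →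
      (-1 : ℚ) ^ (i : ℕ) * ∑ t ∈ Ico (D i) (D ((i : ℕ) + 1)), (y i t : ℚ) * P.eval (t : ℚ) = 0 := by
    intro i hij
    by_cases hi : i = i0
    · subst hi
      rw [sum_eq_zero, mul_zero]
      intro t ht
      rw [h0 t ht]
      simp
    · rw [sum_eq_zero, mul_zero]
      intro t ht
      by_cases hti : t = p i
      · subst hti
        have h2 : A.eval (p i : ℚ) = 0 := by
          rw [hAe]
          refine prod_eq_zero (i := i) ?_ (sub_self _)
          rw [hI]
          exact mem_erase.2 ⟨hij, mem_erase.2 ⟨hi, mem_univ _⟩⟩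
        rw [hPe, h2]
        ring
      · rw [h1 i hi t ht hti]
        simp
  rw [sum_eq_single j (fun i _ hij => hterm i hij) (fun h => absurd (mem_univ _) h)] at hk
  have hin : ∑ t ∈ Ico (D j) (D ((j : ℕ) + 1)), (y j t : ℚ) * P.eval (t : ℚ) = (y j (p j) : ℚ) * P.eval (p j : ℚ) := by
    refine sum_eq_single (p j) ?_ (fun h => absurd (hpm j) h)
    intro t ht htj
    rw [h1 j hj t ht htj]
    simp
  rw [hin] at hk
  have hneg : S0 * (p j : ℚ) - S1 < 0 := by
    have e1 : S1 - S0 * (p j : ℚ) = ∑ s ∈ Bk, ((s : ℚ) - p j) * A.eval (s : ℚ) := by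
      rw [hS0, hS1, sum_mul, ← sum_sub_distrib]
      refine sum_congr rfl fun s _ => ?_
      ring
    have e2 : 0 < ∑ s ∈ Bk, ((s : ℚ) - p j) * A.eval (s : ℚ) := by
      refine sum_pos (fun s hs => ?_) hBne
      have h2 := (mem_Ico.1 hs).1
      have h3 := hpN j
      have h4 : (p j : ℚ) < s := by exact_mod_cast h3.trans_le h2
      exact mul_pos (by linarith) (hApos s hs)
    linarith
  have hAj : A.eval (p j : ℚ) ≠ 0 := by
    rw [hAe, prod_ne_zero_iff]
    intro i hi
    have h2 : i ≠ j := (mem_erase.1 hi).1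
    have h3 := hpne i h2
    rw [sub_ne_zero]
    exact_mod_cast h3
  rw [hPe] at hk
  have h5 : (y j (p j) : ℚ) = 0 := by
    rcases mul_eq_zero.1 hk with h6 | h6
    · exact absurd h6 (pow_ne_zero _ (by norm_num))
    · rcases mul_eq_zero.1 h6 with h7 | h7
      · exact h7
      · rcases mul_eq_zero.1 h7 with h8 | h8
        · exact absurd h8 hneg.ne
        · exact absurd h8 hAj
  exact_mod_cast h5

end NM
end H92C
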