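import Pool.Agent.Lib.H92C.N18

/-! # H92C, module N, chunk N21: the pivots -/

open Finset

namespace H92C
namespace NM

/-- The hypotheses of the elimination. -/
structure Piv (l K : ℕ) (D : ℕ → ℤ) (N' : ℕ) (i0 : Fin (N' + 1)) (p : Fin (N' + 1) → ℤ) : Prop where
  hl : l.Prime
  hD : ∀ i ≤ N' + 1, D i < D (i + 1)
  hp : ∀ i : Fin (N' + 1), D i ≤ p i ∧ p i < D ((i : ℕ) + 1)
  long : ∀ i : Fin (N' + 1), ∃ s, D i0 ≤ s ∧ s < D ((i0 : ℕ) + 1) ∧ s ≡ p i [ZMOD (l : ℤ) ^ K]
  prime : ∀ S : Fin N' → ℤ, StrictMono S → (∀ j, S j < D (N' + 1)) → ∀ σ : Fin N' → Fin (N' + 1), Function.Injective σ →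
    (∀ j, σ j ≠ i0) → (∀ j, S j ≡ p (σ j) [ZMOD (l : ℤ) ^ K]) →
    ¬ (l : ℤ) ∣ ∑ t ∈ Ico (D (N' + 1)) (D (N' + 2)), (uu (Fin.snoc (α := fun _ => ℤ) S t : Fin (N' + 1) → ℤ) : ℤ)

/-- Proof. `s0` in the block `i0` with `s0 ≡ p i` (`long`; for `i = i0` take `s0 = p i0`), `G = update (update p i0 s0) i s`. `G ∈ Bo`. `uw D N' G i` is prime to `l`: the row
`S j = G (i.succAbove j)` is strictly increasing (`Bo_mono`) and below `D (N' + 1)` (`Bo_lt`), and `S j ≡ p (σ j)` with `σ j = Equiv.swap i i0 (i.succAbove j)` (which is never `i0`): if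
`i.succAbove j = i0` then `S j = s0 ≡ p i`, otherwise `S j = p (i.succAbove j)`. The other claims: `G j = p j` for `j ≠ i, i0`, and `G i = s`. -/
theorem pivot {l K : ℕ} {D : ℕ → ℤ} {N' : ℕ} {i0 : Fin (N' + 1)} {p : Fin (N' + 1) → ℤ} (H : Piv l K D N' i0 p)
    (i : Fin (N' + 1)) (s : ℤ) (hs : s ∈ Ico (D i) (D ((i : ℕ) + 1))) :
    ∃ G ∈ Bo D N', ¬ (l : ℤ) ∣ vec D N' G i s ∧ (∀ t, t ≠ s → vec D N' G i t = 0) ∧
      ∀ j, j ≠ i0 → j ≠ i → ∀ t, t ≠ p j → vec D N' G j t = 0 := by
  obtain ⟨s0, h1, h2, h3⟩ := H.long i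
  rw [Finset.mem_Ico] at hs
  have hGi : Function.update (Function.update p i0 s0) i s i = s := Function.update_self _ _ _
  have hG0 : i0 ≠ i → Function.update (Function.update p i0 s0) i s i0 = s0 := fun h => by
    rw [Function.update_of_ne h, Function.update_self]
  have hGj : ∀ j, j ≠ i0 → j ≠ i → Function.update (Function.update p i0 s0) i s j = p j := fun j h h' => by
    rw [Function.update_of_ne h', Function.update_of_ne h]
  have hB : Function.update (Function.update p i0 s0) i s ∈ Bo D N' := by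
    unfold Bo
    rw [Fintype.mem_piFinset]
    intro j
    rw [Finset.mem_Ico]
    by_cases hj : j = i
    · subst hj
      rw [hGi]
      exact hs
    · by_cases hj0 : j = i0
      · subst hj0
        rw [hG0 hj]
        exact ⟨h1, h2⟩
      · rw [hGj j hj0 hj]
        exact H.hp j
  generalize Function.update (Function.update p i0 s0) i s = G at hGi hG0 hGj hB
  refine ⟨G, hB, ?_, fun t ht => ?_, fun j hj hji t ht => ?_⟩
  · unfold vec
    rw [if_pos hGi]
    unfold uw
    refine H.prime (fun j => G (i.succAbove j)) (fun a b hab => Bo_mono D N' H.hD G hB (Fin.strictMono_succAbove i hab))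
      (fun j => Bo_lt D N' H.hD G hB _) (fun j => Equiv.swap i i0 (i.succAbove j)) (fun a b hab => ?_) (fun j hj => ?_)
      (fun j => ?_)
    · exact Fin.succAbove_right_injective ((Equiv.swap i i0).injective hab)
    · have h4 : i.succAbove j = i := by
        have h5 := congrArg (Equiv.swap i i0) hj
        rwa [Equiv.swap_apply_self, Equiv.swap_apply_right] at h5
      exact Fin.succAbove_ne i j h4
    · show G (i.succAbove j) ≡ p (Equiv.swap i i0 (i.succAbove j)) [ZMOD (l : ℤ) ^ K]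
      by_cases h4 : i.succAbove j = i0
      · rw [h4, Equiv.swap_apply_right, hG0 (fun h5 => Fin.succAbove_ne i j (h4.trans h5))]
        exact h3
      · rw [Equiv.swap_apply_of_ne_of_ne (Fin.succAbove_ne i j) h4, hGj _ h4 (Fin.succAbove_ne i j)]
  · unfold vec
    rw [hGi, if_neg (Ne.symm ht)]
  · unfold vec
    rw [hGj j hj hji, if_neg (Ne.symm ht)]

end NM
end H92C
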