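import Pool.Agent.Lib.H92C.N19
import Pool.Agent.Lib.H92C.N20
import Pool.Agent.Lib.H92C.N21

/-! # H92C, module N, chunk N22: elimination (N.5) -/

open Finset

namespace H92C
namespace NM

theorem n22_red {l K : ℕ} {D : ℕ → ℤ} {N' : ℕ} {i0 : Fin (N' + 1)} {p : Fin (N' + 1) → ℤ} (H : Piv l K D N' i0 p)
    (y : Fin (N' + 1) → ℤ → ℤ) (hy : KK D N' y) (i : Fin (N' + 1)) (s : ℤ)
    (hs : s ∈ Ico (D i) (D ((i : ℕ) + 1))) :
    ∃ u : ℤ, ¬ (l : ℤ) ∣ u ∧ ∃ y' : Fin (N' + 1) → ℤ → ℤ, KK D N' y' ∧ y' i s = 0 ∧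
      (∀ t, t ≠ s → y' i t = u * y i t) ∧
      (∀ j, j ≠ i0 → j ≠ i → ∀ t, t ≠ p j → y' j t = u * y j t) ∧
      (Sp l D N' y' → Sp l D N' y) := by
  obtain ⟨G, hG, hu, h1, h2⟩ := pivot H i s hs
  refine ⟨vec D N' G i s, hu, fun j t => vec D N' G i s * y j t - y i s * vec D N' G j t, ?_, ?_,
    ?_, ?_, ?_⟩
  · have h := KK_lin D N' y (vec D N' G) (vec D N' G i s) (-(y i s)) hy (vec_KK D N' H.hD G hG)
    have e : (fun (j : Fin (N' + 1)) (t : ℤ) => vec D N' G i s * y j t + -(y i s) * vec D N' G j t) =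
        fun j t => vec D N' G i s * y j t - y i s * vec D N' G j t := by
      funext j t; ring
    rwa [e] at h
  · ring
  · intro t ht
    show vec D N' G i s * y i t - y i s * vec D N' G i t = _
    rw [h1 t ht]; ring
  · intro j hj hji t ht
    show vec D N' G i s * y j t - y i s * vec D N' G j t = _
    rw [h2 j hj hji t ht]; ring
  · exact fun h => Sp_step l H.hl D N' y G hG _ _ hu h

/-- Proof. Induction on the number of the `t` in the block `i0` with `y i0 t ≠ 0`. If there is none, `KK_zero` and `Sp_zero`. Otherwise let `y i0 s ≠ 0`, `G` from `pivot` for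
`(i0, s)`, `u = vec G i0 s`: `y' = u y - (y i0 s) vec G` is in `KK` (`KK_lin`, `vec_KK`), vanishes at `(i0, s)` and at all `(i0, t)`, `t ≠ s`, where `y` does, and at the `(j, t)`, `j ≠ i0`,
`t ≠ p j`. So `Sp y'` by induction and `Sp y` by `Sp_step`. -/
theorem elimB {l K : ℕ} {D : ℕ → ℤ} {N' : ℕ} {i0 : Fin (N' + 1)} {p : Fin (N' + 1) → ℤ} (H : Piv l K D N' i0 p)
    (y : Fin (N' + 1) → ℤ → ℤ) (hy : KK D N' y)
    (h1 : ∀ j, j ≠ i0 → ∀ t ∈ Ico (D j) (D ((j : ℕ) + 1)), t ≠ p j → y j t = 0) : Sp l D N' y := by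
  classical
  suffices h : ∀ m : ℕ, ∀ y : Fin (N' + 1) → ℤ → ℤ, KK D N' y →
      (∀ j, j ≠ i0 → ∀ t ∈ Ico (D j) (D ((j : ℕ) + 1)), t ≠ p j → y j t = 0) →
      ((Ico (D i0) (D ((i0 : ℕ) + 1))).filter fun t => y i0 t ≠ 0).card = m → Sp l D N' y from
    h _ y hy h1 rfl
  intro m
  induction m using Nat.strong_induction_on with
  | _ m ih =>
    intro y hy h1 hm
    by_cases h0 : ∀ t ∈ Ico (D i0) (D ((i0 : ℕ) + 1)), y i0 t = 0
    · exact Sp_zero l H.hl D N' y (KK_zero D N' H.hD i0 p H.hp y hy h0 h1)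
    · push Not at h0
      obtain ⟨s, hs, hys⟩ := h0
      obtain ⟨u, hu, y', hy', a1, a2, a3, a4⟩ := n22_red H y hy i0 s hs
      refine a4 (ih _ ?_ y' hy' ?_ rfl)
      · rw [← hm]
        apply Finset.card_lt_card
        rw [Finset.ssubset_iff_of_subset]
        · refine ⟨s, Finset.mem_filter.2 ⟨hs, hys⟩, fun hc => ?_⟩
          exact (Finset.mem_filter.1 hc).2 a1
        · intro t ht
          rw [Finset.mem_filter] at ht ⊢
          refine ⟨ht.1, fun hc => ht.2 ?_⟩
          by_cases hts : t = s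
          · rw [hts]; exact a1
          · rw [a2 t hts, hc, mul_zero]
      · intro j hj t ht htp
        rw [a3 j hj hj t htp, h1 j hj t ht htp, mul_zero]

/-- Proof. Induction on the number of the pairs `(j, t)`, `j ≠ i0`, `t` in the block `j`, `t ≠ p j`, with `y j t ≠ 0`; no such pair: `elimB`. Otherwise take one, `(i, s)`, and `G` from `pivot`,
`y' = u y - (y i s) vec G` with `u = vec G i s`: it vanishes at `(i, s)`, and at all the pairs `(j, t)` as above where `y` vanishes. -/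
theorem elim {l K : ℕ} {D : ℕ → ℤ} {N' : ℕ} {i0 : Fin (N' + 1)} {p : Fin (N' + 1) → ℤ} (H : Piv l K D N' i0 p)
    (y : Fin (N' + 1) → ℤ → ℤ) (hy : KK D N' y) : Sp l D N' y := by
  classical
  suffices h : ∀ m : ℕ, ∀ y : Fin (N' + 1) → ℤ → ℤ, KK D N' y →
      ((univ : Finset (Fin (N' + 1))).sigma fun j => (Ico (D j) (D ((j : ℕ) + 1))).filter fun t =>
        j ≠ i0 ∧ t ≠ p j ∧ y j t ≠ 0).card = m → Sp l D N' y from
    h _ y hy rfl
  intro m
  induction m using Nat.strong_induction_on with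
  | _ m ih =>
    intro y hy hm
    by_cases h0 : ∀ j, j ≠ i0 → ∀ t ∈ Ico (D j) (D ((j : ℕ) + 1)), t ≠ p j → y j t = 0
    · exact elimB H y hy h0
    · push Not at h0
      obtain ⟨i, hi, s, hs, hsp, hys⟩ := h0
      obtain ⟨u, hu, y', hy', a1, a2, a3, a4⟩ := n22_red H y hy i s hs
      refine a4 (ih _ ?_ y' hy' rfl)
      rw [← hm]
      apply Finset.card_lt_card
      rw [Finset.ssubset_iff_of_subset]
      · refine ⟨⟨i, s⟩, ?_, fun hc => ?_⟩
        · rw [Finset.mem_sigma]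
          exact ⟨Finset.mem_univ _, Finset.mem_filter.2 ⟨hs, hi, hsp, hys⟩⟩
        · rw [Finset.mem_sigma] at hc
          exact (Finset.mem_filter.1 hc.2).2.2.2 a1
      · rintro ⟨j, t⟩ ht
        rw [Finset.mem_sigma] at ht ⊢
        refine ⟨Finset.mem_univ _, ?_⟩
        have ht' := ht.2
        rw [Finset.mem_filter] at ht' ⊢
        obtain ⟨b1, b2, b3, b4⟩ := ht'
        refine ⟨b1, b2, b3, fun hc => b4 ?_⟩
        by_cases hji : j = i
        · subst hji
          by_cases hts : t = s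
          · rw [hts]; exact a1
          · have := a2 t hts
            rw [this, hc, mul_zero]
        · have := a3 j b2 hji t b3
          rw [this, hc, mul_zero]

end NM
end H92C
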