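import Pool.Agent.Lib.H92C.N17

/-! # H92C, module N, chunk N23: the vector b (N.6) -/

open Finset

namespace H92C
namespace NM

theorem n23_mono {D : ℕ → ℤ} {N : ℕ} (hD : ∀ i ≤ N, D i < D (i + 1)) {i j : ℕ} (h : i < j) (hj : j ≤ N + 1) :
    D i < D j := by
  induction j with
  | zero => omega
  | succ j ih =>
    rcases Nat.lt_succ_iff_lt_or_eq.1 h with h1 | h1
    · exact (ih h1 (by omega)).trans (hD j (by omega))
    · subst h1
      exact hD i (by omega)

theorem n23_ne {D : ℕ → ℤ} {N : ℕ} (hD : ∀ i ≤ N, D i < D (i + 1)) {i : ℕ} (hi : i ≤ N + 1) : dpr D N i ≠ 0 := by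
  unfold dpr
  rw [Finset.prod_ne_zero_iff]
  intro j hj
  rw [Finset.mem_erase, Finset.mem_range] at hj
  rw [Int.natAbs_ne_zero]
  rcases lt_or_gt_of_ne hj.1 with h | h
  · have := n23_mono hD h hi
    omega
  · have := n23_mono hD h (by omega)
    omega

/-- Proof. `dpr D N i ≠ 0` (the D i are distinct). Let `u i = dpr D N i / l ^ v(dpr D N i)` (`ordCompl`, prime to `l`), `C = l^H * ∏_{i ≤ N+1} u i`, `b i = C / dpr D N i = l^(H - v) * ∏_{j ≠ i} u j`. -/
theorem exists_b (l : ℕ) (hl : l.Prime) (D : ℕ → ℤ) (N : ℕ) (hD : ∀ i ≤ N, D i < D (i + 1)) (H : ℕ)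
    (hH : ∀ i ≤ N + 1, padicValNat l (dpr D N i) ≤ H) :
    ∃ (C : ℕ) (b : ℕ → ℕ), 0 < C ∧ ∀ i ≤ N + 1, b i * dpr D N i = C ∧ padicValNat l (b i) + padicValNat l (dpr D N i) = H := by
  have : Fact l.Prime := ⟨hl⟩
  have hu : ∀ i ≤ N + 1, ∃ u : ℕ, l ^ padicValNat l (dpr D N i) * u = dpr D N i ∧ ¬ l ∣ u := by
    intro i hi
    refine ⟨ordCompl[l] (dpr D N i), ?_, Nat.not_dvd_ordCompl hl (n23_ne hD hi)⟩
    rw [← Nat.factorization_def _ hl]
    exact Nat.ordProj_mul_ordCompl_eq_self _ _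
  choose! u hu1 hu2 using hu
  have hu0 : ∀ i ≤ N + 1, 0 < u i := fun i hi => Nat.pos_of_ne_zero fun h => hu2 i hi (h ▸ dvd_zero l)
  have hprod : ∀ s : Finset ℕ, (∀ j ∈ s, j ≤ N + 1) → ¬ l ∣ ∏ j ∈ s, u j := by
    intro s hs h
    obtain ⟨j, hj, hd⟩ := (hl.prime.dvd_finsetProd_iff _).1 h
    exact hu2 j (hs j hj) hd
  refine ⟨l ^ H * ∏ i ∈ range (N + 2), u i,
    fun i => l ^ (H - padicValNat l (dpr D N i)) * ∏ j ∈ (range (N + 2)).erase i, u j, ?_, fun i hi => ⟨?_, ?_⟩⟩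
  · refine Nat.mul_pos (pow_pos hl.pos _) (Finset.prod_pos fun i hi => hu0 i ?_)
    rw [Finset.mem_range] at hi
    omega
  · have h1 : ∏ j ∈ range (N + 2), u j = u i * ∏ j ∈ (range (N + 2)).erase i, u j :=
      (Finset.mul_prod_erase _ _ (Finset.mem_range.2 (by omega))).symm
    have h2 : l ^ H = l ^ (H - padicValNat l (dpr D N i)) * l ^ padicValNat l (dpr D N i) := by
      rw [← pow_add, Nat.sub_add_cancel (hH i hi)]
    show l ^ (H - padicValNat l (dpr D N i)) * (∏ j ∈ (range (N + 2)).erase i, u j) * dpr D N i = _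
    rw [h1, h2]
    calc l ^ (H - padicValNat l (dpr D N i)) * (∏ j ∈ (range (N + 2)).erase i, u j) * dpr D N i
        = l ^ (H - padicValNat l (dpr D N i)) * (∏ j ∈ (range (N + 2)).erase i, u j) *
          (l ^ padicValNat l (dpr D N i) * u i) := by rw [hu1 i hi]
      _ = _ := by ring
  · have h3 : ¬ l ∣ ∏ j ∈ (range (N + 2)).erase i, u j := hprod _ fun j hj => by
      rw [Finset.mem_erase, Finset.mem_range] at hj
      omega
    show padicValNat l (l ^ (H - padicValNat l (dpr D N i)) * ∏ j ∈ (range (N + 2)).erase i, u j) + _ = H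
    have h4 : ∏ j ∈ (range (N + 2)).erase i, u j ≠ 0 := fun h => h3 (by rw [h]; exact dvd_zero l)
    rw [padicValNat.mul (pow_ne_zero _ hl.ne_zero) h4, padicValNat.prime_pow,
      padicValNat.eq_zero_of_not_dvd h3, add_zero]
    exact Nat.sub_add_cancel (hH i hi)

theorem n23_vd {N : ℕ} (S : Fin N → ℤ) : vd S = ∏ a, ∏ b, if a < b then S b - S a else 1 := by
  unfold vd
  refine Finset.prod_congr rfl fun a _ => ?_
  rw [← Finset.prod_filter]
  congr 1
  ext b
  simp

/-- Proof. Split the product over the pairs according to whether they contain `i`: `Fin.prod_univ_succAbove` twice, or: all pairs `a < b` with both `≠ i` (these are the pairs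
of `dl G i`), the pairs `(a, i)` with `a < i` and `(i, b)` with `i < b`, for which `G b - G a = |..|`. (Alternatively `Matrix.det_vandermonde` and
`Matrix.det_vandermonde`-free induction on `M`.) -/
theorem vd_dl {M : ℕ} (G : Fin (M + 1) → ℤ) (hG : StrictMono G) (i : Fin (M + 1)) :
    vd G = vd (dl G i) * ∏ j ∈ univ.erase i, ((G i - G j).natAbs : ℤ) := by
  have h1 : ∏ j ∈ univ.erase i, ((G i - G j).natAbs : ℤ) =
      ∏ b : Fin M, ((G i - G (i.succAbove b)).natAbs : ℤ) := by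
    have h2 := Fin.prod_univ_succAbove (fun j => if j = i then (1 : ℤ) else ((G i - G j).natAbs : ℤ)) i
    rw [← Finset.mul_prod_erase univ _ (Finset.mem_univ i)] at h2
    simp only [if_true, one_mul] at h2
    rw [Finset.prod_congr rfl fun j hj => if_neg (Finset.ne_of_mem_erase hj)] at h2
    rw [h2]
    exact Finset.prod_congr rfl fun b _ => if_neg (Fin.succAbove_ne i b)
  rw [n23_vd, n23_vd, h1, Fin.prod_univ_succAbove _ i, Fin.prod_univ_succAbove _ i, if_neg (lt_irrefl i), one_mul]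
  have h3 : ∀ a : Fin M, (∏ b, if i.succAbove a < b then G b - G (i.succAbove a) else 1) =
      (if i.succAbove a < i then G i - G (i.succAbove a) else 1) *
        ∏ b : Fin M, if a < b then dl G i b - dl G i a else 1 := by
    intro a
    rw [Fin.prod_univ_succAbove _ i]
    congr 1
    refine Finset.prod_congr rfl fun b _ => ?_
    by_cases h : a < b
    · rw [if_pos h, if_pos ((Fin.strictMono_succAbove i).lt_iff_lt.2 h)]
      rfl
    · rw [if_neg h, if_neg (fun h' => h ((Fin.strictMono_succAbove i).lt_iff_lt.1 h'))]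
  rw [Finset.prod_congr rfl fun a _ => h3 a, Finset.prod_mul_distrib, ← mul_assoc, ← Finset.prod_mul_distrib, mul_comm]
  congr 1
  refine Finset.prod_congr rfl fun b _ => ?_
  rcases lt_or_gt_of_ne (Fin.succAbove_ne i b) with h | h
  · rw [if_neg (not_lt.2 h.le), if_pos h, one_mul, Int.natAbs_of_nonneg (sub_nonneg.2 (hG h).le)]
  · rw [if_pos h, if_neg (not_lt.2 h.le), mul_one]
    have h4 := hG h
    omega

/-- Proof. `G i = D i` (`Fin (N + 2)`), strictly increasing. `b i * vd G = b i * dpr D N i * vd (dl G i) = C * vd (dl G i)` (`vd_dl`; `dpr` is the product over `Fin (N + 2)`), so `vd G * ∑ (-1)^i b_i p(D_i) = C * ∑ (-1)^i vd (dl G i) p(G_i) = 0`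
by `lagr` (`natDegree p < N + 1`); `vd G ≠ 0`. -/
theorem b_rel (D : ℕ → ℤ) (N : ℕ) (hD : ∀ i ≤ N, D i < D (i + 1)) (C : ℕ) (b : ℕ → ℕ)
    (hb : ∀ i ≤ N + 1, b i * dpr D N i = C) (p : Polynomial ℚ) (hp : p.natDegree ≤ N) :
    ∑ i ∈ range (N + 2), (-1 : ℚ) ^ i * (b i : ℚ) * p.eval (D i : ℚ) = 0 := by
  have hG : StrictMono (fun i : Fin (N + 1 + 1) => D (i : ℕ)) := fun a b hab => n23_mono hD hab (by omega)
  have hv : (vd (fun i : Fin (N + 1 + 1) => D (i : ℕ)) : ℚ) ≠ 0 := by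
    have h1 : vd (fun i : Fin (N + 1 + 1) => D (i : ℕ)) ≠ 0 := by
      unfold vd
      refine Finset.prod_ne_zero_iff.2 fun a _ => Finset.prod_ne_zero_iff.2 fun c hc => ?_
      rw [Finset.mem_Ioi] at hc
      exact sub_ne_zero.2 (hG hc).ne'
    exact_mod_cast h1
  have hdpr : ∀ i : Fin (N + 1 + 1), (dpr D N i : ℤ) =
      ∏ j ∈ univ.erase i, ((D (i : ℕ) - D (j : ℕ)).natAbs : ℤ) := by
    intro i
    unfold dpr
    push_cast
    symm
    refine Finset.prod_bij (fun (j : Fin (N + 1 + 1)) _ => (j : ℕ)) (fun j hj => ?_) (fun a _ b _ hab => Fin.ext hab)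
      (fun j hj => ?_) (fun j _ => rfl)
    · rw [Finset.mem_erase] at hj ⊢
      exact ⟨fun h => hj.1 (Fin.ext h), Finset.mem_range.2 j.2⟩
    · rw [Finset.mem_erase, Finset.mem_range] at hj
      exact ⟨⟨j, hj.2⟩, Finset.mem_erase.2 ⟨fun h => hj.1 (by rw [← h]), Finset.mem_univ _⟩, rfl⟩
  have hkey : ∀ i : Fin (N + 1 + 1), (b i : ℚ) * (vd (fun i : Fin (N + 1 + 1) => D (i : ℕ)) : ℚ) =
      (C : ℚ) * (vd (dl (fun i : Fin (N + 1 + 1) => D (i : ℕ)) i) : ℚ) := by
    intro i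
    have h1 := vd_dl (fun i : Fin (N + 1 + 1) => D (i : ℕ)) hG i
    have h2 := hb i (by omega)
    have h3 : (b i : ℤ) * vd (fun i : Fin (N + 1 + 1) => D (i : ℕ)) =
        (C : ℤ) * vd (dl (fun i : Fin (N + 1 + 1) => D (i : ℕ)) i) := by
      rw [h1, ← hdpr i, ← h2]
      push_cast
      ring
    exact_mod_cast h3
  have h4 := lagr (N := N + 1) (fun i : Fin (N + 1 + 1) => D (i : ℕ)) p (by omega)
  rw [Finset.sum_range]
  have h5 : (vd (fun i : Fin (N + 1 + 1) => D (i : ℕ)) : ℚ) *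
      ∑ i : Fin (N + 2), (-1 : ℚ) ^ (i : ℕ) * (b i : ℚ) * p.eval (D i : ℚ) = (C : ℚ) * 0 := by
    rw [← h4, Finset.mul_sum, Finset.mul_sum]
    refine Finset.sum_congr rfl fun i _ => ?_
    linear_combination ((-1 : ℚ) ^ (i : ℕ) * p.eval (D i : ℚ)) * hkey i
  rw [mul_zero] at h5
  exact (mul_eq_zero.1 h5).resolve_left hv

end NM
end H92C
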