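import Pool.Agent.Lib.H92C.N00

/-! # H92C, module N, chunk N24: the target is in KK (N.6) -/

open Finset

namespace H92C
namespace NM

/-- The alternating sums W_i. -/
def alt (b : ℕ → ℕ) : ℕ → ℤ
  | 0 => b 0
  | i + 1 => b (i + 1) - alt b i

/-- Antidifference. Proof. Linear in `p`; for `X^r` take `(r+1)⁻¹ • Polynomial.bernoulli (r+1)` (`Polynomial.bernoulli_comp_one_add_X` or similar), or strong induction on the degree: subtract the antidifference
of the lower terms of `((X+1)^(r+1) - X^(r+1))/(r+1)`. -/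
theorem antidiff (p : Polynomial ℚ) :
    ∃ Φ : Polynomial ℚ, Φ.natDegree ≤ p.natDegree + 1 ∧ ∀ t : ℚ, Φ.eval (t + 1) - Φ.eval t = p.eval t := by
  refine ⟨∑ k ∈ range (p.natDegree + 1), Polynomial.C (p.coeff k / (k + 1)) * Polynomial.bernoulli (k + 1), ?_, fun t => ?_⟩
  · refine Polynomial.natDegree_sum_le_of_forall_le _ _ fun k hk => ?_
    refine (Polynomial.natDegree_C_mul_le _ _).trans ?_
    rw [Finset.mem_range] at hk
    have h1 : (Polynomial.bernoulli (k + 1)).natDegree ≤ k + 1 := by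
      unfold Polynomial.bernoulli
      refine Polynomial.natDegree_sum_le_of_forall_le _ _ fun i hi => ?_
      rw [Finset.mem_range] at hi
      exact (Polynomial.natDegree_monomial_le _).trans (by omega)
    omega
  · rw [Polynomial.eval_finsetSum, Polynomial.eval_finsetSum, ← Finset.sum_sub_distrib, Polynomial.eval_eq_sum_range]
    refine Finset.sum_congr rfl fun k _ => ?_
    rw [Polynomial.eval_mul, Polynomial.eval_mul, Polynomial.eval_C, Polynomial.eval_C, add_comm t 1,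
      Polynomial.bernoulli_eval_one_add]
    have h1 : ((k : ℚ) + 1) ≠ 0 := by positivity
    push_cast
    field_simp
    ring

/-- Proof. Telescoping (induction on `(b - a).toNat`, `Int.le_induction`). -/
theorem sum_antidiff (p Φ : Polynomial ℚ) (h : ∀ t : ℚ, Φ.eval (t + 1) - Φ.eval t = p.eval t) (a b : ℤ) (hab : a ≤ b) :
    ∑ t ∈ Ico a b, p.eval (t : ℚ) = Φ.eval (b : ℚ) - Φ.eval (a : ℚ) := by
  induction b, hab using Int.leInduction with
  | base => simp
  | succ b hab ih =>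
    have h1 : Finset.Ico a (b + 1) = insert b (Finset.Ico a b) := by
      ext x
      simp only [Finset.mem_insert, Finset.mem_Ico]
      omega
    rw [h1, Finset.sum_insert (by simp), ih, ← h]
    push_cast
    ring

/-- Summation by parts. Proof. Induction on `M` of
`∑_{i < M} (-1)^i W_i (φ (i+1) - φ i) = (-1)^(M-1) W_(M-1) φ M - ∑_{i < M} (-1)^i b_i φ i` (`M ≥ 1`), `W_i + W_(i-1) = b_i`. -/
theorem parts (b : ℕ → ℕ) (φ : ℕ → ℚ) (M : ℕ) :
    ∑ i ∈ range (M + 1), (-1 : ℚ) ^ i * (alt b i : ℚ) * (φ (i + 1) - φ i) =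
      (-1 : ℚ) ^ M * (alt b M : ℚ) * φ (M + 1) - ∑ i ∈ range (M + 1), (-1 : ℚ) ^ i * (b i : ℚ) * φ i := by
  induction M with
  | zero =>
    simp only [zero_add, Finset.sum_range_one, pow_zero, one_mul, alt]
    push_cast
    ring
  | succ M ih =>
    rw [Finset.sum_range_succ, ih, Finset.sum_range_succ (fun i => (-1 : ℚ) ^ i * (b i : ℚ) * φ i) (M + 1)]
    simp only [alt]
    push_cast
    ring

theorem n24_alt (b : ℕ → ℕ) (M : ℕ) :
    (-1 : ℚ) ^ M * (alt b M : ℚ) = ∑ i ∈ range (M + 1), (-1 : ℚ) ^ i * (b i : ℚ) := by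
  induction M with
  | zero => simp [alt]
  | succ M ih =>
    rw [Finset.sum_range_succ, ← ih]
    simp only [alt]
    push_cast
    ring

/-- Proof. `p = 1` in the relation gives `∑_{i ≤ N'+2} (-1)^i b_i = 0`, hence `alt b (N' + 2) = 0`, `alt b (N' + 1) = b (N' + 2)`. Let `p` have degree `≤ N'` and sum zero over the last block, `Φ` from `antidiff` (degree
`≤ N' + 1`). `(-1)^i W_i ∑_{t in block i} p(t) = (-1)^i W_i (Φ(D (i+1)) - Φ(D i))` (`sum_antidiff`); the term `i = N' + 1` vanishes. By `parts` with `M = N' + 1` the sum over `i ≤ N' + 1` is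
`- ∑_{i ≤ N' + 2} (-1)^i b_i Φ(D i) = 0`. -/
theorem target_KK (D : ℕ → ℤ) (N' : ℕ) (hD : ∀ i ≤ N' + 1, D i < D (i + 1)) (b : ℕ → ℕ)
    (hb : ∀ p : Polynomial ℚ, p.natDegree ≤ N' + 1 → ∑ i ∈ range (N' + 3), (-1 : ℚ) ^ i * (b i : ℚ) * p.eval (D i : ℚ) = 0) :
    KK D N' (fun i _ => alt b i) := by
  intro p hp h0
  obtain ⟨Φ, hΦ, hd⟩ := antidiff p
  have hsum : ∀ i ≤ N' + 1, ∑ t ∈ Ico (D i) (D (i + 1)), p.eval (t : ℚ) = Φ.eval (D (i + 1) : ℚ) - Φ.eval (D i : ℚ) :=
    fun i hi => sum_antidiff p Φ hd _ _ (hD i hi).le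
  have h1 := hb 1 (by simp)
  simp only [Polynomial.eval_one, mul_one] at h1
  rw [Finset.sum_range_succ, ← n24_alt] at h1
  have h2 := parts b (fun i => Φ.eval (D i : ℚ)) (N' + 1)
  have h3 := hb Φ (hΦ.trans (by omega))
  rw [Finset.sum_range_succ] at h3
  rw [Finset.sum_range_succ] at h2
  have h4 : Φ.eval (D (N' + 1 + 1) : ℚ) - Φ.eval (D (N' + 1) : ℚ) = 0 := by
    rw [← hsum (N' + 1) le_rfl]
    exact h0
  have h5 : ∑ i : Fin (N' + 1), (-1 : ℚ) ^ (i : ℕ) * ∑ t ∈ Ico (D i) (D ((i : ℕ) + 1)), ((alt b i : ℤ) : ℚ) * p.eval (t : ℚ) =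
      ∑ i ∈ range (N' + 1), (-1 : ℚ) ^ i * (alt b i : ℚ) * (Φ.eval (D (i + 1) : ℚ) - Φ.eval (D i : ℚ)) := by
    rw [Finset.sum_range]
    refine Finset.sum_congr rfl fun i _ => ?_
    rw [← Finset.mul_sum, hsum i (by omega)]
    ring
  rw [h5]
  have h6 : (-1 : ℚ) ^ (N' + 2) = - (-1 : ℚ) ^ (N' + 1) := by rw [pow_succ]; ring
  rw [h6] at h1 h3
  simp only [h4, mul_zero, add_zero] at h2
  linear_combination h2 - h3 + Φ.eval (D (N' + 1 + 1) : ℚ) * h1

end NM
end H92C
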