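import Pool.Agent.Lib.H92C.N05
import Pool.Agent.Lib.H92C.N10

/-! # H92C, module N, chunk N25: valuations of the differences of D -/

open Finset

namespace H92C
namespace NM
namespace Par

variable (P : Par)

/-- The valuation of the product of the differences, computed with the residues. -/
def tot (k : ℕ) : ℕ := ∑ j ∈ range (P.N + 2), padicValInt P.l ((P.X k : ℤ) - P.X j)

/-- Proof. The residues are different (`X_inj`) and smaller than `l^K` (`X_lt`). -/
theorem X_ndvd {K : ℕ} (hK : P.E0 + P.n ≤ K) {i j : ℕ} (hi : i ≤ P.N + 1) (hj : j ≤ P.N + 1) (h : i ≠ j) :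
    ¬ (P.l : ℤ) ^ K ∣ (P.X i : ℤ) - P.X j := by
  intro hd
  have h1 := P.X_lt hi hK
  have h2 := P.X_lt hj hK
  have h3 : ((P.X i : ℤ) - P.X j) = 0 := by
    refine Int.eq_zero_of_abs_lt_dvd hd ?_
    have h1' : (P.X i : ℤ) < (P.l : ℤ) ^ K := by exact_mod_cast h1
    have h2' : (P.X j : ℤ) < (P.l : ℤ) ^ K := by exact_mod_cast h2
    rw [abs_lt]
    constructor <;> omega
  exact h (P.X_inj hi hj (by omega))

/-- Proof. `D i - D j ≡ X i - X j` modulo `l^K` (definition of D). -/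
theorem D_sub (d0 : ℤ) (K Y : ℕ) (i j : ℕ) :
    P.D d0 K Y i - P.D d0 K Y j ≡ (P.X i : ℤ) - P.X j [ZMOD (P.l : ℤ) ^ K] := by
  rw [Int.modEq_iff_dvd]
  refine ⟨((P.pg j : ℤ) - P.pg i) * Y, ?_⟩
  simp only [D]
  ring

/-- Proof. `val_prod` (or its version for natural numbers; `padicValInt l a = padicValNat l a.natAbs`), the factors are nonzero (`D_sub`, `X_ndvd`); `val_congr` for each factor; the
term `j = k` of `tot` is `padicValInt l 0 = 0`. -/
theorem val_dpr (d0 : ℤ) {K : ℕ} (hK : P.E0 + P.n ≤ K) (Y : ℕ) {k : ℕ} (hk : k ≤ P.N + 1) :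
    padicValNat P.l (dpr (P.D d0 K Y) P.N k) = P.tot k := by
  have hnd : ∀ j ∈ (range (P.N + 2)).erase k, ¬ (P.l : ℤ) ^ K ∣ P.D d0 K Y k - P.D d0 K Y j := by
    intro j hj hd
    rw [mem_erase, mem_range] at hj
    have h1 := (P.D_sub d0 K Y k j)
    exact P.X_ndvd hK hk (by omega) (Ne.symm hj.1) ((Int.ModEq.dvd_iff h1).1 hd)
  have h1 : padicValNat P.l (dpr (P.D d0 K Y) P.N k) =
      padicValInt P.l (∏ j ∈ (range (P.N + 2)).erase k, (P.D d0 K Y k - P.D d0 K Y j)) := by
    rw [padicValInt, dpr]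
    congr 1
    exact (map_prod Int.natAbsHom _ _).symm
  have hne : ∀ j ∈ (range (P.N + 2)).erase k, P.D d0 K Y k - P.D d0 K Y j ≠ 0 := by
    intro j hj h0
    exact hnd j hj (by rw [h0]; exact dvd_zero _)
  rw [h1, val_prod P.l P.hl _ _ hne, tot,
    ← Finset.add_sum_erase (range (P.N + 2)) _ (mem_range.2 (Nat.lt_succ_of_le hk))]
  simp only [sub_self, padicValInt.zero, zero_add]
  refine Finset.sum_congr rfl fun j hj => ?_
  exact val_congr P.l P.hl K _ _ (hnd j hj) (P.D_sub d0 K Y k j)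

/-- The number of the residues congruent to a modulo l^r. -/
def nn (r a : ℕ) : ℕ := ((range (P.N + 2)).filter fun j => P.X j % P.l ^ r = a % P.l ^ r).card

/-- Proof. `val_eq` for the `j ≠ k` (`X_ndvd`), exchange of the sums; the `j = k` contributes `K` to the right side. -/
theorem tot_nn {K : ℕ} (hK : P.E0 + P.n ≤ K) {k : ℕ} (hk : k ≤ P.N + 1) :
    P.tot k + K = ∑ r ∈ Icc 1 K, P.nn r (P.X k) := by
  have h1 : ∑ r ∈ Icc 1 K, P.nn r (P.X k) =
      ∑ j ∈ range (P.N + 2), ((Icc 1 K).filter fun r => P.X j % P.l ^ r = P.X k % P.l ^ r).card := by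
    simp only [nn, Finset.card_filter]
    exact Finset.sum_comm
  rw [h1, tot, ← Finset.add_sum_erase (range (P.N + 2)) _ (mem_range.2 (Nat.lt_succ_of_le hk)),
    ← Finset.add_sum_erase (range (P.N + 2)) (fun j => ((Icc 1 K).filter fun r => P.X j % P.l ^ r = P.X k % P.l ^ r).card)
      (mem_range.2 (Nat.lt_succ_of_le hk))]
  simp only [sub_self, padicValInt.zero, zero_add, Finset.filter_true, Nat.card_Icc, Nat.add_sub_cancel]
  rw [add_comm]
  congr 1
  refine Finset.sum_congr rfl fun j hj => ?_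
  rw [mem_erase, mem_range] at hj
  rw [val_eq P.l P.hl K _ (P.X_ndvd hK hk (by omega) (Ne.symm hj.1))]
  congr 1
  refine Finset.filter_congr fun r _ => ?_
  rw [show ((P.l : ℤ) ^ r) = ((P.l ^ r : ℕ) : ℤ) by push_cast; rfl]
  exact (Nat.modEq_iff_dvd (n := P.l ^ r) (a := P.X j) (b := P.X k)).symm

end Par
end NM
end H92C
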