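import Pool.Agent.Lib.H92C.N06
import Pool.Agent.Lib.H92C.N25

/-! # H92C, module N, chunk N26: the valuations at the c_k (N.6) -/

open Finset

namespace H92C
namespace NM

/-- Proof. For `a = l^e + z - c`, `0 < a < 2 l^e ≤ l^(e+1)`: `val_eq` with `K = e + 1`: `v a = #{r in 1..e+1 : l^r ∣ a}`, and `r = e + 1` does not occur. For `r ≤ e` the number of the
`z < l^e` with `l^r ∣ l^e + z - c` is `l^(e-r)` (`win_cnt` with `a = c`), for every `c`. So the sum is `∑_{r=1..e} l^(e-r)`. -/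
theorem val_win (l : ℕ) (hl : l.Prime) (e c : ℕ) (hc : c < l ^ e) :
    ∑ z ∈ range (l ^ e), padicValInt l ((c : ℤ) - (l ^ e + z : ℕ)) = ∑ r ∈ Icc 1 e, l ^ (e - r) := by
  have hnd : ∀ z ∈ range (l ^ e), ¬ (l : ℤ) ^ (e + 1) ∣ ((c : ℤ) - (l ^ e + z : ℕ)) := by
    intro z hz hd
    rw [mem_range] at hz
    have h2 : 2 * l ^ e ≤ l ^ (e + 1) := by
      rw [pow_succ, mul_comm]
      exact Nat.mul_le_mul_left _ hl.two_le
    have h2' : 2 * (l : ℤ) ^ e ≤ (l : ℤ) ^ (e + 1) := by exact_mod_cast h2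
    have hz' : (z : ℤ) < (l : ℤ) ^ e := by exact_mod_cast hz
    have hc' : (c : ℤ) < (l : ℤ) ^ e := by exact_mod_cast hc
    have h3 : ((c : ℤ) - (l ^ e + z : ℕ)) = 0 := by
      refine Int.eq_zero_of_abs_lt_dvd hd ?_
      push_cast
      rw [abs_lt]
      constructor <;> omega
    push_cast at h3
    omega
  rw [Finset.sum_congr rfl fun z hz => val_eq l hl (e + 1) _ (hnd z hz)]
  simp only [Finset.card_filter]
  rw [Finset.sum_comm, Finset.sum_Icc_succ_top (by omega)]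
  have h0 : ∑ z ∈ range (l ^ e), (if (l : ℤ) ^ (e + 1) ∣ ((c : ℤ) - (l ^ e + z : ℕ)) then 1 else 0) = 0 := by
    refine Finset.sum_eq_zero fun z hz => ?_
    rw [if_neg (hnd z hz)]
  rw [h0, add_zero]
  refine Finset.sum_congr rfl fun r hr => ?_
  rw [mem_Icc] at hr
  rw [← win_cnt l e r c hl.two_le hr.2, Finset.card_filter]
  refine Finset.sum_congr rfl fun z _ => ?_
  have h1 : ((l : ℤ) ^ r ∣ ((c : ℤ) - (l ^ e + z : ℕ))) ↔ (l ^ e + z) % l ^ r = c % l ^ r := by
    rw [show ((l : ℤ) ^ r) = ((l ^ r : ℕ) : ℤ) by push_cast; rfl]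
    exact (Nat.modEq_iff_dvd (n := l ^ r) (a := l ^ e + z) (b := c)).symm
  simp only [h1]

namespace Par

variable (P : Par)

/-- Proof. `sum_X` with `f y = v(c_k - y)` (as an integer): `tot k = ∑_{j ≤ n} v(c_k - c_j) + ∑_{w<n} ∑_z v(c_k - (q w + z))` (`X_le`), the second sum is independent of `k` (`val_win`,
`c_k < L < q w`), the first is the valuation of the product (`val_prod`; the term `j = k` is 0). -/
theorem tot_head : ∃ Cst : ℕ, ∀ k ≤ P.n, P.tot k =
    padicValNat P.l (∏ j ∈ (range (P.n + 1)).erase k, ((P.c j : ℤ) - P.c k).natAbs) + Cst := by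
  refine ⟨∑ w ∈ range P.n, ∑ r ∈ Icc 1 (P.e w), P.l ^ (P.e w - r), fun k hk => ?_⟩
  have h1 := P.sum_X (fun y => ((padicValInt P.l ((P.c k : ℤ) - y) : ℕ) : ℤ))
  have h2 : P.tot k = ∑ i ∈ range (P.n + 1), padicValInt P.l ((P.c k : ℤ) - P.c i) +
      ∑ w ∈ range P.n, ∑ z ∈ range (P.q w), padicValInt P.l ((P.c k : ℤ) - (P.q w + z : ℕ)) := by
    rw [tot, P.X_le hk]
    exact_mod_cast h1
  rw [h2]
  congr 1
  · have hne : ∀ j ∈ (range (P.n + 1)).erase k, (P.c k : ℤ) - P.c j ≠ 0 := by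
      intro j hj h0
      rw [mem_erase, mem_range] at hj
      have h3 : P.c k = P.c j := by omega
      rcases Nat.lt_or_gt_of_ne hj.1 with h4 | h4
      · exact absurd h3 (P.c_lt h4 hk).ne'
      · exact absurd h3 (P.c_lt h4 (by omega)).ne
    have h3 : (∏ j ∈ (range (P.n + 1)).erase k, ((P.c j : ℤ) - P.c k).natAbs) =
        (∏ j ∈ (range (P.n + 1)).erase k, ((P.c k : ℤ) - P.c j)).natAbs := by
      have h4 : (∏ j ∈ (range (P.n + 1)).erase k, ((P.c k : ℤ) - P.c j)).natAbs =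
          ∏ j ∈ (range (P.n + 1)).erase k, ((P.c k : ℤ) - P.c j).natAbs := map_prod Int.natAbsHom _ _
      rw [h4]
      refine Finset.prod_congr rfl fun j _ => ?_
      rw [← Int.natAbs_neg, neg_sub]
    rw [h3, ← padicValInt, val_prod P.l P.hl _ _ hne,
      ← Finset.add_sum_erase (range (P.n + 1)) _ (mem_range.2 (Nat.lt_succ_of_le hk))]
    simp
  · refine Finset.sum_congr rfl fun w hw => ?_
    exact val_win P.l P.hl (P.e w) (P.c k) (by
      have h3 := P.c_L hk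
      have h4 := P.L_lt_q w
      rw [q] at h4
      omega)

end Par
end NM
end H92C
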