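import Pool.Agent.Lib.H92C.N06
import Pool.Agent.Lib.H92C.N25

/-! # H92C, module N, chunk N27: the valuations at the windows are not larger (N.6) -/

open Finset

namespace H92C
namespace NM
namespace Par

variable (P : Par)

/-- Proof. `sum_X` with `f y = if y % l^r = a % l^r then 1 else 0`, and `win_cnt`, `win_cnt'` for `r ≤ e w`, `e w < r`. -/
theorem nn_eq (r a : ℕ) : P.nn r a = ((range (P.n + 1)).filter fun j => P.c j % P.l ^ r = a % P.l ^ r).card +
    ∑ w ∈ range P.n, if r ≤ P.e w then P.l ^ (P.e w - r) else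
      if P.q w ≤ a % P.l ^ r ∧ a % P.l ^ r < 2 * P.q w then 1 else 0 := by
  have h1 := P.sum_X (fun y => (((if y % P.l ^ r = a % P.l ^ r then 1 else 0) : ℕ) : ℤ))
  have h2 : P.nn r a = ((range (P.n + 1)).filter fun j => P.c j % P.l ^ r = a % P.l ^ r).card +
      ∑ w ∈ range P.n, ((range (P.q w)).filter fun z => (P.q w + z) % P.l ^ r = a % P.l ^ r).card := by
    simp only [nn, Finset.card_filter]
    exact_mod_cast h1
  rw [h2]
  congr 1
  refine Finset.sum_congr rfl fun w _ => ?_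
  by_cases h : r ≤ P.e w
  · rw [if_pos h]
    exact win_cnt P.l (P.e w) r a P.hl.two_le h
  · rw [if_neg h]
    exact win_cnt' P.l (P.e w) r a P.hl.two_le (not_le.1 h)

/-- Proof. At most one `w < n` has `q w ≤ a % l^r < 2 q w` (`q_dbl`). -/
theorem nn_upper (r a : ℕ) (h : ∀ j ≤ P.n, P.c j % P.l ^ r ≠ a % P.l ^ r) :
    P.nn r a ≤ 1 + ∑ w ∈ range P.n, if r ≤ P.e w then P.l ^ (P.e w - r) else 0 := by
  rw [P.nn_eq r a]
  have h0 : ((range (P.n + 1)).filter fun j => P.c j % P.l ^ r = a % P.l ^ r).card = 0 := by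
    rw [Finset.card_eq_zero, Finset.filter_eq_empty_iff]
    intro j hj
    exact h j (Nat.lt_succ_iff.1 (mem_range.1 hj))
  rw [h0, zero_add]
  have h1 : ((range P.n).filter fun w => P.q w ≤ a % P.l ^ r ∧ a % P.l ^ r < 2 * P.q w).card ≤ 1 := by
    rw [Finset.card_le_one]
    intro w hw w' hw'
    rw [mem_filter, mem_range] at hw hw'
    by_contra hne
    rcases Nat.lt_or_gt_of_ne hne with h2 | h2
    · have := P.q_dbl h2 hw'.1
      omega
    · have := P.q_dbl h2 hw.1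
      omega
  rw [Finset.card_filter] at h1
  calc ∑ w ∈ range P.n, (if r ≤ P.e w then P.l ^ (P.e w - r) else
          if P.q w ≤ a % P.l ^ r ∧ a % P.l ^ r < 2 * P.q w then 1 else 0)
      ≤ ∑ w ∈ range P.n, ((if P.q w ≤ a % P.l ^ r ∧ a % P.l ^ r < 2 * P.q w then 1 else 0) +
          (if r ≤ P.e w then P.l ^ (P.e w - r) else 0)) := by
        refine Finset.sum_le_sum fun w _ => ?_
        by_cases h3 : r ≤ P.e w
        · simp only [if_pos h3]; omega
        · simp only [if_neg h3]; omega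
    _ = _ := Finset.sum_add_distrib
    _ ≤ _ := Nat.add_le_add_right h1 _

/-- Proof. The `j = k` is counted in the first term of `nn_eq`. -/
theorem nn_lower (r k : ℕ) (hk : k ≤ P.n) :
    1 + ∑ w ∈ range P.n, (if r ≤ P.e w then P.l ^ (P.e w - r) else 0) ≤ P.nn r (P.c k) := by
  rw [P.nn_eq r (P.c k)]
  refine Nat.add_le_add ?_ (Finset.sum_le_sum fun w _ => ?_)
  · rw [Nat.one_le_iff_ne_zero, ← Nat.pos_iff_ne_zero, Finset.card_pos]
    exact ⟨k, mem_filter.2 ⟨mem_range.2 (Nat.lt_succ_of_le hk), rfl⟩⟩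
  · by_cases h3 : r ≤ P.e w
    · simp only [if_pos h3]; exact le_refl _
    · simp only [if_neg h3]; exact Nat.zero_le _

/-- Proof. Let `K = E0 + n` and let `r*` be the largest `r ≤ K` such that some `c_k`, `k ≤ n`, is congruent to `X i` modulo `l^r` (`r = 0` is possible; `Nat.findGreatest` or
`Finset.exists_max_image`), and take such a `k`. For `r ≤ r*`: `X i ≡ c_k` modulo `l^r`, so `nn r (X i) = nn r (c_k)`. For `r* < r ≤ K` no `c_j` is congruent to `X i` modulo `l^r`, so `nn r (X i) ≤ nn r (c_k)` by `nn_upper`, `nn_lower`.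
Sum over `r` (`tot_nn`, `X k = c k` by `X_le`). -/
theorem tot_le {i : ℕ} (hi : i ≤ P.N + 1) : ∃ k ≤ P.n, P.tot i ≤ P.tot k := by
  classical
  set Q : ℕ → Prop := fun r => ∃ k ≤ P.n, P.c k % P.l ^ r = P.X i % P.l ^ r with hQ
  have hQ0 : Q 0 := ⟨0, Nat.zero_le _, by simp [Nat.mod_one]⟩
  set K := P.E0 + P.n with hK
  set s := Nat.findGreatest Q K with hs
  have hQs : Q s := Nat.findGreatest_spec (P := Q) (Nat.zero_le K) hQ0
  obtain ⟨k, hk, hmod⟩ := hQs
  refine ⟨k, hk, ?_⟩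
  have hkN : k ≤ P.N + 1 := by have := P.n_lt_N; omega
  have h1 := P.tot_nn (le_refl (P.E0 + P.n)) hi
  have h2 := P.tot_nn (le_refl (P.E0 + P.n)) hkN
  have h3 : ∑ r ∈ Icc 1 (P.E0 + P.n), P.nn r (P.X i) ≤ ∑ r ∈ Icc 1 (P.E0 + P.n), P.nn r (P.X k) := by
    refine Finset.sum_le_sum fun r hr => ?_
    rw [mem_Icc] at hr
    rw [P.X_le hk]
    by_cases hrs : r ≤ s
    · have h4 : P.c k % P.l ^ r = P.X i % P.l ^ r := by
        have h5 : P.l ^ r ∣ P.l ^ s := Nat.pow_dvd_pow _ hrs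
        exact (Nat.ModEq.of_dvd h5 hmod : P.c k ≡ P.X i [MOD P.l ^ r])
      rw [nn, nn, h4]
    · have h4 : ¬ Q r := Nat.findGreatest_is_greatest (P := Q) (not_le.1 hrs) hr.2
      refine (P.nn_upper r (P.X i) fun j hj h5 => h4 ⟨j, hj, h5⟩).trans (P.nn_lower r k hk)
  omega

end Par
end NM
end H92C
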