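import Pool.Agent.Lib.H92C.N26
import Pool.Agent.Lib.H92C.N27

/-! # H92C, module N, chunk N28: summary of N.6 -/

open Finset

namespace H92C
namespace NM
namespace Par

variable (P : Par)

/-- Proof. `k ≤ n` with maximal `tot k` (`Finset.exists_max_image` on `range (n + 1)`); `tot_le`, `val_dpr`, and `tot_head` for `0` and `k` (`0 ≤ n`). -/
theorem tot_max (d0 : ℤ) {K : ℕ} (hK : P.E0 + P.n ≤ K) (Y : ℕ) : ∃ k ≤ P.n,
    (∀ i ≤ P.N + 1, padicValNat P.l (dpr (P.D d0 K Y) P.N i) ≤ padicValNat P.l (dpr (P.D d0 K Y) P.N k)) ∧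
      padicValNat P.l (dpr (P.D d0 K Y) P.N 0) +
          padicValNat P.l (∏ j ∈ (range (P.n + 1)).erase k, ((P.c j : ℤ) - P.c k).natAbs) =
        padicValNat P.l (dpr (P.D d0 K Y) P.N k) +
          padicValNat P.l (∏ j ∈ (range (P.n + 1)).erase 0, ((P.c j : ℤ) - P.c 0).natAbs) := by
  obtain ⟨k, hk, hmax⟩ := Finset.exists_max_image (range (P.n + 1)) P.tot ⟨0, mem_range.2 (Nat.succ_pos _)⟩
  rw [mem_range] at hk
  have hnN := P.n_lt_N
  have hkN : k ≤ P.N + 1 := by omega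
  refine ⟨k, by omega, fun i hi => ?_, ?_⟩
  · rw [P.val_dpr d0 hK Y hi, P.val_dpr d0 hK Y hkN]
    obtain ⟨k', hk', h1⟩ := P.tot_le hi
    exact h1.trans (hmax k' (mem_range.2 (Nat.lt_succ_of_le hk')))
  · obtain ⟨C, hC⟩ := P.tot_head
    rw [P.val_dpr d0 hK Y (Nat.zero_le _), P.val_dpr d0 hK Y hkN, hC 0 (Nat.zero_le _), hC k (by omega)]
    omega

end Par
end NM
end H92C
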