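import Pool.Agent.Lib.H92C.N05

/-! # H92C, module N, chunk N29: the sequence D is increasing; its blocks (N.0, N.1) -/

open Finset

namespace H92C
namespace NM
namespace Par

variable (P : Par)

/-- Proof. `cover'`. `i < n`: `pg = 0` for both (`pg_le`), `c i < c (i + 1)`. `i = O w + k`, `w < n`, `k < q w`. `k = 0`: `pg (O w) = 2 w` (`pg_O`), `pg (O w + 1) = 2 w + 1` (`pg_win1`, `1 + g w < q w`
by `g_lt_q`): page jump. `k ≥ 1`, `k + 1 + g w < q w`: both in the first run, `X` increases by 1 (`X_win1`). `k ≥ 1`, `k + g w < q w ≤ k + 1 + g w`: page jump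
(`pg_win1`, `pg_win2`). `q w ≤ k + g w`: both in the second run (`X_win2`, `pg_win2`; `k = q w - g w + j`). -/
theorem step {i : ℕ} (h : i ≤ P.N) :
    (P.pg (i + 1) = P.pg i ∧ P.X i < P.X (i + 1)) ∨ P.pg (i + 1) = P.pg i + 1 := by
  rcases P.cover' i h with hi | ⟨w, hw, k, hk, rfl⟩
  · left
    rw [P.pg_le (by omega : i + 1 ≤ P.n), P.pg_le (by omega : i ≤ P.n), P.X_le (by omega : i + 1 ≤ P.n), P.X_le (by omega : i ≤ P.n)]
    exact ⟨rfl, P.cs i hi⟩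
  · have hg := P.g_lt_q w
    rcases Nat.eq_zero_or_pos k with h0 | h1
    · right
      subst h0
      show P.pg (P.O w + 1) = P.pg (P.O w) + 1
      rw [P.pg_O hw.le, P.pg_win1 hw le_rfl (by omega)]
    · rw [Nat.add_assoc]
      rcases Nat.lt_or_ge (k + 1 + P.g w) (P.q w) with h2 | h2
      · left
        rw [P.pg_win1 hw (by omega) h2, P.pg_win1 hw h1 (by omega), P.X_win1 hw (by omega) h2, P.X_win1 hw h1 (by omega)]
        exact ⟨rfl, by omega⟩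
      · rcases Nat.lt_or_ge (k + P.g w) (P.q w) with h3 | h3
        · right
          rw [P.pg_win2 hw (by omega) h2 (by omega), P.pg_win1 hw h1 h3]
        · left
          rw [P.pg_win2 hw (by omega) h2 (by omega), P.pg_win2 hw h1 h3 hk.le]
          refine ⟨rfl, ?_⟩
          obtain ⟨j, hj⟩ : ∃ j, j = k + P.g w - P.q w := ⟨_, rfl⟩
          have h4 : k = P.q w - P.g w + j := by omega
          have h5 : k + 1 = P.q w - P.g w + (j + 1) := by omega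
          rw [h5, P.X_win2 hw (by omega), h4, P.X_win2 hw (by omega)]
          omega

/-- Proof. `x_eq`: `i = O w`; `pg_O` and `pg_win1` with `k = 1`. -/
theorem jump {i : ℕ} (h : i ≤ P.N) (hx : P.x i ≠ P.X i) : P.pg (i + 1) = P.pg i + 1 := by
  rcases P.x_eq h with h1 | ⟨w, hw, rfl⟩
  · exact (hx h1).elim
  · have hg := P.g_lt_q w
    rw [P.pg_O hw.le, P.pg_win1 hw le_rfl (by omega)]

/-- Proof. `N = O (n - 1) + (l^E0 - 1)` is the last element of a first run (`g_last`), `pg_win1`, `pg_win2`. -/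
theorem jump_N : P.pg (P.N + 1) = P.pg P.N + 1 := by
  have hn := P.hn
  have hLE := P.hLE
  have hw : P.n - 1 < P.n := by omega
  have hq := P.q_last
  have hg := P.g_last
  have h1 : P.N + 1 = P.O (P.n - 1) + P.l ^ P.E0 := by
    rw [P.N_eq]
    omega
  rw [h1, P.N_eq, P.pg_win2 hw (by omega) (by omega) (by omega), P.pg_win1 hw (by omega) (by omega)]

/-- Proof. `step`. Page jump: `D (i + 1) - D i = X (i+1) - X i + Y l^K > 0` as `X i < l^K ≤ Y l^K` (`X_lt`, `1 ≤ Y`). -/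
theorem D_lt (d0 : ℤ) {K : ℕ} (hK : P.E0 + P.n ≤ K) {Y : ℕ} (hY : 2 ≤ Y) {i : ℕ} (h : i ≤ P.N) :
    P.D d0 K Y i < P.D d0 K Y (i + 1) := by
  have hX := P.X_lt (i := i) (by omega) hK
  have hX' : (P.X i : ℤ) < (P.l : ℤ) ^ K := by exact_mod_cast hX
  have hl : (0 : ℤ) < (P.l : ℤ) ^ K := pow_pos (by exact_mod_cast P.hl.pos) K
  have hY' : (2 : ℤ) ≤ Y := by exact_mod_cast hY
  unfold D
  rcases P.step h with ⟨h1, h2⟩ | h1
  · rw [h1]
    have h3 : (P.X i : ℤ) < P.X (i + 1) := by exact_mod_cast h2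
    linarith
  · rw [h1]
    push_cast
    have h3 : (0 : ℤ) ≤ P.X (i + 1) := Int.natCast_nonneg _
    nlinarith

/-- Proof. `pg_le`, `X_le`. -/
theorem D_le (d0 : ℤ) (K Y : ℕ) {i : ℕ} (h : i ≤ P.n) : P.D d0 K Y i = d0 + P.c i := by
  unfold D
  rw [P.pg_le h, P.X_le h]
  push_cast
  ring

/-- Proof. `X_N`, definition of D. -/
theorem D_N (d0 : ℤ) (K Y : ℕ) : P.D d0 K Y P.N ≡ d0 + (2 * (P.l ^ P.E0 : ℕ) - 1) [ZMOD (P.l : ℤ) ^ K] := by
  have h1 : (1 : ℕ) ≤ 2 * P.l ^ P.E0 := by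
    have := P.hLE
    omega
  have h2 : (P.X P.N : ℤ) = 2 * (P.l ^ P.E0 : ℕ) - 1 := by
    rw [P.X_N, Nat.cast_sub h1]
    push_cast
    ring
  unfold D
  rw [h2]
  refine Int.ModEq.symm ((Int.modEq_iff_dvd).2 ?_)
  refine ⟨P.pg P.N * Y, ?_⟩
  ring

/-- Proof. `X_N1`, definition of D. -/
theorem D_N1 (d0 : ℤ) (K Y : ℕ) : P.D d0 K Y (P.N + 1) ≡ d0 + (P.l ^ P.E0 : ℕ) [ZMOD (P.l : ℤ) ^ K] := by
  unfold D
  rw [P.X_N1]
  refine Int.ModEq.symm ((Int.modEq_iff_dvd).2 ?_)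
  refine ⟨P.pg (P.N + 1) * Y, ?_⟩
  ring

/-- Proof. `jump_N`: `D (N + 1) - D N = X (N+1) - X N + Y l^K ≥ Y l^K - l^K ≥ Y - 1`. -/
theorem D_gap (d0 : ℤ) {K : ℕ} (hK : P.E0 + P.n ≤ K) {Y : ℕ} (hY : 2 ≤ Y) :
    (Y : ℤ) - 1 ≤ P.D d0 K Y (P.N + 1) - P.D d0 K Y P.N := by
  have hX := P.X_lt (i := P.N) (by omega) hK
  have hX' : (P.X P.N : ℤ) < (P.l : ℤ) ^ K := by exact_mod_cast hX
  have hl : (1 : ℤ) ≤ (P.l : ℤ) ^ K := Int.add_one_le_iff.2 (pow_pos (by exact_mod_cast P.hl.pos) K)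
  have hY' : (2 : ℤ) ≤ Y := by exact_mod_cast hY
  have h3 : (0 : ℤ) ≤ P.X (P.N + 1) := Int.natCast_nonneg _
  unfold D
  rw [P.jump_N]
  push_cast
  nlinarith

end Par
end NM
end H92C
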