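import Pool.Agent.Lib.H92C.N29

/-! # H92C, module N, chunk N30: the chosen points (N.1) -/

open Finset

namespace H92C
namespace NM
namespace Par

variable (P : Par)

/-- Proof. If `x i = X i` then `p i = D i` (`D_lt`). Otherwise the page jumps (`jump`): `p i = d0 + x i + (pg i * Y + 1) l^K`, `D i = d0 + X i + pg i * Y l^K ≤ p i` as `X i < l^K`, and
`p i < d0 + (pg i * Y + 2) l^K ≤ d0 + (pg i + 1) Y l^K ≤ D (i + 1)` as `x i < l^K` (`x_lt_K`) and `2 ≤ Y`. -/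
theorem p_mem (d0 : ℤ) {K : ℕ} (hK : P.E0 + P.n ≤ K) {Y : ℕ} (hY : 2 ≤ Y) {i : ℕ} (h : i ≤ P.N) :
    P.D d0 K Y i ≤ P.p d0 K Y i ∧ P.p d0 K Y i < P.D d0 K Y (i + 1) := by
  have hX' : (P.X i : ℤ) < (P.l : ℤ) ^ K := by exact_mod_cast P.X_lt (i := i) (by omega) hK
  have hx' : (P.x i : ℤ) < (P.l : ℤ) ^ K := by exact_mod_cast P.x_lt_K h hK
  have hY' : (2 : ℤ) ≤ Y := by exact_mod_cast hY
  have hl : (0 : ℤ) < (P.l : ℤ) ^ K := pow_pos (by exact_mod_cast P.hl.pos) K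
  by_cases hx : P.x i = P.X i
  · unfold p
    rw [if_pos hx]
    exact ⟨le_rfl, P.D_lt d0 hK hY h⟩
  · unfold p D
    rw [if_neg hx, P.jump h hx]
    push_cast
    have h1 : (0 : ℤ) ≤ P.X (i + 1) := Int.natCast_nonneg _
    have h2 : (0 : ℤ) ≤ P.x i := Int.natCast_nonneg _
    have h3 : (P.pg i : ℤ) * (Y * (P.l : ℤ) ^ K) = P.pg i * Y * (P.l : ℤ) ^ K := by ring
    constructor
    · rw [h3]
      linarith
    · nlinarith

/-- Proof. Definitions. -/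
theorem p_mod (d0 : ℤ) (K Y : ℕ) (i : ℕ) : P.p d0 K Y i ≡ d0 + P.x i [ZMOD (P.l : ℤ) ^ K] := by
  by_cases hx : P.x i = P.X i
  · unfold p D
    rw [if_pos hx, hx]
    refine Int.ModEq.symm ((Int.modEq_iff_dvd).2 ⟨P.pg i * Y, ?_⟩)
    ring
  · unfold p
    rw [if_neg hx]
    refine Int.ModEq.symm ((Int.modEq_iff_dvd).2 ⟨P.pg i * Y + 1, ?_⟩)
    ring

/-- The block n is long. Proof. `s = d0 + ρ + l^K`: `D n = d0 + c n < d0 + l^K`, and `D (n + 1) ≥ d0 + Y l^K ≥ d0 + 2 l^K` (`pg (n + 1) = 1`: `pg_win1` with `w = 0`, `k = 1`). -/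
theorem long (d0 : ℤ) {K : ℕ} (hK : P.E0 + P.n ≤ K) {Y : ℕ} (hY : 2 ≤ Y) {ρ : ℕ} (hρ : ρ < P.l ^ K) :
    ∃ s, P.D d0 K Y P.n ≤ s ∧ s < P.D d0 K Y (P.n + 1) ∧ s ≡ d0 + ρ [ZMOD (P.l : ℤ) ^ K] := by
  have hn := P.n_lt_N
  have hY' : (2 : ℤ) ≤ Y := by exact_mod_cast hY
  have hl : (0 : ℤ) < (P.l : ℤ) ^ K := pow_pos (by exact_mod_cast P.hl.pos) K
  have hρ' : (ρ : ℤ) < (P.l : ℤ) ^ K := by exact_mod_cast hρ
  have hc : (P.c P.n : ℤ) < (P.l : ℤ) ^ K := by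
    have h1 := P.c_L le_rfl
    have h2 := P.L_le hK
    exact_mod_cast (by omega : P.c P.n < P.l ^ K)
  have hpg : P.pg (P.n + 1) = 1 := by
    have h1 := P.pg_win1 (w := 0) (k := 1) (by have := P.hn; omega) le_rfl (by have := P.g_lt_q 0; omega)
    exact h1
  refine ⟨d0 + ρ + (P.l : ℤ) ^ K, ?_, ?_, ?_⟩
  · rw [P.D_le d0 K Y le_rfl]
    have h1 : (0 : ℤ) ≤ ρ := Int.natCast_nonneg _
    linarith
  · unfold D
    rw [hpg]
    have h1 : (0 : ℤ) ≤ P.X (P.n + 1) := Int.natCast_nonneg _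
    push_cast
    nlinarith
  · refine Int.ModEq.symm ((Int.modEq_iff_dvd).2 ⟨1, ?_⟩)
    ring

end Par
end NM
end H92C
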