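import Pool.Agent.Lib.H92C.ThmH

/-! # H92C, module N: the windows -/

namespace H92C

/-- D 0 < .. < D ν reduces to D 0 < .. < D n by cutting windows of two runs (from the right): a window of size l^E consists of a run
of length m2 starting at D (ν + 1) = v1 and a run of length m1 starting at v2, with v1 - D 0 = l^E + m1 and v2 - D 0 = l^E modulo l^(E+1). -/
inductive Wn (l n : ℕ) (D : ℕ → ℤ) : ℕ → Prop
  | refl : Wn l n D n
  | step (ν E m1 m2 : ℕ) (v1 v2 : ℤ) (h : Wn l n D ν) (hm : m1 + m2 = l ^ E) (h1 : 1 ≤ m1) (h2 : 1 ≤ m2)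
      (hv1 : ∀ j < m2, D (ν + 1 + j) = v1 + j) (hv2 : ∀ j < m1, D (ν + 1 + m2 + j) = v2 + j)
      (hgap : v1 + m2 < v2) (hc1 : v1 - D 0 ≡ l ^ E + m1 [ZMOD (l : ℤ) ^ (E + 1)])
      (hc2 : v2 - D 0 ≡ l ^ E [ZMOD (l : ℤ) ^ (E + 1)]) : Wn l n D (ν + l ^ E)

end H92C
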