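import Pool.Agent.Lib.H92C.N03
import Pool.Agent.Lib.H92C.NWn

/-! # H92C, module N, chunk N31: auxiliary facts for the windows -/

open Finset

namespace H92C
namespace NM
namespace Par

variable (P : Par)

/-- First run. Proof. `X_win1`, `pg_win1` with `k = 1 + j`. -/
theorem D_run1 (d0 : ℤ) (K Y : ℕ) {w j : ℕ} (hw : w < P.n) (hj : j < P.q w - P.g w - 1) :
    P.D d0 K Y (P.O w + 1 + j) = d0 + P.q w + P.g w + 1 + (2 * w + 1 : ℕ) * (Y * (P.l : ℤ) ^ K) + j := by
  have h1 : 1 ≤ 1 + j := by omega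
  have h2 : (1 + j) + P.g w < P.q w := by omega
  have e : P.O w + 1 + j = P.O w + (1 + j) := by omega
  unfold D
  rw [e, P.X_win1 hw h1 h2, P.pg_win1 hw h1 h2]
  push_cast
  ring

/-- Second run. Proof. `X_win2`, `pg_win2` with `k = q w - g w + j`. -/
theorem D_run2 (d0 : ℤ) (K Y : ℕ) {w j : ℕ} (hw : w < P.n) (hj : j < P.g w + 1) :
    P.D d0 K Y (P.O w + 1 + (P.q w - P.g w - 1) + j) = d0 + P.q w + (2 * w + 2 : ℕ) * (Y * (P.l : ℤ) ^ K) + j := by
  have hg : P.g w < P.q w := by have := P.g_lt_q w; omega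
  have e : P.O w + 1 + (P.q w - P.g w - 1) + j = P.O w + (P.q w - P.g w + j) := by omega
  unfold D
  rw [e, P.X_win2 hw (by omega), P.pg_win2 hw (by omega) (by omega) (by omega)]
  push_cast
  ring

end Par
end NM
end H92C
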