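import Pool.Agent.Lib.H92C.N31

/-! # H92C, module N, chunk N32: the windows -/

open Finset

namespace H92C
namespace NM
namespace Par

variable (P : Par)

/-- Proof. Induction on `w ≤ n`: `Wn l n D (O w)`. `w = 0`: `refl`. Step: `ν = O w`, `E = e w`, `m1 = g w + 1`, `m2 = q w - g w - 1`, `v1 = D (ν + 1)`, `v2 = D (ν + 1 + m2)`
(`D_run1`, `D_run2` with `j = 0`); `m2 ≥ 1` by `g_lt_q`; `v1 + m2 = d0 + 2 q w + (2 w + 1) Y l^K < v2 = d0 + q w + (2 w + 2) Y l^K` because `q w < l^K ≤ Y l^K` (`q_le`);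
`D 0 = d0` (`X_le`, `pg_le`, `c0`); the congruences because `l^(e w + 1)` divides `l^K` (`q_dvd`), `q w = l ^ e w`. For `w = n`: `O n = N + 1`. -/
theorem windows (d0 : ℤ) {K : ℕ} (hK : P.E0 + P.n ≤ K) {Y : ℕ} (hY : 2 ≤ Y) :
    Wn P.l P.n (P.D d0 K Y) (P.N + 1) := by
  have hD0 : P.D d0 K Y 0 = d0 := by
    have h1 : P.X 0 = 0 := by rw [P.X_le (Nat.zero_le _), P.c0]
    have h2 : P.pg 0 = 0 := P.pg_le (Nat.zero_le _)
    unfold D
    rw [h1, h2]
    simp
  have key : ∀ w ≤ P.n, Wn P.l P.n (P.D d0 K Y) (P.O w) := by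
    intro w
    induction w with
    | zero => intro _; exact Wn.refl
    | succ w ih =>
      intro hw
      have hw' : w < P.n := hw
      have hg := P.g_lt_q w
      have hq := P.q_le w hK
      have hqp : 0 < P.q w := by omega
      have hdvd : ((P.l : ℤ) ^ (P.e w + 1)) ∣ (Y * (P.l : ℤ) ^ K) := by
        have h1 := P.q_dvd w hK
        have h2 : ((P.l ^ (P.e w + 1) : ℕ) : ℤ) ∣ ((P.l ^ K : ℕ) : ℤ) := Int.natCast_dvd_natCast.2 h1
        push_cast at h2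
        exact Dvd.dvd.mul_left h2 _
      have hqe : ((P.q w : ℕ) : ℤ) = (P.l : ℤ) ^ P.e w := by
        unfold q; push_cast; rfl
      have hlK : (1 : ℤ) ≤ (P.l : ℤ) ^ K := by
        have h1 : 1 ≤ P.l ^ K := Nat.one_le_pow _ _ P.hl.pos
        exact_mod_cast h1
      have hqlK : 2 * (P.q w : ℤ) ≤ (P.l : ℤ) ^ K := by exact_mod_cast hq
      have hYZ : (2 : ℤ) ≤ Y := by exact_mod_cast hY
      have hm2 : ((P.q w - P.g w - 1 : ℕ) : ℤ) = P.q w - P.g w - 1 := by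
        rw [Nat.cast_sub (by omega), Nat.cast_sub (by omega)]; rfl
      refine Wn.step (P.O w) (P.e w) (P.g w + 1) (P.q w - P.g w - 1)
        (d0 + P.q w + P.g w + 1 + (2 * w + 1 : ℕ) * (Y * (P.l : ℤ) ^ K))
        (d0 + P.q w + (2 * w + 2 : ℕ) * (Y * (P.l : ℤ) ^ K)) (ih hw'.le) ?_ ?_ ?_ ?_ ?_ ?_ ?_ ?_
      · show P.g w + 1 + (P.q w - P.g w - 1) = P.q w
        omega
      · omega
      · omega
      · intro j hj
        exact P.D_run1 d0 K Y hw' hj
      · intro j hj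
        exact P.D_run2 d0 K Y hw' hj
      · rw [hm2]
        push_cast
        nlinarith
      · rw [hD0]
        apply Int.ModEq.symm
        rw [Int.modEq_iff_dvd]
        have h1 : d0 + (P.q w : ℤ) + P.g w + 1 + ((2 * w + 1 : ℕ) : ℤ) * (Y * (P.l : ℤ) ^ K) - d0 -
            ((P.l : ℤ) ^ P.e w + ((P.g w + 1 : ℕ) : ℤ)) = ((2 * w + 1 : ℕ) : ℤ) * (Y * (P.l : ℤ) ^ K) := by
          rw [hqe]; push_cast; ring
        rw [h1]
        exact Dvd.dvd.mul_left hdvd _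
      · rw [hD0]
        apply Int.ModEq.symm
        rw [Int.modEq_iff_dvd]
        have h1 : d0 + (P.q w : ℤ) + ((2 * w + 2 : ℕ) : ℤ) * (Y * (P.l : ℤ) ^ K) - d0 -
            (P.l : ℤ) ^ P.e w = ((2 * w + 2 : ℕ) : ℤ) * (Y * (P.l : ℤ) ^ K) := by
          rw [hqe]; ring
        rw [h1]
        exact Dvd.dvd.mul_left hdvd _
  have h1 := key P.n le_rfl
  have h2 : P.N + 1 = P.O P.n := by
    have h3 : P.n ≤ P.O P.n := P.n_le_O P.n
    have h4 := P.hn
    unfold N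
    omega
  rw [h2]
  exact h1

end Par
end NM
end H92C
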