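import Pool.Agent.Lib.H92C.N00

/-! # H92C, module N, chunk N33: the slices in terms of the vectors v_G -/

open Finset

namespace H92C
namespace NM

/-- Proof. `slr` is a sum over rows of `IF D`. -/
theorem slr_congr {N : ℕ} (D : Fin (N + 2) → ℤ) (m m' : (Fin (N + 1) → ℤ) → ℕ) (h : ∀ G ∈ IF D, m G = m' G) (p : Fin (N + 1)) (t : ℤ) :
    slr D m p t = slr D m' p t := by
  unfold slr
  refine Finset.sum_congr rfl fun G hG => ?_
  rw [h G (mem_filter.1 hG).1]

/-- Proof. `G ∈ IF D` (`Fin (N' + 2)` entries) corresponds to `(G', s)`, `G' = Fin.init G ∈ Bo D N'`, `s = G (last)` in the last block, `G = Fin.snoc G' s`. For `p = castSucc p'`: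
`G p = G' p'`, `dl G p = Fin.snoc (fun j => G' (p'.succAbove j)) s`. So the sum is `∑_{G'} [G' p' = t] m' G' ∑_s uu (..)`. -/
theorem slr_eq (D : ℕ → ℤ) (N' : ℕ) (m' : (Fin (N' + 1) → ℤ) → ℕ) (p : Fin (N' + 1)) (t : ℤ) :
    (slr (N := N' + 1) (fun i : Fin (N' + 3) => D i) (fun G => m' (Fin.init G)) p.castSucc t : ℤ) =
      ∑ G ∈ Bo D N', (m' G : ℤ) * vec D N' G p t := by
  classical
  have hdl : ∀ (G : Fin (N' + 1) → ℤ) (s : ℤ), dl (Fin.snoc (α := fun _ => ℤ) G s : Fin (N' + 2) → ℤ) p.castSucc =
      (Fin.snoc (α := fun _ => ℤ) (fun j => G (p.succAbove j)) s : Fin (N' + 1) → ℤ) := by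
    intro G s
    funext j
    refine Fin.lastCases ?_ (fun j => ?_) j
    · rw [dl, Fin.snoc_last]
      have e1 : p.castSucc.succAbove (Fin.last N') = Fin.last (N' + 1) := by
        rw [Fin.succAbove_of_le_castSucc]
        · rfl
        · rw [Fin.castSucc_le_castSucc_iff]
          exact Fin.le_last p
      rw [e1, Fin.snoc_last]
    · rw [dl, Fin.castSucc_succAbove_castSucc, Fin.snoc_castSucc, Fin.snoc_castSucc]
  have hstep : (slr (N := N' + 1) (fun i : Fin (N' + 3) => D i) (fun G => m' (Fin.init G)) p.castSucc t : ℤ) =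
      ∑ x ∈ Bo D N' ×ˢ Ico (D (N' + 1)) (D (N' + 2)), if x.1 p = t then (m' x.1 : ℤ) *
        (uu (Fin.snoc (α := fun _ => ℤ) (fun j => x.1 (p.succAbove j)) x.2 : Fin (N' + 1) → ℤ) : ℤ) else 0 := by
    rw [slr, Nat.cast_sum, sum_filter]
    refine sum_bij' (fun G _ => ((Fin.init G : Fin (N' + 1) → ℤ), G (Fin.last (N' + 1))))
      (fun x _ => (Fin.snoc (α := fun _ => ℤ) x.1 x.2 : Fin (N' + 2) → ℤ)) ?_ ?_ ?_ ?_ ?_
    · intro G hG
      rw [mem_IF] at hG
      rw [mem_product]
      constructor
      · simp only [Bo, Fintype.mem_piFinset, mem_Ico]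
        intro j
        have := hG j.castSucc
        exact this
      · rw [mem_Ico]
        have := hG (Fin.last (N' + 1))
        exact this
    · intro x hx
      rw [mem_product] at hx
      rw [mem_IF]
      intro j
      refine Fin.lastCases ?_ (fun j => ?_) j
      · rw [Fin.snoc_last]
        have := mem_Ico.1 hx.2
        exact this
      · rw [Fin.snoc_castSucc]
        have h1 := hx.1
        simp only [Bo, Fintype.mem_piFinset, mem_Ico] at h1
        exact h1 j
    · intro G _
      exact Fin.snoc_init_self G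
    · intro x _
      refine Prod.ext ?_ ?_
      · exact Fin.init_snoc (α := fun _ => ℤ) x.2 x.1
      · exact Fin.snoc_last (α := fun _ => ℤ) x.2 x.1
    · intro G _
      have e1 : G p.castSucc = (Fin.init G : Fin (N' + 1) → ℤ) p := rfl
      have e2 := hdl (Fin.init G) (G (Fin.last (N' + 1)))
      rw [Fin.snoc_init_self] at e2
      simp only [e1]
      rw [e2]
      split_ifs
      · push_cast; rfl
      · rfl
  rw [hstep, sum_product]
  refine sum_congr rfl fun G _ => ?_
  rw [vec]
  by_cases h : G p = t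
  · simp only [if_pos h]
    rw [uw, mul_sum]
  · simp only [if_neg h, sum_const_zero, mul_zero]

/-- Constant multiplicities are balanced. Proof. Both sums are sums over the `G ∈ Bo` with `G p = t` (`G p = t'`) of `uw D N' G p`; `G ↦ update G p t'` is a bijection, and
`uw D N' G p` does not depend on `G p` (`Fin.succAbove_ne`). -/
theorem vec_const (D : ℕ → ℤ) (N' : ℕ) (p : Fin (N' + 1)) (t t' : ℤ) (ht : t ∈ Ico (D p) (D ((p : ℕ) + 1)))
    (ht' : t' ∈ Ico (D p) (D ((p : ℕ) + 1))) :
    ∑ G ∈ Bo D N', vec D N' G p t = ∑ G ∈ Bo D N', vec D N' G p t' := by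
  classical
  have huw : ∀ (G : Fin (N' + 1) → ℤ) (s : ℤ), uw D N' (Function.update G p s) p = uw D N' G p := by
    intro G s
    unfold uw
    refine sum_congr rfl fun t _ => ?_
    have e1 : (fun j => Function.update G p s (p.succAbove j)) = fun j => G (p.succAbove j) := by
      funext j
      rw [Function.update_of_ne (Fin.succAbove_ne p j)]
    rw [e1]
  have hmem : ∀ (G : Fin (N' + 1) → ℤ) (s : ℤ), G ∈ Bo D N' → s ∈ Ico (D p) (D ((p : ℕ) + 1)) →
      Function.update G p s ∈ Bo D N' := by
    intro G s hG hs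
    simp only [Bo, Fintype.mem_piFinset] at hG ⊢
    intro j
    by_cases hj : j = p
    · subst hj; rw [Function.update_self]; exact hs
    · rw [Function.update_of_ne hj]; exact hG j
  have hsum : ∀ s : ℤ, ∑ G ∈ Bo D N', vec D N' G p s = ∑ G ∈ (Bo D N').filter (fun G => G p = s), uw D N' G p := by
    intro s
    rw [sum_filter]
    rfl
  rw [hsum, hsum]
  refine sum_bij' (fun G _ => Function.update G p t') (fun G _ => Function.update G p t) ?_ ?_ ?_ ?_ ?_
  · intro G hG
    rw [mem_filter] at hG ⊢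
    exact ⟨hmem G t' hG.1 ht', Function.update_self _ _ _⟩
  · intro G hG
    rw [mem_filter] at hG ⊢
    exact ⟨hmem G t hG.1 ht, Function.update_self _ _ _⟩
  · intro G hG
    have h1 := (mem_filter.1 hG).2
    rw [Function.update_idem, ← h1, Function.update_eq_self]
  · intro G hG
    have h1 := (mem_filter.1 hG).2
    rw [Function.update_idem, ← h1, Function.update_eq_self]
  · intro G _
    rw [huw]

end NM
end H92C
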