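import Pool.Agent.Lib.H92C.N33

/-! # H92C, module N, chunk N34: from Sp to balanced multiplicities -/

open Finset

namespace H92C
namespace NM

/-- Proof. `v(c W) = v(W) < v + 1 ≤ v(M' S)`: if `l^(v+1)` divided the sum it would divide `c W`. -/
theorem val_add (l : ℕ) (hl : l.Prime) (c W M' S : ℤ) (hc : ¬ (l : ℤ) ∣ c) (hW : W ≠ 0) (hM : (l : ℤ) ^ (padicValInt l W + 1) ∣ M') :
    padicValInt l (c * W + M' * S) = padicValInt l W ∧ c * W + M' * S ≠ 0 := by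
  haveI := Fact.mk hl
  set v := padicValInt l W with hv
  have hlv : (l : ℤ) ^ v ∣ W := padicValInt_dvd W
  have h1 : (l : ℤ) ^ v ∣ M' * S :=
    Dvd.dvd.mul_right ((pow_dvd_pow _ (Nat.le_succ v)).trans hM) S
  have h2 : (l : ℤ) ^ v ∣ c * W + M' * S := dvd_add (Dvd.dvd.mul_left hlv c) h1
  have h3 : ¬ (l : ℤ) ^ (v + 1) ∣ c * W + M' * S := by
    intro h4
    have h5 : (l : ℤ) ^ (v + 1) ∣ c * W := by
      have h6 := dvd_sub h4 (Dvd.dvd.mul_right hM S)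
      rwa [add_sub_cancel_right] at h6
    have h6 : IsCoprime ((l : ℤ) ^ (v + 1)) c :=
      ((Nat.prime_iff_prime_int.1 hl).coprime_iff_not_dvd.2 hc).pow_left
    have h7 : (l : ℤ) ^ (v + 1) ∣ W := h6.dvd_of_dvd_mul_left h5
    rw [padicValInt_dvd_iff] at h7
    rcases h7 with h7 | h7
    · exact hW h7
    · omega
  have h0 : c * W + M' * S ≠ 0 := by
    intro h4
    exact h3 (h4 ▸ dvd_zero _)
  refine ⟨?_, h0⟩
  rw [padicValInt_dvd_iff] at h2 h3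
  push Not at h3
  rcases h2 with h2 | h2
  · exact absurd h2 h0
  · have := h3.2
    omega

/-- Proof. Let `c`, `mm` be as in `Sp`, `M1 = l^(v(Wv 0) + 1)`, `M2 = M1 * ∑_{G ∈ Bo} (mm G).natAbs`, `m G = (mm (Fin.init G) + M2).toNat`. For `G ∈ IF D`, `Fin.init G ∈ Bo`, so `mm + M2 ≥ 0`. `hlast`: `Fin.init (update G (last) t) = Fin.init G`.
For `p = castSucc p'` (`p < N' + 1`), `t` in the block `p`: by `slr_congr`, `slr_eq` `slr = ∑ (mm G + M2) vec G p' t = c * Wv p' + M2 * ∑ vec G p' t`, independent of `t` (`vec_const`). For `p = 0`, `t = D 0` and `m + M`, `M1 ∣ M`: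
`slr = c * Wv 0 + (M2 + M) * S`, `val_add`. -/
theorem assemble (l : ℕ) (hl : l.Prime) (D : ℕ → ℤ) (N' : ℕ) (hD : ∀ i ≤ N' + 1, D i < D (i + 1)) (Wv : ℕ → ℤ) (h0 : Wv 0 ≠ 0)
    (hSp : Sp l D N' (fun i _ => Wv i)) :
    ∃ m : (Fin (N' + 1 + 1) → ℤ) → ℕ,
      (∀ G ∈ IF (fun i : Fin (N' + 1 + 2) => D i), ∀ t : ℤ, D (N' + 1) ≤ t → t < D (N' + 1 + 1) →
        m (Function.update G (Fin.last (N' + 1)) t) = m G) ∧
      (∀ p : Fin (N' + 1 + 1), (p : ℕ) < N' + 1 → ∀ t t' : ℤ, D p ≤ t → t < D (p + 1) → D p ≤ t' → t' < D (p + 1) →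
        slr (fun i : Fin (N' + 1 + 2) => D i) m p t = slr (fun i : Fin (N' + 1 + 2) => D i) m p t') ∧
      ∃ M1 : ℕ, 0 < M1 ∧ ∀ M : ℕ, M1 ∣ M →
        padicValNat l (slr (fun i : Fin (N' + 1 + 2) => D i) (fun G => m G + M) 0 (D 0)) = padicValInt l (Wv 0) ∧
        slr (fun i : Fin (N' + 1 + 2) => D i) (fun G => m G + M) 0 (D 0) ≠ 0 := by
  classical
  obtain ⟨c, hc, mm, hmm⟩ := hSp
  set v := padicValInt l (Wv 0) with hv
  set M1 : ℕ := l ^ (v + 1) with hM1def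
  have hM1 : 0 < M1 := pow_pos hl.pos _
  set M2 : ℕ := M1 * ∑ G ∈ Bo D N', (mm G).natAbs with hM2
  have hpos : ∀ G ∈ Bo D N', 0 ≤ mm G + M2 := by
    intro G hG
    have h1 : (mm G).natAbs ≤ ∑ G ∈ Bo D N', (mm G).natAbs :=
      Finset.single_le_sum (f := fun G => (mm G).natAbs) (fun _ _ => Nat.zero_le _) hG
    have h2 : (mm G).natAbs ≤ M2 := le_trans h1 (Nat.le_mul_of_pos_left _ hM1)
    omega
  have hslr : ∀ (M : ℕ) (p' : Fin (N' + 1)) (t : ℤ), t ∈ Ico (D p') (D ((p' : ℕ) + 1)) →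
      (slr (N := N' + 1) (fun i : Fin (N' + 3) => D i) (fun G => (mm (Fin.init G) + M2).toNat + M) p'.castSucc t : ℤ) =
        c * Wv p' + ((M2 + M : ℕ) : ℤ) * ∑ G ∈ Bo D N', vec D N' G p' t := by
    intro M p' t ht
    rw [slr_eq D N' (fun G => (mm G + M2).toNat + M) p' t, hmm p' t ht, Finset.mul_sum, ← Finset.sum_add_distrib]
    refine Finset.sum_congr rfl fun G hG => ?_
    have h1 := hpos G hG
    push_cast
    rw [Int.toNat_of_nonneg h1]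
    ring
  refine ⟨fun G => (mm (Fin.init G) + M2).toNat, ?_, ?_, M1, hM1, ?_⟩
  · intro G _ t _ _
    have h1 : (Fin.init (Function.update G (Fin.last (N' + 1)) t) : Fin (N' + 1) → ℤ) = Fin.init G :=
      Fin.init_update_last G t
    simp only [h1]
  · intro p hp t t' h1 h2 h3 h4
    obtain ⟨p', rfl⟩ : ∃ p' : Fin (N' + 1), p = p'.castSucc := ⟨⟨p, hp⟩, by ext; rfl⟩
    have e1 := hslr 0 p' t (mem_Ico.2 ⟨h1, h2⟩)
    have e2 := hslr 0 p' t' (mem_Ico.2 ⟨h3, h4⟩)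
    rw [vec_const D N' p' t t' (mem_Ico.2 ⟨h1, h2⟩) (mem_Ico.2 ⟨h3, h4⟩), ← e2] at e1
    simp only [add_zero] at e1
    exact_mod_cast e1
  · intro M hM
    have h0mem : D 0 ∈ Ico (D ((0 : Fin (N' + 1)) : ℕ)) (D (((0 : Fin (N' + 1)) : ℕ) + 1)) := by
      rw [mem_Ico]
      exact ⟨le_rfl, hD 0 (Nat.zero_le _)⟩
    have e1 := hslr M 0 (D 0) h0mem
    rw [Fin.castSucc_zero] at e1
    have hdv : (l : ℤ) ^ (v + 1) ∣ ((M2 + M : ℕ) : ℤ) := by
      have h1 : M1 ∣ M2 + M := dvd_add (dvd_mul_right _ _) hM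
      have h2 : ((M1 : ℕ) : ℤ) ∣ ((M2 + M : ℕ) : ℤ) := by exact_mod_cast h1
      rw [hM1def] at h2
      push_cast at h2 ⊢
      exact h2
    obtain ⟨h1, h2⟩ := val_add l hl c (Wv 0) ((M2 + M : ℕ) : ℤ) (∑ G ∈ Bo D N', vec D N' G 0 (D 0)) hc h0 hdv
    have e2 : ((0 : Fin (N' + 1)) : ℕ) = 0 := rfl
    rw [e2] at e1
    rw [← e1] at h1 h2
    constructor
    · simpa using h1
    · exact_mod_cast h2

end NM
end H92C
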