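import Pool.Agent.Lib.H92C.N09
import Pool.Agent.Lib.H92C.N16
import Pool.Agent.Lib.H92C.N21
import Pool.Agent.Lib.H92C.N30

/-! # H92C, module N, chunk N35: the hypotheses of the elimination -/

open Finset

namespace H92C
namespace NM
namespace Par

variable (P : Par)

/-- Proof. `hD`: `D_lt`. `hp`: `p_mem`. `long`: `long` with `ρ = x i` (`p_mod`, `x_lt_K`). `prime`: `uw_prime` with `T = l^E0` (`≥ 2`), `A = D N`, `B = D (N + 1)` (`D_N`, `D_N1`, `D_lt`), `x = P.x`, `bal`, `x_inj` (the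
residues are `< l^K`, `x_lt_K`), `x n = zt 0 = l^E0` (`x_O` with `w = 0`), `x_last`. -/
theorem piv (d0 : ℤ) {K : ℕ} (hK : P.E0 + P.n ≤ K) {Y : ℕ} (hY : 2 ≤ Y) (N' : ℕ) (hN : P.N = N' + 1) (hn : P.n < N' + 1)
    (hNK : N' + 1 < P.l ^ K) (hF : padicValNat P.l (sf (N' + 1)) < K) :
    Piv P.l K (P.D d0 K Y) N' ⟨P.n, hn⟩ (fun i => P.p d0 K Y i) where
  hl := P.hl
  hD i hi := P.D_lt d0 hK hY (by omega)
  hp i := P.p_mem d0 hK hY (by omega)
  long i := by
    obtain ⟨s, h1, h2, h3⟩ := P.long d0 hK hY (P.x_lt_K (i := i) (by omega) hK)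
    exact ⟨s, h1, h2, h3.trans (P.p_mod d0 K Y i).symm⟩
  prime S hS hSA σ hσ hσ0 h := by
    refine uw_prime P.l P.hl N' K (P.l ^ P.E0) ?_ hNK hF P.x (hN ▸ P.bal) ?_ ⟨P.n, hn⟩ ?_ ?_ d0 _ _ ?_ ?_ ?_ S hS hSA σ hσ
      hσ0 (fun j => (h j).trans (P.p_mod d0 K Y (σ j)))
    · have h1 := P.hLE
      have h2 : 0 < P.l ^ P.K0 := pow_pos P.hl.pos _
      have h3 := P.hn
      omega
    · intro i hi j hj hij
      refine P.x_inj (by omega) (by omega) ?_
      exact Nat.ModEq.eq_of_lt_of_lt hij (P.x_lt_K (by omega) hK) (P.x_lt_K (by omega) hK)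
    · have h1 := P.x_O (w := 0) (by have := P.hn; omega)
      exact h1
    · intro j h1 h2
      obtain ⟨i, hi, hin, hx⟩ := P.x_last h1 h2
      exact ⟨i, by omega, hin, hx⟩
    · have h1 := P.D_lt d0 hK hY (i := N' + 1) (by omega)
      exact h1
    · have h1 := P.D_N d0 K Y
      rw [hN] at h1
      exact h1
    · have h1 := P.D_N1 d0 K Y
      rw [hN] at h1
      exact h1

end Par
end NM
end H92C
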