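import Pool.Agent.Lib.H92C.N00

/-! # H92C, module N, chunk N36: the choice of the parameters -/

open Finset

namespace H92C
namespace NM

/-- Proof. `ell (n + 1) = ell n + n + 3`. -/
theorem ell_nonneg (n : ℕ) : 0 ≤ ell n := by
  induction n with
  | zero => exact le_refl _
  | succ n ih =>
    show 0 ≤ ell n + n + 3
    positivity

/-- Proof. `c j = (d j - d 0).toNat`, `K0 = c n + n` (`a < l^a`: `Nat.lt_pow_self`), `E0 = K0 + n + 1`: `l^E0 = l^K0 * l^(n+1) ≥ l^K0 (n + 2) > l^K0 + n` (`l^K0 ≥ 1`). -/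
theorem exists_par (l : ℕ) (hl : l.Prime) (n : ℕ) (hn : 2 ≤ n) (d : ℕ → ℤ) (hd : ∀ i < n, d i < d (i + 1)) :
    ∃ P : Par, P.l = l ∧ P.n = n ∧ ∀ i ≤ n, d i = d 0 + P.c i := by
  have h0 : ∀ i ≤ n, d 0 ≤ d i := by
    intro i hi
    induction i with
    | zero => exact le_refl _
    | succ i ih => exact (ih (by omega)).trans (hd i (by omega)).le
  have h1 : ∀ i ≤ n, d i = d 0 + ((d i - d 0).toNat : ℤ) := by
    intro i hi
    rw [Int.toNat_of_nonneg (by have := h0 i hi; omega)]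
    ring
  refine ⟨⟨l, n, fun j => (d j - d 0).toNat, (d n - d 0).toNat + n, (d n - d 0).toNat + n + n + 1,
    hl, hn, by simp, ?_, ?_, ?_, ?_⟩, rfl, rfl, h1⟩
  · intro i hi
    have h2 := h1 i (by omega)
    have h3 := h1 (i + 1) (by omega)
    have h4 := hd i hi
    show (d i - d 0).toNat < (d (i + 1) - d 0).toNat
    omega
  · exact Nat.lt_pow_self hl.one_lt
  · omega
  · show l ^ ((d n - d 0).toNat + n) + n < l ^ ((d n - d 0).toNat + n + n + 1)
    have h2 : n + 1 < l ^ (n + 1) := Nat.lt_pow_self hl.one_lt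
    have h3 : 1 ≤ l ^ ((d n - d 0).toNat + n) := Nat.one_le_pow _ _ hl.pos
    have h4 : l ^ ((d n - d 0).toNat + n + n + 1) = l ^ ((d n - d 0).toNat + n) * l ^ (n + 1) := by
      rw [← pow_add]; congr 1
    rw [h4]
    nlinarith

end NM
end H92C
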