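import Mathlib

/-! # H92C, module N, chunk N37: valuations for thmN_cut (N.7), pure -/

open Finset

namespace H92C
namespace NM

/-- Proof. `val` only depends on the class modulo `l^(E+1)` for `0 < a < l^(E+1)`: both `x` and `a` are divisible by `l^r` for the same `r ≤ E + 1`, and `a` is not divisible by `l^(E+1)`. Here
`x ≡ - a`, `v(-a) = v(a)`. -/
theorem cut_val (l : ℕ) (hl : l.Prime) (E : ℕ) (x : ℤ) (a : ℕ) (ha : 0 < a) (ha' : a < l ^ (E + 1))
    (h : x ≡ a [ZMOD (l : ℤ) ^ (E + 1)] ∨ x ≡ -a [ZMOD (l : ℤ) ^ (E + 1)]) : padicValInt l x = padicValNat l a := by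
  have : Fact l.Prime := ⟨hl⟩
  have key : ∀ r, r ≤ E + 1 → ((l : ℤ) ^ r ∣ x ↔ l ^ r ∣ a) := by
    intro r hr
    have hd : (l : ℤ) ^ r ∣ (l : ℤ) ^ (E + 1) := pow_dvd_pow _ hr
    have h1 : (l : ℤ) ^ r ∣ x ↔ (l : ℤ) ^ r ∣ (a : ℤ) := by
      rcases h with h | h
      · have h2 := (Int.modEq_iff_dvd.mp h)
        have h3 := hd.trans h2
        constructor
        · intro h4; have := dvd_add h3 h4; simpa using this
        · intro h4; have := dvd_sub h4 h3; simpa using this
      · have h2 := (Int.modEq_iff_dvd.mp h)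
        have h3 := hd.trans h2
        constructor
        · intro h4
          have h5 := dvd_add h3 h4
          have h6 : -(a : ℤ) - x + x = -(a : ℤ) := by ring
          rw [h6] at h5
          exact (dvd_neg.mp h5)
        · intro h4
          have h5 := dvd_add h3 h4
          have h6 : -(a : ℤ) - x + a = -x := by ring
          rw [h6] at h5
          exact (dvd_neg.mp h5)
    rw [h1]
    exact_mod_cast Iff.rfl
  set v := padicValNat l a with hv
  have hva : l ^ v ∣ a := pow_padicValNat_dvd
  have hv' : v < E + 1 := by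
    by_contra hc
    push Not at hc
    have := Nat.le_of_dvd ha ((pow_dvd_pow l hc).trans hva)
    omega
  have hna : ¬ l ^ (v + 1) ∣ a := pow_succ_padicValNat_not_dvd ha.ne'
  have hnx : ¬ (l : ℤ) ^ (v + 1) ∣ x := by rw [key _ (by omega)]; exact hna
  have hx0 : x ≠ 0 := by
    rintro rfl
    exact hnx (dvd_zero _)
  apply le_antisymm
  · by_contra hc
    push Not at hc
    apply hnx
    rw [padicValInt_dvd_iff]
    right; omega
  · have := (key v (by omega)).mpr hva
    rw [padicValInt_dvd_iff] at this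
    rcases this with h | h
    · exact absurd h hx0
    · exact h

/-- Proof. `r = 0`: `v(l^E) = E`; `0 < r < l^E`: `v(l^E + r) = v(r)` (`cut_val`-like, or `padicValNat.add_eq_min`..); so the sum is `E + v((l^E - 1)!) = v((l^E)!)`. -/
theorem cut_sum (l : ℕ) (hl : l.Prime) (E : ℕ) :
    ∑ r ∈ range (l ^ E), padicValNat l (l ^ E + r) = padicValNat l (l ^ E).factorial := by
  have : Fact l.Prime := ⟨hl⟩
  have hfac : ∀ n : ℕ, padicValNat l n.factorial = ∑ r ∈ range n, padicValNat l (r + 1) := by
    intro n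
    induction n with
    | zero => simp
    | succ n ih =>
      rw [Nat.factorial_succ, padicValNat.mul (by omega) (Nat.factorial_ne_zero n), Finset.sum_range_succ, ih]
      ring
  rw [hfac]
  obtain ⟨M, hM⟩ : ∃ M, l ^ E = M + 1 := ⟨l ^ E - 1, by have := pow_pos hl.pos E; omega⟩
  have hval : ∀ r, 0 < r → r < l ^ E → padicValNat l (l ^ E + r) = padicValNat l r := by
    intro r h0 h1
    rcases E with _ | E
    · simp at h1; omega
    · have := cut_val l hl E ((l ^ (E + 1) + r : ℕ) : ℤ) r h0 h1 (Or.inl ?_)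
      · rw [padicValInt.of_nat] at this
        exact this
      · rw [Int.modEq_iff_dvd]
        push_cast
        have : (r : ℤ) - ((l : ℤ) ^ (E + 1) + r) = -((l : ℤ) ^ (E + 1)) := by ring
        rw [this, dvd_neg]
  rw [hM, Finset.sum_range_succ', Finset.sum_range_succ (fun r => padicValNat l (r + 1)), ← hM]
  congr 1
  apply Finset.sum_congr rfl
  intro r hr
  rw [Finset.mem_range] at hr
  exact hval (r + 1) (by omega) (by omega)

/-- Proof. `∏_{k<m1} ∏_{i<m2} (k + i + 1) = ∏_{k<m1} (k + m2)!/k!` (`Nat.ascFactorial`), and `∏_{k<m2} k! ∏_{k<m1} (k + m2)! = ∏_{k < m1 + m2} k!` (`Finset.prod_range_add`). -/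
theorem cut_prod (m1 m2 : ℕ) : (∏ k ∈ range m1, ∏ i ∈ range m2, (k + i + 1)) *
    ((∏ k ∈ range m1, k.factorial) * ∏ k ∈ range m2, k.factorial) = ∏ k ∈ range (m1 + m2), k.factorial := by
  have haux : ∀ m k : ℕ, m.factorial * ∏ i ∈ range k, (m + i + 1) = (m + k).factorial := by
    intro m k
    induction k with
    | zero => simp
    | succ k ih =>
      rw [Finset.prod_range_succ, ← mul_assoc, ih, ← Nat.add_assoc, Nat.factorial_succ]
      ring
  induction m1 with
  | zero => simp
  | succ m ih =>
    rw [Finset.prod_range_succ, Finset.prod_range_succ (fun k => k.factorial), show m + 1 + m2 = m + m2 + 1 by ring,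
      Finset.prod_range_succ (fun k => k.factorial), ← ih, ← haux m m2]
    ring

end NM
end H92C
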