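import Pool.Agent.Lib.H92C.N37

/-! # H92C, module N, chunk N38: thmN_cut (N.7) -/

open Finset

namespace H92C
namespace NM

/-- Proof. `e = v2 - v1 > m2`, `e ≡ - m1 mod l^(E+1)` (from `hc1`, `hc2`: `v2 - v1 ≡ l^E - (l^E + m1)`). The factor is positive, and `e + k + 1 - (i + 1) ≡ -(m1 - 1 - k + i + 1)` with
`1 ≤ m1 - 1 - k + i + 1 ≤ m1 + m2 - 1 < l^E`: `cut_val`. Reverse the order of `k` (`k ↦ m1 - 1 - k`, `sum_range_reflect`). -/
theorem cut_e (l : ℕ) (hl : l.Prime) (E m1 m2 : ℕ) (hm : m1 + m2 = l ^ E) (h1 : 1 ≤ m1) (v1 v2 d0 : ℤ)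
    (hgap : v1 + m2 < v2) (hc1 : v1 - d0 ≡ l ^ E + m1 [ZMOD (l : ℤ) ^ (E + 1)])
    (hc2 : v2 - d0 ≡ l ^ E [ZMOD (l : ℤ) ^ (E + 1)]) :
    ∑ k ∈ range m1, ∑ i ∈ range m2, padicValInt l ((v2 - v1) + k + 1 - ((i + 1 : ℕ) : ℤ)) =
      ∑ k ∈ range m1, ∑ i ∈ range m2, padicValNat l (k + i + 1) := by
  have h := Finset.sum_range_reflect (fun k => ∑ i ∈ range m2, padicValInt l ((v2 - v1) + k + 1 - ((i + 1 : ℕ) : ℤ))) m1
  rw [← h]
  apply Finset.sum_congr rfl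
  intro k hk
  apply Finset.sum_congr rfl
  intro i hi
  rw [Finset.mem_range] at hk hi
  apply cut_val l hl E
  · omega
  · have h3 : l ^ E ≤ l ^ (E + 1) := Nat.pow_le_pow_right hl.pos (by omega)
    omega
  · right
    rw [Int.modEq_iff_dvd] at hc1 hc2 ⊢
    have h4 := dvd_sub hc1 hc2
    have h5 : ((m1 - 1 - k : ℕ) : ℤ) = m1 - 1 - k := by omega
    have h6 : -((k + i + 1 : ℕ) : ℤ) - (v2 - v1 + ((m1 - 1 - k : ℕ) : ℤ) + 1 - ((i + 1 : ℕ) : ℤ)) =
        -((l : ℤ) ^ E + m1 - (v1 - d0) - ((l : ℤ) ^ E - (v2 - d0))) := by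
      rw [h5]; push_cast; ring
    rw [h6, dvd_neg]
    exact h4

/-- Proof. `v1 + j - d0 ≡ l^E + (m1 + j)`, `v2 + j - d0 ≡ l^E + j` modulo `l^(E+1)`, `l^E + r < 2 l^E ≤ l^(E+1)` for `r < m1 + m2 = l^E`: `cut_val`; the sum over all `r < l^E` is `cut_sum`. -/
theorem cut_d (l : ℕ) (hl : l.Prime) (E m1 m2 : ℕ) (hm : m1 + m2 = l ^ E) (v1 v2 d0 : ℤ)
    (hc1 : v1 - d0 ≡ l ^ E + m1 [ZMOD (l : ℤ) ^ (E + 1)])
    (hc2 : v2 - d0 ≡ l ^ E [ZMOD (l : ℤ) ^ (E + 1)]) :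
    ∑ j ∈ range m2, padicValInt l (v1 + j - d0) + ∑ j ∈ range m1, padicValInt l (v2 + j - d0) =
      padicValNat l (l ^ E).factorial := by
  have hlt : ∀ r, r < l ^ E → l ^ E + r < l ^ (E + 1) := by
    intro r hr
    have h3 : l ^ E * 2 ≤ l ^ (E + 1) := by rw [pow_succ]; exact Nat.mul_le_mul_left _ hl.two_le
    omega
  have hpos : 0 < l ^ E := pow_pos hl.pos E
  rw [← cut_sum l hl E, ← hm, Finset.sum_range_add, hm, add_comm]
  congr 1
  · apply Finset.sum_congr rfl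
    intro j hj
    rw [Finset.mem_range] at hj
    apply cut_val l hl E
    · omega
    · exact hlt _ (by omega)
    · left
      rw [Int.modEq_iff_dvd] at hc2 ⊢
      have h6 : ((l ^ E + j : ℕ) : ℤ) - (v2 + j - d0) = (l : ℤ) ^ E - (v2 - d0) := by push_cast; ring
      rw [h6]; exact hc2
  · apply Finset.sum_congr rfl
    intro j hj
    rw [Finset.mem_range] at hj
    apply cut_val l hl E
    · omega
    · exact hlt _ (by omega)
    · left
      rw [Int.modEq_iff_dvd] at hc1 ⊢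
      have h6 : ((l ^ E + (m1 + j) : ℕ) : ℤ) - (v1 + j - d0) = (l : ℤ) ^ E + m1 - (v1 - d0) := by push_cast; ring
      rw [h6]; exact hc1

/-- Proof. All factors are nonzero (`e + k + 1 - i ≥ e + 1 - m2 > 0`, `v1 + j - d0 > 0`, `v2 + j - d0 > 0`), so `u ≠ 0`, `h ≠ 0`. Take valuations in `hu` and `hh`; in `hu` split off the factor
`i = 0` (`e + k + 1`, `Finset.prod_range_succ'`), which cancels with the one in `hh`:
`v(h) + v(m2!) + ∑_{k ≤ m} v(k!) = ∑_{k ≤ m2} v(k!) + ∑_{k<m1} v(k!) + (cut_e) + (cut_d)`, `m = m1 + m2 = l^E`; by `cut_prod` `(cut_e) = ∑_{k<m} v(k!) - ∑_{k<m1} v(k!) - ∑_{k<m2} v(k!)`; so `v(h) = 0`. -/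
theorem cut (l : ℕ) (hl : l.Prime) (E m1 m2 : ℕ) (hm : m1 + m2 = l ^ E) (h1 : 1 ≤ m1) (h2 : 1 ≤ m2) (v1 v2 d0 : ℤ)
    (hd : d0 < v1) (hgap : v1 + m2 < v2) (hc1 : v1 - d0 ≡ l ^ E + m1 [ZMOD (l : ℤ) ^ (E + 1)])
    (hc2 : v2 - d0 ≡ l ^ E [ZMOD (l : ℤ) ^ (E + 1)]) (u h : ℕ)
    (hu : (u : ℤ) * ∏ k ∈ Finset.range (m1 + m2 + 1), (k.factorial : ℤ) =
      (∏ k ∈ Finset.range (m2 + 1), (k.factorial : ℤ)) * (∏ k ∈ Finset.range m1, (k.factorial : ℤ)) *
        ∏ k ∈ Finset.range m1, ∏ i ∈ Finset.range (m2 + 1), ((v2 - v1) + k + 1 - i))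
    (hh : (h : ℤ) * ((∏ k ∈ Finset.range m1, ((v2 - v1) + k + 1)) * m2.factorial) =
      u * ((∏ j ∈ Finset.range m2, (v1 + j - d0)) * ∏ j ∈ Finset.range m1, (v2 + j - d0))) :
    ¬ l ∣ h := by
  have : Fact l.Prime := ⟨hl⟩
  have hprod : ∀ (s : Finset ℕ) (g : ℕ → ℤ), (∀ i ∈ s, g i ≠ 0) → padicValInt l (∏ i ∈ s, g i) = ∑ i ∈ s, padicValInt l (g i) := by
    intro s g hg
    induction s using Finset.induction_on with
    | empty => simp
    | insert a s ha ih =>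
      rw [Finset.prod_insert ha, Finset.sum_insert ha, padicValInt.mul (hg a (Finset.mem_insert_self _ _)), ih]
      · intro i hi; exact hg i (Finset.mem_insert_of_mem hi)
      · exact Finset.prod_ne_zero_iff.mpr (fun i hi => hg i (Finset.mem_insert_of_mem hi))
  set A : ℤ := ∏ k ∈ range m1, ∏ i ∈ range m2, ((v2 - v1) + k + 1 - ((i + 1 : ℕ) : ℤ)) with hA
  set Bp : ℤ := ∏ k ∈ range m1, ((v2 - v1) + k + 1) with hB
  set D1 : ℤ := ∏ j ∈ range m2, (v1 + j - d0) with hD1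
  set D2 : ℤ := ∏ j ∈ range m1, (v2 + j - d0) with hD2
  set P : ℤ := ∏ k ∈ range m1, ∏ i ∈ range m2, ((k + i + 1 : ℕ) : ℤ) with hP
  have hsplit : ∏ k ∈ Finset.range m1, ∏ i ∈ Finset.range (m2 + 1), ((v2 - v1) + k + 1 - i) = A * Bp := by
    rw [hA, hB, ← Finset.prod_mul_distrib]
    apply Finset.prod_congr rfl
    intro k hk
    rw [Finset.prod_range_succ']
    congr 1
    push_cast; ring
  have hcp : P * ((∏ k ∈ range m1, (k.factorial : ℤ)) * ∏ k ∈ range m2, (k.factorial : ℤ)) = ∏ k ∈ range (m1 + m2), (k.factorial : ℤ) := by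
    have := cut_prod m1 m2
    rw [hP]
    exact_mod_cast this
  rw [hsplit, Finset.prod_range_succ, Finset.prod_range_succ, ← hcp] at hu
  have hF : ∀ n : ℕ, (∏ k ∈ range n, (k.factorial : ℤ)) ≠ 0 := fun n =>
    Finset.prod_ne_zero_iff.mpr (fun k _ => by exact_mod_cast Nat.factorial_ne_zero k)
  have hBp : Bp ≠ 0 := Finset.prod_ne_zero_iff.mpr (fun k _ => by omega)
  have hD1' : D1 ≠ 0 := Finset.prod_ne_zero_iff.mpr (fun k _ => by omega)
  have hD2' : D2 ≠ 0 := Finset.prod_ne_zero_iff.mpr (fun k _ => by omega)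
  have hA' : A ≠ 0 := Finset.prod_ne_zero_iff.mpr (fun k _ => Finset.prod_ne_zero_iff.mpr (fun i hi => by
    rw [Finset.mem_range] at hi
    push_cast
    omega))
  have hP' : P ≠ 0 := Finset.prod_ne_zero_iff.mpr (fun k _ => Finset.prod_ne_zero_iff.mpr (fun i hi => by
    push_cast
    omega))
  have hm2f : (m2.factorial : ℤ) ≠ 0 := by exact_mod_cast Nat.factorial_ne_zero m2
  have hmf : ((m1 + m2).factorial : ℤ) ≠ 0 := by exact_mod_cast Nat.factorial_ne_zero (m1 + m2)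
  have key : (h : ℤ) * (P * ((m1 + m2).factorial : ℤ)) = A * (D1 * D2) := by
    have hc : Bp * m2.factorial * ((∏ k ∈ range m1, (k.factorial : ℤ)) * ∏ k ∈ range m2, (k.factorial : ℤ)) ≠ 0 :=
      mul_ne_zero (mul_ne_zero hBp hm2f) (mul_ne_zero (hF _) (hF _))
    apply mul_right_cancel₀ hc
    linear_combination (P * ((m1 + m2).factorial : ℤ) * ((∏ k ∈ range m1, (k.factorial : ℤ)) * ∏ k ∈ range m2, (k.factorial : ℤ))) * hh
      + (D1 * D2) * hu
  have hh0 : (h : ℤ) ≠ 0 := by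
    intro h0
    rw [h0, zero_mul] at key
    exact (mul_ne_zero hA' (mul_ne_zero hD1' hD2')) key.symm
  have hval := congrArg (padicValInt l) key
  have vD1 : padicValInt l D1 = ∑ j ∈ range m2, padicValInt l (v1 + j - d0) := hprod _ _ (fun i _ => by omega)
  have vD2 : padicValInt l D2 = ∑ j ∈ range m1, padicValInt l (v2 + j - d0) := hprod _ _ (fun i _ => by omega)
  have vA : padicValInt l A = ∑ k ∈ range m1, ∑ i ∈ range m2, padicValInt l ((v2 - v1) + k + 1 - ((i + 1 : ℕ) : ℤ)) := by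
    rw [hA, hprod _ _ (fun k _ => Finset.prod_ne_zero_iff.mpr (fun i hi => by
      rw [Finset.mem_range] at hi
      push_cast
      omega))]
    exact Finset.sum_congr rfl (fun k _ => hprod _ _ (fun i hi => by
      rw [Finset.mem_range] at hi
      push_cast
      omega))
  have vP : padicValInt l P = ∑ k ∈ range m1, ∑ i ∈ range m2, padicValNat l (k + i + 1) := by
    rw [hP, hprod _ _ (fun k _ => Finset.prod_ne_zero_iff.mpr (fun i hi => by
      push_cast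
      omega))]
    refine Finset.sum_congr rfl (fun k _ => ?_)
    rw [hprod _ _ (fun i hi => by push_cast; omega)]
    exact Finset.sum_congr rfl (fun i _ => padicValInt.of_nat)
  rw [padicValInt.mul hh0 (mul_ne_zero hP' hmf), padicValInt.mul hP' hmf, padicValInt.mul hA' (mul_ne_zero hD1' hD2'),
    padicValInt.mul hD1' hD2', vD1, vD2, cut_d l hl E m1 m2 hm v1 v2 d0 hc1 hc2, vA, vP,
    cut_e l hl E m1 m2 hm h1 v1 v2 d0 hgap hc1 hc2, hm, padicValInt.of_nat, padicValInt.of_nat] at hval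
  have hv : padicValNat l h = 0 := by omega
  intro hdvd
  have hhn : h ≠ 0 := by exact_mod_cast hh0
  have := one_le_padicValNat_of_dvd hhn hdvd
  omega

end NM
end H92C
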