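import Pool.Agent.Lib.H92C.ThmA
import Pool.Agent.Lib.H92C.B24
import Pool.Agent.Lib.H92C.B56
import Pool.Agent.Lib.H92C.B57

/-!
# H92C, module B: exports (chain maps given by the tensor operators)
-/

open MvPolynomial

namespace H92C

variable {K : Type} [Field K] (q : K)

/-- The identity. -/
theorem thmB_id (hq0 : q ≠ 0) (hq : ∀ j : ℕ, 0 < j → q ^ j ≠ 1) {N : ℕ} (G : Fin (N + 1) → ℤ) (hG : StrictMono G)
    (p : Fin (N + 1)) (_ : StrictMono (G + ep p)) : TT (zq q) G (G + ep p) p LinearMap.id :=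
  b24_id q hq0 hq G hG p

/-- The operators λ_k. -/
theorem thmB_lam (hq0 : q ≠ 0) (hq : ∀ j : ℕ, 0 < j → q ^ j ≠ 1) {N : ℕ} (G : Fin (N + 1) → ℤ) (hG : StrictMono G)
    (p k : Fin (N + 1)) (hk : k ≠ p) (hG' : StrictMono (G + ep p - ep k)) :
    TT (zq q) G (G + ep p - ep k) p (tr N (dl (G + ep p - ep k) p)) :=
  b24_lam q hq0 hq G hG p k hk hG'

/-- The operators ρ_k^μ. -/
theorem thmB_rho (hq0 : q ≠ 0) (hq : ∀ j : ℕ, 0 < j → q ^ j ≠ 1) {N : ℕ} (G : Fin (N + 1) → ℤ) (hG : StrictMono G)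
    (p k : Fin (N + 1)) (hk : k ≠ p) (hG' : StrictMono (G + ep p + ep k)) (μ : ℕ) (_ : 1 ≤ μ) (_ : μ ≤ N) :
    TT (zq q) G (G + ep p + ep k) p (tr N (dl (G + ep p + ep k) p) ∘ₗ PR q μ N (zq q (G k))) :=
  b24_rho q hq0 hq G hG p k hk hG' μ

/-- The operators C_{N-r}^k for the last k. -/
theorem thmB_C (hq0 : q ≠ 0) (hq : ∀ j : ℕ, 0 < j → q ^ j ≠ 1) {N : ℕ} (G : Fin (N + 1) → ℤ) (hG : StrictMono G)
    (p : Fin (N + 1)) (hk : Fin.last N ≠ p) (hG' : StrictMono (G + ep p - ep (Fin.last N))) (r : ℕ) (hr : r < N)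
    (k : Fin N) (hk' : (k : ℕ) + 1 = N) :
    TT (zq q) G (G + ep p - ep (Fin.last N)) p (CC q (dl G p) k r) :=
  b56_main hq0 hq G hG p hk hG' r hr k hk' (fun h => b24_id q hq0 hq (G - ep (Fin.last N)) h p)
    (b24_lam q hq0 hq G hG p (Fin.last N) hk hG')

/-- The level formula for the operators C. -/
theorem thmB_level (hq0 : q ≠ 0) (_ : ∀ j : ℕ, 0 < j → q ^ j ≠ 1) {n : ℕ} (E : Fin (n + 1) → ℤ) (_ : StrictMono E)
    (k : Fin (n + 1)) (_ : StrictMono (E - ep k)) (r : ℕ) (hr : r < n) (v : W K (n + 1)) (_ : v ∈ U K (n + 1) E)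
    (F : Fin n → ℤ) (hF : Il (E - ep k) F) :
    sl F (CC q E k (r + 1) v) = ∑ j, bet q E k (F + ep j) j • CC q (F + ep j) j r (sl (F + ep j) v) :=
  b57_level q hq0 E k F hF r hr v

end H92C
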