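import Pool.Agent.Lib.H92C.ThmN
import Pool.Agent.Lib.H92C.C40
import Pool.Agent.Lib.H92C.C77
import Pool.Agent.Lib.H92C.C81

/-!
# H92C, module C: exports (certificates, cutting of windows, specialization)
-/

open MvPolynomial

namespace H92C

/-- Resolutions of finite length have certificates. -/
theorem thmC_cert (k : Type) [Field k] (n : ℕ) (d : ℕ → ℤ) (β : ℕ → ℕ) (h : Rfl k n d β) : Cert k n d β := by
  obtain ⟨f, hf, hex, e, hfl⟩ := h
  refine ⟨f, hf, ?_, e, fun a => c08 β f hex (X a ^ e) (fun v => hfl a v)⟩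
  intro i
  apply LinearMap.ext
  intro x
  have hx : f (i + 1) x ∈ LinearMap.ker (f i) := by
    rw [← hex i]
    exact ⟨_, rfl⟩
  exact hx

/-- Certificates of length at most n are resolutions. -/
theorem thmC_rfl (k : Type) [Field k] (n : ℕ) (d : ℕ → ℤ) (β : ℕ → ℕ) (hβ : ∀ i, n < i → β i = 0) (h : Cert k n d β) :
    Rfl k n d β :=
  c09 k n d β hβ h

/-- Cutting of a window of two runs. -/
theorem thmC_cut {K : Type} [Field K] (q : K) (hq0 : q ≠ 0) (hq : ∀ j : ℕ, 0 < j → q ^ j ≠ 1) (ν m1 m2 : ℕ) (h1 : 1 ≤ m1) (h2 : 1 ≤ m2)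
    (D : ℕ → ℤ) (hD : ∀ i < ν + (m1 + m2), D i < D (i + 1)) (v1 v2 : ℤ)
    (hv1 : ∀ j < m2, D (ν + 1 + j) = v1 + j) (hv2 : ∀ j < m1, D (ν + 1 + m2 + j) = v2 + j) (hgap : v1 + m2 < v2)
    (β : ℕ → ℕ) (hβ : ∀ i, ν + (m1 + m2) < i → β i = 0) (h : Rfl K (ν + (m1 + m2)) D β) :
    ∃ (β' : ℕ → ℕ) (u h : ℕ), (∀ i, ν < i → β' i = 0) ∧ Rfl K ν D β' ∧ β' 0 = β 0 * h ∧
      (u : ℤ) * ∏ k ∈ Finset.range (m1 + m2 + 1), (k.factorial : ℤ) =
        (∏ k ∈ Finset.range (m2 + 1), (k.factorial : ℤ)) * (∏ k ∈ Finset.range m1, (k.factorial : ℤ)) *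
          ∏ k ∈ Finset.range m1, ∏ i ∈ Finset.range (m2 + 1), ((v2 - v1) + k + 1 - i) ∧
      (h : ℤ) * ((∏ k ∈ Finset.range m1, ((v2 - v1) + k + 1)) * m2.factorial) =
        u * ((∏ j ∈ Finset.range m2, (v1 + j - D 0)) * ∏ j ∈ Finset.range m1, (v2 + j - D 0)) :=
  c40 q hq0 hq ν m1 m2 h1 h2 D hD v1 v2 hv1 hv2 hgap β hβ h

/-- Specialization: from K(t) to fields with many elements. -/
theorem thmC_spec (K : Type) [Field K] (n : ℕ) (d : ℕ → ℤ) (β : ℕ → ℕ) (hβ : ∀ i, n < i → β i = 0) (h : Cert (RatFunc K) n d β) :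
    ∃ c : ℕ, ∀ (L : Type) [Field L] [Algebra K L] (_ : Infinite L ∨ c < Nat.card L), Cert L n d β :=
  c77_spec K n d β hβ h

/-- Restriction of scalars. -/
theorem thmC_restr (K L : Type) [Field K] [Field L] [Algebra K L] (r : ℕ) (hr : Module.finrank K L = r) (h0 : 0 < r) (n : ℕ) (d : ℕ → ℤ)
    (β : ℕ → ℕ) (h : Rfl L n d β) : Rfl K n d (fun i => r * β i) :=
  c81_restr K L r hr h0 n d β h

end H92C
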