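import Pool.Agent.Lib.H92C.H57

/-!
# H92C, module H: exports (blocks, Higman linearization, cone). The definition slr is in H30.lean.
-/

open MvPolynomial

namespace H92C

variable {K : Type} [Field K] (q : K)

/-- Pure resolutions over N + 1 variables from balanced multiplicities of the blocks F_G. -/
theorem thmH (hq0 : q ≠ 0) (hq : ∀ j : ℕ, 0 < j → q ^ j ≠ 1) {N : ℕ} (hN : 1 ≤ N) (D : ℕ → ℤ)
    (hD : ∀ i ≤ N, D i < D (i + 1)) (hl : ell N ≤ D (N + 1) - D N)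
    (m : (Fin (N + 1) → ℤ) → ℕ)
    (hlast : ∀ G ∈ IF (fun i : Fin (N + 2) => D i), ∀ t : ℤ, D N ≤ t → t < D (N + 1) →
      m (Function.update G (Fin.last N) t) = m G)
    (hbal : ∀ p : Fin (N + 1), (p : ℕ) < N → ∀ t t' : ℤ, D p ≤ t → t < D (p + 1) → D p ≤ t' → t' < D (p + 1) →
      slr (fun i : Fin (N + 2) => D i) m p t = slr (fun i : Fin (N + 2) => D i) m p t') :
    ∃ M0 : ℕ, ∀ M : ℕ, M0 ≤ M → ∃ β : ℕ → ℕ, (∀ i, N + 1 < i → β i = 0) ∧
      β 0 = slr (fun i : Fin (N + 2) => D i) (fun G => m G + M) 0 (D 0) ∧ Rfl K (N + 1) D β :=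
  h57_thm q hq0 hq hN D hD hl m hlast hbal

end H92C
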