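import Pool.Agent.Lib.H92C.ThmH
import Pool.Agent.Lib.H92C.N22
import Pool.Agent.Lib.H92C.N23
import Pool.Agent.Lib.H92C.N24
import Pool.Agent.Lib.H92C.N28
import Pool.Agent.Lib.H92C.N32
import Pool.Agent.Lib.H92C.N34
import Pool.Agent.Lib.H92C.N35
import Pool.Agent.Lib.H92C.N36
import Pool.Agent.Lib.H92C.N38

/-!
# H92C, module N: exports (l-adic numerics)
-/

open MvPolynomial

namespace H92C

open NM in
/-- The numerical theorem: windows and balanced multiplicities with a minimal l-adic valuation of the rank. The last inequality: the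
l-adic valuation of the first Betti number times the product of the d_i - d_0 is at most that of the product at some k. -/
theorem thmN (l : ℕ) (hl : l.Prime) (n : ℕ) (hn : 2 ≤ n) (d : ℕ → ℤ) (hd : ∀ i < n, d i < d (i + 1)) :
    ∃ (N : ℕ) (D : ℕ → ℤ), 1 ≤ N ∧ (∀ i ≤ n, D i = d i) ∧ (∀ i ≤ N, D i < D (i + 1)) ∧ Wn l n D (N + 1) ∧
      ell N ≤ D (N + 1) - D N ∧
      ∃ m : (Fin (N + 1) → ℤ) → ℕ,
        (∀ G ∈ IF (fun i : Fin (N + 2) => D i), ∀ t : ℤ, D N ≤ t → t < D (N + 1) →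
          m (Function.update G (Fin.last N) t) = m G) ∧
        (∀ p : Fin (N + 1), (p : ℕ) < N → ∀ t t' : ℤ, D p ≤ t → t < D (p + 1) → D p ≤ t' → t' < D (p + 1) →
          slr (fun i : Fin (N + 2) => D i) m p t = slr (fun i : Fin (N + 2) => D i) m p t') ∧
        ∃ M1 : ℕ, 0 < M1 ∧ ∃ k ≤ n, ∀ M : ℕ, M1 ∣ M →
          padicValNat l (slr (fun i : Fin (N + 2) => D i) (fun G => m G + M) 0 (D 0)) +
            padicValNat l (∏ i ∈ (Finset.range (n + 1)).erase 0, (d i - d 0).natAbs) ≤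
          padicValNat l (∏ i ∈ (Finset.range (n + 1)).erase k, (d i - d k).natAbs) ∧
          slr (fun i : Fin (N + 2) => D i) (fun G => m G + M) 0 (D 0) ≠ 0 := by
  obtain ⟨P, rfl, rfl, hc⟩ := exists_par l hl n hn d hd
  have hnN := P.n_lt_N
  obtain ⟨N', hN⟩ : ∃ N', P.N = N' + 1 := ⟨P.N - 1, by omega⟩
  set K : ℕ := P.E0 + P.n + (N' + 2) + padicValNat P.l (sf (N' + 1)) + 1 with hKdef
  have hK : P.E0 + P.n ≤ K := by omega
  set Y : ℕ := (ell (N' + 1)).toNat + 2 with hYdef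
  have hY : 2 ≤ Y := by omega
  have hNK : N' + 1 < P.l ^ K :=
    lt_of_le_of_lt (by omega : N' + 1 ≤ K) (Nat.lt_pow_self P.hl.one_lt)
  have hF : padicValNat P.l (sf (N' + 1)) < K := by omega
  have hlt : ∀ i ≤ N' + 1, P.D (d 0) K Y i < P.D (d 0) K Y (i + 1) := by
    intro i hi
    exact P.D_lt (d 0) hK hY (by omega)
  have hpiv := P.piv (d 0) hK hY N' hN (by omega) hNK hF
  obtain ⟨k, hk, hmax, heq⟩ := P.tot_max (d 0) hK Y
  rw [hN] at hmax heq
  obtain ⟨C, b, hC, hb⟩ := exists_b P.l hl (P.D (d 0) K Y) (N' + 1) hlt _ hmax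
  have hKK := target_KK (P.D (d 0) K Y) N' hlt b
    (fun p hp => b_rel (P.D (d 0) K Y) (N' + 1) hlt C b (fun i hi => (hb i hi).1) p hp)
  have hSp := elim hpiv _ hKK
  have hb0 : alt b 0 ≠ 0 := by
    have h1 := (hb 0 (by omega)).1
    intro h2
    have h3 : b 0 = 0 := by
      have h4 : ((b 0 : ℕ) : ℤ) = 0 := h2
      exact_mod_cast h4
    rw [h3, zero_mul] at h1
    omega
  obtain ⟨m, hm1, hm2, M1, hM1, hm3⟩ := assemble P.l hl (P.D (d 0) K Y) N' hlt (alt b) hb0 hSp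
  have hW := P.windows (d 0) hK hY
  have hgap := P.D_gap (d 0) hK hY
  rw [hN] at hW hgap
  refine ⟨N' + 1, P.D (d 0) K Y, by omega, ?_, hlt, hW, ?_, m, hm1, hm2, M1, hM1, k, hk, ?_⟩
  · intro i hi
    rw [P.D_le (d 0) K Y hi, hc i hi]
  · have h1 := ell_nonneg (N' + 1)
    have h2 : ((ell (N' + 1)).toNat : ℤ) = ell (N' + 1) := Int.toNat_of_nonneg h1
    have h3 : (Y : ℤ) = ell (N' + 1) + 2 := by rw [hYdef]; push_cast; rw [h2]
    linarith
  · intro M hM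
    obtain ⟨h1, h2⟩ := hm3 M hM
    refine ⟨?_, h2⟩
    have h3 : padicValInt P.l (alt b 0) = padicValNat P.l (b 0) := by simp [alt]
    rw [h1, h3]
    have h4 := (hb 0 (by omega)).2
    have e1 : ∀ j ≤ P.n, ∏ i ∈ (Finset.range (P.n + 1)).erase j, (d i - d j).natAbs =
        ∏ i ∈ (Finset.range (P.n + 1)).erase j, ((P.c i : ℤ) - P.c j).natAbs := by
      intro j hj
      refine Finset.prod_congr rfl fun i hi => ?_
      have hi' : i ≤ P.n := by
        have := Finset.mem_range.1 (Finset.mem_of_mem_erase hi)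
        omega
      rw [hc i hi', hc j hj]
      congr 1
      ring
    rw [e1 0 (by omega), e1 k hk]
    omega

/-- The rank of the module N is prime to l. -/
theorem thmN_cut (l : ℕ) (hl : l.Prime) (E m1 m2 : ℕ) (hm : m1 + m2 = l ^ E) (h1 : 1 ≤ m1) (h2 : 1 ≤ m2) (v1 v2 d0 : ℤ)
    (hd : d0 < v1) (hgap : v1 + m2 < v2) (hc1 : v1 - d0 ≡ l ^ E + m1 [ZMOD (l : ℤ) ^ (E + 1)])
    (hc2 : v2 - d0 ≡ l ^ E [ZMOD (l : ℤ) ^ (E + 1)]) (u h : ℕ)
    (hu : (u : ℤ) * ∏ k ∈ Finset.range (m1 + m2 + 1), (k.factorial : ℤ) =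
      (∏ k ∈ Finset.range (m2 + 1), (k.factorial : ℤ)) * (∏ k ∈ Finset.range m1, (k.factorial : ℤ)) *
        ∏ k ∈ Finset.range m1, ∏ i ∈ Finset.range (m2 + 1), ((v2 - v1) + k + 1 - i))
    (hh : (h : ℤ) * ((∏ k ∈ Finset.range m1, ((v2 - v1) + k + 1)) * m2.factorial) =
      u * ((∏ j ∈ Finset.range m2, (v1 + j - d0)) * ∏ j ∈ Finset.range m1, (v2 + j - d0))) :
    ¬ l ∣ h :=
  NM.cut l hl E m1 m2 hm h1 h2 v1 v2 d0 hd hgap hc1 hc2 u h hu hh

end H92C
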