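import Pool.Agent.Lib.H92C.Defs
import Pool.Agent.Lib.H92B.H2
import Pool.Agent.Lib.H92B.H3

/-!
# H92C, chunk Z01: the Herzog-Kuehl equations for resolutions of finite length
-/

open MvPolynomial

namespace H92C

theorem z01_mono {k : Type} [Field k] {n : ℕ} {b : ℕ} (R : Submodule (MvPolynomial (Fin n) k) (Fin b → MvPolynomial (Fin n) k)) (e : ℕ)
    (h : ∀ (a : Fin n) (v : Fin b → MvPolynomial (Fin n) k), (X a : MvPolynomial (Fin n) k) ^ e • v ∈ R)
    (m : Fin n →₀ ℕ) (hm : n * e + 1 ≤ m.degree) (c : k) (i : Fin b) : (Pi.single i (monomial m c) : Fin b → MvPolynomial (Fin n) k) ∈ R := by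
  have h1 : ∃ a, e ≤ m a := by
    by_contra hh
    push Not at hh
    have h2 : m.degree ≤ ∑ _a : Fin n, e := by
      rw [Finsupp.degree_eq_sum]
      exact Finset.sum_le_sum fun a _ => (hh a).le
    rw [Finset.sum_const, Finset.card_univ, Fintype.card_fin, smul_eq_mul] at h2
    omega
  obtain ⟨a, ha⟩ := h1
  have h2 : (Pi.single i (monomial m c) : Fin b → MvPolynomial (Fin n) k) =
      (X a : MvPolynomial (Fin n) k) ^ e • (Pi.single i (monomial (m - Finsupp.single a e) c)) := by
    rw [← Pi.single_smul, smul_eq_mul, X_pow_eq_monomial, monomial_mul, one_mul, add_tsub_cancel_of_le]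
    rw [Finsupp.single_le_iff]
    exact ha
  rw [h2]
  exact h a _

/-- If X_a^e v is in the range R of f 0 for all a and v, then every vector with homogeneous entries of degree t ≥ n * e (n ≥ 1.. any n: for n = 0 use t ≥ 1: homogeneous of positive degree is 0) is in R: each
entry is a sum of monomials times constants, and a monomial of degree > n (e - 1) is divisible by some X_a^e (pigeonhole). HM k n β t: vectors with entries in hm k n t (H92B.Defs; t is an integer, for t ≥ 0 the homogeneous polynomials of degree t.toNat).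
Write x = Σ_b Σ_m (coefficient) monomial m • single b 1; each summand is X_a^e • (..), in R; R is a submodule. -/
theorem z01_surj {k : Type} [Field k] {n : ℕ} {b : ℕ} (R : Submodule (MvPolynomial (Fin n) k) (Fin b → MvPolynomial (Fin n) k)) (e : ℕ)
    (h : ∀ (a : Fin n) (v : Fin b → MvPolynomial (Fin n) k), (X a : MvPolynomial (Fin n) k) ^ e • v ∈ R) :
    ∀ t : ℤ, (n * e + 1 : ℤ) ≤ t → ∀ x ∈ H92B.HM k n b t, x ∈ R := by
  intro t ht x hx
  have h0 : x = ∑ i, ∑ m ∈ (x i).support, (Pi.single i (monomial m (coeff m (x i))) : Fin b → MvPolynomial (Fin n) k) := by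
    have h1 : x = ∑ i, (Pi.single i (x i) : Fin b → MvPolynomial (Fin n) k) := by
      rw [Finset.univ_sum_single]
    conv_lhs => rw [h1]
    refine Finset.sum_congr rfl fun i _ => ?_
    conv_lhs => rw [(x i).as_sum]
    exact map_sum (LinearMap.single (MvPolynomial (Fin n) k) (fun _ : Fin b => MvPolynomial (Fin n) k) i) _ _
  rw [h0]
  refine Submodule.sum_mem _ fun i _ => Submodule.sum_mem _ fun m hm => z01_mono R e h m ?_ _ i
  have h1 : x i ∈ H92B.hm k n t := hx i (Set.mem_univ _)
  have h3 := H92B.hm_coeff.mp h1 m (mem_support_iff.mp hm)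
  have h4 : ((n * e + 1 : ℕ) : ℤ) ≤ ((m.degree : ℕ) : ℤ) := by
    push_cast
    rw [h3]
    exact ht
  exact_mod_cast h4

/-- Herzog-Kuehl. H92B.h2 with s = n (t0 = n * e + 1, z01_surj for the range of f 0) and H92B.h3 with N + 1 = n. -/
theorem z01 (k : Type) [Field k] (n : ℕ) (hn : 1 ≤ n) (d : ℕ → ℤ) (hd : ∀ i < n, d i < d (i + 1)) (β : ℕ → ℕ)
    (hβ : ∀ i, n < i → β i = 0) (h : Rfl k n d β) : H92B.HK d n β := by
  obtain ⟨f, h1, h2, e, h3⟩ := h
  obtain ⟨N, rfl⟩ : ∃ N, n = N + 1 := ⟨n - 1, by omega⟩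
  obtain ⟨t1, ht⟩ := H92B.h2 d hd β hβ f h1 h2 _ (z01_surj (LinearMap.range (f 0)) e h3)
  exact H92B.h3 N d hd β t1 ht

end H92C
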