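import Pool.Agent.Lib.H92C.ThmC

/-!
# H92C, chunk Z02: cutting all windows
-/

open MvPolynomial

namespace H92C

theorem z02_lt (s : ℕ) (d : ℕ → ℤ) (hd : ∀ i < s, d i < d (i + 1)) (i j : ℕ) (hij : i < j) (hj : j ≤ s) : d i < d j := by
  obtain ⟨e, rfl⟩ : ∃ e, j = i + (e + 1) := ⟨j - i - 1, by omega⟩
  clear hij
  induction e with
  | zero => exact hd i (by omega)
  | succ e ih => exact (ih (by omega)).trans (hd (i + (e + 1)) (by omega))

/-- Induction on Wn. refl: nothing. step: D restricted to [0, ν + l^E] satisfies the hypotheses of thmC_cut (m1 + m2 = l^E; rewrite), which gives β', u, h; thmN_cut (d0 = D 0; D 0 < v1 = D (ν + 1) by monotonicity) gives ¬ l ∣ h, so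
padicValNat l (β 0 * h) = padicValNat l (β 0) and β 0 * h ≠ 0; then the induction hypothesis for β'. -/
theorem z02 {K : Type} [Field K] (q : K) (hq0 : q ≠ 0) (hq : ∀ j : ℕ, 0 < j → q ^ j ≠ 1) (l : ℕ) (hl : l.Prime) (n : ℕ) (D : ℕ → ℤ) (ν : ℕ)
    (hW : Wn l n D ν) (hD : ∀ i < ν, D i < D (i + 1)) (β : ℕ → ℕ) (hβ : ∀ i, ν < i → β i = 0) (h0 : β 0 ≠ 0) (h : Rfl K ν D β) :
    ∃ β' : ℕ → ℕ, (∀ i, n < i → β' i = 0) ∧ β' 0 ≠ 0 ∧ padicValNat l (β' 0) = padicValNat l (β 0) ∧ Rfl K n D β' := by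
  haveI : Fact l.Prime := ⟨hl⟩
  induction hW generalizing β with
  | refl => exact ⟨β, hβ, h0, rfl, h⟩
  | step ν E m1 m2 v1 v2 hW hm h1 h2 hv1 hv2 hgap hc1 hc2 ih =>
    rw [← hm] at h hβ hD
    obtain ⟨β', u, h', hb1, hb2, hb3, hu, hh⟩ := thmC_cut q hq0 hq ν m1 m2 h1 h2 D hD v1 v2 hv1 hv2 hgap β hβ h
    have hv : D 0 < v1 := by
      have e1 := hv1 0 (by omega)
      simp only [add_zero, Nat.cast_zero] at e1
      rw [← e1]
      exact z02_lt _ D hD 0 (ν + 1) (by omega) (by omega)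
    have hn := thmN_cut l hl E m1 m2 hm h1 h2 v1 v2 (D 0) hv hgap hc1 hc2 u h' hu hh
    have hn0 : h' ≠ 0 := by
      rintro rfl
      exact hn (dvd_zero l)
    have hb0 : β' 0 ≠ 0 := by
      rw [hb3]
      exact mul_ne_zero h0 hn0
    obtain ⟨β'', c1, c2, c3, c4⟩ := ih (fun i hi => hD i (by omega)) β' hb1 hb0 hb2
    refine ⟨β'', c1, c2, ?_, c4⟩
    rw [c3, hb3, padicValNat.mul h0 hn0, padicValNat.eq_zero_of_not_dvd hn, add_zero]

/-- Rfl only depends on the degrees 0..n. -/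
theorem z02_congr (K : Type) [Field K] (n : ℕ) (D d : ℕ → ℤ) (h : ∀ i ≤ n, D i = d i) (β : ℕ → ℕ) (hβ : ∀ i, n < i → β i = 0) (H : Rfl K n D β) :
    Rfl K n d β := by
  obtain ⟨f, h1, h2, h3⟩ := H
  refine ⟨f, fun i a b => ?_, h2, h3⟩
  by_cases hi : i < n
  · rw [← h i (by omega), ← h (i + 1) (by omega)]
    exact h1 i a b
  · have h4 : β (i + 1) = 0 := hβ (i + 1) (by omega)
    exact absurd b.isLt (by omega)

end H92C
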