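import Pool.Agent.Lib.H92C.Z01
import Pool.Agent.Lib.H92C.Z02

/-!
# H92C, chunk Z03: for every prime l a resolution over RatFunc K with a Betti number prime to l
-/

open MvPolynomial

namespace H92C

theorem z03_X (K : Type) [Field K] (j : ℕ) (hj : 0 < j) : (RatFunc.X : RatFunc K) ^ j ≠ 1 := by
  intro h
  rw [← RatFunc.algebraMap_X, ← map_pow, ← map_one (algebraMap (Polynomial K) (RatFunc K))] at h
  have h1 := RatFunc.algebraMap_injective K h
  have h2 := congrArg Polynomial.natDegree h1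
  rw [Polynomial.natDegree_X_pow, Polynomial.natDegree_one] at h2
  omega

theorem z03_mono (n : ℕ) (d : ℕ → ℤ) (hd : ∀ i < n, d i < d (i + 1)) : ∀ j i, i < j → j ≤ n → d i < d j := by
  intro j
  induction j with
  | zero => intro i hi; omega
  | succ j ih =>
    intro i hi hj
    rcases Nat.lt_succ_iff_lt_or_eq.1 hi with h | h
    · exact (ih i h (by omega)).trans (hd j (by omega))
    · rw [h]
      exact hd j (by omega)

theorem z03_ne (n : ℕ) (d : ℕ → ℤ) (hd : ∀ i < n, d i < d (i + 1)) (k : ℕ) (hk : k ≤ n) :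
    ∏ i ∈ (Finset.range (n + 1)).erase k, (d i - d k).natAbs ≠ 0 := by
  rw [Finset.prod_ne_zero_iff]
  intro j hj
  have h1 := Finset.ne_of_mem_erase hj
  have h2 := Finset.mem_range.1 (Finset.mem_of_mem_erase hj)
  rw [Int.natAbs_ne_zero]
  rcases lt_or_gt_of_ne h1 with h | h
  · have := z03_mono n d hd k j h hk
    omega
  · have := z03_mono n d hd j k h (by omega)
    omega

/-- thmN gives N, D, m, M1, k. thmH over RatFunc K with q = RatFunc.X (not 0, of infinite order: RatFunc.X ^ j = 1 would give X ^ j = 1 in K[X]) gives M0; M := M1 * (M0 + 1) ≥ M0, M1 ∣ M: β with β 0 = slr (m + M), Rfl (N + 1) D β. z02 (ν = N + 1), z02_congr: β' with Rfl (RatFunc K) n d β',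
v(β' 0) = v(β 0). z01: HK: β' 0 * Π_0 = β' k * Π_k, Π_i = ∏_{j ∈ (range (n+1)).erase i} |d j - d i| ≠ 0 (natural numbers: natAbs). With v(β 0) + v(Π_0) ≤ v(Π_k): v(β' k) = v(β' 0) + v(Π_0) - v(Π_k) ≤ 0 and β' k ≠ 0, so ¬ l ∣ β' k (padicValNat.mul; padicValNat l x = 0 and x ≠ 0 → ¬ l ∣ x).
(the products in thmN: ∏ (d i - d k).natAbs over i; cast to ℤ: |d i - d k|.) -/
theorem z03 (K : Type) [Field K] (l : ℕ) (hl : l.Prime) (n : ℕ) (hn : 2 ≤ n) (d : ℕ → ℤ) (hd : ∀ i < n, d i < d (i + 1)) :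
    ∃ β : ℕ → ℕ, (∀ i, n < i → β i = 0) ∧ Rfl (RatFunc K) n d β ∧ ∃ k ≤ n, ¬ l ∣ β k := by
  obtain ⟨N, D, hN, hDd, hD, hW, hell, m, hlast, hbal, M1, hM1, k, hk, hM⟩ := thmN l hl n hn d hd
  have hq0 : (RatFunc.X : RatFunc K) ≠ 0 := RatFunc.X_ne_zero
  obtain ⟨M0, hM0⟩ := thmH (K := RatFunc K) RatFunc.X hq0 (z03_X K) hN D hD hell m hlast hbal
  obtain ⟨β, hβz, hβs, hR⟩ := hM0 (M1 * (M0 + 1)) (by nlinarith)
  obtain ⟨hv, hne⟩ := hM (M1 * (M0 + 1)) ⟨M0 + 1, rfl⟩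
  rw [← hβs] at hv hne
  obtain ⟨β', hz', h0', hv', hR'⟩ := z02 RatFunc.X hq0 (z03_X K) l hl n D (N + 1) hW (fun i hi => hD i (by omega)) β
    hβz hne hR
  have hR2 := z02_congr (RatFunc K) n D d hDd β' hz' hR'
  have hHK := z01 (RatFunc K) n (by omega) d hd β' hz' hR2
  refine ⟨β', hz', hR2, k, hk, ?_⟩
  have h1 := hHK 0 (Nat.zero_le n) k hk
  have h2 : β' 0 * ∏ i ∈ (Finset.range (n + 1)).erase 0, (d i - d 0).natAbs =
      β' k * ∏ i ∈ (Finset.range (n + 1)).erase k, (d i - d k).natAbs := by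
    zify
    exact h1
  have hP0 := z03_ne n d hd 0 (Nat.zero_le n)
  have hPk := z03_ne n d hd k hk
  have hk0 : β' k ≠ 0 := by
    intro h
    rw [h, zero_mul] at h2
    exact (mul_ne_zero h0' hP0) h2
  haveI : Fact l.Prime := ⟨hl⟩
  have h3 := congrArg (padicValNat l) h2
  rw [padicValNat.mul h0' hP0, padicValNat.mul hk0 hPk] at h3
  intro hdvd
  have h4 := one_le_padicValNat_of_dvd hk0 hdvd
  omega

end H92C
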