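import Pool.Agent.Lib.H92C.Z03

/-!
# H92C, chunk Z04: descent to the given field
-/

open MvPolynomial

namespace H92C

/-- Infinite K: L = K, r = 1 (Algebra.id). Finite K: choose a prime r ≠ l with r > c (Nat.exists_infinite_primes), L = FiniteField.Extension K p r (Mathlib.FieldTheory.Finite.Extension; p the characteristic), finrank = r, Nat.card L = (Nat.card K)^r ≥ 2^r > r > c;
l ∤ r as r ≠ l are primes. -/
theorem z04_field (K : Type) [Field K] (l : ℕ) (hl : l.Prime) (c : ℕ) :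
    ∃ (L : Type) (_ : Field L) (_ : Algebra K L) (r : ℕ), Module.finrank K L = r ∧ 0 < r ∧ ¬ l ∣ r ∧ (Infinite L ∨ c < Nat.card L) := by
  rcases finite_or_infinite K with hK | hK
  · obtain ⟨p, hp⟩ := CharP.exists K
    haveI : Fact p.Prime := ⟨CharP.char_is_prime K p⟩
    obtain ⟨r, hr1, hr2⟩ := Nat.exists_infinite_primes (l + c + 1)
    haveI : NeZero r := ⟨hr2.pos.ne'⟩
    refine ⟨FiniteField.Extension K p r, inferInstance, inferInstance, r, FiniteField.finrank_extension K p r, hr2.pos,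
      ?_, Or.inr ?_⟩
    · intro h
      have := (Nat.prime_dvd_prime_iff_eq hl hr2).1 h
      omega
    · rw [FiniteField.natCard_extension]
      have h1 : 2 ≤ Nat.card K := Finite.one_lt_card
      have h2 : 2 ^ r ≤ Nat.card K ^ r := Nat.pow_le_pow_left h1 r
      have h3 : r < 2 ^ r := Nat.lt_two_pow_self
      omega
  · refine ⟨K, inferInstance, Algebra.id K, 1, Module.finrank_self K, one_pos, ?_, Or.inl hK⟩
    exact hl.one_lt.not_ge ∘ fun h => Nat.le_of_dvd one_pos h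

/-- z03, thmC_cert, thmC_spec, z04_field, thmC_rfl, thmC_restr. -/
theorem z04 (K : Type) [Field K] (l : ℕ) (hl : l.Prime) (n : ℕ) (hn : 2 ≤ n) (d : ℕ → ℤ) (hd : ∀ i < n, d i < d (i + 1)) :
    ∃ β : ℕ → ℕ, (∀ i, n < i → β i = 0) ∧ Rfl K n d β ∧ ∃ k ≤ n, ¬ l ∣ β k := by
  obtain ⟨β, hz, hR, k, hk, hdvd⟩ := z03 K l hl n hn d hd
  obtain ⟨c, hc⟩ := thmC_spec K n d β hz (thmC_cert (RatFunc K) n d β hR)
  obtain ⟨L, iF, iA, r, hr, hr0, hrd, hL⟩ := z04_field K l hl c
  have h1 := thmC_restr K L r hr hr0 n d β (thmC_rfl L n d β hz (hc L hL))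
  refine ⟨fun i => r * β i, fun i hi => ?_, h1, k, hk, fun h => ?_⟩
  · show r * β i = 0
    rw [hz i hi, mul_zero]
  · rcases hl.dvd_mul.1 h with h | h
    · exact hrd h
    · exact hdvd h

end H92C
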