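import Pool.Agent.Lib.H92B.Basic

/-!
# H92C, chunk Z05: numerical semigroups, primitive vectors, direct sums
-/

open MvPolynomial

namespace H92C

/-- A set of natural numbers closed under addition which for every prime l contains an element not divisible by l contains all large numbers. Proof: c2 in S odd (so c2 ≠ 0); for every prime factor l of c2 an element c_l in S with l ∤ c_l; the gcd of the finitely many elements is 1, so
1 is an integer combination; with nonnegative coefficients: a, a + 1 in S' := closure for some a (move the negative terms to the other side; S closed under addition, positive combinations), and then every number ≥ a^2 is i * a + j * (a + 1) with i ≥ 0, j ≥ 0, not both 0.. (i = quotient - remainder). -/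
theorem z05_semi (S : Set ℕ) (hadd : ∀ a ∈ S, ∀ b ∈ S, a + b ∈ S) (hl : ∀ l : ℕ, l.Prime → ∃ c ∈ S, ¬ l ∣ c) :
    ∃ N, ∀ c, N ≤ c → c ∈ S := by
  obtain ⟨N, hN⟩ := Nat.exists_mem_closure_of_ge S
  have h1 : Nat.setGcd S = 1 := by
    by_contra hne
    obtain ⟨l, hl1, hl2⟩ := Nat.exists_prime_and_dvd hne
    obtain ⟨c, hc, hc'⟩ := hl l hl1
    exact hc' (hl2.trans (Nat.setGcd_dvd_of_mem hc))
  have h2 : ∀ x ∈ AddSubmonoid.closure S, x = 0 ∨ x ∈ S := by
    intro x hx
    induction hx using AddSubmonoid.closure_induction with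
    | mem x hx => exact Or.inr hx
    | zero => exact Or.inl rfl
    | add x y _ _ hx hy =>
      rcases hx with hx | hx
      · rw [hx, zero_add]
        exact hy
      · rcases hy with hy | hy
        · rw [hy, add_zero]
          exact Or.inr hx
        · exact Or.inr (hadd x hx y hy)
  refine ⟨N + 1, fun c hc => ?_⟩
  rcases h2 c (hN c (by omega) (by rw [h1]; exact one_dvd c)) with h | h
  · omega
  · exact h

theorem z05_lt (s : ℕ) (d : ℕ → ℤ) (hd : ∀ i < s, d i < d (i + 1)) (i j : ℕ) (hij : i < j) (hj : j ≤ s) : d i < d j := by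
  obtain ⟨e, rfl⟩ : ∃ e, j = i + (e + 1) := ⟨j - i - 1, by omega⟩
  clear hij
  induction e with
  | zero => exact hd i (by omega)
  | succ e ih => exact (ih (by omega)).trans (hd (i + (e + 1)) (by omega))

theorem z05_ne (n : ℕ) (d : ℕ → ℤ) (hd : ∀ i < n, d i < d (i + 1)) (i : ℕ) (hi : i ≤ n) :
    ∏ j ∈ (Finset.range (n + 1)).erase i, |d j - d i| ≠ 0 := by
  rw [Finset.prod_ne_zero_iff]
  intro j hj
  rw [Finset.mem_erase, Finset.mem_range] at hj
  rw [abs_ne_zero, sub_ne_zero]
  rcases lt_or_gt_of_ne hj.1 with h | h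
  · exact (z05_lt n d hd j i h hi).ne
  · exact (z05_lt n d hd i j h (by omega)).ne'

/-- The primitive vector. d increasing on 0..n, b an HK vector with b 0 ≠ 0. Then there is p with p i ≠ 0 for i ≤ n, HK, p i = 0 for i > n, and every HK vector β (with β i = 0 for i > n) is c • p for a natural number c: p = b / gcd(b_0..b_n). All HK vectors are proportional: β i * b j = β j * b i (HK with the common products Π_i ≠ 0);
Bezout Σ a_j p_j = 1: β i = p i * Σ a_j β_j. -/
theorem z05_prim (n : ℕ) (d : ℕ → ℤ) (hd : ∀ i < n, d i < d (i + 1)) (b : ℕ → ℕ) (hb : H92B.HK d n b) (hb0 : b 0 ≠ 0) :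
    ∃ p : ℕ → ℕ, (∀ i ≤ n, p i ≠ 0) ∧ ∀ β : ℕ → ℕ, (∀ i, n < i → β i = 0) → H92B.HK d n β → ∃ c : ℕ, ∀ i ≤ n, β i = c * p i := by
  have hbi : ∀ i ≤ n, b i ≠ 0 := by
    intro i hi h0
    have h1 := hb i hi 0 (by omega)
    rw [h0, Nat.cast_zero, zero_mul] at h1
    have h2 : (b 0 : ℤ) ≠ 0 := by exact_mod_cast hb0
    exact (mul_ne_zero h2 (z05_ne n d hd 0 (by omega))) h1.symm
  set g := (Finset.range (n + 1)).gcd b with hg
  have hg0 : g ≠ 0 := by
    intro h0
    rw [hg, Finset.gcd_eq_zero_iff] at h0
    exact hb0 (h0 0 (Finset.mem_range.mpr (by omega)))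
  have hgd : ∀ i ≤ n, g ∣ b i := fun i hi => Finset.gcd_dvd (Finset.mem_range.mpr (by omega))
  have hpi : ∀ i ≤ n, b i = g * (b i / g) := fun i hi => (Nat.mul_div_cancel' (hgd i hi)).symm
  have hp0 : ∀ i ≤ n, b i / g ≠ 0 := by
    intro i hi h0
    have h1 := hpi i hi
    rw [h0, mul_zero] at h1
    exact hbi i hi h1
  have hgcd : (Finset.range (n + 1)).gcd (fun i => b i / g) = 1 :=
    Finset.gcd_div_eq_one (i := 0) (Finset.mem_range.mpr (by omega)) hb0
  refine ⟨fun i => b i / g, hp0, ?_⟩
  intro β _ hβ
  have hprop : ∀ i ≤ n, ∀ j ≤ n, β i * (b j / g) = β j * (b i / g) := by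
    intro i hi j hj
    have h1 := hβ i hi j hj
    have h2 := hb i hi j hj
    have hi' := z05_ne n d hd i hi
    have hj' := z05_ne n d hd j hj
    have h3 : (β i : ℤ) * b j = β j * b i := by
      apply mul_right_cancel₀ (mul_ne_zero hi' hj')
      calc (β i : ℤ) * b j * ((∏ l ∈ (Finset.range (n + 1)).erase i, |d l - d i|) *
            ∏ l ∈ (Finset.range (n + 1)).erase j, |d l - d j|)
          = (β i * ∏ l ∈ (Finset.range (n + 1)).erase i, |d l - d i|) *
            (b j * ∏ l ∈ (Finset.range (n + 1)).erase j, |d l - d j|) := by ring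
        _ = (β j * ∏ l ∈ (Finset.range (n + 1)).erase j, |d l - d j|) *
            (b i * ∏ l ∈ (Finset.range (n + 1)).erase i, |d l - d i|) := by rw [h1, ← h2]
        _ = _ := by ring
    have h4 : β i * b j = β j * b i := by exact_mod_cast h3
    rw [hpi i hi, hpi j hj] at h4
    have h5 : g * (β i * (b j / g)) = g * (β j * (b i / g)) := by
      calc g * (β i * (b j / g)) = β i * (g * (b j / g)) := by ring
        _ = β j * (g * (b i / g)) := h4
        _ = _ := by ring
    exact Nat.eq_of_mul_eq_mul_left (Nat.pos_of_ne_zero hg0) h5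
  have hdvd : b 0 / g ∣ β 0 := by
    have h1 : b 0 / g ∣ (Finset.range (n + 1)).gcd (fun j => β 0 * (b j / g)) := by
      rw [Finset.dvd_gcd_iff]
      intro j hj
      rw [hprop 0 (by omega) j (by rw [Finset.mem_range] at hj; omega)]
      exact dvd_mul_left _ _
    rw [Finset.gcd_mul_left, hgcd, mul_one] at h1
    simpa using h1
  obtain ⟨c, hc⟩ := hdvd
  refine ⟨c, fun i hi => ?_⟩
  have h1 := hprop i hi 0 (by omega)
  rw [hc] at h1
  have h2 : (b 0 / g) * β i = (b 0 / g) * (c * (b i / g)) := by
    rw [mul_comm, h1]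
    ring
  exact Nat.eq_of_mul_eq_mul_left (Nat.pos_of_ne_zero (hp0 0 (by omega))) h2

section sum

variable {P : Type} [CommRing P] {a b c d : ℕ}

/-- The direct sum of two maps. -/
def z05_ds (f : (Fin a → P) →ₗ[P] (Fin b → P)) (g : (Fin c → P) →ₗ[P] (Fin d → P)) : (Fin (a + c) → P) →ₗ[P] (Fin (b + d) → P) where
  toFun v := Fin.append (f fun i => v (Fin.castAdd c i)) (g fun i => v (Fin.natAdd a i))
  map_add' u v := by
    have h1 : (fun i => (u + v) (Fin.castAdd c i)) = (fun i => u (Fin.castAdd c i)) + fun i => v (Fin.castAdd c i) := rfl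
    have h2 : (fun i => (u + v) (Fin.natAdd a i)) = (fun i => u (Fin.natAdd a i)) + fun i => v (Fin.natAdd a i) := rfl
    rw [h1, h2, map_add, map_add]
    funext i
    refine Fin.addCases (fun i => ?_) (fun i => ?_) i <;> simp
  map_smul' r v := by
    have h1 : (fun i => (r • v) (Fin.castAdd c i)) = r • fun i => v (Fin.castAdd c i) := rfl
    have h2 : (fun i => (r • v) (Fin.natAdd a i)) = r • fun i => v (Fin.natAdd a i) := rfl
    rw [h1, h2, map_smul, map_smul]
    funext i
    refine Fin.addCases (fun i => ?_) (fun i => ?_) i <;> simp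

theorem z05_ds_left (f : (Fin a → P) →ₗ[P] (Fin b → P)) (g : (Fin c → P) →ₗ[P] (Fin d → P)) (v : Fin (a + c) → P) (i : Fin b) :
    z05_ds f g v (Fin.castAdd d i) = f (fun i => v (Fin.castAdd c i)) i :=
  Fin.append_left _ _ i

theorem z05_ds_right (f : (Fin a → P) →ₗ[P] (Fin b → P)) (g : (Fin c → P) →ₗ[P] (Fin d → P)) (v : Fin (a + c) → P) (i : Fin d) :
    z05_ds f g v (Fin.natAdd b i) = g (fun i => v (Fin.natAdd a i)) i :=
  Fin.append_right _ _ i

end sum

/-- Direct sums of resolutions: β i + β' i. Use the equivalences (Fin (a + b) → P) ≃ (Fin a → P) × (Fin b → P) (e.g. Fin.appendEquiv, or Fin.castAdd, Fin.natAdd, Fin.addCases) and the product map. -/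
theorem z05_sum (k : Type) [Field k] (n : ℕ) (d : ℕ → ℤ) (β β' : ℕ → ℕ) (h : H92B.Res k n d β) (h' : H92B.Res k n d β') :
    H92B.Res k n d (fun i => β i + β' i) := by
  obtain ⟨f, hf1, hf2⟩ := h
  obtain ⟨g, hg1, hg2⟩ := h'
  refine ⟨fun i => z05_ds (f i) (g i), ?_, ?_⟩
  · intro i a b
    refine Fin.addCases (fun b => ?_) (fun b => ?_) b
    · have h1 : (fun j => (Pi.single (Fin.castAdd (β' (i + 1)) b) 1 : Fin (β (i + 1) + β' (i + 1)) → MvPolynomial (Fin n) k) (Fin.castAdd _ j)) =
          Pi.single b 1 := by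
        funext j
        by_cases hj : j = b
        · subst hj
          simp
        · rw [Pi.single_eq_of_ne hj, Pi.single_eq_of_ne]
          intro h
          exact hj (Fin.castAdd_injective _ _ h)
      have h2 : (fun j => (Pi.single (Fin.castAdd (β' (i + 1)) b) 1 : Fin (β (i + 1) + β' (i + 1)) → MvPolynomial (Fin n) k) (Fin.natAdd _ j)) = 0 := by
        funext j
        rw [Pi.single_eq_of_ne, Pi.zero_apply]
        intro h
        have := congrArg Fin.val h
        simp at this
        omega
      refine Fin.addCases (fun a => ?_) (fun a => ?_) a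
      · rw [z05_ds_left, h1]
        exact hf1 i a b
      · rw [z05_ds_right, h2, map_zero]
        exact isHomogeneous_zero _ _ _
    · have h1 : (fun j => (Pi.single (Fin.natAdd (β (i + 1)) b) 1 : Fin (β (i + 1) + β' (i + 1)) → MvPolynomial (Fin n) k) (Fin.natAdd _ j)) =
          Pi.single b 1 := by
        funext j
        by_cases hj : j = b
        · subst hj
          simp
        · rw [Pi.single_eq_of_ne hj, Pi.single_eq_of_ne]
          intro h
          exact hj (Fin.natAdd_injective _ _ h)
      have h2 : (fun j => (Pi.single (Fin.natAdd (β (i + 1)) b) 1 : Fin (β (i + 1) + β' (i + 1)) → MvPolynomial (Fin n) k) (Fin.castAdd _ j)) = 0 := by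
        funext j
        rw [Pi.single_eq_of_ne, Pi.zero_apply]
        intro h
        have := congrArg Fin.val h
        simp at this
        omega
      refine Fin.addCases (fun a => ?_) (fun a => ?_) a
      · rw [z05_ds_left, h2, map_zero]
        exact isHomogeneous_zero _ _ _
      · rw [z05_ds_right, h1]
        exact hg1 i a b
  · intro i
    apply le_antisymm
    · rintro _ ⟨v, rfl⟩
      rw [LinearMap.mem_ker]
      funext a
      refine Fin.addCases (fun a => ?_) (fun a => ?_) a
      · rw [z05_ds_left]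
        have h1 : (fun j => z05_ds (f (i + 1)) (g (i + 1)) v (Fin.castAdd (β' (i + 1)) j)) = f (i + 1) fun j => v (Fin.castAdd _ j) :=
          funext fun j => z05_ds_left _ _ _ j
        rw [h1]
        have h2 : f (i + 1) (fun j => v (Fin.castAdd _ j)) ∈ LinearMap.ker (f i) := by
          rw [← hf2]
          exact LinearMap.mem_range_self _ _
        rw [LinearMap.mem_ker.mp h2]
        rfl
      · rw [z05_ds_right]
        have h1 : (fun j => z05_ds (f (i + 1)) (g (i + 1)) v (Fin.natAdd (β (i + 1)) j)) = g (i + 1) fun j => v (Fin.natAdd _ j) :=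
          funext fun j => z05_ds_right _ _ _ j
        rw [h1]
        have h2 : g (i + 1) (fun j => v (Fin.natAdd _ j)) ∈ LinearMap.ker (g i) := by
          rw [← hg2]
          exact LinearMap.mem_range_self _ _
        rw [LinearMap.mem_ker.mp h2]
        rfl
    · intro v hv
      rw [LinearMap.mem_ker] at hv
      have h1 : f i (fun j => v (Fin.castAdd _ j)) = 0 := by
        funext a
        have := congrFun hv (Fin.castAdd _ a)
        rw [z05_ds_left] at this
        exact this
      have h2 : g i (fun j => v (Fin.natAdd _ j)) = 0 := by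
        funext a
        have := congrFun hv (Fin.natAdd _ a)
        rw [z05_ds_right] at this
        exact this
      rw [← LinearMap.mem_ker, ← hf2] at h1
      rw [← LinearMap.mem_ker, ← hg2] at h2
      obtain ⟨u, hu⟩ := h1
      obtain ⟨w, hw⟩ := h2
      refine ⟨Fin.append u w, ?_⟩
      funext a
      refine Fin.addCases (fun a => ?_) (fun a => ?_) a
      · rw [z05_ds_left]
        have h3 : (fun j => Fin.append u w (Fin.castAdd _ j)) = u := funext fun j => Fin.append_left _ _ j
        rw [h3, hu]
      · rw [z05_ds_right]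
        have h3 : (fun j => Fin.append u w (Fin.natAdd _ j)) = w := funext fun j => Fin.append_right _ _ j
        rw [h3, hw]

end H92C
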