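import Pool.Agent.Lib.H92C.Z04
import Pool.Agent.Lib.H92C.Z05
import Pool.Agent.Lib.H92B.FIN

/-!
# H92C, chunk Z06: the theorem
-/

open MvPolynomial

namespace H92C

/-- Rfl contains Res. -/
theorem z06_res (k : Type) [Field k] (n : ℕ) (d : ℕ → ℤ) (β : ℕ → ℕ) (h : Rfl k n d β) : H92B.Res k n d β := by
  obtain ⟨f, h1, h2, _⟩ := h
  exact ⟨f, h1, h2⟩

/-- The products in the Herzog-Kuehl equations do not vanish. -/
theorem z06_prod (n : ℕ) (d : ℕ → ℤ) (hd : ∀ i < n, d i < d (i + 1)) (i : ℕ) (hi : i ≤ n) :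
    ∏ j ∈ (Finset.range (n + 1)).erase i, |d j - d i| ≠ 0 := by
  have hlt : ∀ a b : ℕ, a < b → b ≤ n → d a < d b := by
    intro a b hab hb
    obtain ⟨e, rfl⟩ : ∃ e, b = a + (e + 1) := ⟨b - a - 1, by omega⟩
    exact H92B.fin_mono n d hd a e hb
  rw [Finset.prod_ne_zero_iff]
  intro j hj
  rw [Finset.mem_erase, Finset.mem_range] at hj
  rw [abs_ne_zero, sub_ne_zero]
  rcases lt_or_gt_of_ne hj.1 with h | h
  · exact (hlt j i h hi).ne
  · exact (hlt i j h (by omega)).ne'

/-- The case s = n ≥ 2. z04 for l = 2 gives an HK vector b (z01) with some b k odd, so b 0 ≠ 0; z05_prim: p. S := {c | Res k n d (fun i => if i ≤ n then c * p i else 0)}: closed under addition (z05_sum), for every prime l z04 gives β = c p with l ∤ β k, so l ∤ c, c ∈ S (β is this function). z05_semi: N0. An HK vector β, zero beyond n, is c p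
with β 0 = c * p 0; if β 0 ≥ N0 * p 0 then c ≥ N0, so Res for β. -/
theorem z06_n (k : Type) [Field k] (n : ℕ) (hn : 2 ≤ n) (d : ℕ → ℤ) (hd : ∀ i < n, d i < d (i + 1)) : H92B.Good k n n d := by
  obtain ⟨b, hb1, hb2, k2, hk2, hk3⟩ := z04 k 2 Nat.prime_two n hn d hd
  have hbHK := z01 k n (by omega) d hd b hb1 hb2
  have hb0 : b 0 ≠ 0 := by
    intro h0
    have h1 := hbHK 0 (Nat.zero_le n) k2 hk2
    rw [h0, Nat.cast_zero, zero_mul] at h1
    rcases mul_eq_zero.1 h1.symm with h2 | h2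
    · exact hk3 (by rw [Nat.cast_eq_zero.1 h2]; exact dvd_zero 2)
    · exact z06_prod n d hd k2 hk2 h2
  obtain ⟨p, hp0, hp⟩ := z05_prim n d hd b hbHK hb0
  have hfun : ∀ (β : ℕ → ℕ) (c : ℕ), (∀ i, n < i → β i = 0) → (∀ i ≤ n, β i = c * p i) →
      β = fun i => if i ≤ n then c * p i else 0 := by
    intro β c h1 h2
    funext i
    by_cases h : i ≤ n
    · rw [if_pos h, h2 i h]
    · rw [if_neg h, h1 i (by omega)]
  obtain ⟨N0, hN0⟩ := z05_semi {c : ℕ | H92B.Res k n d (fun i => if i ≤ n then c * p i else 0)} (by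
    intro a ha c hc
    have h := z05_sum k n d (fun i => if i ≤ n then a * p i else 0) (fun i => if i ≤ n then c * p i else 0) ha hc
    show H92B.Res k n d (fun i => if i ≤ n then (a + c) * p i else 0)
    have e : (fun i => (if i ≤ n then a * p i else 0) + (if i ≤ n then c * p i else 0)) =
        fun i => if i ≤ n then (a + c) * p i else 0 := by
      funext i
      by_cases h : i ≤ n
      · rw [if_pos h, if_pos h, if_pos h, add_mul]
      · rw [if_neg h, if_neg h, if_neg h]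
    rw [← e]
    exact h) (by
    intro l hl
    obtain ⟨β, h1, h2, j, hj, h3⟩ := z04 k l hl n hn d hd
    obtain ⟨c, hc⟩ := hp β h1 (z01 k n (by omega) d hd β h1 h2)
    refine ⟨c, ?_, fun h => h3 (by rw [hc j hj]; exact Dvd.dvd.mul_right h _)⟩
    show H92B.Res k n d (fun i => if i ≤ n then c * p i else 0)
    rw [← hfun β c h1 hc]
    exact z06_res k n d β h2)
  refine ⟨N0 * p 0, fun β h1 _ h3 h4 => ?_⟩
  obtain ⟨c, hc⟩ := hp β h1 h4
  rw [hc 0 (Nat.zero_le n)] at h3
  have h5 : N0 ≤ c := Nat.le_of_mul_le_mul_right h3 (Nat.pos_of_ne_zero (hp0 0 (Nat.zero_le n)))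
  rw [hfun β c h1 hc]
  exact hN0 c h5

/-- All s ≤ n. s = 0: H92B.z0; s = 1: HK gives β 0 = β 1, H92B.z1 (see the proof of H92B.fin_one); s ≥ 2: z06_n over s variables and H92B.fin_bc for the n - s further variables. -/
theorem z06 (k : Type) [Field k] (n s : ℕ) (hs : s ≤ n) (d : ℕ → ℤ) (hd : ∀ i < s, d i < d (i + 1)) : H92B.Good k n s d := by
  match s, hs, hd with
  | 0, _, _ => exact ⟨0, fun β hz _ _ _ => H92B.z0 k n d β fun i hi => hz i hi⟩
  | 1, hs, hd =>
    refine ⟨0, fun β hz _ _ hHK => H92B.z1 k n (by omega) d β (fun i hi => hz i hi) ?_⟩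
    have h1 := hHK 0 (by omega) 1 le_rfl
    have e0 : (Finset.range (1 + 1)).erase 0 = {1} := by decide
    have e1 : (Finset.range (1 + 1)).erase 1 = {0} := by decide
    rw [e0, e1, Finset.prod_singleton, Finset.prod_singleton, abs_sub_comm (d 0)] at h1
    have h2 : |d 1 - d 0| ≠ 0 := by
      have := hd 0 (by omega)
      rw [zero_add] at this
      exact abs_ne_zero.2 (by omega)
    exact_mod_cast (mul_right_cancel₀ h2 h1).symm
  | N + 2, hs, hd =>
    obtain ⟨B, hB⟩ := z06_n k (N + 2) (by omega) d hd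
    refine ⟨B, fun β hz hpos hbig hHK => ?_⟩
    obtain ⟨t, rfl⟩ := Nat.exists_eq_add_of_le hs
    exact H92B.fin_bc k (N + 2) d β (hB β hz hpos hbig hHK) t

end H92C
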